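import Pool.Agent.Lib.MP_b9166b_al.Pt.Cvr
import Pool.Agent.Lib.MP_b9166b_al.Ks2.CovLin

/-!
# MP_b9166b_al, PT: the covers of the theorem

`exists_cvr`: as `Ks2.exists_lcov` (Ks2/CovLin.lean). `exists_sep` for `S`, `H, T, M` for the larger set, `σ : SL_n(F) → H/T`,
`V = Fin n → F`, `Gam = {(h, u) | h ∈ H, u = slHom b, hT = σ b * c, c commutes with all σ b'}`, `LL` the same with `c = 1`.
`scal`: `sl_decomp` with `1 = σ b * c`. `ker`: `slHom b = 1`, so `b = 1`, `hT = 1`, and `T` is a `p`-group. `Ge S`: from the separation, as in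
`exists_lcov` (if `u` is a scalar then `σ b` is central, so `sT` commutes with all `σ b'`).
-/

set_option autoImplicit false

namespace Pool.Agent.Lib.MP_b9166b_al.Pt

open Ks2

/-- `L` is isomorphic to `SL_n(F)` for some `n` and some finite field `F` of characteristic `p` -/
def IsSLp (p : ℕ) (L : Type) [Group L] : Prop :=
  ∃ (F : Type) (_ : Field F) (n : ℕ), Finite F ∧ CharP F p ∧
    Nonempty (Matrix.SpecialLinearGroup (Fin n) F ≃* L)

/-- `H` is a finite subgroup containing `z`, it has a normal `p`-subgroup `T`, and `H / T = M C(M)`, where `M` is the quotient of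
some `SL_n(F)`, `F` a finite field of characteristic `p`, by a central subgroup, and `M` does not centralize `z T`. -/
def PCov (p : ℕ) {G : Type} [Group G] (z : G) (H : Subgroup G) : Prop :=
  Finite H ∧ ∃ (hz : z ∈ H) (T : Subgroup H) (_ : T.Normal) (M : Subgroup (H ⧸ T)),
    IsPGroup p T ∧ Factor (fun L _ => IsSLp p L) M ∧
      ((⟨z, hz⟩ : H) : H ⧸ T) ∉ Subgroup.centralizer (M : Set (H ⧸ T))

section

variable {H : Type} [Group H] {n : ℕ} {F : Type} [Field F]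

/-- `(h, b)` with `hT = σ b * c`, `c` commutes with all `σ b'` -/
def covK (T : Subgroup H) [T.Normal] (σ : Matrix.SpecialLinearGroup (Fin n) F →* H ⧸ T) :
    Subgroup (H × Matrix.SpecialLinearGroup (Fin n) F) where
  carrier := {q | ∃ c : H ⧸ T, (∀ b', Commute c (σ b')) ∧ (q.1 : H ⧸ T) = σ q.2 * c}
  one_mem' := ⟨1, fun _ => Commute.one_left _, by
    rw [Prod.fst_one, Prod.snd_one, map_one, mul_one]
    rfl⟩
  mul_mem' := by
    rintro ⟨h, b⟩ ⟨h1, b1⟩ ⟨c, hc, he⟩ ⟨c1, hc1, he1⟩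
    refine ⟨c * c1, fun b' => (hc b').mul_left (hc1 b'), ?_⟩
    change ((h : H ⧸ T) * (h1 : H ⧸ T)) = σ (b * b1) * (c * c1)
    change (h : H ⧸ T) = σ b * c at he
    change (h1 : H ⧸ T) = σ b1 * c1 at he1
    rw [he, he1, map_mul]
    simp only [mul_assoc]
    rw [← mul_assoc c (σ b1), (hc b1).eq]
    simp only [mul_assoc]
  inv_mem' := by
    rintro ⟨h, b⟩ ⟨c, hc, he⟩
    refine ⟨c⁻¹, fun b' => (hc b').inv_left, ?_⟩
    change ((h : H ⧸ T)⁻¹) = σ (b⁻¹) * c⁻¹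
    change (h : H ⧸ T) = σ b * c at he
    rw [he, mul_inv_rev, map_inv]
    exact ((hc b).inv_inv).eq

/-- `(h, b)` with `hT = σ b` -/
def covL (T : Subgroup H) [T.Normal] (σ : Matrix.SpecialLinearGroup (Fin n) F →* H ⧸ T) :
    Subgroup (H × Matrix.SpecialLinearGroup (Fin n) F) where
  carrier := {q | (q.1 : H ⧸ T) = σ q.2}
  one_mem' := by
    change ((1 : H) : H ⧸ T) = σ 1
    rw [map_one]
    rfl
  mul_mem' := by
    rintro ⟨h, b⟩ ⟨h1, b1⟩ he he1
    change ((h : H ⧸ T) * (h1 : H ⧸ T)) = σ (b * b1)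
    change (h : H ⧸ T) = σ b at he
    change (h1 : H ⧸ T) = σ b1 at he1
    rw [he, he1, map_mul]
  inv_mem' := by
    rintro ⟨h, b⟩ he
    change ((h : H ⧸ T)⁻¹) = σ (b⁻¹)
    change (h : H ⧸ T) = σ b at he
    rw [he, map_inv]

end

theorem exists_cvr {p : ℕ} {G : Type} [Group G] (hs : IsSimpleGroup G) {z : G}
    (h : ∀ S : Finset G, ∃ H : Subgroup G, (∀ s ∈ S, s ∈ H) ∧ PCov p z H) (S : Finset G) :
    ∃ c : Cvr p G, c.Ge S := by
  classical
  obtain ⟨S', hSS', hsep⟩ := exists_sep hs z S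
  obtain ⟨H, hSH', hfin, hzH, T, hT, M, hTp, hM, hzM⟩ := h S'
  have hS : ∀ s ∈ S, s ∈ H := fun s hs => hSH' s (hSS' hs)
  replace hsep := hsep _ H hzH T M hSH' hM hzM
  obtain ⟨L, _, σ', ⟨F, fld, n, hF, hchar, ⟨e⟩⟩, hker', hran'⟩ := hM.2
  let σ : Matrix.SpecialLinearGroup (Fin n) F →* H ⧸ T := σ'.comp e.toMonoidHom
  have hσ : ∀ b, σ b = σ' (e b) := fun b => rfl
  have hran : ∀ q, q ∈ M ↔ ∃ b, σ b = q := by
    intro q
    rw [← hran', MonoidHom.mem_range]
    constructor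
    · rintro ⟨l, rfl⟩
      exact ⟨e.symm l, by rw [hσ, e.apply_symm_apply]⟩
    · rintro ⟨b, rfl⟩
      exact ⟨e b, rfl⟩
  have hker : ∀ b, σ b = 1 → ∀ b', Commute b b' := by
    intro b hb b'
    have h1 : e b ∈ Subgroup.center L := hker' hb
    rw [Subgroup.mem_center_iff] at h1
    apply e.injective
    rw [map_mul, map_mul]
    exact (h1 (e b')).symm
  have hcen : ∀ c : H ⧸ T, c ∈ Subgroup.centralizer (M : Set (H ⧸ T)) ↔ ∀ b, Commute c (σ b) := by
    intro c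
    rw [Subgroup.mem_centralizer_iff]
    constructor
    · intro h1 b
      exact (h1 (σ b) ((hran _).2 ⟨b, rfl⟩)).symm
    · intro h1 q hq
      obtain ⟨b, rfl⟩ := (hran q).1 hq
      exact (h1 b).eq.symm
  have hdec : ∀ q : H ⧸ T, ∃ b c, (∀ b', Commute c (σ b')) ∧ q = σ b * c := by
    intro q
    obtain ⟨m, hm, c, hc, rfl⟩ := hM.dec q
    obtain ⟨b, rfl⟩ := (hran m).1 hm
    exact ⟨b, c, (hcen c).1 hc, rfl⟩
  let ι : H × Matrix.SpecialLinearGroup (Fin n) F →* G × ((Fin n → F) →ₗ[F] (Fin n → F))ˣ :=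
    H.subtype.prodMap slHom
  let Gam : Subgroup (G × ((Fin n → F) →ₗ[F] (Fin n → F))ˣ) := (covK T σ).map ι
  let LL : Subgroup (G × ((Fin n → F) →ₗ[F] (Fin n → F))ˣ) := (covL T σ).map ι
  have hle0 : covL T σ ≤ covK T σ := by
    rintro ⟨h, b⟩ he
    exact ⟨1, fun _ => Commute.one_left _, by rw [mul_one]; exact he⟩
  have hnorm : ∀ q ∈ covK T σ, ∀ l ∈ covL T σ, q * l * q⁻¹ ∈ covL T σ := by
    rintro ⟨h, b⟩ ⟨c, hc, he⟩ ⟨h1, b1⟩ he1
    change (h : H ⧸ T) = σ b * c at he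
    change (h1 : H ⧸ T) = σ b1 at he1
    change (h : H ⧸ T) * (h1 : H ⧸ T) * (h : H ⧸ T)⁻¹ = σ (b * b1 * b⁻¹)
    rw [he, he1, map_mul, map_mul, map_inv, mul_inv_rev]
    simp only [mul_assoc]
    rw [← mul_assoc c (σ b1), (hc b1).eq]
    simp only [mul_assoc]
    rw [mul_inv_cancel_left]
  have hmemG : ∀ (g : G) (u : ((Fin n → F) →ₗ[F] (Fin n → F))ˣ), (g, u) ∈ Gam →
      ∃ (h : H) (b : Matrix.SpecialLinearGroup (Fin n) F) (c : H ⧸ T), (h : G) = g ∧ slHom b = u ∧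
        (∀ b', Commute c (σ b')) ∧ (h : H ⧸ T) = σ b * c := by
    rintro g u ⟨⟨h, b⟩, ⟨c, hc, he⟩, hq⟩
    exact ⟨h, b, c, congrArg Prod.fst hq, congrArg Prod.snd hq, hc, he⟩
  have key : ∀ s ∈ S, s ≠ 1 → ∀ u, (s, u) ∈ Gam → ∀ e : F,
      u.val ≠ e • (1 : (Fin n → F) →ₗ[F] (Fin n → F)) := by
    intro s hsS hs1 u hu e he
    obtain ⟨h, b, c, hg, rfl, hc, hhc⟩ := hmemG _ _ hu
    refine hsep h (by rw [hg]; exact hsS) (fun h0 => hs1 ?_) ?_
    · rw [← hg, h0]
      rfl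
    · rw [hcen]
      intro b'
      have h1 : (b : Matrix (Fin n) (Fin n) F) = e • 1 := by
        apply Matrix.toLin'.injective
        rw [map_smul, Matrix.toLin'_one]
        exact he
      have h2 : Commute b b' := by
        apply Subtype.ext
        change (b : Matrix (Fin n) (Fin n) F) * (b' : Matrix (Fin n) (Fin n) F) =
          (b' : Matrix (Fin n) (Fin n) F) * (b : Matrix (Fin n) (Fin n) F)
        rw [h1, smul_mul_assoc, mul_smul_comm, one_mul, mul_one]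
      rw [hhc]
      exact (h2.map σ).mul_left (hc b')
  refine ⟨{ H := H, fin := hfin, F := F, fld := fld, finF := hF, chr := hchar, V := Fin n → F,
            grp := inferInstance, mod := inferInstance, fd := inferInstance,
            Gam := Gam, LL := LL, mem := ?_, le := ?_, norm := ?_, onto := ?_, scal := ?_,
            surj := ?_, ker := ?_ }, ?_⟩
  · rintro _ ⟨⟨h, b⟩, _, rfl⟩
    exact h.2
  · exact Subgroup.map_mono hle0
  · rintro _ ⟨q, hq, rfl⟩ _ ⟨l, hl, rfl⟩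
    exact ⟨q * l * q⁻¹, hnorm q hq l hl, by rw [map_mul, map_mul, map_inv]⟩
  · intro g hg
    obtain ⟨b, c, hc, he⟩ := hdec (QuotientGroup.mk ⟨g, hg⟩)
    exact ⟨slHom b, (⟨g, hg⟩, b), ⟨c, hc, he⟩, rfl⟩
  · intro u hu
    obtain ⟨h, b, c, hg, rfl, hc, he⟩ := hmemG _ _ hu
    have h1 : h = 1 := Subtype.ext hg
    subst h1
    have h2 : σ b * c = σ 1 * 1 := by
      rw [← he, map_one, mul_one]
      rfl
    obtain ⟨e, he0, he1⟩ := sl_decomp σ hker hc (fun b' => Commute.one_left _) h2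
    refine ⟨e, ?_⟩
    change Matrix.toLin' (b : Matrix (Fin n) (Fin n) F) = _
    rw [he1, map_smul, Matrix.SpecialLinearGroup.coe_one, Matrix.toLin'_one]
    rfl
  · intro u hu
    obtain ⟨b, rfl⟩ := exists_slHom hu
    obtain ⟨h, hh⟩ := QuotientGroup.mk_surjective (σ b)
    exact ⟨h, (h, b), hh, rfl⟩
  · rintro g ⟨⟨h, b⟩, hhb, hq⟩
    have h1 : (h : G) = g := congrArg Prod.fst hq
    have h2 : slHom b = 1 := congrArg Prod.snd hq
    have h3 : b = 1 := by
      apply slHom_injective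
      rw [h2, map_one]
    change (h : H ⧸ T) = σ b at hhb
    rw [h3, map_one, QuotientGroup.eq_one_iff] at hhb
    obtain ⟨j, hj⟩ := hTp ⟨h, hhb⟩
    refine ⟨j, ?_⟩
    have h4 : h ^ p ^ j = 1 := congrArg Subtype.val hj
    rw [← h1]
    exact congrArg Subtype.val h4
  · intro s hsS
    exact ⟨hS s hsS, fun hs1 u hu e => key s hsS hs1 u hu e⟩

end Pool.Agent.Lib.MP_b9166b_al.Pt
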