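import Pool.Agent.Lib.MP_b9166b_al.Pt.Ptf

/-!
# MP_b9166b_al, PT: (4.1), auxiliary facts
-/

set_option autoImplicit false

namespace Pool.Agent.Lib.MP_b9166b_al.Pt

open Module
open scoped commutatorElement

section

variable {Γ K W : Type} [Group Γ] [Field K] [AddCommGroup W] [Module K W]

/-- the members of a series are stable -/
theorem s3f_inv {ρ : Γ →* (W →ₗ[K] W)} {Y : Subgroup Γ} {l : ℕ} (c : Series ρ Y l) {t : ℕ}
    (ht : t ≤ l) : Inv ρ Y (c.c t) := by
  rcases ht.lt_or_eq with h | h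
  · exact (c.irr t h).inv2
  · rw [h, c.top]
    exact fun _ _ _ _ => Submodule.mem_top

/-- an element acting trivially on a section kills the product -/
theorem s3f_triv {ρ : Γ →* (W →ₗ[K] W)} {Y : Subgroup Γ} {M₁ M₂ : Submodule K W}
    (h1 : Inv ρ Y M₁) (h2 : Inv ρ Y M₂) {l : List Γ} (hl : ∀ g ∈ l, g ∈ Y) {g : Γ} (hg : g ∈ l)
    (ht : ∀ w ∈ M₁, ρ g w - w ∈ M₂) {w : W} (hw : w ∈ M₁) : pr ρ l w ∈ M₂ := by
  induction l with
  | nil => simp at hg
  | cons x l ih =>
    have h3 : pr ρ (x :: l) w = ρ x (pr ρ l w) - pr ρ l w := by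
      simp [pr, Module.End.mul_apply, LinearMap.sub_apply, Module.End.one_apply]
    have hl' : ∀ g ∈ l, g ∈ Y := fun y hy => hl y (List.mem_cons_of_mem _ hy)
    rw [h3]
    rcases List.mem_cons.1 hg with rfl | hg
    · exact ht _ (h1.pr hl' hw)
    · have h4 := ih hl' hg
      exact M₂.sub_mem (h2 x (hl x List.mem_cons_self) _ h4) h4

/-- composition with a homomorphism -/
theorem s3f_pr {Γ' : Type} [Group Γ'] (ρ : Γ →* (W →ₗ[K] W)) (φ : Γ' →* Γ) (l : List Γ') :
    pr (ρ.comp φ) l = pr ρ (l.map φ) := by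
  rw [pr, pr, List.map_map]
  rfl

end

section

variable {F U : Type} [Field F] [AddCommGroup U] [Module F U]

theorem s3f_sys {n : ℕ} {e : Fin n → Fin 8 → U} {d : Fin n → Fin 8 → Dual F U}
    (hd : ∀ i, DB (e i) (d i)) (hdd : ∀ i i', i ≠ i' → ∀ r r', d i r (e i' r') = 0) :
    Sys (fun i => e i 0) (fun i => d i 1) := by
  refine ⟨fun i j => ?_, ?_, ?_⟩
  · by_cases h : i = j
    · subst h
      change d i 1 (e i 0) = 0
      rw [hd]
      simp
    · exact hdd i j h 1 0
  · refine LinearIndependent.of_pairwise_dual_eq_zero_one _ (fun i => d i 0) ?_ ?_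
    · intro i j hij
      exact hdd i j hij 0 0
    · intro i
      rw [hd, if_pos rfl]
  · refine LinearIndependent.of_pairwise_dual_eq_zero_one _
      (fun i => Module.Dual.eval F U (e i 1)) ?_ ?_
    · intro i j hij
      exact hdd j i hij.symm 1 1
    · intro i
      change d i 1 (e i 1) = 1
      rw [hd, if_pos rfl]

/-- blocks in a space of large dimension -/
theorem s3f_bas [FiniteDimensional F U] {a b : ℕ} (h : 8 * (b * a) ≤ finrank F U) :
    ∃ (e : Fin b → Fin a → Fin 8 → U) (d : Fin b → Fin a → Fin 8 → Dual F U),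
      (∀ j i, DB (e j i) (d j i)) ∧
      ∀ j i j' i', (j, i) ≠ (j', i') → ∀ r r', d j i r (e j' i' r') = 0 := by
  classical
  obtain ⟨ι⟩ : Nonempty (Fin b × Fin a × Fin 8 ↪ Fin (finrank F U)) := by
    refine Function.Embedding.nonempty_of_card_le ?_
    rw [Fintype.card_prod, Fintype.card_prod, Fintype.card_fin, Fintype.card_fin,
      Fintype.card_fin, Fintype.card_fin]
    calc b * (a * 8) = 8 * (b * a) := by ring
      _ ≤ _ := h
  let B := finBasis F U
  have hB : ∀ x y : Fin b × Fin a × Fin 8, B.coord (ι x) (B (ι y)) = if x = y then 1 else 0 := by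
    intro x y
    rw [Basis.coord_apply, Basis.repr_self, Finsupp.single_apply]
    by_cases hxy : x = y
    · rw [hxy, if_pos rfl, if_pos rfl]
    · rw [if_neg hxy, if_neg fun h => hxy (ι.injective h).symm]
  refine ⟨fun j i r => B (ι (j, i, r)), fun j i r => B.coord (ι (j, i, r)), ?_, ?_⟩
  · intro j i r r'
    rw [hB]
    simp
  · intro j i j' i' hne r r'
    rw [hB, if_neg]
    intro h1
    rw [Prod.mk.injEq, Prod.mk.injEq] at h1
    exact hne (Prod.ext h1.1 h1.2.1)

end

end Pool.Agent.Lib.MP_b9166b_al.Pt
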