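import Pool.Agent.Lib.MP_b9166b_al.Pt.S3v
import Pool.Agent.Lib.MP_b9166b_al.Pt.S3fA

/-!
# MP_b9166b_al, PT: the degree is supermultiplicative (4.1)

`blk_sup`: `J = ⨆ blocks` normalizes every block (`blk_comm`, `T_le_blk`; closure induction).
`patterns`. Let `j` be given. `D_a` and `Dg.all` for the system `(e j i 0, d j i 1)`, `i < a`, give a section (for `⊤`) on which the product over
`i` is not zero; `ptf` (blocks `e j i`, `i < a`, the series `c`, truncated: `fun t => c.c (min t l)`) gives `t j < l`. On the factor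
`t j` all the blocks `(j, i)` are nontrivial. If the block `(j', i)`, `j' ≠ j`, is not trivial on it, then by `ptf_irr` (for the `a + 1` blocks
`(j, 0), .., (j, a-1), (j', i)`) the product of `a + 1` roots is not zero, contradiction to `hD'` by `Dg.of_irr`. So the `x j' i` act
trivially on the factor `t j`, and `t` is injective as `1 ≤ a`. `dim_blk` for the block `(j, 0)`.
`s3`. Blocks: `8 * (a * b)` vectors of a basis of `U`. `J₁ = ⨆` of the blocks; `c` a `J₁`-series of `V` for `ρ₁ = ℓ₂.a.comp φ`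
(`exists_series`), `patterns`, `G` from `exists_grd` (with `θ = 1`, `n = 1`) for `c.c`. Apply `s3m` to `ℓ₂`, `ρ`,
`J = J₁.map φ`, `R₁ = ℓ₁.T.map φ` (`T_pgroup`, `T_normal`, `T_irr`: `hR1` by `Adp.fil`), `τ j i = φ (x j i)` (`⁅x j i, x j' i'⁆ ∈ ℓ₁.T`:
`Rt.comm`), `Adp.finrank`, `Adp.factor`. It gives `M₁, M₂`; then `ptf` for `ℓ₁`, `ρ.comp φ`, all `b * a` blocks and a series of `W`
for `⊤` gives `Dg (b * a)` (`List.ofFn_mul`).
-/

set_option autoImplicit false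

namespace Pool.Agent.Lib.MP_b9166b_al.Pt

open Module
open scoped commutatorElement

variable {p : ℕ}

theorem blk_sup (hp : p.Prime) {Γ F U : Type} [Group Γ] [Finite Γ] [Field F] [CharP F p]
    [AddCommGroup U] [Module F U] [FiniteDimensional F U] (ℓ : Lay p Γ F U) {ι : Type} {s : ℕ}
    (hs : 2 ≤ s) {e : ι → Fin s → U} {d : ι → Fin s → Dual F U} (hd : ∀ i, DB (e i) (d i))
    (hdd : ∀ i i', i ≠ i' → ∀ r r', d i r (e i' r') = 0) :
    ∀ i, ∀ g ∈ ⨆ k, ℓ.blk (e k) (d k), ∀ h ∈ ℓ.blk (e i) (d i), g * h * g⁻¹ ∈ ℓ.blk (e i) (d i) := by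
  intro i
  have h1 : (⨆ k, ℓ.blk (e k) (d k)) ≤ Subgroup.normalizer (ℓ.blk (e i) (d i) : Set Γ) := by
    refine iSup_le fun k => ?_
    have h2 : ∀ g ∈ ℓ.blk (e k) (d k), ∀ h ∈ ℓ.blk (e i) (d i),
        g * h * g⁻¹ ∈ ℓ.blk (e i) (d i) := by
      intro g hg h hh
      by_cases hik : k = i
      · subst hik
        exact Subgroup.mul_mem _ (Subgroup.mul_mem _ hg hh) (Subgroup.inv_mem _ hg)
      · have h3 : ⁅g, h⁆ ∈ ℓ.T := ℓ.blk_comm hp (hdd k i hik) (hdd i k (Ne.symm hik)) hg hh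
        have h4 : g * h * g⁻¹ = ⁅g, h⁆ * h := by
          rw [commutatorElement_def]
          group
        rw [h4]
        exact Subgroup.mul_mem _ (ℓ.T_le_blk hp hs (hd i) h3) hh
    intro g hg
    rw [Subgroup.mem_normalizer_iff]
    intro h
    refine ⟨fun hh => h2 g hg h hh, fun hh => ?_⟩
    have h5 := h2 g⁻¹ (Subgroup.inv_mem _ hg) _ hh
    have h6 : g⁻¹ * (g * h * g⁻¹) * g⁻¹⁻¹ = h := by group
    rwa [h6] at h5
  intro g hg h hh
  exact (Subgroup.mem_normalizer_iff.1 (h1 hg) h).1 hh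

theorem patterns (hp : p.Prime) {Γ F U K V : Type} [Group Γ] [Finite Γ] [Field F] [CharP F p]
    [AddCommGroup U] [Module F U] [FiniteDimensional F U] [Field K] [CharP K p]
    [AddCommGroup V] [Module K V] [FiniteDimensional K V] [Finite V] (ℓ : Lay p Γ F U)
    (ρ : Γ →* (V →ₗ[K] V)) {a b l : ℕ} (ha : 1 ≤ a) (hdU : 2 * (a + 1) < finrank F U)
    (hD : ℓ.Dg ρ a) (hD' : ¬ ℓ.Dg ρ (a + 1)) {e : Fin b → Fin a → Fin 8 → U}
    {d : Fin b → Fin a → Fin 8 → Dual F U} (hd : ∀ j i, DB (e j i) (d j i))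
    (hdd : ∀ j i j' i', (j, i) ≠ (j', i') → ∀ r r', d j i r (e j' i' r') = 0)
    {x : Fin b → Fin a → Γ} (hx : ∀ j i, ℓ.Rt (e j i 0) (d j i 1) (x j i)) {J : Subgroup Γ}
    (hJ : ∀ j i, ℓ.blk (e j i) (d j i) ≤ J)
    (hJn : ∀ j i, ∀ g ∈ J, ∀ h ∈ ℓ.blk (e j i) (d j i), g * h * g⁻¹ ∈ ℓ.blk (e j i) (d j i))
    (c : Series ρ J l) : ∃ t : Fin b → ℕ, Function.Injective t ∧ ∀ j, t j < l ∧
      (∃ w ∈ c.c (t j + 1), pr ρ (List.ofFn (x j)) w ∉ c.c (t j)) ∧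
      (∀ j' i, j' ≠ j → ∀ w ∈ c.c (t j + 1), ρ (x j' i) w - w ∈ c.c (t j)) ∧
      finrank K (c.c (t j)) + 8 ≤ finrank K (c.c (t j + 1)) := by
  classical
  have hxb : ∀ j i, x j i ∈ ℓ.blk (e j i) (d j i) := fun j i =>
    Subgroup.subset_closure ⟨0, 1, by decide, 1, by rw [one_smul]; exact hx j i⟩
  have hxJ : ∀ j i, x j i ∈ J := fun j i => hJ j i (hxb j i)
  have hdd' : ∀ j i i', i ≠ i' → ∀ r r', d j i r (e j i' r') = 0 := fun j i i' h =>
    hdd j i j i' fun h' => h (Prod.mk.inj h').2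
  -- the position
  have hex : ∀ j, ∃ t < l, ∃ w ∈ c.c (t + 1), pr ρ (List.ofFn (x j)) w ∉ c.c t := by
    intro j
    obtain ⟨M₁, M₂, hM, hw⟩ := Lay.Dg.all ℓ hp ρ (by omega) hD
      (s3f_sys (hd j) (hdd' j)) (hx j)
    obtain ⟨t, ht, w, hw, hw'⟩ := ℓ.ptf hp ρ (n := a) (s := 8) (l := l) (by omega)
      (e := e j) (d := d j) (hd j) (hdd' j) (x := x j) (r₀ := 0) (r₁ := 1) (by decide) (hx j)
      (M₁ := M₁) (M₂ := M₂) (fun i => hM.inv1.mono le_top) (fun i => hM.inv2.mono le_top)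
      (fun t ht w hw => Lay.T_irr ℓ hp ρ le_top hM ht hw) hw (fun t => c.c (min t l))
      (by rw [Nat.zero_min, c.zero]) (by rw [min_self, c.top])
      (fun t i => (s3f_inv c (min_le_right t l)).mono (hJ j i))
    refine ⟨t, ht, w, ?_, ?_⟩
    · rwa [min_eq_left (by omega)] at hw
    · rwa [min_eq_left ht.le] at hw'
  choose t htl ht using hex
  have hI : ∀ j, Irr ρ J (c.c (t j + 1)) (c.c (t j)) := fun j => c.irr (t j) (htl j)
  have hA : ∀ j i, ∃ w ∈ c.c (t j + 1), ρ (x j i) w - w ∉ c.c (t j) := by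
    intro j i
    by_contra hcon
    push Not at hcon
    obtain ⟨w, hw, hw'⟩ := ht j
    exact hw' (s3f_triv (hI j).inv1 (hI j).inv2
      (fun g hg => by
        obtain ⟨k, rfl⟩ := List.mem_ofFn.1 hg
        exact hxJ j k) (List.mem_ofFn.2 ⟨i, rfl⟩) hcon hw)
  have hTJ : ∀ j : Fin b, ℓ.T ≤ J := fun j =>
    (ℓ.T_le_blk hp (by omega) (hd j ⟨0, ha⟩)).trans (hJ j ⟨0, ha⟩)
  have hB : ∀ j j' i, j' ≠ j → ∀ w ∈ c.c (t j + 1), ρ (x j' i) w - w ∈ c.c (t j) := by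
    intro j j' i hne
    by_contra hcon
    push Not at hcon
    obtain ⟨w₀, hw₀, hw₀'⟩ := hcon
    let idx : Fin (a + 1) → Fin b × Fin a := Fin.cons (j', i) fun k => (j, k)
    have hidx : ∀ k k', k ≠ k' → ((idx k).1, (idx k).2) ≠ ((idx k').1, (idx k').2) := by
      intro k k'
      refine Fin.cases ?_ (fun k => ?_) k <;> refine Fin.cases ?_ (fun k' => ?_) k'
      · exact fun h => absurd rfl h
      · intro _ h
        exact hne (Prod.mk.inj h).1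
      · intro _ h
        exact hne (Prod.mk.inj h).1.symm
      · intro hk h
        have h2 : k = k' := (Prod.mk.inj h).2
        exact hk (by rw [h2])
    have hdn : ∀ k, DB (e (idx k).1 (idx k).2) (d (idx k).1 (idx k).2) := fun k => hd _ _
    have hddn : ∀ k k', k ≠ k' → ∀ r r',
        d (idx k).1 (idx k).2 r (e (idx k').1 (idx k').2 r') = 0 := fun k k' h =>
      hdd _ _ _ _ (hidx k k' h)
    refine hD' (Lay.Dg.of_irr ℓ ρ (hI j) (s3f_sys hdn hddn)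
      (g := fun k => x (idx k).1 (idx k).2) (fun k => hx _ _) (fun k => hxJ _ _) ?_)
    refine ℓ.ptf_irr hp ρ (n := a + 1) (s := 8) (by omega)
      (e := fun k => e (idx k).1 (idx k).2) (d := fun k => d (idx k).1 (idx k).2) hdn hddn
      (r₀ := 0) (r₁ := 1) (by decide) (fun k => hx _ _) (fun k => hJ _ _) (fun k => hJn _ _)
      (hTJ j) (hI j) ?_
    intro k
    refine Fin.cases ?_ (fun k => ?_) k
    · exact ⟨x j' i, hxb j' i, w₀, hw₀, hw₀'⟩
    · obtain ⟨w, hw, hw'⟩ := hA j k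
      exact ⟨x j k, hxb j k, w, hw, hw'⟩
  refine ⟨t, ?_, fun j => ⟨htl j, ht j, fun j' i hne => hB j j' i hne, ?_⟩⟩
  · intro j j' hjj
    by_contra hne
    obtain ⟨w, hw, hw'⟩ := hA j' ⟨0, ha⟩
    rw [← hjj] at hw hw'
    exact hw' (hB j j' ⟨0, ha⟩ (Ne.symm hne) w hw)
  · obtain ⟨w, hw, hw'⟩ := hA j ⟨0, ha⟩
    exact ℓ.dim_blk hp ρ (by omega) (hd j ⟨0, ha⟩) (hI j).lt.le
      ((hI j).inv1.mono (hJ j ⟨0, ha⟩)) ((hI j).inv2.mono (hJ j ⟨0, ha⟩))
      (fun u hu w hw => Lay.T_irr ℓ hp ρ (hTJ j) (hI j) hu hw)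
      ⟨x j ⟨0, ha⟩, hxb _ _, w, hw, hw'⟩

/-- **(4.1)** -/
theorem s3 (hp : p.Prime) {Γ₁ Γ₂ F₁ U F V K W : Type} [Group Γ₁] [Finite Γ₁] [Group Γ₂]
    [Finite Γ₂] [Field F₁] [CharP F₁ p] [AddCommGroup U] [Module F₁ U] [FiniteDimensional F₁ U]
    [Field F] [CharP F p] [AddCommGroup V] [Module F V] [FiniteDimensional F V] [Finite V]
    [Field K] [CharP K p] [AddCommGroup W] [Module K W] [FiniteDimensional K W] [Finite W]
    (ℓ₁ : Lay p Γ₁ F₁ U) (ℓ₂ : Lay p Γ₂ F V) (φ : Γ₁ →* Γ₂) (ρ : Γ₂ →* (W →ₗ[K] W)) {a b : ℕ}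
    (ha : 1 ≤ a) (hb : 1 ≤ b) (hdU : 8 * (b * a) ≤ finrank F₁ U) (hdV : 2 * b < finrank F V)
    (h1 : ℓ₁.Dg (ℓ₂.a.comp φ) a) (h1' : ¬ ℓ₁.Dg (ℓ₂.a.comp φ) (a + 1)) (h2 : ℓ₂.Dg ρ b)
    (h2' : ¬ ℓ₂.Dg ρ (b + 1)) : ℓ₁.Dg (ρ.comp φ) (b * a) := by
  classical
  obtain ⟨e, d, hd, hdd⟩ := s3f_bas hdU
  have hrt : ∀ j i, ∃ g, ℓ₁.Rt (e j i 0) (d j i 1) g := fun j i =>
    Lay.Rt.exists ℓ₁ hp (by rw [hd j i]; simp)
  choose x hx using hrt
  set J₁ : Subgroup Γ₁ := ⨆ k : Fin b × Fin a, ℓ₁.blk (e k.1 k.2) (d k.1 k.2) with hJ₁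
  have hJ : ∀ j i, ℓ₁.blk (e j i) (d j i) ≤ J₁ := fun j i =>
    le_iSup (fun k : Fin b × Fin a => ℓ₁.blk (e k.1 k.2) (d k.1 k.2)) (j, i)
  have hJn : ∀ j i, ∀ g ∈ J₁, ∀ h ∈ ℓ₁.blk (e j i) (d j i),
      g * h * g⁻¹ ∈ ℓ₁.blk (e j i) (d j i) := fun j i g hg h hh =>
    blk_sup hp ℓ₁ (s := 8) (by omega) (e := fun k : Fin b × Fin a => e k.1 k.2)
      (d := fun k : Fin b × Fin a => d k.1 k.2) (fun k => hd _ _)
      (fun k k' hk => hdd _ _ _ _ hk) (j, i) g hg h hh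
  have hxJ : ∀ j i, x j i ∈ J₁ := fun j i => hJ j i
    (Subgroup.subset_closure ⟨0, 1, by decide, 1, by rw [one_smul]; exact hx j i⟩)
  have hba : a ≤ b * a := Nat.le_mul_of_pos_left a hb
  obtain ⟨l, ⟨c⟩⟩ := exists_series (ℓ₂.a.comp φ) J₁
  obtain ⟨t, htinj, ht⟩ := patterns hp ℓ₁ (ℓ₂.a.comp φ) ha (by omega) h1 h1' hd hdd hx hJ hJn c
  have hTJ : ℓ₁.T ≤ J₁ := (ℓ₁.T_le_blk hp (by omega) (hd ⟨0, hb⟩ ⟨0, ha⟩)).trans (hJ _ _)
  obtain ⟨G, hG, -⟩ := exists_grd c.zero c.top (fun i hi => (c.irr i hi).lt.le) 1 (n := 1)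
    (one_pow 1) (by rw [Nat.cast_one]; exact one_ne_zero) (fun i _ w hw => hw)
  have hfil0 : ∀ g ∈ J₁, G.Fil 0 (ℓ₂.a (φ g)) := by
    intro g hg
    rw [hG.fil]
    intro i hi w hw
    rw [Nat.sub_zero]
    exact s3f_inv c hi g hg w hw
  have hfil1 : ∀ g ∈ ℓ₁.T, G.Fil 1 (ℓ₂.a (φ g) - 1) := by
    intro g hg
    rw [hG.fil]
    intro i hi w hw
    rcases i with _ | i
    · rw [c.zero, Submodule.mem_bot] at hw
      rw [hw, map_zero]
      exact Submodule.zero_mem _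
    · exact Lay.T_irr ℓ₁ hp (ℓ₂.a.comp φ) hTJ (c.irr i hi) hg hw
  have hprod : ∀ j, (List.ofFn fun i => ℓ₂.a (φ (x j i)) - 1).prod =
      pr (ℓ₂.a.comp φ) (List.ofFn (x j)) := by
    intro j
    rw [pr, List.map_ofFn]
    rfl
  have hone : G.Fil 0 (1 : V →ₗ[F] V) := G.fil_one
  have hsub : ∀ g ∈ J₁, G.Fil 0 (ℓ₂.a (φ g) - 1) := by
    intro g hg
    rw [sub_eq_add_neg]
    exact (hfil0 g hg).add G (hone.neg G)
  have hprf : ∀ j, G.Fil 0 (List.ofFn fun i => ℓ₂.a (φ (x j i)) - 1).prod := by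
    intro j
    have h3 : ∀ L : List (V →ₗ[F] V), (∀ f ∈ L, G.Fil 0 f) → G.Fil 0 L.prod := by
      intro L
      induction L with
      | nil => exact fun _ => hone
      | cons f L ih =>
        intro hL
        rw [List.prod_cons]
        exact (hL f List.mem_cons_self).mul G (ih fun y hy => hL y (List.mem_cons_of_mem _ hy))
    refine h3 _ fun f hf => ?_
    obtain ⟨i, rfl⟩ := List.mem_ofFn.1 hf
    exact hsub _ (hxJ j i)
  obtain ⟨M₁, M₂, hle, hM1, hM2, hRM, hne⟩ := s3m hp ℓ₂ ρ hb hdV h2 h2' G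
    (J := J₁.map φ) (R₁ := ℓ₁.T.map φ) (a := a)
    (by
      rintro _ ⟨g, hg, rfl⟩
      refine (Lay.mem_Par ℓ₂ G).2 ⟨hfil0 g hg, ?_⟩
      rw [← map_inv]
      exact hfil0 _ (J₁.inv_mem hg))
    (Subgroup.map_mono hTJ) (IsPGroup.map (ℓ₁.T_pgroup hp) φ)
    (by
      rintro _ ⟨g, hg, rfl⟩ _ ⟨r, hr, rfl⟩
      refine ⟨g * r * g⁻¹, (ℓ₁.T_normal hp).conj_mem r hr g, ?_⟩
      rw [map_mul, map_mul, map_inv])
    (by
      rintro _ ⟨r, hr, rfl⟩
      exact hfil1 r hr)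
    t htinj
    (by
      intro j
      have h3 := hG.finrank (ht j).1
      have h4 := (ht j).2.2.2
      omega)
    (fun j i => φ (x j i)) (fun j i => Subgroup.mem_map_of_mem φ (hxJ j i))
    (fun j i => (hx j i).2.1.map φ)
    (by
      intro j i j' i'
      refine ⟨⁅x j i, x j' i'⁆, ?_, map_commutatorElement φ _ _⟩
      have h3 : ∀ j i j' i', d j i 1 (e j' i' 0) = 0 := by
        intro j i j' i'
        by_cases h : (j, i) = (j', i')
        · obtain ⟨rfl, rfl⟩ := Prod.mk.inj h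
          rw [hd j i]
          simp
        · exact hdd _ _ _ _ h _ _
      exact Lay.Rt.comm ℓ₁ hp (hx j i) (hx j' i') (h3 _ _ _ _) (h3 _ _ _ _))
    (by
      intro j i j' hjj
      have h3 : G.π (t j') * (ℓ₂.a (φ (x j i)) - 1) * G.π (t j') = 0 := by
        by_contra hcon
        obtain ⟨w, hw, hw'⟩ := (hG.factor (ht j').1 (hsub _ (hxJ j i))).2 hcon
        exact hw' ((ht j').2.2.1 j i hjj w hw)
      rw [mul_sub, sub_mul, mul_one, G.pp, sub_eq_zero] at h3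
      exact h3)
    (by
      intro j
      refine (hG.factor (ht j).1 (hprf j)).1 ?_
      rw [hprod]
      exact (ht j).2.1)
  obtain ⟨l', ⟨c'⟩⟩ := exists_series (ρ.comp φ) (⊤ : Subgroup Γ₁)
  let ix : Fin (b * a) → Fin b × Fin a := finProdFinEquiv.symm
  have hix : Function.Injective ix := finProdFinEquiv.symm.injective
  have hlist : List.ofFn (fun k => x (ix k).1 (ix k).2) =
      (List.ofFn fun j => List.ofFn fun i => x j i).flatten := by
    rw [List.ofFn_mul]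
    refine congrArg List.flatten (congrArg List.ofFn (funext fun j =>
      congrArg List.ofFn (funext fun i => ?_)))
    have h3 : ∀ hlt, ix ⟨(j : ℕ) * a + i, hlt⟩ = (j, i) := by
      intro hlt
      rw [Equiv.symm_apply_eq]
      refine Fin.ext ?_
      change (j : ℕ) * a + i = i + a * j
      ring
    rw [h3]
  have hmap : (List.ofFn fun k => x (ix k).1 (ix k).2).map φ =
      (List.ofFn fun j => List.ofFn fun i => φ (x j i)).flatten := by
    rw [hlist, List.map_flatten, List.map_ofFn]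
    refine congrArg List.flatten (congrArg List.ofFn (funext fun j => ?_))
    rw [Function.comp_apply, List.map_ofFn]
    rfl
  have hddx : ∀ k k', k ≠ k' → ∀ r r',
      d (ix k).1 (ix k).2 r (e (ix k').1 (ix k').2 r') = 0 := fun k k' h =>
    hdd _ _ _ _ fun h' => h (hix (Prod.ext (Prod.mk.inj h').1 (Prod.mk.inj h').2))
  have hφM : ∀ {M : Submodule K W}, Inv ρ (J₁.map φ) M → Inv (ρ.comp φ) J₁ M :=
    fun h g hg w hw => h (φ g) (Subgroup.mem_map_of_mem φ hg) w hw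
  obtain ⟨u, hu, w, hw, hw'⟩ := ℓ₁.ptf hp (ρ.comp φ) (n := b * a) (s := 8) (l := l') (by omega)
    (e := fun k => e (ix k).1 (ix k).2) (d := fun k => d (ix k).1 (ix k).2) (fun k => hd _ _) hddx
    (x := fun k => x (ix k).1 (ix k).2) (r₀ := 0) (r₁ := 1) (by decide) (fun k => hx _ _)
    (M₁ := M₁) (M₂ := M₂) (fun k => (hφM hM1).mono (hJ _ _)) (fun k => (hφM hM2).mono (hJ _ _))
    (fun g hg w hw => hRM (φ g) (Subgroup.mem_map_of_mem φ hg) w hw)
    (by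
      obtain ⟨w, hw, hw'⟩ := hne
      refine ⟨w, hw, ?_⟩
      rw [s3f_pr, hmap]
      exact hw')
    (fun t => c'.c (min t l')) (by rw [Nat.zero_min, c'.zero]) (by rw [min_self, c'.top])
    (fun t k => (s3f_inv c' (min_le_right t l')).mono le_top)
  refine ⟨c'.c (u + 1), c'.c u, c'.irr u hu, _, _, _,
    s3f_sys (fun k => hd (ix k).1 (ix k).2) hddx, fun k => hx _ _, w, ?_, ?_⟩
  · rwa [min_eq_left (by omega)] at hw
  · rwa [min_eq_left hu.le] at hw'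

end Pool.Agent.Lib.MP_b9166b_al.Pt
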