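import Pool.Agent.Lib.MP_b9166b_al.Pt.Rkl
import Pool.Agent.Lib.MP_b9166b_al.Pt.S3f

/-!
# MP_b9166b_al, PT: the dichotomy (4.3)

`s3_cov`: `s3` for `Γ₁ = Gam3 U V W`, `Γ₂ = Gam2 V W`, `φ = f23`, `ℓ₁ = lay3`, and `Dg.comap` for the surjections `f12`, `f13`.
`dichotomy`. Suppose both fail: there are `m, S` with `¬ Dg2 c d h m` for all `c` with `Ge S`, and `S'` such that for all `c` with `Ge S'` and all
`S''` there is `d` with `Ge S''`, `c.H ≤ d.H`, `Dg2 c d h 2`. Let `S₀` be the union of `S, S'` and the set of `dim_large` for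
`8 * m * m + 2 * m`. Claim: for every `i` there are `c, d` with `Ge S₀`, `c.H ≤ d.H`, `Dg2 c d (2^i)` (or better with a fixed `c`). Induction: take `e`
with `Ge S₀`, `d.H ≤ e.H`, `Dg2 d e 2`; let `a`, `b` be the largest numbers with `Dg2 c d a`, `Dg2 d e b` (`Dg.mono`; they are `< m`);
`s3_cov`, `2^i ≤ a`, `2 ≤ b`. For `2^i ≥ m` a contradiction. (For `i = 0`: `Dg2 c d 2` and `Dg.mono`.)
-/

set_option autoImplicit false

namespace Pool.Agent.Lib.MP_b9166b_al.Pt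

open Module Cvr

variable {p : ℕ} {G : Type} [Group G]

theorem s3_cov (hp : p.Prime) {c d e : Cvr p G} (h : c.H ≤ d.H) (h' : d.H ≤ e.H) {a b : ℕ}
    (ha : 1 ≤ a) (hb : 1 ≤ b) (hdc : 8 * (b * a) ≤ finrank c.F c.V)
    (hdd : 2 * b < finrank d.F d.V) (h1 : Dg2 c d h a) (h1' : ¬ Dg2 c d h (a + 1))
    (h2 : Dg2 d e h' b) (h2' : ¬ Dg2 d e h' (b + 1)) : Dg2 c e (h.trans h') (b * a) := by
  have hs12 : Function.Surjective (f12 c d e) := by
    rintro ⟨⟨g, u, v⟩, hu, hv⟩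
    obtain ⟨w, hw⟩ := e.onto g (h' (h (c.mem _ hu)))
    exact ⟨⟨(g, u, v, w), hu, hv, hw⟩, rfl⟩
  have hs13 : Function.Surjective (f13 c d e) := by
    rintro ⟨⟨g, u, w⟩, hu, hw⟩
    obtain ⟨v, hv⟩ := d.onto g (h (c.mem _ hu))
    exact ⟨⟨(g, u, v, w), hu, hv, hw⟩, rfl⟩
  have k12 : ∀ n : ℕ, (lay3 c d e h (h.trans h')).Dg ((rep2 c d).comp (f12 c d e)) n ↔
      Dg2 c d h n := fun n =>
    Lay.Dg.comap (lay2 c d h) hp (rep2 c d) (lay3 c d e h (h.trans h')) (f12 c d e) hs12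
      (fun _ => rfl) (fun _ => Iff.rfl) n
  have k13 : ∀ n : ℕ, (lay3 c d e h (h.trans h')).Dg ((rep2 c e).comp (f13 c d e)) n ↔
      Dg2 c e (h.trans h') n := fun n =>
    Lay.Dg.comap (lay2 c e (h.trans h')) hp (rep2 c e) (lay3 c d e h (h.trans h')) (f13 c d e) hs13
      (fun _ => rfl) (fun _ => Iff.rfl) n
  have hfin : Finite d.V := inferInstance
  refine (k13 _).1 ?_
  exact s3 hp (lay3 c d e h (h.trans h')) (lay2 d e h') (f23 c d e) (rep2 d e) ha hb hdc hdd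
    ((k12 _).2 h1) (fun h3 => h1' ((k12 _).1 h3)) h2 h2'

/-- the largest number with a property -/
theorem dich_max {P : ℕ → Prop} (hP : ∀ n, P (n + 1) → P n) {k m : ℕ} (hk : P k) (hm : ¬ P m) :
    ∃ a, k ≤ a ∧ a < m ∧ P a ∧ ¬ P (a + 1) := by
  classical
  have hmono : ∀ n j, P (j + n) → P j := by
    intro n
    induction n with
    | zero => intro j h; exact h
    | succ n ih => intro j h; exact ih j (hP _ h)
  have hle : ∀ i j, i ≤ j → P j → P i := by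
    intro i j hij h
    refine hmono (j - i) i ?_
    rwa [Nat.add_sub_cancel' hij]
  have hex : ∃ n, ¬ P n := ⟨m, hm⟩
  have h1 : ¬ P (Nat.find hex) := Nat.find_spec hex
  have h2 : Nat.find hex ≤ m := Nat.find_min' hex hm
  have h3 : k < Nat.find hex := by
    by_contra hcon
    exact h1 (hle _ _ (not_lt.1 hcon) hk)
  refine ⟨Nat.find hex - 1, by omega, by omega, ?_, ?_⟩
  · have h4 := Nat.find_min hex (m := Nat.find hex - 1) (by omega)
    exact not_not.1 h4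
  · rwa [Nat.sub_add_cancel (by omega)]

theorem Dg2_succ {c d : Cvr p G} {h : c.H ≤ d.H} {n : ℕ} (h1 : Dg2 c d h (n + 1)) :
    Dg2 c d h n := Lay.Dg.mono _ _ h1

theorem Dg2_le {c d : Cvr p G} {h : c.H ≤ d.H} {i j : ℕ} (hij : i ≤ j) (h1 : Dg2 c d h j) :
    Dg2 c d h i := by
  obtain ⟨n, rfl⟩ := Nat.exists_eq_add_of_le hij
  clear hij
  induction n with
  | zero => exact h1
  | succ n ih => exact ih (Dg2_succ h1)

/-- **(4.3)** -/
theorem dichotomy (hp : p.Prime) (hs : IsSimpleGroup G) (hG : ¬ FinLin G)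
    (hcof : ∀ S : Finset G, ∃ c : Cvr p G, c.Ge S) :
    (∀ (m : ℕ) (S : Finset G), ∃ (c d : Cvr p G) (h : c.H ≤ d.H), c.Ge S ∧ Dg2 c d h m) ∨
    (∀ S : Finset G, ∃ c : Cvr p G, c.Ge S ∧ ∃ S' : Finset G, ∀ d : Cvr p G, d.Ge S' →
      ∀ h : c.H ≤ d.H, ¬ Dg2 c d h 2) := by
  classical
  by_contra hcon
  rw [not_or] at hcon
  obtain ⟨hA, hB⟩ := hcon
  push Not at hA hB
  obtain ⟨m, S, hA⟩ := hA
  obtain ⟨S', hB⟩ := hB
  obtain ⟨S₁, hS₁⟩ := dim_large (p := p) hs hG (8 * m * m + 2 * m)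
  have key : ∀ i : ℕ, ∃ (c d : Cvr p G) (h : c.H ≤ d.H) (k : ℕ), c.Ge (S ∪ S' ∪ S₁) ∧
      d.Ge (S ∪ S' ∪ S₁) ∧ 2 ^ i ≤ k ∧ Dg2 c d h k := by
    intro i
    induction i with
    | zero =>
      obtain ⟨c, hc⟩ := hcof (S ∪ S' ∪ S₁)
      obtain ⟨d, hd, h, h2⟩ := hB c (hc.mono (by
        intro x hx
        simp only [Finset.mem_union]
        exact Or.inl (Or.inr hx))) (S ∪ S' ∪ S₁)
      exact ⟨c, d, h, 2, hc, hd, by norm_num, h2⟩
    | succ i ih =>
      obtain ⟨c, d, h, k, hc, hd, hk, hD⟩ := ih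
      have sub1 : S ⊆ S ∪ S' ∪ S₁ := by
        intro x hx
        simp only [Finset.mem_union]
        exact Or.inl (Or.inl hx)
      have sub2 : S' ⊆ S ∪ S' ∪ S₁ := by
        intro x hx
        simp only [Finset.mem_union]
        exact Or.inl (Or.inr hx)
      have sub3 : S₁ ⊆ S ∪ S' ∪ S₁ := by
        intro x hx
        simp only [Finset.mem_union]
        exact Or.inr hx
      obtain ⟨e, he, h', h2⟩ := hB d (hd.mono sub2) (S ∪ S' ∪ S₁)
      obtain ⟨a, hka, ham, ha1, ha2⟩ := dich_max (P := fun n => Dg2 c d h n)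
        (fun n => Dg2_succ) hD (hA c d h (hc.mono sub1))
      obtain ⟨b, hkb, hbm, hb1, hb2⟩ := dich_max (P := fun n => Dg2 d e h' n)
        (fun n => Dg2_succ) h2 (hA d e h' (hd.mono sub1))
      have hd1 := hS₁ c (hc.mono sub3)
      have hd2 := hS₁ d (hd.mono sub3)
      have h2i : 1 ≤ 2 ^ i := Nat.one_le_two_pow
      have hba : b * a ≤ m * m := Nat.mul_le_mul hbm.le ham.le
      have hmm : 8 * (b * a) ≤ 8 * m * m := by
        rw [mul_assoc]
        exact Nat.mul_le_mul_left 8 hba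
      refine ⟨c, e, h.trans h', b * a, hc, he, ?_, ?_⟩
      · rw [pow_succ, mul_comm]
        exact Nat.mul_le_mul hkb (hk.trans hka)
      · exact s3_cov hp h h' (by omega) (by omega) (by omega) (by omega) ha1 ha2 hb1 hb2
  obtain ⟨c, d, h, k, hc, hd, hk, hD⟩ := key m
  have hmk : m ≤ k := (Nat.lt_two_pow_self).le.trans hk
  refine hA c d h (hc.mono ?_) (Dg2_le hmk hD)
  intro x hx
  simp only [Finset.mem_union]
  exact Or.inl (Or.inl hx)

end Pool.Agent.Lib.MP_b9166b_al.Pt
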