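import Pool.Agent.Lib.MP_b9166b_al.Aq.Rq
import Pool.Agent.Lib.MP_b9166b_al.Aq.Frat
import Pool.Agent.Lib.MP_b9166b_al.Rg.RegB

/-!
# MP_b9166b_al, PT: the minimal invariant subgroup (a public copy of a part of Aq/RqA.lean)
-/

set_option autoImplicit false

namespace Pool.Agent.Lib.MP_b9166b_al.Pt

open Equiv Equiv.Perm Rg Aq

/-- conjugation on a subgroup which is normalized by `F` -/
def rqConj {G : Type} [Group G] {F : Subgroup G} (L : Subgroup G)
    (hL : ∀ h ∈ F, ∀ g ∈ L, h * g * h⁻¹ ∈ L) : F →* MulAut L where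
  toFun h :=
    { toFun := fun x => ⟨h * x * (h : G)⁻¹, hL h h.2 x x.2⟩
      invFun := fun x => ⟨(h : G)⁻¹ * x * h, by
        have h1 := hL (h : G)⁻¹ (F.inv_mem h.2) x x.2
        rwa [inv_inv] at h1⟩
      left_inv := fun x => by
        apply Subtype.ext
        change (h : G)⁻¹ * (h * x * (h : G)⁻¹) * h = x
        group
      right_inv := fun x => by
        apply Subtype.ext
        change (h : G) * ((h : G)⁻¹ * x * h) * (h : G)⁻¹ = x
        group
      map_mul' := fun x y => by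
        apply Subtype.ext
        change (h : G) * (x * y) * (h : G)⁻¹ = (h * x * (h : G)⁻¹) * (h * y * (h : G)⁻¹)
        group }
  map_one' := by
    ext x
    change (1 : G) * x * (1 : G)⁻¹ = x
    group
  map_mul' := fun a b => by
    ext x
    change ((a : G) * b) * x * ((a : G) * b)⁻¹ = a * (b * x * (b : G)⁻¹) * (a : G)⁻¹
    group

/-- the minimal invariant subgroup -/
theorem rq_min {G : Type} [Group G] {q : ℕ} (hq : q.Prime) {F : Subgroup G} [Fintype F]
    [DecidableEq F] (hF : IsPGroup q F) {k : ℕ} (hk : 5 ≤ k) (L₁ : Subgroup G) [Finite L₁]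
    (hnorm : ∀ h ∈ F, ∀ g ∈ L₁, h * g * h⁻¹ ∈ L₁) (π₁ : L₁ →* Perm (F × Fin k))
    (hrange : π₁.range = alternatingGroup (F × Fin k))
    (hequi : ∀ (h : F) (g : L₁), π₁ ⟨h * g * h⁻¹, hnorm h h.2 g g.2⟩ = tr h * π₁ g * (tr h)⁻¹) :
    Nonempty (Rq q F k) := by
  let P : Set (Subgroup G) := {L | L ≤ L₁ ∧ (∀ h ∈ F, ∀ g ∈ L, h * g * h⁻¹ ∈ L) ∧
    ∀ σ ∈ alternatingGroup (F × Fin k), ∃ g : L₁, (g : G) ∈ L ∧ π₁ g = σ}
  have hP : L₁ ∈ P := by
    refine ⟨le_rfl, hnorm, fun σ hσ => ?_⟩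
    rw [← hrange] at hσ
    obtain ⟨g, hg⟩ := hσ
    exact ⟨g, g.2, hg⟩
  obtain ⟨L, ⟨hle, hLn, hLs⟩, hmin⟩ :=
    WellFounded.has_min (measure (fun L : Subgroup G => Nat.card L)).wf P ⟨L₁, hP⟩
  have hLfin : Finite L :=
    Finite.of_injective (Subgroup.inclusion hle) (Subgroup.inclusion_injective hle)
  let π : L →* Perm (F × Fin k) := π₁.comp (Subgroup.inclusion hle)
  have hπr : π.range = alternatingGroup (F × Fin k) := by
    apply le_antisymm
    · rintro _ ⟨g, rfl⟩
      rw [← hrange]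
      exact ⟨_, rfl⟩
    · intro σ hσ
      obtain ⟨g, hg, hgσ⟩ := hLs σ hσ
      exact ⟨⟨g, hg⟩, hgσ⟩
  have hπe : ∀ (h : F) (g : L), π ⟨h * g * h⁻¹, hLn h h.2 g g.2⟩ = tr h * π g * (tr h)⁻¹ :=
    fun h g => hequi h (Subgroup.inclusion hle g)
  have hcard : 5 ≤ Nat.card (F × Fin k) := by
    rw [Nat.card_prod, Nat.card_eq_fintype_card (α := Fin k), Fintype.card_fin]
    have h1 : 0 < Nat.card F := Nat.card_pos
    exact hk.trans (Nat.le_mul_of_pos_left k h1)
  have hfr := frattini hq hF (rqConj L hLn) π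
    (by rw [hπr]; exact commutator_alternatingGroup_eq_self hcard)
    (by
      intro h g hg
      have h1 := hπe h g
      rw [hg, mul_one, mul_inv_cancel] at h1
      exact h1)
    (by
      intro M hM hMr
      have hM' : M.map L.subtype ∈ P := by
        refine ⟨(Subgroup.map_subtype_le M).trans hle, ?_, fun σ hσ => ?_⟩
        · rintro h hh _ ⟨g, hg, rfl⟩
          exact ⟨rqConj L hLn ⟨h, hh⟩ g, hM ⟨h, hh⟩ g hg, rfl⟩
        · rw [← hπr, ← hMr] at hσ
          obtain ⟨g, hg, hgσ⟩ := hσ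
          exact ⟨Subgroup.inclusion hle g, ⟨g, hg, rfl⟩, hgσ⟩
      have h1 : Nat.card L ≤ Nat.card (M.map L.subtype) := not_lt.1 (hmin _ hM')
      have h2 : M.map L.subtype = L :=
        Subgroup.eq_of_le_of_card_ge (Subgroup.map_subtype_le M) h1
      rw [eq_top_iff]
      intro x _
      have h3 : (x : G) ∈ M.map L.subtype := by
        rw [h2]
        exact x.2
      obtain ⟨y, hy, hyx⟩ := h3
      have h4 : y = x := Subtype.ext hyx
      rw [← h4]
      exact hy)
  exact ⟨{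
    L := L
    fin := hLfin
    norm := hLn
    π := π
    range := hπr
    equi := hπe
    perf := hfr.1
    qnil := hfr.2 }⟩

end Pool.Agent.Lib.MP_b9166b_al.Pt
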