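import Pool.Agent.Lib.MP_b9166b_al.Pt.Alc
import Pool.Agent.Lib.MP_b9166b_al.Pt.RqM
import Pool.Agent.Lib.MP_b9166b_al.Aq.CaseR

/-!
# MP_b9166b_al, PT: unbounded degree (Section 5)

`us_dec`: the `p`-part and the `p'`-part of `x` (both powers of `x`).
`no_finLin_unbounded`: `x = u * s`; let `C = centralizer {s}`, `u' = ⟨u, _⟩`. `Aq.no_finLin_q` for `C`, `p`, `u'`: `hlarge` by `exists_large_in` and
`exists_altcov`; `hfree`: `exists_altcov` with `k = kq p F`, `rq_min` (RqM.lean), `Aq.Rq.exists_free`. So the centralizer of `u'` in `C` is not `FinLin`. It is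
isomorphic to the centralizer of `x` (an element commutes with `x` iff it commutes with `u` and `s`), and `FinLin` is invariant under
isomorphisms (`finLin_of_inj`: restrict the representation).
-/

set_option autoImplicit false

namespace Pool.Agent.Lib.MP_b9166b_al.Pt

open Module Cvr

variable {p : ℕ} {G : Type} [Group G]

theorem finLin_of_inj {A B : Type} [Group A] [Group B] (f : A →* B) (hf : Function.Injective f)
    (h : FinLin B) : FinLin A := by
  obtain ⟨K, _, V, _, _, hV, ρ, hρ, hfin⟩ := h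
  exact ⟨K, _, V, _, _, hV, ρ.comp f, hρ.comp hf, fun g => hfin (f g)⟩

theorem us_dec (hp : p.Prime) {x : G} (hx : 0 < orderOf x) : ∃ (u s : G) (i j : ℕ), u = x ^ i ∧
    s = x ^ j ∧ x = u * s ∧ (∃ n : ℕ, u ^ p ^ n = 1) ∧ 0 < orderOf s ∧
      (orderOf s).Coprime p := by
  obtain ⟨a, m, hm, hn⟩ := Nat.exists_eq_pow_mul_and_not_dvd hx.ne' p hp.ne_one
  have hm0 : 0 < m := by
    rcases Nat.eq_zero_or_pos m with h | h
    · exact absurd (h ▸ dvd_zero p) hm
    · exact h
  have hc : (p ^ a).Coprime m := ((hp.coprime_iff_not_dvd).2 hm).pow_left a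
  obtain ⟨i, hi1, hi2⟩ := Nat.chineseRemainder hc 1 0
  obtain ⟨j, hj1, hj2⟩ := Nat.chineseRemainder hc 0 1
  have hmi : m ∣ i := (Nat.modEq_zero_iff_dvd).1 hi2
  have hpj : p ^ a ∣ j := (Nat.modEq_zero_iff_dvd).1 hj1
  have hij : i + j ≡ 1 [MOD p ^ a * m] :=
    (Nat.modEq_and_modEq_iff_modEq_mul hc).1 ⟨hi1.add hj1, hi2.add hj2⟩
  have hsm : (x ^ j) ^ m = 1 := by
    rw [← pow_mul]
    exact orderOf_dvd_iff_pow_eq_one.1 (hn ▸ Nat.mul_dvd_mul hpj (dvd_refl m))
  refine ⟨x ^ i, x ^ j, i, j, rfl, rfl, ?_, ⟨a, ?_⟩, ?_, ?_⟩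
  · rw [← pow_add]
    have h1 : x ^ (i + j) = x ^ 1 := by
      rw [pow_eq_pow_iff_modEq, hn]
      exact hij
    rw [h1, pow_one]
  · rw [← pow_mul]
    refine orderOf_dvd_iff_pow_eq_one.1 ?_
    rw [hn, mul_comm]
    exact Nat.mul_dvd_mul hmi (dvd_refl _)
  · exact (isOfFinOrder_iff_pow_eq_one.2 ⟨m, hm0, hsm⟩).orderOf_pos
  · exact Nat.Coprime.coprime_dvd_left (orderOf_dvd_of_pow_eq_one hsm)
      ((hp.coprime_iff_not_dvd).2 hm).symm

theorem no_finLin_unbounded (hp : p.Prime) (hs : IsSimpleGroup G) (hG : ¬ FinLin G)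
    (hcof : ∀ S : Finset G, ∃ c : Cvr p G, c.Ge S)
    (hU : ∀ (m : ℕ) (S : Finset G), ∃ (c d : Cvr p G) (h : c.H ≤ d.H), c.Ge S ∧ Dg2 c d h m)
    {x : G} (hx : 0 < orderOf x) : ¬ FinLin (Subgroup.centralizer ({x} : Set G)) := by
  classical
  obtain ⟨u, s, i, j, hu, hsj, hxus, ⟨n, hn⟩, hs0, hsp⟩ := us_dec hp hx
  have hus : u * s = s * u := by
    rw [hu, hsj, ← pow_add, ← pow_add, add_comm]
  have huC : u ∈ Subgroup.centralizer ({s} : Set G) := by
    rw [Subgroup.mem_centralizer_singleton_iff]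
    exact hus
  have key := Aq.no_finLin_q (G := Subgroup.centralizer ({s} : Set G)) hp
    (x := ⟨u, huC⟩) (j := n) (Subtype.ext hn)
    (fun D hD hDp k => exists_large_in hp (fun P _ _ hP k => by
      obtain ⟨L₁, h1, h2, π₁, h3, -⟩ := exists_altcov hp hs hG hcof hU hs0 hsp P hP k
      exact ⟨L₁, h1, h2, π₁, h3⟩) D hD hDp k)
    (by
      intro F hF hFp _
      let _ : Fintype F := Fintype.ofFinite F
      obtain ⟨L₁, h1, h2, π₁, h3, h4⟩ :=
        exists_altcov hp hs hG hcof hU hs0 hsp F hFp (Aq.kq p F)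
      have hk : 5 ≤ Aq.kq p F := by
        unfold Aq.kq
        omega
      obtain ⟨r⟩ := rq_min hp hFp hk L₁ h2 π₁ h3 h4
      exact Aq.Rq.exists_free hp hFp le_rfl r)
  intro hx'
  apply key
  have hmem : ∀ g : Subgroup.centralizer ({(⟨u, huC⟩ : Subgroup.centralizer ({s} : Set G))} :
      Set (Subgroup.centralizer ({s} : Set G))),
      ((g : Subgroup.centralizer ({s} : Set G)) : G) ∈ Subgroup.centralizer ({x} : Set G) := by
    intro g
    have h1 : ((g : Subgroup.centralizer ({s} : Set G)) : G) * u =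
        u * ((g : Subgroup.centralizer ({s} : Set G)) : G) :=
      congrArg Subtype.val ((Subgroup.mem_centralizer_singleton_iff).1 g.2)
    have h2 : ((g : Subgroup.centralizer ({s} : Set G)) : G) * s =
        s * ((g : Subgroup.centralizer ({s} : Set G)) : G) :=
      (Subgroup.mem_centralizer_singleton_iff).1 (g : Subgroup.centralizer ({s} : Set G)).2
    rw [Subgroup.mem_centralizer_singleton_iff, hxus, ← mul_assoc, h1, mul_assoc, h2, mul_assoc]
  refine finLin_of_inj (B := Subgroup.centralizer ({x} : Set G))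
    { toFun := fun g => ⟨((g : Subgroup.centralizer ({s} : Set G)) : G), hmem g⟩
      map_one' := rfl
      map_mul' := fun _ _ => rfl } ?_ hx'
  intro a b hab
  exact Subtype.ext (Subtype.ext (congrArg
    (fun z : Subgroup.centralizer ({x} : Set G) => (z : G)) hab))

end Pool.Agent.Lib.MP_b9166b_al.Pt
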