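import Pool.Agent.Lib.MP_b9166b_al.Pt.Bnd
import Pool.Agent.Lib.MP_b9166b_al.Pt.Cve
import Pool.Agent.Lib.MP_b9166b_al.Pt.Dich
import Pool.Agent.Lib.MP_b9166b_al.Pt.Unb

/-!
# MP_b9166b_al, PT: the theorem

`exists_cvr`, `dichotomy`; the first case is `no_finLin_unbounded`, the second one is `no_finLin_bounded` (`us_dec` gives `XD`). `x` has finite order because it lies in a finite subgroup.
-/

set_option autoImplicit false

namespace Pool.Agent.Lib.MP_b9166b_al.Pt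

theorem main {p : ℕ} (hp : p.Prime) (hp2 : p ≠ 2) {G : Type} [Group G] (hs : IsSimpleGroup G)
    {z : G} (h : ∀ S : Finset G, ∃ H : Subgroup G, (∀ s ∈ S, s ∈ H) ∧ PCov p z H) (x : G)
    (hx : FinLin (Subgroup.centralizer ({x} : Set G))) : FinLin G := by
  by_contra hG
  have hcof : ∀ S : Finset G, ∃ c : Cvr p G, c.Ge S := exists_cvr hs h
  have h0 : 0 < orderOf x := by
    obtain ⟨H, hH, hfin, _⟩ := h {x}
    have h1 : x ∈ H := hH x (Finset.mem_singleton_self x)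
    have h2 : 0 < orderOf (⟨x, h1⟩ : H) := orderOf_pos _
    rwa [Subgroup.orderOf_mk] at h2
  rcases dichotomy hp hs hG hcof with hU | hB
  · exact no_finLin_unbounded hp hs hG hcof hU h0 hx
  · obtain ⟨u, s, i, j, hu, hs', hxe, hpu, hs0, hsp⟩ := us_dec hp h0
    exact no_finLin_bounded hp hp2 hs hG (u := u) (s := s)
      ⟨hxe, ⟨i, hu⟩, ⟨j, hs'⟩, hpu, hs0, hsp⟩ hB hx

end Pool.Agent.Lib.MP_b9166b_al.Pt
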