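import Pool.Agent.Lib.MP_b9166b_al.Pt.Grd

/-!
# MP_b9166b_al, PT: gradings adapted to a chain of subspaces

`Adp G c`: `c k` is the sum of the ranges of the `π i`, `i < k`.
`exists_grd`: choose a `θ`-stable complement `D i` of `c i` in `c (i+1)` for every `i < l` (average a projection over the powers
of `θ`: `(1/n) ∑ θ^i P θ^(-i)`, `θ^(-1) = θ^(n-1)`), `W = ⨁ D i`, `π i` the projection onto `D i`. It commutes with `θ`. (Another
way: let `P i` be a projection onto `c i` commuting with `θ`, and correct it such that `P i * P j = P (min i j)`: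
by downward induction `P i := P' i * P (i+1)`, where `P' i` is a projection of `c (i+1)` onto `c i`; `π i = P (i+1) - P i`.)
-/

set_option autoImplicit false

namespace Pool.Agent.Lib.MP_b9166b_al.Pt

open Module

variable {K W : Type} [Field K] [AddCommGroup W] [Module K W] {l : ℕ}

/-- adapted gradings -/
def Adp (G : Grd (W →ₗ[K] W) l) (c : ℕ → Submodule K W) : Prop :=
  ∀ k ≤ l, ∀ w, w ∈ c k ↔ ∀ i, k ≤ i → G.π i w = 0

/-- a projection onto a `θ`-stable subspace which commutes with `θ` -/
theorem ag_proj (θ : W →ₗ[K] W) {n : ℕ} (hn : θ ^ n = 1) (hn0 : (n : K) ≠ 0)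
    (A : Submodule K W) (hA : ∀ w ∈ A, θ w ∈ A) :
    ∃ Q : W →ₗ[K] W, (∀ w, Q w ∈ A) ∧ (∀ w ∈ A, Q w = w) ∧ θ * Q = Q * θ := by
  obtain ⟨p, hp⟩ := A.subtype.exists_leftInverse_of_injective A.ker_subtype
  set P : W →ₗ[K] W := A.subtype.comp p with hP
  have hP1 : ∀ w, P w ∈ A := fun w => (p w).2
  have hP2 : ∀ w ∈ A, P w = w := by
    intro w hw
    have h1 := LinearMap.congr_fun hp ⟨w, hw⟩
    exact congrArg Subtype.val h1
  have hpow : ∀ (j : ℕ) (w : W), w ∈ A → (θ ^ j) w ∈ A := by
    intro j
    induction j with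
    | zero => intro w hw; exact hw
    | succ j ih =>
      intro w hw
      rw [pow_succ', Module.End.mul_apply]
      exact hA _ (ih w hw)
  set S : W →ₗ[K] W := ∑ j ∈ Finset.range n, θ ^ j * P * θ ^ (n - j) with hS
  refine ⟨(n : K)⁻¹ • S, ?_, ?_, ?_⟩
  · intro w
    rw [LinearMap.smul_apply, hS, LinearMap.sum_apply]
    refine A.smul_mem _ (A.sum_mem fun j _ => ?_)
    exact hpow j _ (hP1 _)
  · intro w hw
    have h1 : S w = (n : K) • w := by
      rw [hS, LinearMap.sum_apply]
      have h2 : ∀ j ∈ Finset.range n, (θ ^ j * P * θ ^ (n - j)) w = w := by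
        intro j hj
        have hj' := Finset.mem_range.1 hj
        rw [Module.End.mul_apply, Module.End.mul_apply, hP2 _ (hpow _ w hw), ← Module.End.mul_apply,
          ← pow_add, show j + (n - j) = n by omega, hn, Module.End.one_apply]
      rw [Finset.sum_congr rfl h2, Finset.sum_const, Finset.card_range, Nat.cast_smul_eq_nsmul]
    rw [LinearMap.smul_apply, h1, smul_smul, inv_mul_cancel₀ hn0, one_smul]
  · rw [mul_smul_comm, smul_mul_assoc]
    congr 1
    have h1 : θ * S = ∑ j ∈ Finset.range n, θ ^ (j + 1) * P * θ ^ (n + 1 - (j + 1)) := by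
      rw [hS, Finset.mul_sum]
      refine Finset.sum_congr rfl fun j _ => ?_
      rw [show n + 1 - (j + 1) = n - j by omega, pow_succ']
      simp only [mul_assoc]
    have h2 : S * θ = ∑ j ∈ Finset.range n, θ ^ j * P * θ ^ (n + 1 - j) := by
      rw [hS, Finset.sum_mul]
      refine Finset.sum_congr rfl fun j hj => ?_
      have hj' := Finset.mem_range.1 hj
      rw [show n + 1 - j = (n - j) + 1 by omega, pow_succ]
      simp only [mul_assoc]
    have h3 := Finset.sum_range_succ' (fun j => θ ^ j * P * θ ^ (n + 1 - j)) n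
    have h4 := Finset.sum_range_succ (fun j => θ ^ j * P * θ ^ (n + 1 - j)) n
    rw [h1, h2]
    have h5 : θ ^ n * P * θ ^ (n + 1 - n) = θ ^ 0 * P * θ ^ (n + 1 - 0) := by
      have e1 : n + 1 - n = 1 := by omega
      have e2 : θ ^ (n + 1) = θ := by rw [pow_succ, hn, one_mul]
      rw [e1, Nat.sub_zero, pow_one, e2, hn, pow_zero]
    rw [h4] at h3
    simp only [h5] at h3
    exact (add_right_cancel h3).symm

/-- the product `Q i * Q (i+1) * ... * Q (i+m-1)` -/
def ag_E (Q : ℕ → (W →ₗ[K] W)) : ℕ → ℕ → (W →ₗ[K] W)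
  | 0, _ => 1
  | m + 1, i => Q i * ag_E Q m (i + 1)

theorem exists_grd {c : ℕ → Submodule K W} (h0 : c 0 = ⊥) (hl : c l = ⊤)
    (hm : ∀ i < l, c i ≤ c (i + 1)) (θ : W →ₗ[K] W) {n : ℕ} (hn : θ ^ n = 1) (hn0 : (n : K) ≠ 0)
    (hθ : ∀ i ≤ l, ∀ w ∈ c i, θ w ∈ c i) :
    ∃ G : Grd (W →ₗ[K] W) l, Adp G c ∧ ∀ i, θ * G.π i = G.π i * θ := by
  have hQ : ∀ i, ∃ Q : W →ₗ[K] W, i ≤ l → (∀ w, Q w ∈ c i) ∧ (∀ w ∈ c i, Q w = w) ∧
      θ * Q = Q * θ := by
    intro i
    by_cases hi : i ≤ l
    · obtain ⟨Q, hQ⟩ := ag_proj θ hn hn0 (c i) (hθ i hi)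
      exact ⟨Q, fun _ => hQ⟩
    · exact ⟨0, fun h => absurd h hi⟩
  choose Q hQ using hQ
  have hmono : ∀ i j, i ≤ j → j ≤ l → c i ≤ c j := by
    intro i j hij
    induction j, hij using Nat.le_induction with
    | base => intro _; exact le_rfl
    | succ j hij ih => intro hj; exact (ih (by omega)).trans (hm j (by omega))
  set E : ℕ → (W →ₗ[K] W) := fun i => ag_E Q (l - i) i with hE
  have hEl : E l = 1 := by
    simp only [hE, Nat.sub_self, ag_E]
  have hEs : ∀ i < l, E i = Q i * E (i + 1) := by
    intro i hi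
    simp only [hE]
    rw [show l - i = (l - (i + 1)) + 1 by omega, ag_E]
  -- projections onto `c i`
  have hEp : ∀ m i, i + m = l → (∀ w, E i w ∈ c i) ∧ (∀ w ∈ c i, E i w = w) ∧
      θ * E i = E i * θ := by
    intro m
    induction m with
    | zero =>
      intro i hi
      rw [add_zero] at hi
      rw [hi, hEl]
      refine ⟨fun w => ?_, fun w _ => rfl, by rw [mul_one, one_mul]⟩
      rw [hl]
      trivial
    | succ m ih =>
      intro i hi
      obtain ⟨h1, h2, h3⟩ := ih (i + 1) (by omega)
      obtain ⟨h4, h5, h6⟩ := hQ i (by omega)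
      rw [hEs i (by omega)]
      refine ⟨fun w => h4 _, fun w hw => ?_, ?_⟩
      · rw [Module.End.mul_apply, h2 w (hm i (by omega) hw), h5 w hw]
      · rw [← mul_assoc, h6, mul_assoc, h3, mul_assoc]
  have hE1 : ∀ i ≤ l, ∀ w, E i w ∈ c i := fun i hi => (hEp (l - i) i (by omega)).1
  have hE2 : ∀ i ≤ l, ∀ w ∈ c i, E i w = w := fun i hi => (hEp (l - i) i (by omega)).2.1
  have hE3 : ∀ i ≤ l, θ * E i = E i * θ := fun i hi => (hEp (l - i) i (by omega)).2.2
  have hji : ∀ i j, i ≤ j → j ≤ l → E j * E i = E i := by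
    intro i j hij hj
    refine LinearMap.ext fun w => ?_
    rw [Module.End.mul_apply]
    exact hE2 j hj _ (hmono i j hij hj (hE1 i (by omega) w))
  have hij' : ∀ m i, i + m = l → ∀ j, i ≤ j → j ≤ l → E i * E j = E i := by
    intro m
    induction m with
    | zero =>
      intro i hi j hj hj'
      have : j = i := by omega
      rw [this]
      exact hji i i le_rfl (by omega)
    | succ m ih =>
      intro i hi j hj hj'
      rcases Nat.eq_or_lt_of_le hj with h | h
      · rw [← h]
        exact hji i i le_rfl (by omega)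
      · rw [hEs i (by omega), mul_assoc, ih (i + 1) (by omega) j (by omega) hj']
  have hmin : ∀ i j, i ≤ l → j ≤ l → E i * E j = E (min i j) := by
    intro i j hi hj
    rcases le_total i j with h | h
    · rw [min_eq_left h]
      exact hij' (l - i) i (by omega) j h hj
    · rw [min_eq_right h]
      exact hji j i h hi
  have hE0 : E 0 = 0 := by
    refine LinearMap.ext fun w => ?_
    have h1 := hE1 0 (Nat.zero_le _) w
    rw [h0, Submodule.mem_bot] at h1
    exact h1
  let pr : ℕ → (W →ₗ[K] W) := fun i => if i < l then E (i + 1) - E i else 0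
  have hpr : ∀ i < l, pr i = E (i + 1) - E i := fun i hi => if_pos hi
  have hpr0 : ∀ i, l ≤ i → pr i = 0 := fun i hi => if_neg (by omega)
  let G : Grd (W →ₗ[K] W) l :=
    { π := pr
      orth := by
        intro i j
        by_cases hi : i < l
        swap
        · rw [hpr0 i (by omega), zero_mul, ite_self]
        by_cases hj : j < l
        swap
        · rw [hpr0 j (by omega), mul_zero, if_neg (by omega)]
        rw [hpr i hi, hpr j hj, sub_mul, mul_sub, mul_sub, hmin _ _ (by omega) (by omega),
          hmin _ _ (by omega) (by omega), hmin _ _ (by omega) (by omega),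
          hmin _ _ (by omega) (by omega)]
        rcases lt_trichotomy i j with h | h | h
        · rw [if_neg (by omega), show min (i + 1) (j + 1) = i + 1 by omega,
            show min (i + 1) j = i + 1 by omega, show min i (j + 1) = i by omega,
            show min i j = i by omega, sub_self, sub_self, sub_zero]
        · rw [if_pos h, ← h, show min (i + 1) (i + 1) = i + 1 by omega,
            show min (i + 1) i = i by omega, show min i (i + 1) = i by omega,
            show min i i = i by omega, sub_self, sub_zero]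
        · rw [if_neg (by omega), show min (i + 1) (j + 1) = j + 1 by omega,
            show min (i + 1) j = j by omega, show min i (j + 1) = j + 1 by omega,
            show min i j = j by omega, sub_self]
      sum := by
        have h1 : ∑ i ∈ Finset.range l, pr i = ∑ i ∈ Finset.range l, (E (i + 1) - E i) :=
          Finset.sum_congr rfl fun i hi => hpr i (Finset.mem_range.1 hi)
        rw [h1, Finset.sum_range_sub, hEl, hE0, sub_zero]
      zero := hpr0 }
  refine ⟨G, ?_, ?_⟩
  · intro k hk w
    constructor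
    · intro hw i hi
      by_cases hil : i < l
      · change pr i w = 0
        rw [hpr i hil, LinearMap.sub_apply, hE2 _ (by omega) w (hmono k (i + 1) (by omega)
          (by omega) hw), hE2 _ (by omega) w (hmono k i hi (by omega) hw), sub_self]
      · change pr i w = 0
        rw [hpr0 i (by omega), LinearMap.zero_apply]
    · intro h
      have h1 : ∀ m i, i + m = l → k ≤ i → E i w = w := by
        intro m
        induction m with
        | zero =>
          intro i hi _
          rw [add_zero] at hi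
          rw [hi, hEl, Module.End.one_apply]
        | succ m ih =>
          intro i hi hki
          have h2 : pr i w = 0 := h i hki
          rw [hpr i (by omega), LinearMap.sub_apply, ih (i + 1) (by omega) (by omega),
            sub_eq_zero] at h2
          exact h2.symm
      rw [← h1 (l - k) k (by omega) le_rfl]
      exact hE1 k hk w
  · intro i
    change θ * pr i = pr i * θ
    by_cases hil : i < l
    · rw [hpr i hil, mul_sub, sub_mul, hE3 _ (by omega), hE3 _ (by omega)]
    · rw [hpr0 i (by omega), mul_zero, zero_mul]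

variable {G : Grd (W →ₗ[K] W) l} {c : ℕ → Submodule K W}

theorem ag_orth (G : Grd (W →ₗ[K] W) l) (i j : ℕ) (w : W) :
    G.π i (G.π j w) = if i = j then G.π i w else 0 := by
  rw [← Module.End.mul_apply, G.orth]
  split_ifs
  · rfl
  · rfl

theorem Adp.pi_mem (h : Adp G c) {k : ℕ} (hk : k < l) (w : W) : G.π k w ∈ c (k + 1) := by
  rw [h (k + 1) hk]
  intro i hi
  rw [ag_orth, if_neg (by omega)]

theorem Adp.fil (h : Adp G c) {r : ℕ} {f : W →ₗ[K] W} :
    G.Fil r f ↔ ∀ i ≤ l, ∀ w ∈ c i, f w ∈ c (i - r) := by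
  constructor
  · intro hf i hi w hw
    rw [h (i - r) (by omega)]
    intro j hj
    have h1 := (h i hi w).1 hw
    have h2 : w = ∑ m ∈ Finset.range l, G.π m w := by
      have h3 := LinearMap.congr_fun G.sum w
      rw [LinearMap.sum_apply, Module.End.one_apply] at h3
      exact h3.symm
    rw [h2, map_sum, map_sum]
    refine Finset.sum_eq_zero fun m _ => ?_
    by_cases hmi : i ≤ m
    · rw [h1 m hmi, map_zero, map_zero]
    · exact LinearMap.congr_fun (hf m j (by omega)) w
  · intro hf i j hij
    refine LinearMap.ext fun w => ?_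
    by_cases hil : i < l
    · have h1 := hf (i + 1) hil _ (h.pi_mem hil w)
      rw [h (i + 1 - r) (by omega)] at h1
      exact h1 j (by omega)
    · rw [G.zero i (by omega), mul_zero]

/-- `w ∈ c (k+1)` is congruent to `π k w` modulo `c k` -/
theorem Adp.sub_mem (h : Adp G c) {k : ℕ} (hk : k < l) {w : W} (hw : w ∈ c (k + 1)) :
    w - G.π k w ∈ c k := by
  rw [h k hk.le]
  intro i hi
  rw [map_sub, ag_orth]
  by_cases hik : i = k
  · rw [if_pos hik, sub_self]
  · rw [if_neg hik, sub_zero]
    exact (h (k + 1) hk w).1 hw i (by omega)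

theorem Adp.pi_eq_zero (h : Adp G c) {k : ℕ} (hk : k < l) {w : W} (hw : w ∈ c (k + 1)) :
    G.π k w = 0 ↔ w ∈ c k := by
  constructor
  · intro h1
    have h2 := h.sub_mem hk hw
    rwa [h1, sub_zero] at h2
  · intro h1
    exact (h k hk.le w).1 h1 k le_rfl

theorem Adp.finrank [FiniteDimensional K W] (h : Adp G c) {k : ℕ} (hk : k < l) :
    finrank K (LinearMap.range (G.π k)) + finrank K (c k) = finrank K (c (k + 1)) := by
  have hle : c k ≤ c (k + 1) := by
    intro w hw
    rw [h (k + 1) hk]
    intro i hi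
    exact (h k hk.le w).1 hw i (by omega)
  have hsup : LinearMap.range (G.π k) ⊔ c k = c (k + 1) := by
    apply le_antisymm
    · refine sup_le ?_ hle
      rintro _ ⟨w, rfl⟩
      exact h.pi_mem hk w
    · intro w hw
      have h1 : w = G.π k w + (w - G.π k w) := by abel
      rw [h1]
      exact Submodule.add_mem_sup ⟨w, rfl⟩ (h.sub_mem hk hw)
  have hinf : LinearMap.range (G.π k) ⊓ c k = ⊥ := by
    rw [eq_bot_iff]
    rintro _ ⟨⟨w, rfl⟩, hw⟩
    have h1 := (h k hk.le _).1 hw k le_rfl
    rw [ag_orth, if_pos rfl] at h1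
    rw [h1]
    exact Submodule.zero_mem _
  have h2 := Submodule.finrank_sup_add_finrank_inf_eq (LinearMap.range (G.π k)) (c k)
  rw [hsup, hinf, finrank_bot, add_zero] at h2
  exact h2.symm

/-- for maps of degree `≥ 0`: acting on the factor `c (k+1) / c k` and on the range of `π k` is the same -/
theorem Adp.factor (h : Adp G c) {k : ℕ} (hk : k < l) {f : W →ₗ[K] W} (hf : G.Fil 0 f) :
    (∃ w ∈ c (k + 1), f w ∉ c k) ↔ G.π k * f * G.π k ≠ 0 := by
  have hf' := h.fil.1 hf
  constructor
  · rintro ⟨w, hw, hfw⟩ h0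
    apply hfw
    rw [← h.pi_eq_zero hk (hf' (k + 1) hk w hw)]
    have h1 : f w = f (G.π k w) + f (w - G.π k w) := by
      rw [← map_add]
      congr 1
      abel
    have h2 : G.π k (f (G.π k w)) = 0 := LinearMap.congr_fun h0 w
    have h3 : G.π k (f (w - G.π k w)) = 0 :=
      (h k hk.le _).1 (hf' k hk.le _ (h.sub_mem hk hw)) k le_rfl
    rw [h1, map_add, h2, h3, add_zero]
  · intro hne
    by_contra hcon
    push Not at hcon
    apply hne
    refine LinearMap.ext fun w => ?_
    have h1 := hcon _ (h.pi_mem hk w)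
    exact (h k hk.le _).1 h1 k le_rfl

end Pool.Agent.Lib.MP_b9166b_al.Pt
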