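import Pool.Agent.Lib.MP_b9166b_al.Pt.Cvr

/-!
# MP_b9166b_al, PT: lifting a p-subgroup

`exists_plift`: in the group `{q ∈ d.Gam | q.1 ∈ P}` (finite) with the central subgroup `Z` of the elements with first component `1` (scalars,
order prime to `p`) the `p`-elements form a subgroup (`pw_mul`), which the first projection maps isomorphically onto `P` (surjective:
`exists_ppart`). `ŝ`: any lift of `s`; `ŝ * (h, A h) * ŝ⁻¹` is a `p`-element over `h`, so it is `(h, A h)`.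
-/

set_option autoImplicit false

namespace Pool.Agent.Lib.MP_b9166b_al.Pt

open Module

variable {p : ℕ} {G : Type} [Group G]

/-- a scalar unit whose `p`-th power is `1` is `1` -/
theorem Pl_scal {F V : Type} [Field F] [AddCommGroup V] [Module F V] (hp : p.Prime) [CharP F p]
    (u : (V →ₗ[F] V)ˣ) (h1 : ∃ e : F, u.val = e • (1 : V →ₗ[F] V)) (h2 : u ^ p = 1) : u = 1 := by
  have hfp : Fact p.Prime := ⟨hp⟩
  obtain ⟨e, he⟩ := h1
  apply Units.ext
  rcases subsingleton_or_nontrivial V with hV | hV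
  · apply LinearMap.ext
    intro v
    exact Subsingleton.elim _ _
  · have h3 : e ^ p • (1 : V →ₗ[F] V) = 1 := by
      have h4 : u.val ^ p = 1 := by
        rw [← Units.val_pow_eq_pow_val, h2, Units.val_one]
      rw [he, smul_pow, one_pow] at h4
      exact h4
    obtain ⟨v, hv⟩ := exists_ne (0 : V)
    have h5 : e ^ p • v = v := by
      have h6 := congrArg (fun l : V →ₗ[F] V => l v) h3
      simpa using h6
    have h7 : (e ^ p - 1) • v = 0 := by rw [sub_smul, one_smul, h5, sub_self]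
    have h8 : e ^ p - 1 = 0 := (smul_eq_zero.1 h7).resolve_right hv
    have h9 : (e - 1) ^ p = 0 := by
      rw [sub_pow_char, one_pow]
      exact h8
    have h10 : e = 1 := sub_eq_zero.1 (pow_eq_zero_iff hp.ne_zero |>.1 h9)
    rw [he, h10, one_smul, Units.val_one]

/-- the group of the lifts of a subgroup -/
def PlQ (d : Cvr p G) (S : Subgroup G) : Subgroup (G × d.U) :=
  d.Gam ⊓ S.comap (MonoidHom.fst G d.U)

instance PlQ_finite (d : Cvr p G) (S : Subgroup G) : Finite (PlQ d S) := by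
  have h : (PlQ d S : Set (G × d.U)) ⊆ (d.Gam : Set (G × d.U)) := fun x hx => hx.1
  have h1 : (d.Gam : Set (G × d.U)).Finite := Set.finite_coe_iff.1 (inferInstanceAs (Finite d.Gam))
  exact (h1.subset h).to_subtype

/-- the first component -/
def Plφ (d : Cvr p G) (S : Subgroup G) : PlQ d S →* G :=
  (MonoidHom.fst G d.U).comp (PlQ d S).subtype

theorem Pl_cen (d : Cvr p G) (S : Subgroup G) : (Plφ d S).ker ≤ Subgroup.center (PlQ d S) := by
  intro z hz
  rw [Subgroup.mem_center_iff]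
  intro g
  have hz1 : z.1.1 = 1 := hz
  have hz2 : ((1 : G), z.1.2) ∈ d.Gam := by
    have h := z.2.1
    rw [← hz1]
    exact h
  obtain ⟨e, he⟩ := d.scal _ hz2
  apply Subtype.ext
  apply Prod.ext
  · change g.1.1 * z.1.1 = z.1.1 * g.1.1
    rw [hz1, mul_one, one_mul]
  · change g.1.2 * z.1.2 = z.1.2 * g.1.2
    apply Units.ext
    rw [Units.val_mul, Units.val_mul, he, mul_smul_comm, smul_mul_assoc, mul_one, one_mul]

theorem Pl_cop (hp : p.Prime) (d : Cvr p G) (S : Subgroup G) :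
    (Nat.card (Plφ d S).ker).Coprime p := by
  have hfp : Fact p.Prime := ⟨hp⟩
  rw [Nat.coprime_comm, Nat.Prime.coprime_iff_not_dvd hp]
  intro hdvd
  obtain ⟨z, hz⟩ := exists_prime_orderOf_dvd_card' p hdvd
  have hz1 : z.1.1.1 = 1 := z.2
  have hz2 : ((1 : G), z.1.1.2) ∈ d.Gam := by
    have h := z.1.2.1
    rw [← hz1]
    exact h
  have h3 : z ^ p = 1 := by
    have h := pow_orderOf_eq_one z
    rwa [hz] at h
  have h4 : z.1.1.2 ^ p = 1 := by
    have h5 : (z ^ p).1.1.2 = (1 : G × d.U).2 := by rw [h3]; rfl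
    exact h5
  have h6 := Pl_scal hp z.1.1.2 (d.scal _ hz2) h4
  have h7 : z = 1 := Subtype.ext (Subtype.ext (Prod.ext hz1 h6))
  rw [h7, orderOf_one] at hz
  exact hp.one_lt.ne hz

theorem Pl_unique (hp : p.Prime) (d : Cvr p G) (S : Subgroup G)
    (hS : ∀ h ∈ S, ∃ j : ℕ, h ^ p ^ j = 1) {g g' : PlQ d S} (hg : Pw p g) (hg' : Pw p g')
    (h : g.1.1 = g'.1.1) : g = g' := by
  have h1 : g⁻¹ * g' ∈ (Plφ d S).ker := by
    rw [MonoidHom.mem_ker, map_mul, map_inv]
    change (g.1.1)⁻¹ * g'.1.1 = 1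
    rw [h, inv_mul_cancel]
  have h2 : Pw p (g⁻¹ * g') := by
    refine pw_mul hp (Plφ d S).ker (Pl_cen d S) (Pl_cop hp d S) ?_ hg.inv hg'
    intro q
    obtain ⟨j, hj⟩ := hS q.1.1 q.2.2
    refine ⟨j, ?_⟩
    rw [MonoidHom.mem_ker, map_pow]
    exact hj
  have h3 : (orderOf (g⁻¹ * g')).Coprime p := by
    have h4 : orderOf (⟨g⁻¹ * g', h1⟩ : (Plφ d S).ker) = orderOf (g⁻¹ * g') :=
      (Subgroup.orderOf_coe _).symm
    rw [← h4]
    exact Nat.Coprime.coprime_dvd_left (orderOf_dvd_natCard _) (Pl_cop hp d S)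
  have h5 := Pw.eq_one h2 h3
  exact inv_mul_eq_one.1 h5

theorem Pl_exists (hp : p.Prime) (d : Cvr p G) (S : Subgroup G)
    (hS : ∀ h ∈ S, ∃ j : ℕ, h ^ p ^ j = 1) (hSH : ∀ h ∈ S, h ∈ d.H) (h : G) (hh : h ∈ S) :
    ∃ g : PlQ d S, Pw p g ∧ g.1.1 = h := by
  obtain ⟨u, hu⟩ := d.onto h (hSH h hh)
  obtain ⟨n, hn, hφ⟩ := exists_ppart hp (⟨(h, u), hu, hh⟩ : PlQ d S)
  refine ⟨_, hn, ?_⟩
  exact hφ (Plφ d S) (hS h hh)

theorem exists_plift (hp : p.Prime) (d : Cvr p G) {s : G} (hs : s ∈ d.H)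
    (P : Subgroup (Subgroup.centralizer ({s} : Set G))) [Finite P] (hP : IsPGroup p P)
    (hPH : ∀ h ∈ P, (h : G) ∈ d.H) :
    ∃ (A : P →* d.U) (s' : d.U), (∀ h : P, (((h : Subgroup.centralizer ({s} : Set G)) : G), A h) ∈
      d.Gam) ∧ (s, s') ∈ d.Gam ∧ ∀ h, Commute (A h) s' := by
  set S : Subgroup G := P.map (Subgroup.centralizer ({s} : Set G)).subtype with hSdef
  have hmem : ∀ h : P, ((h : Subgroup.centralizer ({s} : Set G)) : G) ∈ S := fun h =>
    ⟨h.1, h.2, rfl⟩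
  have hS : ∀ h ∈ S, ∃ j : ℕ, h ^ p ^ j = 1 := by
    rintro h ⟨x, hx, rfl⟩
    obtain ⟨j, hj⟩ := hP ⟨x, hx⟩
    refine ⟨j, ?_⟩
    have h1 : x ^ p ^ j = 1 := congrArg Subtype.val hj
    rw [← map_pow, h1, map_one]
  have hSH : ∀ h ∈ S, h ∈ d.H := by
    rintro h ⟨x, hx, rfl⟩
    exact hPH x hx
  choose L hL1 hL2 using fun h : P => Pl_exists hp d S hS hSH _ (hmem h)
  have hU : ∀ {g g' : PlQ d S}, Pw p g → Pw p g' → g.1.1 = g'.1.1 → g = g' :=
    fun hg hg' h => Pl_unique hp d S hS hg hg' h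
  have hker : ∀ q : PlQ d S, ∃ j : ℕ, q ^ p ^ j ∈ (Plφ d S).ker := by
    intro q
    obtain ⟨j, hj⟩ := hS q.1.1 q.2.2
    refine ⟨j, ?_⟩
    rw [MonoidHom.mem_ker, map_pow]
    exact hj
  have hmul : ∀ h h' : P, L (h * h') = L h * L h' := by
    intro h h'
    refine hU (hL1 _) (pw_mul hp _ (Pl_cen d S) (Pl_cop hp d S) hker (hL1 h) (hL1 h')) ?_
    rw [hL2]
    change _ = (L h).1.1 * (L h').1.1
    rw [hL2, hL2]
    rfl
  obtain ⟨s', hs'⟩ := d.onto s hs
  refine ⟨MonoidHom.mk' (fun h => (L h).1.2) ?_, s', ?_, hs', ?_⟩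
  · intro h h'
    rw [hmul]
    rfl
  · intro h
    have h1 := (L h).2.1
    have h2 : (L h).1 = (((h : Subgroup.centralizer ({s} : Set G)) : G), (L h).1.2) :=
      Prod.ext (hL2 h) rfl
    rw [h2] at h1
    exact h1
  · intro h
    have hc : s * ((h : Subgroup.centralizer ({s} : Set G)) : G) * s⁻¹ =
        ((h : Subgroup.centralizer ({s} : Set G)) : G) := by
      have h1 := Subgroup.mem_centralizer_iff.1 (h : Subgroup.centralizer ({s} : Set G)).2 s rfl
      rw [h1, mul_assoc, mul_inv_cancel, mul_one]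
    have hy1 : ((s, s') : G × d.U) * (L h).1 * ((s, s') : G × d.U)⁻¹ ∈ PlQ d S := by
      refine ⟨d.Gam.mul_mem (d.Gam.mul_mem hs' (L h).2.1) (d.Gam.inv_mem hs'), ?_⟩
      change s * (L h).1.1 * s⁻¹ ∈ S
      rw [hL2, hc]
      exact hmem h
    have hy2 : Pw p (⟨_, hy1⟩ : PlQ d S) := by
      obtain ⟨j, hj⟩ := hL1 h
      refine ⟨j, ?_⟩
      apply Subtype.ext
      have h1 : (L h).1 ^ p ^ j = 1 := congrArg Subtype.val hj
      change (((s, s') : G × d.U) * (L h).1 * ((s, s') : G × d.U)⁻¹) ^ p ^ j = 1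
      rw [conj_pow, h1, mul_one, mul_inv_cancel]
    have hy3 : (⟨_, hy1⟩ : PlQ d S) = L h := by
      refine hU hy2 (hL1 h) ?_
      change s * (L h).1.1 * s⁻¹ = (L h).1.1
      rw [hL2, hc]
    have h4 : s' * (L h).1.2 * s'⁻¹ = (L h).1.2 := congrArg (fun q : PlQ d S => q.1.2) hy3
    change (L h).1.2 * s' = s' * (L h).1.2
    rw [mul_inv_eq_iff_eq_mul] at h4
    exact h4.symm

end Pool.Agent.Lib.MP_b9166b_al.Pt
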