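import Pool.Agent.Lib.MP_b9166b_al.Rg.CovA

/-!
# MP_b9166b_al, PT: permutations of free vectors

`A = P × Fin n × Fin k`, `e (h, j, i) = A h (s^j (w i))`, independent (`hw`). Choose functionals `χ i` on `W` with `χ i (w i) = 1` and
`χ i (e a) = 0` for `a ≠ (1, 0, i)`. For `p, q ∈ P × Fin k` put `v q = A q.1 (w q.2)` and
`T q p x = ∑_j χ p.2 (s^-j (A p.1)⁻¹ x) • s^j (v q)`. The `T q p` are matrix units, they commute with `s`, and
`A h (T q p) (A h)⁻¹ = T (h q) (h p)`. `Q σ = 1 - ∑ T p p + ∑ T (σ p) p`.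
-/

set_option autoImplicit false

namespace Pool.Agent.Lib.MP_b9166b_al.Pt

open Module Equiv Equiv.Perm Rg

/-- a homomorphism to a commutative monoid is trivial on even permutations -/
theorem pm_even {α M : Type*} [Fintype α] [DecidableEq α] [CommMonoid M] (χ : Perm α →* M)
    (σ : Perm α) (h : sign σ = 1) : χ σ = 1 := by
  have hconj : ∀ x y z w : α, x ≠ y → z ≠ w → χ (swap x y) = χ (swap z w) := by
    intro x y z w hxy hzw
    obtain ⟨g, hg⟩ := isConj_iff.1 (isConj_swap hxy hzw)
    rw [← hg, map_mul, map_mul, mul_right_comm, ← map_mul, mul_inv_cancel, map_one, one_mul]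
  have key : ∀ σ : Perm α, ∃ m : ℕ, sign σ = (-1) ^ m ∧
      ∀ x y : α, x ≠ y → χ σ = χ (swap x y) ^ m := by
    intro σ
    induction σ using Equiv.Perm.swap_induction_on with
    | one => exact ⟨0, by rw [Perm.sign_one, pow_zero], fun x y _ => by rw [map_one, pow_zero]⟩
    | swap_mul f x y hxy ih =>
      obtain ⟨m, h1, h2⟩ := ih
      refine ⟨m + 1, by rw [Perm.sign_mul, Perm.sign_swap hxy, h1, pow_succ'], fun z w hzw => ?_⟩
      rw [map_mul, h2 z w hzw, hconj x y z w hxy hzw, pow_succ']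
  by_cases hs : σ = 1
  · rw [hs, map_one]
  obtain ⟨x, hx⟩ : ∃ x, σ x ≠ x := by
    by_contra hc
    push Not at hc
    exact hs (Equiv.ext hc)
  obtain ⟨m, h1, h2⟩ := key σ
  rw [h] at h1
  rw [h2 _ _ hx]
  rcases Nat.even_or_odd m with ⟨t, ht⟩ | ho
  · rw [ht, ← two_mul, pow_mul, pow_two, ← map_mul, swap_mul_self, map_one, one_pow]
  · rw [ho.neg_one_pow] at h1
    exact absurd h1 (by decide)

section MU

variable {α R : Type*} [Fintype α] [DecidableEq α] [Ring R]

/-- permutation matrices for a system of matrix units -/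
def pmHom (T : α → α → R) (hT : ∀ a b c d, T a b * T c d = if b = c then T a d else 0) :
    Perm α →* R where
  toFun σ := 1 - ∑ p, T p p + ∑ p, T (σ p) p
  map_one' := by
    simp only [Perm.one_apply, sub_add_cancel]
  map_mul' := by
    have hU : ∀ σ τ : Perm α, (∑ p, T (σ p) p) * (∑ p, T (τ p) p) = ∑ p, T ((σ * τ) p) p := by
      intro σ τ
      rw [Finset.sum_mul_sum, Finset.sum_comm]
      refine Finset.sum_congr rfl fun q _ => ?_
      have h1 : ∀ p ∈ Finset.univ, T (σ p) p * T (τ q) q = if p = τ q then T (σ p) q else 0 :=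
        fun p _ => hT _ _ _ _
      rw [Finset.sum_congr rfl h1, Finset.sum_ite_eq' Finset.univ (τ q) (fun p => T (σ p) q),
        if_pos (Finset.mem_univ _), Perm.mul_apply]
    intro σ τ
    have h1 := hU 1 1
    have h2 := hU 1 τ
    have h3 := hU σ 1
    have h4 := hU σ τ
    simp only [Perm.one_apply, one_mul, mul_one] at h1 h2 h3
    rw [← h4]
    generalize (∑ p, T p p) = u at h1 h2 h3 ⊢
    generalize (∑ p, T (σ p) p) = a at h3 ⊢
    generalize (∑ p, T (τ p) p) = b at h2 ⊢
    have e : (1 - u + a) * (1 - u + b) = 1 - u - u + u * u + b - u * b + a - a * u + a * b := by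
      noncomm_ring
    rw [e, h1, h2, h3]
    abel

theorem pmHom_apply (T : α → α → R)
    (hT : ∀ a b c d, T a b * T c d = if b = c then T a d else 0) (σ : Perm α) :
    pmHom T hT σ = 1 - ∑ p, T p p + ∑ p, T (σ p) p := rfl

end MU

theorem exists_perm {F W P : Type} [Field F] [AddCommGroup W] [Module F W]
    [FiniteDimensional F W] [Group P] [Fintype P] [DecidableEq P] {k n : ℕ} (hn : 0 < n)
    (A : P →* (W →ₗ[F] W)ˣ) (s : (W →ₗ[F] W)ˣ) (hs : ∀ h, Commute (A h) s)
    (hsn : ∃ e : F, (s ^ n).val = e • (1 : W →ₗ[F] W)) (w : Fin k → W)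
    (hw : LinearIndependent F fun q : P × Fin n × Fin k =>
      ((A q.1).val * s.val ^ (q.2.1 : ℕ)) (w q.2.2)) :
    ∃ Q : Perm (P × Fin k) →* (W →ₗ[F] W)ˣ,
      (∀ σ, sign σ = 1 → LinearMap.det (Q σ).val = 1) ∧ (∀ σ, Commute (Q σ) s) ∧
      (∀ h σ, A h * Q σ * (A h)⁻¹ = Q (tr h * σ * (tr h)⁻¹)) ∧
      ∀ σ, (∃ e : F, (Q σ).val = e • (1 : W →ₗ[F] W)) → σ = 1 := by
  classical
  obtain ⟨e0, he0⟩ := hsn
  -- the functionals
  have hχ : ∀ i : Fin k, ∃ χ : W →ₗ[F] F, ∀ (h : P) (j : ℕ) (hj : j < n) (i' : Fin k),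
      χ (((A h).val * s.val ^ j) (w i')) = if h = 1 ∧ j = 0 ∧ i' = i then 1 else 0 := by
    intro i
    set a : P × Fin n × Fin k := (1, ⟨0, hn⟩, i)
    obtain ⟨g, hg⟩ := LinearMap.exists_extend ((Finsupp.lapply a).comp hw.repr)
    refine ⟨g, fun h j hj i' => ?_⟩
    set b : P × Fin n × Fin k := (h, ⟨j, hj⟩, i')
    have hmem : ((A h).val * s.val ^ j) (w i') ∈ Submodule.span F (Set.range
        fun q : P × Fin n × Fin k => ((A q.1).val * s.val ^ (q.2.1 : ℕ)) (w q.2.2)) :=
      Submodule.subset_span ⟨b, rfl⟩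
    have h1 := LinearMap.congr_fun hg ⟨_, hmem⟩
    rw [LinearMap.comp_apply, LinearMap.comp_apply, Submodule.subtype_apply,
      hw.repr_eq_single b _ rfl, Finsupp.lapply_apply, Finsupp.single_apply] at h1
    rw [h1]
    refine if_congr ?_ rfl rfl
    constructor
    · intro hab
      rw [Prod.mk.injEq, Prod.mk.injEq, Fin.mk.injEq] at hab
      exact hab
    · rintro ⟨rfl, rfl, rfl⟩
      rfl
  choose χ hχ using hχ
  -- vectors
  set v : P × Fin k → W := fun q => (A q.1).val (w q.2) with hv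
  have hs0 : ∀ (j : ℕ) (x : W), (s ^ j).val x = (s.val ^ j) x := fun j x => by
    rw [Units.val_pow_eq_pow_val]
  have hsn' : ∀ x : W, (s.val ^ n) x = e0 • x := by
    intro x
    rw [← hs0, he0, LinearMap.smul_apply, Module.End.one_apply]
  have hss : ∀ x : W, s.val ((s⁻¹).val x) = x := fun x => by
    rw [← Module.End.mul_apply, Units.mul_inv, Module.End.one_apply]
  have hss' : ∀ x : W, (s⁻¹).val (s.val x) = x := fun x => by
    rw [← Module.End.mul_apply, Units.inv_mul, Module.End.one_apply]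
  have hpow : ∀ (j : ℕ) (x : W), (s.val ^ j) (((s⁻¹).val ^ j) x) = x := by
    intro j x
    rw [← Module.End.mul_apply, ← Units.val_pow_eq_pow_val, ← Units.val_pow_eq_pow_val,
      inv_pow, Units.mul_inv, Module.End.one_apply]
  have hAinv : ∀ (h : P) (x : W), ((A h)⁻¹).val (s.val x) = s.val (((A h)⁻¹).val x) := by
    intro h x
    rw [← Module.End.mul_apply, ← Module.End.mul_apply, ← Units.val_mul, ← Units.val_mul,
      ((hs h).inv_left).eq]
  -- the matrix units
  let T : P × Fin k → P × Fin k → W →ₗ[F] W := fun q p => ∑ j ∈ Finset.range n,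
    (((χ p.2).comp (((s⁻¹).val ^ j).comp ((A p.1)⁻¹).val)).smulRight ((s.val ^ j) (v q)))
  have hTa : ∀ q p x, T q p x = ∑ j ∈ Finset.range n,
      χ p.2 (((s⁻¹).val ^ j) (((A p.1)⁻¹).val x)) • (s.val ^ j) (v q) := by
    intro q p x
    rw [LinearMap.sum_apply]
    rfl
  have hTs : ∀ q p x, T q p (s.val x) = s.val (T q p x) := by
    intro q p x
    rw [hTa, hTa, map_sum, hAinv]
    set y := ((A p.1)⁻¹).val x
    set ψ : ℕ → W := fun j => χ p.2 (((s⁻¹).val ^ j) (s.val y)) • (s.val ^ j) (v q) with hψ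
    have h1 : ∀ j, s.val (χ p.2 (((s⁻¹).val ^ j) y) • (s.val ^ j) (v q)) = ψ (j + 1) := by
      intro j
      rw [hψ]
      simp only
      rw [map_smul, pow_succ, Module.End.mul_apply, hss', pow_succ' (s.val) j,
        Module.End.mul_apply]
    rw [Finset.sum_congr rfl fun j _ => h1 j]
    have h2 := Finset.sum_range_succ ψ n
    have h3 := Finset.sum_range_succ' ψ n
    have h4 : ψ n = ψ 0 := by
      have h5 : e0 * χ p.2 (((s⁻¹).val ^ n) (s.val y)) = χ p.2 (s.val y) := by
        rw [← smul_eq_mul, ← map_smul (χ p.2), ← hsn', hpow]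
      rw [hψ]
      simp only
      rw [hsn', smul_smul, mul_comm, h5, pow_zero, pow_zero, Module.End.one_apply,
        Module.End.one_apply]
    rw [h2, h4] at h3
    exact add_right_cancel h3
  have hTsp : ∀ (j : ℕ) q p x, T q p ((s.val ^ j) x) = (s.val ^ j) (T q p x) := by
    intro j q p x
    induction j with
    | zero => rw [pow_zero, Module.End.one_apply, Module.End.one_apply]
    | succ j ih =>
      rw [pow_succ', Module.End.mul_apply, hTs, ih, Module.End.mul_apply]
  have hAv : ∀ (h h' : P) (x : W), ((A h)⁻¹).val ((A h').val x) = (A (h⁻¹ * h')).val x := by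
    intro h h' x
    rw [map_mul, map_inv, Units.val_mul, Module.End.mul_apply]
  have hTv : ∀ q p q', T q p (v q') = if p = q' then v q else 0 := by
    intro q p q'
    have hz : e0 ≠ 0 := by
      intro h0
      have h1 := hw.ne_zero ((1 : P), (⟨0, hn⟩ : Fin n), p.2)
      apply h1
      have h2 := hsn' (((A (1 : P)).val * s.val ^ ((⟨0, hn⟩ : Fin n) : ℕ)) (w p.2))
      rw [h0, zero_smul] at h2
      have h3 := hpow n (((A (1 : P)).val * s.val ^ ((⟨0, hn⟩ : Fin n) : ℕ)) (w p.2))
      have h4 : ∀ x : W, (s.val ^ n) x = 0 := fun x => by rw [hsn', h0, zero_smul]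
      rw [h4] at h3
      exact h3.symm
    rw [hTa]
    have h1 : ∀ j ∈ Finset.range n, j ≠ 0 →
        χ p.2 (((s⁻¹).val ^ j) (((A p.1)⁻¹).val (v q'))) • (s.val ^ j) (v q) = 0 := by
      intro j hj hj0
      rw [Finset.mem_range] at hj
      have h2 : e0 • χ p.2 (((s⁻¹).val ^ j) (((A p.1)⁻¹).val (v q'))) = 0 := by
        rw [← map_smul, ← hsn', hv]
        simp only
        rw [hAv]
        obtain ⟨c, hc⟩ : ∃ c, n = c + j := ⟨n - j, by omega⟩
        have h5 : (s.val ^ n) (((s⁻¹).val ^ j) ((A (p.1⁻¹ * q'.1)).val (w q'.2))) =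
            ((A (p.1⁻¹ * q'.1)).val * s.val ^ c) (w q'.2) := by
          rw [hc, pow_add, Module.End.mul_apply, hpow]
          have h6 : (A (p.1⁻¹ * q'.1)).val * s.val ^ c = s.val ^ c * (A (p.1⁻¹ * q'.1)).val := by
            rw [← Units.val_pow_eq_pow_val, ← Units.val_mul, ← Units.val_mul,
              ((hs _).pow_right c).eq]
          rw [h6, Module.End.mul_apply]
        rw [h5, hχ p.2 _ c (by omega), if_neg]
        rintro ⟨-, h6, -⟩
        omega
      rw [smul_eq_mul, mul_eq_zero] at h2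
      rw [h2.resolve_left hz, zero_smul]
    rw [Finset.sum_eq_single 0 h1 (fun h => absurd (Finset.mem_range.2 hn) h), pow_zero,
      pow_zero, Module.End.one_apply, Module.End.one_apply, hv]
    simp only
    rw [hAv]
    have h3 := hχ p.2 (p.1⁻¹ * q'.1) 0 hn q'.2
    rw [pow_zero, mul_one] at h3
    rw [h3]
    by_cases hpq : p = q'
    · rw [if_pos hpq, if_pos, one_smul]
      rw [hpq]
      exact ⟨inv_mul_cancel _, rfl, rfl⟩
    · rw [if_neg hpq, if_neg, zero_smul]
      rintro ⟨h4, -, h5⟩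
      apply hpq
      exact Prod.ext (inv_mul_eq_one.1 h4) h5.symm
  have hT : ∀ a b c d, T a b * T c d = if b = c then T a d else 0 := by
    intro a b c d
    ext x
    rw [Module.End.mul_apply, hTa c d x, map_sum]
    have h1 : ∀ j ∈ Finset.range n, T a b
        (χ d.2 (((s⁻¹).val ^ j) (((A d.1)⁻¹).val x)) • (s.val ^ j) (v c)) =
        if b = c then χ d.2 (((s⁻¹).val ^ j) (((A d.1)⁻¹).val x)) • (s.val ^ j) (v a) else 0 := by
      intro j _
      rw [map_smul, hTsp, hTv]
      by_cases hbc : b = c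
      · rw [if_pos hbc, if_pos hbc]
      · rw [if_neg hbc, if_neg hbc, map_zero, smul_zero]
    rw [Finset.sum_congr rfl h1]
    by_cases hbc : b = c
    · simp only [if_pos hbc]
      rw [hTa a d x]
    · simp only [if_neg hbc, Finset.sum_const_zero, LinearMap.zero_apply]
  -- equivariance
  have hTA : ∀ (h : P) q p, (A h).val * T q p * ((A h)⁻¹).val = T (tr h q) (tr h p) := by
    intro h q p
    ext x
    rw [Module.End.mul_apply, Module.End.mul_apply, hTa, hTa, map_sum]
    refine Finset.sum_congr rfl fun j _ => ?_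
    obtain ⟨q1, q2⟩ := q
    obtain ⟨p1, p2⟩ := p
    rw [tr_apply, tr_apply, map_smul]
    have h1 : (A h).val ((s.val ^ j) (v (q1, q2))) = (s.val ^ j) (v (h * q1, q2)) := by
      rw [hv]
      simp only
      rw [map_mul, Units.val_mul, Module.End.mul_apply, ← Module.End.mul_apply,
        ← Module.End.mul_apply (s.val ^ j), ← Units.val_pow_eq_pow_val, ← Units.val_mul,
        ← Units.val_mul, ((hs h).pow_right j).eq]
    have h2 : ((A p1)⁻¹).val (((A h)⁻¹).val x) = ((A (h * p1))⁻¹).val x := by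
      rw [map_mul, mul_inv_rev, Units.val_mul, Module.End.mul_apply]
    rw [h1]
    simp only
    rw [h2]
  have hQv : ∀ σ p, pmHom T hT σ (v p) = v (σ p) := by
    intro σ p
    rw [pmHom_apply, LinearMap.add_apply, LinearMap.sub_apply, Module.End.one_apply,
      LinearMap.sum_apply, LinearMap.sum_apply]
    simp only [hTv]
    rw [Finset.sum_ite_eq' Finset.univ p (fun q => v q),
      Finset.sum_ite_eq' Finset.univ p (fun q => v (σ q)), if_pos (Finset.mem_univ _),
      if_pos (Finset.mem_univ _), sub_self, zero_add]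
  refine ⟨(pmHom T hT).toHomUnits, ?_, ?_, ?_, ?_⟩
  · intro σ hσ
    exact pm_even ((LinearMap.det).comp (pmHom T hT)) σ hσ
  · intro σ
    have hTc : ∀ q p, T q p * s.val = s.val * T q p := by
      intro q p
      ext x
      rw [Module.End.mul_apply, Module.End.mul_apply, hTs]
    apply Units.ext
    rw [Units.val_mul, Units.val_mul, MonoidHom.coe_toHomUnits, pmHom_apply]
    rw [add_mul, sub_mul, mul_add, mul_sub, one_mul, mul_one, Finset.sum_mul, Finset.sum_mul,
      Finset.mul_sum, Finset.mul_sum]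
    simp only [hTc]
  · intro h σ
    apply Units.ext
    rw [Units.val_mul, Units.val_mul, MonoidHom.coe_toHomUnits, MonoidHom.coe_toHomUnits,
      pmHom_apply, pmHom_apply]
    rw [mul_add, mul_sub, add_mul, sub_mul, mul_one, Units.mul_inv, Finset.mul_sum,
      Finset.mul_sum, Finset.sum_mul, Finset.sum_mul]
    simp only [hTA]
    have h1 : ∀ f : P × Fin k → (W →ₗ[F] W), ∑ p, f (tr h p) = ∑ p, f p :=
      fun f => Equiv.sum_comp (tr h) f
    rw [h1 fun p => T p p]
    have h2 := h1 fun p => T ((tr h * σ * (tr h)⁻¹ : Perm (P × Fin k)) p) p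
    have h3 : ∀ p : P × Fin k, (tr h * σ * (tr h)⁻¹ : Perm (P × Fin k)) (tr h p) =
        tr h (σ p) := by
      intro p
      have h4 : ((tr h)⁻¹ : Perm (P × Fin k)) (tr h p) = p := Equiv.symm_apply_apply (tr h) p
      rw [Perm.mul_apply, Perm.mul_apply, h4]
    rw [← h2]
    simp only [h3]
  · rintro σ ⟨e, he⟩
    apply Equiv.ext
    intro p
    rw [MonoidHom.coe_toHomUnits] at he
    have h1 := hQv σ p
    rw [he, LinearMap.smul_apply, Module.End.one_apply] at h1
    have hinj : LinearIndependent F v := by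
      have h2 := hw.comp (fun p : P × Fin k => (p.1, (⟨0, hn⟩ : Fin n), p.2)) (by
        intro p q hpq
        rw [Prod.mk.injEq, Prod.mk.injEq] at hpq
        exact Prod.ext hpq.1 hpq.2.2)
      have h3 : ((fun q : P × Fin n × Fin k => ((A q.1).val * s.val ^ (q.2.1 : ℕ)) (w q.2.2)) ∘
          fun p : P × Fin k => (p.1, (⟨0, hn⟩ : Fin n), p.2)) = v := by
        funext p
        rw [Function.comp_apply, hv]
        simp only [pow_zero, mul_one]
      rw [h3] at h2
      exact h2
    have h4 : Finsupp.linearCombination F v (Finsupp.single (σ p) 1) =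
        Finsupp.linearCombination F v (Finsupp.single p e) := by
      rw [Finsupp.linearCombination_single, Finsupp.linearCombination_single, one_smul, h1]
    have h5 := hinj h4
    rw [Finsupp.single_eq_single_iff] at h5
    rcases h5 with ⟨h6, -⟩ | ⟨h6, -⟩
    · rw [h6, Perm.one_apply]
    · exact absurd h6 one_ne_zero

end Pool.Agent.Lib.MP_b9166b_al.Pt
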