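import Pool.Agent.Lib.MP_b9166b_al.Pt.Fvc
import Pool.Agent.Lib.MP_b9166b_al.Pt.Pm
import Pool.Agent.Lib.MP_b9166b_al.Pt.Pl
import Pool.Agent.Lib.MP_b9166b_al.Ks.Lift
import Pool.Agent.Lib.MP_b9166b_al.Aq.CaseR

/-!
# MP_b9166b_al, PT: alternating covers in the centralizer of a `p'`-element (Section 5)

`exists_altcov`. `n = orderOf s`. `F₀` = the subgroup of the products `h s^j`, `h ∈ P` (order `|P| n`: `P` is a `p`-group, `n` is prime to `p`). `F₁` from `big` with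
`k * |F₀| ≤ |F₁|`. `free_cov` gives `d`, `w`. `Aq.exists_reps_in` gives `t i ∈ F₁` (`i < k`) with `t i * (t j)⁻¹ ∉ F₀`. `exists_plift` gives `A`, `s'`.
Choose lifts `r i` of the `t i` in `d.Gam`; the elements `h s^j t i` of `F₁` are different, and `A h * s'^j * r i` is a lift of it, so the
`(A h * s'^j) (r i w)` are independent. `s'^n` is a scalar (`d.scal`). `exists_perm` gives `Π`.
`L₀ = {g ∈ G | ∃ σ, sign σ = 1 ∧ (g, Π σ) ∈ d.LL}`, a subgroup of `d.H`; `σ` is unique (`(1, Π τ) ∈ Gam` gives `Π τ` scalar, `τ = 1`); every even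
`σ` occurs (`det = 1`, `d.surj`); the kernel of `g ↦ σ` is `T₀ = {g | (g, 1) ∈ d.LL}`, a `p`-group (`d.ker`), normal in `d.H`.
`h ∈ P` normalizes `L₀` with `σ ↦ tr h σ tr h⁻¹`, `s` normalizes `L₀` and `⁅g, s⁆ ∈ T₀` for `g ∈ L₀`. `L₁` = the elements of `L₀` commuting with `s`, as a
subgroup of the centralizer of `s`. It maps onto the alternating group by `Ks.exists_commute_mul` in the finite group `d.H`.
`exists_large_in`: Sylow. `L₁ P` is a finite group; the order of the alternating group of `P × Fin k`, `k` large, is divisible by a large power of `p`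
(see `Aq.exists_large` in Aq/Large.lean, copy `pow_dvd_factorial_mul`, `pow_dvd_of_two_mul`).
-/

set_option autoImplicit false

namespace Pool.Agent.Lib.MP_b9166b_al.Pt

open Module Equiv Equiv.Perm Rg Cvr
open scoped commutatorElement

variable {p : ℕ} {G : Type} [Group G]

/-- the subgroup of `L` from permutations -/
theorem alc_core (hp : p.Prime) (d : Cvr p G) {s : G}
    (hsp : (orderOf s).Coprime p) (hsH : s ∈ d.H)
    (P : Subgroup (Subgroup.centralizer ({s} : Set G))) [Fintype P] [DecidableEq P] {k : ℕ}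
    (A : P →* d.U) (s' : d.U)
    (hA : ∀ h : P, (((h : Subgroup.centralizer ({s} : Set G)) : G), A h) ∈ d.Gam)
    (hs' : (s, s') ∈ d.Gam) (Q : Perm (P × Fin k) →* d.U)
    (hdet : ∀ σ, sign σ = 1 → LinearMap.det (Q σ).val = 1) (hQs : ∀ σ, Commute (Q σ) s')
    (hQA : ∀ h σ, A h * Q σ * (A h)⁻¹ = Q (tr h * σ * (tr h)⁻¹))
    (hQ1 : ∀ σ, (∃ e : d.F, (Q σ).val = e • (1 : d.V →ₗ[d.F] d.V)) → σ = 1) :
    ∃ (L₁ : Subgroup (Subgroup.centralizer ({s} : Set G))) (_ : Finite L₁)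
      (hn : ∀ h ∈ P, ∀ g ∈ L₁, h * g * h⁻¹ ∈ L₁) (π₁ : L₁ →* Perm (P × Fin k)),
      π₁.range = alternatingGroup (P × Fin k) ∧
      ∀ (h : P) (g : L₁), π₁ ⟨h * g * h⁻¹, hn h h.2 g g.2⟩ = tr h * π₁ g * (tr h)⁻¹ := by
  classical
  -- the group over the alternating group
  let L₀ : Subgroup G :=
    { carrier := {g | ∃ σ : Perm (P × Fin k), sign σ = 1 ∧ (g, Q σ) ∈ d.LL}
      one_mem' := ⟨1, map_one _, by rw [map_one]; exact d.LL.one_mem⟩
      mul_mem' := by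
        rintro a b ⟨σ, h1, h2⟩ ⟨σ', h3, h4⟩
        refine ⟨σ * σ', by rw [map_mul, h1, h3, one_mul], ?_⟩
        rw [map_mul]
        exact d.LL.mul_mem h2 h4
      inv_mem' := by
        rintro a ⟨σ, h1, h2⟩
        refine ⟨σ⁻¹, by rw [map_inv, h1, inv_one], ?_⟩
        rw [map_inv]
        exact d.LL.inv_mem h2 }
  have hL₀ : ∀ g, g ∈ L₀ ↔ ∃ σ : Perm (P × Fin k), sign σ = 1 ∧ (g, Q σ) ∈ d.LL :=
    fun g => Iff.rfl
  have hLH : L₀ ≤ d.H := by
    rintro g ⟨σ, _, h2⟩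
    exact d.mem _ (d.le h2)
  have huniq : ∀ {g : G} {σ σ' : Perm (P × Fin k)}, (g, Q σ) ∈ d.LL → (g, Q σ') ∈ d.LL →
      σ = σ' := by
    intro g σ σ' h1 h2
    have h3 : ((g, Q σ) : G × d.U)⁻¹ * (g, Q σ') ∈ d.Gam :=
      d.Gam.mul_mem (d.Gam.inv_mem (d.le h1)) (d.le h2)
    have h4 : ((g, Q σ) : G × d.U)⁻¹ * (g, Q σ') = (1, Q (σ⁻¹ * σ')) := by
      rw [map_mul, map_inv]
      exact Prod.ext (inv_mul_cancel g) rfl
    rw [h4] at h3
    have h5 := hQ1 _ (d.scal _ h3)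
    exact inv_mul_eq_one.1 h5
  -- the kernel
  let T : Subgroup d.H :=
    { carrier := {g | ((g : G), (1 : d.U)) ∈ d.LL}
      one_mem' := d.LL.one_mem
      mul_mem' := by
        intro a b h1 h2
        have h3 := d.LL.mul_mem h1 h2
        rw [Prod.mk_mul_mk, mul_one] at h3
        exact h3
      inv_mem' := by
        intro a h1
        have h3 := d.LL.inv_mem h1
        rw [Prod.inv_mk, inv_one] at h3
        exact h3 }
  have hT : ∀ g : d.H, g ∈ T ↔ ((g : G), (1 : d.U)) ∈ d.LL := fun g => Iff.rfl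
  have hTn : T.Normal := by
    constructor
    intro n hn g
    rw [hT] at hn ⊢
    obtain ⟨u, hu⟩ := d.onto g g.2
    have h1 := d.norm _ hu _ hn
    rw [Prod.mk_mul_mk, Prod.inv_mk, Prod.mk_mul_mk, mul_one, mul_inv_cancel] at h1
    exact h1
  have hTp : IsPGroup p T := by
    rintro ⟨g, hg⟩
    obtain ⟨j, hj⟩ := d.ker _ ((hT g).1 hg)
    exact ⟨j, Subtype.ext (Subtype.ext hj)⟩
  have : Fact p.Prime := ⟨hp⟩
  have hTc : (Nat.card T).Coprime (orderOf (⟨s, hsH⟩ : d.H)) := by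
    obtain ⟨j, hj⟩ := hTp.exists_card_eq
    rw [hj, Subgroup.orderOf_mk]
    exact (hsp.pow_right j).symm
  have hexT : ∀ g : G, g ∈ L₀ → ∃ t : G, (t, (1 : d.U)) ∈ d.LL ∧ Commute (g * t) s := by
    intro g hg
    obtain ⟨σ, _, h2⟩ := (hL₀ g).1 hg
    have h3 : ⁅(⟨g, hLH hg⟩ : d.H), (⟨s, hsH⟩ : d.H)⁆ ∈ T := by
      rw [hT]
      have h4 := d.norm _ hs' _ (d.LL.inv_mem h2)
      have h5 := d.LL.mul_mem h2 h4
      rw [Prod.inv_mk, Prod.mk_mul_mk, Prod.inv_mk, Prod.mk_mul_mk, Prod.mk_mul_mk] at h5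
      have h6 : Q σ * (s' * (Q σ)⁻¹ * s'⁻¹) = 1 := by
        rw [← mul_assoc, ← mul_assoc, (hQs σ).eq, mul_inv_cancel_right, mul_inv_cancel]
      rw [h6, ← mul_assoc, ← mul_assoc] at h5
      exact h5
    obtain ⟨t, ht, htc⟩ := Ks.exists_commute_mul T hTc h3
    exact ⟨t, (hT t).1 ht, congrArg Subtype.val htc⟩
  -- the subgroup of the centralizer
  let L₁ : Subgroup (Subgroup.centralizer ({s} : Set G)) :=
    L₀.comap (Subgroup.centralizer ({s} : Set G)).subtype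
  have hL₁ : ∀ g, g ∈ L₁ ↔ (g : G) ∈ L₀ := fun g => Iff.rfl
  have hfin : Finite L₁ := by
    refine Finite.of_injective (fun g : L₁ => (⟨((g : Subgroup.centralizer ({s} : Set G)) : G),
      hLH ((hL₁ _).1 g.2)⟩ : d.H)) ?_
    intro a b hab
    exact Subtype.ext (Subtype.ext (congrArg (fun z : d.H => (z : G)) hab))
  have hconj : ∀ (h : P) (g : Subgroup.centralizer ({s} : Set G)) (σ : Perm (P × Fin k)),
      ((g : G), Q σ) ∈ d.LL →
      (((((h : Subgroup.centralizer ({s} : Set G)) * g * (h : Subgroup.centralizer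
        ({s} : Set G))⁻¹ : Subgroup.centralizer ({s} : Set G))) : G),
        Q (tr h * σ * (tr h)⁻¹)) ∈ d.LL := by
    intro h g σ h2
    have h3 := d.norm _ (hA h) _ h2
    rw [Prod.mk_mul_mk, Prod.inv_mk, Prod.mk_mul_mk, hQA] at h3
    exact h3
  have hn : ∀ h ∈ P, ∀ g ∈ L₁, h * g * h⁻¹ ∈ L₁ := by
    intro h hh g hg
    obtain ⟨σ, h1, h2⟩ := (hL₀ _).1 ((hL₁ g).1 hg)
    refine (hL₀ _).2 ⟨tr (⟨h, hh⟩ : P) * σ * (tr (⟨h, hh⟩ : P))⁻¹, ?_, hconj ⟨h, hh⟩ g σ h2⟩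
    rw [map_mul, map_mul, map_inv, h1, mul_one, mul_inv_cancel]
  have hexσ : ∀ g : L₁, ∃ σ : Perm (P × Fin k), sign σ = 1 ∧
      (((g : Subgroup.centralizer ({s} : Set G)) : G), Q σ) ∈ d.LL := fun g => g.2
  choose f hf1 hf2 using hexσ
  let π₁ : L₁ →* Perm (P × Fin k) :=
    { toFun := f
      map_one' := huniq (hf2 1) (by rw [map_one]; exact d.LL.one_mem)
      map_mul' := fun a b => huniq (hf2 (a * b)) (by
        rw [map_mul]
        exact d.LL.mul_mem (hf2 a) (hf2 b)) }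
  refine ⟨L₁, hfin, hn, π₁, ?_, ?_⟩
  · apply le_antisymm
    · rintro _ ⟨g, rfl⟩
      exact Equiv.Perm.mem_alternatingGroup.2 (hf1 g)
    · intro σ hσ
      have h1 := Equiv.Perm.mem_alternatingGroup.1 hσ
      obtain ⟨g, hg⟩ := d.surj (Q σ) (hdet σ h1)
      obtain ⟨t, ht, htc⟩ := hexT g ⟨σ, h1, hg⟩
      have h2 : (g * t, Q σ) ∈ d.LL := by
        have h3 := d.LL.mul_mem hg ht
        rw [Prod.mk_mul_mk, mul_one] at h3
        exact h3
      refine ⟨⟨⟨g * t, ?_⟩, ⟨σ, h1, h2⟩⟩, ?_⟩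
      · rw [Subgroup.mem_centralizer_singleton_iff]
        exact htc
      · exact huniq (hf2 _) h2
  · intro h g
    exact huniq (hf2 _) (hconj h g (f g) (hf2 g))

/-- the group of the products `h s^j` -/
theorem alc_F0 {s : G} (hs0 : 0 < orderOf s)
    (P : Subgroup (Subgroup.centralizer ({s} : Set G))) [Finite P] :
    ∃ F₀ : Subgroup G, Finite F₀ ∧
      (∀ h : P, (((h : Subgroup.centralizer ({s} : Set G)) : G)) ∈ F₀) ∧ s ∈ F₀ := by
  have hc : ∀ (h : P) (j : ℤ), Commute (((h : Subgroup.centralizer ({s} : Set G)) : G))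
      (s ^ j) := fun h j =>
    Commute.zpow_right ((Subgroup.mem_centralizer_singleton_iff).1
      (h : Subgroup.centralizer ({s} : Set G)).2) j
  let F₀ : Subgroup G :=
    { carrier := {g | ∃ (h : P) (j : ℤ),
        g = ((h : Subgroup.centralizer ({s} : Set G)) : G) * s ^ j}
      one_mem' := ⟨1, 0, by simp⟩
      mul_mem' := by
        rintro a b ⟨h, j, rfl⟩ ⟨h', j', rfl⟩
        refine ⟨h * h', j + j', ?_⟩
        have h1 := (hc h' j).eq
        rw [Subgroup.coe_mul, Subgroup.coe_mul, zpow_add, mul_assoc, ← mul_assoc (s ^ j), ← h1]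
        simp only [mul_assoc]
      inv_mem' := by
        rintro a ⟨h, j, rfl⟩
        refine ⟨h⁻¹, -j, ?_⟩
        rw [(hc h j).eq, mul_inv_rev, zpow_neg]
        rfl }
  refine ⟨F₀, ?_, ?_, ?_⟩
  · have h1 : ((Subgroup.zpowers s : Subgroup G) : Set G).Finite :=
      finite_zpowers.2 (orderOf_pos_iff.1 hs0)
    have h2 : (Set.range fun h : P => ((h : Subgroup.centralizer ({s} : Set G)) : G)).Finite :=
      Set.finite_range _
    have h3 : ((F₀ : Subgroup G) : Set G).Finite := by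
      refine (Set.Finite.image2 (fun a b => a * b) h2 h1).subset ?_
      rintro g ⟨h, j, rfl⟩
      exact ⟨_, ⟨h, rfl⟩, s ^ j, ⟨j, rfl⟩, rfl⟩
    exact h3.to_subtype
  · intro h
    exact ⟨h, 0, by rw [zpow_zero, mul_one]⟩
  · refine ⟨1, 1, ?_⟩
    rw [zpow_one]
    exact (one_mul s).symm

/-- the products `h s^j` are different -/
theorem alc_inj {s : G} (hsp : (orderOf s).Coprime p)
    {P : Subgroup (Subgroup.centralizer ({s} : Set G))} (hP : IsPGroup p P) {h h' : P}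
    {j j' : ℕ} (hj : j < orderOf s) (hj' : j' < orderOf s)
    (he : ((h : Subgroup.centralizer ({s} : Set G)) : G) * s ^ j =
      ((h' : Subgroup.centralizer ({s} : Set G)) : G) * s ^ j') : h = h' ∧ j = j' := by
  have h1 : (((h'⁻¹ * h : P) : Subgroup.centralizer ({s} : Set G)) : G) =
      s ^ ((j' : ℤ) - j) := by
    have h2 : ((h : Subgroup.centralizer ({s} : Set G)) : G) =
        ((h' : Subgroup.centralizer ({s} : Set G)) : G) * s ^ j' * (s ^ j)⁻¹ := by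
      rw [← he, mul_inv_cancel_right]
    rw [Subgroup.coe_mul, Subgroup.coe_mul, h2, zpow_sub, zpow_natCast, zpow_natCast, mul_assoc,
      ← mul_assoc]
    have h3 : (((h'⁻¹ : P) : Subgroup.centralizer ({s} : Set G)) : G) *
        ((h' : Subgroup.centralizer ({s} : Set G)) : G) = 1 := inv_mul_cancel _
    rw [h3, one_mul]
  obtain ⟨a, ha⟩ := hP (h'⁻¹ * h)
  have h4 : (s ^ ((j' : ℤ) - j)) ^ p ^ a = 1 := by
    rw [← h1, ← Subgroup.coe_pow, ← Subgroup.coe_pow, ha]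
    rfl
  have h5 : (s ^ ((j' : ℤ) - j)) ^ orderOf s = 1 := by
    rw [← zpow_natCast, ← zpow_mul, mul_comm, zpow_mul, zpow_natCast, pow_orderOf_eq_one,
      one_zpow]
  have h6 : s ^ ((j' : ℤ) - j) = 1 := by
    rw [← orderOf_eq_one_iff]
    have h7 := Nat.dvd_gcd (orderOf_dvd_of_pow_eq_one h4) (orderOf_dvd_of_pow_eq_one h5)
    rw [Nat.Coprime.gcd_eq_one (hsp.symm.pow_left a)] at h7
    exact Nat.dvd_one.1 h7
  have h8 : h = h' := by
    rw [h6] at h1
    have h9 : h'⁻¹ * h = 1 := Subtype.ext (Subtype.ext h1)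
    exact (inv_mul_eq_one.1 h9).symm
  refine ⟨h8, ?_⟩
  rw [h8] at he
  have h10 := mul_left_cancel he
  rw [pow_inj_mod, Nat.mod_eq_of_lt hj, Nat.mod_eq_of_lt hj'] at h10
  exact h10

theorem exists_altcov (hp : p.Prime) (hs : IsSimpleGroup G) (hG : ¬ FinLin G)
    (hcof : ∀ S : Finset G, ∃ c : Cvr p G, c.Ge S)
    (hU : ∀ (m : ℕ) (S : Finset G), ∃ (c d : Cvr p G) (h : c.H ≤ d.H), c.Ge S ∧ Dg2 c d h m)
    {s : G} (hs0 : 0 < orderOf s) (hsp : (orderOf s).Coprime p)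
    (P : Subgroup (Subgroup.centralizer ({s} : Set G))) [Fintype P] [DecidableEq P]
    (hP : IsPGroup p P) (k : ℕ) :
    ∃ (L₁ : Subgroup (Subgroup.centralizer ({s} : Set G))) (_ : Finite L₁)
      (hn : ∀ h ∈ P, ∀ g ∈ L₁, h * g * h⁻¹ ∈ L₁) (π₁ : L₁ →* Perm (P × Fin k)),
      π₁.range = alternatingGroup (P × Fin k) ∧
      ∀ (h : P) (g : L₁), π₁ ⟨h * g * h⁻¹, hn h h.2 g g.2⟩ = tr h * π₁ g * (tr h)⁻¹ := by
  classical
  obtain ⟨F₀, hF₀, hPF₀, hsF₀⟩ := alc_F0 hs0 P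
  obtain ⟨F₁, hF₁, hle, hcard⟩ := big hG hcof F₀ (k * Nat.card F₀)
  obtain ⟨d, hd, w, hw⟩ := free_cov hp hs hG hU F₁
  obtain ⟨t, ht, htF⟩ := Aq.exists_reps_in hle hcard
  have hsH : s ∈ d.H := hd (hle hsF₀)
  obtain ⟨A, s', hA, hs', hcom⟩ := exists_plift hp d hsH P hP
    (fun h hh => hd (hle (hPF₀ ⟨h, hh⟩)))
  choose r hr using fun i => d.onto (t i) (hd (ht i))
  have hιm : ∀ q : P × Fin (orderOf s) × Fin k,
      ((q.1 : Subgroup.centralizer ({s} : Set G)) : G) * s ^ (q.2.1 : ℕ) * t q.2.2 ∈ F₁ :=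
    fun q => F₁.mul_mem (hle (F₀.mul_mem (hPF₀ _) (F₀.pow_mem hsF₀ _))) (ht _)
  let ι : P × Fin (orderOf s) × Fin k → F₁ := fun q =>
    ⟨((q.1 : Subgroup.centralizer ({s} : Set G)) : G) * s ^ (q.2.1 : ℕ) * t q.2.2, hιm q⟩
  have hι : Function.Injective ι := by
    rintro ⟨h, j, i⟩ ⟨h', j', i'⟩ hq
    have h1 : ((h : Subgroup.centralizer ({s} : Set G)) : G) * s ^ (j : ℕ) * t i =
        ((h' : Subgroup.centralizer ({s} : Set G)) : G) * s ^ (j' : ℕ) * t i' :=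
      congrArg Subtype.val hq
    have h2 : i = i' := by
      by_contra hne
      apply htF i i' hne
      have h3 : t i * (t i')⁻¹ =
          (((h : Subgroup.centralizer ({s} : Set G)) : G) * s ^ (j : ℕ))⁻¹ *
          (((h' : Subgroup.centralizer ({s} : Set G)) : G) * s ^ (j' : ℕ)) := by
        rw [mul_inv_eq_iff_eq_mul, mul_assoc, ← h1, inv_mul_cancel_left]
      rw [h3]
      exact F₀.mul_mem (F₀.inv_mem (F₀.mul_mem (hPF₀ _) (F₀.pow_mem hsF₀ _)))
        (F₀.mul_mem (hPF₀ _) (F₀.pow_mem hsF₀ _))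
    subst h2
    obtain ⟨h4, h5⟩ := alc_inj hsp hP j.2 j'.2 (mul_right_cancel h1)
    rw [h4, Fin.ext h5]
  choose lam₀ hlam₀ using fun g : F₁ => d.onto g (hd g.2)
  obtain ⟨lam, hlam1, hlam2⟩ : ∃ lam : F₁ → d.U,
      (∀ q, lam (ι q) = A q.1 * s' ^ (q.2.1 : ℕ) * r q.2.2) ∧
      ∀ g, (¬ ∃ q, ι q = g) → lam g = lam₀ g :=
    ⟨Function.extend ι (fun q => A q.1 * s' ^ (q.2.1 : ℕ) * r q.2.2) lam₀,
      fun q => hι.extend_apply _ _ q, fun g hg => Function.extend_apply' _ _ g hg⟩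
  have hlam : ∀ g : F₁, ((g : G), lam g) ∈ d.Gam := by
    intro g
    by_cases hg : ∃ q, ι q = g
    · obtain ⟨q, rfl⟩ := hg
      rw [hlam1]
      exact d.Gam.mul_mem (d.Gam.mul_mem (hA q.1) (d.Gam.pow_mem hs' _)) (hr _)
    · rw [hlam2 g hg]
      exact hlam₀ g
  have hli := (hw lam hlam).comp ι hι
  have hsn : ∃ e : d.F, (s' ^ orderOf s).val = e • (1 : d.V →ₗ[d.F] d.V) := by
    apply d.scal
    have h1 := d.Gam.pow_mem hs' (orderOf s)
    rw [Prod.pow_mk, pow_orderOf_eq_one] at h1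
    exact h1
  have hfun : (fun g : F₁ => (lam g).val w) ∘ ι = fun q : P × Fin (orderOf s) × Fin k =>
      ((A q.1).val * s'.val ^ (q.2.1 : ℕ)) ((r q.2.2).val w) := by
    funext q
    change (lam (ι q)).val w = _
    rw [hlam1, Units.val_mul, Units.val_mul, Units.val_pow_eq_pow_val, Module.End.mul_apply]
  rw [hfun] at hli
  obtain ⟨Q, hdet, hQs, hQA, hQ1⟩ := exists_perm hs0 A s' hcom hsn (fun i => (r i).val w) hli
  exact alc_core hp d hsp hsH P A s' hA hs' Q hdet hQs hQA hQ1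

private theorem pow_dvd_factorial_mul (q m : ℕ) (hq : 0 < q) : q ^ m ∣ (q * m).factorial := by
  induction m with
  | zero => exact one_dvd _
  | succ m ih =>
    rw [pow_succ, Nat.mul_succ]
    exact (Nat.mul_dvd_mul ih (Nat.dvd_factorial hq le_rfl)).trans
      (Nat.factorial_mul_factorial_dvd_factorial_add _ _)

private theorem pow_dvd_of_two_mul {q k a : ℕ} (hq : q.Prime) (h : q ^ (k + 2) ∣ 2 * a) :
    q ^ (k + 1) ∣ a := by
  rcases eq_or_ne q 2 with h2 | h2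
  · subst h2
    rw [pow_succ', Nat.mul_dvd_mul_iff_left two_pos] at h
    exact h
  · have hc : Nat.Coprime (q ^ (k + 2)) 2 :=
      Nat.Coprime.pow_left _ ((Nat.coprime_primes hq Nat.prime_two).2 h2)
    exact (pow_dvd_pow q (Nat.le_succ _)).trans (hc.dvd_of_dvd_mul_left h)

theorem exists_large_in {C : Type} [Group C] (hp : p.Prime)
    (h : ∀ (P : Subgroup C) (_ : Fintype P) (_ : DecidableEq P), IsPGroup p P → ∀ k : ℕ,
      ∃ (L₁ : Subgroup C) (_ : Finite L₁) (_ : ∀ h ∈ P, ∀ g ∈ L₁, h * g * h⁻¹ ∈ L₁)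
        (π₁ : L₁ →* Perm (P × Fin k)), π₁.range = alternatingGroup (P × Fin k))
    (D : Subgroup C) (hD : Finite D) (hDp : IsPGroup p D) (k : ℕ) :
    ∃ F : Subgroup C, Finite F ∧ IsPGroup p F ∧ D ≤ F ∧ k ≤ Nat.card F := by
  classical
  have : Fact p.Prime := ⟨hp⟩
  let _ : Fintype D := Fintype.ofFinite D
  obtain ⟨L₁, hL₁, hn, π₁, hπ⟩ := h D inferInstance inferInstance hDp (p * (k + 2))
  -- the product
  let H : Subgroup C :=
    { carrier := {g | ∃ l ∈ L₁, ∃ x ∈ D, g = l * x}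
      one_mem' := ⟨1, L₁.one_mem, 1, D.one_mem, (one_mul 1).symm⟩
      mul_mem' := by
        rintro a b ⟨l, hl, x, hx, rfl⟩ ⟨l', hl', x', hx', rfl⟩
        exact ⟨l * (x * l' * x⁻¹), L₁.mul_mem hl (hn x hx l' hl'), x * x', D.mul_mem hx hx',
          by group⟩
      inv_mem' := by
        rintro a ⟨l, hl, x, hx, rfl⟩
        refine ⟨x⁻¹ * l⁻¹ * (x⁻¹)⁻¹, hn _ (D.inv_mem hx) _ (L₁.inv_mem hl), x⁻¹, D.inv_mem hx,
          by group⟩ }
  have hfin : ((H : Subgroup C) : Set C).Finite := by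
    have h1 : ((L₁ : Subgroup C) : Set C).Finite := Set.finite_coe_iff.1 hL₁
    have h2 : ((D : Subgroup C) : Set C).Finite := Set.finite_coe_iff.1 hD
    refine (Set.Finite.image2 (fun a b => a * b) h1 h2).subset ?_
    rintro g ⟨l, hl, x, hx, rfl⟩
    exact ⟨l, hl, x, hx, rfl⟩
  have hHfin : Finite H := hfin.to_subtype
  have hDH : D ≤ H := fun x hx => ⟨1, L₁.one_mem, x, hx, (one_mul x).symm⟩
  have hLH : L₁ ≤ H := fun l hl => ⟨l, hl, 1, D.one_mem, (mul_one l).symm⟩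
  have hdvd : p ^ (k + 1) ∣ Nat.card H := by
    have h1 : Nat.card (alternatingGroup (D × Fin (p * (k + 2)))) ∣ Nat.card L₁ := by
      rw [← hπ]
      exact Subgroup.card_range_dvd π₁
    refine (pow_dvd_of_two_mul hp ?_).trans (h1.trans (Subgroup.card_dvd_of_le hLH))
    have h3 : p * (k + 2) ≤ Nat.card (D × Fin (p * (k + 2))) := by
      rw [Nat.card_prod, Nat.card_eq_fintype_card (α := Fin (p * (k + 2))), Fintype.card_fin]
      exact Nat.le_mul_of_pos_left _ Nat.card_pos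
    have h2 : 2 ≤ Nat.card (D × Fin (p * (k + 2))) := by
      have h4 := hp.two_le
      nlinarith
    have : Nontrivial (D × Fin (p * (k + 2))) := by
      rw [← Finite.one_lt_card_iff_nontrivial]
      exact h2
    rw [two_mul_nat_card_alternatingGroup, Nat.card_perm]
    exact (pow_dvd_factorial_mul p (k + 2) hp.pos).trans (Nat.factorial_dvd_factorial h3)
  have hDp' : IsPGroup p (D.subgroupOf H) :=
    hDp.of_equiv (Subgroup.subgroupOfEquivOfLe hDH).symm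
  obtain ⟨Q, hQ⟩ := hDp'.exists_le_sylow
  refine ⟨(Q : Subgroup H).map H.subtype, ?_, Q.isPGroup'.map _, ?_, ?_⟩
  · have h1 : ((((Q : Subgroup H).map H.subtype : Subgroup C)) : Set C).Finite :=
      hfin.subset (fun g hg => by
        obtain ⟨x, -, rfl⟩ := hg
        exact x.2)
    exact h1.to_subtype
  · intro g hg
    exact ⟨⟨g, hDH hg⟩, hQ (Subgroup.mem_subgroupOf.2 hg), rfl⟩
  · rw [Subgroup.card_map_of_injective H.subtype_injective]
    have h1 : p ^ (k + 1) ≤ Nat.card Q :=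
      Nat.le_of_dvd Nat.card_pos (Q.pow_dvd_card_of_pow_dvd_card hdvd)
    have h2 : k + 1 < p ^ (k + 1) := Nat.lt_pow_self hp.one_lt
    omega

end Pool.Agent.Lib.MP_b9166b_al.Pt
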