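import Pool.Agent.Lib.MP_b9166b_al.Pt.Lay

/-!
# MP_b9166b_al, PT: blocks

`DB e d` : `d i (e j) = δ`. The block group `ℓ.blk e d` is generated by all root lifts of the `(e i, c • d j)`, `i ≠ j` (it contains `T`).

`blk_comm`: for disjoint blocks (`d i (e' j) = 0 = d' i (e j)`) the generators commute modulo the normal subgroup `T` (`Rt.comm`).
`blk_perf` (size `s ≥ 3`): a root lift of `(e i, c • d j)` is, modulo `T`, the commutator of root lifts of `(e i, c • d k)`,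
`(e k, d j)`, `k ≠ i, j` (`Rt.brk`, `Rt.unique`); `T` itself is in the second term.
`blk_gen`: modulo `T` the group is generated by the conjugates of one root lift `x` of `(e i₀, d j₀)`, `i₀ ≠ j₀`: the normal closure
contains `(e i₀, c • d k)` for `k ≠ i₀, j₀` (commutator with `(e j₀, c • d k)`), then `(e i, c • d k)` for all `i ≠ k`, `i ≠ i₀`
(commutator of `(e i, c • d i₀)` and `(e i₀, d k)`), and so on: all.
-/


set_option autoImplicit false

namespace Pool.Agent.Lib.MP_b9166b_al.Pt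

open Module
open scoped commutatorElement

/-- dual families -/
def DB {F V : Type} [Field F] [AddCommGroup V] [Module F V] {s : ℕ} (e : Fin s → V)
    (d : Fin s → Dual F V) : Prop := ∀ i j, d i (e j) = if i = j then 1 else 0

theorem DB.self {F V : Type} [Field F] [AddCommGroup V] [Module F V] {s : ℕ} {e : Fin s → V}
    {d : Fin s → Dual F V} (h : DB e d) (i : Fin s) : d i (e i) = 1 := by
  rw [h, if_pos rfl]

theorem DB.ne {F V : Type} [Field F] [AddCommGroup V] [Module F V] {s : ℕ} {e : Fin s → V}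
    {d : Fin s → Dual F V} (h : DB e d) {i j : Fin s} (hij : i ≠ j) : d i (e j) = 0 := by
  rw [h, if_neg hij]

/-- a third index -/
theorem blk_third {s : ℕ} (hs : 3 ≤ s) (i j : Fin s) : ∃ k, k ≠ i ∧ k ≠ j := by
  by_contra hcon
  push Not at hcon
  have h1 : (Finset.univ : Finset (Fin s)) ⊆ {i, j} := by
    intro k _
    rw [Finset.mem_insert, Finset.mem_singleton]
    by_cases h : k = i
    · exact Or.inl h
    · exact Or.inr (hcon k h)
  have h2 := Finset.card_le_card h1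
  rw [Finset.card_univ, Fintype.card_fin] at h2
  have h3 : ({i, j} : Finset (Fin s)).card ≤ 2 := Finset.card_le_two
  omega

namespace Lay

variable {p : ℕ} {Γ F V K W : Type} [Group Γ] [Field F] [AddCommGroup V] [Module F V] [Field K]
  [AddCommGroup W] [Module K W]

/-- the block group -/
def blk (ℓ : Lay p Γ F V) {s : ℕ} (e : Fin s → V) (d : Fin s → Dual F V) : Subgroup Γ :=
  Subgroup.closure {g | ∃ i j, i ≠ j ∧ ∃ c : F, ℓ.Rt (e i) (c • d j) g}

theorem mem_blk_of (ℓ : Lay p Γ F V) {s : ℕ} {e : Fin s → V} {d : Fin s → Dual F V} {i j : Fin s}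
    (hij : i ≠ j) {c : F} {g : Γ} (h : ℓ.Rt (e i) (c • d j) g) : g ∈ ℓ.blk e d :=
  Subgroup.subset_closure ⟨i, j, hij, c, h⟩

theorem mem_blk_of_one (ℓ : Lay p Γ F V) {s : ℕ} {e : Fin s → V} {d : Fin s → Dual F V}
    {i j : Fin s} (hij : i ≠ j) {g : Γ} (h : ℓ.Rt (e i) (d j) g) : g ∈ ℓ.blk e d := by
  refine ℓ.mem_blk_of hij (c := 1) ?_
  rwa [one_smul]

variable (ℓ : Lay p Γ F V) [Finite Γ] (hp : p.Prime) [CharP F p] [FiniteDimensional F V]

include hp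

theorem T_le_blk {s : ℕ} (hs : 2 ≤ s) {e : Fin s → V} {d : Fin s → Dual F V} (h : DB e d) :
    ℓ.T ≤ ℓ.blk e d := by
  intro t ht
  have hij : (⟨0, by omega⟩ : Fin s) ≠ ⟨1, by omega⟩ := by
    intro h1
    have h2 := congrArg Fin.val h1
    simp at h2
  obtain ⟨g, hg⟩ := Rt.exists ℓ hp (v := e ⟨0, by omega⟩) (f := d ⟨1, by omega⟩)
    (h.ne (Ne.symm hij))
  have h1 := ℓ.mem_blk_of_one hij hg
  have h2 := ℓ.mem_blk_of_one hij (Rt.mul_T ℓ hp hg ht)
  have h3 : t = g⁻¹ * (g * t) := by rw [inv_mul_cancel_left]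
  rw [h3]
  exact mul_mem (inv_mem h1) h2

theorem blk_comm {s s' : ℕ} {e : Fin s → V} {d : Fin s → Dual F V} {e' : Fin s' → V}
    {d' : Fin s' → Dual F V} (h1 : ∀ i j, d i (e' j) = 0) (h2 : ∀ i j, d' i (e j) = 0) {g g' : Γ}
    (hg : g ∈ ℓ.blk e d) (hg' : g' ∈ ℓ.blk e' d') : ⁅g, g'⁆ ∈ ℓ.T := by
  have hTn : ℓ.T.Normal := ℓ.T_normal hp
  have key : ∀ x y : Γ, ⁅x, y⁆ ∈ ℓ.T ↔
      (QuotientGroup.mk' ℓ.T) x * (QuotientGroup.mk' ℓ.T) y =
        (QuotientGroup.mk' ℓ.T) y * (QuotientGroup.mk' ℓ.T) x := by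
    intro x y
    rw [← commutatorElement_eq_one_iff_mul_comm, ← map_commutatorElement]
    exact (QuotientGroup.eq_one_iff _).symm
  rw [key]
  have step1 : ∀ y, (∃ i j, i ≠ j ∧ ∃ c : F, ℓ.Rt (e' i) (c • d' j) y) →
      ∀ x ∈ ℓ.blk e d, (QuotientGroup.mk' ℓ.T) x * (QuotientGroup.mk' ℓ.T) y =
        (QuotientGroup.mk' ℓ.T) y * (QuotientGroup.mk' ℓ.T) x := by
    rintro y ⟨i', j', hij', c', hy⟩ x hx
    have h3 : ℓ.blk e d ≤ (Subgroup.centralizer {(QuotientGroup.mk' ℓ.T) y}).comap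
        (QuotientGroup.mk' ℓ.T) := by
      refine (Subgroup.closure_le _).2 ?_
      rintro z ⟨i, j, hij, c, hz⟩
      show (QuotientGroup.mk' ℓ.T) z ∈ Subgroup.centralizer {(QuotientGroup.mk' ℓ.T) y}
      rw [Subgroup.mem_centralizer_singleton_iff]
      rw [← key]
      refine Rt.comm ℓ hp hz hy ?_ ?_
      · rw [LinearMap.smul_apply, h1, smul_zero]
      · rw [LinearMap.smul_apply, h2, smul_zero]
    have h4 := h3 hx
    rw [Subgroup.mem_comap, Subgroup.mem_centralizer_singleton_iff] at h4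
    exact h4
  have h5 : ℓ.blk e' d' ≤ (Subgroup.centralizer {(QuotientGroup.mk' ℓ.T) g}).comap
      (QuotientGroup.mk' ℓ.T) := by
    refine (Subgroup.closure_le _).2 ?_
    intro z hz
    show (QuotientGroup.mk' ℓ.T) z ∈ Subgroup.centralizer {(QuotientGroup.mk' ℓ.T) g}
    rw [Subgroup.mem_centralizer_singleton_iff]
    exact (step1 z hz g hg).symm
  have h6 := h5 hg'
  rw [Subgroup.mem_comap, Subgroup.mem_centralizer_singleton_iff] at h6
  exact h6.symm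

/-- a root lift is a commutator of two others times an element of `T` -/
theorem blk_brk {s : ℕ} {e : Fin s → V} {d : Fin s → Dual F V} (h : DB e d) {i j k : Fin s}
    (hij : i ≠ j) (hki : k ≠ i) (hkj : k ≠ j) {c c' c'' : F} (hcc : c * c' = c'') {x y g : Γ}
    (hx : ℓ.Rt (e i) (c • d k) x) (hy : ℓ.Rt (e k) (c' • d j) y)
    (hg : ℓ.Rt (e i) (c'' • d j) g) : ∃ t ∈ ℓ.T, g = ⁅x, y⁆ * t := by
  have h1 := Rt.brk ℓ hp hx hy (by rw [LinearMap.smul_apply, h.ne hki, smul_zero])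
    (by rw [LinearMap.smul_apply, h.ne (Ne.symm hkj), smul_zero])
    (by rw [LinearMap.smul_apply, h.ne (Ne.symm hij), smul_zero])
  have h2 : (c • d k) (e k) • c' • d j = c'' • d j := by
    rw [LinearMap.smul_apply, h.self, smul_eq_mul, mul_one, smul_smul, hcc]
  rw [h2] at h1
  exact ⟨⁅x, y⁆⁻¹ * g, Rt.unique ℓ hp h1 hg, by rw [mul_inv_cancel_left]⟩

theorem blk_exists {s : ℕ} {e : Fin s → V} {d : Fin s → Dual F V} (h : DB e d) {i j : Fin s}
    (hij : i ≠ j) (c : F) : ∃ g, ℓ.Rt (e i) (c • d j) g :=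
  Rt.exists ℓ hp (by rw [LinearMap.smul_apply, h.ne (Ne.symm hij), smul_zero])

theorem blk_perf {s : ℕ} (hs : 3 ≤ s) {e : Fin s → V} {d : Fin s → Dual F V} (h : DB e d) :
    ℓ.blk e d ≤ ⁅ℓ.blk e d, ℓ.blk e d⁆ ⊔ ℓ.T := by
  refine (Subgroup.closure_le _).2 ?_
  rintro g ⟨i, j, hij, c, hg⟩
  obtain ⟨k, hki, hkj⟩ := blk_third hs i j
  obtain ⟨x, hx⟩ := ℓ.blk_exists hp h (Ne.symm hki) c
  obtain ⟨y, hy⟩ := ℓ.blk_exists hp h hkj 1
  obtain ⟨t, ht, hgt⟩ := ℓ.blk_brk hp h hij hki hkj (mul_one c) hx hy hg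
  rw [hgt]
  exact mul_mem (Subgroup.mem_sup_left (Subgroup.commutator_mem_commutator
    (ℓ.mem_blk_of (Ne.symm hki) hx) (ℓ.mem_blk_of hkj hy))) (Subgroup.mem_sup_right ht)

theorem blk_gen {s : ℕ} (hs : 3 ≤ s) {e : Fin s → V} {d : Fin s → Dual F V} (h : DB e d)
    {i j : Fin s} (hij : i ≠ j) {x : Γ} (hx : ℓ.Rt (e i) (d j) x) :
    ℓ.blk e d ≤ Subgroup.closure {y | ∃ g ∈ ℓ.blk e d, y = g * x * g⁻¹} ⊔ ℓ.T := by
  have hTn : ℓ.T.Normal := ℓ.T_normal hp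
  obtain ⟨N, hN⟩ : ∃ N : Subgroup Γ,
      N = Subgroup.closure {y | ∃ g ∈ ℓ.blk e d, y = g * x * g⁻¹} ⊔ ℓ.T := ⟨_, rfl⟩
  rw [← hN]
  -- `N` is normalised by the block group
  have hnorm : ∀ g ∈ ℓ.blk e d, ∀ y ∈ N, g * y * g⁻¹ ∈ N := by
    intro g hg
    have h1 : N ≤ N.comap (MulAut.conj g).toMonoidHom := by
      conv_lhs => rw [hN]
      refine sup_le ((Subgroup.closure_le _).2 ?_) ?_
      · rintro y ⟨g', hg', rfl⟩
        show g * (g' * x * g'⁻¹) * g⁻¹ ∈ N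
        rw [hN]
        refine Subgroup.mem_sup_left (Subgroup.subset_closure ⟨g * g', mul_mem hg hg', ?_⟩)
        group
      · intro t ht
        show g * t * g⁻¹ ∈ N
        rw [hN]
        exact Subgroup.mem_sup_right (hTn.conj_mem t ht g)
    intro y hy
    exact h1 hy
  have hcl : ∀ g ∈ ℓ.blk e d, ∀ y ∈ N, ⁅g, y⁆ ∈ N := by
    intro g hg y hy
    rw [commutatorElement_def]
    exact mul_mem (hnorm g hg y hy) (inv_mem hy)
  have hcr : ∀ g ∈ ℓ.blk e d, ∀ y ∈ N, ⁅y, g⁆ ∈ N := by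
    intro g hg y hy
    rw [← commutatorElement_inv]
    exact inv_mem (hcl g hg y hy)
  have hTN : ∀ t ∈ ℓ.T, t ∈ N := by
    intro t ht
    rw [hN]
    exact Subgroup.mem_sup_right ht
  have hxN : x ∈ N := by
    rw [hN]
    exact Subgroup.mem_sup_left (Subgroup.subset_closure ⟨1, one_mem _, by group⟩)
  -- Lemma A
  have hA : ∀ a b b' : Fin s, a ≠ b → a ≠ b' → b ≠ b' →
      (∃ z ∈ N, ℓ.Rt (e a) ((1 : F) • d b) z) →
      ∀ (c : F) (g : Γ), ℓ.Rt (e a) (c • d b') g → g ∈ N := by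
    rintro a b b' hab hab' hbb' ⟨z, hzN, hz⟩ c g hg
    obtain ⟨y, hy⟩ := ℓ.blk_exists hp h hbb' c
    obtain ⟨t, ht, hgt⟩ := ℓ.blk_brk hp h hab' (Ne.symm hab) hbb' (one_mul c) hz hy hg
    rw [hgt]
    exact mul_mem (hcr y (ℓ.mem_blk_of hbb' hy) z hzN) (hTN t ht)
  -- Lemma B
  have hB : ∀ a a' b : Fin s, a ≠ b → a' ≠ b → a' ≠ a →
      (∃ z ∈ N, ℓ.Rt (e a) ((1 : F) • d b) z) →
      ∀ (c : F) (g : Γ), ℓ.Rt (e a') (c • d b) g → g ∈ N := by
    rintro a a' b hab hab' haa' ⟨z, hzN, hz⟩ c g hg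
    obtain ⟨y, hy⟩ := ℓ.blk_exists hp h haa' c
    obtain ⟨t, ht, hgt⟩ := ℓ.blk_brk hp h hab' (Ne.symm haa') hab (mul_one c) hy hz hg
    rw [hgt]
    exact mul_mem (hcl y (ℓ.mem_blk_of haa' hy) z hzN) (hTN t ht)
  have hex : ∀ a b : Fin s, a ≠ b →
      (∀ (c : F) (g : Γ), ℓ.Rt (e a) (c • d b) g → g ∈ N) →
      ∃ z ∈ N, ℓ.Rt (e a) ((1 : F) • d b) z := by
    intro a b hab hQ
    obtain ⟨z, hz⟩ := ℓ.blk_exists hp h hab 1
    exact ⟨z, hQ 1 z hz, hz⟩
  -- the row `i`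
  have hrow : ∀ k : Fin s, i ≠ k → ∀ (c : F) (g : Γ), ℓ.Rt (e i) (c • d k) g → g ∈ N := by
    obtain ⟨k, hki, hkj⟩ := blk_third hs i j
    have h1 := hA i j k hij (Ne.symm hki) (Ne.symm hkj) ⟨x, hxN, by rwa [one_smul]⟩
    intro k' hk'
    by_cases hkk : k = k'
    · rw [← hkk]
      exact h1
    · exact hA i k k' (Ne.symm hki) hk' hkk (hex i k (Ne.symm hki) h1)
  have hall : ∀ a b : Fin s, a ≠ b → ∀ (c : F) (g : Γ), ℓ.Rt (e a) (c • d b) g → g ∈ N := by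
    intro a b hab
    by_cases hai : a = i
    · rw [hai] at hab ⊢
      exact hrow b hab
    · by_cases hbi : b = i
      · obtain ⟨k, hka, hki⟩ := blk_third hs a i
        have h1 := hB i a k (Ne.symm hki) (Ne.symm hka) hai
          (hex i k (Ne.symm hki) (hrow k (Ne.symm hki)))
        rw [hbi] at hab ⊢
        exact hA a k i (Ne.symm hka) hab hki (hex a k (Ne.symm hka) h1)
      · exact hB i a b (Ne.symm hbi) hab hai (hex i b (Ne.symm hbi) (hrow b (Ne.symm hbi)))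
  refine (Subgroup.closure_le _).2 ?_
  rintro g ⟨a, b, hab, c, hg⟩
  exact hall a b hab c g hg

end Lay

end Pool.Agent.Lib.MP_b9166b_al.Pt
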