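import Pool.Agent.Lib.MP_b9166b_al.Pt.Cvr
import Pool.Agent.Lib.MP_b9166b_al.Ks2.LinMainA
import Pool.Agent.Lib.MP_b9166b_al.Ks2.Perfect

/-!
# MP_b9166b_al, PT: large ranks (0.2)

`lcov`: a cover gives an `LCov` for `x = 1` (`a h` = some `u` with `(h, u) ∈ Gam` for `h ∈ H`, `1` outside; `mul`: two lifts differ by
a scalar (`scal`); `lift`: `det u = 1` for `u` in a perfect group (`det_eq_one_of_perfect`), `surj`, `le`, `mem`).
`finLin_of_family`: the proof of `Ks2.finLin_of_unbounded` (it uses only the chosen family `c0`, for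
which the bound for `y` holds).
`rank_large`: otherwise for every `S` there are `c`, `u`, `e` with `Ge S`, `(s, u) ∈ Gam`, rank `≤ N`. If for some `B` for all `S` there is such
a `c` with `finrank V ≤ B`, then `finLin_of_bounded` (`x = 1`). Otherwise for every `B` there is `S_B` such that `finrank V > B` for all such `c`
with `Ge S_B`; use `finLin_of_family`, `y = s`, for `(S, B)` take a `c` for `S ∪ S_{max B N}`; `e ≠ 0` as `N < finrank V`, multiply by `e⁻¹`.
`dim_large`: `c.onto` and `rank ≤ finrank`, with any `s ≠ 1`. `big`: `G` is infinite (a finite group is `FinLin`: `finLin_of_finRep` with the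
regular representation), choose elements, and take `c.H`.
-/

set_option autoImplicit false

namespace Pool.Agent.Lib.MP_b9166b_al.Pt

open Module Ks2
open scoped commutatorElement

variable {p : ℕ} {G : Type} [Group G]

/-- two lifts of the same element differ by a scalar -/
theorem lcPr_of_mem (c : Cvr p G) {h : G} {u v : c.U} (hu : (h, u) ∈ c.Gam)
    (hv : (h, v) ∈ c.Gam) : ∃ t : c.F, t ≠ 0 ∧ u.val = t • v.val := by
  have h1 : ((1 : G), u * v⁻¹) ∈ c.Gam := by
    have h2 := c.Gam.mul_mem hu (c.Gam.inv_mem hv)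
    have h3 : (h, u) * (h, v)⁻¹ = ((1 : G), u * v⁻¹) := by
      rw [Prod.inv_mk, Prod.mk_mul_mk, mul_inv_cancel]
    rwa [h3] at h2
  obtain ⟨e, he⟩ := c.scal _ h1
  have h4 : u.val = e • v.val := by
    have h5 : (u * v⁻¹).val * v.val = (e • (1 : c.V →ₗ[c.F] c.V)) * v.val := by rw [he]
    rwa [← Units.val_mul, inv_mul_cancel_right, smul_mul_assoc, one_mul] at h5
  by_cases h0 : e = 0
  · refine ⟨1, one_ne_zero, ?_⟩
    rw [h0, zero_smul] at h4
    have h6 : (1 : c.V →ₗ[c.F] c.V) = 0 := by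
      rw [← u.inv_mul, h4, mul_zero]
    have h7 : ∀ f : c.V →ₗ[c.F] c.V, f = 0 := fun f => by
      rw [← mul_one f, h6, mul_zero]
    rw [h7 u.val, h7 v.val, smul_zero]
  · exact ⟨e, h0, h4⟩

theorem range_smul_le {F V : Type} [Field F] [AddCommGroup V] [Module F V] (e : F)
    (f : V →ₗ[F] V) : LinearMap.range (e • f) ≤ LinearMap.range f := by
  rintro _ ⟨v, rfl⟩
  exact ⟨e • v, by rw [map_smul, LinearMap.smul_apply]⟩

theorem lcov (c : Cvr p G) {S : Finset G} (h : c.Ge S) {s : G} (hs : s ∈ c.H) {u : c.U}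
    (hu : (s, u) ∈ c.Gam) : ∃ d : LCov (1 : G) S, finrank d.F d.V = finrank c.F c.V ∧
      ∀ (e : c.F) (N : ℕ), e ≠ 0 →
        finrank c.F (LinearMap.range (u.val - e • (1 : c.V →ₗ[c.F] c.V))) ≤ N →
        ∃ e' : d.F, e' ≠ 0 ∧ finrank d.F (LinearMap.range (e' • (d.a s).val - 1)) ≤ N := by
  classical
  have ha : ∀ g : G, ∃ v : c.U, g ∈ c.H → (g, v) ∈ c.Gam := by
    intro g
    by_cases hg : g ∈ c.H
    · obtain ⟨v, hv⟩ := c.onto g hg
      exact ⟨v, fun _ => hv⟩
    · exact ⟨1, fun h' => absurd h' hg⟩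
  choose a ha using ha
  have hmul : ∀ g ∈ c.H, ∀ k ∈ c.H, ∃ t : c.F, t ≠ 0 ∧
      (a (g * k)).val = t • ((a g).val * (a k).val) := by
    intro g hg k hk
    have h1 : (g * k, a g * a k) ∈ c.Gam := c.Gam.mul_mem (ha g hg) (ha k hk)
    exact lcPr_of_mem c (ha (g * k) (c.H.mul_mem hg hk)) h1
  have hsep : ∀ s ∈ S, s ≠ 1 → ∀ t : c.F, (a s).val ≠ t • 1 := fun s hs hs1 t =>
    (h s hs).2 hs1 (a s) (ha s (h s hs).1) t
  have hlift : ∀ D : Subgroup (c.V →ₗ[c.F] c.V)ˣ, ⁅D, D⁆ = D → (∀ u ∈ D, Commute u (a 1)) →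
      ∀ u ∈ D, ∃ h ∈ c.H, Commute h 1 ∧ ∃ t : c.F, t ≠ 0 ∧ (a h).val = t • u.val := by
    intro D hD _ v hv
    obtain ⟨k, hk⟩ := c.surj v (det_eq_one_of_perfect hD hv)
    have hkH : k ∈ c.H := c.mem _ (c.le hk)
    exact ⟨k, hkH, Commute.one_right _, lcPr_of_mem c (ha k hkH) (c.le hk)⟩
  refine ⟨⟨c.H, c.fin, c.H.one_mem, fun s hs => (h s hs).1, c.F, c.fld, c.finF, c.V, c.grp, c.mod,
    c.fd, a, hmul, hsep, hlift⟩, rfl, ?_⟩
  intro e N he hN
  obtain ⟨t, ht, h2⟩ := lcPr_of_mem c (ha s hs) hu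
  have h3 : (e⁻¹ * t⁻¹ : c.F) • (a s).val - 1 = e⁻¹ • (u.val - e • (1 : c.V →ₗ[c.F] c.V)) := by
    rw [h2, smul_smul, mul_assoc, inv_mul_cancel₀ ht, mul_one, smul_sub, smul_smul,
      inv_mul_cancel₀ he, one_smul]
  have h4 : finrank c.F (LinearMap.range ((e⁻¹ * t⁻¹ : c.F) • (a s).val - 1)) ≤ N := by
    rw [h3]
    exact (Submodule.finrank_mono (range_smul_le _ _)).trans hN
  exact ⟨e⁻¹ * t⁻¹, mul_ne_zero (inv_ne_zero he) (inv_ne_zero ht), h4⟩

open Filter in
theorem finLin_of_family (hs : IsSimpleGroup G) {x y : G} (hy : y ≠ 1) (B : ℕ)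
    (h : ∀ (S : Finset G) (N : ℕ), ∃ c : LCov x S, N ≤ Module.finrank c.F c.V ∧
      ∃ e : c.F, e ≠ 0 ∧ Module.finrank c.F (LinearMap.range (e • (c.a y).val - 1)) ≤ B) :
    FinLin G := by
  classical
  choose c0 hc0 using h
  set c : ∀ i : Finset G × ℕ, LCov x i.1 := fun i => c0 i.1 i.2 with hcdef
  have hc : ∀ i : Finset G × ℕ, i.2 ≤ Module.finrank (c i).F (c i).V := fun i => (hc0 i.1 i.2).1
  -- elements are eventually in H
  have hmem : ∀ g : G, ∀ᶠ i : Finset G × ℕ in atTop, g ∈ i.1 := by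
    intro g
    filter_upwards [eventually_ge_atTop (({g}, 0) : Finset G × ℕ)] with i hi
    exact hi.1 (by simp)
  have hdim : ∀ B : ℕ, ∀ᶠ i : Finset G × ℕ in atTop, B ≤ Module.finrank (c i).F (c i).V := by
    intro B
    filter_upwards [eventually_ge_atTop ((∅, B) : Finset G × ℕ)] with i hi
    exact hi.2.trans (hc i)
  -- the bounded elements
  set N : Subgroup G :=
    { carrier := {g | ∃ B : ℕ, ∀ᶠ i : Finset G × ℕ in atTop,
        ∃ e : (c i).F, e ≠ 0 ∧ Deg (e • ((c i).a g).val) B}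
      one_mem' := by
        refine ⟨0, Eventually.of_forall fun i => ?_⟩
        obtain ⟨e, he, h1⟩ := (c i).a_one
        refine ⟨e⁻¹, inv_ne_zero he, ?_⟩
        rw [h1, smul_smul, inv_mul_cancel₀ he, one_smul, deg_iff, sub_self, LinearMap.range_zero,
          finrank_bot]
      mul_mem' := by
        rintro g h ⟨B, hB⟩ ⟨B', hB'⟩
        refine ⟨B + B', ?_⟩
        filter_upwards [hB, hB', hmem g, hmem h] with i hi hi' hg hh
        obtain ⟨e, he, h1⟩ := hi
        obtain ⟨e', he', h2⟩ := hi'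
        obtain ⟨t, ht, h3⟩ := (c i).mul g ((c i).hS g hg) h ((c i).hS h hh)
        refine ⟨e * e' * t⁻¹, by positivity, ?_⟩
        have h4 : (e * e' * t⁻¹) • ((c i).a (g * h)).val =
            (e • ((c i).a g).val) * (e' • ((c i).a h).val) := by
          rw [h3, smul_smul, mul_assoc (e * e'), inv_mul_cancel₀ ht, mul_one, smul_mul_smul_comm]
        rw [h4]
        exact h1.mul h2
      inv_mem' := by
        rintro g ⟨B, hB⟩
        refine ⟨B, ?_⟩
        filter_upwards [hB, hmem g] with i hi hg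
        obtain ⟨e, he, h1⟩ := hi
        obtain ⟨t, ht, h2⟩ := (c i).a_inv ((c i).hS g hg)
        refine ⟨e⁻¹ * t⁻¹, by positivity, ?_⟩
        have h3 : (e⁻¹ * t⁻¹) • ((c i).a g⁻¹).val = ((sunit e he ((c i).a g))⁻¹).val := by
          rw [h2, smul_smul, mul_assoc, inv_mul_cancel₀ ht, mul_one, sunit_inv_val]
        rw [h3]
        exact Deg.inv (f := sunit e he ((c i).a g)) h1 } with hN
  have hNn : N.Normal := by
    constructor
    rintro g ⟨B, hB⟩ h
    refine ⟨B, ?_⟩
    filter_upwards [hB, hmem g, hmem h] with i hi hg hh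
    obtain ⟨e, he, h1⟩ := hi
    have hgH := (c i).hS g hg
    have hhH := (c i).hS h hh
    obtain ⟨t, ht, h2⟩ := (c i).mul h hhH g hgH
    obtain ⟨t', ht', h3⟩ := (c i).mul (h * g) (mul_mem hhH hgH) h⁻¹ (inv_mem hhH)
    obtain ⟨t'', ht'', h4⟩ := (c i).a_inv hhH
    refine ⟨e * (t' * (t * t''))⁻¹, by positivity, ?_⟩
    have h5 : (e * (t' * (t * t''))⁻¹) • ((c i).a (h * g * h⁻¹)).val =
        ((c i).a h).val * (e • ((c i).a g).val) * (((c i).a h)⁻¹).val := by
      have h6 : e * (t' * (t * t''))⁻¹ * t' * (t * t'') = e := by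
        rw [mul_assoc _ t']
        exact inv_mul_cancel_right₀ (by positivity) e
      rw [h3, h2, h4, smul_mul_smul_comm, smul_smul, smul_smul, h6, mul_smul_comm,
        smul_mul_assoc]
    rw [h5]
    exact h1.conj _
  have hyN : y ∈ N := by
    refine ⟨B, Eventually.of_forall fun i => ?_⟩
    obtain ⟨e, he, h1⟩ := (hc0 i.1 i.2).2
    exact ⟨e, he, (deg_iff _ _).2 h1⟩
  have hNtop : N = ⊤ := by
    rcases hNn.eq_bot_or_eq_top with h1 | h1
    · rw [h1, Subgroup.mem_bot] at hyN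
      exact absurd hyN hy
    · exact h1
  have hall : ∀ g : G, ∃ B : ℕ, ∀ᶠ i : Finset G × ℕ in atTop,
      ∃ e : (c i).F, e ≠ 0 ∧ Deg (e • ((c i).a g).val) B := by
    intro g
    have : g ∈ N := by rw [hNtop]; trivial
    exact this
  choose B hB using hall
  set a : ∀ i : Finset G × ℕ, G → ((c i).V →ₗ[(c i).F] (c i).V)ˣ := fun i g =>
    if h : ∃ e : (c i).F, e ≠ 0 ∧ Deg (e • ((c i).a g).val) (B g) then
      sunit h.choose h.choose_spec.1 ((c i).a g) else 1 with ha
  have ha1 : ∀ g, ∀ᶠ i : Finset G × ℕ in atTop, ∃ e : (c i).F, e ≠ 0 ∧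
      (a i g).val = e • ((c i).a g).val ∧ Deg (a i g).val (B g) := by
    intro g
    filter_upwards [hB g] with i hi
    refine ⟨hi.choose, hi.choose_spec.1, ?_, ?_⟩
    · rw [ha]
      simp only
      rw [dif_pos hi, sunit_val]
    · rw [ha]
      simp only
      rw [dif_pos hi, sunit_val]
      exact hi.choose_spec.2
  refine Ks.finLin_of_linear_family (I := Finset G × ℕ) atTop (fun i => (c i).F)
    (fun i => (c i).V) a ?_ ?_ ?_
  · intro g h
    filter_upwards [ha1 g, ha1 h, ha1 (g * h), hmem g, hmem h, hdim (B g + B h + B (g * h) + 1)]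
      with i h1 h2 h3 hg hh hd
    obtain ⟨e1, he1, h1a, h1b⟩ := h1
    obtain ⟨e2, he2, h2a, h2b⟩ := h2
    obtain ⟨e3, he3, h3a, h3b⟩ := h3
    obtain ⟨t, ht, h4⟩ := (c i).mul g ((c i).hS g hg) h ((c i).hS h hh)
    set s : (c i).F := e3 * t * (e1 * e2)⁻¹ with hsdef
    have h5 : (a i (g * h)).val = s • ((a i g).val * (a i h).val) := by
      rw [h1a, h2a, h3a, h4, smul_mul_smul_comm, smul_smul, smul_smul, hsdef, mul_assoc (e3 * t),
        inv_mul_cancel₀ (by positivity), mul_one]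
    by_cases hs1 : s = 1
    · apply Units.ext
      rw [h5, hs1, one_smul, Units.val_mul]
    · exfalso
      have h6 := h1b.mul h2b
      rw [deg_iff] at h6 h3b
      set P := (a i g).val * (a i h).val with hP
      have h7 : (⊤ : Submodule (c i).F (c i).V) ≤
          LinearMap.range (P - 1) ⊔ LinearMap.range ((a i (g * h)).val - 1) := by
        intro v _
        have h8 : v = (P - 1) (-(s * (s - 1)⁻¹) • v) +
            ((a i (g * h)).val - 1) ((s - 1)⁻¹ • v) := by
          rw [h5]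
          simp only [LinearMap.sub_apply, map_smul, LinearMap.smul_apply, Module.End.one_apply]
          have h9 : (s - 1) * (s - 1)⁻¹ = 1 := mul_inv_cancel₀ (sub_ne_zero.2 hs1)
          generalize (s - 1)⁻¹ = r at h9 ⊢
          have h10 : v = ((s - 1) * r) • v := by rw [h9, one_smul]
          generalize P v = w
          conv_lhs => rw [h10]
          module
        rw [h8]
        exact Submodule.add_mem_sup (LinearMap.mem_range_self _ _) (LinearMap.mem_range_self _ _)
      have h11 := Submodule.finrank_mono h7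
      rw [finrank_top] at h11
      have h12 := Submodule.finrank_add_le_finrank_add_finrank (LinearMap.range (P - 1))
        (LinearMap.range ((a i (g * h)).val - 1))
      omega
  · intro g
    refine ⟨B g, ?_⟩
    filter_upwards [ha1 g] with i hi
    obtain ⟨e, he, h1, h2⟩ := hi
    exact (deg_iff _ _).1 h2
  · intro g hg
    filter_upwards [ha1 g, hmem g] with i hi hgi h1
    obtain ⟨e, he, h2, h3⟩ := hi
    rw [h1, Units.val_one] at h2
    refine (c i).sep g hgi hg e⁻¹ ?_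
    rw [h2, smul_smul, inv_mul_cancel₀ he, one_smul]

/-- (0.2) -/
theorem rank_large (hs : IsSimpleGroup G) (hG : ¬ FinLin G) {s : G} (hs1 : s ≠ 1) (N : ℕ) :
    ∃ S : Finset G, ∀ c : Cvr p G, c.Ge S → ∀ u, (s, u) ∈ c.Gam → ∀ e : c.F,
      N < finrank c.F (LinearMap.range (u.val - e • (1 : c.V →ₗ[c.F] c.V))) := by
  classical
  by_contra hcon
  push Not at hcon
  by_cases hB : ∃ B : ℕ, ∀ S : Finset G, ∃ c : Cvr p G, c.Ge S ∧ (∃ u, (s, u) ∈ c.Gam) ∧
      finrank c.F c.V ≤ B
  · obtain ⟨B, hB⟩ := hB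
    refine hG (finLin_of_bounded (x := (1 : G)) B fun S => ?_)
    obtain ⟨c, hc, ⟨u, hu⟩, hc2⟩ := hB S
    obtain ⟨d, hd, _⟩ := lcov c hc (c.mem _ hu) hu
    exact ⟨d, hd.le.trans hc2⟩
  · push Not at hB
    choose T hT using hB
    refine hG (finLin_of_family hs (x := (1 : G)) hs1 N fun S M => ?_)
    obtain ⟨c, hc, u, hu, e, he⟩ := hcon (S ∪ T (max M N))
    have h1 := hT (max M N) c (hc.mono Finset.subset_union_right) ⟨u, hu⟩
    obtain ⟨d, hd, hd2⟩ := lcov c (hc.mono Finset.subset_union_left) (c.mem _ hu) hu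
    have he0 : e ≠ 0 := by
      rintro rfl
      rw [zero_smul, sub_zero] at he
      have h2 : LinearMap.range u.val = ⊤ := by
        rw [LinearMap.range_eq_top]
        intro v
        refine ⟨(u⁻¹).val v, ?_⟩
        rw [← Module.End.mul_apply, Units.mul_inv, Module.End.one_apply]
      rw [h2, finrank_top] at he
      have := le_max_right M N
      omega
    refine ⟨d, ?_, hd2 e N he0 he⟩
    rw [hd]
    exact (le_max_left M N).trans h1.le

theorem dim_large (hs : IsSimpleGroup G) (hG : ¬ FinLin G) (N : ℕ) :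
    ∃ S : Finset G, ∀ c : Cvr p G, c.Ge S → N < finrank c.F c.V := by
  classical
  obtain ⟨s, hs1⟩ := exists_ne (1 : G)
  obtain ⟨S, hS⟩ := rank_large (p := p) hs hG hs1 N
  refine ⟨insert s S, fun c hc => ?_⟩
  obtain ⟨u, hu⟩ := c.onto s (hc s (Finset.mem_insert_self _ _)).1
  exact (hS c (hc.mono (Finset.subset_insert _ _)) u hu 0).trans_le (Submodule.finrank_le _)

/-- a finite group is finitary linear -/
theorem finLin_of_finite [Finite G] : FinLin G := by
  refine finLin_of_perm (Ω := G ⊕ ℕ)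
    ((Equiv.Perm.sumCongrHom G ℕ).comp ((MulAction.toPermHom G G).prod 1)) ?_ ?_
  · rw [injective_iff_map_eq_one]
    intro g hg
    have h1 := congrArg (fun P : Equiv.Perm (G ⊕ ℕ) => P (Sum.inl 1)) hg
    change (Sum.inl (g * 1) : G ⊕ ℕ) = Sum.inl 1 at h1
    rw [mul_one] at h1
    exact Sum.inl_injective h1
  · intro g
    refine (Set.finite_range (Sum.inl : G → G ⊕ ℕ)).subset ?_
    rintro (x | n) hx
    · exact ⟨x, rfl⟩
    · exact absurd rfl hx

theorem big (hG : ¬ FinLin G) (hcof : ∀ S : Finset G, ∃ c : Cvr p G, c.Ge S) (F₀ : Subgroup G)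
    [Finite F₀] (m : ℕ) : ∃ F₁ : Subgroup G, Finite F₁ ∧ F₀ ≤ F₁ ∧ m ≤ Nat.card F₁ := by
  classical
  have hinf : Infinite G := by
    by_contra hfin
    rw [not_infinite_iff_finite] at hfin
    exact hG finLin_of_finite
  obtain ⟨T, hT⟩ := Infinite.exists_subset_card_eq G m
  have hF : ((F₀ : Set G)).Finite := Set.toFinite _
  obtain ⟨c, hc⟩ := hcof (T ∪ hF.toFinset)
  refine ⟨c.H, c.fin, ?_, ?_⟩
  · intro g hg
    exact (hc g (Finset.mem_union_right _ (hF.mem_toFinset.2 hg))).1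
  · have h1 : (T : Set G) ⊆ (c.H : Set G) := fun g hg =>
      (hc g (Finset.mem_union_left _ hg)).1
    have h3 : Finite c.H := c.fin
    have h2 := Set.ncard_le_ncard h1 (Set.toFinite (c.H : Set G))
    rw [Set.ncard_coe_finset, hT] at h2
    exact h2

end Pool.Agent.Lib.MP_b9166b_al.Pt
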