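import Pool.Agent.Lib.MP_b9166b_al.Pt.Lay

/-!
# MP_b9166b_al, PT: generation of `SL(V)` by transvections and the determinant of an involution
-/

set_option autoImplicit false

namespace Pool.Agent.Lib.MP_b9166b_al.Pt

open Module

/-- the Weyl element -/
theorem cdA_w {n : ℕ} {F : Type} [Field F] {i j : Fin n} (hij : i ≠ j) (c : F) (hc : c ≠ 0) :
    (1 + Matrix.single i j c) * (1 + Matrix.single j i (-c⁻¹)) * (1 + Matrix.single i j c) =
      (1 - Matrix.single i i 1 - Matrix.single j j 1) + Matrix.single i j c -
        Matrix.single j i c⁻¹ := by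
  simp only [mul_add, add_mul, one_mul, mul_one, Matrix.single_mul_single_same,
    Matrix.single_mul_single_of_ne _ _ _ _ hij.symm]
  have h1 : c * -c⁻¹ = -1 := by rw [mul_neg, mul_inv_cancel₀ hc]
  have h2 : -c⁻¹ * c = -1 := by rw [neg_mul, inv_mul_cancel₀ hc]
  rw [h1, h2]
  simp only [neg_one_mul, ← Matrix.single_neg]
  abel

/-- the product of two Weyl elements -/
theorem cdA_ww {n : ℕ} {F : Type} [Field F] {i j : Fin n} (hij : i ≠ j) (c : F) :
    ((1 - Matrix.single i i (1 : F) - Matrix.single j j 1) + Matrix.single i j c -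
        Matrix.single j i c⁻¹) * ((1 - Matrix.single i i 1 - Matrix.single j j 1) +
        Matrix.single i j (-1) - Matrix.single j i (-1)) =
      Matrix.diagonal (fun k ↦ if k = i then c else if k = j then c⁻¹ else 1) := by
  simp only [mul_add, add_mul, sub_mul, mul_sub, one_mul, mul_one,
    Matrix.single_mul_single_same, Matrix.single_mul_single_of_ne _ _ _ _ hij.symm,
    Matrix.single_mul_single_of_ne _ _ _ _ hij]
  ext a b
  by_cases hab : a = b
  · subst hab
    rw [Matrix.diagonal_apply_eq]
    by_cases hai : a = i
    · subst hai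
      simp [hij.symm]
    · by_cases haj : a = j
      · subst haj
        simp [hij, hij.symm]
      · simp [hai, haj, Ne.symm hai, Ne.symm haj]
  · rw [Matrix.diagonal_apply_ne _ hab]
    have h1 : ¬ (i = a ∧ i = b) := fun h => hab (h.1.symm.trans h.2)
    have h2 : ¬ (j = a ∧ j = b) := fun h => hab (h.1.symm.trans h.2)
    simp only [Matrix.add_apply, Matrix.sub_apply, Matrix.single_apply, Matrix.one_apply, h1, h2,
      hab, if_false, Matrix.zero_apply]
    split_ifs <;> ring

/-- a diagonal element is a product of transvections -/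
theorem cdA_diag {n : ℕ} {F : Type} [Field F] {i j : Fin n} (hij : i ≠ j) (c : F) (hc : c ≠ 0) :
    Matrix.SpecialLinearGroup.diag2n hij c hc =
      (Matrix.SpecialLinearGroup.transvection hij c *
      Matrix.SpecialLinearGroup.transvection hij.symm (-c⁻¹) *
      Matrix.SpecialLinearGroup.transvection hij c) *
      (Matrix.SpecialLinearGroup.transvection hij (-1) *
      Matrix.SpecialLinearGroup.transvection hij.symm (-(-1)⁻¹) *
      Matrix.SpecialLinearGroup.transvection hij (-1)) := by
  apply Subtype.ext
  rw [Matrix.SpecialLinearGroup.diag2n_coe]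
  simp only [Matrix.SpecialLinearGroup.coe_mul, Matrix.SpecialLinearGroup.transvection_coe]
  rw [cdA_w hij c hc, cdA_w hij (-1) (neg_ne_zero.2 one_ne_zero), ← cdA_ww hij c]
  have h1 : ((-1 : F))⁻¹ = -1 := by rw [inv_neg, inv_one]
  rw [h1]

/-- `SL_n` of a field is generated by transvections -/
theorem cdA_gen (n : ℕ) (F : Type) [Field F]
    (P : Matrix.SpecialLinearGroup (Fin n) F → Prop) (h1 : P 1)
    (ht : ∀ (i j : Fin n) (hij : i ≠ j) (c : F),
      P (Matrix.SpecialLinearGroup.transvection hij c))
    (hm : ∀ A B, P A → P B → P (A * B)) (M : Matrix.SpecialLinearGroup (Fin n) F) : P M := by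
  rcases subsingleton_or_nontrivial (Fin n) with h | h
  · have : M = 1 := by
      apply Subtype.ext
      have hdet := M.2
      ext a b
      have hab : a = b := Subsingleton.elim _ _
      subst hab
      rw [Matrix.det_eq_elem_of_subsingleton _ a] at hdet
      rw [hdet, Matrix.SpecialLinearGroup.coe_one, Matrix.one_apply_eq]
    rw [this]
    exact h1
  · refine Matrix.SpecialLinearGroup.diagonal_transvection_induction' P M
      (fun i j hij c hc => ?_) ht hm
    rw [cdA_diag hij c hc]
    exact hm _ _ (hm _ _ (hm _ _ (ht _ _ _ _) (ht _ _ _ _)) (ht _ _ _ _))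
      (hm _ _ (hm _ _ (ht _ _ _ _) (ht _ _ _ _)) (ht _ _ _ _))

/-- `SL(V)` is generated by transvections -/
theorem cdA_lin {F V : Type} [Field F] [AddCommGroup V] [Module F V] [FiniteDimensional F V]
    (P : (V →ₗ[F] V) → Prop) (h1 : P 1) (ht : ∀ (v : V) (f : Dual F V), f v = 0 → P (tv v f))
    (hm : ∀ α β, P α → P β → P (α * β)) (α : V →ₗ[F] V) (hα : LinearMap.det α = 1) : P α := by
  classical
  let b := Module.finBasis F V
  have key := cdA_gen (finrank F V) F (fun M => P (Matrix.toLin b b M.1))
    (by
      rw [Matrix.SpecialLinearGroup.coe_one, Matrix.toLin_one]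
      exact h1)
    (fun i j hij c => by
      have h2 : Matrix.toLin b b (Matrix.SpecialLinearGroup.transvection hij c).1 =
          tv (b i) (c • b.coord j) := by
        refine b.ext fun k => ?_
        rw [Matrix.toLin_self, Matrix.SpecialLinearGroup.transvection_coe]
        simp only [Matrix.add_apply, add_smul, Finset.sum_add_distrib, Matrix.one_apply,
          Matrix.single_apply, ite_smul, one_smul, zero_smul]
        rw [Finset.sum_ite_eq' Finset.univ k, if_pos (Finset.mem_univ k)]
        have h3 : ∀ x : Fin (finrank F V), (if i = x ∧ j = k then c • b x else 0) =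
            if x = i then (if j = k then c • b i else 0) else 0 := by
          intro x
          by_cases hx : x = i
          · subst hx
            simp
          · rw [if_neg fun h => hx h.1.symm, if_neg hx]
        rw [Finset.sum_congr rfl fun x _ => h3 x, Finset.sum_ite_eq' Finset.univ i,
          if_pos (Finset.mem_univ i), Lay.tv_eq, LinearMap.add_apply, Module.End.one_apply,
          rk_apply, LinearMap.smul_apply, Module.Basis.coord_apply, Module.Basis.repr_self,
          Finsupp.single_apply, smul_eq_mul]
        by_cases hk : j = k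
        · subst hk
          simp
        · rw [if_neg hk, if_neg fun h => hk h.symm, mul_zero, zero_smul]
      rw [h2]
      refine ht _ _ ?_
      rw [LinearMap.smul_apply, Module.Basis.coord_apply, Module.Basis.repr_self,
        Finsupp.single_apply, if_neg hij, smul_zero])
    (fun A B hA hB => by
      rw [Matrix.SpecialLinearGroup.coe_mul, Matrix.toLin_mul b b b]
      exact hm _ _ hA hB)
    ⟨LinearMap.toMatrix b b α, by rw [LinearMap.det_toMatrix]; exact hα⟩
  simp only [Matrix.toLin_toMatrix] at key
  exact key

/-- the determinant of an involution -/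
theorem cdA_det {F V Z : Type} [Field F] [AddCommGroup V] [Module F V] [FiniteDimensional F V]
    [AddCommGroup Z] [Module F Z] (ι : Z →ₗ[F] V) (κ : V →ₗ[F] Z) (h : κ ∘ₗ ι = 1)
    (heven : Even (finrank F Z)) : LinearMap.det (1 - ι ∘ₗ κ - ι ∘ₗ κ) = 1 := by
  classical
  have hinj : Function.Injective ι := by
    intro x y hxy
    have h1 := congrArg κ hxy
    have h2 : ∀ z, κ (ι z) = z := fun z => LinearMap.congr_fun h z
    rwa [h2, h2] at h1
  have hfin : FiniteDimensional F Z := FiniteDimensional.of_injective ι hinj
  let b := Module.finBasis F V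
  let z := Module.finBasis F Z
  set A := LinearMap.toMatrix z b ι with hA
  set B := LinearMap.toMatrix b z κ with hB
  have hBA : B * A = 1 := by
    rw [hA, hB, ← LinearMap.toMatrix_comp z b z, h, LinearMap.toMatrix_one]
  have h3 : LinearMap.toMatrix b b (1 - ι ∘ₗ κ - ι ∘ₗ κ) = 1 + A * ((-2 : F) • B) := by
    rw [map_sub, map_sub, LinearMap.toMatrix_one, LinearMap.toMatrix_comp b z b, Matrix.mul_smul,
      neg_smul, two_smul, ← hA, ← hB]
    abel
  rw [← LinearMap.det_toMatrix b, h3, Matrix.det_one_add_mul_comm, Matrix.smul_mul, hBA]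
  have h4 : (1 : Matrix (Fin (finrank F Z)) (Fin (finrank F Z)) F) + (-2 : F) • 1 =
      (-1 : F) • 1 := by
    rw [neg_smul, neg_smul, two_smul, one_smul]
    abel
  rw [h4, Matrix.det_smul, Matrix.det_one, mul_one, Fintype.card_fin]
  exact heven.neg_one_pow

end Pool.Agent.Lib.MP_b9166b_al.Pt
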