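import Pool.Agent.Lib.MP_b9166b_al.Pt.Qr
import Pool.Agent.Lib.MP_b9166b_al.Pt.CdA
import Pool.Agent.Lib.MP_b9166b_al.Ks.Lift

/-!
# MP_b9166b_al, PT: the data of the coverage theorem

`Z` (dimension `≥ 8`) is a direct summand of `V` (`ι, κ`), stable under `u` and `s` together with its complement, `u` is free on `Z` over
`F[u] / (u-1)^k`, and `(u-1)^k = 0` on `W`. `th ι κ = 1 - 2 ι κ`: `-1` on `Z` and `1` on the complement.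

`El_inv`: a basis `z 0, .., z (2m-1)` of `Z` with the dual basis `ζ i`; for every pair `z = z (2i), z' = z (2i+1)`, `ζ, ζ'` (composed with `κ`):
`n = t(z, ζ') t(z', -ζ) t(z, ζ')` (`t(v,f) = 1 + rk v f`) maps `z' ↦ z`, `z ↦ -z'` and fixes the other basis vectors and the complement; `n²` is `-1` on
`z, z'`. The product of the `n²`. Lift every factor (`Rt.exists`).
`th_el`: `ρ θ` commutes with the `π i`, so `ρ θ = comp 0 (ρ θ) = el (th) (th)` (`Gm.el`; `th * th = 1`) `= 1 - 2 m (ι κ) - 2 m' (ι κ)`.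
`q_mem_T`: `a q = 1` (`th` commutes with `a u`), `q ∈ El` (`El_normal`), `El_ker`.
-/

set_option autoImplicit false

namespace Pool.Agent.Lib.MP_b9166b_al.Pt

open Module
open scoped commutatorElement

/-- `-1` on `Z`, `1` on the complement -/
def th {F V Z : Type} [Field F] [AddCommGroup V] [Module F V] [AddCommGroup Z] [Module F Z]
    (ι : Z →ₗ[F] V) (κ : V →ₗ[F] Z) : V →ₗ[F] V := 1 - ι ∘ₗ κ - ι ∘ₗ κ

/-- the data -/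
structure Cd {p : ℕ} {Γ F V K W Z : Type} [Group Γ] [Field F] [AddCommGroup V] [Module F V]
    [Field K] [AddCommGroup W] [Module K W] [AddCommGroup Z] [Module F Z] (ℓ : Lay p Γ F V)
    (ρ : Γ →* (W →ₗ[K] W)) (ι : Z →ₗ[F] V) (κ : V →ₗ[F] Z) (u s : Γ) (k : ℕ) : Prop where
  h8 : 8 ≤ finrank F Z
  κι : κ ∘ₗ ι = 1
  us : Commute u s
  pu : Pw p u
  ps : (orderOf s).Coprime p
  ua : ℓ.a u * (ι ∘ₗ κ) = (ι ∘ₗ κ) * ℓ.a u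
  sa : ℓ.a s * (ι ∘ₗ κ) = (ι ∘ₗ κ) * ℓ.a s
  hk : 0 < k
  kZ : (κ ∘ₗ ℓ.a u ∘ₗ ι - 1) ^ k = 0
  free : finrank F Z ≤ k * finrank F (LinearMap.range ((κ ∘ₗ ℓ.a u ∘ₗ ι - 1) ^ (k - 1)))
  kW : (ρ u - 1) ^ k = 0
  hD : ¬ ℓ.Dg ρ 2
  hZ : ∀ z ∈ ℓ.Z, ℓ.a z = 1 → ρ z = 1 → z = 1
  hT : ∀ t ∈ ℓ.T, ρ t = 1 → t = 1

/-- the lifts of `th` -/
structure Tl {p : ℕ} {Γ F V Z : Type} [Group Γ] [Field F] [AddCommGroup V] [Module F V]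
    [AddCommGroup Z] [Module F Z] (ℓ : Lay p Γ F V) (ι : Z →ₗ[F] V) (κ : V →ₗ[F] Z) (s θ : Γ) :
    Prop where
  el : θ ∈ ℓ.El
  a : ℓ.a θ = th ι κ
  cop : (orderOf θ).Coprime p
  s : Commute θ s

/-- `ι κ` is idempotent -/
theorem Cd_idem {F V Z : Type} [Field F] [AddCommGroup V] [Module F V] [AddCommGroup Z] [Module F Z]
    {ι : Z →ₗ[F] V} {κ : V →ₗ[F] Z} (h : κ ∘ₗ ι = 1) :
    (ι ∘ₗ κ) * (ι ∘ₗ κ) = ι ∘ₗ κ := by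
  ext v
  have h2 : ∀ z, κ (ι z) = z := fun z => LinearMap.congr_fun h z
  rw [Module.End.mul_apply, LinearMap.comp_apply, LinearMap.comp_apply, h2]

theorem th_mul_th {F V Z : Type} [Field F] [AddCommGroup V] [Module F V] [AddCommGroup Z]
    [Module F Z] {ι : Z →ₗ[F] V} {κ : V →ₗ[F] Z} (h : κ ∘ₗ ι = 1) :
    th ι κ * th ι κ = 1 := by
  unfold th
  simp only [mul_sub, sub_mul, one_mul, mul_one, Cd_idem h]
  abel

/-- `th` commutes with everything which commutes with `ι κ` -/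
theorem th_comm {F V Z : Type} [Field F] [AddCommGroup V] [Module F V] [AddCommGroup Z]
    [Module F Z] {ι : Z →ₗ[F] V} {κ : V →ₗ[F] Z} {α : V →ₗ[F] V}
    (h : α * (ι ∘ₗ κ) = (ι ∘ₗ κ) * α) : th ι κ * α = α * th ι κ := by
  unfold th
  simp only [mul_sub, sub_mul, one_mul, mul_one, h]

variable {p : ℕ} (hp : p.Prime) (hp2 : p ≠ 2) {Γ F V K W Z : Type} [Group Γ] [Finite Γ] [Field F]
  [CharP F p] [AddCommGroup V] [Module F V] [FiniteDimensional F V] [Field K] [CharP K p]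
  [AddCommGroup W] [Module K W] [FiniteDimensional K W] [Finite W] [AddCommGroup Z] [Module F Z]
  {ℓ : Lay p Γ F V} {ρ : Γ →* (W →ₗ[K] W)} {ι : Z →ₗ[F] V} {κ : V →ₗ[F] Z} {u s : Γ} {k : ℕ}

include hp

theorem El_inv (ℓ : Lay p Γ F V) (h : κ ∘ₗ ι = 1) (heven : Even (finrank F Z)) :
    ∃ g ∈ ℓ.El, ℓ.a g = th ι κ := by
  refine cdA_lin (fun α => ∃ g ∈ ℓ.El, ℓ.a g = α) ⟨1, ℓ.El.one_mem, map_one _⟩ ?_ ?_ (th ι κ)
    (cdA_det ι κ h heven)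
  · intro v f hvf
    obtain ⟨g, hg⟩ := Lay.Rt.exists ℓ hp hvf
    exact ⟨g, Subgroup.subset_closure ⟨v, f, hvf, hg⟩, hg.2.2⟩
  · rintro α β ⟨g, hg, rfl⟩ ⟨g', hg', rfl⟩
    exact ⟨g * g', ℓ.El.mul_mem hg hg', map_mul _ _ _⟩

theorem Cd.h8V (h : Cd ℓ ρ ι κ u s k) : 8 ≤ finrank F V := by
  have hinj : Function.Injective ι := by
    intro x y hxy
    have h1 := congrArg κ hxy
    have h2 : ∀ z, κ (ι z) = z := fun z => LinearMap.congr_fun h.κι z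
    rwa [h2, h2] at h1
  exact h.h8.trans (LinearMap.finrank_le_finrank_of_injective hinj)

/-- a first lift -/
theorem Cd.exists_tl (h : Cd ℓ ρ ι κ u s k) (hp2 : p ≠ 2) (heven : Even (finrank F Z)) :
    ∃ θ, Tl ℓ ι κ s θ := by
  obtain ⟨θ₀, h1, h2⟩ := El_inv hp ℓ h.κι heven
  have h3 : ⁅θ₀, s⁆ ∈ ℓ.T := by
    refine El_ker hp ℓ ρ (h.h8V hp) h.hD h.hZ ?_ ?_
    · have h4 : ⁅θ₀, s⁆ = θ₀ * (s * θ₀⁻¹ * s⁻¹) := by
        rw [commutatorElement_def]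
        group
      rw [h4]
      exact ℓ.El.mul_mem h1 (El_normal ℓ (ℓ.El.inv_mem h1))
    · rw [Lay.comm_eq]
      refine ℓ.a_eq_one_of ?_
      rw [map_mul, map_mul, h2, th_comm h.sa]
  have hN : ℓ.T.Normal := ℓ.T_normal hp
  have hcard : (Nat.card ℓ.T).Coprime (orderOf s) := by
    have hfp : Fact p.Prime := ⟨hp⟩
    obtain ⟨j, hj⟩ := IsPGroup.iff_card.1 (ℓ.T_pgroup hp)
    rw [hj]
    exact (h.ps.pow_right j).symm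
  obtain ⟨t, ht, hc⟩ := Ks.exists_commute_mul ℓ.T hcard h3
  have hx : θ₀ * t ∈ ℓ.El := ℓ.El.mul_mem h1 (T_le_El hp ℓ ht)
  have hxa : ℓ.a (θ₀ * t) = th ι κ := by
    rw [map_mul, ((ℓ.mem_T hp).1 ht).2.1, mul_one, h2]
  obtain ⟨n, hn, hφ⟩ := exists_qpart hp (θ₀ * t)
  refine ⟨(θ₀ * t) ^ n, ℓ.El.pow_mem hx n, ?_, hn, hc.pow_left n⟩
  rw [hφ ℓ.a ⟨2, ?_, ?_⟩, hxa]
  · exact (Nat.coprime_primes Nat.prime_two hp).2 (Ne.symm hp2)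
  · rw [hxa, pow_two, th_mul_th h.κι]

theorem th_el {l : ℕ} {G : Grd (W →ₗ[K] W) l} {S : MM F V (W →ₗ[K] W)} (hS : Gm ℓ ρ G S)
    (h : κ ∘ₗ ι = 1) {θ : Γ} (hθ : Tl ℓ ι κ s θ) (hG : ∀ i, ρ θ * G.π i = G.π i * ρ θ) :
    ρ θ = 1 - (S.m (ι ∘ₗ κ) + S.m' (ι ∘ₗ κ)) - (S.m (ι ∘ₗ κ) + S.m' (ι ∘ₗ κ)) := by
  have h1 : ℓ.a θ⁻¹ = th ι κ := by
    have h2 := ℓ.a_inv_mul θ
    rw [hθ.a] at h2
    calc ℓ.a θ⁻¹ = ℓ.a θ⁻¹ * (th ι κ * th ι κ) := by rw [th_mul_th h, mul_one]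
      _ = th ι κ := by rw [← mul_assoc, h2, one_mul]
  have h3 := hS.el θ hθ.el
  rw [G.comp_of_comm hG, hθ.a, h1] at h3
  have e : th ι κ + ι ∘ₗ κ + ι ∘ₗ κ = 1 := by
    unfold th
    abel
  have h4 : S.m (th ι κ) + S.m (ι ∘ₗ κ) + S.m (ι ∘ₗ κ) = S.m 1 := by
    rw [← S.add, ← S.add, e]
  have h5 : S.m' (th ι κ) + S.m' (ι ∘ₗ κ) + S.m' (ι ∘ₗ κ) = S.m' 1 := by
    rw [← S.add', ← S.add', e]
  rw [h3, MM.el, ← h4, ← h5]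
  abel

theorem Cd.q_mem_T (h : Cd ℓ ρ ι κ u s k) {θ : Γ} (hθ : Tl ℓ ι κ s θ) :
    u⁻¹ * θ * u * θ⁻¹ ∈ ℓ.T := by
  refine El_ker hp ℓ ρ (h.h8V hp) h.hD h.hZ ?_ ?_
  · have h1 := El_normal ℓ (x := u⁻¹) hθ.el
    rw [inv_inv] at h1
    exact ℓ.El.mul_mem h1 (ℓ.El.inv_mem hθ.el)
  · refine ℓ.a_eq_one_of ?_
    rw [map_mul, map_mul, hθ.a, mul_assoc, th_comm h.ua, ← mul_assoc, ℓ.a_inv_mul, one_mul]

end Pool.Agent.Lib.MP_b9166b_al.Pt
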