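import Pool.Agent.Lib.MP_b9166b_al.Pt.Cvr
import Pool.Agent.Lib.MP_b9166b_al.Pt.Cd

/-!
# MP_b9166b_al, PT: transvections and El

`c.TV`: the group generated by the transvections of `c.V`.
`El_lift`: `TV` is the image of `El` under `a` (`Rt.exists`): there is `ω₁ ∈ El` with `a ω₁ = v`. Choose `w` with `(g, w) ∈ d.Gam` (`mem`, `le`, `onto`); `ω₂ = (g, v, w) ∈ L`.
`ω₁⁻¹ ω₂ = t z` (`L_ker`), `ω = ω₁ t ∈ El` (`T_le_El`), `g2 ω = g` as `g2 z = 1`.
`a_El`: closure induction (`El_le` for the second statement; `Gam2` elements: `(g2 ω, v) = pr2 ω`).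
`cop_of`: `ω^(orderOf g)` has first component `1`, so it is in `Z`, of order prime to `p`.
`exists_z`: use `lay2 c c`, `El_inv` for a summand `Z` of dimension `2` (`ι, κ` from a basis), `g ∈ El`, `a g = th`; `exists_qpart`: `g^n`
(`(a g)^2 = 1`, `2` is prime to `p`); `z = g2 (g^n)`. `z ≠ 1` because otherwise `th` is a scalar (`scal`), but it has eigenvalues `-1` and `1`.
-/

set_option autoImplicit false

namespace Pool.Agent.Lib.MP_b9166b_al.Pt

open Module Cvr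

variable {p : ℕ} {G : Type} [Group G]

/-- the group generated by the transvections -/
def Cvr.TV (c : Cvr p G) : Subgroup c.U :=
  Subgroup.closure {v | ∃ (y : c.V) (f : Dual c.F c.V), f y = 0 ∧ v.val = tv y f}

theorem El_lift (hp : p.Prime) (c d : Cvr p G) (h : c.H ≤ d.H) {g : G} {v : c.U}
    (hg : (g, v) ∈ c.LL) (hv : v ∈ c.TV) :
    ∃ ω ∈ (lay2 c d h).El, g2 c d ω = g ∧ (lay2 c d h).a ω = v.val := by
  have key : ∃ ω ∈ (lay2 c d h).El, (lay2 c d h).a ω = v.val := by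
    refine Subgroup.closure_induction
      (p := fun v _ => ∃ ω ∈ (lay2 c d h).El, (lay2 c d h).a ω = v.val) ?_ ?_ ?_ ?_ hv
    · rintro v ⟨y, f, hyf, hvy⟩
      obtain ⟨ω, hω⟩ := Lay.Rt.exists (lay2 c d h) hp hyf
      exact ⟨ω, Subgroup.subset_closure ⟨y, f, hyf, hω⟩, by rw [hω.2.2, hvy]⟩
    · exact ⟨1, Subgroup.one_mem _, by rw [map_one, Units.val_one]⟩
    · rintro v v' _ _ ⟨ω, h1, h2⟩ ⟨ω', h1', h2'⟩
      exact ⟨ω * ω', Subgroup.mul_mem _ h1 h1', by rw [map_mul, h2, h2', Units.val_mul]⟩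
    · rintro v _ ⟨ω, h1, h2⟩
      refine ⟨ω⁻¹, Subgroup.inv_mem _ h1, ?_⟩
      have h3 : v.val * (lay2 c d h).a ω⁻¹ = 1 := by
        rw [← h2, ← map_mul, mul_inv_cancel, map_one]
      calc (lay2 c d h).a ω⁻¹ = (v⁻¹).val * (v.val * (lay2 c d h).a ω⁻¹) := by
            rw [← mul_assoc, Units.inv_mul, one_mul]
        _ = (v⁻¹).val := by rw [h3, mul_one]
  obtain ⟨ω₁, h1, h2⟩ := key
  obtain ⟨w, hw⟩ := d.onto g (h (c.mem _ (c.le hg)))
  let ω₂ : Gam2 c d := ⟨(g, v, w), c.le hg, hw⟩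
  have h3 : ω₂ ∈ (lay2 c d h).L := hg
  have h4 : (lay2 c d h).a ω₂ = v.val := rfl
  have h5 : ω₁⁻¹ * ω₂ ∈ (lay2 c d h).L :=
    Subgroup.mul_mem _ (Subgroup.inv_mem _ (El_le (lay2 c d h) h1)) h3
  have h6 : (lay2 c d h).a (ω₁⁻¹ * ω₂) = 1 := by
    rw [map_mul, h4, ← h2, ← map_mul, inv_mul_cancel, map_one]
  obtain ⟨t, ht, z, hz, hx⟩ := (lay2 c d h).L_ker hp h5 h6
  have h7 : ω₂ = ω₁ * t * z := by
    rw [mul_assoc, ← hx, mul_inv_cancel_left]
  have h8 : g2 c d z = 1 := hz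
  refine ⟨ω₁ * t, Subgroup.mul_mem _ h1 (T_le_El hp _ ht), ?_, ?_⟩
  · have h9 := congrArg (g2 c d) h7
    rw [map_mul, h8, mul_one] at h9
    exact h9.symm
  · rw [map_mul, h2, ((Lay.mem_T (lay2 c d h) hp).1 ht).2.1, mul_one]

theorem a_El (c d : Cvr p G) (h : c.H ≤ d.H) {ω : Gam2 c d} (hω : ω ∈ (lay2 c d h).El) :
    ω.1.2.1 ∈ c.TV ∧ (ω.1.1, ω.1.2.1) ∈ c.LL := by
  refine ⟨?_, El_le (lay2 c d h) hω⟩
  refine Subgroup.closure_induction
    (p := fun (ω : Gam2 c d) _ => ω.1.2.1 ∈ c.TV) ?_ ?_ ?_ ?_ hω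
  · rintro ω ⟨y, f, hyf, hω⟩
    exact Subgroup.subset_closure ⟨y, f, hyf, hω.2.2⟩
  · exact Subgroup.one_mem _
  · intro ω ω' _ _ h1 h2
    exact Subgroup.mul_mem _ h1 h2
  · intro ω _ h1
    exact Subgroup.inv_mem _ h1

theorem cop_of (hp : p.Prime) (c d : Cvr p G) (h : c.H ≤ d.H) {ω : Gam2 c d}
    (hc : (orderOf (g2 c d ω)).Coprime p) (h0 : 0 < orderOf (g2 c d ω)) :
    (orderOf ω).Coprime p := by
  have h1 : ω ^ orderOf (g2 c d ω) ∈ (lay2 c d h).Z := by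
    change g2 c d (ω ^ orderOf (g2 c d ω)) = 1
    rw [map_pow, pow_orderOf_eq_one]
  have h2 : ω ^ (orderOf (g2 c d ω) * Nat.card (lay2 c d h).Z) = 1 := by
    rw [pow_mul]
    have h3 := pow_card_eq_one' (x := (⟨_, h1⟩ : (lay2 c d h).Z))
    exact congrArg Subtype.val h3
  exact Nat.Coprime.coprime_dvd_left (orderOf_dvd_of_pow_eq_one h2)
    (Nat.Coprime.mul_left hc (lay2 c d h).cop)

theorem exists_z (hp : p.Prime) (hp2 : p ≠ 2) (c : Cvr p G) (h3 : 3 ≤ finrank c.F c.V) :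
    ∃ (z : G) (v : c.U), z ≠ 1 ∧ 0 < orderOf z ∧ (orderOf z).Coprime p ∧ (z, v) ∈ c.LL ∧
      v ∈ c.TV := by
  obtain ⟨w, hw⟩ : ∃ w : Fin 2 → c.V, LinearIndependent c.F w := by
    have h2 : 2 ≤ finrank c.F c.V := by omega
    exact ⟨fun i => finBasis c.F c.V (Fin.castLE h2 i),
      (finBasis c.F c.V).linearIndependent.comp _ (Fin.castLE_injective h2)⟩
  let ι : (Fin 2 → c.F) →ₗ[c.F] c.V := Fintype.linearCombination c.F w
  have hι : Function.Injective ι := linearIndependent_iff_injective_fintypeLinearCombination.1 hw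
  obtain ⟨κ, hκ⟩ := LinearMap.exists_leftInverse_of_injective ι (LinearMap.ker_eq_bot.2 hι)
  have hκ1 : κ ∘ₗ ι = 1 := hκ
  have hκι : ∀ x, κ (ι x) = x := fun x => LinearMap.congr_fun hκ1 x
  have hfin : finrank c.F (Fin 2 → c.F) = 2 := by simp
  obtain ⟨g, hg, hga⟩ := El_inv hp (lay2 c c le_rfl) hκ1 (by rw [hfin]; exact even_two)
  obtain ⟨n, hn, hφ⟩ := exists_qpart hp g
  have hgn : (lay2 c c le_rfl).a (g ^ n) = th ι κ := by
    rw [hφ (lay2 c c le_rfl).a ⟨2, (Nat.coprime_primes Nat.prime_two hp).2 (Ne.symm hp2), ?_⟩, hga]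
    rw [hga, pow_two, th_mul_th hκ1]
  obtain ⟨h1, h2⟩ := a_El c c le_rfl (Subgroup.pow_mem _ hg n)
  have hfo : IsOfFinOrder (g2 c c (g ^ n)) := MonoidHom.isOfFinOrder (g2 c c) (isOfFinOrder_of_finite (g ^ n))
  refine ⟨g2 c c (g ^ n), (g ^ n).1.2.1, ?_, orderOf_pos_iff.2 hfo, ?_, h2, h1⟩
  · intro h0
    have h3 : ((1 : G), (g ^ n).1.2.1) ∈ c.Gam := by
      rw [← h0]
      exact c.le h2
    obtain ⟨e, he⟩ := c.scal _ h3
    have h4 : th ι κ = e • (1 : c.V →ₗ[c.F] c.V) := by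
      rw [← hgn]
      exact he
    have hker : LinearMap.ker κ ≠ ⊥ := LinearMap.ker_ne_bot_of_finrank_lt (by rw [hfin]; omega)
    obtain ⟨y, hy, hy0⟩ := Submodule.exists_mem_ne_zero_of_ne_bot hker
    have hy1 : κ y = 0 := hy
    have e1 : e = 1 := by
      have h5 := LinearMap.congr_fun h4 y
      unfold th at h5
      simp only [LinearMap.sub_apply, Module.End.one_apply, LinearMap.comp_apply, hy1, map_zero,
        sub_zero, LinearMap.smul_apply] at h5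
      have h6 : (e - 1) • y = 0 := by
        rw [sub_smul, one_smul, ← h5, sub_self]
      exact sub_eq_zero.1 ((smul_eq_zero.1 h6).resolve_right hy0)
    have hx0 : ι (fun _ => 1) ≠ 0 := by
      intro h5
      have h6 := congrArg κ h5
      rw [hκι, map_zero] at h6
      exact one_ne_zero (congrFun h6 0)
    have h5 := LinearMap.congr_fun h4 (ι (fun _ => 1))
    unfold th at h5
    simp only [LinearMap.sub_apply, Module.End.one_apply, LinearMap.comp_apply, hκι, sub_self,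
      LinearMap.smul_apply, e1, one_smul, zero_sub] at h5
    have h6 : (2 : c.F) • ι (fun _ => 1) = 0 := by
      rw [two_smul]
      nth_rewrite 1 [← h5]
      exact neg_add_cancel _
    have h7 : (2 : c.F) = 0 := (smul_eq_zero.1 h6).resolve_right hx0
    have h8 : ((2 : ℕ) : c.F) = 0 := by exact_mod_cast h7
    rw [CharP.cast_eq_zero_iff c.F p 2] at h8
    exact hp2 ((Nat.prime_dvd_prime_iff_eq hp Nat.prime_two).1 h8)
  · exact Nat.Coprime.coprime_dvd_left (orderOf_map_dvd _ _) hn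

end Pool.Agent.Lib.MP_b9166b_al.Pt
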