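import Pool.Agent.Lib.MP_b9166b_al.Pt.Cvr

/-!
# MP_b9166b_al, PT: the lifts of `x`

`x = u s`, `u` the `p`-part and `s` the `p'`-part. In a cover: `uc` the lift of `u` which is a `p`-element, `sc` a lift of `s`.

`scal_mul`: two lifts of the same element differ by a scalar. `pw_unique`: a scalar `e • 1` with `(e • 1)^(p^n) = 1` is `1` (`e^(p^n) = 1` in characteristic
`p`, `sub_one_pow_char_pow`), so two lifts which are `p`-elements are equal. `exists_xl`: `onto` and `exists_ppart` in `c.Gam` (finite). `comm_u`: `b * uc * b⁻¹` is a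
`p`-element over `g u g⁻¹ = u`. `comm_s`: `b sc b⁻¹ = e sc`, `b' sc b'⁻¹ = e' sc`. `kap_of`: uniqueness of `uc`. `exists_kap`: `uc^(p^n)` is a scalar and a `p`-element, so
it is `1` and `(uc - 1)^(p^n) = 0`; take the least `k` (`k > 0` as `1 ≠ 0` in `End V` for `V ≠ 0`).
-/

set_option autoImplicit false

namespace Pool.Agent.Lib.MP_b9166b_al.Pt

open Module
open scoped commutatorElement

variable {p : ℕ} {G : Type} [Group G]

/-- the parts of `x` -/
structure XD (p : ℕ) {G : Type} [Group G] (x u s : G) : Prop where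
  eq : x = u * s
  hu : ∃ i : ℕ, u = x ^ i
  hs : ∃ i : ℕ, s = x ^ i
  pu : ∃ n : ℕ, u ^ p ^ n = 1
  s0 : 0 < orderOf s
  ps : (orderOf s).Coprime p

/-- lifts of `u` and `s` -/
structure Xl (c : Cvr p G) (u s : G) (uc sc : c.U) : Prop where
  u : (u, uc) ∈ c.Gam
  pu : Pw p uc
  s : (s, sc) ∈ c.Gam

/-- the nilpotency degree of `u - 1` -/
def Kap (c : Cvr p G) (u : G) (k : ℕ) : Prop :=
  ∀ uc : c.U, (u, uc) ∈ c.Gam → Pw p uc → (uc.val - 1) ^ k = 0 ∧ (uc.val - 1) ^ (k - 1) ≠ 0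

/-- two lifts of the same element differ by a central element over `1` -/
theorem xl_quot (c : Cvr p G) {g : G} {b b' : c.U} (h : (g, b) ∈ c.Gam) (h' : (g, b') ∈ c.Gam) :
    ((1 : G), b⁻¹ * b') ∈ c.Gam := by
  have h1 := c.Gam.mul_mem (c.Gam.inv_mem h) h'
  have h2 : (g, b)⁻¹ * (g, b') = ((1 : G), b⁻¹ * b') := by
    rw [Prod.inv_mk, Prod.mk_mul_mk, inv_mul_cancel]
  rwa [h2] at h1

/-- the elements over `1` have order prime to `p` -/
theorem xl_cop (hp : p.Prime) (c : Cvr p G) {z : c.U} (h : ((1 : G), z) ∈ c.Gam) :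
    (orderOf z).Coprime p := by
  have h1 : orderOf z ∣ Nat.card c.F - 1 := orderOf_dvd_of_pow_eq_one (c.scal_pow h)
  rw [Nat.coprime_comm, hp.coprime_iff_not_dvd]
  exact fun hd => c.cvr_ndvd (hd.trans h1)

theorem xl_conj (c : Cvr p G) {g y : G} {b w : c.U} (hb : (g, b) ∈ c.Gam) (hw : (y, w) ∈ c.Gam)
    (hg : Commute g y) : (y, b * w * b⁻¹) ∈ c.Gam := by
  have h1 := c.Gam.mul_mem (c.Gam.mul_mem hb hw) (c.Gam.inv_mem hb)
  have h2 : (g, b) * (y, w) * (g, b)⁻¹ = (y, b * w * b⁻¹) := by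
    rw [Prod.inv_mk, Prod.mk_mul_mk, Prod.mk_mul_mk, hg.eq, mul_inv_cancel_right]
  rwa [h2] at h1

theorem scal_mul (c : Cvr p G) {g : G} {b b' : c.U} (h : (g, b) ∈ c.Gam) (h' : (g, b') ∈ c.Gam) :
    ∃ e : c.F, b'.val = e • b.val := by
  obtain ⟨e, he⟩ := c.scal _ (xl_quot c h h')
  refine ⟨e, ?_⟩
  have h1 : b' = b * (b⁻¹ * b') := by rw [mul_inv_cancel_left]
  rw [h1, Units.val_mul, he, mul_smul_comm, mul_one]

theorem pw_unique (hp : p.Prime) (c : Cvr p G) {g : G} {b b' : c.U} (h : (g, b) ∈ c.Gam)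
    (h' : (g, b') ∈ c.Gam) (hb : Pw p b) (hb' : Pw p b') : b = b' := by
  have hz := xl_quot c h h'
  have hbz : Commute b (b⁻¹ * b') := (c.scal_comm hz b).symm
  have hbb : Commute b b' := by
    have h1 : b' = b * (b⁻¹ * b') := by rw [mul_inv_cancel_left]
    rw [h1]
    exact (Commute.refl b).mul_right hbz
  have h2 : b⁻¹ * b' = 1 := (hb.inv.mul hb' hbb.inv_left).eq_one (xl_cop hp c hz)
  exact inv_mul_eq_one.1 h2

variable {x u s : G}

theorem XD.comm_s_u (h : XD p x u s) : Commute s u := by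
  obtain ⟨i, hi⟩ := h.hu
  obtain ⟨j, hj⟩ := h.hs
  rw [hi, hj]
  exact (Commute.refl x).pow_pow j i

theorem exists_xl (hp : p.Prime) (h : XD p x u s) (c : Cvr p G) (hx : x ∈ c.H) :
    ∃ uc sc, Xl c u s uc sc := by
  obtain ⟨i, hi⟩ := h.hu
  obtain ⟨j, hj⟩ := h.hs
  have hu : u ∈ c.H := by
    rw [hi]
    exact c.H.pow_mem hx i
  have hs : s ∈ c.H := by
    rw [hj]
    exact c.H.pow_mem hx j
  obtain ⟨b, hb⟩ := c.onto u hu
  obtain ⟨sc, hsc⟩ := c.onto s hs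
  obtain ⟨n, hn, hφ⟩ := exists_ppart hp (⟨(u, b), hb⟩ : c.Gam)
  have h1 := hφ ((MonoidHom.fst G c.U).comp c.Gam.subtype) h.pu
  have h2 : u ^ n = u := h1
  refine ⟨b ^ n, sc, ?_, ?_, hsc⟩
  · have h3 := c.Gam.pow_mem hb n
    rwa [Prod.pow_mk, h2] at h3
  · exact hn.map ((MonoidHom.snd G c.U).comp c.Gam.subtype)

theorem Xl.comm (hp : p.Prime) (h : XD p x u s) {c : Cvr p G} {uc sc : c.U}
    (hl : Xl c u s uc sc) : Commute uc sc := by
  have hc := xl_conj c hl.s hl.u (h.comm_s_u)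
  have h1 := pw_unique hp c hc hl.u (hl.pu.conj sc) hl.pu
  exact (mul_inv_eq_iff_eq_mul.1 h1).symm

theorem Xl.pow (h : XD p x u s) {c : Cvr p G} {uc sc : c.U} (hl : Xl c u s uc sc) :
    ∃ e : c.F, e ≠ 0 ∧ sc.val ^ orderOf s = e • (1 : c.V →ₗ[c.F] c.V) := by
  have h1 := c.Gam.pow_mem hl.s (orderOf s)
  rw [Prod.pow_mk, pow_orderOf_eq_one] at h1
  obtain ⟨e, he⟩ := c.scal _ h1
  rw [Units.val_pow_eq_pow_val] at he
  by_cases h0 : e = 0
  · rw [h0, zero_smul] at he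
    have h2 : (1 : c.V →ₗ[c.F] c.V) = 0 := by
      have h3 : ((sc ^ orderOf s : c.U) : c.V →ₗ[c.F] c.V) = 0 := by
        rw [Units.val_pow_eq_pow_val, he]
      rw [← (sc ^ orderOf s).mul_inv, h3, zero_mul]
    refine ⟨1, one_ne_zero, ?_⟩
    have h4 : Subsingleton (c.V →ₗ[c.F] c.V) := subsingleton_of_zero_eq_one h2.symm
    exact Subsingleton.elim _ _
  · exact ⟨e, h0, he⟩

theorem Xl.comm_u (hp : p.Prime) (h : XD p x u s) {c : Cvr p G} {uc sc : c.U}
    (hl : Xl c u s uc sc) {g : G} (hg : Commute g x) {b : c.U} (hb : (g, b) ∈ c.Gam) :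
    Commute b uc := by
  obtain ⟨i, hi⟩ := h.hu
  have hgu : Commute g u := by
    rw [hi]
    exact hg.pow_right i
  have h1 := pw_unique hp c (xl_conj c hb hl.u hgu) hl.u (hl.pu.conj b) hl.pu
  exact mul_inv_eq_iff_eq_mul.1 h1

theorem Xl.comm_s (h : XD p x u s) {c : Cvr p G} {uc sc : c.U} (hl : Xl c u s uc sc) {g g' : G}
    (hg : Commute g x) (hg' : Commute g' x) {b b' : c.U} (hb : (g, b) ∈ c.Gam)
    (hb' : (g', b') ∈ c.Gam) : Commute ⁅b, b'⁆ sc := by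
  obtain ⟨j, hj⟩ := h.hs
  have hgs : Commute g s := by
    rw [hj]
    exact hg.pow_right j
  have hgs' : Commute g' s := by
    rw [hj]
    exact hg'.pow_right j
  have hz := xl_quot c hl.s (xl_conj c hb hl.s hgs)
  have hz' := xl_quot c hl.s (xl_conj c hb' hl.s hgs')
  obtain ⟨z, hzd⟩ : ∃ z, z = sc⁻¹ * (b * sc * b⁻¹) := ⟨_, rfl⟩
  obtain ⟨z', hzd'⟩ : ∃ z', z' = sc⁻¹ * (b' * sc * b'⁻¹) := ⟨_, rfl⟩
  rw [← hzd] at hz
  rw [← hzd'] at hz'
  have hc : ∀ y, Commute z y := fun y => c.scal_comm hz y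
  have hc' : ∀ y, Commute z' y := fun y => c.scal_comm hz' y
  have e1 : SemiconjBy b sc (sc * z) := by
    change b * sc = sc * z * b
    rw [hzd, mul_inv_cancel_left, inv_mul_cancel_right]
  have e1' : SemiconjBy b' sc (sc * z') := by
    change b' * sc = sc * z' * b'
    rw [hzd', mul_inv_cancel_left, inv_mul_cancel_right]
  have e2 : SemiconjBy (b * b') sc (sc * z * z') :=
    SemiconjBy.mul_left (e1.mul_right ((hc' b).symm)) e1'
  have e2' : SemiconjBy (b' * b) sc (sc * z' * z) :=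
    SemiconjBy.mul_left (e1'.mul_right ((hc b').symm)) e1
  have e3 : sc * z' * z = sc * z * z' := by rw [mul_assoc, mul_assoc, (hc z').eq]
  rw [e3] at e2'
  have e4 : Commute (b * b' * (b' * b)⁻¹) (sc * z * z') :=
    SemiconjBy.mul_left e2 e2'.inv_symm_left
  have e5 : ⁅b, b'⁆ = b * b' * (b' * b)⁻¹ := by
    rw [commutatorElement_def, mul_inv_rev]
    simp only [mul_assoc]
  rw [← e5] at e4
  have e6 : sc = sc * z * z' * z'⁻¹ * z⁻¹ := by
    rw [mul_inv_cancel_right, mul_inv_cancel_right]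
  rw [e6]
  exact (e4.mul_right (hc' _).symm.inv_right).mul_right (hc _).symm.inv_right

theorem kap_of (hp : p.Prime) {c : Cvr p G} {uc : c.U} (hu : (u, uc) ∈ c.Gam) (hpu : Pw p uc)
    {k : ℕ} (h1 : (uc.val - 1) ^ k = 0) (h2 : (uc.val - 1) ^ (k - 1) ≠ 0) : Kap c u k := by
  intro uc' hu' hpu'
  rw [pw_unique hp c hu' hu hpu' hpu]
  exact ⟨h1, h2⟩

theorem exists_kap (hp : p.Prime) (h : XD p x u s) {n : ℕ} (hn : u ^ p ^ n = 1) (c : Cvr p G)
    (hx : x ∈ c.H) (hd : 0 < finrank c.F c.V) : ∃ k, 0 < k ∧ k ≤ p ^ n ∧ Kap c u k := by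
  classical
  obtain ⟨uc, sc, hl⟩ := exists_xl hp h c hx
  have h1 : uc ^ p ^ n = 1 := by
    have h2 := c.Gam.pow_mem hl.u (p ^ n)
    rw [Prod.pow_mk, hn] at h2
    exact pw_unique hp c h2 c.Gam.one_mem (hl.pu.pow _) Pw.one
  have hV : Nontrivial c.V := Module.nontrivial_of_finrank_pos hd
  have hfp : Fact p.Prime := ⟨hp⟩
  have hchar : CharP (c.V →ₗ[c.F] c.V) p :=
    charP_of_injective_algebraMap (FaithfulSMul.algebraMap_injective c.F (c.V →ₗ[c.F] c.V)) p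
  have h2 : (uc.val - 1) ^ p ^ n = 0 := by
    rw [sub_pow_char_pow_of_commute _ _ (Commute.one_right _), one_pow, ← Units.val_pow_eq_pow_val,
      h1, Units.val_one, sub_self]
  have hex : ∃ k, (uc.val - 1) ^ k = 0 := ⟨_, h2⟩
  have hk0 : Nat.find hex ≠ 0 := by
    intro h0
    have h3 := Nat.find_spec hex
    rw [h0, pow_zero] at h3
    exact one_ne_zero h3
  refine ⟨Nat.find hex, Nat.pos_of_ne_zero hk0, Nat.find_min' hex h2,
    kap_of hp hl.u hl.pu (Nat.find_spec hex) (Nat.find_min hex (by omega))⟩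

end Pool.Agent.Lib.MP_b9166b_al.Pt
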