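import Pool.Agent.Lib.MP_b9166b_al.Pt.Gr
import Pool.Agent.Lib.MP_b9166b_al.Pt.Tv
import Pool.Agent.Lib.MP_b9166b_al.Pt.Xl
import Pool.Agent.Lib.MP_b9166b_al.Pt.Rkl

/-!
# MP_b9166b_al, PT: growth in the covers

`Nt c`: `¬ Dg2 c d h 2` for all large `d`.
`grow`. `exists_z` for `c` gives `z, v`; let `n₀` be such that `u^(p^n₀) = 1`. Given `N`, let `S` be the union of the set for `Nt c` and the set of `rank_large` for `z` and
`2 * p^n₀ * finrank V * N`. For `d` with `Ge S`: `El_lift` gives `z' ∈ El` over `(z, v)`, `cop_of`; `û = (u, uc, ud) ∈ Gam2 c d`, `û^(p^n₀) = 1` (`pw_unique`); `growth_pair'`.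
`grow_ω`: the same with `growth_pair`.
`exists_k`: for `c` with `Ge` large (`dim_large` for `8`, `x ∈ S`) there is `k` with `Kap c u k`, `k ≤ p^n₀` (`exists_kap`). Let `k` be the largest number for which there is a `c₀` with
`x ∈ c₀.H`, `8 ≤ finrank`, `Nt c₀`, `Kap c₀ u k`. For `S` take `c` with `Ge (S ∪ {x} ∪ H_{c₀} ∪ ..)`, `Nt c` (`hB`), by `grow` for `c₀`, `N = 0`: `(uc - 1)^(k-1) ≠ 0`; so `Kap c u k'` with
`k' ≥ k`, and `k' ≤ k`.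
-/

set_option autoImplicit false

namespace Pool.Agent.Lib.MP_b9166b_al.Pt

open Module Cvr
open scoped commutatorElement

variable {p : ℕ} {G : Type} [Group G]

/-- natural covers -/
def Nt (c : Cvr p G) : Prop :=
  ∃ S : Finset G, ∀ d : Cvr p G, d.Ge S → ∀ h : c.H ≤ d.H, ¬ Dg2 c d h 2

variable {x u s : G}

/-- a `p`-element over an element of order dividing `p ^ n` -/
theorem grc_pow (hp : p.Prime) (c : Cvr p G) {uc : c.U} (huc : (u, uc) ∈ c.Gam) (hpu : Pw p uc)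
    {n : ℕ} (hn : u ^ p ^ n = 1) : uc ^ p ^ n = 1 := by
  have h2 := c.Gam.pow_mem huc (p ^ n)
  rw [Prod.pow_mk, hn] at h2
  exact pw_unique hp c h2 c.Gam.one_mem (hpu.pow _) Pw.one

/-- the common part of `grow` and `grow_ω` -/
theorem grc_main (hp : p.Prime) (hp2 : p ≠ 2) (hs : IsSimpleGroup G) (hG : ¬ FinLin G)
    {c : Cvr p G} (hc : Nt c) (h8 : 8 ≤ finrank c.F c.V) (M N : ℕ) :
    ∃ S : Finset G, ∀ d : Cvr p G, d.Ge S → ∀ hcd : c.H ≤ d.H, ¬ Dg2 c d hcd 2 ∧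
      ∃ z ∈ (lay2 c d hcd).El, (orderOf z).Coprime p ∧
        M * N < finrank d.F (LinearMap.range (rep2 c d z - 1)) := by
  classical
  obtain ⟨S₀, hS₀⟩ := hc
  obtain ⟨z, v, hz1, hz0, hzp, hzL, hvT⟩ := exists_z hp hp2 c (by omega)
  obtain ⟨S₁, hS₁⟩ := rank_large (p := p) hs hG hz1 (M * N)
  refine ⟨S₀ ∪ S₁, fun d hd hcd => ⟨hS₀ d (hd.mono Finset.subset_union_left) hcd, ?_⟩⟩
  obtain ⟨ω, hω, hgω, haω⟩ := El_lift hp c d hcd hzL hvT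
  refine ⟨ω, hω, ?_, ?_⟩
  · exact cop_of hp c d hcd (by rw [hgω]; exact hzp) (by rw [hgω]; exact hz0)
  · have h1 : (z, ω.1.2.2) ∈ d.Gam := by
      have h2 : (ω.1.1, ω.1.2.2) ∈ d.Gam := ω.2.2
      have h3 : ω.1.1 = z := hgω
      rwa [h3] at h2
    have h4 := hS₁ d (hd.mono Finset.subset_union_right) ω.1.2.2 h1 1
    rw [one_smul] at h4
    exact h4

theorem grow (hp : p.Prime) (hp2 : p ≠ 2) (hs : IsSimpleGroup G) (hG : ¬ FinLin G)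
    (h : XD p x u s) {c : Cvr p G} (hc : Nt c) (h8 : 8 ≤ finrank c.F c.V) (hx : x ∈ c.H) {k : ℕ}
    (hk : Kap c u k) (N : ℕ) : ∃ S : Finset G, ∀ d : Cvr p G, d.Ge S → c.H ≤ d.H →
      ∀ ud : d.U, (u, ud) ∈ d.Gam → Pw p ud →
        N < finrank d.F (LinearMap.range ((ud.val - 1) ^ (k - 1))) := by
  obtain ⟨n₀, hn₀⟩ := h.pu
  obtain ⟨uc, sc, hl⟩ := exists_xl hp h c hx
  obtain ⟨S, hS⟩ := grc_main hp hp2 hs hG hc h8 (2 * p ^ n₀ * finrank c.F c.V) N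
  refine ⟨S, fun d hd hcd ud hud hpd => ?_⟩
  obtain ⟨hD, z, hz, hzp, hlt⟩ := hS d hd hcd
  let w : Gam2 c d := ⟨(u, uc, ud), hl.u, hud⟩
  have hw : w ^ p ^ n₀ = 1 := by
    apply Subtype.ext
    change (u, uc, ud) ^ p ^ n₀ = 1
    rw [Prod.pow_mk, Prod.pow_mk, hn₀, grc_pow hp c hl.u hl.pu hn₀, grc_pow hp d hud hpd hn₀]
    rfl
  have hne : ((lay2 c d hcd).a w - 1) ^ (k - 1) ≠ 0 := (hk uc hl.u hl.pu).2
  have h1 := growth_pair' hp (lay2 c d hcd) (rep2 c d) h8 hD hw hne hz hzp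
  have h2 : 2 * p ^ n₀ * finrank c.F c.V * N <
      2 * p ^ n₀ * finrank c.F c.V *
        finrank d.F (LinearMap.range ((ud.val - 1) ^ (k - 1))) := hlt.trans_le h1
  exact lt_of_mul_lt_mul_left h2 (Nat.zero_le _)

theorem grow_ω (hp : p.Prime) (hp2 : p ≠ 2) (hs : IsSimpleGroup G) (hG : ¬ FinLin G)
    (h : XD p x u s) {c : Cvr p G} (hc : Nt c) (h8 : 8 ≤ finrank c.F c.V) (hx : x ∈ c.H) {k : ℕ}
    (v uc : c.U) (huc : (u, uc) ∈ c.Gam) (hpu : Pw p uc) (hvu : Commute v uc)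
    (hne : (v.val - 1) * (uc.val - 1) ^ (k - 1) ≠ 0) (N : ℕ) :
    ∃ S : Finset G, ∀ d : Cvr p G, d.Ge S → ∀ (hcd : c.H ≤ d.H) (ud : d.U), (u, ud) ∈ d.Gam →
      Pw p ud → ∀ ω ∈ (lay2 c d hcd).El, ω.1.2.1 = v →
        N < finrank d.F (LinearMap.range ((rep2 c d ω - 1) * (ud.val - 1) ^ (k - 1))) := by
  obtain ⟨n₀, hn₀⟩ := h.pu
  obtain ⟨S, hS⟩ := grc_main hp hp2 hs hG hc h8 (2 * p ^ n₀ * finrank c.F c.V) N
  refine ⟨S, fun d hd hcd ud hud hpd ω hω hωv => ?_⟩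
  obtain ⟨hD, z, hz, hzp, hlt⟩ := hS d hd hcd
  let w : Gam2 c d := ⟨(u, uc, ud), huc, hud⟩
  have hw : w ^ p ^ n₀ = 1 := by
    apply Subtype.ext
    change (u, uc, ud) ^ p ^ n₀ = 1
    rw [Prod.pow_mk, Prod.pow_mk, hn₀, grc_pow hp c huc hpu hn₀, grc_pow hp d hud hpd hn₀]
    rfl
  have ha : (lay2 c d hcd).a ω = v.val := congrArg Units.val hωv
  have haw : (lay2 c d hcd).a w = uc.val := rfl
  have hcm : (lay2 c d hcd).a ω * (lay2 c d hcd).a w = (lay2 c d hcd).a w * (lay2 c d hcd).a ω := by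
    rw [ha, haw, ← Units.val_mul, ← Units.val_mul, hvu.eq]
  have hne' : ((lay2 c d hcd).a ω - 1) * ((lay2 c d hcd).a w - 1) ^ (k - 1) ≠ 0 := by
    rw [ha, haw]
    exact hne
  have h1 := growth_pair hp (lay2 c d hcd) (rep2 c d) h8 hD hw hω hcm hne' hz hzp
  have h2 : 2 * p ^ n₀ * finrank c.F c.V * N <
      2 * p ^ n₀ * finrank c.F c.V *
        finrank d.F (LinearMap.range ((rep2 c d ω - 1) * (ud.val - 1) ^ (k - 1))) :=
    hlt.trans_le h1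
  exact lt_of_mul_lt_mul_left h2 (Nat.zero_le _)

theorem exists_k (hp : p.Prime) (hp2 : p ≠ 2) (hs : IsSimpleGroup G) (hG : ¬ FinLin G)
    (h : XD p x u s) (hB : ∀ S : Finset G, ∃ c : Cvr p G, c.Ge S ∧ Nt c) :
    ∃ k, 0 < k ∧ ∀ S : Finset G, ∃ c : Cvr p G, c.Ge S ∧ Nt c ∧ Kap c u k := by
  classical
  obtain ⟨n₀, hn₀⟩ := h.pu
  obtain ⟨S₁, hS₁⟩ := dim_large (p := p) hs hG 8
  -- comparison
  have hle : ∀ (c : Cvr p G), x ∈ c.H → ∀ k k' : ℕ, Kap c u k' →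
      (∀ uc : c.U, (u, uc) ∈ c.Gam → Pw p uc → (uc.val - 1) ^ (k - 1) ≠ 0) → k ≤ k' := by
    intro c hx k k' hk' hne
    obtain ⟨uc, sc, hl⟩ := exists_xl hp h c hx
    by_contra hlt
    push Not at hlt
    apply hne uc hl.u hl.pu
    have h1 := (hk' uc hl.u hl.pu).1
    obtain ⟨m, hm⟩ : ∃ m, k - 1 = k' + m := ⟨k - 1 - k', by omega⟩
    rw [hm, pow_add, h1, zero_mul]
  let P : ℕ → Prop := fun k => ∃ c : Cvr p G, x ∈ c.H ∧ 8 ≤ finrank c.F c.V ∧ Nt c ∧ Kap c u k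
  have hbd : ∀ k, P k → k ≤ p ^ n₀ := by
    rintro k ⟨c, hx, h8, -, hk⟩
    obtain ⟨k', -, h2, h3⟩ := exists_kap hp h hn₀ c hx (by omega)
    exact (hle c hx k k' h3 fun uc h4 h5 => (hk uc h4 h5).2).trans h2
  have hex : ∃ k, 0 < k ∧ P k := by
    obtain ⟨c, hc, hcn⟩ := hB (insert x S₁)
    have hx : x ∈ c.H := (hc x (Finset.mem_insert_self _ _)).1
    have h8 := hS₁ c (hc.mono (Finset.subset_insert _ _))
    obtain ⟨k', h1, -, h3⟩ := exists_kap hp h hn₀ c hx (by omega)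
    exact ⟨k', h1, c, hx, h8.le, hcn, h3⟩
  obtain ⟨k₀, hk₀, hPk₀⟩ := hex
  have hPk := Nat.findGreatest_spec (P := P) (hbd k₀ hPk₀) hPk₀
  have hmax : ∀ k, P k → k ≤ Nat.findGreatest P (p ^ n₀) := fun k hk =>
    Nat.le_findGreatest (hbd k hk) hk
  obtain ⟨k, hkd⟩ : ∃ k, k = Nat.findGreatest P (p ^ n₀) := ⟨_, rfl⟩
  rw [← hkd] at hPk hmax
  refine ⟨k, hk₀.trans_le (hmax k₀ hPk₀), fun S => ?_⟩
  obtain ⟨c₀, hx₀, h8₀, hN₀, hK₀⟩ := hPk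
  obtain ⟨S₂, hS₂⟩ := grow hp hp2 hs hG h hN₀ h8₀ hx₀ hK₀ 0
  have hF : ((c₀.H : Set G)).Finite := Set.finite_coe_iff.1 c₀.fin
  obtain ⟨c, hc, hcn⟩ := hB (insert x (S ∪ (S₁ ∪ (S₂ ∪ hF.toFinset))))
  have hx : x ∈ c.H := (hc x (Finset.mem_insert_self _ _)).1
  have hc1 := hc.mono (Finset.subset_insert _ _)
  have hcS := hc1.mono Finset.subset_union_left
  have hc2 := hc1.mono Finset.subset_union_right
  have hcS1 := hc2.mono Finset.subset_union_left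
  have hc3 := hc2.mono Finset.subset_union_right
  have hcS2 := hc3.mono Finset.subset_union_left
  have hc4 := hc3.mono Finset.subset_union_right
  have hHH : c₀.H ≤ c.H := fun g hg => (hc4 g (hF.mem_toFinset.2 hg)).1
  have h8 := hS₁ c hcS1
  obtain ⟨k', h1, -, h3⟩ := exists_kap hp h hn₀ c hx (by omega)
  have h4 : k ≤ k' := by
    refine hle c hx k k' h3 fun uc h5 h6 h7 => ?_
    have h9 := hS₂ c hcS2 hHH uc h5 h6
    rw [h7, LinearMap.range_zero, finrank_bot] at h9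
    exact lt_irrefl _ h9
  have h5 : k' ≤ k := hmax k' ⟨c, hx, h8.le, hcn, h3⟩
  have h6 : k' = k := le_antisymm h5 h4
  rw [h6] at h3
  exact ⟨c, hcS, hcn, h3⟩

end Pool.Agent.Lib.MP_b9166b_al.Pt
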