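import Pool.Agent.Lib.MP_b9166b_al.Pt.Lf
import Pool.Agent.Lib.MP_b9166b_al.Pt.Grc
import Pool.Agent.Lib.MP_b9166b_al.Ks.LA

/-!
# MP_b9166b_al, PT: the bounded case (Section 8)

`alt4`: there are even permutations of `Fin 17` with `⁅⁅a, b⁆, ⁅c, d⁆⁆ ≠ 1` (the alternating group is perfect and not trivial: `commutator_alternatingGroup_eq_self`, as used in Aq/RqA.lean).
`exists_yg`: a natural cover `c` (with `Kap c u k`, `x ∈ c.H`, `8 ≤ finrank`) with `rank (uc - 1)^(k-1) > orderOf s * orderOf s * 17` (`grow` for some first cover, `exists_k`), a part `P` of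
dimension `> 17` (`exists_parts`, `exists_large_part`), a basis `Fin 17 ⊕ κ` of `P.W`, `Θ`, and `Lifts` (`lift_even`) for the four permutations: `y₁, y₂, g₁, g₂ ∈ G` commuting with `x` with `v`s in `TV`,
`(y₁, v₁) ∈ LL` etc. The iterated commutator of the `v`s acts on `P.j (P.W)` as `⁅⁅a, b⁆, ⁅c, d⁆⁆`, so it is not `1` on the range of `(uc - 1)^(k-1)`.
`no_finLin_bounded`. Let `(K, VK, ρ)` be a faithful finitary representation of the centralizer; `y = ⁅y₁, y₂⁆`, `g = ⁅g₁, g₂⁆`, `r` a prime `> 3 deg (ρ y)`, `≥ 3`, `≠ char K` (`Ks.exists_prime_ne_b`).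
`N = 2 * (4 * r^2) * orderOf s * orderOf s`. Take `d` with `Ge` of the union of the elements of `c.H`, the set of `grow_ω` for `v = ⁅⁅v₁,v₂⁆, ⁅v₃,v₄⁆⁆`, `Nt d`, `Kap d u k` (`hk`). `ω i ∈ El (lay2 c d)` over
`(y₁, v₁)`, .. (`El_lift`); `ω = ⁅⁅ω 1, ω 2⁆, ⁅ω 3, ω 4⁆⁆ = ⁅ω_y, ω_g⁆`; `b, b'` the third components of `ω_y`, `ω_g`; they commute with `sd` (`Xl.comm_s`) and with `ud` (`Xl.comm_u`).
`rank_comm` (with `lift_even` for `d`): `rank ((b b' - b' b) (ud - 1)^(k-1)) ≤ N`, and `rep2 ω - 1 = (b b' - b' b) (b' b)⁻¹`, where `(b' b)⁻¹` commutes with `(ud - 1)^(k-1)`: the same rank.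
Contradiction to `grow_ω`.
-/

set_option autoImplicit false

namespace Pool.Agent.Lib.MP_b9166b_al.Pt

open Module Cvr Equiv Equiv.Perm
open scoped commutatorElement

variable {p : ℕ} {G : Type} [Group G] {x u s : G}

theorem alt4 : ∃ a ∈ alternatingGroup (Fin 17), ∃ b ∈ alternatingGroup (Fin 17),
    ∃ c ∈ alternatingGroup (Fin 17), ∃ d ∈ alternatingGroup (Fin 17),
      (⁅⁅a, b⁆, ⁅c, d⁆⁆ : Perm (Fin 17)) ≠ 1 := by
  have hs : ∀ i j k l : Fin 17, i ≠ j → k ≠ l → swap i j * swap k l ∈ alternatingGroup (Fin 17) := by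
    intro i j k l h h'
    rw [mem_alternatingGroup, map_mul, sign_swap h, sign_swap h']
    rfl
  refine ⟨swap 0 1 * swap 1 2, hs _ _ _ _ (by decide) (by decide),
    swap 2 3 * swap 3 4, hs _ _ _ _ (by decide) (by decide),
    swap 1 2 * swap 2 3, hs _ _ _ _ (by decide) (by decide),
    swap 3 4 * swap 4 0, hs _ _ _ _ (by decide) (by decide), ?_⟩
  intro h
  have h1 := congrArg (fun f : Perm (Fin 17) => (f 0, f 1, f 2, f 3, f 4)) h
  revert h1
  decide +kernel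

/-- `v` induces `x` on `R` -/
private def bygRl {F V : Type} [Field F] [AddCommGroup V] [Module F V] {R : Submodule F V}
    (v : (V →ₗ[F] V)ˣ) (x : R →ₗ[F] R) : Prop :=
  ∀ y : R, v.val (y : V) = ((x y : R) : V)

private theorem bygRl_mul {F V : Type} [Field F] [AddCommGroup V] [Module F V]
    {R : Submodule F V} {v v' : (V →ₗ[F] V)ˣ} {x x' : R →ₗ[F] R} (h : bygRl v x)
    (h' : bygRl v' x') : bygRl (v * v') (x * x') := by
  intro y
  rw [Units.val_mul, Module.End.mul_apply, h' y, h (x' y), Module.End.mul_apply]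

private theorem bygRl_inv {F V : Type} [Field F] [AddCommGroup V] [Module F V]
    {R : Submodule F V} {v : (V →ₗ[F] V)ˣ} {x x' : R →ₗ[F] R} (h : bygRl v x)
    (hx : x * x' = 1) : bygRl v⁻¹ x' := by
  intro y
  have h1 := h (x' y)
  rw [← Module.End.mul_apply, hx, Module.End.one_apply] at h1
  rw [← h1, ← Module.End.mul_apply, Units.inv_mul, Module.End.one_apply]

private theorem bygRl_comm {F V Q : Type} [Field F] [AddCommGroup V] [Module F V] [Group Q]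
    {R : Submodule F V} (X : Q →* (R →ₗ[F] R)) {v v' : (V →ₗ[F] V)ˣ} {a b : Q}
    (h : bygRl v (X a)) (h' : bygRl v' (X b)) : bygRl ⁅v, v'⁆ (X ⁅a, b⁆) := by
  have hi : ∀ a : Q, X a * X a⁻¹ = 1 := fun a => by rw [← map_mul, mul_inv_cancel, map_one]
  rw [commutatorElement_def, commutatorElement_def, map_mul, map_mul, map_mul]
  exact bygRl_mul (bygRl_mul (bygRl_mul h h') (bygRl_inv h (hi a))) (bygRl_inv h' (hi b))

private theorem byg_pow {F V : Type} [Field F] [AddCommGroup V] [Module F V]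
    (T b : V →ₗ[F] V) (h : b * T = T * b) {m : ℕ} {e : F} (he : b ^ m = e • 1) :
    rX T b h ^ m = e • 1 := by
  refine LinearMap.ext fun y => Subtype.ext ?_
  have h1 : ∀ n : ℕ, ((rX T b h ^ n) y : V) = (b ^ n) (y : V) := by
    intro n
    induction n with
    | zero => rfl
    | succ n ih =>
      rw [pow_succ', pow_succ', Module.End.mul_apply, Module.End.mul_apply, rX_apply, ih]
  rw [h1, he]
  rfl

theorem exists_yg (hp : p.Prime) (hp2 : p ≠ 2) (hs : IsSimpleGroup G) (hG : ¬ FinLin G)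
    (h : XD p x u s) {k : ℕ} (hk : 0 < k)
    (hcof : ∀ S : Finset G, ∃ c : Cvr p G, c.Ge S ∧ Nt c ∧ Kap c u k) :
    ∃ (c : Cvr p G) (uc : c.U) (g : Fin 4 → G) (v : Fin 4 → c.U), Nt c ∧ Kap c u k ∧ x ∈ c.H ∧
      8 ≤ finrank c.F c.V ∧ (u, uc) ∈ c.Gam ∧ Pw p uc ∧ (∀ i, Commute (g i) x) ∧
      (∀ i, (g i, v i) ∈ c.LL) ∧ (∀ i, v i ∈ c.TV) ∧
      ((⁅⁅v 0, v 1⁆, ⁅v 2, v 3⁆⁆ : c.U).val - 1) * (uc.val - 1) ^ (k - 1) ≠ 0 := by
  classical
  obtain ⟨S8, hS8⟩ := dim_large (p := p) hs hG 7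
  obtain ⟨c₁, hc₁, hNt₁, hKap₁⟩ := hcof (insert x S8)
  have hx₁ : x ∈ c₁.H := (hc₁ x (Finset.mem_insert_self _ _)).1
  have h8₁ : 8 ≤ finrank c₁.F c₁.V := hS8 c₁ (hc₁.mono (Finset.subset_insert _ _))
  obtain ⟨S₂, hS₂⟩ := grow hp hp2 hs hG h hNt₁ h8₁ hx₁ hKap₁ (orderOf s * orderOf s * 17)
  have hHfin : (c₁.H : Set G).Finite := Set.finite_coe_iff.1 c₁.fin
  obtain ⟨c, hc, hNt, hKap⟩ := hcof (insert x (S8 ∪ (S₂ ∪ hHfin.toFinset)))
  have hcx : x ∈ c.H := (hc x (Finset.mem_insert_self _ _)).1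
  have hc' := hc.mono (Finset.subset_insert _ _)
  have h8 : 8 ≤ finrank c.F c.V := hS8 c (hc'.mono Finset.subset_union_left)
  have hc'' := hc'.mono Finset.subset_union_right
  have hH : c₁.H ≤ c.H := fun g hg =>
    (hc'' g (Finset.mem_union_right _ (hHfin.mem_toFinset.2 hg))).1
  obtain ⟨uc, sc, hl⟩ := exists_xl hp h c hcx
  have hrk := hS₂ c (hc''.mono Finset.subset_union_left) hH uc hl.u hl.pu
  have hT : sc.val * (uc.val - 1) ^ (k - 1) = (uc.val - 1) ^ (k - 1) * sc.val := by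
    have h1 : Commute sc.val uc.val := (congrArg Units.val (hl.comm hp h).symm.eq :)
    exact (Commute.pow_right (h1.sub_right (Commute.one_right _)) _).eq
  have hL := lift_even hp hp2 h hk hNt
    (fun S => by
      obtain ⟨d, h1, -, h2⟩ := hcof S
      exact ⟨d, h1, h2⟩) hcx hl hKap hT
  obtain ⟨T, hTd⟩ : ∃ T, T = (uc.val - 1) ^ (k - 1) := ⟨_, rfl⟩
  rw [← hTd] at hrk
  have hT' : sc.val * T = T * sc.val := by rw [hTd]; exact hT
  have hL' : Lifts c x uc sc T hT' := by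
    subst hTd
    exact hL
  obtain ⟨e, he0, he⟩ := hl.pow h
  have hm : ((orderOf s : ℕ) : c.F) ≠ 0 := by
    rw [Ne, CharP.cast_eq_zero_iff c.F p]
    intro hd
    have h1 := Nat.Coprime.eq_one_of_dvd h.ps.symm hd
    exact hp.one_lt.ne' h1
  obtain ⟨n, P, hn, hP⟩ := Ks.exists_parts (rX T sc.val hT') hm he0 (byg_pow T sc.val hT' he)
  obtain ⟨i₀, hi₀⟩ := Ks.exists_large_part P hn hP hrk
  obtain ⟨w₀, hw₀⟩ := exists_linearIndependent_of_le_finrank (R := (P i₀).E) (M := (P i₀).W)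
    (n := 17) hi₀.le
  let w := Module.Basis.sumExtend hw₀
  obtain ⟨Θ, hΘ1, hΘ2⟩ := Ks.exists_perm_rep w w.linearIndependent
  have hlift : ∀ π ∈ alternatingGroup (Fin 17), ∃ (g : G) (v : c.U), Commute g x ∧
      (g, v) ∈ c.LL ∧ v ∈ c.TV ∧ bygRl v ((P i₀).X0 (Θ π).val) := by
    intro π hπ
    obtain ⟨g, v, h1, h2, h3, -, -, h4⟩ := hL' _ (P i₀) (Fin 17) _ inferInstance inferInstance
      (by rw [Fintype.card_fin]) w Θ hΘ1 hΘ2 π hπ
    exact ⟨g, v, h1, h2, h3, h4⟩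
  obtain ⟨a, ha, b, hb, c', hc', d, hd, hne⟩ := alt4
  obtain ⟨g1, v1, h11, h12, h13, h14⟩ := hlift a ha
  obtain ⟨g2, v2, h21, h22, h23, h24⟩ := hlift b hb
  obtain ⟨g3, v3, h31, h32, h33, h34⟩ := hlift c' hc'
  obtain ⟨g4, v4, h41, h42, h43, h44⟩ := hlift d hd
  refine ⟨c, uc, ![g1, g2, g3, g4], ![v1, v2, v3, v4], hNt, hKap, hcx, h8, hl.u, hl.pu, ?_, ?_, ?_,
    ?_⟩
  · intro i
    fin_cases i
    · exact h11
    · exact h21
    · exact h31
    · exact h41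
  · intro i
    fin_cases i
    · exact h12
    · exact h22
    · exact h32
    · exact h42
  · intro i
    fin_cases i
    · exact h13
    · exact h23
    · exact h33
    · exact h43
  · rw [← hTd]
    intro h0
    let X : Perm (Fin 17) →* (LinearMap.range T →ₗ[c.F] LinearMap.range T) :=
      (P i₀).X0Hom.comp ((Units.coeHom _).comp Θ)
    have hX : bygRl ⁅⁅v1, v2⁆, ⁅v3, v4⁆⁆ (X ⁅⁅a, b⁆, ⁅c', d⁆⁆) :=
      bygRl_comm X (bygRl_comm X h14 h24) (bygRl_comm X h34 h44)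
    apply hne
    refine Equiv.ext fun i => ?_
    obtain ⟨z, hz⟩ := ((P i₀).j (w (Sum.inl i))).2
    have h1 := hX ((P i₀).j (w (Sum.inl i)))
    have h2 := LinearMap.congr_fun h0 z
    have h3 : (⁅⁅v1, v2⁆, ⁅v3, v4⁆⁆ : c.U).val (T z) - T z = 0 := h2
    rw [hz] at h3
    rw [h1, sub_eq_zero] at h3
    have h4 : X ⁅⁅a, b⁆, ⁅c', d⁆⁆ ((P i₀).j (w (Sum.inl i))) = (P i₀).j (w (Sum.inl i)) :=
      Subtype.ext h3
    have h5 : X ⁅⁅a, b⁆, ⁅c', d⁆⁆ ((P i₀).j (w (Sum.inl i))) =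
        (P i₀).j ((Θ ⁅⁅a, b⁆, ⁅c', d⁆⁆).val (w (Sum.inl i))) := (P i₀).X0_j _ _
    rw [h5, hΘ1] at h4
    have h6 := w.injective ((P i₀).j_inj h4)
    exact Sum.inl_injective h6

end Pool.Agent.Lib.MP_b9166b_al.Pt
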