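import Pool.Agent.Lib.MP_b9166b_al.Pt.Crk
import Pool.Agent.Lib.MP_b9166b_al.Pt.Byg
import Pool.Agent.Lib.MP_b9166b_al.Ks.Bounded

/-!
# MP_b9166b_al, PT: the bounded case (Section 8)

`alt4`: there are even permutations of `Fin 17` with `⁅⁅a, b⁆, ⁅c, d⁆⁆ ≠ 1` (the alternating group is perfect and not trivial: `commutator_alternatingGroup_eq_self`, as used in Aq/RqA.lean).
`exists_yg`: a natural cover `c` (with `Kap c u k`, `x ∈ c.H`, `8 ≤ finrank`) with `rank (uc - 1)^(k-1) > orderOf s * orderOf s * 17` (`grow` for some first cover, `exists_k`), a part `P` of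
dimension `> 17` (`exists_parts`, `exists_large_part`), a basis `Fin 17 ⊕ κ` of `P.W`, `Θ`, and `Lifts` (`lift_even`) for the four permutations: `y₁, y₂, g₁, g₂ ∈ G` commuting with `x` with `v`s in `TV`,
`(y₁, v₁) ∈ LL` etc. The iterated commutator of the `v`s acts on `P.j (P.W)` as `⁅⁅a, b⁆, ⁅c, d⁆⁆`, so it is not `1` on the range of `(uc - 1)^(k-1)`.
`no_finLin_bounded`. Let `(K, VK, ρ)` be a faithful finitary representation of the centralizer; `y = ⁅y₁, y₂⁆`, `g = ⁅g₁, g₂⁆`, `r` a prime `> 3 deg (ρ y)`, `≥ 3`, `≠ char K` (`Ks.exists_prime_ne_b`).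
`N = 2 * (4 * r^2) * orderOf s * orderOf s`. Take `d` with `Ge` of the union of the elements of `c.H`, the set of `grow_ω` for `v = ⁅⁅v₁,v₂⁆, ⁅v₃,v₄⁆⁆`, `Nt d`, `Kap d u k` (`hk`). `ω i ∈ El (lay2 c d)` over
`(y₁, v₁)`, .. (`El_lift`); `ω = ⁅⁅ω 1, ω 2⁆, ⁅ω 3, ω 4⁆⁆ = ⁅ω_y, ω_g⁆`; `b, b'` the third components of `ω_y`, `ω_g`; they commute with `sd` (`Xl.comm_s`) and with `ud` (`Xl.comm_u`).
`rank_comm` (with `lift_even` for `d`): `rank ((b b' - b' b) (ud - 1)^(k-1)) ≤ N`, and `rep2 ω - 1 = (b b' - b' b) (b' b)⁻¹`, where `(b' b)⁻¹` commutes with `(ud - 1)^(k-1)`: the same rank.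
Contradiction to `grow_ω`.
-/

set_option autoImplicit false

namespace Pool.Agent.Lib.MP_b9166b_al.Pt

open Module Cvr Equiv Equiv.Perm
open scoped commutatorElement

variable {p : ℕ} {G : Type} [Group G] {x u s : G}

theorem no_finLin_bounded (hp : p.Prime) (hp2 : p ≠ 2) (hs : IsSimpleGroup G) (hG : ¬ FinLin G)
    (h : XD p x u s) (hB : ∀ S : Finset G, ∃ c : Cvr p G, c.Ge S ∧ Nt c) :
    ¬ FinLin (Subgroup.centralizer ({x} : Set G)) := by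
  classical
  rintro ⟨K, fK, VK, gK, mK, -, ρ, hρ, hfin⟩
  obtain ⟨k, hk, hcof⟩ := exists_k hp hp2 hs hG h hB
  obtain ⟨c, uc, g, v, hNt, hKap, hxc, h8, huc, hpu, hgx, hgL, hvT, hne⟩ :=
    exists_yg hp hp2 hs hG h hk hcof
  have hcof' : ∀ S : Finset G, ∃ d : Cvr p G, d.Ge S ∧ Kap d u k := fun S => by
    obtain ⟨d, h1, -, h2⟩ := hcof S
    exact ⟨d, h1, h2⟩
  -- the lifts in `c`
  have hsc : s ∈ c.H := by
    obtain ⟨i, hi⟩ := h.hs
    rw [hi]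
    exact c.H.pow_mem hxc i
  obtain ⟨sc, hscG⟩ := c.onto s hsc
  have hlc : Xl c u s uc sc := ⟨huc, hpu, hscG⟩
  have hvu : ∀ i, Commute (v i) uc := fun i => Xl.comm_u hp h hlc (hgx i) (c.le (hgL i))
  have hcc : ∀ {a b z : c.U}, Commute a z → Commute b z → Commute ⁅a, b⁆ z := by
    intro a b z ha hb
    rw [commutatorElement_def]
    exact ((ha.mul_left hb).mul_left ha.inv_left).mul_left hb.inv_left
  have hvu' : Commute (⁅⁅v 0, v 1⁆, ⁅v 2, v 3⁆⁆ : c.U) uc :=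
    hcc (hcc (hvu 0) (hvu 1)) (hcc (hvu 2) (hvu 3))
  -- the elements of the centralizer
  let Gi : Fin 4 → Subgroup.centralizer ({x} : Set G) := fun i =>
    ⟨g i, Subgroup.mem_centralizer_singleton_iff.2 (hgx i).eq⟩
  obtain ⟨y, hyd⟩ : ∃ y : Subgroup.centralizer ({x} : Set G), y = ⁅Gi 0, Gi 1⁆ := ⟨_, rfl⟩
  obtain ⟨y', hyd'⟩ : ∃ y' : Subgroup.centralizer ({x} : Set G), y' = ⁅Gi 2, Gi 3⁆ := ⟨_, rfl⟩
  have hy1 : (y : G) = ⁅g 0, g 1⁆ := by rw [hyd]; rfl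
  have hy1' : (y' : G) = ⁅g 2, g 3⁆ := by rw [hyd']; rfl
  obtain ⟨r, hrp, hrd, hrK⟩ := Ks.exists_prime_ne_b K
    (3 * finrank K (LinearMap.range (1 - (ρ y).val)) + 3)
  have hrF : Fact r.Prime := ⟨hrp⟩
  obtain ⟨S, hS⟩ := grow_ω hp hp2 hs hG h hNt h8 hxc (k := k) (⁅⁅v 0, v 1⁆, ⁅v 2, v 3⁆⁆ : c.U) uc huc
    hpu hvu' hne (2 * (4 * r ^ 2) * orderOf s * orderOf s)
  have hcf : ((c.H : Set G)).Finite := c.fin
  obtain ⟨d, hdG, hdN, hdK⟩ := hcof (S ∪ hcf.toFinset)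
  have hcd : c.H ≤ d.H := fun a ha =>
    (hdG a (Finset.mem_union_right _ (hcf.mem_toFinset.2 ha))).1
  obtain ⟨ud, sd, hld⟩ := exists_xl hp h d (hcd hxc)
  have hT : sd.val * (ud.val - 1) ^ (k - 1) = (ud.val - 1) ^ (k - 1) * sd.val := by
    have h1 : Commute sd.val ud.val := congrArg Units.val (Xl.comm hp h hld).symm.eq
    exact ((h1.sub_right (Commute.one_right sd.val)).pow_right (k - 1)).eq
  have hL := lift_even hp hp2 h hk hdN hcof' (hcd hxc) hld hdK hT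
  -- the lifts to `d`
  choose ω hωE hωg hωa using fun i => El_lift hp c d hcd (hgL i) (hvT i)
  have hωv : ∀ i, (ω i).1.2.1 = v i := fun i => Units.ext (hωa i)
  obtain ⟨Ω, hΩ⟩ : ∃ Ω, Ω = ⁅⁅ω 0, ω 1⁆, ⁅ω 2, ω 3⁆⁆ := ⟨_, rfl⟩
  have hEc : ∀ {a b : Gam2 c d}, a ∈ (lay2 c d hcd).El → b ∈ (lay2 c d hcd).El →
      ⁅a, b⁆ ∈ (lay2 c d hcd).El := by
    intro a b ha hb
    rw [commutatorElement_def]
    exact mul_mem (mul_mem (mul_mem ha hb) (inv_mem ha)) (inv_mem hb)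
  have hΩE : Ω ∈ (lay2 c d hcd).El := by
    rw [hΩ]
    exact hEc (hEc (hωE 0) (hωE 1)) (hEc (hωE 2) (hωE 3))
  have hΩv : Ω.1.2.1 = ⁅⁅v 0, v 1⁆, ⁅v 2, v 3⁆⁆ := by
    rw [hΩ, ← hωv, ← hωv, ← hωv, ← hωv]
    rfl
  have hlarge := hS d (hdG.mono Finset.subset_union_left) hcd ud hld.u hld.pu Ω hΩE hΩv
  obtain ⟨b, hbd⟩ : ∃ b : d.U, b = ⁅(ω 0).1.2.2, (ω 1).1.2.2⁆ := ⟨_, rfl⟩
  obtain ⟨b', hbd'⟩ : ∃ b' : d.U, b' = ⁅(ω 2).1.2.2, (ω 3).1.2.2⁆ := ⟨_, rfl⟩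
  have hωG : ∀ i, (g i, (ω i).1.2.2) ∈ d.Gam := by
    intro i
    have h1 := (ω i).2.2
    have h2 : (ω i).1.1 = g i := hωg i
    rw [h2] at h1
    exact h1
  have hGc : ∀ {a a' : G} {w w' : d.U}, (a, w) ∈ d.Gam → (a', w') ∈ d.Gam →
      (⁅a, a'⁆, ⁅w, w'⁆) ∈ d.Gam := by
    intro a a' w w' ha ha'
    exact mul_mem (mul_mem (mul_mem ha ha') (inv_mem ha)) (inv_mem ha')
  have hyb : ((y : G), b) ∈ d.Gam := by
    rw [hy1, hbd]
    exact hGc (hωG 0) (hωG 1)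
  have hyb' : ((y' : G), b') ∈ d.Gam := by
    rw [hy1', hbd']
    exact hGc (hωG 2) (hωG 3)
  have hbs : Commute b sd := by
    rw [hbd]
    exact Xl.comm_s h hld (hgx 0) (hgx 1) (hωG 0) (hωG 1)
  have hbs' : Commute b' sd := by
    rw [hbd']
    exact Xl.comm_s h hld (hgx 2) (hgx 3) (hωG 2) (hωG 3)
  have hsmall := rank_comm hp h hld hT hL ρ hρ hyb hyb' hbs hbs' hrK
    (d := finrank K (LinearMap.range (1 - (ρ y).val))) ⟨hfin y, le_rfl⟩ (by omega) (by omega)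
  refine absurd (hlarge.trans_le ?_) (not_lt.2 hsmall)
  have hyx : Commute (y : G) x := Subgroup.mem_centralizer_singleton_iff.1 y.2
  have hyx' : Commute (y' : G) x := Subgroup.mem_centralizer_singleton_iff.1 y'.2
  have hcT : Commute ((b⁻¹).val * (b'⁻¹).val) ((ud.val - 1) ^ (k - 1)) := by
    have h1 : Commute (b⁻¹ * b'⁻¹) ud :=
      (Xl.comm_u hp h hld hyx hyb).inv_left.mul_left (Xl.comm_u hp h hld hyx' hyb').inv_left
    have h2 : Commute ((b⁻¹).val * (b'⁻¹).val) ud.val := by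
      have h3 := congrArg Units.val h1.eq
      rw [Units.val_mul, Units.val_mul, Units.val_mul] at h3
      exact h3
    exact (h2.sub_right (Commute.one_right _)).pow_right (k - 1)
  have hrep : rep2 c d Ω = b.val * b'.val * ((b⁻¹).val * (b'⁻¹).val) := by
    have h1 : rep2 c d Ω = (⁅b, b'⁆ : d.U).val := by
      rw [hΩ, hbd, hbd']
      rfl
    rw [h1, commutatorElement_def]
    simp only [Units.val_mul, mul_assoc]
  have h6 : b'.val * b.val * ((b⁻¹).val * (b'⁻¹).val) = 1 := by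
    rw [mul_assoc, ← mul_assoc b.val, Units.mul_inv, one_mul, Units.mul_inv]
  have h7 : (rep2 c d Ω - 1) * (ud.val - 1) ^ (k - 1) =
      ((b.val * b'.val - b'.val * b.val) * (ud.val - 1) ^ (k - 1)) *
        ((b⁻¹).val * (b'⁻¹).val) := by
    rw [mul_assoc (b.val * b'.val - b'.val * b.val), ← hcT.eq, ← mul_assoc, hrep,
      sub_mul (b.val * b'.val), h6]
  rw [h7]
  exact Submodule.finrank_mono (LinearMap.range_comp_le_range _ _)

end Pool.Agent.Lib.MP_b9166b_al.Pt
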