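import Mathlib

/-!
# MP_b9166b_al, PT: choice of vectors and functionals

Proof of `exists_pair`. The common kernel `U` of the `f j` has dimension `≥ finrank V - b > a`, so `U` is
not contained in the span of the `v i`; take `w` in `U`, not in the span, and a functional `χ` which
vanishes on the span and is `1` at `w`.
-/

set_option autoImplicit false

namespace Pool.Agent.Lib.MP_b9166b_al.Pt

open Module

variable {F V : Type} [Field F] [AddCommGroup V] [Module F V]

/-- a vector `w` killed by the `f j` and a functional `χ` killing the `v i` with `χ w = 1` -/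
theorem exists_pair [FiniteDimensional F V] (v : List V) (f : List (Dual F V))
    (h : v.length + f.length < finrank F V) :
    ∃ (w : V) (χ : Dual F V), χ w = 1 ∧ (∀ x ∈ v, χ x = 0) ∧ ∀ φ ∈ f, φ w = 0 := by
  classical
  let Φ : V →ₗ[F] (Fin f.length → F) := LinearMap.pi fun i => f.get i
  have h1 : finrank F (LinearMap.range Φ) + finrank F (LinearMap.ker Φ) = finrank F V :=
    LinearMap.finrank_range_add_finrank_ker Φ
  have h2 : finrank F (LinearMap.range Φ) ≤ f.length := by
    refine (Submodule.finrank_le _).trans (le_of_eq ?_)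
    rw [Module.finrank_fintype_fun_eq_card, Fintype.card_fin]
  let S : Submodule F V := Submodule.span F (v.toFinset : Set V)
  have h3 : finrank F S ≤ v.length :=
    (finrank_span_finset_le_card v.toFinset).trans v.toFinset_card_le
  have h4 : ¬ LinearMap.ker Φ ≤ S := fun hle => by
    have h5 := Submodule.finrank_mono hle
    omega
  obtain ⟨w, hwΦ, hwS⟩ := SetLike.not_le_iff_exists.1 h4
  obtain ⟨χ, hχw, hχS⟩ := Submodule.exists_dual_map_eq_bot_of_notMem hwS inferInstance
  refine ⟨w, (χ w)⁻¹ • χ, ?_, ?_, ?_⟩
  · rw [LinearMap.smul_apply, smul_eq_mul, inv_mul_cancel₀ hχw]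
  · intro x hx
    have hxS : x ∈ S := Submodule.subset_span (by simpa using hx)
    have h6 : χ x ∈ S.map χ := Submodule.mem_map_of_mem hxS
    rw [hχS, Submodule.mem_bot] at h6
    rw [LinearMap.smul_apply, h6, smul_zero]
  · intro φ hφ
    obtain ⟨i, hi⟩ := List.get_of_mem hφ
    have h7 : Φ w i = 0 := by
      rw [LinearMap.mem_ker.1 hwΦ]
      rfl
    rw [← hi]
    exact h7

end Pool.Agent.Lib.MP_b9166b_al.Pt
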