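import Pool.Agent.Lib.MP_b9166b_al.Pt.Crp

/-!
# MP_b9166b_al, PT: the core (Section 8)

`exists_perm_basis`: complete an independent family `w` to a basis (`Module.Basis.sumExtend`), `Θ π` permutes the first part and fixes the rest (see `Ks.exists_perm_rep` in Ks/LA.lean).
`core_pt`: as `Ks.core` (Ks/Core.lean), with `T = (uc - 1)^(k-1)`, `V` replaced by `X = range T` and `a_x` by `rX T sc`; `Rel g π := ∃ b, (g, b) ∈ c.Gam ∧ b` commutes with `T` and
`b (P.j (w (inl (inl i)))) = P.j (w (inl (inl (π i))))` for all `i`. The family `w : (ι ⊕ ι) ⊕ (ι ⊕ ι) → P.W`, `ι = ZMod r × ZMod r`, is independent; use a basis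
`(ι ⊕ ι) ⊕ ((ι ⊕ ι) ⊕ κ)` and `Lifts` for the even permutations `⁅A π, sw⁆` of `ι ⊕ ι` (`2 r² ≥ 17` as `r ≥ 3`). `Rel 1 π → π = 1`: `b` is a scalar (`c.scal`).
`rank_comm`: `exists_parts` for `rX T sc` (`m = orderOf s`), `core_pt` for every part, `Ks.finrank_comm_le` for `rX T b`, `rX T b'`.
-/

set_option autoImplicit false

namespace Pool.Agent.Lib.MP_b9166b_al.Pt

open Module Cvr Equiv Equiv.Perm Ks

variable {p : ℕ} {G : Type} [Group G] {x u s : G}

/-- the commutator of two elements has bounded rank on `X` -/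
theorem rank_comm (hp : p.Prime) (h : XD p x u s) {c : Cvr p G} {uc sc : c.U}
    (hl : Xl c u s uc sc) {k : ℕ}
    (hT : sc.val * (uc.val - 1) ^ (k - 1) = (uc.val - 1) ^ (k - 1) * sc.val)
    (hL : Lifts c x uc sc ((uc.val - 1) ^ (k - 1)) hT) {K VK : Type} [Field K]
    [AddCommGroup VK] [Module K VK]
    (ρ : Subgroup.centralizer ({x} : Set G) →* (VK →ₗ[K] VK)ˣ) (hρ : Function.Injective ρ)
    {y g : Subgroup.centralizer ({x} : Set G)} {b b' : c.U} (hy : ((y : G), b) ∈ c.Gam)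
    (hg : ((g : G), b') ∈ c.Gam) (hys : Commute b sc) (hgs : Commute b' sc) {d r : ℕ}
    [Fact r.Prime] (hr : (r : K) ≠ 0) (hd : Deg (ρ y).val d) (hdr : 3 * d < r) (h3 : 3 ≤ r) :
    finrank c.F (LinearMap.range ((b.val * b'.val - b'.val * b.val) *
      (uc.val - 1) ^ (k - 1))) ≤ 2 * (4 * r ^ 2) * orderOf s * orderOf s := by
  classical
  have hyx : Commute (y : G) x := Subgroup.mem_centralizer_singleton_iff.1 y.2
  have hgx : Commute (g : G) x := Subgroup.mem_centralizer_singleton_iff.1 g.2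
  have hcT : ∀ b : c.U, Commute b uc →
      b.val * (uc.val - 1) ^ (k - 1) = (uc.val - 1) ^ (k - 1) * b.val := by
    intro b hb
    have h1 : Commute b.val uc.val := congrArg Units.val hb.eq
    exact ((h1.sub_right (Commute.one_right b.val)).pow_right (k - 1)).eq
  have hbT := hcT b (Xl.comm_u hp h hl hyx hy)
  have hbT' := hcT b' (Xl.comm_u hp h hl hgx hg)
  have hm : ((orderOf s : ℕ) : c.F) ≠ 0 := by
    intro h0
    rw [CharP.cast_eq_zero_iff c.F p] at h0
    exact hp.one_lt.ne' (Nat.eq_one_of_dvd_coprimes h.ps h0 (dvd_refl p))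
  obtain ⟨e, he, hse⟩ := hl.pow h
  have hpw : ∀ (n : ℕ) (z : LinearMap.range ((uc.val - 1) ^ (k - 1))),
      (((rX ((uc.val - 1) ^ (k - 1)) sc.val hT) ^ n) z : c.V) = (sc.val ^ n) z := by
    intro n z
    induction n with
    | zero => rw [pow_zero, pow_zero]; rfl
    | succ n ih => rw [pow_succ', pow_succ', Module.End.mul_apply, Module.End.mul_apply, rX_apply, ih]
  have hae : (rX ((uc.val - 1) ^ (k - 1)) sc.val hT) ^ orderOf s = e • 1 := by
    refine LinearMap.ext fun z => Subtype.ext ?_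
    rw [hpw, hse]
    rfl
  obtain ⟨n, P, hn, hP⟩ := exists_parts (rX ((uc.val - 1) ^ (k - 1)) sc.val hT) hm he hae
  have hcm : ∀ (b : c.U) (hb : b.val * (uc.val - 1) ^ (k - 1) = (uc.val - 1) ^ (k - 1) * b.val),
      Commute b sc → Commute (rX ((uc.val - 1) ^ (k - 1)) b.val hb)
        (rX ((uc.val - 1) ^ (k - 1)) sc.val hT) := by
    intro b hb hbs
    refine LinearMap.ext fun z => Subtype.ext ?_
    rw [Module.End.mul_apply, Module.End.mul_apply, rX_apply, rX_apply, rX_apply, rX_apply]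
    exact LinearMap.congr_fun (congrArg Units.val hbs.eq) (z : c.V)
  have hmain := finrank_comm_le P hn hP (B := 4 * r ^ 2)
    (rX ((uc.val - 1) ^ (k - 1)) b.val hbT) (rX ((uc.val - 1) ^ (k - 1)) b'.val hbT')
    (hcm b hbT hys) (hcm b' hbT' hgs)
    (fun i w hw => core_pt hp h hl hT hL ρ hρ hy hys hbT hr hd hdr h3 (P i) w hw)
  refine le_trans ?_ hmain
  have h5 : (b.val * b'.val - b'.val * b.val) * (uc.val - 1) ^ (k - 1) =
      (LinearMap.range ((uc.val - 1) ^ (k - 1))).subtype ∘ₗ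
        ((rX ((uc.val - 1) ^ (k - 1)) b.val hbT * rX ((uc.val - 1) ^ (k - 1)) b'.val hbT' -
          rX ((uc.val - 1) ^ (k - 1)) b'.val hbT' * rX ((uc.val - 1) ^ (k - 1)) b.val hbT) ∘ₗ
          ((uc.val - 1) ^ (k - 1)).rangeRestrict) := rfl
  rw [h5, LinearMap.range_comp]
  exact (Submodule.finrank_map_le _ _).trans
    (Submodule.finrank_mono (LinearMap.range_comp_le_range _ _))

end Pool.Agent.Lib.MP_b9166b_al.Pt
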