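import Pool.Agent.Lib.MP_b9166b_al.Pt.Lf
import Pool.Agent.Lib.MP_b9166b_al.Ks.Core

/-!
# MP_b9166b_al, PT: the core (Section 8)

`exists_perm_basis`: complete an independent family `w` to a basis (`Module.Basis.sumExtend`), `Θ π` permutes the first part and fixes the rest (see `Ks.exists_perm_rep` in Ks/LA.lean).
`core_pt`: as `Ks.core` (Ks/Core.lean), with `T = (uc - 1)^(k-1)`, `V` replaced by `X = range T` and `a_x` by `rX T sc`; `Rel g π := ∃ b, (g, b) ∈ c.Gam ∧ b` commutes with `T` and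
`b (P.j (w (inl (inl i)))) = P.j (w (inl (inl (π i))))` for all `i`. The family `w : (ι ⊕ ι) ⊕ (ι ⊕ ι) → P.W`, `ι = ZMod r × ZMod r`, is independent; use a basis
`(ι ⊕ ι) ⊕ ((ι ⊕ ι) ⊕ κ)` and `Lifts` for the even permutations `⁅A π, sw⁆` of `ι ⊕ ι` (`2 r² ≥ 17` as `r ≥ 3`). `Rel 1 π → π = 1`: `b` is a scalar (`c.scal`).
`rank_comm`: `exists_parts` for `rX T sc` (`m = orderOf s`), `core_pt` for every part, `Ks.finrank_comm_le` for `rX T b`, `rX T b'`.
-/

set_option autoImplicit false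

namespace Pool.Agent.Lib.MP_b9166b_al.Pt

open Module Cvr Equiv Equiv.Perm Ks
open scoped commutatorElement

theorem crp_inl {E W ι : Type} [Field E] [AddCommGroup W] [Module E W]
    (w : ι → W) (hw : LinearIndependent E w) (i : ι) :
    Module.Basis.sumExtend hw (Sum.inl i) = w i := by
  rw [Module.Basis.sumExtend, Module.Basis.reindex_apply, Module.Basis.extend_apply_self]
  classical
  exact congrArg Subtype.val
    (Equiv.Set.sumDiffSubset_apply_inl (hw.linearIndepOn_id.subset_extend (Set.subset_univ _))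
      ⟨w i, ⟨i, rfl⟩⟩)

theorem exists_perm_basis {E W ι κ : Type} [Field E] [AddCommGroup W] [Module E W]
    (w : ι ⊕ κ → W) (hw : LinearIndependent E w) :
    ∃ (κ' : Type) (b : Basis (ι ⊕ (κ ⊕ κ')) E W) (Θ : Perm ι →* (W →ₗ[E] W)ˣ),
      (∀ i, b (Sum.inl i) = w (Sum.inl i)) ∧ (∀ j, b (Sum.inr (Sum.inl j)) = w (Sum.inr j)) ∧
      (∀ π i, (Θ π).val (b (Sum.inl i)) = b (Sum.inl (π i))) ∧
      ∀ π j, (Θ π).val (b (Sum.inr j)) = b (Sum.inr j) := by
  obtain ⟨b, hb⟩ : ∃ b : Basis (ι ⊕ (κ ⊕ Module.Basis.sumExtendIndex hw)) E W,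
      b = (Module.Basis.sumExtend hw).reindex (Equiv.sumAssoc ι κ _) := ⟨_, rfl⟩
  have hb1 : ∀ i, b (Sum.inl i) = w (Sum.inl i) := by
    intro i
    rw [hb, Module.Basis.reindex_apply]
    exact crp_inl w hw (Sum.inl i)
  have hb2 : ∀ j, b (Sum.inr (Sum.inl j)) = w (Sum.inr j) := by
    intro j
    rw [hb, Module.Basis.reindex_apply]
    exact crp_inl w hw (Sum.inr j)
  let F : Equiv.Perm ι →* (W →ₗ[E] W) :=
    { toFun := fun π => b.constr ℕ fun x => b (Sum.map π id x)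
      map_one' := by
        refine b.ext fun x => ?_
        rw [Module.Basis.constr_basis]
        rcases x with x | x <;> rfl
      map_mul' := fun π ρ => by
        refine b.ext fun x => ?_
        rw [Module.End.mul_apply, Module.Basis.constr_basis, Module.Basis.constr_basis,
          Module.Basis.constr_basis]
        rcases x with x | x <;> rfl }
  have hF : ∀ π x, F π (b x) = b (Sum.map π id x) := fun π x =>
    Module.Basis.constr_basis _ _ _ _
  refine ⟨_, b, F.toHomUnits, hb1, hb2, fun π i => ?_, fun π j => ?_⟩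
  · rw [MonoidHom.coe_toHomUnits, hF]
    rfl
  · rw [MonoidHom.coe_toHomUnits, hF]
    rfl

variable {p : ℕ} {G : Type} [Group G] {x u s : G}

theorem core_pt (hp : p.Prime) (h : XD p x u s) {c : Cvr p G} {uc sc : c.U}
    (hl : Xl c u s uc sc) {k : ℕ}
    (hT : sc.val * (uc.val - 1) ^ (k - 1) = (uc.val - 1) ^ (k - 1) * sc.val)
    (hL : Lifts c x uc sc ((uc.val - 1) ^ (k - 1)) hT) {K VK : Type} [Field K]
    [AddCommGroup VK] [Module K VK]
    (ρ : Subgroup.centralizer ({x} : Set G) →* (VK →ₗ[K] VK)ˣ) (hρ : Function.Injective ρ)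
    {y : Subgroup.centralizer ({x} : Set G)} {b : c.U} (hy : ((y : G), b) ∈ c.Gam)
    (hys : Commute b sc)
    (hbT : b.val * (uc.val - 1) ^ (k - 1) = (uc.val - 1) ^ (k - 1) * b.val) {d r : ℕ}
    [Fact r.Prime] (hr : (r : K) ≠ 0) (hd : Deg (ρ y).val d) (hdr : 3 * d < r) (h3 : 3 ≤ r) {m : ℕ}
    (P : Part c.F (LinearMap.range ((uc.val - 1) ^ (k - 1)))
      (rX ((uc.val - 1) ^ (k - 1)) sc.val hT) m) (w : P.W →ₗ[P.E] P.W)
    (hw : ∀ z, rX ((uc.val - 1) ^ (k - 1)) b.val hbT (P.j z) = P.j (w z)) :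
    finrank P.E P.W ≤ 4 * r ^ 2 ∨
      ∃ e : P.E, finrank P.E (LinearMap.range (w - e • 1)) ≤ 4 * r ^ 2 := by
  classical
  by_contra hcon
  push Not at hcon
  obtain ⟨hc1, hc2⟩ := hcon
  obtain ⟨T, hTd⟩ : ∃ T : c.V →ₗ[c.F] c.V, T = (uc.val - 1) ^ (k - 1) := ⟨_, rfl⟩
  have hTu : ∀ v : c.U, Commute v uc → v.val * T = T * v.val := by
    intro v hv
    have h1 : Commute v.val uc.val := congrArg Units.val hv.eq
    rw [hTd]
    exact ((h1.sub_right (Commute.one_right _)).pow_right (k - 1)).eq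
  subst hTd
  have hbT' : (b⁻¹).val * (uc.val - 1) ^ (k - 1) = (uc.val - 1) ^ (k - 1) * (b⁻¹).val :=
    Commute.units_inv_left (u := b) hbT
  let bX : (LinearMap.range ((uc.val - 1) ^ (k - 1)) →ₗ[c.F]
      LinearMap.range ((uc.val - 1) ^ (k - 1)))ˣ :=
    { val := rX ((uc.val - 1) ^ (k - 1)) b.val hbT
      inv := rX ((uc.val - 1) ^ (k - 1)) (b⁻¹).val hbT'
      val_inv := by
        refine LinearMap.ext fun z => Subtype.ext ?_
        change (b.val * (b⁻¹).val) z = z
        rw [Units.mul_inv]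
        rfl
      inv_val := by
        refine LinearMap.ext fun z => Subtype.ext ?_
        change ((b⁻¹).val * b.val) z = z
        rw [Units.inv_mul]
        rfl }
  have hyx' : Commute bX.val (rX ((uc.val - 1) ^ (k - 1)) sc.val hT) := by
    refine LinearMap.ext fun z => Subtype.ext ?_
    change (b.val * sc.val) z = (sc.val * b.val) z
    have h1 : b.val * sc.val = sc.val * b.val := congrArg Units.val hys.eq
    rw [h1]
  obtain ⟨uy, hu1, hu2, hu3⟩ := P.exists_res bX hyx'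
  have huy : uy.val = w := by
    ext z
    apply P.j_inj
    rw [← hu1, ← hw]
  obtain ⟨v, hv⟩ := exists_indep uy (2 * r ^ 2) (by omega) (by
    intro e
    have := hc2 e
    rw [huy]
    omega)
  let ι := ZMod r × ZMod r
  have hcard : Fintype.card (ι ⊕ ι) = 2 * r ^ 2 := by
    rw [Fintype.card_sum, Fintype.card_prod, ZMod.card]
    ring
  let e0 : ι ⊕ ι ≃ Fin (2 * r ^ 2) := Fintype.equivFinOfCardEq hcard
  let w' : (ι ⊕ ι) ⊕ (ι ⊕ ι) → P.W := Sum.elim (fun k => v (e0 k)) (fun k => (uy⁻¹).val (v (e0 k)))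
  have hw' : LinearIndependent P.E w' := by
    have h1 := hv.comp (Sum.map e0 e0) (Sum.map_injective.2 ⟨e0.injective, e0.injective⟩)
    have h2 : w' = Sum.elim v (fun i => (uy⁻¹).val (v i)) ∘ Sum.map e0 e0 := by
      funext k
      rcases k with k | k <;> rfl
    rw [h2]
    exact h1
  have hwr : ∀ k, w' (Sum.inr k) = (uy⁻¹).val (w' (Sum.inl k)) := fun k => rfl
  obtain ⟨κ', bb, Θ, hb1, hb2, hΘ1, hΘ2⟩ := exists_perm_basis w' hw'
  have h17 : 17 ≤ Fintype.card (ι ⊕ ι) := by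
    rw [hcard]
    nlinarith
  let sw : Equiv.Perm (ι ⊕ ι) := Equiv.sumComm ι ι
  let A : Equiv.Perm ι → Equiv.Perm (ι ⊕ ι) := fun π => Equiv.sumCongr π (Equiv.refl ι)
  have hA : ∀ (π : Equiv.Perm ι) (i : ι), (⁅A π, sw⁆ : Equiv.Perm (ι ⊕ ι)) (Sum.inl i) =
      Sum.inl (π i) := by
    intro π i
    rw [commutatorElement_def]
    rfl
  have heven : ∀ π : Equiv.Perm ι, ⁅A π, sw⁆ ∈ alternatingGroup (ι ⊕ ι) := by
    intro π
    rw [Equiv.Perm.mem_alternatingGroup, map_commutatorElement]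
    exact commutatorElement_eq_one_iff_commute.2 (Commute.all _ _)
  -- lifts
  have hlift : ∀ π : Equiv.Perm ι, ∃ (g : Subgroup.centralizer ({x} : Set G)) (a : c.U),
      ((g : G), a) ∈ c.Gam ∧ Commute a uc ∧
      (∀ i, a.val (P.j (w' (Sum.inl (Sum.inl i)))) = P.j (w' (Sum.inl (Sum.inl (π i))))) ∧
      (∀ k, a.val (P.j (w' (Sum.inr k))) = P.j (w' (Sum.inr k))) := by
    intro π
    obtain ⟨g, a, hgx, hga, -, hau, -, hact⟩ := hL m P (ι ⊕ ι) ((ι ⊕ ι) ⊕ κ') inferInstance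
      inferInstance h17 bb Θ hΘ1 hΘ2 _ (heven π)
    refine ⟨⟨g, Subgroup.mem_centralizer_singleton_iff.2 hgx.eq⟩, a, c.le hga, hau, ?_, ?_⟩
    · intro i
      rw [hact, P.X0_j, ← hb1, hΘ1, hA, hb1]
    · intro k
      rw [hact, P.X0_j, ← hb2, hΘ2]
  let Rel : Subgroup.centralizer ({x} : Set G) → Equiv.Perm ι → Prop := fun g π =>
    ∃ a : c.U, ((g : G), a) ∈ c.Gam ∧
      ∀ i, a.val (P.j (w' (Sum.inl (Sum.inl i)))) = P.j (w' (Sum.inl (Sum.inl (π i))))
  let M : Subgroup (Subgroup.centralizer ({x} : Set G)) :=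
    c.H.subgroupOf (Subgroup.centralizer ({x} : Set G))
  have hM : ∀ g : Subgroup.centralizer ({x} : Set G), g ∈ M ↔ (g : G) ∈ c.H := fun g =>
    Subgroup.mem_subgroupOf
  have : Finite M := by
    refine Finite.of_injective (β := c.H) (fun g => ⟨(g.1 : G), (hM g.1).1 g.2⟩) ?_
    intro a b hab
    simp only [Subtype.mk.injEq] at hab
    exact Subtype.ext (Subtype.ext hab)
  have hRel : ∀ (π : Equiv.Perm ι) (g : Subgroup.centralizer ({x} : Set G)) (a : c.U),
      ((g : G), a) ∈ c.Gam →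
      (∀ i, a.val (P.j (w' (Sum.inl (Sum.inl i)))) = P.j (w' (Sum.inl (Sum.inl (π i))))) →
      (∀ k, a.val (P.j (w' (Sum.inr k))) = P.j (w' (Sum.inr k))) → Rel ⁅g, y⁆ π := by
    intro π g a hga hl1 hl2
    refine ⟨⁅a, b⁆, ?_, ?_⟩
    · have h1 := c.Gam.mul_mem (c.Gam.mul_mem (c.Gam.mul_mem hga hy) (c.Gam.inv_mem hga))
        (c.Gam.inv_mem hy)
      exact h1
    · intro i
      have s1 : (b⁻¹).val (P.j (w' (Sum.inl (Sum.inl i))) : c.V) =
          P.j (w' (Sum.inr (Sum.inl i))) := by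
        have h1 := hu2 (w' (Sum.inl (Sum.inl i)))
        rw [← hwr] at h1
        exact congrArg Subtype.val h1
      have s2 : (a⁻¹).val (P.j (w' (Sum.inr (Sum.inl i))) : c.V) =
          P.j (w' (Sum.inr (Sum.inl i))) := inv_fix (hl2 _)
      have s3 : b.val (P.j (w' (Sum.inr (Sum.inl i))) : c.V) =
          P.j (w' (Sum.inl (Sum.inl i))) := by
        have h1 := hu1 (w' (Sum.inr (Sum.inl i)))
        rw [hwr, ← Module.End.mul_apply, Units.mul_inv, Module.End.one_apply] at h1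
        rw [hwr]
        exact congrArg Subtype.val h1
      rw [commutatorElement_def]
      simp only [Units.val_mul, Module.End.mul_apply]
      rw [s1, s2, s3, hl1]
  obtain ⟨g1, a1, hg1, -, hl1, hl1'⟩ := hlift (Ks.hp r)
  obtain ⟨g2, a2, hg2, -, hl2, hl2'⟩ := hlift (hq r)
  have key := le_of_pair ρ hρ hr hd (M := M) ((hM y).2 (c.mem _ hy)) ((hM g1).2 (c.mem _ hg1))
    ((hM g2).2 (c.mem _ hg2)) Rel
    (hRel _ g1 a1 hg1 hl1 hl1') (hRel _ g2 a2 hg2 hl2 hl2')
    ⟨1, c.Gam.one_mem, fun i => rfl⟩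
    (by
      rintro g _ h _ π π' ⟨a, ha, hai⟩ ⟨a', ha', hai'⟩
      refine ⟨a * a', c.Gam.mul_mem ha ha', fun i => ?_⟩
      rw [Units.val_mul, Module.End.mul_apply, hai', hai]
      rfl)
    (by
      rintro g _ π ⟨a, ha, hai⟩
      refine ⟨a⁻¹, c.Gam.inv_mem ha, fun i => ?_⟩
      apply inv_fix
      rw [hai]
      congr 5
      exact π.apply_symm_apply i)
    (by
      rintro π ⟨a, ha, hai⟩
      obtain ⟨e, he⟩ := c.scal a ha
      ext1 i
      rw [Equiv.Perm.one_apply]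
      have h4 := hai i
      rw [he, LinearMap.smul_apply, Module.End.one_apply] at h4
      have h5 : P.j (e • w' (Sum.inl (Sum.inl i))) = P.j (w' (Sum.inl (Sum.inl (π i)))) := by
        rw [map_smul]
        exact Subtype.ext h4
      have h5' := P.j_inj h5
      by_contra hne
      have h6 := hw'.notMem_span_image (s := {Sum.inl (Sum.inl i)}) (x := Sum.inl (Sum.inl (π i)))
        (by
          intro h
          rw [Set.mem_singleton_iff] at h
          exact hne (Sum.inl_injective (Sum.inl_injective h)))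
      apply h6
      rw [← h5', Set.image_singleton]
      have h7 : e • w' (Sum.inl (Sum.inl i)) =
          (algebraMap c.F P.E e) • w' (Sum.inl (Sum.inl i)) := by
        rw [algebraMap_smul]
      rw [h7]
      exact Submodule.smul_mem _ _ (Submodule.mem_span_singleton_self _))
  omega

end Pool.Agent.Lib.MP_b9166b_al.Pt
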