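import Mathlib

/-!
# MP_b9166b_al, PT: a projection onto a free summand (7.0)

`t = u - 1`, `T = t^(k-1)`, `X = range T`. `s^n = e • 1`, so averaging `A f = (1/n) ∑_{i<n} s^i f s^(-i)` makes linear maps equivariant.
`τ : X → V` equivariant with `T (τ x) = x` (average a section of `T`). The map `X^k → V`, `(x_j) ↦ ∑ t^j τ x_j` is injective; let `lam : V → X` be equivariant with
`lam (t^j τ x) = 0` for `j < k - 1` and `lam (t^(k-1) τ x) = x` (choose any linear `lam` with these properties and average it).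
`P v = ∑_{j<k} t^j τ (ε (lam (t^(k-1-j) v)))`. Then `P (t^i τ x) = t^i τ (ε x)`, so `P * P = P`; `P (t v) = t (P v)` (as `t^k = 0`), `P s = s P`. For `x ∈ X`:
`P x = P (T (τ x)) = T (P (τ x)) = T (τ (ε x)) = ε x`. The range of `P` is `⨁ t^j τ (range ε)`, of dimension `k * rank ε`; on it `t^(k-1)` has range
`T τ (range ε) = range ε`, of dimension `rank ε`.
-/

set_option autoImplicit false

namespace Pool.Agent.Lib.MP_b9166b_al.Pt

open Module

section zavg

variable {F W V : Type} [Field F] [AddCommGroup V] [Module F V] [AddCommGroup W] [Module F W]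

/-- The average of `f` over the powers of the pair `(a, b)`. -/
private noncomputable def zav (a : W →ₗ[F] W) (b : V →ₗ[F] V) (n : ℕ) (e : F) (f : W →ₗ[F] V) :
    W →ₗ[F] V :=
  ((n : F) * e)⁻¹ • ∑ i ∈ Finset.range n, (b ^ i) ∘ₗ f ∘ₗ (a ^ (n - i))

private theorem zav_apply (a : W →ₗ[F] W) (b : V →ₗ[F] V) (n : ℕ) (e : F) (f : W →ₗ[F] V) (x : W) :
    zav a b n e f x = ((n : F) * e)⁻¹ • ∑ i ∈ Finset.range n, (b ^ i) (f ((a ^ (n - i)) x)) := by
  rw [zav, LinearMap.smul_apply, LinearMap.sum_apply]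
  rfl

private theorem zav_pow {a : W →ₗ[F] W} {b : V →ₗ[F] V} {f : W →ₗ[F] V}
    (h : ∀ x, b (f x) = f (a x)) (i : ℕ) (x : W) : (b ^ i) (f x) = f ((a ^ i) x) := by
  induction i with
  | zero => rw [pow_zero, pow_zero, Module.End.one_apply, Module.End.one_apply]
  | succ i ih => rw [pow_succ', pow_succ', Module.End.mul_apply, Module.End.mul_apply, ih, h]

private theorem zav_eq {a : W →ₗ[F] W} {b : V →ₗ[F] V} {n : ℕ} {e : F} {f : W →ₗ[F] V}
    (hn : (n : F) ≠ 0) (he : e ≠ 0) (ha : a ^ n = e • (1 : W →ₗ[F] W))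
    (h : ∀ x, b (f x) = f (a x)) : zav a b n e f = f := by
  ext x
  rw [zav_apply]
  have h1 : ∀ i ∈ Finset.range n, (b ^ i) (f ((a ^ (n - i)) x)) = e • f x := by
    intro i hi
    rw [Finset.mem_range] at hi
    rw [zav_pow h, ← Module.End.mul_apply, ← pow_add, Nat.add_sub_cancel' hi.le, ha,
      LinearMap.smul_apply, Module.End.one_apply, map_smul]
  rw [Finset.sum_congr rfl h1, Finset.sum_const, Finset.card_range, ← Nat.cast_smul_eq_nsmul F,
    smul_smul (n : F), smul_smul, inv_mul_cancel₀ (mul_ne_zero hn he), one_smul]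

private theorem zav_comm {a : W →ₗ[F] W} {b : V →ₗ[F] V} {n : ℕ} {e : F} {f : W →ₗ[F] V}
    (ha : a ^ n = e • (1 : W →ₗ[F] W)) (hb : b ^ n = e • (1 : V →ₗ[F] V)) (x : W) :
    b (zav a b n e f x) = zav a b n e f (a x) := by
  rw [zav_apply, zav_apply, map_smul, map_sum]
  refine congrArg (fun y => ((n : F) * e)⁻¹ • y) ?_
  have h1 : ∀ i ∈ Finset.range n, b ((b ^ i) (f ((a ^ (n - i)) x)))
      = (b ^ (i + 1)) (f ((a ^ (n + 1 - (i + 1))) x)) := by
    intro i _
    rw [pow_succ', Module.End.mul_apply, Nat.add_sub_add_right]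
  have h2 : ∀ i ∈ Finset.range n, (b ^ i) (f ((a ^ (n - i)) (a x)))
      = (b ^ i) (f ((a ^ (n + 1 - i)) x)) := by
    intro i hi
    rw [Finset.mem_range] at hi
    rw [Nat.succ_sub hi.le, Nat.succ_eq_add_one, pow_succ, Module.End.mul_apply]
  rw [Finset.sum_congr rfl h1, Finset.sum_congr rfl h2]
  have h3 := Finset.sum_range_succ (fun i => (b ^ i) (f ((a ^ (n + 1 - i)) x))) n
  have h4 := Finset.sum_range_succ' (fun i => (b ^ i) (f ((a ^ (n + 1 - i)) x))) n
  have h5 : (b ^ n) (f ((a ^ (n + 1 - n)) x)) = (b ^ 0) (f ((a ^ (n + 1 - 0)) x)) := by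
    rw [hb, Nat.add_sub_cancel_left, pow_one, Nat.sub_zero, pow_succ, ha, pow_zero,
      LinearMap.smul_apply, Module.End.one_apply, Module.End.one_apply, Module.End.mul_apply,
      LinearMap.smul_apply, Module.End.one_apply, map_smul]
  rw [h3, h5] at h4
  exact (add_right_cancel h4).symm

private theorem zav_left {V' : Type} [AddCommGroup V'] [Module F V'] {a : W →ₗ[F] W}
    {b : V →ₗ[F] V} {b' : V' →ₗ[F] V'} {n : ℕ} {e : F} {f : W →ₗ[F] V} {g : V →ₗ[F] V'}
    (hg : ∀ x, b' (g x) = g (b x)) (x : W) : g (zav a b n e f x) = zav a b' n e (g ∘ₗ f) x := by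
  rw [zav_apply, zav_apply, map_smul, map_sum]
  refine congrArg (fun y => ((n : F) * e)⁻¹ • y) (Finset.sum_congr rfl fun i _ => ?_)
  rw [LinearMap.comp_apply, zav_pow hg]

private theorem zav_right {W' : Type} [AddCommGroup W'] [Module F W'] {a : W →ₗ[F] W}
    {a' : W' →ₗ[F] W'} {b : V →ₗ[F] V} {n : ℕ} {e : F} {f : W →ₗ[F] V} {g : W' →ₗ[F] W}
    (hg : ∀ x, a (g x) = g (a' x)) (x : W') : zav a b n e f (g x) = zav a' b n e (f ∘ₗ g) x := by
  rw [zav_apply, zav_apply]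
  refine congrArg (fun y => ((n : F) * e)⁻¹ • y) (Finset.sum_congr rfl fun i _ => ?_)
  rw [LinearMap.comp_apply, zav_pow hg]

end zavg

private theorem zc_core {F V : Type} [Field F] [AddCommGroup V] [Module F V]
    [FiniteDimensional F V] {t s : V →ₗ[F] V} (hts : ∀ v, t (s v) = s (t v)) {k : ℕ} (hk : 0 < k)
    (ht : t ^ k = 0) {n : ℕ} (hn : (n : F) ≠ 0) {e : F} (he : e ≠ 0)
    (hs : s ^ n = e • (1 : V →ₗ[F] V)) {X : Submodule F V} (hX : X = LinearMap.range (t ^ (k - 1)))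
    (ε : X →ₗ[F] X) (hε : ∀ x, ε (ε x) = ε x)
    (hεs : ∀ x y : X, (y : V) = s x → (ε y : V) = s (ε x)) :
    ∃ P : V →ₗ[F] V, (∀ v, P (P v) = P v) ∧ (∀ v, t (P v) = P (t v)) ∧ (∀ v, s (P v) = P (s v)) ∧
      (∀ x : X, P (x : V) = ε x) ∧
      finrank F (LinearMap.range P) = k * finrank F (LinearMap.range ε) ∧
      ∃ τ : X →ₗ[F] V, (∀ x : X, (t ^ (k - 1)) (τ x) = x) ∧ ∀ x : X, P (τ x) = τ (ε x) := by
  classical
  have hts' : ∀ (j : ℕ) (v : V), (t ^ j) (s v) = s ((t ^ j) v) := fun j v => zav_pow hts j v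
  have htj : ∀ (j : ℕ) (v : V), k ≤ j → (t ^ j) v = 0 := by
    intro j v hj
    rw [pow_eq_zero_of_le hj ht, LinearMap.zero_apply]
  have hadd : ∀ (i j : ℕ) (v : V), (t ^ i) ((t ^ j) v) = (t ^ (i + j)) v := by
    intro i j v
    rw [pow_add, Module.End.mul_apply]
  have hmem : ∀ x ∈ X, s x ∈ X := by
    intro x hx
    rw [hX] at hx ⊢
    obtain ⟨v, rfl⟩ := hx
    exact ⟨s v, hts' _ v⟩
  obtain ⟨sX, hsX⟩ : ∃ sX : X →ₗ[F] X, ∀ x : X, (sX x : V) = s x :=
    ⟨s.restrict hmem, fun x => rfl⟩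
  have hsXp : ∀ (i : ℕ) (x : X), ((sX ^ i) x : V) = (s ^ i) x := fun i x =>
    (zav_pow (a := sX) (b := s) (f := X.subtype) (fun x => (hsX x).symm) i x).symm
  have hsXn : sX ^ n = e • (1 : X →ₗ[F] X) := by
    refine LinearMap.ext fun x => Subtype.ext ?_
    rw [hsXp, hs]
    rfl
  have hεs' : ∀ x : X, ε (sX x) = sX (ε x) := by
    intro x
    refine Subtype.ext ?_
    rw [hsX, hεs x (sX x) (hsX x)]
  -- the section
  obtain ⟨τ0, hτ0⟩ : ∃ τ0 : X →ₗ[F] V, ∀ x : X, (t ^ (k - 1)) (τ0 x) = x := by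
    subst hX
    obtain ⟨τ0, hτ0⟩ := LinearMap.exists_rightInverse_of_surjective ((t ^ (k - 1)).rangeRestrict)
      (LinearMap.range_rangeRestrict _)
    refine ⟨τ0, fun x => ?_⟩
    exact congrArg Subtype.val (LinearMap.congr_fun hτ0 x)
  obtain ⟨τ, hτ, hτs⟩ : ∃ τ : X →ₗ[F] V, (∀ x : X, (t ^ (k - 1)) (τ x) = x) ∧
      ∀ x : X, s (τ x) = τ (sX x) := by
    refine ⟨zav sX s n e τ0, fun x => ?_, fun x => zav_comm hsXn hs x⟩
    have h1 := zav_left (g := t ^ (k - 1)) (a := sX) (b := s) (b' := s) (n := n) (e := e) (f := τ0)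
      (fun v => (hts' _ v).symm) x
    have h2 : (t ^ (k - 1)) ∘ₗ τ0 = X.subtype := LinearMap.ext hτ0
    have h3 : zav sX s n e X.subtype = X.subtype := zav_eq hn he hsXn fun x => (hsX x).symm
    rw [h2, h3] at h1
    exact h1
  -- independence
  obtain ⟨Φ, hΦ⟩ : ∃ Φ : (Fin k → X) →ₗ[F] V, ∀ x, Φ x = ∑ j : Fin k, (t ^ (j : ℕ)) (τ (x j)) := by
    refine ⟨∑ j : Fin k, ((t ^ (j : ℕ)) ∘ₗ τ) ∘ₗ LinearMap.proj j, fun x => ?_⟩
    rw [LinearMap.sum_apply]
    rfl
  have hinj : Function.Injective Φ := by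
    refine (injective_iff_map_eq_zero Φ).2 fun x hx => ?_
    rw [hΦ] at hx
    have key : ∀ m : ℕ, ∀ j : Fin k, (j : ℕ) < m → x j = 0 := by
      intro m
      induction m with
      | zero => exact fun j hj => absurd hj (Nat.not_lt_zero _)
      | succ m ih =>
        intro j hj
        have h1 := congrArg (t ^ (k - 1 - (j : ℕ))) hx
        rw [map_zero, map_sum, Finset.sum_eq_single j] at h1
        · rw [hadd, Nat.sub_add_cancel (by have := j.2; omega), hτ] at h1
          exact Subtype.ext h1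
        · intro i _ hij
          have hij' : (i : ℕ) ≠ (j : ℕ) := fun h => hij (Fin.ext h)
          rcases lt_or_gt_of_ne hij' with h2 | h2
          · rw [ih i (by omega), map_zero, map_zero, map_zero]
          · rw [hadd, htj _ _ (by have := j.2; omega)]
        · exact fun h => absurd (Finset.mem_univ j) h
    exact funext fun j => key k j j.2
  obtain ⟨lam0, h0lt, h0eq⟩ : ∃ lam0 : V →ₗ[F] X,
      (∀ (j : ℕ) (x : X), j < k - 1 → lam0 ((t ^ j) (τ x)) = 0) ∧
      (∀ x : X, lam0 ((t ^ (k - 1)) (τ x)) = x) := by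
    obtain ⟨Ψ, hΨ⟩ := LinearMap.exists_leftInverse_of_injective Φ (LinearMap.ker_eq_bot.2 hinj)
    have hs1 : ∀ (j : Fin k) (x : X), Φ (Pi.single j x) = (t ^ (j : ℕ)) (τ x) := by
      intro j x
      rw [hΦ, Finset.sum_eq_single j]
      · rw [Pi.single_eq_same]
      · intro i _ hij
        rw [Pi.single_eq_of_ne hij, map_zero, map_zero]
      · exact fun h => absurd (Finset.mem_univ j) h
    have hs2 : ∀ (j : Fin k) (x : X), Ψ ((t ^ (j : ℕ)) (τ x)) = Pi.single j x := by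
      intro j x
      rw [← hs1]
      exact LinearMap.congr_fun hΨ _
    have hk1 : k - 1 < k := by omega
    refine ⟨LinearMap.proj ⟨k - 1, hk1⟩ ∘ₗ Ψ, fun j x hj => ?_, fun x => ?_⟩
    · have h1 := hs2 ⟨j, by omega⟩ x
      have h2 : Ψ ((t ^ j) (τ x)) = Pi.single (⟨j, by omega⟩ : Fin k) x := h1
      rw [LinearMap.comp_apply, h2, LinearMap.proj_apply, Pi.single_eq_of_ne]
      intro h3
      have h4 := congrArg Fin.val h3
      simp only at h4
      omega
    · have h2 : Ψ ((t ^ (k - 1)) (τ x)) = Pi.single (⟨k - 1, hk1⟩ : Fin k) x := hs2 ⟨k - 1, hk1⟩ x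
      rw [LinearMap.comp_apply, h2, LinearMap.proj_apply, Pi.single_eq_same]
  obtain ⟨lam, hlt, heq, hlams⟩ : ∃ lam : V →ₗ[F] X,
      (∀ (j : ℕ) (x : X), j < k - 1 → lam ((t ^ j) (τ x)) = 0) ∧
      (∀ x : X, lam ((t ^ (k - 1)) (τ x)) = x) ∧ ∀ v : V, sX (lam v) = lam (s v) := by
    have hg : ∀ (j : ℕ) (x : X), s (((t ^ j) ∘ₗ τ) x) = ((t ^ j) ∘ₗ τ) (sX x) := by
      intro j x
      rw [LinearMap.comp_apply, LinearMap.comp_apply, ← hτs, hts']
    refine ⟨zav s sX n e lam0, fun j x hj => ?_, fun x => ?_, fun v => zav_comm hs hsXn v⟩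
    · have h1 := zav_right (g := (t ^ j) ∘ₗ τ) (a := s) (a' := sX) (b := sX) (n := n) (e := e)
        (f := lam0) (hg j) x
      have h2 : lam0 ∘ₗ ((t ^ j) ∘ₗ τ) = 0 := LinearMap.ext fun y => h0lt j y hj
      rw [h2, zav_eq hn he hsXn (fun x => by rw [LinearMap.zero_apply, LinearMap.zero_apply, map_zero])]
        at h1
      exact h1
    · have h1 := zav_right (g := (t ^ (k - 1)) ∘ₗ τ) (a := s) (a' := sX) (b := sX) (n := n) (e := e)
        (f := lam0) (hg (k - 1)) x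
      have h2 : lam0 ∘ₗ ((t ^ (k - 1)) ∘ₗ τ) = LinearMap.id := LinearMap.ext fun y => h0eq y
      have h3 : zav sX sX n e LinearMap.id = LinearMap.id := zav_eq hn he hsXn fun x => rfl
      rw [h2, h3] at h1
      exact h1
  -- the projection
  obtain ⟨P, hP⟩ : ∃ P : V →ₗ[F] V, ∀ v, P v = ∑ j ∈ Finset.range k,
      (t ^ j) (τ (ε (lam ((t ^ (k - 1 - j)) v)))) := by
    refine ⟨∑ j ∈ Finset.range k, (t ^ j) ∘ₗ τ ∘ₗ ε ∘ₗ lam ∘ₗ (t ^ (k - 1 - j)), fun v => ?_⟩
    rw [LinearMap.sum_apply]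
    rfl
  have hPt : ∀ i < k, ∀ x : X, P ((t ^ i) (τ x)) = (t ^ i) (τ (ε x)) := by
    intro i hi x
    rw [hP, Finset.sum_eq_single i]
    · rw [hadd, Nat.sub_add_cancel (by omega), heq]
    · intro j hj hji
      rw [Finset.mem_range] at hj
      rw [hadd]
      rcases lt_or_gt_of_ne hji with h2 | h2
      · rw [htj (k - 1 - j + i) _ (by omega), map_zero, map_zero, map_zero, map_zero]
      · rw [hlt _ _ (by omega), map_zero, map_zero, map_zero]
    · exact fun h => absurd (Finset.mem_range.2 hi) h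
  have hPX : ∀ x : X, P (x : V) = ε x := by
    intro x
    have h1 := hPt (k - 1) (by omega) x
    rw [hτ, hτ] at h1
    exact h1
  refine ⟨P, fun v => ?_, fun v => ?_, fun v => ?_, hPX, ?_, τ, hτ, fun x => ?_⟩
  · rw [hP v, map_sum]
    refine Finset.sum_congr rfl fun j hj => ?_
    rw [hPt j (Finset.mem_range.1 hj), hε]
  · rw [hP, hP, map_sum]
    have h1 : ∀ j ∈ Finset.range k, t ((t ^ j) (τ (ε (lam ((t ^ (k - 1 - j)) v)))))
        = (t ^ (j + 1)) (τ (ε (lam ((t ^ (k - (j + 1))) v)))) := by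
      intro j _
      rw [pow_succ', Module.End.mul_apply, Nat.sub_sub, Nat.add_comm 1 j]
    have h2 : ∀ j ∈ Finset.range k, (t ^ j) (τ (ε (lam ((t ^ (k - 1 - j)) (t v)))))
        = (t ^ j) (τ (ε (lam ((t ^ (k - j)) v)))) := by
      intro j hj
      rw [Finset.mem_range] at hj
      have h3 : k - j = k - 1 - j + 1 := by omega
      rw [h3, pow_succ, Module.End.mul_apply]
    rw [Finset.sum_congr rfl h1, Finset.sum_congr rfl h2]
    have h3 := Finset.sum_range_succ (fun j => (t ^ j) (τ (ε (lam ((t ^ (k - j)) v))))) k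
    have h4 := Finset.sum_range_succ' (fun j => (t ^ j) (τ (ε (lam ((t ^ (k - j)) v))))) k
    rw [Nat.sub_zero, htj k v le_rfl, map_zero, map_zero, map_zero, map_zero, add_zero] at h4
    rw [htj k _ le_rfl, add_zero, h4] at h3
    exact h3
  · rw [hP, hP, map_sum]
    refine Finset.sum_congr rfl fun j _ => ?_
    rw [← hts', hτs, ← hεs', hlams, hts']
  · -- the dimension
    obtain ⟨Φ', hΦ'⟩ : ∃ Φ' : (Fin k → LinearMap.range ε) →ₗ[F] V, ∀ x, Φ' x = Φ fun j => (x j).1 := by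
      refine ⟨Φ ∘ₗ LinearMap.pi fun j => (LinearMap.range ε).subtype ∘ₗ LinearMap.proj j,
        fun x => rfl⟩
    have hinj' : Function.Injective Φ' := by
      intro x y hxy
      rw [hΦ', hΦ'] at hxy
      have h1 := hinj hxy
      exact funext fun j => Subtype.ext (congrFun h1 j)
    have hran : LinearMap.range P = LinearMap.range Φ' := by
      apply le_antisymm
      · rintro _ ⟨v, rfl⟩
        refine ⟨fun j => ⟨ε (lam ((t ^ (k - 1 - (j : ℕ))) v)), ⟨_, rfl⟩⟩, ?_⟩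
        rw [hΦ', hΦ, hP, Finset.sum_range]
      · rintro _ ⟨x, rfl⟩
        rw [hΦ', hΦ]
        refine Submodule.sum_mem _ fun j _ => ?_
        obtain ⟨y, hy⟩ := (x j).2
        refine ⟨(t ^ (j : ℕ)) (τ (x j).1), ?_⟩
        rw [hPt _ j.2, ← hy, hε]
    rw [hran, LinearMap.finrank_range_of_inj hinj', Module.finrank_pi_fintype, Finset.sum_const,
      Finset.card_univ, Fintype.card_fin, smul_eq_mul]
  · have h1 := hPt 0 hk x
    rw [pow_zero, Module.End.one_apply, Module.End.one_apply] at h1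
    exact h1

theorem exists_Z {F V : Type} [Field F] [AddCommGroup V] [Module F V] [FiniteDimensional F V]
    (u s : (V →ₗ[F] V)ˣ) (hus : Commute u s) {k : ℕ} (hk : 0 < k) (hu : (u.val - 1) ^ k = 0)
    {n : ℕ} (hn : (n : F) ≠ 0) {e : F} (he : e ≠ 0) (hs : s.val ^ n = e • (1 : V →ₗ[F] V))
    (ε : LinearMap.range ((u.val - 1) ^ (k - 1)) →ₗ[F] LinearMap.range ((u.val - 1) ^ (k - 1)))
    (hε : ε * ε = ε)
    (hεs : ∀ x y : LinearMap.range ((u.val - 1) ^ (k - 1)), (y : V) = s.val x →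
      (ε y : V) = s.val (ε x)) :
    ∃ P : V →ₗ[F] V, P * P = P ∧ u.val * P = P * u.val ∧ s.val * P = P * s.val ∧
      (∀ x : LinearMap.range ((u.val - 1) ^ (k - 1)), P (x : V) = ε x) ∧
      finrank F (LinearMap.range P) = k * finrank F (LinearMap.range ε) ∧
      finrank F (LinearMap.range ε) ≤ finrank F (LinearMap.range
        ((P.rangeRestrict ∘ₗ u.val ∘ₗ (LinearMap.range P).subtype - 1) ^ (k - 1))) := by
  classical
  have hus' : u.val * s.val = s.val * u.val := congrArg Units.val hus.eq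
  have hts : ∀ v, (u.val - 1) (s.val v) = s.val ((u.val - 1) v) := by
    intro v
    have h1 : u.val (s.val v) = s.val (u.val v) := LinearMap.congr_fun hus' v
    rw [LinearMap.sub_apply, LinearMap.sub_apply, map_sub, h1]
    rfl
  obtain ⟨P, h1, h2, h3, h4, h5, τ, h6, h7⟩ := zc_core hts hk hu hn he hs rfl ε
    (fun x => LinearMap.congr_fun hε x) hεs
  have h2' : ∀ v, u.val (P v) = P (u.val v) := by
    intro v
    have h8 := h2 v
    rw [LinearMap.sub_apply, LinearMap.sub_apply, map_sub] at h8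
    exact sub_left_injective h8
  refine ⟨P, LinearMap.ext h1, LinearMap.ext h2', LinearMap.ext h3, h4, h5, ?_⟩
  obtain ⟨q, hq⟩ : ∃ q : LinearMap.range P →ₗ[F] LinearMap.range P,
      q = P.rangeRestrict ∘ₗ u.val ∘ₗ (LinearMap.range P).subtype - 1 := ⟨_, rfl⟩
  rw [← hq]
  have hq1 : ∀ w : LinearMap.range P, (q w : V) = (u.val - 1) w := by
    rintro ⟨_, v, rfl⟩
    rw [hq]
    change P (u.val (P v)) - P v = u.val (P v) - P v
    rw [← h2', h1]
  have hq2 : ∀ (i : ℕ) (w : LinearMap.range P), ((q ^ i) w : V) = ((u.val - 1) ^ i) w :=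
    fun i w => (zav_pow (a := q) (b := u.val - 1) (f := (LinearMap.range P).subtype)
      (fun x => (hq1 x).symm) i w).symm
  have hmem : ∀ x : LinearMap.range ε, τ x.1 ∈ LinearMap.range P := by
    rintro ⟨_, y, rfl⟩
    refine ⟨τ (ε y), ?_⟩
    rw [h7]
    exact congrArg τ (LinearMap.congr_fun hε y)
  obtain ⟨g, hg⟩ : ∃ g : LinearMap.range ε →ₗ[F] LinearMap.range P, ∀ x, (g x : V) = τ x.1 :=
    ⟨LinearMap.codRestrict (LinearMap.range P) (τ ∘ₗ (LinearMap.range ε).subtype) hmem,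
      fun x => rfl⟩
  refine LinearMap.finrank_le_finrank_of_injective (f := (q ^ (k - 1)).rangeRestrict ∘ₗ g) ?_
  refine (injective_iff_map_eq_zero _).2 fun x hx => ?_
  have h8 : ((q ^ (k - 1)) (g x) : V) = 0 := by
    have h9 : (q ^ (k - 1)) (g x) = 0 := congrArg Subtype.val hx
    rw [h9]
    rfl
  rw [hq2, hg, h6] at h8
  exact Subtype.ext (Subtype.ext h8)

end Pool.Agent.Lib.MP_b9166b_al.Pt
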