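import Pool.Agent.Lib.MP_b9166b_al.Pt.StepC
import Pool.Agent.Lib.MP_b9166b_al.Pt.Zc
import Pool.Agent.Lib.MP_b9166b_al.Pt.Tv
import Pool.Agent.Lib.MP_b9166b_al.Pt.Xl

/-!
# MP_b9166b_al, PT: coverage in the covers (7.0)

`cov_inv`. `exists_Z` for `uc, sc` (`n = orderOf s`, `Xl.pow`, `(n : F) ≠ 0`) gives `P`. `Z = range P`, `ι = subtype`, `κ = P.rangeRestrict` (`ι κ = P`, `κ ι = 1`). `û = (u, uc, ud)`,
`ŝ = (s, sc, sd)` in `Γ = Gam2 c d` (`exists_xl` for `d`). `Cd (lay2 c d h) (rep2 c d) ι κ û ŝ k`: `h8`: `finrank Z = k * finrank (range ε) ≥ 8`; `us`: `Xl.comm`; `ps`: `ŝ^(orderOf s) ∈ Z`; `hT`: a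
`t = (g, v, w) ∈ T` with `a t = 1`, `ρ t = 1` has `(g, 1) ∈ d.Gam`, so `g = 1` by `hdH`; `hZ`: clear. `coverage` gives `θ ∈ El`, `a θ = th ι κ = 1 - P - P`; `g = g2 θ`, `v = θ.1.2.1`
(`a_El`). `g` commutes with `u`, `s` (first components), so with `x`.
-/

set_option autoImplicit false

namespace Pool.Agent.Lib.MP_b9166b_al.Pt

open Module Cvr

variable {p : ℕ} {G : Type} [Group G] {x u s : G}

section cvc

variable {F V : Type} [Field F] [AddCommGroup V] [Module F V] {P : V →ₗ[F] V}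

theorem cvc_ki (hP : P * P = P) : P.rangeRestrict ∘ₗ (LinearMap.range P).subtype = 1 := by
  refine LinearMap.ext fun z => Subtype.ext ?_
  change P (z : V) = z
  obtain ⟨v, hv⟩ := z.2
  rw [← hv]
  exact LinearMap.congr_fun hP v

theorem cvc_step (hP : P * P = P) {w : (V →ₗ[F] V)ˣ} (hw : w.val * P = P * w.val)
    (z : LinearMap.range P) :
    (((P.rangeRestrict ∘ₗ w.val ∘ₗ (LinearMap.range P).subtype - 1) z : LinearMap.range P) : V) =
      (w.val - 1) (z : V) := by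
  change P (w.val (z : V)) - (z : V) = w.val (z : V) - (z : V)
  obtain ⟨v, hv⟩ := z.2
  rw [← hv]
  have h1 : w.val (P v) = P (w.val v) := LinearMap.congr_fun hw v
  have h2 : P (P (w.val v)) = P (w.val v) := LinearMap.congr_fun hP (w.val v)
  rw [h1, h2]

theorem cvc_pow' (hP : P * P = P) {w : (V →ₗ[F] V)ˣ} (hw : w.val * P = P * w.val) (j : ℕ)
    (z : LinearMap.range P) :
    ((((P.rangeRestrict ∘ₗ w.val ∘ₗ (LinearMap.range P).subtype - 1) ^ j) z :
      LinearMap.range P) : V) = ((w.val - 1) ^ j) (z : V) := by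
  induction j with
  | zero => rw [pow_zero, pow_zero, Module.End.one_apply, Module.End.one_apply]
  | succ j ih =>
    rw [pow_succ', pow_succ', Module.End.mul_apply, Module.End.mul_apply, cvc_step hP hw, ih]

theorem cvc_pow (hP : P * P = P) {w : (V →ₗ[F] V)ˣ} (hw : w.val * P = P * w.val) {k : ℕ}
    (hk : (w.val - 1) ^ k = 0) :
    (P.rangeRestrict ∘ₗ w.val ∘ₗ (LinearMap.range P).subtype - 1) ^ k = 0 := by
  refine LinearMap.ext fun z => Subtype.ext ?_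
  rw [cvc_pow' hP hw, hk]
  rfl

end cvc

theorem cvc_pu (c d : Cvr p G) {uc : c.U} {ud : d.U} (h1 : ∃ n : ℕ, u ^ p ^ n = 1)
    (h2 : (u, uc) ∈ c.Gam) (h3 : (u, ud) ∈ d.Gam) (h4 : Pw p uc) (h5 : Pw p ud) :
    Pw p (⟨(u, uc, ud), h2, h3⟩ : Gam2 c d) := by
  obtain ⟨n, hn⟩ := h1
  obtain ⟨i, hi⟩ := h4
  obtain ⟨j, hj⟩ := h5
  refine ⟨n + i + j, Subtype.ext (Prod.ext ?_ (Prod.ext ?_ ?_))⟩
  · change u ^ p ^ (n + i + j) = 1
    rw [show n + i + j = n + (i + j) by ring, pow_add, pow_mul, hn, one_pow]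
  · change uc ^ p ^ (n + i + j) = 1
    rw [show n + i + j = i + (n + j) by ring, pow_add, pow_mul, hi, one_pow]
  · change ud ^ p ^ (n + i + j) = 1
    rw [show n + i + j = j + (n + i) by ring, pow_add, pow_mul, hj, one_pow]

theorem cov_inv (hp : p.Prime) (hp2 : p ≠ 2) (h : XD p x u s) {c d : Cvr p G} (hcd : c.H ≤ d.H)
    (hD : ¬ Dg2 c d hcd 2)
    (hdH : ∀ g ∈ c.H, g ≠ 1 → ∀ w, (g, w) ∈ d.Gam → ∀ e : d.F, w.val ≠ e • (1 : d.V →ₗ[d.F] d.V))
    (hx : x ∈ c.H) {uc sc : c.U} (hl : Xl c u s uc sc) {k : ℕ} (hk : 0 < k) (hkc : Kap c u k)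
    (hkd : Kap d u k)
    (ε : LinearMap.range ((uc.val - 1) ^ (k - 1)) →ₗ[c.F] LinearMap.range ((uc.val - 1) ^ (k - 1)))
    (hε : ε * ε = ε)
    (hεs : ∀ y z : LinearMap.range ((uc.val - 1) ^ (k - 1)), (z : c.V) = sc.val y →
      (ε z : c.V) = sc.val (ε y))
    (heven : Even (finrank c.F (LinearMap.range ε))) (h8 : 8 ≤ finrank c.F (LinearMap.range ε)) :
    ∃ (g : G) (v : c.U), Commute g x ∧ (g, v) ∈ c.LL ∧ v ∈ c.TV ∧ Commute v uc ∧ Commute v sc ∧
      ∀ y : LinearMap.range ((uc.val - 1) ^ (k - 1)), v.val y = (y - ε y - ε y : LinearMap.range ((uc.val - 1) ^ (k - 1))) := by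
  have hfp : Fact p.Prime := ⟨hp⟩
  obtain ⟨hcu1, -⟩ := hkc uc hl.u hl.pu
  obtain ⟨e, he, hes⟩ := hl.pow h
  have hn : ((orderOf s : ℕ) : c.F) ≠ 0 := by
    intro h0
    rw [CharP.cast_eq_zero_iff c.F p] at h0
    exact hp.one_lt.ne' (h.ps.symm.eq_one_of_dvd h0)
  obtain ⟨P, hPP, huP, hsP, hPx, hrk, hfree⟩ := exists_Z uc sc (hl.comm hp h) hk hcu1 hn he hes ε
    hε hεs
  obtain ⟨ud, sd, hld⟩ := exists_xl hp h d (hcd hx)
  obtain ⟨hdu1, -⟩ := hkd ud hld.u hld.pu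
  let uh : Gam2 c d := ⟨(u, uc, ud), hl.u, hld.u⟩
  let sh : Gam2 c d := ⟨(s, sc, sd), hl.s, hld.s⟩
  have hCd : Cd (lay2 c d hcd) (rep2 c d) (LinearMap.range P).subtype P.rangeRestrict uh sh k :=
    { h8 := by
        rw [hrk]
        exact h8.trans (Nat.le_mul_of_pos_left _ hk)
      κι := cvc_ki hPP
      us := Subtype.ext (Prod.ext h.comm_s_u.symm
        (Prod.ext (hl.comm hp h) (hld.comm hp h)))
      pu := cvc_pu c d h.pu hl.u hld.u hl.pu hld.pu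
      ps := cop_of hp c d hcd (ω := sh) h.ps h.s0
      ua := huP
      sa := hsP
      hk := hk
      kZ := cvc_pow hPP huP hcu1
      free := by
        rw [hrk]
        exact Nat.mul_le_mul_left k hfree
      kW := hdu1
      hD := hD
      hZ := fun z hz h1 h2 => Subtype.ext (Prod.ext hz (Prod.ext (Units.ext h1) (Units.ext h2)))
      hT := fun t ht h2 => by
        obtain ⟨h3, h4, -⟩ := (Lay.mem_T (lay2 c d hcd) hp).1 ht
        have h5 : t.1.2.2 = 1 := Units.ext h2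
        have h6 : t.1.1 = 1 := by
          by_contra h7
          have h8 : (t.1.1, (1 : d.U)) ∈ d.Gam := by
            rw [← h5]
            exact t.2.2
          refine hdH t.1.1 (c.mem _ t.2.1) h7 1 h8 1 ?_
          rw [one_smul, Units.val_one]
        exact Subtype.ext (Prod.ext h6 (Prod.ext (Units.ext h4) h5)) }
  obtain ⟨θ, hθ, haθ, hθu, hθs⟩ := coverage hp hp2 hCd (by
    rw [hrk]
    exact heven.mul_left k)
  obtain ⟨hTV, hLL⟩ := a_El c d hcd hθ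
  have hgu : Commute θ.1.1 u := congrArg (fun q : Gam2 c d => q.1.1) hθu
  have hgs : Commute θ.1.1 s := congrArg (fun q : Gam2 c d => q.1.1) hθs
  have hvu : Commute θ.1.2.1 uc := congrArg (fun q : Gam2 c d => q.1.2.1) hθu
  have hvs : Commute θ.1.2.1 sc := congrArg (fun q : Gam2 c d => q.1.2.1) hθs
  refine ⟨θ.1.1, θ.1.2.1, ?_, hLL, hTV, hvu, hvs, ?_⟩
  · rw [h.eq]
    exact hgu.mul_right hgs
  · intro y
    have h1 : θ.1.2.1.val = th (LinearMap.range P).subtype P.rangeRestrict := haθ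
    rw [h1]
    change (y : c.V) - P (y : c.V) - P (y : c.V) = _
    rw [hPx]
    rfl

end Pool.Agent.Lib.MP_b9166b_al.Pt
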