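import Pool.Agent.Lib.MP_b9166b_al.Pt.Deg

/-!
# MP_b9166b_al, PT: covers

`Cvr p G`: a finite subgroup `H` of `G` with the group `Gam = {(h, u) | hT ∈ σ(u) C(M)}` and its normal subgroup
`LL = {(h, u) | hT = σ(u)}`. `Gam2 c d`, `Gam3 c d e`: the groups acting linearly on two or three of the spaces; `lay2`, `lay3`:
the layers for the first space. The missing proofs are easy: `Z` = elements with first component `1`; they are scalars on all
spaces (`scal`), so `Z` is central, and its elements have order dividing the product of the `card F - 1`, prime to `p`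
(`Nat.card Z` is prime to `p` by Cauchy). `surj`: `c.surj`, then `onto` for the other covers. `ker`: `c.ker`.
`Gam2_finite`: `c.H` is finite and so are the groups of units of the finite rings `End V`.
-/

set_option autoImplicit false

namespace Pool.Agent.Lib.MP_b9166b_al.Pt

open Module

structure Cvr (p : ℕ) (G : Type) [Group G] where
  H : Subgroup G
  fin : Finite H
  F : Type
  fld : Field F
  finF : Finite F
  chr : CharP F p
  V : Type
  grp : AddCommGroup V
  mod : Module F V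
  fd : FiniteDimensional F V
  Gam : Subgroup (G × (V →ₗ[F] V)ˣ)
  LL : Subgroup (G × (V →ₗ[F] V)ˣ)
  mem : ∀ q ∈ Gam, q.1 ∈ H
  le : LL ≤ Gam
  norm : ∀ q ∈ Gam, ∀ l ∈ LL, q * l * q⁻¹ ∈ LL
  onto : ∀ h ∈ H, ∃ u, (h, u) ∈ Gam
  scal : ∀ u, ((1 : G), u) ∈ Gam → ∃ e : F, u.val = e • (1 : V →ₗ[F] V)
  surj : ∀ u : (V →ₗ[F] V)ˣ, LinearMap.det u.val = 1 → ∃ h, (h, u) ∈ LL
  ker : ∀ h, (h, 1) ∈ LL → ∃ j : ℕ, h ^ p ^ j = 1

attribute [instance] Cvr.fin Cvr.fld Cvr.finF Cvr.chr Cvr.grp Cvr.mod Cvr.fd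

namespace Cvr

variable {p : ℕ} {G : Type} [Group G]

instance (c : Cvr p G) : Finite c.V := Module.finite_of_finite c.F

/-- the general linear group -/
abbrev U (c : Cvr p G) : Type := (c.V →ₗ[c.F] c.V)ˣ

/-- `S ≤ H`, and the elements `≠ 1` of `S` are not scalar -/
def Ge (c : Cvr p G) (S : Finset G) : Prop :=
  ∀ s ∈ S, s ∈ c.H ∧ (s ≠ 1 → ∀ u, (s, u) ∈ c.Gam → ∀ e : c.F, u.val ≠ e • (1 : c.V →ₗ[c.F] c.V))

theorem Ge.mono {c : Cvr p G} {S S' : Finset G} (h : c.Ge S') (hS : S ⊆ S') : c.Ge S :=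
  fun s hs => h s (hS hs)

theorem fin_U (c : Cvr p G) : Finite c.U := by
  have h : Finite (c.V →ₗ[c.F] c.V) :=
    Finite.of_injective (fun f => (f : c.V → c.V)) DFunLike.coe_injective
  infer_instance

theorem cvr_prime (c : Cvr p G) : p.Prime := CharP.char_is_prime c.F p

theorem cvr_ndvd (c : Cvr p G) : ¬ p ∣ Nat.card c.F - 1 := by
  intro h
  have h1 : p ∣ Nat.card c.F := by
    have := Fintype.ofFinite c.F
    rw [Nat.card_eq_fintype_card, ← CharP.cast_eq_zero_iff c.F p]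
    exact FiniteField.cast_card_eq_zero c.F
  have h2 : 1 ≤ Nat.card c.F := Nat.card_pos
  have h3 : p ∣ Nat.card c.F - (Nat.card c.F - 1) := Nat.dvd_sub h1 h
  have h4 : Nat.card c.F - (Nat.card c.F - 1) = 1 := by omega
  rw [h4] at h3
  exact c.cvr_prime.one_lt.ne' (Nat.dvd_one.mp h3)

/-- the scalars are central -/
theorem scal_comm (c : Cvr p G) {u : c.U} (h : ((1 : G), u) ∈ c.Gam) (u' : c.U) :
    u * u' = u' * u := by
  obtain ⟨e, he⟩ := c.scal u h
  apply Units.ext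
  rw [Units.val_mul, Units.val_mul, he, smul_mul_assoc, one_mul, mul_smul_comm, mul_one]

/-- the scalars have order prime to `p` -/
theorem scal_pow (c : Cvr p G) {u : c.U} (h : ((1 : G), u) ∈ c.Gam) :
    u ^ (Nat.card c.F - 1) = 1 := by
  obtain ⟨e, he⟩ := c.scal u h
  have := Fintype.ofFinite c.F
  by_cases h0 : e = 0
  · rw [h0, zero_smul] at he
    have h1 : (1 : c.V →ₗ[c.F] c.V) = 0 := by
      rw [← u.mul_inv, he, zero_mul]
    apply Units.ext
    have h2 : Subsingleton (c.V →ₗ[c.F] c.V) := subsingleton_of_zero_eq_one h1.symm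
    exact Subsingleton.elim _ _
  · apply Units.ext
    rw [Units.val_pow_eq_pow_val, he, smul_pow, one_pow, Nat.card_eq_fintype_card,
      FiniteField.pow_card_sub_one_eq_one e h0, one_smul, Units.val_one]

/-- a finite group of exponent dividing `N` has order prime to every prime not dividing `N` -/
theorem cop_of_pow {Z : Type} [Group Z] [Finite Z] (hp : p.Prime) (N : ℕ) (hN : ¬ p ∣ N)
    (h : ∀ z : Z, z ^ N = 1) : (Nat.card Z).Coprime p := by
  rw [Nat.coprime_comm, hp.coprime_iff_not_dvd]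
  intro hd
  have : Fact p.Prime := ⟨hp⟩
  obtain ⟨z, hz⟩ := exists_prime_orderOf_dvd_card' p hd
  exact hN (hz ▸ orderOf_dvd_of_pow_eq_one (h z))

/-- an element of determinant `1` is a unit -/
theorem unit_of_det (c : Cvr p G) (u : c.V →ₗ[c.F] c.V) (h : LinearMap.det u = 1) :
    ∃ v : c.U, v.val = u := by
  have h1 : IsUnit u := by
    rw [LinearMap.isUnit_iff_isUnit_det, h]
    exact isUnit_one
  obtain ⟨v, hv⟩ := h1
  exact ⟨v, hv⟩

/-- pairs -/
def Gam2 (c d : Cvr p G) : Subgroup (G × c.U × d.U) where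
  carrier := {q | (q.1, q.2.1) ∈ c.Gam ∧ (q.1, q.2.2) ∈ d.Gam}
  one_mem' := ⟨c.Gam.one_mem, d.Gam.one_mem⟩
  mul_mem' := fun h h' => ⟨c.Gam.mul_mem h.1 h'.1, d.Gam.mul_mem h.2 h'.2⟩
  inv_mem' := fun h => ⟨c.Gam.inv_mem h.1, d.Gam.inv_mem h.2⟩

/-- triples -/
def Gam3 (c d e : Cvr p G) : Subgroup (G × c.U × d.U × e.U) where
  carrier := {q | (q.1, q.2.1) ∈ c.Gam ∧ (q.1, q.2.2.1) ∈ d.Gam ∧ (q.1, q.2.2.2) ∈ e.Gam}
  one_mem' := ⟨c.Gam.one_mem, d.Gam.one_mem, e.Gam.one_mem⟩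
  mul_mem' := fun h h' =>
    ⟨c.Gam.mul_mem h.1 h'.1, d.Gam.mul_mem h.2.1 h'.2.1, e.Gam.mul_mem h.2.2 h'.2.2⟩
  inv_mem' := fun h => ⟨c.Gam.inv_mem h.1, d.Gam.inv_mem h.2.1, e.Gam.inv_mem h.2.2⟩

instance (c : Cvr p G) : Finite c.Gam := by
  have h := c.fin_U
  refine Finite.of_injective
    (fun q : c.Gam => ((⟨q.1.1, c.mem _ q.2⟩ : c.H), q.1.2)) ?_
  intro q q' hq
  have h1 := congrArg (fun z : c.H × c.U => (z.1 : G)) hq
  have h2 := congrArg (fun z : c.H × c.U => z.2) hq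
  exact Subtype.ext (Prod.ext h1 h2)

instance (c d : Cvr p G) : Finite (Gam2 c d) := by
  have h := c.fin_U
  have h' := d.fin_U
  refine Finite.of_injective
    (fun q : Gam2 c d => ((⟨q.1.1, c.mem _ q.2.1⟩ : c.H), q.1.2)) ?_
  intro q q' hq
  have h1 := congrArg (fun z : c.H × c.U × d.U => (z.1 : G)) hq
  have h2 := congrArg (fun z : c.H × c.U × d.U => z.2) hq
  exact Subtype.ext (Prod.ext h1 h2)

instance (c d e : Cvr p G) : Finite (Gam3 c d e) := by
  have h := c.fin_U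
  have h' := d.fin_U
  have h'' := e.fin_U
  refine Finite.of_injective
    (fun q : Gam3 c d e => ((⟨q.1.1, c.mem _ q.2.1⟩ : c.H), q.1.2)) ?_
  intro q q' hq
  have h1 := congrArg (fun z : c.H × c.U × d.U × e.U => (z.1 : G)) hq
  have h2 := congrArg (fun z : c.H × c.U × d.U × e.U => z.2) hq
  exact Subtype.ext (Prod.ext h1 h2)

/-- the group element -/
def g2 (c d : Cvr p G) : Gam2 c d →* G := (MonoidHom.fst _ _).comp (Gam2 c d).subtype

/-- the first component -/
def pr2 (c d : Cvr p G) : Gam2 c d →* G × c.U :=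
  (g2 c d).prod ((MonoidHom.fst _ _).comp ((MonoidHom.snd _ _).comp (Gam2 c d).subtype))

/-- the action on the second space -/
def rep2 (c d : Cvr p G) : Gam2 c d →* (d.V →ₗ[d.F] d.V) :=
  (Units.coeHom _).comp ((MonoidHom.snd _ _).comp ((MonoidHom.snd _ _).comp (Gam2 c d).subtype))

/-- the layer for the first space -/
def lay2 (c d : Cvr p G) (h : c.H ≤ d.H) : Lay p (Gam2 c d) c.F c.V where
  a := (Units.coeHom _).comp ((MonoidHom.snd _ _).comp (pr2 c d))
  L := c.LL.comap (pr2 c d)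
  norm := by
    refine ⟨fun l hl q => ?_⟩
    rw [Subgroup.mem_comap, map_mul, map_mul, map_inv]
    exact c.norm _ q.2.1 _ hl
  surj := by
    intro u hu
    obtain ⟨v, rfl⟩ := c.unit_of_det u hu
    obtain ⟨g, hg⟩ := c.surj v hu
    obtain ⟨w, hw⟩ := d.onto g (h (c.mem _ (c.le hg)))
    exact ⟨⟨(g, v, w), c.le hg, hw⟩, hg, rfl⟩
  Z := (g2 c d).ker
  cen := by
    rintro ⟨⟨g, u, v⟩, hq, hq'⟩ hz
    have hg : g = 1 := hz
    subst hg
    rw [Subgroup.mem_center_iff]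
    rintro ⟨⟨k, u', v'⟩, hr⟩
    apply Subtype.ext
    exact Prod.ext ((mul_one k).trans (one_mul k).symm)
      (Prod.ext (c.scal_comm hq u').symm (d.scal_comm hq' v').symm)
  cop := by
    refine cop_of_pow c.cvr_prime ((Nat.card c.F - 1) * (Nat.card d.F - 1)) ?_ ?_
    · intro hd
      rcases (c.cvr_prime.dvd_mul).mp hd with h1 | h1
      · exact c.cvr_ndvd h1
      · exact d.cvr_ndvd h1
    · rintro ⟨⟨⟨g, u, v⟩, hq, hq'⟩, hz⟩
      have hg : g = 1 := hz
      subst hg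
      apply Subtype.ext
      apply Subtype.ext
      have h1 : u ^ ((Nat.card c.F - 1) * (Nat.card d.F - 1)) = 1 := by
        rw [pow_mul, c.scal_pow hq, one_pow]
      have h2 : v ^ ((Nat.card c.F - 1) * (Nat.card d.F - 1)) = 1 := by
        rw [mul_comm, pow_mul, d.scal_pow hq', one_pow]
      exact Prod.ext (one_pow _) (Prod.ext h1 h2)
  scal := by
    rintro ⟨⟨g, u, v⟩, hq, hq'⟩ hz
    have hg : g = 1 := hz
    subst hg
    exact c.scal u hq
  ker := by
    rintro ⟨⟨g, u, v⟩, hq, hq'⟩ hl ha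
    have hu : u = 1 := Units.ext ha
    subst hu
    obtain ⟨j, hj⟩ := c.ker g hl
    exact ⟨j, hj⟩

/-- the group element -/
def g3 (c d e : Cvr p G) : Gam3 c d e →* G := (MonoidHom.fst _ _).comp (Gam3 c d e).subtype

/-- the first component -/
def pr3 (c d e : Cvr p G) : Gam3 c d e →* G × c.U :=
  (g3 c d e).prod ((MonoidHom.fst _ _).comp ((MonoidHom.snd _ _).comp (Gam3 c d e).subtype))

/-- the layer for the first space -/
def lay3 (c d e : Cvr p G) (h : c.H ≤ d.H) (h' : c.H ≤ e.H) : Lay p (Gam3 c d e) c.F c.V where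
  a := (Units.coeHom _).comp ((MonoidHom.snd _ _).comp (pr3 c d e))
  L := c.LL.comap (pr3 c d e)
  norm := by
    refine ⟨fun l hl q => ?_⟩
    rw [Subgroup.mem_comap, map_mul, map_mul, map_inv]
    exact c.norm _ q.2.1 _ hl
  surj := by
    intro u hu
    obtain ⟨v, rfl⟩ := c.unit_of_det u hu
    obtain ⟨g, hg⟩ := c.surj v hu
    obtain ⟨w, hw⟩ := d.onto g (h (c.mem _ (c.le hg)))
    obtain ⟨w', hw'⟩ := e.onto g (h' (c.mem _ (c.le hg)))
    exact ⟨⟨(g, v, w, w'), c.le hg, hw, hw'⟩, hg, rfl⟩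
  Z := (g3 c d e).ker
  cen := by
    rintro ⟨⟨g, u, v, w⟩, hq, hq', hq''⟩ hz
    have hg : g = 1 := hz
    subst hg
    rw [Subgroup.mem_center_iff]
    rintro ⟨⟨k, u', v', w'⟩, hr⟩
    apply Subtype.ext
    exact Prod.ext ((mul_one k).trans (one_mul k).symm)
      (Prod.ext (c.scal_comm hq u').symm
        (Prod.ext (d.scal_comm hq' v').symm (e.scal_comm hq'' w').symm))
  cop := by
    refine cop_of_pow c.cvr_prime
      ((Nat.card c.F - 1) * (Nat.card d.F - 1) * (Nat.card e.F - 1)) ?_ ?_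
    · intro hd
      rcases (c.cvr_prime.dvd_mul).mp hd with h1 | h1
      · rcases (c.cvr_prime.dvd_mul).mp h1 with h2 | h2
        · exact c.cvr_ndvd h2
        · exact d.cvr_ndvd h2
      · exact e.cvr_ndvd h1
    · rintro ⟨⟨⟨g, u, v, w⟩, hq, hq', hq''⟩, hz⟩
      have hg : g = 1 := hz
      subst hg
      apply Subtype.ext
      apply Subtype.ext
      have h1 : u ^ ((Nat.card c.F - 1) * (Nat.card d.F - 1) * (Nat.card e.F - 1)) = 1 := by
        rw [pow_mul, pow_mul, c.scal_pow hq, one_pow, one_pow]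
      have h2 : v ^ ((Nat.card c.F - 1) * (Nat.card d.F - 1) * (Nat.card e.F - 1)) = 1 := by
        rw [mul_comm (Nat.card c.F - 1), pow_mul, pow_mul, d.scal_pow hq', one_pow, one_pow]
      have h3 : w ^ ((Nat.card c.F - 1) * (Nat.card d.F - 1) * (Nat.card e.F - 1)) = 1 := by
        rw [mul_comm, pow_mul, e.scal_pow hq'', one_pow]
      exact Prod.ext (one_pow _) (Prod.ext h1 (Prod.ext h2 h3))
  scal := by
    rintro ⟨⟨g, u, v, w⟩, hq, hq', hq''⟩ hz
    have hg : g = 1 := hz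
    subst hg
    exact c.scal u hq
  ker := by
    rintro ⟨⟨g, u, v, w⟩, hq, hq', hq''⟩ hl ha
    have hu : u = 1 := Units.ext ha
    subst hu
    obtain ⟨j, hj⟩ := c.ker g hl
    exact ⟨j, hj⟩

/-- forget the third space -/
def f12 (c d e : Cvr p G) : Gam3 c d e →* Gam2 c d where
  toFun q := ⟨(q.1.1, q.1.2.1, q.1.2.2.1), q.2.1, q.2.2.1⟩
  map_one' := rfl
  map_mul' _ _ := rfl

/-- forget the second space -/
def f13 (c d e : Cvr p G) : Gam3 c d e →* Gam2 c e where
  toFun q := ⟨(q.1.1, q.1.2.1, q.1.2.2.2), q.2.1, q.2.2.2⟩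
  map_one' := rfl
  map_mul' _ _ := rfl

/-- forget the first space -/
def f23 (c d e : Cvr p G) : Gam3 c d e →* Gam2 d e where
  toFun q := ⟨(q.1.1, q.1.2.2.1, q.1.2.2.2), q.2.2.1, q.2.2.2⟩
  map_one' := rfl
  map_mul' _ _ := rfl

/-- the degree -/
def Dg2 (c d : Cvr p G) (h : c.H ≤ d.H) (n : ℕ) : Prop := (lay2 c d h).Dg (rep2 c d) n

end Cvr

end Pool.Agent.Lib.MP_b9166b_al.Pt
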