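import Pool.Agent.Lib.MP_b9166b_al.Pt.Pgrp

/-!
# MP_b9166b_al, PT: sections of a representation

`ρ : Γ →* (W →ₗ[K] W)`, `Y ≤ Γ`. `Inv ρ Y M`: `M` is `Y`-stable. `Irr ρ Y M₁ M₂`: `M₂ < M₁` are `Y`-stable and there is
nothing `Y`-stable between them. `pr ρ l`: the product of the `ρ g - 1`, `g ∈ l`.

`Series`: a chain `⊥ = c 0 ≤ c 1 ≤ ... ≤ c l = ⊤` of `Y`-stable subspaces with `Irr` steps; exists by finite dimension.
`nt`: (NT of the paper) let `c` be a series for `Y₂`. If `pr ρ l` maps `c (i+1)` into `c i` for all `i`, then by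
induction `M₁ ≤ c (n - i) ⊔ M₂` (`n` the length): the span of all `ρ g (pr ρ l w)`, `g ∈ Y₁`, `w ∈ M₁`, and `M₂` is
`Y₁`-stable, so it is `M₁` (`Irr`); and `pr ρ l` maps `c (i+1) ⊔ M₂` into `c i ⊔ M₂`, which is `Y₁`-stable.
`Irr.pgroup`: `R` a `p`-subgroup of `Γ` normalised by `Y` and contained in `Y`, `K` of characteristic `p`, `W` finite: the set
of `w ∈ M₁` with `ρ r w - w ∈ M₂` for all `r ∈ R` is a `Y`-stable subspace between `M₂` and `M₁`, and it is `≠ M₂`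
(a `p`-group acting on the nontrivial finite `p`-group `M₁/M₂` has a nontrivial fixed point:
`IsPGroup.card_modEq_card_fixedPoints`).
`exists_quot`: the quotient `B = M₁ ⧸ M₂` as a type.
-/

set_option autoImplicit false

namespace Pool.Agent.Lib.MP_b9166b_al.Pt

open Module

variable {Γ K W : Type} [Group Γ] [Field K] [AddCommGroup W] [Module K W]

/-- `Y`-stable subspaces -/
def Inv (ρ : Γ →* (W →ₗ[K] W)) (Y : Subgroup Γ) (M : Submodule K W) : Prop :=
  ∀ g ∈ Y, ∀ w ∈ M, ρ g w ∈ M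

/-- irreducible sections -/
structure Irr (ρ : Γ →* (W →ₗ[K] W)) (Y : Subgroup Γ) (M₁ M₂ : Submodule K W) : Prop where
  inv1 : Inv ρ Y M₁
  inv2 : Inv ρ Y M₂
  lt : M₂ < M₁
  irr : ∀ M, Inv ρ Y M → M₂ ≤ M → M ≤ M₁ → M = M₂ ∨ M = M₁

/-- the product of the `ρ g - 1` -/
def pr (ρ : Γ →* (W →ₗ[K] W)) (l : List Γ) : W →ₗ[K] W := (l.map fun g => ρ g - 1).prod

/-- a composition series -/
structure Series (ρ : Γ →* (W →ₗ[K] W)) (Y : Subgroup Γ) (l : ℕ) where
  c : ℕ → Submodule K W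
  zero : c 0 = ⊥
  top : c l = ⊤
  irr : ∀ i < l, Irr ρ Y (c (i + 1)) (c i)

theorem exists_series [FiniteDimensional K W] (ρ : Γ →* (W →ₗ[K] W)) (Y : Subgroup Γ) :
    ∃ l, Nonempty (Series ρ Y l) := by
  have key : ∀ n : ℕ, ∀ M : Submodule K W, finrank K M ≤ n → Inv ρ Y M →
      ∃ (l : ℕ) (c : ℕ → Submodule K W), c 0 = ⊥ ∧ c l = M ∧
        ∀ i < l, Irr ρ Y (c (i + 1)) (c i) := by
    intro n
    induction n with
    | zero =>
      intro M hM _
      have h0 : M = ⊥ := Submodule.finrank_eq_zero.1 (Nat.le_zero.1 hM)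
      exact ⟨0, fun _ => ⊥, rfl, h0.symm, fun i hi => absurd hi (Nat.not_lt_zero i)⟩
    | succ n ih =>
      intro M hM hinv
      by_cases hbot : M = ⊥
      · exact ⟨0, fun _ => ⊥, rfl, hbot.symm, fun i hi => absurd hi (Nat.not_lt_zero i)⟩
      · let S : Set (Submodule K W) := {N | N < M ∧ Inv ρ Y N}
        have hS : S.Nonempty := by
          refine ⟨⊥, bot_lt_iff_ne_bot.2 hbot, ?_⟩
          intro g _ w hw
          rw [Submodule.mem_bot] at hw
          rw [hw, map_zero]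
          exact Submodule.zero_mem _
        obtain ⟨N, hNS, hmax⟩ := wellFounded_gt.has_min S hS
        have hlt : finrank K N < finrank K M := Submodule.finrank_lt_finrank_of_lt hNS.1
        obtain ⟨l, c, hc0, hcl, hci⟩ := ih N (by omega) hNS.2
        refine ⟨l + 1, fun i => if i ≤ l then c i else M, ?_, ?_, ?_⟩
        · simp [hc0]
        · simp
        · intro i hi
          rcases Nat.lt_or_ge i l with h | h
          · have h1 : i + 1 ≤ l := h
            have h2 : i ≤ l := h.le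
            simp only [h1, h2, if_true]
            exact hci i h
          · have hil : i = l := by omega
            subst hil
            have h1 : ¬ i + 1 ≤ i := by omega
            simp only [h1, if_false, le_refl, if_true]
            rw [hcl]
            refine ⟨hinv, hNS.2, hNS.1, ?_⟩
            intro P hP hNP hPM
            rcases hPM.lt_or_eq with h3 | h3
            · left
              by_contra hne
              exact hmax P ⟨h3, hP⟩ (lt_of_le_of_ne hNP (Ne.symm hne))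
            · right; exact h3
  obtain ⟨l, c, h0, hl, hi⟩ := key (finrank K (⊤ : Submodule K W)) ⊤ le_rfl
    (fun _ _ _ _ => Submodule.mem_top)
  exact ⟨l, ⟨⟨c, h0, hl, hi⟩⟩⟩

theorem Inv.sup {ρ : Γ →* (W →ₗ[K] W)} {Y : Subgroup Γ} {M N : Submodule K W} (hM : Inv ρ Y M)
    (hN : Inv ρ Y N) : Inv ρ Y (M ⊔ N) := by
  intro g hg w hw
  obtain ⟨a, ha, b, hb, rfl⟩ := Submodule.mem_sup.1 hw
  rw [map_add]
  exact Submodule.add_mem_sup (hM g hg a ha) (hN g hg b hb)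

theorem Inv.inf {ρ : Γ →* (W →ₗ[K] W)} {Y : Subgroup Γ} {M N : Submodule K W} (hM : Inv ρ Y M)
    (hN : Inv ρ Y N) : Inv ρ Y (M ⊓ N) := fun g hg w hw =>
  ⟨hM g hg w hw.1, hN g hg w hw.2⟩

theorem Inv.mono {ρ : Γ →* (W →ₗ[K] W)} {Y Y' : Subgroup Γ} {M : Submodule K W} (hM : Inv ρ Y M)
    (h : Y' ≤ Y) : Inv ρ Y' M := fun g hg => hM g (h hg)

/-- `pr` preserves stable subspaces -/
theorem Inv.pr {ρ : Γ →* (W →ₗ[K] W)} {Y : Subgroup Γ} {M : Submodule K W} (hM : Inv ρ Y M)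
    {l : List Γ} (hl : ∀ g ∈ l, g ∈ Y) {w : W} (hw : w ∈ M) : Pt.pr ρ l w ∈ M := by
  induction l with
  | nil => simpa [Pt.pr] using hw
  | cons g l ih =>
    have h1 := ih (fun x hx => hl x (List.mem_cons_of_mem _ hx))
    have h2 : Pt.pr ρ (g :: l) w = ρ g (Pt.pr ρ l w) - Pt.pr ρ l w := by
      simp [Pt.pr, Module.End.mul_apply, LinearMap.sub_apply, Module.End.one_apply]
    rw [h2]
    exact M.sub_mem (hM g (hl g List.mem_cons_self) _ h1) h1

/-- (NT) -/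
theorem nt [FiniteDimensional K W] {ρ : Γ →* (W →ₗ[K] W)} {Y₁ Y₂ : Subgroup Γ} (h : Y₁ ≤ Y₂)
    {M₁ M₂ : Submodule K W} (hM : Irr ρ Y₁ M₁ M₂) {l : List Γ} (hl : ∀ g ∈ l, g ∈ Y₁)
    (hne : ∃ w ∈ M₁, pr ρ l w ∉ M₂) :
    ∃ N₁ N₂, Irr ρ Y₂ N₁ N₂ ∧ ∃ w ∈ N₁, pr ρ l w ∉ N₂ := by
  by_contra hcon
  obtain ⟨n, ⟨⟨c, hc0, hcn, hci⟩⟩⟩ := exists_series ρ Y₂
  obtain ⟨w, hw, hwn⟩ := hne
  have hmap : ∀ i < n, ∀ x ∈ c (i + 1), pr ρ l x ∈ c i := by
    intro i hi x hx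
    by_contra hx'
    exact hcon ⟨c (i + 1), c i, hci i hi, x, hx, hx'⟩
  have hcinv : ∀ i, i < n → Inv ρ Y₁ (c i) := fun i hi => (hci i hi).inv2.mono h
  have key : ∀ k, k ≤ n → M₁ ≤ c (n - k) ⊔ M₂ := by
    intro k
    induction k with
    | zero =>
      intro _
      rw [Nat.sub_zero, hcn, top_sup_eq]
      exact le_top
    | succ k ih =>
      intro hk
      have h1 := ih (by omega)
      have hi : n - (k + 1) < n := by omega
      have hi1 : n - (k + 1) + 1 = n - k := by omega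
      have hinv : Inv ρ Y₁ ((c (n - (k + 1)) ⊔ M₂) ⊓ M₁) :=
        ((hcinv _ hi).sup hM.inv2).inf hM.inv1
      rcases hM.irr _ hinv (le_inf le_sup_right hM.lt.le) inf_le_right with h2 | h2
      · exfalso
        apply hwn
        rw [← h2]
        refine ⟨?_, hM.inv1.pr hl hw⟩
        obtain ⟨a, ha, b, hb, hab⟩ := Submodule.mem_sup.1 (h1 hw)
        rw [← hab, map_add]
        refine Submodule.add_mem_sup ?_ (hM.inv2.pr hl hb)
        exact hmap _ hi a (by rw [hi1]; exact ha)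
      · rw [← h2]
        exact inf_le_left
  have h3 := key n le_rfl
  rw [Nat.sub_self, hc0, bot_sup_eq] at h3
  exact absurd h3 (not_le_of_gt hM.lt)

/-- the quotient of a section -/
theorem exists_quot [FiniteDimensional K W] (ρ : Γ →* (W →ₗ[K] W)) (Y : Subgroup Γ)
    {M₁ M₂ : Submodule K W} (h1 : Inv ρ Y M₁) (h2 : Inv ρ Y M₂) :
    ∃ (B : Type) (_ : AddCommGroup B) (_ : Module K B) (_ : FiniteDimensional K B)
      (π : M₁ →ₗ[K] B) (σ : Y →* (B →ₗ[K] B)), Function.Surjective π ∧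
      (∀ w, π w = 0 ↔ (w : W) ∈ M₂) ∧
      ∀ (g : Y) (w : M₁), σ g (π w) = π ⟨ρ g w, h1 g g.2 w w.2⟩ := by
  let N : Submodule K M₁ := M₂.comap M₁.subtype
  have hmem : ∀ w : M₁, w ∈ N ↔ (w : W) ∈ M₂ := fun w => Iff.rfl
  let r : Y → (M₁ →ₗ[K] M₁) := fun g => (ρ g).restrict (fun w hw => h1 g g.2 w hw)
  have hr : ∀ (g : Y) (w : M₁), ((r g w : M₁) : W) = ρ g w := fun g w => rfl
  have hrN : ∀ g : Y, N ≤ N.comap (r g) := fun g w hw => h2 g g.2 _ hw
  refine ⟨M₁ ⧸ N, inferInstance, inferInstance, inferInstance, N.mkQ,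
    { toFun := fun g => N.mapQ N (r g) (hrN g)
      map_one' := ?_
      map_mul' := ?_ }, N.mkQ_surjective, ?_, ?_⟩
  · ext w
    have hw1 : r 1 w = w := by
      apply Subtype.ext
      rw [hr]
      simp
    simp only [LinearMap.comp_apply, Submodule.mkQ_apply, Submodule.mapQ_apply, hw1]
    rfl
  · intro g g'
    ext w
    have hw1 : r (g * g') w = r g (r g' w) := by
      apply Subtype.ext
      rw [hr, hr, hr]
      simp
    simp only [LinearMap.comp_apply, Submodule.mkQ_apply, Submodule.mapQ_apply, hw1]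
    rfl
  · intro w
    rw [Submodule.mkQ_apply, Submodule.Quotient.mk_eq_zero]
    exact hmem w
  · intro g w
    rfl

/-- the subspace of vectors fixed modulo `M₂` -/
theorem Irr.fix_or {ρ : Γ →* (W →ₗ[K] W)} {Y : Subgroup Γ} {M₁ M₂ : Submodule K W}
    (hM : Irr ρ Y M₁ M₂) {S : Set Γ} (hSY : ∀ s ∈ S, s ∈ Y)
    (hn : ∀ y ∈ Y, ∀ s ∈ S, y * s * y⁻¹ ∈ S) :
    (∀ w ∈ M₁, (∀ s ∈ S, ρ s w - w ∈ M₂) → w ∈ M₂) ∨
      (∀ w ∈ M₁, ∀ s ∈ S, ρ s w - w ∈ M₂) := by
  let F : Submodule K W :=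
    { carrier := {w | w ∈ M₁ ∧ ∀ s ∈ S, ρ s w - w ∈ M₂}
      zero_mem' := ⟨M₁.zero_mem, fun s _ => by rw [map_zero, sub_zero]; exact M₂.zero_mem⟩
      add_mem' := by
        rintro a b ⟨ha, ha'⟩ ⟨hb, hb'⟩
        refine ⟨M₁.add_mem ha hb, fun s hs => ?_⟩
        have : ρ s (a + b) - (a + b) = (ρ s a - a) + (ρ s b - b) := by
          rw [map_add]; abel
        rw [this]
        exact M₂.add_mem (ha' s hs) (hb' s hs)
      smul_mem' := by
        rintro t a ⟨ha, ha'⟩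
        refine ⟨M₁.smul_mem t ha, fun s hs => ?_⟩
        rw [map_smul, ← smul_sub]
        exact M₂.smul_mem t (ha' s hs) }
  have hF : ∀ w, w ∈ F ↔ w ∈ M₁ ∧ ∀ s ∈ S, ρ s w - w ∈ M₂ := fun w => Iff.rfl
  have hinv : Inv ρ Y F := by
    intro y hy w hw
    rw [hF] at hw ⊢
    refine ⟨hM.inv1 y hy w hw.1, fun s hs => ?_⟩
    have h1 : y⁻¹ * s * y ∈ S := by
      have := hn y⁻¹ (Y.inv_mem hy) s hs
      rwa [inv_inv] at this
    have h2 : ρ s (ρ y w) - ρ y w = ρ y (ρ (y⁻¹ * s * y) w - w) := by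
      rw [map_sub, ← Module.End.mul_apply, ← map_mul, ← Module.End.mul_apply, ← map_mul]
      have : y * (y⁻¹ * s * y) = s * y := by group
      rw [this]
    rw [h2]
    exact hM.inv2 y hy _ (hw.2 _ h1)
  have hle : M₂ ≤ F := by
    intro w hw
    rw [hF]
    exact ⟨hM.lt.le hw, fun s hs => M₂.sub_mem (hM.inv2 s (hSY s hs) w hw) hw⟩
  have hle' : F ≤ M₁ := fun w hw => ((hF w).1 hw).1
  rcases hM.irr F hinv hle hle' with h | h
  · left
    intro w hw hs
    rw [← h, hF]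
    exact ⟨hw, hs⟩
  · right
    intro w hw s hs
    rw [← h] at hw
    exact ((hF w).1 hw).2 s hs

theorem Irr.pgroup [Finite W] {p : ℕ} (hp : p.Prime) [CharP K p] {ρ : Γ →* (W →ₗ[K] W)}
    {Y : Subgroup Γ} {M₁ M₂ : Submodule K W} (hM : Irr ρ Y M₁ M₂) {R : Subgroup Γ}
    (hR : IsPGroup p R) (hRY : R ≤ Y) (hn : ∀ y ∈ Y, ∀ r ∈ R, y * r * y⁻¹ ∈ R) {r : Γ}
    (hr : r ∈ R) {w : W} (hw : w ∈ M₁) : ρ r w - w ∈ M₂ := by
  haveI : Fact p.Prime := ⟨hp⟩
  rcases hM.fix_or (S := {x | x ∈ R}) (fun s hs => hRY hs) (fun y hy s hs => hn y hy s hs) with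
    h | h
  · exfalso
    haveI : FiniteDimensional K W := Module.Finite.of_finite
    obtain ⟨B, _, _, _, π, σ, hsur, hker, hact⟩ := exists_quot ρ Y hM.inv1 hM.inv2
    haveI : Finite B := Finite.of_surjective π hsur
    let act : MulAction R B :=
      { smul := fun r b => σ ⟨r, hRY r.2⟩ b
        one_smul := fun b => by
          change σ ⟨((1 : R) : Γ), _⟩ b = b
          have : (⟨((1 : R) : Γ), hRY (1 : R).2⟩ : Y) = 1 := rfl
          rw [this, map_one]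
          rfl
        mul_smul := fun r r' b => by
          change σ ⟨((r * r' : R) : Γ), _⟩ b = σ ⟨r, _⟩ (σ ⟨r', _⟩ b)
          have : (⟨((r * r' : R) : Γ), hRY (r * r' : R).2⟩ : Y) =
              ⟨r, hRY r.2⟩ * ⟨r', hRY r'.2⟩ := rfl
          rw [this, map_mul]
          rfl }
    have hsm : ∀ (x : R) (b : B), x • b = σ ⟨x, hRY x.2⟩ b := fun _ _ => rfl
    obtain ⟨w0, hw0, hw0'⟩ := SetLike.exists_of_lt hM.lt
    have hb0 : π ⟨w0, hw0⟩ ≠ 0 := fun h0 => hw0' ((hker _).1 h0)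
    have hdvd : p ∣ Nat.card B := by
      have h1 : p • π ⟨w0, hw0⟩ = 0 := by
        rw [← Nat.cast_smul_eq_nsmul K, CharP.cast_eq_zero, zero_smul]
      have h2 : addOrderOf (π ⟨w0, hw0⟩) = p := addOrderOf_eq_prime h1 hb0
      rw [← h2]
      exact addOrderOf_dvd_natCard _
    have hfix0 : (0 : B) ∈ MulAction.fixedPoints R B := by
      intro x
      rw [hsm, map_zero]
    obtain ⟨b, hb, hb'⟩ :=
      hR.exists_fixed_point_of_prime_dvd_card_of_fixed_point B hdvd hfix0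
    obtain ⟨v, rfl⟩ := hsur b
    have hv : (v : W) ∈ M₂ := by
      apply h v v.2
      intro s hs
      have h3 := hb ⟨s, hs⟩
      rw [hsm, hact] at h3
      have h4 : π (⟨ρ s v, hM.inv1 s (hRY hs) v v.2⟩ - v) = 0 := by
        rw [map_sub, sub_eq_zero]
        exact h3
      exact (hker _).1 h4
    exact hb' ((hker v).2 hv).symm
  · exact h w hw r hr

/-- the vectors fixed by a set normalised by `Y` -/
theorem Irr.fixed {ρ : Γ →* (W →ₗ[K] W)} {Y : Subgroup Γ} {M₁ M₂ : Submodule K W}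
    (hM : Irr ρ Y M₁ M₂) {S : Set Γ} (hSY : ∀ s ∈ S, s ∈ Y)
    (hn : ∀ y ∈ Y, ∀ s ∈ S, y * s * y⁻¹ ∈ S) (hne : ∃ s ∈ S, ∃ w ∈ M₁, ρ s w - w ∉ M₂) {w : W}
    (hw : w ∈ M₁) (h : ∀ s ∈ S, ρ s w - w ∈ M₂) : w ∈ M₂ := by
  rcases hM.fix_or hSY hn with h1 | h1
  · exact h1 w hw h
  · obtain ⟨s, hs, v, hv, hv'⟩ := hne
    exact absurd (h1 v hv s hs) hv'


end Pool.Agent.Lib.MP_b9166b_al.Pt
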