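import Pool.Agent.Lib.MP_b9166b_al.Pt.Lay
import Pool.Agent.Lib.MP_b9166b_al.Pt.Sec

/-!
# MP_b9166b_al, PT: the degree

`Sys v f`: an `n`-system (`n` independent commuting transvections). `ℓ.Dg ρ n` (`D_n` of the paper).

Proofs. `exists_sl`: `f i (v j) = 0`. Choose `w j` with `f i (w j) = δ` ; `v, w` are independent; `C` a complement of
`span v` in `⨅ ker (f i)`, `dim C = dim V - 2n ≥ 1`, `V = span v ⊕ span w ⊕ C`. The same for `v', f'`. Map `v ↦ v'`, `w ↦ w'`, `C → C'` any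
isomorphism, and multiply one basis vector of `C` by a scalar to get determinant 1.
`pr_congr`: induction on the list. `Dg.all`: `u = a x`, `x ∈ L` (`surj`); `x * g i * x⁻¹` is a root lift of `(v' i, f' i)` (`Rt.conj`), so
equal to `g' i` modulo `T` (`Rt.unique`), `T` is trivial on `M₁ / M₂` (`Irr.pgroup`, `T` normal), `pr ρ (map conj) = ρ x ∘ pr ρ l ∘ ρ x⁻¹`.
`Dg.mono`: drop the last factor. `Dg.of_irr`: `nt`.
`Dg.comap`: `φ : Γ' → Γ` surjective, `ℓ'.a = ℓ.a ∘ φ`, `ℓ'.L = ℓ.L.comap φ`: sections are the same; a root lift of `ℓ'` is mapped to a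
root lift; a root lift `g` of `ℓ`: take `g'` with `φ g' = g` and its `p`-part (`exists_ppart`).
-/

set_option autoImplicit false

namespace Pool.Agent.Lib.MP_b9166b_al.Pt

open Module

/-- independent commuting transvections -/
def Sys {F V : Type} [Field F] [AddCommGroup V] [Module F V] {n : ℕ} (v : Fin n → V)
    (f : Fin n → Dual F V) : Prop :=
  (∀ i j, f i (v j) = 0) ∧ LinearIndependent F v ∧ LinearIndependent F f

theorem deg_dual {F V : Type} [Field F] [AddCommGroup V] [Module F V] [FiniteDimensional F V]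
    {n : ℕ} {f : Fin n → Dual F V} (hf : LinearIndependent F f) :
    ∃ w : Fin n → V, ∀ i j, f i (w j) = if i = j then 1 else 0 := by
  have h1 : ∀ j : Fin n, ∃ w : V, ∀ i, f i w = if i = j then 1 else 0 := by
    intro j
    obtain ⟨g, hg⟩ := LinearMap.exists_extend ((Finsupp.lapply j).comp hf.repr :
      Submodule.span F (Set.range f) →ₗ[F] F)
    refine ⟨(evalEquiv F V).symm g, fun i => ?_⟩
    rw [apply_evalEquiv_symm_apply]
    have h2 : f i ∈ Submodule.span F (Set.range f) := Submodule.subset_span ⟨i, rfl⟩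
    have h3 : g (f i) = ((Finsupp.lapply j).comp hf.repr :
        Submodule.span F (Set.range f) →ₗ[F] F) ⟨f i, h2⟩ := by
      rw [← hg]
      rfl
    rw [h3, LinearMap.comp_apply, Finsupp.lapply_apply, hf.repr_eq_single i ⟨f i, h2⟩ rfl,
      Finsupp.single_apply]
  choose w hw using h1
  exact ⟨w, fun i j => hw j i⟩

theorem deg_basis {F V : Type} [Field F] [AddCommGroup V] [Module F V] [FiniteDimensional F V]
    {n : ℕ} {v : Fin n → V} {f : Fin n → Dual F V} (h : Sys v f) :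
    ∃ (m : ℕ) (b : Basis (Fin n ⊕ (Fin n ⊕ Fin m)) F V), (∀ i, b (Sum.inl i) = v i) ∧
      ∀ i x, f i (b x) = if x = Sum.inr (Sum.inl i) then 1 else 0 := by
  obtain ⟨h0, hv, hf⟩ := h
  obtain ⟨w, hw⟩ := deg_dual hf
  obtain ⟨K, hK⟩ : ∃ K : Submodule F V, ∀ x, x ∈ K ↔ ∀ i, f i x = 0 :=
    ⟨⨅ i, LinearMap.ker (f i), fun x => by simp [Submodule.mem_iInf]⟩
  obtain ⟨C', hC'⟩ := Submodule.exists_isCompl (Submodule.span F (Set.range v))
  have hSK : Submodule.span F (Set.range v) ≤ K := by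
    refine Submodule.span_le.2 ?_
    rintro _ ⟨j, rfl⟩
    exact (hK _).2 fun i => h0 i j
  have hsum : Submodule.span F (Set.range v) ⊔ C' ⊓ K = K := by
    rw [← sup_inf_assoc_of_le C' hSK, hC'.sup_eq_top, top_inf_eq]
  let c := Module.finBasis F (C' ⊓ K : Submodule F V)
  let fam : Fin n ⊕ (Fin n ⊕ Fin (finrank F (C' ⊓ K : Submodule F V))) → V :=
    Sum.elim v (Sum.elim w (fun k => (c k : V)))
  have hfc : ∀ i k, f i (c k : V) = 0 := fun i k => (hK _).1 (c k).2.2 i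
  have hli : LinearIndependent F fam := by
    rw [Fintype.linearIndependent_iff]
    intro g hg
    have hg' : ∑ i, g (Sum.inl i) • v i + (∑ j, g (Sum.inr (Sum.inl j)) • w j +
        ∑ k, g (Sum.inr (Sum.inr k)) • (c k : V)) = 0 := by
      rw [← hg, Fintype.sum_sum_type, Fintype.sum_sum_type]
      rfl
    have hw0 : ∀ i, g (Sum.inr (Sum.inl i)) = 0 := by
      intro i
      have h1 := congrArg (f i) hg'
      rw [map_add, map_add, map_sum, map_sum, map_sum, map_zero] at h1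
      simp only [map_smul, h0, hw, hfc, smul_eq_mul, mul_zero, mul_ite, mul_one,
        Finset.sum_const_zero, zero_add, add_zero, Finset.sum_ite_eq, Finset.mem_univ,
        if_true] at h1
      exact h1
    have h1 : ∑ i, g (Sum.inl i) • v i + ∑ k, g (Sum.inr (Sum.inr k)) • (c k : V) = 0 := by
      rw [← hg']
      simp only [hw0, zero_smul, Finset.sum_const_zero, zero_add]
    have h2 : ∑ i, g (Sum.inl i) • v i ∈ Submodule.span F (Set.range v) :=
      Submodule.sum_mem _ fun i _ => Submodule.smul_mem _ _ (Submodule.subset_span ⟨i, rfl⟩)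
    have h3 : ∑ k, g (Sum.inr (Sum.inr k)) • (c k : V) ∈ C' :=
      Submodule.sum_mem _ fun k _ => Submodule.smul_mem _ _ (c k).2.1
    have h4 : ∑ i, g (Sum.inl i) • v i = 0 := by
      refine Submodule.disjoint_def.1 hC'.disjoint _ h2 ?_
      rw [eq_neg_of_add_eq_zero_left h1]
      exact Submodule.neg_mem _ h3
    have h5 : ∑ k, g (Sum.inr (Sum.inr k)) • (c k : V) = 0 := by
      rwa [h4, zero_add] at h1
    have h6 : ∑ k, g (Sum.inr (Sum.inr k)) • c k = 0 := by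
      apply Subtype.ext
      rw [Submodule.coe_sum]
      exact h5
    rintro (i | (j | k))
    · exact (Fintype.linearIndependent_iff.1 hv) (fun i => g (Sum.inl i)) h4 i
    · exact hw0 j
    · exact (Fintype.linearIndependent_iff.1 c.linearIndependent)
        (fun k => g (Sum.inr (Sum.inr k))) h6 k
  have hsp : ⊤ ≤ Submodule.span F (Set.range fam) := by
    intro x _
    have hvS : Submodule.span F (Set.range v) ≤ Submodule.span F (Set.range fam) := by
      refine Submodule.span_mono ?_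
      rintro _ ⟨i, rfl⟩
      exact ⟨Sum.inl i, rfl⟩
    have hwS : ∀ j, w j ∈ Submodule.span F (Set.range fam) := fun j =>
      Submodule.subset_span ⟨Sum.inr (Sum.inl j), rfl⟩
    have hcS : ∀ y ∈ C' ⊓ K, y ∈ Submodule.span F (Set.range fam) := by
      intro y hy
      have h1 : y = ∑ k, c.repr ⟨y, hy⟩ k • (c k : V) := by
        have h2 := congrArg Subtype.val (c.sum_repr ⟨y, hy⟩)
        rw [Submodule.coe_sum] at h2
        exact h2.symm
      rw [h1]
      exact Submodule.sum_mem _ fun k _ => Submodule.smul_mem _ _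
        (Submodule.subset_span ⟨Sum.inr (Sum.inr k), rfl⟩)
    have hy : x - ∑ i, f i x • w i ∈ K := by
      rw [hK]
      intro j
      rw [map_sub, map_sum]
      simp only [map_smul, hw, smul_eq_mul, mul_ite, mul_one, mul_zero, Finset.sum_ite_eq,
        Finset.mem_univ, if_true, sub_self]
    rw [← hsum] at hy
    obtain ⟨s, hs, t, ht, hst⟩ := Submodule.mem_sup.1 hy
    have h1 : x = (s + t) + ∑ i, f i x • w i := by
      rw [hst, sub_add_cancel]
    rw [h1]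
    exact Submodule.add_mem _ (Submodule.add_mem _ (hvS hs) (hcS t ht))
      (Submodule.sum_mem _ fun i _ => Submodule.smul_mem _ _ (hwS i))
  refine ⟨_, Basis.mk hli hsp, fun i => ?_, fun i x => ?_⟩
  · rw [Basis.mk_apply]
    rfl
  · rw [Basis.mk_apply]
    rcases x with j | (j | k)
    · rw [if_neg (by simp)]
      exact h0 i j
    · show f i (w j) = _
      rw [hw]
      by_cases hij : i = j
      · subst hij
        rw [if_pos rfl, if_pos rfl]
      · rw [if_neg hij, if_neg]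
        intro h1
        exact hij (Sum.inl_injective (Sum.inr_injective h1)).symm
    · rw [if_neg (by simp)]
      exact hfc i k

theorem exists_sl {F V : Type} [Field F] [AddCommGroup V] [Module F V] [FiniteDimensional F V]
    {n : ℕ} (hd : 2 * n < finrank F V) {v v' : Fin n → V} {f f' : Fin n → Dual F V}
    (h : Sys v f) (h' : Sys v' f') :
    ∃ u : V ≃ₗ[F] V, LinearMap.det u.toLinearMap = 1 ∧ (∀ i, u (v i) = v' i) ∧
      ∀ i, f i ∘ₗ u.symm.toLinearMap = f' i := by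
  obtain ⟨m, b, hb1, hb2⟩ := deg_basis h
  obtain ⟨m', b', hb1', hb2'⟩ := deg_basis h'
  have hc := Module.finrank_eq_card_basis b
  have hc' := Module.finrank_eq_card_basis b'
  simp only [Fintype.card_sum, Fintype.card_fin] at hc hc'
  have hmm : m = m' := by omega
  subst hmm
  have hm : 0 < m := by omega
  let x0 : Fin n ⊕ (Fin n ⊕ Fin m) := Sum.inr (Sum.inr ⟨0, hm⟩)
  let u0 : V ≃ₗ[F] V := b.equiv b' (Equiv.refl _)
  have hdet0 : LinearMap.det u0.toLinearMap ≠ 0 := (LinearEquiv.isUnit_det' u0).ne_zero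
  let c : Fin n ⊕ (Fin n ⊕ Fin m) → Fˣ := fun x =>
    if x = x0 then (Units.mk0 _ hdet0)⁻¹ else 1
  let b2 : Basis (Fin n ⊕ (Fin n ⊕ Fin m)) F V := b'.unitsSMul c
  have hb2a : ∀ x, b2 x = (c x : F) • b' x := fun x => by
    rw [Basis.unitsSMul_apply]
    rfl
  let g : V ≃ₗ[F] V := b'.equiv b2 (Equiv.refl _)
  have hg : ∀ x, g (b' x) = (c x : F) • b' x := fun x => by
    rw [Basis.equiv_apply, Equiv.refl_apply, hb2a]
  have hdetg : LinearMap.det g.toLinearMap = (LinearMap.det u0.toLinearMap)⁻¹ := by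
    rw [← LinearMap.det_toMatrix b']
    have h1 : LinearMap.toMatrix b' b' g.toLinearMap =
        Matrix.diagonal (fun x => (c x : F)) := by
      ext x y
      rw [LinearMap.toMatrix_apply, LinearEquiv.coe_coe, hg, map_smul, Finsupp.smul_apply,
        Basis.repr_self, Finsupp.single_apply, Matrix.diagonal_apply, smul_eq_mul]
      by_cases hxy : x = y
      · subst hxy
        rw [if_pos rfl, if_pos rfl, mul_one]
      · rw [if_neg hxy, if_neg (Ne.symm hxy), mul_zero]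
    rw [h1, Matrix.det_diagonal, Finset.prod_eq_single x0]
    · show ((if x0 = x0 then (Units.mk0 _ hdet0)⁻¹ else 1 : Fˣ) : F) = _
      rw [if_pos rfl, Units.val_inv_eq_inv_val, Units.val_mk0]
    · intro x _ hx
      show ((if x = x0 then (Units.mk0 _ hdet0)⁻¹ else 1 : Fˣ) : F) = _
      rw [if_neg hx, Units.val_one]
    · intro hx
      exact absurd (Finset.mem_univ x0) hx
  let u : V ≃ₗ[F] V := u0.trans g
  have hu : ∀ x, u (b x) = (c x : F) • b' x := fun x => by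
    show g (u0 (b x)) = _
    rw [show u0 (b x) = b' x by rw [Basis.equiv_apply, Equiv.refl_apply], hg]
  have hcl : ∀ i, (c (Sum.inl i) : F) = 1 := fun i => by
    show ((if Sum.inl i = x0 then (Units.mk0 _ hdet0)⁻¹ else 1 : Fˣ) : F) = _
    rw [if_neg (by simp [x0]), Units.val_one]
  have hcm : ∀ i, (c (Sum.inr (Sum.inl i)) : F) = 1 := fun i => by
    show ((if Sum.inr (Sum.inl i) = x0 then (Units.mk0 _ hdet0)⁻¹ else 1 : Fˣ) : F) = _
    rw [if_neg (by simp [x0]), Units.val_one]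
  refine ⟨u, ?_, ?_, ?_⟩
  · have h1 : u.toLinearMap = g.toLinearMap ∘ₗ u0.toLinearMap := rfl
    rw [h1, LinearMap.det_comp, hdetg, inv_mul_cancel₀ hdet0]
  · intro i
    rw [← hb1 i, hu, hcl, one_smul, hb1']
  · intro i
    apply b2.ext
    intro x
    have h1 : u.symm (b2 x) = b x := by
      rw [LinearEquiv.symm_apply_eq, hu, hb2a]
    rw [LinearMap.comp_apply, LinearEquiv.coe_coe, h1, hb2, hb2a, map_smul, hb2', smul_eq_mul]
    by_cases hx : x = Sum.inr (Sum.inl i)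
    · rw [if_pos hx, hx, hcm, mul_one]
    · rw [if_neg hx, mul_zero]

section

variable {Γ K W : Type} [Group Γ] [Field K] [AddCommGroup W] [Module K W]

theorem pr_cons (ρ : Γ →* (W →ₗ[K] W)) (g : Γ) (l : List Γ) (w : W) :
    pr ρ (g :: l) w = ρ g (pr ρ l w) - pr ρ l w := by
  simp [pr, Module.End.mul_apply, LinearMap.sub_apply, Module.End.one_apply]

theorem pr_nil (ρ : Γ →* (W →ₗ[K] W)) (w : W) : pr ρ [] w = w := by
  simp [pr]

theorem pr_congr {ρ : Γ →* (W →ₗ[K] W)} {Y : Subgroup Γ} {M₁ M₂ : Submodule K W}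
    (h1 : Inv ρ Y M₁) (h2 : Inv ρ Y M₂) {l l' : List Γ}
    (hl : List.Forall₂ (fun g g' => g ∈ Y ∧ g' ∈ Y ∧ ∀ w ∈ M₁, ρ g w - ρ g' w ∈ M₂) l l') {w : W}
    (hw : w ∈ M₁) : pr ρ l w - pr ρ l' w ∈ M₂ := by
  have hmem : ∀ {l l' : List Γ}, List.Forall₂ (fun g g' => g ∈ Y ∧ g' ∈ Y ∧
      ∀ w ∈ M₁, ρ g w - ρ g' w ∈ M₂) l l' → ∀ g ∈ l', g ∈ Y := by
    intro l l' hl
    induction hl with
    | nil =>
      intro g hg
      exact absurd hg List.not_mem_nil
    | cons h _ ih =>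
      intro g hg
      rcases List.mem_cons.1 hg with rfl | hg
      · exact h.2.1
      · exact ih g hg
  induction hl with
  | nil =>
    rw [sub_self]
    exact M₂.zero_mem
  | @cons g g' l l' h hl ih =>
    have h3 : pr ρ l' w ∈ M₁ := h1.pr (hmem hl) hw
    have h4 : pr ρ (g :: l) w - pr ρ (g' :: l') w = ρ g (pr ρ l w - pr ρ l' w) +
        (ρ g (pr ρ l' w) - ρ g' (pr ρ l' w)) - (pr ρ l w - pr ρ l' w) := by
      rw [pr_cons, pr_cons, map_sub]
      abel
    rw [h4]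
    exact M₂.sub_mem (M₂.add_mem (h2 g h.1 _ ih) (h.2.2 _ h3)) ih

theorem pr_conj (ρ : Γ →* (W →ₗ[K] W)) (x : Γ) (l : List Γ) (w : W) :
    pr ρ (l.map fun g => x * g * x⁻¹) (ρ x w) = ρ x (pr ρ l w) := by
  induction l with
  | nil => rw [List.map_nil, pr_nil, pr_nil]
  | cons g l ih =>
    have h1 : ∀ y : W, ρ (x * g * x⁻¹) (ρ x y) = ρ x (ρ g y) := by
      intro y
      have h2 : x * g * x⁻¹ * x = x * g := inv_mul_cancel_right _ _
      calc ρ (x * g * x⁻¹) (ρ x y) = (ρ (x * g * x⁻¹) * ρ x) y := rfl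
        _ = ρ (x * g) y := by rw [← map_mul, h2]
        _ = ρ x (ρ g y) := by rw [map_mul]; rfl
    rw [List.map_cons, pr_cons, pr_cons, ih, map_sub, h1]

theorem pr_append (ρ : Γ →* (W →ₗ[K] W)) (l l' : List Γ) (w : W) :
    pr ρ (l ++ l') w = pr ρ l (pr ρ l' w) := by
  simp [pr, List.map_append, List.prod_append, Module.End.mul_apply]

end

namespace Lay

variable {p : ℕ} {Γ F V K W : Type} [Group Γ] [Field F] [AddCommGroup V] [Module F V] [Field K]
  [AddCommGroup W] [Module K W]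

/-- the degree of `ρ` is at least `n` -/
def Dg (ℓ : Lay p Γ F V) (ρ : Γ →* (W →ₗ[K] W)) (n : ℕ) : Prop :=
  ∃ M₁ M₂, Irr ρ ⊤ M₁ M₂ ∧ ∃ (v : Fin n → V) (f : Fin n → Dual F V) (g : Fin n → Γ), Sys v f ∧
    (∀ i, ℓ.Rt (v i) (f i) (g i)) ∧ ∃ w ∈ M₁, pr ρ (List.ofFn g) w ∉ M₂

variable (ℓ : Lay p Γ F V) [Finite Γ] (hp : p.Prime) (ρ : Γ →* (W →ₗ[K] W))

include hp

/-- `T` is trivial on irreducible sections -/
theorem T_irr [Finite W] [CharP K p] {Y : Subgroup Γ} (hY : ℓ.T ≤ Y) {M₁ M₂ : Submodule K W}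
    (hM : Irr ρ Y M₁ M₂) {t : Γ} (ht : t ∈ ℓ.T) {w : W} (hw : w ∈ M₁) : ρ t w - w ∈ M₂ :=
  hM.pgroup hp (ℓ.T_pgroup hp) hY (fun y _ r hr => (ℓ.T_normal hp).conj_mem r hr y) ht hw

theorem move [Finite W] [CharP K p] [CharP F p] [FiniteDimensional F V] {n : ℕ}
    (hd : 2 * n < finrank F V) {M₁ M₂ : Submodule K W} (hM : Irr ρ ⊤ M₁ M₂) {v v' : Fin n → V}
    {f f' : Fin n → Dual F V} {g g' : Fin n → Γ} (hs : Sys v f) (hs' : Sys v' f')
    (hg : ∀ i, ℓ.Rt (v i) (f i) (g i)) (hg' : ∀ i, ℓ.Rt (v' i) (f' i) (g' i))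
    (h : ∃ w ∈ M₁, pr ρ (List.ofFn g) w ∉ M₂) : ∃ w ∈ M₁, pr ρ (List.ofFn g') w ∉ M₂ := by
  obtain ⟨u, hdet, huv, huf⟩ := exists_sl hd hs hs'
  obtain ⟨x, hxL, hxu⟩ := ℓ.surj u.toLinearMap hdet
  have hxinv : ℓ.a x⁻¹ = u.symm.toLinearMap := by
    have h1 : ℓ.a x⁻¹ * ℓ.a x = 1 := by rw [← map_mul, inv_mul_cancel, map_one]
    ext y
    obtain ⟨z, rfl⟩ := u.surjective y
    have h2 := LinearMap.congr_fun h1 z
    rw [Module.End.mul_apply, hxu, Module.End.one_apply] at h2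
    rw [LinearEquiv.coe_coe, LinearEquiv.symm_apply_apply]
    exact h2
  obtain ⟨w, hw, hw'⟩ := h
  refine ⟨ρ x w, hM.inv1 x (Subgroup.mem_top x) w hw, fun hcon => hw' ?_⟩
  have h1 : pr ρ (List.ofFn g') (ρ x w) -
      pr ρ ((List.ofFn g).map fun g => x * g * x⁻¹) (ρ x w) ∈ M₂ := by
    refine pr_congr hM.inv1 hM.inv2 ?_ (hM.inv1 x (Subgroup.mem_top x) w hw)
    rw [List.map_ofFn, List.forall₂_iff_get]
    refine ⟨by simp, fun i hi hi' => ?_⟩
    refine ⟨Subgroup.mem_top _, Subgroup.mem_top _, fun y hy => ?_⟩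
    rw [List.get_ofFn, List.get_ofFn]
    obtain ⟨k, hk⟩ : ∃ k : Fin n, k = Fin.cast (by simp) (⟨i, hi⟩ : Fin (List.ofFn g').length) :=
      ⟨_, rfl⟩
    have hk' : Fin.cast (by simp) (⟨i, hi'⟩ :
        Fin (List.ofFn ((fun g => x * g * x⁻¹) ∘ g)).length) = k := by
      rw [hk]
      rfl
    rw [← hk, hk']
    have h2 := Rt.conj ℓ hp (hg k) x
    rw [hxu, hxinv, LinearEquiv.coe_coe, huv, huf] at h2
    have h3 := Rt.unique ℓ hp h2 (hg' k)
    have h4 := ℓ.T_irr hp ρ le_top hM h3 hy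
    have h5 := hM.inv2 (x * g k * x⁻¹) (Subgroup.mem_top _) _ h4
    rw [map_sub, ← Module.End.mul_apply, ← map_mul, mul_inv_cancel_left] at h5
    exact h5
  have h2 : pr ρ ((List.ofFn g).map fun g => x * g * x⁻¹) (ρ x w) ∈ M₂ := by
    have h3 := M₂.sub_mem hcon h1
    rwa [sub_sub_cancel] at h3
  rw [pr_conj] at h2
  have h3 := hM.inv2 x⁻¹ (Subgroup.mem_top _) _ h2
  rw [← Module.End.mul_apply, ← map_mul, inv_mul_cancel, map_one, Module.End.one_apply] at h3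
  exact h3

theorem Dg.all [Finite W] [CharP K p] [CharP F p] [FiniteDimensional F V] {n : ℕ}
    (hd : 2 * n < finrank F V) (h : ℓ.Dg ρ n) {v : Fin n → V} {f : Fin n → Dual F V}
    {g : Fin n → Γ} (hs : Sys v f) (hg : ∀ i, ℓ.Rt (v i) (f i) (g i)) :
    ∃ M₁ M₂, Irr ρ ⊤ M₁ M₂ ∧ ∃ w ∈ M₁, pr ρ (List.ofFn g) w ∉ M₂ := by
  obtain ⟨M₁, M₂, hM, v0, f0, g0, hs0, hg0, h0⟩ := h
  exact ⟨M₁, M₂, hM, ℓ.move hp ρ hd hM hs0 hs hg0 hg h0⟩

omit [Finite Γ] hp in
theorem Dg.mono {n : ℕ} (h : ℓ.Dg ρ (n + 1)) : ℓ.Dg ρ n := by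
  obtain ⟨M₁, M₂, hM, v, f, g, hs, hg, w, hw, hw'⟩ := h
  refine ⟨M₁, M₂, hM, fun i => v i.castSucc, fun i => f i.castSucc, fun i => g i.castSucc,
    ⟨fun i j => hs.1 _ _, hs.2.1.comp _ (Fin.castSucc_injective n),
      hs.2.2.comp _ (Fin.castSucc_injective n)⟩, fun i => hg _, ?_⟩
  rw [List.ofFn_succ', List.concat_eq_append, pr_append] at hw'
  refine ⟨pr ρ [g (Fin.last n)] w, hM.inv1.pr (fun x _ => Subgroup.mem_top x) hw, hw'⟩

omit [Finite Γ] hp in
theorem Dg.of_irr [FiniteDimensional K W] {n : ℕ} {Y : Subgroup Γ} {M₁ M₂ : Submodule K W}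
    (hM : Irr ρ Y M₁ M₂) {v : Fin n → V} {f : Fin n → Dual F V} {g : Fin n → Γ} (hs : Sys v f)
    (hg : ∀ i, ℓ.Rt (v i) (f i) (g i)) (hY : ∀ i, g i ∈ Y)
    (h : ∃ w ∈ M₁, pr ρ (List.ofFn g) w ∉ M₂) : ℓ.Dg ρ n := by
  obtain ⟨N₁, N₂, hN, h1⟩ := nt (le_top : Y ≤ ⊤) hM (l := List.ofFn g) (by
    intro x hx
    rw [List.mem_ofFn] at hx
    obtain ⟨i, rfl⟩ := hx
    exact hY i) h
  exact ⟨N₁, N₂, hN, v, f, g, hs, hg, h1⟩

theorem Dg.comap [CharP F p] {Γ' : Type} [Group Γ'] [Finite Γ'] (ℓ' : Lay p Γ' F V) (φ : Γ' →* Γ)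
    (hφ : Function.Surjective φ) (ha : ∀ g, ℓ'.a g = ℓ.a (φ g)) (hL : ∀ g, g ∈ ℓ'.L ↔ φ g ∈ ℓ.L)
    (n : ℕ) : ℓ'.Dg (ρ.comp φ) n ↔ ℓ.Dg ρ n := by
  have hinv : ∀ M : Submodule K W, Inv (ρ.comp φ) ⊤ M ↔ Inv ρ ⊤ M := by
    intro M
    constructor
    · intro h g _ w hw
      obtain ⟨g', rfl⟩ := hφ g
      exact h g' (Subgroup.mem_top _) w hw
    · intro h g _ w hw
      exact h (φ g) (Subgroup.mem_top _) w hw
  have hirr : ∀ M₁ M₂ : Submodule K W, Irr (ρ.comp φ) ⊤ M₁ M₂ ↔ Irr ρ ⊤ M₁ M₂ := by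
    intro M₁ M₂
    constructor
    · intro h
      exact ⟨(hinv _).1 h.inv1, (hinv _).1 h.inv2, h.lt, fun M hM => h.irr M ((hinv _).2 hM)⟩
    · intro h
      exact ⟨(hinv _).2 h.inv1, (hinv _).2 h.inv2, h.lt, fun M hM => h.irr M ((hinv _).1 hM)⟩
  have hpr : ∀ (g : Fin n → Γ') (w : W), pr (ρ.comp φ) (List.ofFn g) w =
      pr ρ (List.ofFn fun i => φ (g i)) w := by
    intro g w
    have h1 : (List.ofFn fun i => φ (g i)) = (List.ofFn g).map φ := by
      rw [List.map_ofFn]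
      rfl
    rw [h1]
    simp [pr, Function.comp_def]
  constructor
  · rintro ⟨M₁, M₂, hM, v, f, g, hs, hg, w, hw, hw'⟩
    refine ⟨M₁, M₂, (hirr _ _).1 hM, v, f, fun i => φ (g i), hs, fun i => ?_, w, hw, ?_⟩
    · obtain ⟨h1, h2, h3⟩ := hg i
      exact ⟨(hL _).1 h1, h2.map φ, by rw [← ha, h3]⟩
    · rwa [hpr] at hw'
  · rintro ⟨M₁, M₂, hM, v, f, g, hs, hg, w, hw, hw'⟩
    have hex : ∀ i, ∃ g' : Γ', φ g' = g i ∧ Pw p g' := by
      intro i
      obtain ⟨y, hy⟩ := hφ (g i)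
      obtain ⟨k, hk, hk'⟩ := exists_ppart hp y
      refine ⟨y ^ k, ?_, hk⟩
      rw [hk' φ, hy]
      obtain ⟨j, hj⟩ := (hg i).2.1
      exact ⟨j, by rw [hy, hj]⟩
    choose g' hg' hg'' using hex
    refine ⟨M₁, M₂, (hirr _ _).2 hM, v, f, g', hs, fun i => ?_, w, hw, ?_⟩
    · obtain ⟨h1, h2, h3⟩ := hg i
      exact ⟨(hL _).2 (by rw [hg']; exact h1), hg'' i, by rw [ha, hg', h3]⟩
    · rw [hpr]
      simp only [hg']
      exact hw'

end Lay

end Pool.Agent.Lib.MP_b9166b_al.Pt
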