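import Mathlib

/-!
# MP_b9166b_al, PT: free data

`FD u k`: the unit `u` of the ring `S` acts like a free module over `ℤ[u] / (u - 1)^k`: `1` is the sum of
elements `ε j`, `j < k`; think of `S = End Z`, `Z = ⨁ u^j X₁` (`j < k`), `ε j` the projection onto
`u^j X₁`.

`io j := u⁻¹ ^ j * ε j` (the coordinate of `z` at `u^j X₁`, moved to `X₁`).
`FD.io_mul`: in `S`, `1 = ∑ u^j * io j`; `u = ∑ u^(j+1) * io j`, and `u^k = - ∑_{j<k} c_j u^j` (from `nil`,
`c_j = (-1)^(k-j) * choose k j`); apply `ε i` on the left and use `e1, e2` (`ε i * u^j * io j = ε i * u^j * ε 0 * io j`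
is `u^i * io i` for `i = j` and `0` otherwise, as `io j = ε 0 * io j` by `e2`).
-/

set_option autoImplicit false

namespace Pool.Agent.Lib.MP_b9166b_al.Pt

open Finset

/-- free data -/
structure FD {S : Type} [Ring S] (u : Sˣ) (k : ℕ) where
  ε : ℕ → S
  sum : ∑ j ∈ range k, ε j = 1
  e1 : ∀ i < k, ∀ j < k, ε i * (u : S) ^ j * ε 0 = if i = j then (u : S) ^ j * ε 0 else 0
  e2 : ∀ j < k, ε 0 * (((u⁻¹ : Sˣ) : S) ^ j * ε j) = ((u⁻¹ : Sˣ) : S) ^ j * ε j
  nil : ((u : S) - 1) ^ k = 0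

namespace FD

variable {S : Type} [Ring S] {u : Sˣ} {k : ℕ}

/-- the coordinates -/
def io (D : FD u k) (j : ℕ) : S := ((u⁻¹ : Sˣ) : S) ^ j * D.ε j

theorem Fd_pow_mul (u : Sˣ) (j : ℕ) : (u : S) ^ j * ((u⁻¹ : Sˣ) : S) ^ j = 1 := by
  rw [← Units.val_pow_eq_pow_val, ← Units.val_pow_eq_pow_val, ← Units.val_mul, inv_pow,
    mul_inv_cancel, Units.val_one]

theorem Fd_mul_pow (u : Sˣ) (j : ℕ) : ((u⁻¹ : Sˣ) : S) ^ j * (u : S) ^ j = 1 := by
  rw [← Units.val_pow_eq_pow_val, ← Units.val_pow_eq_pow_val, ← Units.val_mul, inv_pow,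
    inv_mul_cancel, Units.val_one]

theorem eq_mul_io (D : FD u k) (j : ℕ) : D.ε j = (u : S) ^ j * D.io j := by
  rw [io, ← mul_assoc, Fd_pow_mul, one_mul]

/-- the sum of the `u^j * io j` -/
theorem sum_io (D : FD u k) : ∑ j ∈ range k, (u : S) ^ j * D.io j = 1 := by
  rw [← D.sum]
  exact Finset.sum_congr rfl fun j _ => (D.eq_mul_io j).symm

theorem Fd_key (D : FD u k) {i j l : ℕ} (hi : i < k) (hj : j < k) (hl : l < k) :
    D.ε i * (u : S) ^ l * D.io j = if i = l then (u : S) ^ l * D.io j else 0 := by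
  have h1 : D.io j = D.ε 0 * D.io j := (D.e2 j hj).symm
  rw [h1, ← mul_assoc, D.e1 i hi l hl]
  split_ifs with h
  · rw [mul_assoc]
  · rw [zero_mul]

/-- idempotents -/
theorem ε_mul (D : FD u k) {i j : ℕ} (hi : i < k) (hj : j < k) :
    D.ε i * D.ε j = if i = j then D.ε j else 0 := by
  have h := D.Fd_key hi hj hj
  rw [mul_assoc, ← D.eq_mul_io j] at h
  exact h

/-- the coefficients of `(x - 1)^k` -/
def cf (k j : ℕ) : ℤ := (-1) ^ (k - j) * (k.choose j : ℤ)

theorem Fd_binom {R : Type*} [Ring R] (y : R) (k : ℕ) :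
    (y - 1) ^ k = ∑ j ∈ range (k + 1), ((cf k j : ℤ) : R) * y ^ j := by
  rw [sub_eq_add_neg, ((Commute.one_right y).neg_right).add_pow]
  refine Finset.sum_congr rfl fun j _ => ?_
  have h1 : ((-1 : R)) ^ (k - j) = (((-1) ^ (k - j) : ℤ) : R) := by
    rw [Int.cast_pow, Int.cast_neg, Int.cast_one]
  have h2 : ((k.choose j : ℕ) : R) = ((k.choose j : ℤ) : R) := (Int.cast_natCast _).symm
  rw [h1, h2, cf, mul_assoc, ← Int.cast_mul]
  exact (Int.cast_commute _ _).symm.eq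

theorem Fd_cf_self (k : ℕ) : cf k k = 1 := by
  simp [cf]

theorem Fd_pow_k (D : FD u k) :
    (u : S) ^ k = - ∑ j ∈ range k, ((cf k j : ℤ) : S) * (u : S) ^ j := by
  have h := D.nil
  rw [Fd_binom, Finset.sum_range_succ, Fd_cf_self, Int.cast_one, one_mul] at h
  exact eq_neg_of_add_eq_zero_right h

theorem Fd_mul_u (D : FD u k) {i : ℕ} (hi : i < k) :
    D.ε i * (u : S) = (if 0 < i then (u : S) ^ i * D.io (i - 1) else 0) -
      ((cf k i : ℤ) : S) * ((u : S) ^ i * D.io (k - 1)) := by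
  obtain ⟨n, rfl⟩ : ∃ n, k = n + 1 := ⟨k - 1, by omega⟩
  have h1 : D.ε i * (u : S) = ∑ j ∈ range (n + 1), D.ε i * (u : S) ^ (j + 1) * D.io j := by
    have h2 := D.sum_io
    calc D.ε i * (u : S) = D.ε i * (u : S) * ∑ j ∈ range (n + 1), (u : S) ^ j * D.io j := by
          rw [h2, mul_one]
      _ = _ := by
          rw [Finset.mul_sum]
          refine Finset.sum_congr rfl fun j _ => ?_
          rw [pow_succ', ← mul_assoc, ← mul_assoc]
  rw [h1, Finset.sum_range_succ, Nat.add_sub_cancel, D.Fd_pow_k, mul_neg, neg_mul, ← sub_eq_add_neg]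
  congr 1
  · have h3 : ∀ j ∈ range n, D.ε i * (u : S) ^ (j + 1) * D.io j =
        if i = j + 1 then (u : S) ^ (j + 1) * D.io j else 0 := by
      intro j hj
      have := mem_range.1 hj
      exact D.Fd_key hi (by omega) (by omega)
    rw [Finset.sum_congr rfl h3]
    split_ifs with h0
    · rw [Finset.sum_eq_single (i - 1)]
      · rw [if_pos (by omega), show i - 1 + 1 = i by omega]
      · intro j _ hj
        rw [if_neg (by omega)]
      · intro hj
        exact absurd (mem_range.2 (by omega)) hj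
    · exact Finset.sum_eq_zero fun j _ => if_neg (by omega)
  · rw [Finset.mul_sum, Finset.sum_mul, Finset.sum_eq_single i]
    · rw [← mul_assoc (D.ε i), ← (Int.cast_commute (cf (n + 1) i) (D.ε i)).eq, mul_assoc, mul_assoc,
        ← mul_assoc (D.ε i), D.Fd_key hi (by omega) hi, if_pos rfl]
    · intro j hj hji
      rw [← mul_assoc (D.ε i), ← (Int.cast_commute (cf (n + 1) j) (D.ε i)).eq, mul_assoc, mul_assoc,
        ← mul_assoc (D.ε i), D.Fd_key hi (by omega) (mem_range.1 hj), if_neg (Ne.symm hji),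
        mul_zero]
    · intro hj
      exact absurd (mem_range.2 hi) hj

theorem io_mul_zero (D : FD u k) (hk : 0 < k) :
    D.io 0 * (u : S) = - ((cf k 0 : ℤ) : S) * D.io (k - 1) := by
  have h := D.Fd_mul_u hk
  rw [if_neg (lt_irrefl 0), zero_sub, pow_zero, one_mul] at h
  rw [io, pow_zero, one_mul, h, neg_mul]

theorem io_mul_succ (D : FD u k) {j : ℕ} (hj : j + 1 < k) :
    D.io (j + 1) * (u : S) = D.io j - ((cf k (j + 1) : ℤ) : S) * D.io (k - 1) := by
  have h := D.Fd_mul_u hj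
  rw [if_pos (Nat.succ_pos j), Nat.add_sub_cancel] at h
  have h1 : D.io (j + 1) = ((u⁻¹ : Sˣ) : S) ^ (j + 1) * D.ε (j + 1) := rfl
  rw [h1, mul_assoc, h, mul_sub, ← mul_assoc, Fd_mul_pow, one_mul,
    ← mul_assoc _ ((cf k (j + 1) : ℤ) : S),
    ← (Int.cast_commute (cf k (j + 1)) (((u⁻¹ : Sˣ) : S) ^ (j + 1))).eq, mul_assoc,
    ← mul_assoc (((u⁻¹ : Sˣ) : S) ^ (j + 1)), Fd_mul_pow, one_mul]

end FD

end Pool.Agent.Lib.MP_b9166b_al.Pt
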