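import Pool.Agent.Lib.MP_b9166b_al.Pt.TsDefs
import Pool.Agent.Lib.MP_b9166b_al.Pt.Choose

/-!
# MP_b9166b_al, PT: equivariance

Proof of `MM.form`: `N v f := m (rk v f) - m' (rk v f)`; `rk v f * rk w f1 = f w • rk v f1`, so the product of three
is `m (rk v q) - m' (rk w1 q * rk w f1 * rk v f)`, and `rk w1 q * rk w f1 = q w • .. = 0`; the reversed
product is `m (rk w1 q * rk w f1 * rk v f) - m' (rk v f * rk w f1 * rk w1 q) = - m' (rk v q)`.
Proof of `MM.equiv`: `form` for `v, q` and for `g v, q ∘ g⁻¹`; every `α` is a sum of maps `rk v q`.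
`MM.ext_left`: two elements; if `N` of two `MM` agree then `m`, `m'` agree (same proof).
-/

set_option autoImplicit false

namespace Pool.Agent.Lib.MP_b9166b_al.Pt

open Module

variable {F V R : Type} [Field F] [AddCommGroup V] [Module F V] [Ring R]

/-- the nilpotent elements -/
def MM.N (S : MM F V R) (v : V) (f : Dual F V) : R := S.m (rk v f) - S.m' (rk v f)

theorem MM.m_zero (S : MM F V R) : S.m 0 = 0 := by
  have h := S.add 0 0
  rw [add_zero] at h
  exact left_eq_add.1 h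

theorem MM.m'_zero (S : MM F V R) : S.m' 0 = 0 := by
  have h := S.add' 0 0
  rw [add_zero] at h
  exact left_eq_add.1 h

theorem rk_mul_rk (v w : V) (f f1 : Dual F V) : rk v f * rk w f1 = f w • rk v f1 := by
  ext x
  simp only [Module.End.mul_apply, rk_apply, LinearMap.smul_apply, map_smul, smul_smul]
  congr 1
  exact mul_comm _ _

/-- the product of three nilpotent elements -/
theorem MM.prod_three (S : MM F V R) (v w w1 : V) (f f1 q : Dual F V) :
    S.N v f * S.N w f1 * S.N w1 q =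
      S.m (rk v f * rk w f1 * rk w1 q) - S.m' (rk w1 q * rk w f1 * rk v f) := by
  unfold MM.N
  have e1 : (S.m (rk v f) - S.m' (rk v f)) * (S.m (rk w f1) - S.m' (rk w f1)) =
      S.m (rk v f * rk w f1) + S.m' (rk w f1 * rk v f) := by
    rw [sub_mul, mul_sub, mul_sub, S.orth, S.orth', ← S.mul, ← S.mul']
    abel
  rw [e1, add_mul, mul_sub, mul_sub, S.orth, S.orth', ← S.mul, ← S.mul', mul_assoc (rk w1 q)]
  abel

theorem MM.form (S : MM F V R) {v w w1 : V} {q f f1 : Dual F V} (h1 : f v = 0) (h2 : f w = 1)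
    (h3 : f1 w = 0) (h4 : f1 w1 = 1) (h5 : q w = 0) (h6 : q w1 = 0) :
    S.m (rk v q) = S.N v f * S.N w f1 * S.N w1 q ∧
      S.m' (rk v q) = - (S.N w1 q * S.N w f1 * S.N v f) := by
  have e1 : rk v f * rk w f1 * rk w1 q = rk v q := by
    rw [rk_mul_rk, h2, one_smul, rk_mul_rk, h4, one_smul]
  have e2 : rk w1 q * rk w f1 * rk v f = 0 := by
    rw [rk_mul_rk, h5, zero_smul, zero_mul]
  have e3 := S.prod_three v w w1 f f1 q
  have e4 := S.prod_three w1 w v q f1 f
  rw [e1, e2, S.m'_zero, sub_zero] at e3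
  rw [e1, e2, S.m_zero, zero_sub] at e4
  exact ⟨e3.symm, by rw [e4, neg_neg]⟩

/-- conjugation by an automorphism -/
def cj (g : V ≃ₗ[F] V) (α : V →ₗ[F] V) : V →ₗ[F] V := g.toLinearMap ∘ₗ α ∘ₗ g.symm.toLinearMap

theorem MM.equiv [FiniteDimensional F V] (h8 : 8 ≤ finrank F V) (S : MM F V R) (g : V ≃ₗ[F] V)
    (τ : R) (h : ∀ v f, f v = 0 → τ * S.N v f = S.N (g v) (f ∘ₗ g.symm.toLinearMap) * τ)
    (α : V →ₗ[F] V) : τ * S.m α = S.m (cj g α) * τ ∧ τ * S.m' α = S.m' (cj g α) * τ := by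
  classical
  -- rank one maps
  have hrk : ∀ (v : V) (q : Dual F V), τ * S.m (rk v q) = S.m (cj g (rk v q)) * τ ∧
      τ * S.m' (rk v q) = S.m' (cj g (rk v q)) * τ := by
    intro v q
    obtain ⟨w, f, h2, hv, hq⟩ := exists_pair [v] [q] (by simp only [List.length_cons, List.length_nil]; omega)
    obtain ⟨w1, f1, h4, hw, hq1⟩ := exists_pair [w] [q] (by simp only [List.length_cons, List.length_nil]; omega)
    have h1 : f v = 0 := hv v (by simp)
    have h5 : q w = 0 := hq q (by simp)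
    have h3 : f1 w = 0 := hw w (by simp)
    have h6 : q w1 = 0 := hq1 q (by simp)
    obtain ⟨a1, a2⟩ := S.form h1 h2 h3 h4 h5 h6
    have hc : cj g (rk v q) = rk (g v) (q ∘ₗ g.symm.toLinearMap) := by
      ext x
      simp [cj]
    have hg : ∀ (y : V) (p : Dual F V), (p ∘ₗ g.symm.toLinearMap) (g y) = p y := by
      intro y p
      simp
    obtain ⟨b1, b2⟩ := S.form (v := g v) (w := g w) (w1 := g w1) (q := q ∘ₗ g.symm.toLinearMap)
      (f := f ∘ₗ g.symm.toLinearMap) (f1 := f1 ∘ₗ g.symm.toLinearMap)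
      (by rw [hg]; exact h1) (by rw [hg]; exact h2) (by rw [hg]; exact h3) (by rw [hg]; exact h4)
      (by rw [hg]; exact h5) (by rw [hg]; exact h6)
    have c1 := h v f h1
    have c2 := h w f1 h3
    have c3 := h w1 q h6
    rw [hc, a1, a2, b1, b2]
    constructor
    · rw [← mul_assoc, ← mul_assoc, c1, mul_assoc _ τ, c2, mul_assoc _ _ (S.N w1 q), mul_assoc _ τ,
        c3]
      simp only [mul_assoc]
    · rw [mul_neg, neg_mul, ← mul_assoc, ← mul_assoc, c3, mul_assoc _ τ, c2,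
        mul_assoc _ _ (S.N v f), mul_assoc _ τ, c1]
      simp only [mul_assoc]
  have hadd : ∀ β γ : V →ₗ[F] V, cj g (β + γ) = cj g β + cj g γ := by
    intro β γ
    ext x
    simp [cj]
  have hzero : cj g (0 : V →ₗ[F] V) = 0 := by
    ext x
    simp [cj]
  -- sums
  let b := Module.finBasis F V
  have hα : α = ∑ i, rk (α (b i)) (b.coord i) := by
    refine b.ext fun j => ?_
    rw [LinearMap.sum_apply, Finset.sum_eq_single j]
    · simp
    · intro i _ hij
      simp [hij.symm]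
    · intro hj
      exact absurd (Finset.mem_univ j) hj
  rw [hα]
  refine Finset.sum_induction (fun i => rk (α (b i)) (b.coord i))
    (fun β => τ * S.m β = S.m (cj g β) * τ ∧ τ * S.m' β = S.m' (cj g β) * τ) ?_ ?_ ?_
  · rintro β γ ⟨h1, h2⟩ ⟨h3, h4⟩
    rw [hadd, S.add, S.add, S.add', S.add', mul_add, mul_add, add_mul, add_mul, h1, h2, h3, h4]
    exact ⟨rfl, rfl⟩
  · rw [hzero, S.m_zero, S.m'_zero, mul_zero, zero_mul]
    exact ⟨rfl, rfl⟩
  · intro i _
    exact hrk _ _

end Pool.Agent.Lib.MP_b9166b_al.Pt
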