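import Pool.Agent.Lib.MP_b9166b_al.Pt.TsDefs
import Pool.Agent.Lib.MP_b9166b_al.Pt.MmEq

/-!
# MP_b9166b_al, PT: helper lemmas for the ring lemma (4.2)
-/

set_option autoImplicit false

namespace Pool.Agent.Lib.MP_b9166b_al.Pt

open Module

/-- a nonzero vector fixed by commuting `p`-elements -/
theorem simp_fix {K B ι : Type} [Field K] [AddCommGroup B] [Module K B] [Nontrivial B] {p : ℕ}
    (hp : p.Prime) [CharP K p] (y : ι → (B →ₗ[K] B)) (hy : ∀ k, ∃ n : ℕ, y k ^ p ^ n = 1)
    (hc : ∀ k l, Commute (y k) (y l)) (L : List ι) : ∃ x : B, x ≠ 0 ∧ ∀ k ∈ L, y k x = x := by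
  classical
  have : Fact p.Prime := ⟨hp⟩
  have : CharP (Module.End K B) p :=
    charP_of_injective_algebraMap (algebraMap K (Module.End K B)).injective p
  induction L with
  | nil =>
    obtain ⟨x, hx⟩ := exists_ne (0 : B)
    exact ⟨x, hx, by simp⟩
  | cons k L ih =>
    obtain ⟨x, hx, hL⟩ := ih
    obtain ⟨n, hn⟩ := hy k
    have h0 : (y k - 1) ^ p ^ n = 0 := by
      have h9 : Commute (y k : Module.End K B) 1 := Commute.one_right _
      rw [sub_pow_char_pow_of_commute p n h9, hn, one_pow, sub_self]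
    have h1 : ∃ r : ℕ, ((y k - 1) ^ r) x = 0 := ⟨p ^ n, by rw [h0]; rfl⟩
    have hr := Nat.find_spec h1
    have hr0 : Nat.find h1 ≠ 0 := by
      intro h
      rw [h, pow_zero] at hr
      exact hx hr
    obtain ⟨s, hs⟩ := Nat.exists_eq_succ_of_ne_zero hr0
    refine ⟨((y k - 1) ^ s) x, Nat.find_min h1 (by omega), ?_⟩
    intro l hl
    rcases List.mem_cons.1 hl with rfl | hl
    · have h2 : (y l - 1) (((y l - 1) ^ s) x) = 0 := by
        rw [← Module.End.mul_apply, ← pow_succ', ← Nat.succ_eq_add_one, ← hs]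
        exact hr
      rw [LinearMap.sub_apply, Module.End.one_apply, sub_eq_zero] at h2
      exact h2
    · have hcl : Commute (y l) ((y k - 1) ^ s) :=
        ((hc l k).sub_right (Commute.one_right _)).pow_right s
      have h3 := LinearMap.congr_fun hcl x
      rw [Module.End.mul_apply, Module.End.mul_apply, hL l hl] at h3
      exact h3

/-- a nonzero vector of pure type -/
theorem simp_types {K B ι κ : Type} [Field K] [AddCommGroup B] [Module K B] [DecidableEq ι]
    (y : κ → (B →ₗ[K] B)) (e e' : ι → (B →ₗ[K] B)) (h1 : ∀ j, e j + e' j = 1)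
    (hi : ∀ j, e j * e j = e j) (hee : ∀ i j, i ≠ j → Commute (e i) (e j))
    (hee' : ∀ i j, i ≠ j → Commute (e' i) (e j))
    (hye : ∀ k j, Commute (y k) (e j)) {x : B} (hx : x ≠ 0) (hyx : ∀ k, y k x = x)
    (J : Finset ι) :
    ∃ z : B, z ≠ 0 ∧ (∀ k, y k z = z) ∧ ∀ j ∈ J, e j z = z ∨ e' j z = z := by
  induction J using Finset.induction_on with
  | empty => exact ⟨x, hx, hyx, by simp⟩
  | insert j J hj ih =>
    obtain ⟨z, hz, hyz, hJ⟩ := ih
    by_cases h0 : e j z = 0
    · refine ⟨z, hz, hyz, ?_⟩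
      intro i hi'
      rcases Finset.mem_insert.1 hi' with rfl | hi'
      · right
        have h2 := LinearMap.congr_fun (h1 i) z
        rw [LinearMap.add_apply, h0, zero_add] at h2
        exact h2
      · exact hJ i hi'
    · refine ⟨e j z, h0, ?_, ?_⟩
      · intro k
        have h3 := LinearMap.congr_fun (hye k j) z
        rw [Module.End.mul_apply, Module.End.mul_apply, hyz k] at h3
        exact h3
      · intro i hi'
        rcases Finset.mem_insert.1 hi' with rfl | hi'
        · left
          have h3 := LinearMap.congr_fun (hi i) z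
          rw [Module.End.mul_apply] at h3
          exact h3
        · have hij : i ≠ j := fun h => hj (h ▸ hi')
          rcases hJ i hi' with h4 | h4
          · left
            have h3 := LinearMap.congr_fun (hee i j hij) z
            rw [Module.End.mul_apply, Module.End.mul_apply, h4] at h3
            exact h3
          · right
            have h3 := LinearMap.congr_fun (hee' i j hij) z
            rw [Module.End.mul_apply, Module.End.mul_apply, h4] at h3
            exact h3

variable {F C R : Type} [Field F] [AddCommGroup C] [Module F C] [Ring R]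

/-- `g` as a linear map -/
theorem simp_mul_symm (g : C ≃ₗ[F] C) : (g.toLinearMap * g.symm.toLinearMap : C →ₗ[F] C) = 1 := by
  ext x
  simp

theorem simp_symm_mul (g : C ≃ₗ[F] C) : (g.symm.toLinearMap * g.toLinearMap : C →ₗ[F] C) = 1 := by
  ext x
  simp

theorem simp_cj (g : C ≃ₗ[F] C) (α : C →ₗ[F] C) :
    cj g α = g.toLinearMap * α * g.symm.toLinearMap := rfl

/-- the unit `u` of step (1) -/
def uu (S : MM F C R) (g : C ≃ₗ[F] C) : R := S.m g.symm.toLinearMap + S.m' g.toLinearMap

/-- its inverse -/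
def vv (S : MM F C R) (g : C ≃ₗ[F] C) : R := S.m g.toLinearMap + S.m' g.symm.toLinearMap

theorem MM.mul_add_mul (S : MM F C R) (α β γ δ : C →ₗ[F] C) :
    (S.m α + S.m' β) * (S.m γ + S.m' δ) = S.m (α * γ) + S.m' (δ * β) := by
  rw [add_mul, mul_add, mul_add, S.orth, S.orth', ← S.mul, ← S.mul', add_zero, zero_add]

theorem vv_mul_uu (S : MM F C R) (h1 : S.m 1 + S.m' 1 = 1) (g : C ≃ₗ[F] C) :
    vv S g * uu S g = 1 := by
  unfold vv uu
  rw [S.mul_add_mul, simp_mul_symm, h1]

theorem uu_pow (S : MM F C R) (h1 : S.m 1 + S.m' 1 = 1) (g : C ≃ₗ[F] C) (n : ℕ) :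
    uu S g ^ n = S.m (g.symm.toLinearMap ^ n) + S.m' (g.toLinearMap ^ n) := by
  induction n with
  | zero => rw [pow_zero, pow_zero, pow_zero, h1]
  | succ n ih =>
    rw [pow_succ, ih]
    unfold uu
    rw [S.mul_add_mul, ← pow_succ, ← pow_succ']

theorem uu_pow_one (S : MM F C R) (h1 : S.m 1 + S.m' 1 = 1) (g : C ≃ₗ[F] C) {n : ℕ}
    (hg : g ^ n = 1) : uu S g ^ n = 1 := by
  have e1 : g.toLinearMap ^ n = 1 := by
    have := congrArg (LinearEquiv.automorphismGroup.toLinearMapMonoidHom (R := F) (M := C)) hg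
    rw [map_pow, map_one] at this
    exact this
  have e2 : g.symm.toLinearMap ^ n = 1 := by
    have h2 : (g⁻¹) ^ n = 1 := by rw [inv_pow, hg, inv_one]
    have := congrArg (LinearEquiv.automorphismGroup.toLinearMapMonoidHom (R := F) (M := C)) h2
    rw [map_pow, map_one] at this
    exact this
  rw [uu_pow S h1, e1, e2, h1]

/-- `y = u τ` commutes with `m` and `m'` -/
theorem yy_comm (S : MM F C R) (g : C ≃ₗ[F] C) {τ : R} (hm : ∀ α, τ * S.m α = S.m (cj g α) * τ)
    (hm' : ∀ α, τ * S.m' α = S.m' (cj g α) * τ) (α : C →ₗ[F] C) :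
    Commute (uu S g * τ) (S.m α) ∧ Commute (uu S g * τ) (S.m' α) := by
  constructor
  · change uu S g * τ * S.m α = S.m α * (uu S g * τ)
    rw [mul_assoc, hm, ← mul_assoc, ← mul_assoc]
    congr 1
    unfold uu
    rw [add_mul, mul_add, S.orth, S.orth', ← S.mul, ← S.mul, add_zero, add_zero, simp_cj,
      ← mul_assoc, ← mul_assoc, simp_symm_mul, one_mul]
  · change uu S g * τ * S.m' α = S.m' α * (uu S g * τ)
    rw [mul_assoc, hm', ← mul_assoc, ← mul_assoc]
    congr 1
    unfold uu
    rw [add_mul, mul_add, S.orth, S.orth', ← S.mul', ← S.mul', zero_add, zero_add, simp_cj,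
      mul_assoc, simp_symm_mul, mul_one]

/-- `τ` commutes with the unit of a commuting `g'` -/
theorem tau_comm_uu (S : MM F C R) (g g' : C ≃ₗ[F] C) (hg : g * g' = g' * g) {τ : R}
    (hm : ∀ α, τ * S.m α = S.m (cj g α) * τ) (hm' : ∀ α, τ * S.m' α = S.m' (cj g α) * τ) :
    Commute τ (uu S g') := by
  have e1 : (g.toLinearMap * g'.toLinearMap : C →ₗ[F] C) = g'.toLinearMap * g.toLinearMap :=
    congrArg (LinearEquiv.automorphismGroup.toLinearMapMonoidHom (R := F) (M := C)) hg
  have e3 : cj g g'.toLinearMap = g'.toLinearMap := by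
    rw [simp_cj, e1, mul_assoc, simp_mul_symm, mul_one]
  have hg' : g * g'⁻¹ = g'⁻¹ * g := by
    rw [mul_inv_eq_iff_eq_mul, mul_assoc, hg, ← mul_assoc, inv_mul_cancel, one_mul]
  have e2 : (g.toLinearMap * g'.symm.toLinearMap : C →ₗ[F] C) =
      g'.symm.toLinearMap * g.toLinearMap :=
    congrArg (LinearEquiv.automorphismGroup.toLinearMapMonoidHom (R := F) (M := C)) hg'
  have e4 : cj g g'.symm.toLinearMap = g'.symm.toLinearMap := by
    rw [simp_cj, e2, mul_assoc, simp_mul_symm, mul_one]
  change τ * uu S g' = uu S g' * τ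
  unfold uu
  rw [mul_add, hm, hm', e3, e4, add_mul]

theorem uu_comm_uu (S : MM F C R) (g g' : C ≃ₗ[F] C) (hg : g * g' = g' * g) :
    Commute (uu S g) (uu S g') := by
  have e1 : (g.toLinearMap * g'.toLinearMap : C →ₗ[F] C) = g'.toLinearMap * g.toLinearMap :=
    congrArg (LinearEquiv.automorphismGroup.toLinearMapMonoidHom (R := F) (M := C)) hg
  have hg' : g⁻¹ * g'⁻¹ = g'⁻¹ * g⁻¹ := by
    rw [← mul_inv_rev, ← mul_inv_rev, hg]
  have e2 : (g.symm.toLinearMap * g'.symm.toLinearMap : C →ₗ[F] C) =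
      g'.symm.toLinearMap * g.symm.toLinearMap :=
    congrArg (LinearEquiv.automorphismGroup.toLinearMapMonoidHom (R := F) (M := C)) hg'
  change uu S g * uu S g' = uu S g' * uu S g
  unfold uu
  rw [S.mul_add_mul, S.mul_add_mul, e1, e2]

/-- the product of the `g⁻¹ - 1` in the other order -/
theorem prod_inv_ne (L : List (C ≃ₗ[F] C)) (hc : ∀ g ∈ L, ∀ g' ∈ L, g * g' = g' * g) :
    ∃ V : C →ₗ[F] C, (∀ h : C ≃ₗ[F] C, (∀ g ∈ L, g * h = h * g) → Commute V h.toLinearMap) ∧
      (L.map fun g => (g.toLinearMap - 1 : C →ₗ[F] C)).prod =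
        V * (L.map fun g => (g.symm.toLinearMap - 1 : C →ₗ[F] C)).reverse.prod := by
  induction L with
  | nil => exact ⟨1, fun h _ => Commute.one_left _, by simp⟩
  | cons a L ih =>
    obtain ⟨V, hV, hL⟩ := ih fun g hg g' hg' =>
      hc g (List.mem_cons_of_mem _ hg) g' (List.mem_cons_of_mem _ hg')
    have toL : ∀ g h : C ≃ₗ[F] C, g * h = h * g → Commute g.toLinearMap h.toLinearMap :=
      fun g h hgh =>
        congrArg (LinearEquiv.automorphismGroup.toLinearMapMonoidHom (R := F) (M := C)) hgh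
    refine ⟨V * -a.toLinearMap, ?_, ?_⟩
    · intro h hh
      refine Commute.mul_left (hV h fun g hg => hh g (List.mem_cons_of_mem _ hg)) ?_
      exact (toL a h (hh a (by simp))).neg_left
    · have hcm : Commute (a.toLinearMap - 1 : C →ₗ[F] C)
          ((L.map fun g => (g.toLinearMap - 1 : C →ₗ[F] C)).prod) := by
        apply Commute.list_prod_right
        intro x hx
        obtain ⟨g, hg, rfl⟩ := List.mem_map.1 hx
        have h5 : Commute a.toLinearMap g.toLinearMap :=
          toL a g (hc a (by simp) g (List.mem_cons_of_mem _ hg))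
        exact ((h5.sub_right (Commute.one_right _)).sub_left (Commute.one_left _))
      have hcm2 : Commute (-a.toLinearMap : C →ₗ[F] C)
          ((L.map fun g => (g.symm.toLinearMap - 1 : C →ₗ[F] C)).reverse.prod) := by
        apply Commute.list_prod_right
        intro x hx
        rw [List.mem_reverse] at hx
        obtain ⟨g, hg, rfl⟩ := List.mem_map.1 hx
        have h5 : a * g⁻¹ = g⁻¹ * a := by
          have h6 := hc a (by simp) g (List.mem_cons_of_mem _ hg)
          rw [mul_inv_eq_iff_eq_mul, mul_assoc, h6, ← mul_assoc, inv_mul_cancel, one_mul]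
        have h7 : Commute a.toLinearMap g.symm.toLinearMap := toL a g⁻¹ h5
        exact ((h7.sub_right (Commute.one_right _)).neg_left)
      have e5 : (-a.toLinearMap : C →ₗ[F] C) * (a.symm.toLinearMap - 1) = a.toLinearMap - 1 := by
        rw [mul_sub, neg_mul, simp_mul_symm, mul_one]
        abel
      rw [List.map_cons, List.prod_cons, List.map_cons, List.reverse_cons, List.prod_append,
        List.prod_singleton, hcm.eq, hL, mul_assoc, mul_assoc V, ← mul_assoc (-a.toLinearMap),
        hcm2.eq, mul_assoc _ (-a.toLinearMap), e5]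

end Pool.Agent.Lib.MP_b9166b_al.Pt
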