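import Pool.Agent.Lib.MP_b9166b_al.Pt.TsDefs
import Pool.Agent.Lib.MP_b9166b_al.Pt.MmEq
import Pool.Agent.Lib.MP_b9166b_al.Pt.SimpA

/-!
# MP_b9166b_al, PT: the ring lemma (4.2)

`End C` is a simple ring: `exists_simp`: for `α ≠ 0` there are `β s, β' s` with `∑ β s * α * β' s = 1` (`α v ≠ 0`; take a basis
`b`, `f (α v) = 1`; `∑ rk (b s) f * α * rk v (b.coord s) = ∑ rk (b s) (b.coord s) = 1`).

`ring42`. `S j` (`j < b`): commuting `MM`s for spaces `C j` in `R = End B`, `(S j).m 1 + (S j).m' 1 = 1`; `τ j i` (`i < a`): commuting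
`p`-elements of `Rˣ`, `τ j i` conjugates `(S j).m α` to `(S j).m (g α g⁻¹)`, `g = g j i`, and commutes with `S j'`, `j' ≠ j`. Proof:
(1) `y j i := ((S j).m (g⁻¹) + (S j).m' g) * τ j i`. It commutes with all `m`, `m'` (for `m'`: `m' g * m' (g α g⁻¹) = m' (g α g⁻¹ g) = m' (g α)
= m' α * m' g`), with the other `y`s and `τ`s, and is a `p`-element (`y^n = ((S j).m (g⁻¹^n) + (S j).m' (g^n)) * τ^n`).
(2) `1 = ∏ j ((S j).m 1 + (S j).m' 1)`: as `B ≠ 0` there is a choice `ε j ∈ {m, m'}` with `E = ∏ j (ε j) 1 ≠ 0`. `E B` is stable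
under the `p`-group generated by the `y j i`: it has a vector `≠ 0` fixed by all `y`; `B₁` = the fixed vectors of all `y` in `E B`, stable
under all `m, m'`.
(3) On `B₁`: `τ j i = (S j).m (g j i)` if `ε j = m`, and `= (S j).m' (g⁻¹)` if `ε j = m'`. So the product over `i` of the `τ j i - 1` is
`(S j).m (∏ (g - 1))`, or `(S j).m' (∏ (g⁻¹ - 1))`, with `∏ (g⁻¹ - 1) = ± (unit) * ∏ (g - 1) ≠ 0` (the `g j i` commute).
(4) If the product of all `τ j i - 1` is `0` on `B₁`, multiply with `m β`, `m β'` (or `m'`) on both sides for `j = 0, 1, ..` and use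
`exists_simp`: `∏ j (ε j) 1 = 0` on `B₁`, contradiction.
-/

set_option autoImplicit false

namespace Pool.Agent.Lib.MP_b9166b_al.Pt

open Module

theorem exists_simp {F C : Type} [Field F] [AddCommGroup C] [Module F C] [FiniteDimensional F C]
    {α : C →ₗ[F] C} (hα : α ≠ 0) :
    ∃ (n : ℕ) (β β' : Fin n → (C →ₗ[F] C)), ∑ s, β s * α * β' s = 1 := by
  classical
  obtain ⟨v, hv⟩ : ∃ v, α v ≠ 0 := by
    by_contra h
    push Not at h
    exact hα (LinearMap.ext h)
  obtain ⟨f, hf⟩ : ∃ f : Dual F C, f (α v) = 1 := by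
    have h := mt (Module.forall_dual_apply_eq_zero_iff F (α v)).1 hv
    push Not at h
    obtain ⟨f, hf⟩ := h
    exact ⟨(f (α v))⁻¹ • f, by simp [hf]⟩
  let b := Module.finBasis F C
  refine ⟨finrank F C, fun s => rk (b s) f, fun s => rk v (b.coord s), ?_⟩
  refine LinearMap.ext fun w => ?_
  rw [LinearMap.sum_apply, Module.End.one_apply]
  conv_rhs => rw [← b.sum_repr w]
  refine Finset.sum_congr rfl fun s _ => ?_
  simp [hf]

/-- fixed by all operators of the set -/
def Fx {K B : Type} [Field K] [AddCommGroup B] [Module K B] (Ops : Set (B →ₗ[K] B)) (z : B) :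
    Prop := ∀ r ∈ Ops, r z = z

theorem Fx.stab {K B : Type} [Field K] [AddCommGroup B] [Module K B] {Ops : Set (B →ₗ[K] B)}
    {s : B →ₗ[K] B} (hs : ∀ r ∈ Ops, Commute s r) {z : B} (hz : Fx Ops z) : Fx Ops (s z) := by
  intro r hr
  have h := LinearMap.congr_fun (hs r hr) z
  rw [Module.End.mul_apply, Module.End.mul_apply, hz r hr] at h
  exact h.symm

section one

variable {F K B C : Type} [Field F] [Field K] [AddCommGroup B] [Module K B] [AddCommGroup C]
  [Module F C]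

theorem MM.m_sub (S : MM F C (B →ₗ[K] B)) (α β : C →ₗ[F] C) : S.m (α - β) = S.m α - S.m β := by
  rw [eq_sub_iff_add_eq, ← S.add, sub_add_cancel]

theorem MM.m'_sub (S : MM F C (B →ₗ[K] B)) (α β : C →ₗ[F] C) :
    S.m' (α - β) = S.m' α - S.m' β := by
  rw [eq_sub_iff_add_eq, ← S.add', sub_add_cancel]

theorem tau_eq (S : MM F C (B →ₗ[K] B)) (h1 : S.m 1 + S.m' 1 = 1) (g : C ≃ₗ[F] C)
    (τ : B →ₗ[K] B) {w : B} (hy : (uu S g * τ) w = w) :
    (S.m 1 w = w → (τ - 1) w = S.m (g.toLinearMap - 1) w) ∧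
      (S.m' 1 w = w → (τ - 1) w = S.m' (g.symm.toLinearMap - 1) w) := by
  have e1 : τ w = vv S g w := by
    have h2 := LinearMap.congr_fun (vv_mul_uu S h1 g) (τ w)
    rw [Module.End.mul_apply, Module.End.one_apply] at h2
    rw [Module.End.mul_apply] at hy
    rw [← h2, hy]
  constructor
  · intro he
    have h3 : S.m' g.symm.toLinearMap w = 0 := by
      have h4 := LinearMap.congr_fun (S.orth' g.symm.toLinearMap 1) w
      rw [Module.End.mul_apply, he] at h4
      exact h4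
    rw [LinearMap.sub_apply, e1, MM.m_sub, LinearMap.sub_apply, he, Module.End.one_apply]
    unfold vv
    rw [LinearMap.add_apply, h3, add_zero]
  · intro he
    have h3 : S.m g.toLinearMap w = 0 := by
      have h4 := LinearMap.congr_fun (S.orth g.toLinearMap 1) w
      rw [Module.End.mul_apply, he] at h4
      exact h4
    rw [LinearMap.sub_apply, e1, MM.m'_sub, LinearMap.sub_apply, he, Module.End.one_apply]
    unfold vv
    rw [LinearMap.add_apply, h3, zero_add]

/-- step (3) -/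
theorem tau_prod {a : ℕ} (S : MM F C (B →ₗ[K] B)) (h1 : S.m 1 + S.m' 1 = 1)
    (g : Fin a → (C ≃ₗ[F] C)) (τ : Fin a → (B →ₗ[K] B)) (Ops : Set (B →ₗ[K] B))
    (hy : ∀ i, uu S (g i) * τ i ∈ Ops) (ht : ∀ i, ∀ r ∈ Ops, Commute (τ i) r) {w : B}
    (hw : Fx Ops w) (L : List (Fin a)) :
    Fx Ops ((L.map fun i => τ i - 1).prod w) ∧
    (S.m 1 ∈ Ops → (L.map fun i => τ i - 1).prod w =
      S.m ((L.map fun i => ((g i).toLinearMap - 1 : C →ₗ[F] C)).prod) w) ∧
    (S.m' 1 ∈ Ops → (L.map fun i => τ i - 1).prod w =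
      S.m' ((L.map fun i => ((g i).symm.toLinearMap - 1 : C →ₗ[F] C)).reverse.prod) w) := by
  induction L with
  | nil =>
    refine ⟨by simpa using hw, ?_, ?_⟩
    · intro h
      simpa using (hw _ h).symm
    · intro h
      simpa using (hw _ h).symm
  | cons i L ih =>
    obtain ⟨h2, h3, h4⟩ := ih
    obtain ⟨h5, h6⟩ := tau_eq S h1 (g i) (τ i) (h2 _ (hy i))
    refine ⟨?_, ?_, ?_⟩
    · rw [List.map_cons, List.prod_cons, Module.End.mul_apply]
      exact Fx.stab (fun r hr => (ht i r hr).sub_left (Commute.one_left _)) h2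
    · intro h
      rw [List.map_cons, List.prod_cons, Module.End.mul_apply, h5 (h2 _ h), h3 h, List.map_cons,
        List.prod_cons, S.mul, Module.End.mul_apply]
    · intro h
      rw [List.map_cons, List.prod_cons, Module.End.mul_apply, h6 (h2 _ h), h4 h, List.map_cons,
        List.reverse_cons, List.prod_append, List.prod_singleton, S.mul', Module.End.mul_apply]

/-- step (4) for one index -/
theorem simp_key [FiniteDimensional F C] {a : ℕ} (S : MM F C (B →ₗ[K] B))
    (h1 : S.m 1 + S.m' 1 = 1)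
    (g : Fin a → (C ≃ₗ[F] C)) (τ : Fin a → (B →ₗ[K] B)) (Ops : Set (B →ₗ[K] B))
    (hy : ∀ i, uu S (g i) * τ i ∈ Ops) (ht : ∀ i, ∀ r ∈ Ops, Commute (τ i) r)
    (hgg : ∀ i i', g i * g i' = g i' * g i)
    (hne : (List.ofFn fun i => ((g i).toLinearMap - 1 : C →ₗ[F] C)).prod ≠ 0)
    (hOps : (S.m 1 ∈ Ops ∧ ∀ α, ∀ r ∈ Ops, Commute (S.m α) r) ∨
      (S.m' 1 ∈ Ops ∧ ∀ α, ∀ r ∈ Ops, Commute (S.m' α) r)) {w : B}
    (hw : Fx Ops w) (hw0 : w ≠ 0) :
    ∃ s : B →ₗ[K] B, ((∃ β, s = S.m β) ∨ (∃ β, s = S.m' β)) ∧ (∀ r ∈ Ops, Commute s r) ∧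
      (List.ofFn fun i => (τ i - 1)).prod (s w) ≠ 0 := by
  rw [List.ofFn_eq_map] at hne ⊢
  rcases hOps with ⟨hD, hst⟩ | ⟨hD, hst⟩
  · obtain ⟨n, β, β', hβ⟩ := exists_simp hne
    by_contra hcon
    push Not at hcon
    apply hw0
    have e1 := hw _ hD
    have e2 : S.m 1 = ∑ s, S.m (β s) * S.m ((List.map (fun i => ((g i).toLinearMap - 1 :
        C →ₗ[F] C)) (List.finRange a)).prod) * S.m (β' s) := by
      conv_lhs => rw [← hβ]
      have := map_sum (AddMonoidHom.mk' S.m S.add) (fun s => β s * (List.map (fun i =>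
        ((g i).toLinearMap - 1 : C →ₗ[F] C)) (List.finRange a)).prod * β' s) Finset.univ
      refine Eq.trans this (Finset.sum_congr rfl fun s _ => ?_)
      rw [AddMonoidHom.mk'_apply, S.mul, S.mul]
    rw [← e1, e2, LinearMap.sum_apply]
    refine Finset.sum_eq_zero fun s _ => ?_
    have e3 : Fx Ops (S.m (β' s) w) := Fx.stab (hst _) hw
    have e4 := hcon _ (Or.inl ⟨β' s, rfl⟩) (hst _)
    rw [(tau_prod S h1 g τ Ops hy ht e3 (List.finRange a)).2.1 hD] at e4
    rw [Module.End.mul_apply, Module.End.mul_apply, e4, map_zero]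
  · have hne' : ((List.finRange a).map fun i => ((g i).symm.toLinearMap - 1 :
        C →ₗ[F] C)).reverse.prod ≠ 0 := by
      intro h0
      apply hne
      obtain ⟨V, _, hV⟩ := prod_inv_ne ((List.finRange a).map g) (by
        intro x hx x' hx'
        obtain ⟨i, _, rfl⟩ := List.mem_map.1 hx
        obtain ⟨i', _, rfl⟩ := List.mem_map.1 hx'
        exact hgg i i')
      rw [List.map_map, List.map_map] at hV
      have e5 : ((fun g : C ≃ₗ[F] C => (g.toLinearMap - 1 : C →ₗ[F] C)) ∘ g) =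
          fun i => ((g i).toLinearMap - 1 : C →ₗ[F] C) := rfl
      have e6 : ((fun g : C ≃ₗ[F] C => (g.symm.toLinearMap - 1 : C →ₗ[F] C)) ∘ g) =
          fun i => ((g i).symm.toLinearMap - 1 : C →ₗ[F] C) := rfl
      rw [e5, e6, h0, mul_zero] at hV
      exact hV
    obtain ⟨n, β, β', hβ⟩ := exists_simp hne'
    by_contra hcon
    push Not at hcon
    apply hw0
    have e1 := hw _ hD
    have e2 : S.m' 1 = ∑ s, S.m' (β' s) * (S.m' ((List.map (fun i => ((g i).symm.toLinearMap - 1 :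
        C →ₗ[F] C)) (List.finRange a)).reverse.prod) * S.m' (β s)) := by
      conv_lhs => rw [← hβ]
      have := map_sum (AddMonoidHom.mk' S.m' S.add') (fun s => β s * (List.map (fun i =>
        ((g i).symm.toLinearMap - 1 : C →ₗ[F] C)) (List.finRange a)).reverse.prod * β' s)
        Finset.univ
      refine Eq.trans this (Finset.sum_congr rfl fun s _ => ?_)
      rw [AddMonoidHom.mk'_apply, S.mul', S.mul']
    rw [← e1, e2, LinearMap.sum_apply]
    refine Finset.sum_eq_zero fun s _ => ?_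
    have e3 : Fx Ops (S.m' (β s) w) := Fx.stab (hst _) hw
    have e4 := hcon _ (Or.inr ⟨β s, rfl⟩) (hst _)
    rw [(tau_prod S h1 g τ Ops hy ht e3 (List.finRange a)).2.2 hD] at e4
    rw [Module.End.mul_apply, Module.End.mul_apply, e4, map_zero]

end one

theorem ring42 {F K B : Type} [Field F] [Field K] [AddCommGroup B] [Module K B] [Finite B]
    [Nontrivial B] {p : ℕ} (hp : p.Prime) [CharP K p] {a b : ℕ} (C : Fin b → Type)
    [∀ j, AddCommGroup (C j)] [∀ j, Module F (C j)] [∀ j, FiniteDimensional F (C j)]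
    (S : ∀ j, MM F (C j) (B →ₗ[K] B))
    (hS : ∀ i j, i ≠ j → ∀ α β, (S i).m α * (S j).m β = (S j).m β * (S i).m α ∧
      (S i).m α * (S j).m' β = (S j).m' β * (S i).m α ∧
      (S i).m' α * (S j).m' β = (S j).m' β * (S i).m' α)
    (h1 : ∀ j, (S j).m 1 + (S j).m' 1 = 1) (τ : Fin b → Fin a → (B →ₗ[K] B)ˣ)
    (hτp : ∀ j i, ∃ n : ℕ, τ j i ^ p ^ n = 1) (hττ : ∀ j i j' i', Commute (τ j i) (τ j' i'))
    (g : ∀ j, Fin a → (C j ≃ₗ[F] C j)) (hgp : ∀ j i, ∃ n : ℕ, g j i ^ p ^ n = 1)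
    (hgg : ∀ j i i', g j i * g j i' = g j i' * g j i)
    (hm : ∀ j i α, (τ j i : B →ₗ[K] B) * (S j).m α = (S j).m (cj (g j i) α) * τ j i)
    (hm' : ∀ j i α, (τ j i : B →ₗ[K] B) * (S j).m' α = (S j).m' (cj (g j i) α) * τ j i)
    (hc : ∀ j i j', j ≠ j' → ∀ α, (τ j i : B →ₗ[K] B) * (S j').m α = (S j').m α * τ j i ∧
      (τ j i : B →ₗ[K] B) * (S j').m' α = (S j').m' α * τ j i)
    (hne : ∀ j, (List.ofFn fun i => ((g j i).toLinearMap - 1 : C j →ₗ[F] C j)).prod ≠ 0) :
    (List.ofFn fun j => (List.ofFn fun i => ((τ j i : B →ₗ[K] B) - 1)).prod).prod ≠ 0 := by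
  classical
  -- commutations
  have hSc : ∀ i j, i ≠ j → ∀ α β, Commute ((S i).m α) ((S j).m β) ∧
      Commute ((S i).m α) ((S j).m' β) ∧ Commute ((S i).m' α) ((S j).m β) ∧
      Commute ((S i).m' α) ((S j).m' β) := by
    intro i j hij α β
    exact ⟨(hS i j hij α β).1, (hS i j hij α β).2.1, (hS j i hij.symm β α).2.1.symm,
      (hS i j hij α β).2.2⟩
  have hum : ∀ j i j', j ≠ j' → ∀ α, Commute (uu (S j) (g j i)) ((S j').m α) ∧
      Commute (uu (S j) (g j i)) ((S j').m' α) := by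
    intro j i j' hj α
    have h2 := hSc j j' hj
    exact ⟨Commute.add_left (h2 _ _).1 (h2 _ _).2.2.1,
      Commute.add_left (h2 _ _).2.1 (h2 _ _).2.2.2⟩
  have htm : ∀ j i j', j ≠ j' → ∀ α, Commute (τ j i : B →ₗ[K] B) ((S j').m α) ∧
      Commute (τ j i : B →ₗ[K] B) ((S j').m' α) := hc
  have hUU : ∀ j i j' i', Commute (uu (S j) (g j i)) (uu (S j') (g j' i')) := by
    intro j i j' i'
    by_cases hj : j = j'
    · subst hj
      exact uu_comm_uu _ _ _ (hgg j i i')
    · exact Commute.add_right (hum j i j' hj _).1 (hum j i j' hj _).2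
  have hTU : ∀ j i j' i', Commute (τ j i : B →ₗ[K] B) (uu (S j') (g j' i')) := by
    intro j i j' i'
    by_cases hj : j = j'
    · subst hj
      exact tau_comm_uu _ _ _ (hgg j i i') (hm j i) (hm' j i)
    · exact Commute.add_right (htm j i j' hj _).1 (htm j i j' hj _).2
  have hTT : ∀ j i j' i', Commute (τ j i : B →ₗ[K] B) (τ j' i' : B →ₗ[K] B) :=
    fun j i j' i' => (hττ j i j' i').map (Units.coeHom _)
  let y : Fin b × Fin a → (B →ₗ[K] B) := fun k => uu (S k.1) (g k.1 k.2) * (τ k.1 k.2 : B →ₗ[K] B)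
  have hTY : ∀ j i k, Commute (τ j i : B →ₗ[K] B) (y k) :=
    fun j i k => (hTU j i k.1 k.2).mul_right (hTT j i k.1 k.2)
  have hyy : ∀ k l, Commute (y k) (y l) := fun k l =>
    Commute.mul_left ((hUU k.1 k.2 l.1 l.2).mul_right (hTU l.1 l.2 k.1 k.2).symm)
      (hTY k.1 k.2 l)
  have hyp : ∀ k, ∃ n : ℕ, y k ^ p ^ n = 1 := by
    intro k
    obtain ⟨n1, h2⟩ := hτp k.1 k.2
    obtain ⟨n2, h3⟩ := hgp k.1 k.2
    refine ⟨n1 + n2, ?_⟩
    have h4 : (τ k.1 k.2 : B →ₗ[K] B) ^ p ^ (n1 + n2) = 1 := by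
      rw [pow_add, pow_mul, ← Units.val_pow_eq_pow_val, h2, Units.val_one, one_pow]
    have h5 : uu (S k.1) (g k.1 k.2) ^ p ^ (n1 + n2) = 1 := by
      rw [add_comm, pow_add, pow_mul, uu_pow_one _ (h1 k.1) _ h3, one_pow]
    have h6 : y k ^ p ^ (n1 + n2) = uu (S k.1) (g k.1 k.2) ^ p ^ (n1 + n2) *
        (τ k.1 k.2 : B →ₗ[K] B) ^ p ^ (n1 + n2) :=
      (hTU k.1 k.2 k.1 k.2).symm.mul_pow _
    rw [h6, h4, h5, mul_one]
  have hym : ∀ k j α, Commute (y k) ((S j).m α) ∧ Commute (y k) ((S j).m' α) := by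
    intro k j α
    by_cases hj : k.1 = j
    · subst hj
      exact yy_comm _ _ (hm k.1 k.2) (hm' k.1 k.2) α
    · exact ⟨Commute.mul_left (hum _ _ _ hj _).1 (htm _ _ _ hj _).1,
        Commute.mul_left (hum _ _ _ hj _).2 (htm _ _ _ hj _).2⟩
  -- a vector of pure type
  obtain ⟨x, hx, hyx⟩ := simp_fix hp y hyp hyy Finset.univ.toList
  obtain ⟨z, hz, hyz, hez⟩ := simp_types y (fun j => (S j).m 1) (fun j => (S j).m' 1) h1
    (fun j => by rw [← (S j).mul, one_mul]) (fun i j hij => (hSc i j hij 1 1).1)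
    (fun i j hij => (hSc i j hij 1 1).2.2.1) (fun k j => (hym k j 1).1) hx
    (fun k => hyx k (by simp)) Finset.univ
  let e : Fin b → (B →ₗ[K] B) := fun j => if (S j).m 1 z = z then (S j).m 1 else (S j).m' 1
  have he : ∀ j, (e j = (S j).m 1 ∨ e j = (S j).m' 1) ∧ e j z = z := by
    intro j
    by_cases h2 : (S j).m 1 z = z
    · have h3 : e j = (S j).m 1 := if_pos h2
      exact ⟨Or.inl h3, by rw [h3, h2]⟩
    · have h3 : e j = (S j).m' 1 := if_neg h2
      exact ⟨Or.inr h3, by rw [h3]; exact (hez j (Finset.mem_univ j)).resolve_left h2⟩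
  let Ops : Set (B →ₗ[K] B) := {r | (∃ k, r = y k) ∨ ∃ j, r = e j}
  have hzO : Fx Ops z := by
    rintro r (⟨k, rfl⟩ | ⟨j, rfl⟩)
    · exact hyz k
    · exact (he j).2
  have hyO : ∀ k, y k ∈ Ops := fun k => Or.inl ⟨k, rfl⟩
  have htO : ∀ j i, ∀ r ∈ Ops, Commute (τ j i : B →ₗ[K] B) r := by
    rintro j i r (⟨k, rfl⟩ | ⟨j', rfl⟩)
    · exact hTY j i k
    · by_cases hj : j = j'
      · subst hj
        have e1 : cj (g j i) 1 = 1 := by
          rw [simp_cj, mul_one, simp_mul_symm]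
        rcases (he j).1 with h2 | h2
        · rw [h2]
          have h3 := hm j i 1
          rw [e1] at h3
          exact h3
        · rw [h2]
          have h3 := hm' j i 1
          rw [e1] at h3
          exact h3
      · rcases (he j').1 with h2 | h2
        · rw [h2]; exact (htm j i j' hj 1).1
        · rw [h2]; exact (htm j i j' hj 1).2
  have hmO : ∀ j, ((S j).m 1 ∈ Ops ∧ ∀ α, ∀ r ∈ Ops, Commute ((S j).m α) r) ∨
      ((S j).m' 1 ∈ Ops ∧ ∀ α, ∀ r ∈ Ops, Commute ((S j).m' α) r) := by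
    intro j
    have h3 : ∀ α j', j ≠ j' → Commute ((S j).m α) (e j') ∧ Commute ((S j).m' α) (e j') := by
      intro α j' hj
      rcases (he j').1 with h2 | h2
      · rw [h2]; exact ⟨(hSc j j' hj α 1).1, (hSc j j' hj α 1).2.2.1⟩
      · rw [h2]; exact ⟨(hSc j j' hj α 1).2.1, (hSc j j' hj α 1).2.2.2⟩
    rcases (he j).1 with h2 | h2
    · left
      refine ⟨Or.inr ⟨j, h2.symm⟩, ?_⟩
      rintro α r (⟨k, rfl⟩ | ⟨j', rfl⟩)
      · exact (hym k j α).1.symm
      · by_cases hj : j = j'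
        · subst hj
          rw [h2]
          change _ * _ = _ * _
          rw [← (S j).mul, ← (S j).mul, one_mul, mul_one]
        · exact (h3 α j' hj).1
    · right
      refine ⟨Or.inr ⟨j, h2.symm⟩, ?_⟩
      rintro α r (⟨k, rfl⟩ | ⟨j', rfl⟩)
      · exact (hym k j α).2.symm
      · by_cases hj : j = j'
        · subst hj
          rw [h2]
          change _ * _ = _ * _
          rw [← (S j).mul', ← (S j).mul', one_mul, mul_one]
        · exact (h3 α j' hj).2
  -- induction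
  have key : ∀ L : List (Fin b), L.Nodup → ∃ w, Fx Ops w ∧
      ((L.map fun j => (List.ofFn fun i => ((τ j i : B →ₗ[K] B) - 1)).prod).prod) w ≠ 0 := by
    intro L
    induction L with
    | nil => intro _; exact ⟨z, hzO, by simpa using hz⟩
    | cons j L ih =>
      intro hL
      obtain ⟨w, hw, hw0⟩ := ih (List.nodup_cons.1 hL).2
      have hcm : ∀ s : B →ₗ[K] B, (∀ j' i, j' ∈ L → Commute s (τ j' i : B →ₗ[K] B)) →
          Commute s ((L.map fun j => (List.ofFn fun i =>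
            ((τ j i : B →ₗ[K] B) - 1)).prod).prod) := by
        intro s hs
        apply Commute.list_prod_right
        intro q hq
        obtain ⟨j', hj', rfl⟩ := List.mem_map.1 hq
        apply Commute.list_prod_right
        intro q hq
        obtain ⟨i, rfl⟩ := (List.mem_ofFn' _ _).1 hq
        exact (hs j' i hj').sub_right (Commute.one_right _)
      have hPw : Fx Ops (((L.map fun j => (List.ofFn fun i =>
          ((τ j i : B →ₗ[K] B) - 1)).prod).prod) w) :=
        Fx.stab (fun r hr => (hcm r fun j' i _ => (htO j' i r hr).symm).symm) hw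
      obtain ⟨s, hs, h2, h3⟩ := simp_key (S j) (h1 j) (g j) (fun i => (τ j i : B →ₗ[K] B)) Ops
        (fun i => hyO (j, i)) (htO j) (hgg j) (hne j) (hmO j) hPw hw0
      have hsL : Commute s ((L.map fun j => (List.ofFn fun i =>
            ((τ j i : B →ₗ[K] B) - 1)).prod).prod) := by
        apply hcm
        intro j' i hj'
        have hne' : j' ≠ j := fun h => (List.nodup_cons.1 hL).1 (h ▸ hj')
        rcases hs with ⟨β, rfl⟩ | ⟨β, rfl⟩
        · exact (htm j' i j hne' β).1.symm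
        · exact (htm j' i j hne' β).2.symm
      have h4 := LinearMap.congr_fun hsL w
      rw [Module.End.mul_apply, Module.End.mul_apply] at h4
      refine ⟨s w, Fx.stab h2 hw, ?_⟩
      · rw [List.map_cons, List.prod_cons, Module.End.mul_apply, ← h4]
        exact h3
  obtain ⟨w, _, hw⟩ := key (List.finRange b) (List.nodup_finRange b)
  intro h0
  rw [List.ofFn_eq_map] at h0
  rw [h0] at hw
  exact hw rfl

end Pool.Agent.Lib.MP_b9166b_al.Pt
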