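import Pool.Agent.Lib.MP_b9166b_al.Pt.Fd
import Pool.Agent.Lib.MP_b9166b_al.Pt.Simp

/-!
# MP_b9166b_al, PT: existence of free data

`t = u - 1`. Let `X` be a complement of the kernel of `t^(k-1)`, `dim X = rank t^(k-1)`. The map `(Fin k → X) → Z`, `(x_j) ↦ ∑ t^j x_j`, is injective
(apply `t^(k-1)`, then `t^(k-2)`, ..: `t^(k-1)` is injective on `X`), and `dim Z ≤ k dim X`, so it is bijective. The map `(x_j) ↦ ∑ u^j x_j` has the same
partial images (`⨁_{j<n} t^j X = ∑_{j<n} u^j X`), so it is surjective, hence bijective. `ε j` = the projection onto `u^j X`.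
`exists_fd_op`: the same for the dual space: `Φ : (Z →ₗ Z)ᵐᵒᵖ ≃+* (Dual Z →ₗ Dual Z)`, `op α ↦ αᵗ` (`Module.Dual.transpose`, bijective as `Z` is finite
dimensional), maps `op u⁻¹` to the contragredient; `rank` of the transpose of `(u⁻¹ - 1)^(k-1) = ± u⁻¹^(k-1) (u - 1)^(k-1)` is the same. Pull back the
free data with `Φ`. `simp_op`: apply `exists_simp` to `unop α`, and `op` reverses the products.
-/

set_option autoImplicit false

namespace Pool.Agent.Lib.MP_b9166b_al.Pt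

open Module

/-- the unit `op u⁻¹` -/
def opu {S : Type} [Ring S] (u : Sˣ) : (Sᵐᵒᵖ)ˣ where
  val := MulOpposite.op ((u⁻¹ : Sˣ) : S)
  inv := MulOpposite.op (u : S)
  val_inv := by rw [← MulOpposite.op_mul, Units.mul_inv, MulOpposite.op_one]
  inv_val := by rw [← MulOpposite.op_mul, Units.inv_mul, MulOpposite.op_one]

section data

variable {F Z : Type} [Field F] [AddCommGroup Z] [Module F Z]

/-- `(x_j) ↦ ∑ w^j x_j` -/
def fdxMap (w : Z →ₗ[F] Z) (k : ℕ) (X : Submodule F Z) : (Fin k → X) →ₗ[F] Z :=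
  ∑ j : Fin k, (w ^ (j : ℕ)) ∘ₗ X.subtype ∘ₗ LinearMap.proj j

theorem fdxMap_apply (w : Z →ₗ[F] Z) (k : ℕ) (X : Submodule F Z) (x : Fin k → X) :
    fdxMap w k X x = ∑ j : Fin k, (w ^ (j : ℕ)) (x j : Z) := by
  simp [fdxMap, LinearMap.sum_apply]

theorem fdxMap_single (w : Z →ₗ[F] Z) (k : ℕ) (X : Submodule F Z) (i : Fin k) (x : X) :
    fdxMap w k X (Pi.single i x) = (w ^ (i : ℕ)) (x : Z) := by
  rw [fdxMap_apply, Finset.sum_eq_single i]
  · rw [Pi.single_eq_same]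
  · intro j _ hj
    rw [Pi.single_eq_of_ne hj, Submodule.coe_zero, map_zero]
  · intro h
    exact absurd (Finset.mem_univ i) h

/-- injectivity for a nilpotent `t` -/
theorem fdxMap_inj (t : Z →ₗ[F] Z) {k : ℕ} (h : t ^ k = 0) (X : Submodule F Z)
    (hX : ∀ x ∈ X, (t ^ (k - 1)) x = 0 → x = 0) : Function.Injective (fdxMap t k X) := by
  rw [← LinearMap.ker_eq_bot, LinearMap.ker_eq_bot']
  intro y hy
  rw [fdxMap_apply] at hy
  have hz : ∀ (n : ℕ) (z : Z), k ≤ n → (t ^ n) z = 0 := by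
    intro n z hn
    obtain ⟨c, rfl⟩ := Nat.exists_eq_add_of_le hn
    rw [pow_add, h, zero_mul, LinearMap.zero_apply]
  have key : ∀ n : ℕ, ∀ hn : n < k, y ⟨n, hn⟩ = 0 := by
    intro n
    induction n using Nat.strong_induction_on with
    | _ n ih =>
      intro hn
      have h1 := congrArg (t ^ (k - 1 - n)) hy
      rw [map_zero, map_sum, Finset.sum_eq_single (⟨n, hn⟩ : Fin k)] at h1
      · rw [← Module.End.mul_apply, ← pow_add] at h1
        have h2 : k - 1 - n + n = k - 1 := by omega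
        have h3 : (t ^ (k - 1)) (y ⟨n, hn⟩ : Z) = 0 := by
          rw [← h2]
          exact h1
        exact Subtype.ext (hX _ (y ⟨n, hn⟩).2 h3)
      · intro j _ hj
        rcases lt_trichotomy (j : ℕ) n with h2 | h2 | h2
        · have h3 := ih j h2 j.2
          have h4 : y j = 0 := h3
          rw [h4, Submodule.coe_zero, map_zero, map_zero]
        · exact absurd (Fin.ext h2) hj
        · rw [← Module.End.mul_apply, ← pow_add]
          exact hz _ _ (by omega)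
      · intro h2
        exact absurd (Finset.mem_univ _) h2
  funext j
  exact key j j.2

/-- `∑ u^j X` contains `∑ (u - 1)^j X` -/
theorem fdxMap_range (u : Z →ₗ[F] Z) (k : ℕ) (X : Submodule F Z) :
    LinearMap.range (fdxMap (u - 1) k X) ≤ LinearMap.range (fdxMap u k X) := by
  rintro _ ⟨y, rfl⟩
  rw [fdxMap_apply]
  refine Submodule.sum_mem _ fun j _ => ?_
  rw [FD.Fd_binom, LinearMap.sum_apply]
  refine Submodule.sum_mem _ fun i hi => ?_
  have hi' : i < k := lt_of_lt_of_le (Finset.mem_range.1 hi) j.2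
  have h1 : ((((FD.cf j i : ℤ) : Z →ₗ[F] Z)) * u ^ i) (y j : Z) =
      FD.cf j i • (u ^ i) (y j : Z) := by
    rw [← zsmul_eq_mul, LinearMap.smul_apply]
  rw [h1]
  refine zsmul_mem ?_ _
  exact ⟨Pi.single (⟨i, hi'⟩ : Fin k) (y j), fdxMap_single u k X ⟨i, hi'⟩ (y j)⟩

/-- the bijection -/
theorem fdxMap_bij [FiniteDimensional F Z] (u : Z →ₗ[F] Z) {k : ℕ}
    (h : (u - 1) ^ k = 0)
    (hf : finrank F Z ≤ k * finrank F (LinearMap.range ((u - 1) ^ (k - 1)))) :
    ∃ X : Submodule F Z, Function.Bijective (fdxMap u k X) := by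
  obtain ⟨X, hX⟩ := Submodule.exists_isCompl (LinearMap.ker ((u - 1) ^ (k - 1)))
  refine ⟨X, ?_⟩
  have hdX : finrank F X = finrank F (LinearMap.range ((u - 1) ^ (k - 1))) := by
    have h1 := Submodule.finrank_add_eq_of_isCompl hX
    have h2 := LinearMap.finrank_range_add_finrank_ker ((u - 1) ^ (k - 1))
    omega
  have hinj : Function.Injective (fdxMap (u - 1) k X) := by
    apply fdxMap_inj _ h
    intro x hx h0
    have h1 : x ∈ LinearMap.ker ((u - 1) ^ (k - 1)) ⊓ X := ⟨h0, hx⟩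
    rw [hX.inf_eq_bot] at h1
    exact h1
  have hd : finrank F (Fin k → X) = k * finrank F X := by
    rw [Module.finrank_pi_fintype, Finset.sum_const, Finset.card_univ, Fintype.card_fin,
      smul_eq_mul]
  have hle := LinearMap.finrank_le_finrank_of_injective hinj
  have heq : finrank F (Fin k → X) = finrank F Z := by
    rw [hd, hdX] at hle ⊢
    omega
  have hsurj : Function.Surjective (fdxMap (u - 1) k X) :=
    (LinearMap.injective_iff_surjective_of_finrank_eq_finrank heq).1 hinj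
  have hs2 : Function.Surjective (fdxMap u k X) := by
    rw [← LinearMap.range_eq_top]
    apply top_le_iff.1
    rw [← LinearMap.range_eq_top.2 hsurj]
    exact fdxMap_range u k X
  exact ⟨(LinearMap.injective_iff_surjective_of_finrank_eq_finrank heq).2 hs2, hs2⟩

end data

theorem exists_fd {F Z : Type} [Field F] [AddCommGroup Z] [Module F Z] [FiniteDimensional F Z]
    (u : (Z →ₗ[F] Z)ˣ) {k : ℕ} (hk : 0 < k) (h : ((u : Z →ₗ[F] Z) - 1) ^ k = 0)
    (hf : finrank F Z ≤ k * finrank F (LinearMap.range (((u : Z →ₗ[F] Z) - 1) ^ (k - 1)))) :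
    Nonempty (FD u k) := by
  classical
  obtain ⟨X, hb⟩ := fdxMap_bij (u : Z →ₗ[F] Z) h hf
  let e : (Fin k → X) ≃ₗ[F] Z := LinearEquiv.ofBijective (fdxMap (u : Z →ₗ[F] Z) k X) hb
  have he : ∀ (i : Fin k) (x : X), e.symm (((u : Z →ₗ[F] Z) ^ (i : ℕ)) (x : Z)) = Pi.single i x := by
    intro i x
    rw [LinearEquiv.symm_apply_eq]
    exact (fdxMap_single _ k X i x).symm
  have he0 : ∀ x : X, e.symm (x : Z) = Pi.single (⟨0, hk⟩ : Fin k) x := by
    intro x
    have h1 := he ⟨0, hk⟩ x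
    rw [pow_zero, Module.End.one_apply] at h1
    exact h1
  let c : Fin k → (Z →ₗ[F] Z) := fun j =>
    X.subtype ∘ₗ LinearMap.proj j ∘ₗ e.symm.toLinearMap
  have hc : ∀ j z, c j z = ((e.symm z j : X) : Z) := fun _ _ => rfl
  let ε : ℕ → (Z →ₗ[F] Z) := fun j =>
    if hj : j < k then (u : Z →ₗ[F] Z) ^ j * c ⟨j, hj⟩ else 0
  have hε : ∀ j (hj : j < k) (z : Z),
      ε j z = ((u : Z →ₗ[F] Z) ^ j) ((e.symm z ⟨j, hj⟩ : X) : Z) := by
    intro j hj z
    have h1 : ε j = (u : Z →ₗ[F] Z) ^ j * c ⟨j, hj⟩ := dif_pos hj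
    rw [h1, Module.End.mul_apply, hc]
  refine ⟨⟨ε, ?_, ?_, ?_, h⟩⟩
  · refine LinearMap.ext fun z => ?_
    rw [LinearMap.sum_apply, Finset.sum_range, Module.End.one_apply]
    have h1 : z = e (e.symm z) := (e.apply_symm_apply z).symm
    conv_rhs => rw [h1]
    change _ = fdxMap (u : Z →ₗ[F] Z) k X (e.symm z)
    rw [fdxMap_apply]
    exact Finset.sum_congr rfl fun j _ => hε j j.2 z
  · intro i hi j hj
    refine LinearMap.ext fun z => ?_
    rw [Module.End.mul_apply, Module.End.mul_apply, hε 0 hk, pow_zero, Module.End.one_apply,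
      hε i hi, he ⟨j, hj⟩]
    by_cases hij : i = j
    · subst hij
      rw [if_pos rfl, Pi.single_eq_same, Module.End.mul_apply, hε 0 hk, pow_zero,
        Module.End.one_apply]
    · rw [if_neg hij, Pi.single_eq_of_ne (fun h => hij (Fin.mk.inj h)), Submodule.coe_zero,
        map_zero, LinearMap.zero_apply]
  · intro j hj
    refine LinearMap.ext fun z => ?_
    have h1 : ((((u⁻¹ : (Z →ₗ[F] Z)ˣ) : Z →ₗ[F] Z)) ^ j * ε j) z =
        ((e.symm z ⟨j, hj⟩ : X) : Z) := by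
      rw [Module.End.mul_apply, hε j hj, ← Module.End.mul_apply, FD.Fd_mul_pow,
        Module.End.one_apply]
    rw [Module.End.mul_apply, h1, hε 0 hk, he0, Pi.single_eq_same, pow_zero,
      Module.End.one_apply]

/-- transport of free data -/
theorem fdx_pull {S S' : Type} [Ring S] [Ring S'] (φ : S ≃+* S') {u : Sˣ} {u' : S'ˣ}
    (hu : φ (u : S) = u') {k : ℕ} (D : FD u' k) : Nonempty (FD u k) := by
  have hu1 : φ ((u⁻¹ : Sˣ) : S) = ((u'⁻¹ : S'ˣ) : S') := by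
    have h1 : φ ((u⁻¹ : Sˣ) : S) * (u' : S') = 1 := by
      rw [← hu, ← map_mul, Units.inv_mul, map_one]
    exact Units.eq_inv_of_mul_eq_one_right h1
  refine ⟨⟨fun j => φ.symm (D.ε j), ?_, ?_, ?_, ?_⟩⟩
  · rw [← map_sum, D.sum, map_one]
  · intro i hi j hj
    apply φ.injective
    rw [map_mul, map_mul, map_pow, hu, φ.apply_symm_apply, φ.apply_symm_apply, D.e1 i hi j hj]
    by_cases hij : i = j
    · rw [if_pos hij, if_pos hij, map_mul, map_pow, hu, φ.apply_symm_apply]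
    · rw [if_neg hij, if_neg hij, map_zero]
  · intro j hj
    apply φ.injective
    rw [map_mul, map_mul, map_pow, hu1, φ.apply_symm_apply, φ.apply_symm_apply]
    exact D.e2 j hj
  · apply φ.injective
    rw [map_pow, map_sub, hu, map_one, map_zero, D.nil]

theorem exists_fd_op {F Z : Type} [Field F] [AddCommGroup Z] [Module F Z] [FiniteDimensional F Z]
    (u : (Z →ₗ[F] Z)ˣ) {k : ℕ} (hk : 0 < k) (h : ((u : Z →ₗ[F] Z) - 1) ^ k = 0)
    (hf : finrank F Z ≤ k * finrank F (LinearMap.range (((u : Z →ₗ[F] Z) - 1) ^ (k - 1)))) :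
    Nonempty (FD (opu u) k) := by
  classical
  let b := Module.finBasis F Z
  let A : (Z →ₗ[F] Z) ≃ₐ[F] Matrix (Fin (finrank F Z)) (Fin (finrank F Z)) F :=
    LinearMap.toMatrixAlgEquiv b
  let φ : (Z →ₗ[F] Z)ᵐᵒᵖ ≃+* (Z →ₗ[F] Z) :=
    (((A.toRingEquiv.op).trans (Matrix.transposeRingEquiv (Fin (finrank F Z)) F).symm).trans
      A.symm.toRingEquiv)
  have hφ : ∀ β : Z →ₗ[F] Z, φ (MulOpposite.op β) = A.symm (A β).transpose := fun _ => rfl
  have hrank : ∀ β : Z →ₗ[F] Z, finrank F (LinearMap.range (φ (MulOpposite.op β))) =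
      finrank F (LinearMap.range β) := by
    intro β
    have h1 : ∀ M : Matrix (Fin (finrank F Z)) (Fin (finrank F Z)) F,
        finrank F (LinearMap.range (A.symm M)) = M.rank := fun M =>
      (Matrix.rank_eq_finrank_range_toLin M b b).symm
    rw [hφ, h1, Matrix.rank_transpose, ← h1, AlgEquiv.symm_apply_apply]
  let u' : (Z →ₗ[F] Z)ˣ := Units.map (φ : (Z →ₗ[F] Z)ᵐᵒᵖ →* (Z →ₗ[F] Z)) (opu u)
  have hu' : φ ((opu u : ((Z →ₗ[F] Z)ᵐᵒᵖ)ˣ) : (Z →ₗ[F] Z)ᵐᵒᵖ) = u' := rfl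
  have hpow : ∀ n : ℕ, ((u' : Z →ₗ[F] Z) - 1) ^ n =
      φ (MulOpposite.op ((((u⁻¹ : (Z →ₗ[F] Z)ˣ) : Z →ₗ[F] Z) - 1) ^ n)) := by
    intro n
    rw [MulOpposite.op_pow, map_pow, MulOpposite.op_sub, MulOpposite.op_one, map_sub, map_one]
    rfl
  have hinv : ∀ n : ℕ, (((u⁻¹ : (Z →ₗ[F] Z)ˣ) : Z →ₗ[F] Z) - 1) ^ n =
      (-((u⁻¹ : (Z →ₗ[F] Z)ˣ) : Z →ₗ[F] Z)) ^ n * ((u : Z →ₗ[F] Z) - 1) ^ n := by
    intro n
    have hcm : Commute (-((u⁻¹ : (Z →ₗ[F] Z)ˣ) : Z →ₗ[F] Z)) ((u : Z →ₗ[F] Z) - 1) := by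
      refine (Commute.sub_right ?_ (Commute.one_right _)).neg_left
      change _ * _ = _ * _
      rw [Units.inv_mul, Units.mul_inv]
    rw [← hcm.mul_pow]
    congr 1
    rw [neg_mul, mul_sub, Units.inv_mul, mul_one, neg_sub]
  obtain ⟨D⟩ := exists_fd u' hk (by rw [hpow, hinv, h, mul_zero, MulOpposite.op_zero, map_zero]) (by
    rw [hpow, hrank, hinv]
    have h2 : LinearMap.range ((-((u⁻¹ : (Z →ₗ[F] Z)ˣ) : Z →ₗ[F] Z)) ^ (k - 1) *
        ((u : Z →ₗ[F] Z) - 1) ^ (k - 1)) = (LinearMap.range (((u : Z →ₗ[F] Z) - 1) ^ (k - 1))).map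
        ((-((u⁻¹ : (Z →ₗ[F] Z)ˣ) : Z →ₗ[F] Z)) ^ (k - 1)) := LinearMap.range_comp _ _
    have h3 : Function.Injective ((-((u⁻¹ : (Z →ₗ[F] Z)ˣ) : Z →ₗ[F] Z)) ^ (k - 1)) := by
      have h4 : (-(u : Z →ₗ[F] Z)) ^ (k - 1) *
          (-((u⁻¹ : (Z →ₗ[F] Z)ˣ) : Z →ₗ[F] Z)) ^ (k - 1) = 1 := by
        have h5 : Commute (-(u : Z →ₗ[F] Z)) (-((u⁻¹ : (Z →ₗ[F] Z)ˣ) : Z →ₗ[F] Z)) := by
          change _ * _ = _ * _
          rw [neg_mul_neg, neg_mul_neg, Units.mul_inv, Units.inv_mul]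
        rw [← h5.mul_pow, neg_mul_neg, Units.mul_inv, one_pow]
      intro x y hxy
      have h6 := congrArg ((-(u : Z →ₗ[F] Z)) ^ (k - 1)) hxy
      rw [← Module.End.mul_apply, ← Module.End.mul_apply, h4] at h6
      exact h6
    rw [h2, ← (Submodule.equivMapOfInjective _ h3
      (LinearMap.range (((u : Z →ₗ[F] Z) - 1) ^ (k - 1)))).finrank_eq]
    exact hf)
  exact fdx_pull φ hu' D

theorem simp_op {F C : Type} [Field F] [AddCommGroup C] [Module F C] [FiniteDimensional F C]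
    (α : (C →ₗ[F] C)ᵐᵒᵖ) (hα : α ≠ 0) :
    ∃ (n : ℕ) (β β' : Fin n → (C →ₗ[F] C)ᵐᵒᵖ), ∑ s, β s * α * β' s = 1 := by
  obtain ⟨n, β, β', h⟩ := exists_simp (α := MulOpposite.unop α) (by
    intro h0
    apply hα
    rw [← MulOpposite.op_unop α, h0, MulOpposite.op_zero])
  refine ⟨n, fun s => MulOpposite.op (β' s), fun s => MulOpposite.op (β s), ?_⟩
  apply MulOpposite.unop_injective
  rw [MulOpposite.unop_one, ← h, ← MulOpposite.opAddEquiv_symm_apply, map_sum]
  refine Finset.sum_congr rfl fun s _ => ?_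
  rw [MulOpposite.opAddEquiv_symm_apply, MulOpposite.unop_mul, MulOpposite.unop_mul,
    MulOpposite.unop_op, MulOpposite.unop_op, mul_assoc]

end Pool.Agent.Lib.MP_b9166b_al.Pt
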