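import Pool.Agent.Lib.MP_b9166b_al.Pt.Gp

/-!
# MP_b9166b_al, PT: the configuration of (3.2)

`𝔽` a finite group, `ι = {h : 𝔽 // h ≠ 1}`. Take `e` from `exists_gp` with `k = 3 * card ι`; `v h` are the first `card ι` vectors, `w h`, `y h`
the other ones. `Gq_fun`: for a threshold `t`, elements `g j ≠ 1` and values `a j` there is a functional which vanishes on all translates of
the `e i`, `i < t`, and has value `a j` at `e j` and `0` at `A (g j) (e j)` for `j ≥ t`; it is built by induction on the level: as `e n`,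
`A (g n) (e n)` are independent modulo the span `S n` of the translates of the smaller ones, the values at these two vectors can be corrected
without a change on `S n`.
`φ h` (value `1` at `w h`): `t = card ι`, `g j = h⁻¹`. `α h`, `β h` (value `1` at `v h`, `y h`): `t = 0`, `g j = h'` if `e j = v h'`.
-/

set_option autoImplicit false

namespace Pool.Agent.Lib.MP_b9166b_al.Pt

open Module

/-- a functional with value `1` at `x` and `0` on `S`, `z` -/
theorem Gq_one {F V : Type} [Field F] [AddCommGroup V] [Module F V] (S : Submodule F V) (x z : V)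
    (h : ∀ c₁ c₂ : F, c₁ • x + c₂ • z ∈ S → c₁ = 0 ∧ c₂ = 0) :
    ∃ u : Dual F V, u x = 1 ∧ u z = 0 ∧ ∀ s ∈ S, u s = 0 := by
  have hx : x ∉ S ⊔ Submodule.span F {z} := by
    intro hx
    rw [Submodule.mem_sup] at hx
    obtain ⟨s, hs, y, hy, hsy⟩ := hx
    rw [Submodule.mem_span_singleton] at hy
    obtain ⟨c, rfl⟩ := hy
    have h1 := (h 1 (-c) (by
      rw [← hsy, one_smul, neg_smul, add_neg_cancel_right]
      exact hs)).1
    exact one_ne_zero h1
  obtain ⟨f, hf, hS⟩ := Submodule.exists_dual_map_eq_bot_of_notMem hx inferInstance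
  have hz : ∀ y ∈ S ⊔ Submodule.span F {z}, f y = 0 := by
    intro y hy
    have h1 : f y ∈ (S ⊔ Submodule.span F {z}).map f := Submodule.mem_map_of_mem hy
    rw [hS, Submodule.mem_bot] at h1
    exact h1
  refine ⟨(f x)⁻¹ • f, ?_, ?_, ?_⟩
  · rw [LinearMap.smul_apply, smul_eq_mul, inv_mul_cancel₀ hf]
  · rw [LinearMap.smul_apply, hz z (Submodule.mem_sup_right (Submodule.mem_span_singleton_self z)),
      smul_zero]
  · intro s hs
    rw [LinearMap.smul_apply, hz s (Submodule.mem_sup_left hs), smul_zero]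

/-- prescribed values, level by level -/
theorem Gq_fun {𝔽 F V : Type} [Group 𝔽] [Field F] [AddCommGroup V] [Module F V]
    {A : 𝔽 → (V →ₗ[F] V)} (hA : PRep A) {k : ℕ} {e : Fin k → V}
    (he : ∀ j : Fin k, ∀ g, g ≠ 1 → ∀ c₁ c₂ : F,
      c₁ • e j + c₂ • A g (e j) ∈ Submodule.span F {x | ∃ i < j, ∃ h, x = A h (e i)} →
        c₁ = 0 ∧ c₂ = 0)
    (t : ℕ) (g : Fin k → 𝔽) (hg : ∀ j, g j ≠ 1) (a : Fin k → F) (n : ℕ) (hn : n ≤ k) :
    ∃ f : Dual F V, (∀ i : Fin k, (i : ℕ) < t → ∀ h, f (A h (e i)) = 0) ∧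
      ∀ j : Fin k, t ≤ (j : ℕ) → (j : ℕ) < n → f (e j) = a j ∧ f (A (g j) (e j)) = 0 := by
  induction n with
  | zero => exact ⟨0, fun _ _ _ => rfl, fun j _ hj => absurd hj (Nat.not_lt_zero _)⟩
  | succ n ih =>
    obtain ⟨f, hf1, hf2⟩ := ih (by omega)
    by_cases ht : n < t
    · exact ⟨f, hf1, fun j h1 h2 => hf2 j h1 (by omega)⟩
    obtain ⟨m, hm⟩ : ∃ m : Fin k, (m : ℕ) = n := ⟨⟨n, by omega⟩, rfl⟩
    obtain ⟨S, hS⟩ : ∃ S, S = Submodule.span F {x | ∃ i < m, ∃ h, x = A h (e i)} := ⟨_, rfl⟩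
    have hmem : ∀ i < m, ∀ h, A h (e i) ∈ S := by
      intro i hi h
      rw [hS]
      exact Submodule.subset_span ⟨i, hi, h, rfl⟩
    have hmem1 : ∀ i < m, e i ∈ S := by
      intro i hi
      obtain ⟨c, hc, h1⟩ := hA.one
      have h2 : e i = c⁻¹ • A 1 (e i) := by
        rw [h1, LinearMap.smul_apply, Module.End.one_apply, smul_smul, inv_mul_cancel₀ hc, one_smul]
      rw [h2]
      exact S.smul_mem _ (hmem i hi 1)
    obtain ⟨u, hu1, hu2, hu3⟩ := Gq_one S (e m) (A (g m) (e m)) (by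
      intro c₁ c₂ h
      rw [hS] at h
      exact he m (g m) (hg m) c₁ c₂ h)
    obtain ⟨v, hv1, hv2, hv3⟩ := Gq_one S (A (g m) (e m)) (e m) (by
      intro c₁ c₂ h
      rw [hS, add_comm] at h
      exact (he m (g m) (hg m) c₂ c₁ h).symm)
    refine ⟨f + (a m - f (e m)) • u + (- f (A (g m) (e m))) • v, ?_, ?_⟩
    · intro i hi h
      have him : i < m := by
        rw [Fin.lt_def]
        omega
      rw [LinearMap.add_apply, LinearMap.add_apply, LinearMap.smul_apply, LinearMap.smul_apply,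
        hf1 i hi h, hu3 _ (hmem i him h), hv3 _ (hmem i him h), smul_zero, smul_zero, add_zero,
        add_zero]
    · intro j hj1 hj2
      by_cases hjm : j = m
      · subst hjm
        constructor
        · rw [LinearMap.add_apply, LinearMap.add_apply, LinearMap.smul_apply, LinearMap.smul_apply,
            hu1, hv2, smul_eq_mul, smul_eq_mul]
          ring
        · rw [LinearMap.add_apply, LinearMap.add_apply, LinearMap.smul_apply, LinearMap.smul_apply,
            hu2, hv1, smul_eq_mul, smul_eq_mul]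
          ring
      · have hlt : (j : ℕ) < n := by
          rcases Nat.lt_or_ge (j : ℕ) n with h1 | h1
          · exact h1
          · exact absurd (Fin.ext (by omega)) hjm
        have hjm' : j < m := by
          rw [Fin.lt_def]
          omega
        obtain ⟨h1, h2⟩ := hf2 j hj1 hlt
        constructor
        · rw [LinearMap.add_apply, LinearMap.add_apply, LinearMap.smul_apply, LinearMap.smul_apply,
            h1, hu3 _ (hmem1 j hjm'), hv3 _ (hmem1 j hjm'), smul_zero, smul_zero, add_zero,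
            add_zero]
        · rw [LinearMap.add_apply, LinearMap.add_apply, LinearMap.smul_apply, LinearMap.smul_apply,
            h2, hu3 _ (hmem j hjm' _), hv3 _ (hmem j hjm' _), smul_zero, smul_zero, add_zero,
            add_zero]

open Classical in
theorem exists_conf {𝔽 F V : Type} [Group 𝔽] [Finite 𝔽] [Field F] [Finite F] [AddCommGroup V]
    [Module F V] [FiniteDimensional F V] {A : 𝔽 → (V →ₗ[F] V)} (hA : PRep A) {R : ℕ}
    (hR : Nat.card 𝔽 * (3 * Nat.card 𝔽) + Nat.card 𝔽 + 1 ≤ R)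
    (h : ∀ g, g ≠ 1 → ∀ c : F, R ≤ finrank F (LinearMap.range (A g - c • (1 : V →ₗ[F] V)))) :
    ∃ (e : {g : 𝔽 // g ≠ 1} → Fin 3 → V) (d : {g : 𝔽 // g ≠ 1} → Fin 3 → Dual F V),
      (∀ g g' i j, d g i (e g' j) = if g = g' ∧ i = j then 1 else 0) ∧
      (∀ (g g' : {g : 𝔽 // g ≠ 1}) i, d g i (A (g' : 𝔽) (e g' 0)) = 0) ∧
      (∀ (g g' : {g : 𝔽 // g ≠ 1}) j, d g 1 (A ((g : 𝔽)⁻¹) (e g' j)) = 0) ∧
      (∀ (g g' : {g : 𝔽 // g ≠ 1}), g ≠ g' →
        d g 1 (A ((g : 𝔽)⁻¹) (A (g' : 𝔽) (e g' 0))) = 0) := by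
  obtain ⟨m, hm⟩ : ∃ m, m = Nat.card {g : 𝔽 // g ≠ 1} := ⟨_, rfl⟩
  have hmle : m ≤ Nat.card 𝔽 := by
    rw [hm]
    exact Nat.card_le_card_of_injective (fun x : {g : 𝔽 // g ≠ 1} => (x : 𝔽))
      Subtype.val_injective
  obtain ⟨σ⟩ : Nonempty ({g : 𝔽 // g ≠ 1} ≃ Fin m) := by
    rw [hm]
    exact ⟨Finite.equivFin _⟩
  obtain ⟨e₀, he₀⟩ := exists_gp (k := 3 * m) hA (by
    have h1 : Nat.card 𝔽 * (3 * m) ≤ Nat.card 𝔽 * (3 * Nat.card 𝔽) :=
      Nat.mul_le_mul_left _ (Nat.mul_le_mul_left _ hmle)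
    omega) h
  -- positions
  obtain ⟨p, hp⟩ : ∃ p : {g : 𝔽 // g ≠ 1} → Fin 3 → Fin (3 * m),
      ∀ g i, p g i = finProdFinEquiv (i, σ g) := ⟨_, fun _ _ => rfl⟩
  have hpinj : ∀ g i g' i', p g i = p g' i' ↔ g = g' ∧ i = i' := by
    intro g i g' i'
    rw [hp, hp, Equiv.apply_eq_iff_eq, Prod.mk.injEq, Equiv.apply_eq_iff_eq, and_comm]
  have hval : ∀ g i, ((p g i : Fin (3 * m)) : ℕ) = σ g + m * i := by
    intro g i
    rw [hp]
    rfl
  have hone : ∀ x : V, ∀ f : Dual F V, f (A 1 x) = 0 → f x = 0 := by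
    intro x f hf
    obtain ⟨c, hc, h1⟩ := hA.one
    rw [h1, LinearMap.smul_apply, Module.End.one_apply, map_smul, smul_eq_mul] at hf
    exact (mul_eq_zero.mp hf).resolve_left hc
  -- the functionals
  have key1 : ∀ g : {g : 𝔽 // g ≠ 1}, ∃ f : Dual F V,
      (∀ g' j, f (e₀ (p g' j)) = if g = g' ∧ 1 = j then 1 else 0) ∧
      (∀ g', f (A (g' : {g : 𝔽 // g ≠ 1}) (e₀ (p g' 0))) = 0) ∧
      (∀ g' j, f (A ((g : 𝔽)⁻¹) (e₀ (p g' j))) = 0) ∧
      (∀ g', f (A ((g : 𝔽)⁻¹) (A (g' : {g : 𝔽 // g ≠ 1}) (e₀ (p g' 0)))) = 0) := by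
    intro g
    obtain ⟨f, hf1, hf2⟩ := Gq_fun hA he₀ m (fun _ => (g : 𝔽)⁻¹) (fun _ => inv_ne_one.mpr g.2)
      (fun j => if p g 1 = j then 1 else 0) (3 * m) le_rfl
    have h0 : ∀ g', ((p g' 0 : Fin (3 * m)) : ℕ) < m := by
      intro g'
      rw [hval, Fin.val_zero, Nat.mul_zero, Nat.add_zero]
      exact (σ g').2
    have h1 : ∀ g' j, j ≠ 0 → m ≤ ((p g' j : Fin (3 * m)) : ℕ) := by
      intro g' j hj
      rw [hval]
      have h2 : 1 ≤ (j : ℕ) := by
        rcases Nat.eq_zero_or_pos (j : ℕ) with h3 | h3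
        · exact absurd (Fin.ext h3) hj
        · exact h3
      have h3 := Nat.mul_le_mul_left m h2
      omega
    refine ⟨f, ?_, ?_, ?_, ?_⟩
    · intro g' j
      by_cases hj : j = 0
      · subst hj
        rw [if_neg (fun h2 => by
          have h3 := h2.2
          exact absurd h3 (by decide))]
        exact hone _ f (hf1 _ (h0 g') 1)
      · rw [(hf2 _ (h1 g' j hj) (Fin.is_lt _)).1]
        exact if_congr (hpinj _ _ _ _) rfl rfl
    · intro g'
      exact hf1 _ (h0 g') _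
    · intro g' j
      by_cases hj : j = 0
      · subst hj
        exact hf1 _ (h0 g') _
      · exact (hf2 _ (h1 g' j hj) (Fin.is_lt _)).2
    · intro g'
      obtain ⟨c, hc, h2⟩ := hA.mul ((g : 𝔽)⁻¹) (g' : 𝔽)
      have h3 : A ((g : 𝔽)⁻¹) (A (g' : 𝔽) (e₀ (p g' 0))) =
          c • A ((g : 𝔽)⁻¹ * (g' : 𝔽)) (e₀ (p g' 0)) := by
        rw [← Module.End.mul_apply, h2, LinearMap.smul_apply]
      rw [h3, map_smul, hf1 _ (h0 g') _, smul_zero]
  have key2 : ∀ (g : {g : 𝔽 // g ≠ 1}) (i : Fin 3), ∃ f : Dual F V,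
      (∀ g' j, f (e₀ (p g' j)) = if g = g' ∧ i = j then 1 else 0) ∧
      (∀ g', f (A (g' : {g : 𝔽 // g ≠ 1}) (e₀ (p g' 0))) = 0) := by
    intro g i
    obtain ⟨γ, hγ⟩ : ∃ γ : Fin (3 * m) → {g : 𝔽 // g ≠ 1}, ∀ g' j, γ (p g' j) = g' := by
      refine ⟨fun x => σ.symm (finProdFinEquiv.symm x).2, ?_⟩
      intro g' j
      simp only [hp, Equiv.symm_apply_apply]
    obtain ⟨f, hf1, hf2⟩ := Gq_fun hA he₀ 0 (fun x => (γ x : 𝔽)) (fun x => (γ x).2)
      (fun j => if p g i = j then 1 else 0) (3 * m) le_rfl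
    refine ⟨f, ?_, ?_⟩
    · intro g' j
      rw [(hf2 _ (Nat.zero_le _) (Fin.is_lt _)).1]
      exact if_congr (hpinj _ _ _ _) rfl rfl
    · intro g'
      have h1 := (hf2 (p g' 0) (Nat.zero_le _) (Fin.is_lt _)).2
      rw [hγ] at h1
      exact h1
  choose φ hφ using key1
  choose ψ hψ using key2
  obtain ⟨d, hd1, hd2⟩ : ∃ d : {g : 𝔽 // g ≠ 1} → Fin 3 → Dual F V,
      (∀ g, d g 1 = φ g) ∧ ∀ g i, i ≠ 1 → d g i = ψ g i :=
    ⟨fun g i => if i = 1 then φ g else ψ g i, fun g => if_pos rfl, fun g i hi => if_neg hi⟩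
  refine ⟨fun g i => e₀ (p g i), d, ?_, ?_, ?_, ?_⟩
  · intro g g' i j
    by_cases hi : i = 1
    · subst hi
      rw [hd1]
      exact (hφ g).1 g' j
    · rw [hd2 g i hi]
      exact (hψ g i).1 g' j
  · intro g g' i
    by_cases hi : i = 1
    · subst hi
      rw [hd1]
      exact (hφ g).2.1 g'
    · rw [hd2 g i hi]
      exact (hψ g i).2 g'
  · intro g g' j
    rw [hd1]
    exact (hφ g).2.2.1 g' j
  · intro g g' _
    rw [hd1]
    exact (hφ g).2.2.2 g'

end Pool.Agent.Lib.MP_b9166b_al.Pt
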