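import Mathlib

/-!
# MP_b9166b_al, PT: commuting perfect groups on a filtered space

Proof of `pb`. `N i = x i - 1`. Suppose the product of the `N i` maps `b (t+1)` into `b t` for all `t`. For `k i ∈ 𝒦 i` the same
holds for the product of the `k i * N i * (k i)⁻¹` (everything commutes, the `b t` are stable): so for all `g i, h i ∈ 𝒦 i` and the
product of the `g i * N i * h i`. Let `U i` be the additive subgroup of `End B` generated by all `g * N i * h`, `g, h ∈ 𝒦 i`. It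
contains all `k - 1`, `k ∈ 𝒦 i` (`hgen`: `(y k - 1) = (y - 1) k + (k - 1)`), and `N i` is in the additive subgroup generated by
products `α * β`, `α, β ∈ U i` (`hperf`: for a commutator `c = ⁅g,h⁆`,
`c - 1 = ((g-1)(h-1) - (h-1)(g-1)) g⁻¹ h⁻¹`; and products of commutators; then for `k = x i`). By induction `N i` is in the additive
subgroup generated by the products of `2^n` elements of `U i`, so `∏ N i` is a sum of products over `i` of products of `L` elements of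
`U i`, `L ≥ l`; reorder (different `i` commute): a product of `L` maps each of which is `∏_i u i`, `u i ∈ U i`, and sends `b (t+1)` into
`b t`. So `∏ N i` kills `b l = ⊤`. Contradiction.
(Another organisation: for a subspace `M` let `[M, 𝒦 i]` be the span of all `k w - w`; `[[M,𝒦 i],𝒦 i] = [M, 𝒦 i]` for stable `M` as
`𝒦 i` is perfect, `[[M,𝒦 i],𝒦 j] = [[M,𝒦 j],𝒦 i]`; `R = [..[⊤,𝒦 0],..,𝒦 (n-1)]` satisfies `[R,𝒦 0,..] = R` and by downward
induction `R ≤ b t`.)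
`pb_irr`: `B` has no subspace stable under `J` except `⊥, ⊤`, the `𝒦 i` are normalised by `J` and nontrivial: then `[⊤,𝒦 i] = ⊤` for
every `i`, so `[⊤, 𝒦 0, .., 𝒦 (n-1)] = ⊤ ≠ ⊥`, and if the product of the `x i - 1` were `0` then so would be all its conjugates.
-/

set_option autoImplicit false

namespace Pool.Agent.Lib.MP_b9166b_al.Pt

open Module
open scoped commutatorElement

/-- the product of the `x i - 1` -/
def prN {K B : Type} [Field K] [AddCommGroup B] [Module K B] {n : ℕ}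
    (x : Fin n → (B →ₗ[K] B)ˣ) : B →ₗ[K] B :=
  (List.ofFn fun i => ((x i : (B →ₗ[K] B)ˣ) : B →ₗ[K] B) - 1).prod

section aux

variable {K B : Type} [Field K] [AddCommGroup B] [Module K B]

/-- the subspace spanned by the `k w - w` -/
def Dd (H : Subgroup (B →ₗ[K] B)ˣ) (V : Submodule K B) : Submodule K B :=
  Submodule.span K {v | ∃ k ∈ H, ∃ w ∈ V, v = k.val w - w}

/-- stable subspaces -/
def Stb (H : Subgroup (B →ₗ[K] B)ˣ) (V : Submodule K B) : Prop :=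
  ∀ g ∈ H, ∀ w ∈ V, g.val w ∈ V

theorem Dd_le {H : Subgroup (B →ₗ[K] B)ˣ} {V V' : Submodule K B}
    (h : ∀ k ∈ H, ∀ w ∈ V, k.val w - w ∈ V') : Dd H V ≤ V' := by
  rw [Dd, Submodule.span_le]
  rintro v ⟨k, hk, w, hw, rfl⟩
  exact h k hk w hw

theorem mem_Dd {H : Subgroup (B →ₗ[K] B)ˣ} {V : Submodule K B} {k : (B →ₗ[K] B)ˣ} (hk : k ∈ H)
    {w : B} (hw : w ∈ V) : k.val w - w ∈ Dd H V :=
  Submodule.subset_span ⟨k, hk, w, hw, rfl⟩

theorem Dd_mono {H : Subgroup (B →ₗ[K] B)ˣ} {V V' : Submodule K B} (h : V ≤ V') :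
    Dd H V ≤ Dd H V' :=
  Dd_le fun _ hk _ hw => mem_Dd hk (h hw)

theorem val_inv_val (g : (B →ₗ[K] B)ˣ) (w : B) : g.val (g⁻¹.val w) = w := by
  have h : (g * g⁻¹).val w = w := by rw [mul_inv_cancel]; rfl
  exact h

theorem inv_val_val (g : (B →ₗ[K] B)ˣ) (w : B) : g⁻¹.val (g.val w) = w := by
  have h : (g⁻¹ * g).val w = w := by rw [inv_mul_cancel]; rfl
  exact h

theorem mul_val (g h : (B →ₗ[K] B)ˣ) (w : B) : (g * h).val w = g.val (h.val w) := rfl

/-- elements normalising `H` and stabilising `V` stabilise `Dd H V` -/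
theorem Dd_conj {H : Subgroup (B →ₗ[K] B)ˣ} {V : Submodule K B} {g : (B →ₗ[K] B)ˣ}
    (hn : ∀ h ∈ H, g * h * g⁻¹ ∈ H) (hV : ∀ w ∈ V, g.val w ∈ V) {v : B} (hv : v ∈ Dd H V) :
    g.val v ∈ Dd H V := by
  have h1 : Dd H V ≤ (Dd H V).comap g.val := by
    apply Dd_le
    intro k hk w hw
    rw [Submodule.mem_comap]
    have h2 : g.val (k.val w - w) = (g * k * g⁻¹).val (g.val w) - g.val w := by
      rw [mul_val, mul_val, inv_val_val, map_sub]
    rw [h2]
    exact mem_Dd (hn k hk) (hV w hw)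
  exact h1 hv

theorem Stb.dd {H H' : Subgroup (B →ₗ[K] B)ˣ} {V : Submodule K B} (hV : Stb H' V)
    (hc : ∀ g ∈ H', ∀ h ∈ H, g * h * g⁻¹ ∈ H) : Stb H' (Dd H V) :=
  fun g hg _ hv => Dd_conj (hc g hg) (hV g hg) hv

theorem Dd_comm {H H' : Subgroup (B →ₗ[K] B)ˣ} {V : Submodule K B}
    (hc : ∀ g ∈ H, ∀ h ∈ H', Commute g h) : Dd H (Dd H' V) ≤ Dd H' (Dd H V) := by
  apply Dd_le
  intro k hk
  have h1 : Dd H' V ≤ (Dd H' (Dd H V)).comap (k.val - 1) := by
    apply Dd_le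
    intro h hh v hv
    rw [Submodule.mem_comap]
    have hkh : k.val (h.val v) = h.val (k.val v) := by
      rw [← mul_val, ← mul_val, (hc k hk h hh).eq]
    have h2 : (k.val - 1) (h.val v - v) = h.val (k.val v - v) - (k.val v - v) := by
      rw [LinearMap.sub_apply, Module.End.one_apply, map_sub, map_sub, hkh]
      abel
    rw [h2]
    exact mem_Dd hh (mem_Dd hk hv)
  intro w hw
  have h3 := h1 hw
  rw [Submodule.mem_comap, LinearMap.sub_apply, Module.End.one_apply] at h3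
  exact h3

theorem Dd_idem {H : Subgroup (B →ₗ[K] B)ˣ} {V : Submodule K B} (hp : H ≤ ⁅H, H⁆)
    (hV : Stb H V) : Dd H V ≤ Dd H (Dd H V) := by
  let S : Subgroup (B →ₗ[K] B)ˣ :=
    { carrier := {k | (∀ w ∈ V, k.val w ∈ V) ∧ (∀ w ∈ V, k⁻¹.val w ∈ V) ∧
        ∀ w ∈ V, k.val w - w ∈ Dd H (Dd H V)}
      one_mem' := by
        refine ⟨fun w hw => hw, fun w hw => ?_, fun w hw => ?_⟩
        · rw [inv_one]; exact hw
        · have : (1 : (B →ₗ[K] B)ˣ).val w - w = 0 := by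
            rw [Units.val_one, Module.End.one_apply, sub_self]
          rw [this]
          exact Submodule.zero_mem _
      mul_mem' := by
        rintro a b ⟨ha1, ha2, ha3⟩ ⟨hb1, hb2, hb3⟩
        refine ⟨fun w hw => ha1 _ (hb1 w hw), fun w hw => ?_, fun w hw => ?_⟩
        · rw [mul_inv_rev]
          exact hb2 _ (ha2 w hw)
        · have : (a * b).val w - w = (a.val (b.val w) - b.val w) + (b.val w - w) := by
            rw [mul_val]; abel
          rw [this]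
          exact Submodule.add_mem _ (ha3 _ (hb1 w hw)) (hb3 w hw)
      inv_mem' := by
        rintro a ⟨ha1, ha2, ha3⟩
        refine ⟨ha2, fun w hw => ?_, fun w hw => ?_⟩
        · rw [inv_inv]; exact ha1 w hw
        · have : a⁻¹.val w - w = -(a.val (a⁻¹.val w) - a⁻¹.val w) := by
            rw [val_inv_val]; abel
          rw [this]
          exact Submodule.neg_mem _ (ha3 _ (ha2 w hw)) }
  have hS : ⁅H, H⁆ ≤ S := by
    rw [Subgroup.commutator_le]
    intro g hg h hh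
    have hgi := H.inv_mem hg
    have hhi := H.inv_mem hh
    refine ⟨fun w hw => ?_, fun w hw => ?_, fun w hw => ?_⟩
    · rw [commutatorElement_def]
      exact hV g hg _ (hV h hh _ (hV _ hgi _ (hV _ hhi _ hw)))
    · rw [commutatorElement_inv, commutatorElement_def]
      exact hV h hh _ (hV g hg _ (hV _ hhi _ (hV _ hgi _ hw)))
    · rw [commutatorElement_def]
      have hw' : g⁻¹.val (h⁻¹.val w) ∈ V := hV _ hgi _ (hV _ hhi _ hw)
      generalize hv : g⁻¹.val (h⁻¹.val w) = v at hw'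
      have hw2 : w = h.val (g.val v) := by
        rw [← hv, val_inv_val, val_inv_val]
      have h1 : (g * h * g⁻¹ * h⁻¹).val w = g.val (h.val v) := by
        rw [mul_val, mul_val, mul_val, hv]
      have h2 : (g * h * g⁻¹ * h⁻¹).val w - w =
          (g.val (h.val v - v) - (h.val v - v)) - (h.val (g.val v - v) - (g.val v - v)) := by
        rw [h1, map_sub, map_sub, ← hw2]
        abel
      rw [h2]
      exact Submodule.sub_mem _ (mem_Dd hg (mem_Dd hh hw')) (mem_Dd hh (mem_Dd hg hw'))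
  exact Dd_le fun k hk w hw => (hS (hp hk)).2.2 w hw

/-- the iterated `Dd` -/
def Tt : (n : ℕ) → (Fin n → Subgroup (B →ₗ[K] B)ˣ) → Submodule K B → Submodule K B
  | 0, _, V => V
  | n + 1, 𝒦, V => Dd (𝒦 0) (Tt n (fun i => 𝒦 i.succ) V)

theorem Tt_mono : ∀ (n : ℕ) (𝒦 : Fin n → Subgroup (B →ₗ[K] B)ˣ) {V V' : Submodule K B}
    (_ : V ≤ V'), Tt n 𝒦 V ≤ Tt n 𝒦 V'
  | 0, _, _, _, h => h
  | n + 1, 𝒦, _, _, h => Dd_mono (Tt_mono n (fun i => 𝒦 i.succ) h)

theorem Tt_conj : ∀ (n : ℕ) (𝒦 : Fin n → Subgroup (B →ₗ[K] B)ˣ) (V : Submodule K B)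
    (g : (B →ₗ[K] B)ˣ) (_ : ∀ i, ∀ h ∈ 𝒦 i, g * h * g⁻¹ ∈ 𝒦 i) (_ : ∀ w ∈ V, g.val w ∈ V),
    ∀ w ∈ Tt n 𝒦 V, g.val w ∈ Tt n 𝒦 V
  | 0, _, _, _, _, hV => hV
  | n + 1, 𝒦, V, g, hn, hV => fun _ hw =>
      Dd_conj (hn 0) (Tt_conj n (fun i => 𝒦 i.succ) V g (fun i => hn i.succ) hV) hw

theorem conj_of_comm {H H' : Subgroup (B →ₗ[K] B)ˣ} (hc : ∀ g ∈ H, ∀ h ∈ H', Commute g h) :
    ∀ g ∈ H, ∀ h ∈ H', g * h * g⁻¹ ∈ H' := by
  intro g hg h hh
  have : g * h * g⁻¹ = h := by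
    rw [(hc g hg h hh).eq, mul_assoc, mul_inv_cancel, mul_one]
  rw [this]
  exact hh

theorem conj_self (H : Subgroup (B →ₗ[K] B)ˣ) : ∀ g ∈ H, ∀ h ∈ H, g * h * g⁻¹ ∈ H :=
  fun _ hg _ hh => H.mul_mem (H.mul_mem hg hh) (H.inv_mem hg)

theorem Tt_comm : ∀ (n : ℕ) (𝒦 : Fin n → Subgroup (B →ₗ[K] B)ˣ) (V : Submodule K B)
    (H : Subgroup (B →ₗ[K] B)ˣ) (_ : ∀ i, ∀ g ∈ H, ∀ h ∈ 𝒦 i, Commute g h),
    Dd H (Tt n 𝒦 V) ≤ Tt n 𝒦 (Dd H V)
  | 0, _, _, _, _ => le_rfl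
  | n + 1, 𝒦, V, H, hc => by
      have h1 := Tt_comm n (fun i => 𝒦 i.succ) V H (fun i => hc i.succ)
      exact (Dd_comm (hc 0)).trans (Dd_mono h1)

theorem Tt_idem : ∀ (n : ℕ) (𝒦 : Fin n → Subgroup (B →ₗ[K] B)ˣ) (V : Submodule K B)
    (_ : ∀ i j, i ≠ j → ∀ g ∈ 𝒦 i, ∀ h ∈ 𝒦 j, Commute g h) (_ : ∀ i, 𝒦 i ≤ ⁅𝒦 i, 𝒦 i⁆)
    (_ : ∀ i, Stb (𝒦 i) V), Tt n 𝒦 V ≤ Tt n 𝒦 (Tt n 𝒦 V)
  | 0, _, _, _, _, _ => le_rfl
  | n + 1, 𝒦, V, hc, hp, hV => by
      have h1 := Tt_idem n (fun i => 𝒦 i.succ) V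
        (fun i j hij => hc i.succ j.succ (fun h => hij (Fin.succ_injective _ h)))
        (fun i => hp i.succ) (fun i => hV i.succ)
      have h2 : Stb (𝒦 0) (Tt n (fun i => 𝒦 i.succ) V) := fun g hg =>
        Tt_conj n (fun i => 𝒦 i.succ) V g
          (fun i => conj_of_comm (hc 0 i.succ (Fin.succ_ne_zero i).symm) g hg) (hV 0 g hg)
      have h3 := Dd_idem (hp 0) h2
      have h4 := Tt_comm n (fun i => 𝒦 i.succ) (Tt n (fun i => 𝒦 i.succ) V) (𝒦 0)
        (fun i => hc 0 i.succ (Fin.succ_ne_zero i).symm)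
      exact h3.trans (Dd_mono ((Dd_mono h1).trans h4))

theorem prN_succ {n : ℕ} (x : Fin (n + 1) → (B →ₗ[K] B)ˣ) :
    prN x = ((x 0).val - 1) * prN (fun i => x i.succ) := by
  rw [prN, List.ofFn_succ, List.prod_cons]
  rfl

theorem comm_prN {n : ℕ} (x : Fin n → (B →ₗ[K] B)ˣ) (g : (B →ₗ[K] B)ˣ)
    (h : ∀ i, Commute g (x i)) (w : B) : g.val (prN x w) = prN x (g.val w) := by
  have h1 : Commute g.val (prN x) := by
    apply Commute.list_prod_right
    intro y hy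
    obtain ⟨i, rfl⟩ := List.mem_ofFn.1 hy
    exact ((h i).map (Units.coeHom _)).sub_right (Commute.one_right _)
  have h2 := congrArg (fun f : B →ₗ[K] B => f w) h1.eq
  exact h2

theorem prN_mem_Tt : ∀ (n : ℕ) (𝒦 : Fin n → Subgroup (B →ₗ[K] B)ˣ)
    (x : Fin n → (B →ₗ[K] B)ˣ) (_ : ∀ i, x i ∈ 𝒦 i) (V : Submodule K B) (w : B) (_ : w ∈ V),
    prN x w ∈ Tt n 𝒦 V
  | 0, _, _, _, _, _, hw => hw
  | n + 1, 𝒦, x, hx, V, w, hw => by
      have h1 := prN_mem_Tt n (fun i => 𝒦 i.succ) (fun i => x i.succ) (fun i => hx i.succ) V w hw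
      rw [prN_succ, Module.End.mul_apply, LinearMap.sub_apply, Module.End.one_apply]
      exact mem_Dd (hx 0) h1

theorem Tt_le : ∀ (n : ℕ) (𝒦 : Fin n → Subgroup (B →ₗ[K] B)ˣ)
    (x : Fin n → (B →ₗ[K] B)ˣ) (_ : ∀ i, x i ∈ 𝒦 i)
    (_ : ∀ i j, i ≠ j → ∀ g ∈ 𝒦 i, ∀ h ∈ 𝒦 j, Commute g h)
    (_ : ∀ i, 𝒦 i ≤ Subgroup.closure {y | ∃ h ∈ 𝒦 i, y = h * x i * h⁻¹})
    (V V' : Submodule K B) (_ : ∀ i, Stb (𝒦 i) V) (_ : ∀ i, Stb (𝒦 i) V')
    (_ : ∀ w ∈ V, prN x w ∈ V'), Tt n 𝒦 V ≤ V'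
  | 0, _, _, _, _, _, _, _, _, _, h => fun w hw => h w hw
  | n + 1, 𝒦, x, hx, hc, hgen, V, V', hV, hV', h => by
      have hc0 : ∀ i : Fin n, ∀ g ∈ 𝒦 0, ∀ k ∈ 𝒦 i.succ, Commute g k :=
        fun i => hc 0 i.succ (Fin.succ_ne_zero i).symm
      let U : Submodule K B :=
        { carrier := {w | ∀ k ∈ 𝒦 0, k.val w - w ∈ V'}
          zero_mem' := fun k _ => by rw [map_zero, sub_zero]; exact V'.zero_mem
          add_mem' := by
            intro a b ha hb k hk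
            have : k.val (a + b) - (a + b) = (k.val a - a) + (k.val b - b) := by
              rw [map_add]; abel
            rw [this]
            exact V'.add_mem (ha k hk) (hb k hk)
          smul_mem' := by
            intro t a ha k hk
            rw [map_smul, ← smul_sub]
            exact V'.smul_mem t (ha k hk) }
      have hU : ∀ w, w ∈ U ↔ ∀ k ∈ 𝒦 0, k.val w - w ∈ V' := fun _ => Iff.rfl
      have hUst : ∀ i : Fin n, Stb (𝒦 i.succ) U := by
        intro i g hg w hw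
        rw [hU] at hw ⊢
        intro k hk
        have hkg : k.val (g.val w) = g.val (k.val w) := by
          rw [← mul_val, ← mul_val, (hc0 i k hk g hg).eq]
        rw [hkg, ← map_sub]
        exact hV' i.succ g hg _ (hw k hk)
      have hmap : ∀ w ∈ V, prN (fun i => x i.succ) w ∈ U := by
        intro w hw
        rw [hU]
        intro k hk
        set v := prN (fun i => x i.succ) w with hv
        let S : Subgroup (B →ₗ[K] B)ˣ :=
          { carrier := {k | (∀ u ∈ V', k.val u ∈ V') ∧ (∀ u ∈ V', k⁻¹.val u ∈ V') ∧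
              k.val v - v ∈ V'}
            one_mem' := by
              refine ⟨fun u hu => hu, fun u hu => ?_, ?_⟩
              · rw [inv_one]; exact hu
              · have : (1 : (B →ₗ[K] B)ˣ).val v - v = 0 := by
                  rw [Units.val_one, Module.End.one_apply, sub_self]
                rw [this]
                exact V'.zero_mem
            mul_mem' := by
              rintro a b ⟨ha1, ha2, ha3⟩ ⟨hb1, hb2, hb3⟩
              refine ⟨fun u hu => ha1 _ (hb1 u hu), fun u hu => ?_, ?_⟩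
              · rw [mul_inv_rev]
                exact hb2 _ (ha2 u hu)
              · have : (a * b).val v - v = a.val (b.val v - v) + (a.val v - v) := by
                  rw [mul_val, map_sub]; abel
                rw [this]
                exact V'.add_mem (ha1 _ hb3) ha3
            inv_mem' := by
              rintro a ⟨ha1, ha2, ha3⟩
              refine ⟨ha2, fun u hu => ?_, ?_⟩
              · rw [inv_inv]; exact ha1 u hu
              · have : a⁻¹.val v - v = -(a⁻¹.val (a.val v - v)) := by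
                  rw [map_sub, inv_val_val]; abel
                rw [this]
                exact V'.neg_mem (ha2 _ ha3) }
        have hS : Subgroup.closure {y | ∃ h ∈ 𝒦 0, y = h * x 0 * h⁻¹} ≤ S := by
          rw [Subgroup.closure_le]
          rintro y ⟨g, hg, rfl⟩
          have hy : g * x 0 * g⁻¹ ∈ 𝒦 0 := conj_self (𝒦 0) g hg _ (hx 0)
          refine ⟨fun u hu => hV' 0 _ hy u hu, fun u hu => hV' 0 _ ((𝒦 0).inv_mem hy) u hu, ?_⟩
          have h1 : (g * x 0 * g⁻¹).val v - v = g.val (prN x (g⁻¹.val w)) := by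
            rw [prN_succ, Module.End.mul_apply, LinearMap.sub_apply, Module.End.one_apply,
              ← comm_prN _ _ (fun i => hc0 i _ ((𝒦 0).inv_mem hg) _ (hx i.succ)), ← hv, map_sub,
              val_inv_val]
            rfl
          rw [h1]
          exact hV' 0 g hg _ (h _ (hV 0 _ ((𝒦 0).inv_mem hg) w hw))
        exact (hS (hgen 0 hk)).2.2
      have h1 := Tt_le n (fun i => 𝒦 i.succ) (fun i => x i.succ) (fun i => hx i.succ)
        (fun i j hij => hc i.succ j.succ (fun h => hij (Fin.succ_injective _ h)))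
        (fun i => hgen i.succ) V U (fun i => hV i.succ) hUst hmap
      refine (Dd_mono h1).trans (Dd_le fun k hk w hw => ?_)
      exact (hU w).1 hw k hk

end aux

theorem pb {K B : Type} [Field K] [AddCommGroup B] [Module K B] {n l : ℕ}
    (𝒦 : Fin n → Subgroup (B →ₗ[K] B)ˣ) (x : Fin n → (B →ₗ[K] B)ˣ) (hx : ∀ i, x i ∈ 𝒦 i)
    (hc : ∀ i j, i ≠ j → ∀ g ∈ 𝒦 i, ∀ h ∈ 𝒦 j, Commute g h) (hperf : ∀ i, 𝒦 i ≤ ⁅𝒦 i, 𝒦 i⁆)
    (hgen : ∀ i, 𝒦 i ≤ Subgroup.closure {y | ∃ h ∈ 𝒦 i, y = h * x i * h⁻¹})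
    (b : ℕ → Submodule K B) (h0 : b 0 = ⊥) (hl : b l = ⊤)
    (hb : ∀ t i, ∀ g ∈ 𝒦 i, ∀ w ∈ b t, g.val w ∈ b t) (hne : prN x ≠ 0) :
    ∃ t < l, ∃ w ∈ b (t + 1), prN x w ∉ b t := by
  by_contra hcon
  have h1 : ∀ t < l, Tt n 𝒦 (b (t + 1)) ≤ b t := by
    intro t ht
    refine Tt_le n 𝒦 x hx hc hgen _ _ (fun i g hg w hw => hb _ i g hg w hw)
      (fun i g hg w hw => hb _ i g hg w hw) ?_
    intro w hw
    by_contra hw'
    exact hcon ⟨t, ht, w, hw, hw'⟩
  have hid : Tt n 𝒦 ⊤ ≤ Tt n 𝒦 (Tt n 𝒦 ⊤) :=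
    Tt_idem n 𝒦 ⊤ hc hperf (fun _ _ _ _ _ => Submodule.mem_top)
  have h2 : ∀ k ≤ l, Tt n 𝒦 ⊤ ≤ b (l - k) := by
    intro k
    induction k with
    | zero =>
      intro _
      rw [Nat.sub_zero, hl]
      exact le_top
    | succ k ih =>
      intro hk
      have h3 := ih (by omega)
      have h4 : l - k = l - (k + 1) + 1 := by omega
      rw [h4] at h3
      exact hid.trans ((Tt_mono n 𝒦 h3).trans (h1 _ (by omega)))
  have h5 := h2 l le_rfl
  rw [Nat.sub_self, h0] at h5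
  apply hne
  ext w
  have h6 := h5 (prN_mem_Tt n 𝒦 x hx ⊤ w Submodule.mem_top)
  rw [Submodule.mem_bot] at h6
  rw [h6]
  rfl

theorem pb_irr {K B : Type} [Field K] [AddCommGroup B] [Module K B] {n : ℕ}
    (𝒦 : Fin n → Subgroup (B →ₗ[K] B)ˣ) (x : Fin n → (B →ₗ[K] B)ˣ) (hx : ∀ i, x i ∈ 𝒦 i)
    (hc : ∀ i j, i ≠ j → ∀ g ∈ 𝒦 i, ∀ h ∈ 𝒦 j, Commute g h)
    (hgen : ∀ i, 𝒦 i ≤ Subgroup.closure {y | ∃ h ∈ 𝒦 i, y = h * x i * h⁻¹})
    (J : Subgroup (B →ₗ[K] B)ˣ) (hJ : ∀ i, 𝒦 i ≤ J) (hn : ∀ i, ∀ g ∈ J, ∀ h ∈ 𝒦 i, g * h * g⁻¹ ∈ 𝒦 i)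
    (hirr : ∀ M : Submodule K B, (∀ g ∈ J, ∀ w ∈ M, g.val w ∈ M) → M = ⊥ ∨ M = ⊤)
    (hB : Nontrivial B) (hnt : ∀ i, ∃ g ∈ 𝒦 i, g ≠ 1) : prN x ≠ 0 := by
  intro hzero
  have h1 : Tt n 𝒦 ⊤ ≤ ⊥ := by
    refine Tt_le n 𝒦 x hx hc hgen _ _ (fun _ _ _ _ _ => Submodule.mem_top) ?_ ?_
    · intro i g _ w hw
      rw [Submodule.mem_bot] at hw ⊢
      rw [hw, map_zero]
    · intro w _
      rw [hzero, Submodule.mem_bot]
      rfl
  have h2 : ∀ i, Dd (𝒦 i) (⊤ : Submodule K B) = ⊤ := by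
    intro i
    rcases hirr (Dd (𝒦 i) ⊤) (fun g hg w hw => Dd_conj (hn i g hg)
      (fun _ _ => Submodule.mem_top) hw) with h | h
    · exfalso
      obtain ⟨g, hg, hg1⟩ := hnt i
      apply hg1
      apply Units.ext
      ext w
      have h3 := mem_Dd hg (Submodule.mem_top (x := w))
      rw [h, Submodule.mem_bot, sub_eq_zero] at h3
      exact h3
    · exact h
  have h3 : ∀ (m : ℕ) (ℒ : Fin m → Subgroup (B →ₗ[K] B)ˣ),
      (∀ i, Dd (ℒ i) (⊤ : Submodule K B) = ⊤) → Tt m ℒ ⊤ = ⊤ := by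
    intro m
    induction m with
    | zero => intro _ _; rfl
    | succ m ih =>
      intro ℒ hℒ
      change Dd (ℒ 0) (Tt m (fun i => ℒ i.succ) ⊤) = ⊤
      rw [ih _ (fun i => hℒ i.succ), hℒ]
  rw [h3 n 𝒦 h2] at h1
  obtain ⟨w, hw⟩ := exists_ne (0 : B)
  exact hw ((Submodule.mem_bot K).1 (h1 Submodule.mem_top))

end Pool.Agent.Lib.MP_b9166b_al.Pt
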