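import Pool.Agent.Lib.MP_b9166b_al.Pt.Blk
import Pool.Agent.Lib.MP_b9166b_al.Pt.Sec

/-!
# MP_b9166b_al, PT: a block of size `s` needs dimension `s` (helpers)
-/

set_option autoImplicit false

namespace Pool.Agent.Lib.MP_b9166b_al.Pt

open Module
open scoped commutatorElement

/-- the elements shifting a decreasing chain by `a` -/
def PtfSh {Γ K W : Type} [Group Γ] [Field K] [AddCommGroup W] [Module K W]
    (ρ : Γ →* (W →ₗ[K] W)) (D : ℕ → Submodule K W) (a : ℕ) (g : Γ) : Prop :=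
  ∀ k, ∀ w ∈ D k, ρ g w - w ∈ D (k + a)

section

variable {Γ K W : Type} [Group Γ] [Field K] [AddCommGroup W] [Module K W]
  {ρ : Γ →* (W →ₗ[K] W)} {D : ℕ → Submodule K W}

theorem ptf_anti (hD : ∀ k, D (k + 1) ≤ D k) (k a : ℕ) : D (k + a) ≤ D k := by
  induction a with
  | zero => exact le_rfl
  | succ a ih => exact (hD (k + a)).trans ih

theorem PtfSh.stab (hD : ∀ k, D (k + 1) ≤ D k) {a : ℕ} {g : Γ} (h : PtfSh ρ D a g) {k : ℕ} {w : W}
    (hw : w ∈ D k) : ρ g w ∈ D k := by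
  have h1 := ptf_anti hD k a (h k w hw)
  have h2 := (D k).add_mem h1 hw
  rwa [sub_add_cancel] at h2

theorem PtfSh.one (a : ℕ) : PtfSh ρ D a (1 : Γ) := by
  intro k w _
  rw [map_one, Module.End.one_apply, sub_self]
  exact Submodule.zero_mem _

theorem PtfSh.mul (hD : ∀ k, D (k + 1) ≤ D k) {a : ℕ} {g h : Γ} (hg : PtfSh ρ D a g)
    (hh : PtfSh ρ D a h) : PtfSh ρ D a (g * h) := by
  intro k w hw
  have h1 : ρ (g * h) w - w = (ρ g (ρ h w) - ρ h w) + (ρ h w - w) := by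
    rw [map_mul, Module.End.mul_apply]
    abel
  rw [h1]
  exact (D (k + a)).add_mem (hg k _ (hh.stab hD hw)) (hh k w hw)

theorem PtfSh.pow (hD : ∀ k, D (k + 1) ≤ D k) {a : ℕ} {g : Γ} (hg : PtfSh ρ D a g) (n : ℕ) :
    PtfSh ρ D a (g ^ n) := by
  induction n with
  | zero =>
    rw [pow_zero]
    exact PtfSh.one a
  | succ n ih =>
    rw [pow_succ]
    exact ih.mul hD hg

theorem ptf_inv_pow [Finite Γ] (g : Γ) : ∃ n : ℕ, g⁻¹ = g ^ n := by
  refine ⟨orderOf g - 1, ?_⟩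
  have h1 : g ^ (orderOf g - 1) * g = 1 := by
    rw [← pow_succ, Nat.sub_add_cancel (orderOf_pos g), pow_orderOf_eq_one]
  exact (eq_inv_of_mul_eq_one_left h1).symm

theorem PtfSh.inv [Finite Γ] (hD : ∀ k, D (k + 1) ≤ D k) {a : ℕ} {g : Γ} (hg : PtfSh ρ D a g) :
    PtfSh ρ D a g⁻¹ := by
  obtain ⟨n, hn⟩ := ptf_inv_pow g
  rw [hn]
  exact hg.pow hD n

theorem PtfSh.comm [Finite Γ] (hD : ∀ k, D (k + 1) ≤ D k) {a b : ℕ} {g h : Γ}
    (hg : PtfSh ρ D a g) (hh : PtfSh ρ D b h) : PtfSh ρ D (a + b) ⁅g, h⁆ := by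
  intro k w hw
  obtain ⟨u, hu⟩ : ∃ u, u = ρ g⁻¹ (ρ h⁻¹ w) := ⟨_, rfl⟩
  have hu1 : u ∈ D k := by
    rw [hu]
    exact (hg.inv hD).stab hD ((hh.inv hD).stab hD hw)
  have hm : ∀ (x y : Γ) (v : W), ρ x (ρ y v) = ρ (x * y) v := by
    intro x y v
    rw [map_mul, Module.End.mul_apply]
  have h1 : ρ ⁅g, h⁆ w = ρ g (ρ h u) := by
    rw [hu, hm, hm, hm, commutatorElement_def]
  have h2 : w = ρ h (ρ g u) := by
    rw [hu, hm, hm, hm]
    have h3 : h * g * g⁻¹ * h⁻¹ = 1 := by group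
    rw [h3, map_one, Module.End.one_apply]
  have h3 : ρ ⁅g, h⁆ w - w = (ρ g (ρ h u - u) - (ρ h u - u)) - (ρ h (ρ g u - u) - (ρ g u - u)) := by
    rw [h1]
    conv_lhs => rw [h2]
    rw [map_sub, map_sub]
    abel
  rw [h3]
  have h4 := hg _ _ (hh k u hu1)
  have h5 := hh _ _ (hg k u hu1)
  have h6 : k + b + a = k + (a + b) := by omega
  have h7 : k + a + b = k + (a + b) := by omega
  rw [h6] at h4
  rw [h7] at h5
  exact (D _).sub_mem h4 h5

/-- a `p`-group acts unipotently -/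
theorem ptf_flag [Finite W] {p : ℕ} (hp : p.Prime) [CharP K p] {R : Subgroup Γ}
    (hR : IsPGroup p R) {M₂ : Submodule K W} (h2 : Inv ρ R M₂) (n : ℕ) :
    ∀ M₁ : Submodule K W, M₂ ≤ M₁ → Inv ρ R M₁ → finrank K M₁ ≤ finrank K M₂ + n →
      ∃ D : ℕ → Submodule K W, D 0 = M₁ ∧ D n = M₂ ∧ (∀ k, M₂ ≤ D k) ∧ (∀ k, D (k + 1) ≤ D k) ∧
        ∀ g ∈ R, PtfSh ρ D 1 g := by
  have : FiniteDimensional K W := Module.Finite.of_finite
  have hconst : ∀ n : ℕ, ∃ D : ℕ → Submodule K W, D 0 = M₂ ∧ D n = M₂ ∧ (∀ k, M₂ ≤ D k) ∧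
      (∀ k, D (k + 1) ≤ D k) ∧ ∀ g ∈ R, PtfSh ρ D 1 g := by
    intro n
    exact ⟨fun _ => M₂, rfl, rfl, fun _ => le_rfl, fun _ => le_rfl,
      fun g hg k w hw => M₂.sub_mem (h2 g hg w hw) hw⟩
  induction n with
  | zero =>
    intro M₁ hle _ hf
    have h3 : M₂ = M₁ := Submodule.eq_of_le_of_finrank_le hle hf
    rw [← h3]
    exact hconst 0
  | succ n ih =>
    intro M₁ hle h1 hf
    by_cases heq : M₂ = M₁
    · rw [← heq]
      exact hconst (n + 1)
    · let S : Set (Submodule K W) := {N | M₂ ≤ N ∧ N < M₁ ∧ Inv ρ R N}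
      have hS : S.Nonempty := ⟨M₂, le_rfl, lt_of_le_of_ne hle heq, h2⟩
      obtain ⟨N, ⟨hN1, hN2, hN3⟩, hmax⟩ := wellFounded_gt.has_min S hS
      have hirr : Irr ρ R M₁ N := by
        refine ⟨h1, hN3, hN2, ?_⟩
        intro P hP hNP hPM
        rcases hPM.lt_or_eq with h3 | h3
        · left
          by_contra hne
          exact hmax P ⟨hN1.trans hNP, h3, hP⟩ (lt_of_le_of_ne hNP (Ne.symm hne))
        · right; exact h3
      have hlt : finrank K N < finrank K M₁ := Submodule.finrank_lt_finrank_of_lt hN2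
      obtain ⟨D, hD0, hDn, hD2, hDa, hDs⟩ := ih N hN1 hN3 (by omega)
      refine ⟨fun k => match k with
        | 0 => M₁
        | k + 1 => D k, rfl, hDn, ?_, ?_, ?_⟩
      · intro k
        cases k with
        | zero => exact hle
        | succ k => exact hD2 k
      · intro k
        cases k with
        | zero =>
          show D 0 ≤ M₁
          rw [hD0]
          exact hN2.le
        | succ k => exact hDa k
      · intro g hg k w hw
        cases k with
        | zero =>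
          show ρ g w - w ∈ D 0
          rw [hD0]
          exact hirr.pgroup hp hR le_rfl (fun y hy r hr => R.mul_mem (R.mul_mem hy hr) (R.inv_mem hy))
            hg hw
        | succ k => exact hDs g hg k w hw

end

namespace Lay

variable {p : ℕ} {Γ F V K W : Type} [Group Γ] [Field F] [AddCommGroup V] [Module F V] [Field K]
  [AddCommGroup W] [Module K W]

/-- the upper triangular part of the block group -/
def ptfP (ℓ : Lay p Γ F V) {s : ℕ} (e : Fin s → V) (d : Fin s → Dual F V) : Subgroup Γ :=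
  Subgroup.closure {g | ∃ i j, i < j ∧ ∃ c : F, ℓ.Rt (e i) (c • d j) g}

theorem ptfP_le (ℓ : Lay p Γ F V) {s : ℕ} (e : Fin s → V) (d : Fin s → Dual F V) :
    ℓ.ptfP e d ≤ ℓ.blk e d := by
  refine Subgroup.closure_mono ?_
  rintro g ⟨i, j, hij, c, hg⟩
  exact ⟨i, j, hij.ne, c, hg⟩

theorem ptfP_le_L (ℓ : Lay p Γ F V) {s : ℕ} (e : Fin s → V) (d : Fin s → Dual F V) :
    ℓ.ptfP e d ≤ ℓ.L := by
  refine (Subgroup.closure_le _).2 ?_
  rintro g ⟨i, j, hij, c, hg⟩
  exact hg.1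

/-- the flag of `V` -/
def ptfG {s : ℕ} (e : Fin s → V) (k : ℕ) : Submodule F V :=
  if k = 0 then ⊤ else Submodule.span F {v | ∃ i : Fin s, (i : ℕ) + k < s + 1 ∧ v = e i}

theorem ptfG_anti {s : ℕ} (e : Fin s → V) (k : ℕ) :
    ptfG (F := F) e (k + 1) ≤ ptfG e k := by
  unfold ptfG
  rw [if_neg (Nat.succ_ne_zero k)]
  by_cases hk : k = 0
  · rw [if_pos hk]
    exact le_top
  · rw [if_neg hk]
    refine Submodule.span_mono ?_
    rintro v ⟨i, hi, rfl⟩
    exact ⟨i, by omega, rfl⟩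

theorem ptfG_bot {s : ℕ} (e : Fin s → V) : ptfG (F := F) e (s + 1) = ⊥ := by
  unfold ptfG
  rw [if_neg (Nat.succ_ne_zero s), Submodule.span_eq_bot]
  rintro v ⟨i, hi, -⟩
  omega

variable (ℓ : Lay p Γ F V) [Finite Γ] (hp : p.Prime) [CharP F p]

omit [Finite Γ] [CharP F p] in
theorem ptf_sh_rt {s : ℕ} {e : Fin s → V} {d : Fin s → Dual F V} (h : DB e d) {i j : Fin s}
    (hij : i < j) {c : F} {g : Γ} (hg : ℓ.Rt (e i) (c • d j) g) : PtfSh ℓ.a (ptfG e) 1 g := by
  intro k w hw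
  have h1 : ℓ.a g w - w = (c * d j w) • e i := by
    rw [hg.2.2, tv, LinearMap.add_apply, Module.End.one_apply, add_sub_cancel_left]
    simp [rk]
  rw [h1]
  by_cases hjk : (j : ℕ) + k < s + 1
  · refine Submodule.smul_mem _ _ ?_
    unfold ptfG
    rw [if_neg (Nat.succ_ne_zero k)]
    exact Submodule.subset_span ⟨i, by
      have h2 : (i : ℕ) < (j : ℕ) := hij
      omega, rfl⟩
  · have hk : k ≠ 0 := by
      intro h0
      have := j.2
      omega
    have h2 : d j w = 0 := by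
      have h3 : ptfG (F := F) e k ≤ LinearMap.ker (d j) := by
        unfold ptfG
        rw [if_neg hk]
        refine Submodule.span_le.2 ?_
        rintro v ⟨i', hi', rfl⟩
        show d j (e i') = 0
        refine h.ne ?_
        intro h4
        rw [h4] at hjk
        exact hjk hi'
      exact h3 hw
    rw [h2, mul_zero, zero_smul]
    exact Submodule.zero_mem _

omit [CharP F p] in
theorem ptf_sh_P {s : ℕ} {e : Fin s → V} {d : Fin s → Dual F V} (h : DB e d) {g : Γ}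
    (hg : g ∈ ℓ.ptfP e d) : PtfSh ℓ.a (ptfG e) 1 g := by
  refine Subgroup.closure_induction (p := fun g _ => PtfSh ℓ.a (ptfG e) 1 g) ?_ ?_ ?_ ?_ hg
  · rintro x ⟨i, j, hij, c, hx⟩
    exact ℓ.ptf_sh_rt h hij hx
  · exact PtfSh.one 1
  · intro x y _ _ hx hy
    exact hx.mul (ptfG_anti e) hy
  · intro x _ hx
    exact hx.inv (ptfG_anti e)

omit [Finite Γ] in
include hp in
theorem ptf_nil {s : ℕ} {e : Fin s → V} {g : Γ} (hg : PtfSh ℓ.a (ptfG e) 1 g) :
    ∃ j : ℕ, ℓ.a g ^ p ^ j = 1 := by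
  have : Fact p.Prime := ⟨hp⟩
  have h1 : ∀ k, ∀ w, ((ℓ.a g - 1) ^ k) w ∈ ptfG (F := F) e k := by
    intro k
    induction k with
    | zero =>
      intro w
      unfold ptfG
      rw [if_pos rfl]
      exact Submodule.mem_top
    | succ k ih =>
      intro w
      rw [pow_succ', Module.End.mul_apply, LinearMap.sub_apply, Module.End.one_apply]
      exact hg k _ (ih w)
  have h2 : (ℓ.a g - 1) ^ (s + 1) = 0 := by
    ext w
    have h3 := h1 (s + 1) w
    rw [ptfG_bot, Submodule.mem_bot] at h3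
    rw [h3, LinearMap.zero_apply]
  have h4 : (ℓ.a g - 1) ^ p ^ (s + 1) = 0 := by
    refine pow_eq_zero_of_le ?_ h2
    exact (Nat.lt_pow_self hp.one_lt).le
  refine ⟨s + 1, ?_⟩
  rcases subsingleton_or_nontrivial V with hV | hV
  · ext w
    exact Subsingleton.elim _ _
  have : CharP (V →ₗ[F] V) p :=
    charP_of_injective_algebraMap (FaithfulSMul.algebraMap_injective F (V →ₗ[F] V)) p
  have h5 : ℓ.a g = (ℓ.a g - 1) + 1 := by rw [sub_add_cancel]
  rw [h5, add_pow_char_pow_of_commute p (s + 1) (Commute.one_right _), h4, zero_add, one_pow]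

end Lay

end Pool.Agent.Lib.MP_b9166b_al.Pt
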