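import Pool.Agent.Lib.MP_b9166b_al.Pt.Blk
import Pool.Agent.Lib.MP_b9166b_al.Pt.Deg
import Pool.Agent.Lib.MP_b9166b_al.Pt.Pb
import Pool.Agent.Lib.MP_b9166b_al.Pt.PtfA

/-!
# MP_b9166b_al, PT: blocks on sections

`ptf`: `B = M₁ / M₂` (`exists_quot` for `Y = ⨆ blocks`), `T` trivial on `B`. `𝒦 i` = image of the block group in `(B →ₗ B)ˣ`, `x i` = image of
the root lift, `b t` = image of `c t ⊓ M₁`. `pb` gives `t` and `w`.
`ptf_irr`: `pb_irr`. `dim_blk`: the group `P` generated by the root lifts of the `(e i, c • d j)`, `i < j`, and `T`; its image under `a` is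
unitriangular, so its elements are `p`-elements times elements of `Z`; it is generated by `p`-elements, so by `pw_mul_of` all its
elements are `p`-elements: a `p`-group. A `p`-group acting on `B` of dimension `D` in characteristic `p`: the product of any `D`
elements `ρ g - 1` is `0`. The root lift of `(e 0, c • d (s-1))` is (modulo `T`) an iterated commutator of `s - 1` elements of `P`, so its
`ρ - 1` is a sum of products of `s - 1` factors `ρ g - 1` (times group elements); if `D ≤ s - 1` it is `0`, and by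
`blk_gen` the block acts trivially.
-/

set_option autoImplicit false

namespace Pool.Agent.Lib.MP_b9166b_al.Pt

open Module
open scoped commutatorElement

theorem ptf_inv_iSup {Γ K W : Type} [Group Γ] [Field K] [AddCommGroup W] [Module K W] {ι : Type}
    {ρ : Γ →* (W →ₗ[K] W)} {S : ι → Subgroup Γ} {M : Submodule K W} (h : ∀ i, Inv ρ (S i) M) :
    Inv ρ (⨆ i, S i) M := by
  intro g hg
  refine Subgroup.iSup_induction S (C := fun g => ∀ w ∈ M, ρ g w ∈ M) hg ?_ ?_ ?_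
  · intro i g hg w hw
    exact h i g hg w hw
  · intro w hw
    rw [map_one]
    exact hw
  · intro g g' hg hg' w hw
    rw [map_mul]
    exact hg _ (hg' w hw)

theorem ptf_pr {Γ K W B : Type} [Group Γ] [Field K] [AddCommGroup W] [Module K W]
    [AddCommGroup B] [Module K B] {ρ : Γ →* (W →ₗ[K] W)} {Y : Subgroup Γ} {M₁ : Submodule K W}
    (h1 : Inv ρ Y M₁) (π : M₁ →ₗ[K] B) (τ : Y →* (B →ₗ[K] B)ˣ)
    (hact : ∀ (g : Y) (w : M₁), (τ g).val (π w) = π ⟨ρ g w, h1 g g.2 w w.2⟩) (l : List Y)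
    (w : M₁) : ∃ h : pr ρ (l.map Subtype.val) w ∈ M₁,
      (l.map fun g => (τ g).val - 1).prod (π w) = π ⟨pr ρ (l.map Subtype.val) w, h⟩ := by
  induction l with
  | nil =>
    refine ⟨by rw [List.map_nil, pr_nil]; exact w.2, ?_⟩
    simp [pr]
  | cons g l ih =>
    obtain ⟨h, ih⟩ := ih
    have h2 : pr ρ ((g :: l).map Subtype.val) w ∈ M₁ := by
      rw [List.map_cons, pr_cons]
      exact M₁.sub_mem (h1 g g.2 _ h) h
    refine ⟨h2, ?_⟩
    have h3 : (⟨pr ρ ((g :: l).map Subtype.val) w, h2⟩ : M₁) =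
        ⟨ρ g (pr ρ (l.map Subtype.val) w), h1 g g.2 _ h⟩ -
          ⟨pr ρ (l.map Subtype.val) w, h⟩ := by
      apply Subtype.ext
      show pr ρ ((g :: l).map Subtype.val) w = _
      rw [List.map_cons, pr_cons]
      rfl
    rw [h3, map_sub, List.map_cons, List.prod_cons, Module.End.mul_apply, ih,
      LinearMap.sub_apply, Module.End.one_apply, hact]

namespace Lay

variable {p : ℕ} {Γ F V K W : Type} [Group Γ] [Field F] [AddCommGroup V] [Module F V] [Field K]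
  [AddCommGroup W] [Module K W]

variable (ℓ : Lay p Γ F V) [Finite Γ] (hp : p.Prime) [CharP F p] [FiniteDimensional F V]

include hp

/-- the images of the blocks in the group of a section -/
theorem ptf_data {B : Type} [AddCommGroup B] [Module K B] {n s : ℕ} (hs : 3 ≤ s)
    {e : Fin n → Fin s → V} {d : Fin n → Fin s → Dual F V} (hd : ∀ i, DB (e i) (d i))
    (hdd : ∀ i i', i ≠ i' → ∀ r r', d i r (e i' r') = 0) {x : Fin n → Γ} {r₀ r₁ : Fin s}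
    (hr : r₀ ≠ r₁) (hx : ∀ i, ℓ.Rt (e i r₀) (d i r₁) (x i)) (Y : Subgroup Γ)
    (hY : ∀ i, ℓ.blk (e i) (d i) ≤ Y) (τ : Y →* (B →ₗ[K] B)ˣ)
    (hτ : ∀ t : Y, (t : Γ) ∈ ℓ.T → τ t = 1) :
    ∃ (𝒦 : Fin n → Subgroup (B →ₗ[K] B)ˣ) (x' : Fin n → Y), (∀ i, (x' i : Γ) = x i) ∧
      (∀ i, τ (x' i) ∈ 𝒦 i) ∧
      (∀ i j, i ≠ j → ∀ g ∈ 𝒦 i, ∀ h ∈ 𝒦 j, Commute g h) ∧ (∀ i, 𝒦 i ≤ ⁅𝒦 i, 𝒦 i⁆) ∧
      (∀ i, 𝒦 i ≤ Subgroup.closure {y | ∃ h ∈ 𝒦 i, y = h * τ (x' i) * h⁻¹}) ∧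
      ∀ i y, y ∈ 𝒦 i ↔ ∃ g : Y, (g : Γ) ∈ ℓ.blk (e i) (d i) ∧ τ g = y := by
  have hxb : ∀ i, x i ∈ ℓ.blk (e i) (d i) := fun i => ℓ.mem_blk_of_one hr (hx i)
  refine ⟨fun i => ((ℓ.blk (e i) (d i)).subgroupOf Y).map τ, fun i => ⟨x i, hY i (hxb i)⟩,
    fun _ => rfl, fun i => ⟨⟨x i, hY i (hxb i)⟩, hxb i, rfl⟩, ?_, ?_, ?_, fun i y => Iff.rfl⟩
  · rintro i j hij _ ⟨g, hg, rfl⟩ _ ⟨h, hh, rfl⟩
    have h1 : ((⁅g, h⁆ : Y) : Γ) ∈ ℓ.T :=
      ℓ.blk_comm hp (hdd i j hij) (hdd j i (Ne.symm hij)) hg hh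
    have h2 := hτ _ h1
    rw [map_commutatorElement, commutatorElement_eq_one_iff_commute] at h2
    exact h2
  · intro i
    have h1 : ℓ.blk (e i) (d i) ≤
        ((⁅((ℓ.blk (e i) (d i)).subgroupOf Y).map τ,
          ((ℓ.blk (e i) (d i)).subgroupOf Y).map τ⁆).comap τ).map Y.subtype := by
      refine (ℓ.blk_perf hp hs (hd i)).trans (sup_le (Subgroup.commutator_le.2 ?_) ?_)
      · intro g hg h hh
        obtain ⟨g', hg'⟩ : ∃ g' : Y, g' = ⟨g, hY i hg⟩ := ⟨_, rfl⟩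
        obtain ⟨h', hh'⟩ : ∃ h' : Y, h' = ⟨h, hY i hh⟩ := ⟨_, rfl⟩
        have e1 : (g' : Γ) = g := by rw [hg']
        have e2 : (h' : Γ) = h := by rw [hh']
        refine ⟨⁅g', h'⁆, Subgroup.mem_comap.2 ?_, by rw [← e1, ← e2]; rfl⟩
        rw [map_commutatorElement]
        exact Subgroup.commutator_mem_commutator ⟨g', by rw [← e1] at hg; exact hg, rfl⟩
          ⟨h', by rw [← e2] at hh; exact hh, rfl⟩
      · intro t ht
        refine ⟨⟨t, hY i (ℓ.T_le_blk hp (by omega) (hd i) ht)⟩, Subgroup.mem_comap.2 ?_, rfl⟩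
        rw [hτ ⟨t, _⟩ ht]
        exact one_mem _
    rintro _ ⟨g, hg, rfl⟩
    obtain ⟨y, hy, hyg⟩ := h1 hg
    have h2 : y = g := Subtype.ext hyg
    rw [← h2]
    exact hy
  · intro i
    have h1 : ℓ.blk (e i) (d i) ≤
        ((Subgroup.closure {y | ∃ h ∈ ((ℓ.blk (e i) (d i)).subgroupOf Y).map τ,
          y = h * τ ⟨x i, hY i (hxb i)⟩ * h⁻¹}).comap τ).map Y.subtype := by
      refine (ℓ.blk_gen hp hs (hd i) hr (hx i)).trans (sup_le ((Subgroup.closure_le _).2 ?_) ?_)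
      · rintro _ ⟨g, hg, rfl⟩
        obtain ⟨g', hg'⟩ : ∃ g' : Y, g' = ⟨g, hY i hg⟩ := ⟨_, rfl⟩
        obtain ⟨x', hx'⟩ : ∃ x' : Y, x' = ⟨x i, hY i (hxb i)⟩ := ⟨_, rfl⟩
        have e1 : (g' : Γ) = g := by rw [hg']
        have e2 : (x' : Γ) = x i := by rw [hx']
        rw [← hx']
        refine ⟨g' * x' * g'⁻¹, Subgroup.mem_comap.2 ?_, by rw [← e1, ← e2]; rfl⟩
        rw [map_mul, map_mul, map_inv]
        exact Subgroup.subset_closure ⟨τ g', ⟨g', by rw [← e1] at hg; exact hg, rfl⟩, rfl⟩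
      · intro t ht
        refine ⟨⟨t, hY i (ℓ.T_le_blk hp (by omega) (hd i) ht)⟩, Subgroup.mem_comap.2 ?_, rfl⟩
        rw [hτ ⟨t, _⟩ ht]
        exact one_mem _
    rintro _ ⟨g, hg, rfl⟩
    obtain ⟨y, hy, hyg⟩ := h1 hg
    have h2 : y = g := Subtype.ext hyg
    rw [← h2]
    exact hy

omit [Finite Γ] hp [CharP F p] [FiniteDimensional F V] in
/-- the section as a representation by units -/
theorem ptf_quot [FiniteDimensional K W] (ρ : Γ →* (W →ₗ[K] W)) (Y : Subgroup Γ)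
    {M₁ M₂ : Submodule K W} (h1 : Inv ρ Y M₁) (h2 : Inv ρ Y M₂)
    (hT : ∀ t ∈ ℓ.T, ∀ w ∈ M₁, ρ t w - w ∈ M₂) :
    ∃ (B : Type) (_ : AddCommGroup B) (_ : Module K B) (_ : FiniteDimensional K B)
      (π : M₁ →ₗ[K] B) (τ : Y →* (B →ₗ[K] B)ˣ), Function.Surjective π ∧
      (∀ w, π w = 0 ↔ (w : W) ∈ M₂) ∧
      (∀ (g : Y) (w : M₁), (τ g).val (π w) = π ⟨ρ g w, h1 g g.2 w w.2⟩) ∧
      ∀ t : Y, (t : Γ) ∈ ℓ.T → τ t = 1 := by
  obtain ⟨B, i1, i2, i3, π, σ, hsur, hker, hact⟩ := exists_quot ρ Y h1 h2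
  refine ⟨B, i1, i2, i3, π, σ.toHomUnits, hsur, hker, fun g w => ?_, fun t ht => ?_⟩
  · rw [MonoidHom.coe_toHomUnits]
    exact hact g w
  · apply Units.ext
    rw [MonoidHom.coe_toHomUnits, Units.val_one]
    ext b
    obtain ⟨w, rfl⟩ := hsur b
    rw [hact, Module.End.one_apply, ← sub_eq_zero, ← map_sub, hker]
    exact hT t ht w w.2

/-- (PTF) -/
theorem ptf [FiniteDimensional K W] (ρ : Γ →* (W →ₗ[K] W)) {n s l : ℕ} (hs : 3 ≤ s)
    {e : Fin n → Fin s → V} {d : Fin n → Fin s → Dual F V} (hd : ∀ i, DB (e i) (d i))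
    (hdd : ∀ i i', i ≠ i' → ∀ r r', d i r (e i' r') = 0) {x : Fin n → Γ} {r₀ r₁ : Fin s}
    (hr : r₀ ≠ r₁) (hx : ∀ i, ℓ.Rt (e i r₀) (d i r₁) (x i)) {M₁ M₂ : Submodule K W}
    (h1 : ∀ i, Inv ρ (ℓ.blk (e i) (d i)) M₁) (h2 : ∀ i, Inv ρ (ℓ.blk (e i) (d i)) M₂)
    (hT : ∀ t ∈ ℓ.T, ∀ w ∈ M₁, ρ t w - w ∈ M₂) (h : ∃ w ∈ M₁, pr ρ (List.ofFn x) w ∉ M₂)
    (c : ℕ → Submodule K W) (hc0 : c 0 = ⊥) (hcl : c l = ⊤)
    (hc : ∀ t i, Inv ρ (ℓ.blk (e i) (d i)) (c t)) :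
    ∃ t < l, ∃ w ∈ c (t + 1), pr ρ (List.ofFn x) w ∉ c t := by
  have hY : ∀ i, ℓ.blk (e i) (d i) ≤ ⨆ i, ℓ.blk (e i) (d i) := fun i =>
    le_iSup (fun i => ℓ.blk (e i) (d i)) i
  have hi1 := ptf_inv_iSup h1
  obtain ⟨B, _, _, _, π, τ, hsur, hker, hact, hτ⟩ := ℓ.ptf_quot ρ _ hi1 (ptf_inv_iSup h2) hT
  obtain ⟨𝒦, x', hx', hxK, hcom, hperf, hgen, hmem⟩ :=
    ℓ.ptf_data hp hs hd hdd hr hx _ hY τ hτ
  have hlist : (List.ofFn x').map Subtype.val = List.ofFn x := by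
    rw [List.map_ofFn]
    congr 1
    funext i
    exact hx' i
  have hprN : prN (fun i => τ (x' i)) = ((List.ofFn x').map fun g => (τ g).val - 1).prod := by
    rw [List.map_ofFn]
    rfl
  have hpr : ∀ w : M₁, ∃ hw : pr ρ (List.ofFn x) w ∈ M₁,
      prN (fun i => τ (x' i)) (π w) = π ⟨pr ρ (List.ofFn x) w, hw⟩ := by
    intro w
    rw [hprN, ← hlist]
    exact ptf_pr hi1 π τ hact _ w
  have k0 : (fun t => ((c t).comap M₁.subtype).map π) 0 = ⊥ := by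
    beta_reduce
    rw [hc0, eq_bot_iff]
    rintro _ ⟨v, hv, rfl⟩
    have h3 : (v : W) = 0 := hv
    have h4 : v = 0 := Subtype.ext h3
    rw [h4, map_zero]
    exact Submodule.zero_mem _
  have kl : (fun t => ((c t).comap M₁.subtype).map π) l = ⊤ := by
    beta_reduce
    rw [hcl, eq_top_iff]
    intro b _
    obtain ⟨v, rfl⟩ := hsur b
    exact ⟨v, Submodule.mem_top, rfl⟩
  have kb : ∀ t i, ∀ y ∈ 𝒦 i, ∀ w ∈ (fun t => ((c t).comap M₁.subtype).map π) t,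
      y.val w ∈ (fun t => ((c t).comap M₁.subtype).map π) t := by
    rintro t i y hy _ ⟨v, hv, rfl⟩
    obtain ⟨g, hg, rfl⟩ := (hmem i y).1 hy
    rw [hact]
    exact ⟨_, hc t i g hg v hv, rfl⟩
  have kn : prN (fun i => τ (x' i)) ≠ 0 := by
    intro h0
    obtain ⟨w, hw, hw'⟩ := h
    obtain ⟨hw1, hw2⟩ := hpr ⟨w, hw⟩
    rw [h0, LinearMap.zero_apply] at hw2
    exact hw' ((hker _).1 hw2.symm)
  obtain ⟨t, ht, w, hw, hw'⟩ := pb 𝒦 (fun i => τ (x' i)) hxK hcom hperf hgen _ k0 kl kb kn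
  obtain ⟨v, hv, rfl⟩ := hw
  obtain ⟨hv1, hv2⟩ := hpr v
  refine ⟨t, ht, v, hv, fun hcon => hw' ?_⟩
  rw [hv2]
  exact ⟨_, hcon, rfl⟩

/-- all blocks act nontrivially on an irreducible section: so does the product -/
theorem ptf_irr [Finite W] [CharP K p] (ρ : Γ →* (W →ₗ[K] W)) {n s : ℕ} (hs : 3 ≤ s)
    {e : Fin n → Fin s → V} {d : Fin n → Fin s → Dual F V} (hd : ∀ i, DB (e i) (d i))
    (hdd : ∀ i i', i ≠ i' → ∀ r r', d i r (e i' r') = 0) {x : Fin n → Γ} {r₀ r₁ : Fin s}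
    (hr : r₀ ≠ r₁) (hx : ∀ i, ℓ.Rt (e i r₀) (d i r₁) (x i)) {J : Subgroup Γ}
    (hJ : ∀ i, ℓ.blk (e i) (d i) ≤ J)
    (hJn : ∀ i, ∀ g ∈ J, ∀ h ∈ ℓ.blk (e i) (d i), g * h * g⁻¹ ∈ ℓ.blk (e i) (d i))
    (hTJ : ℓ.T ≤ J) {M₁ M₂ : Submodule K W} (hM : Irr ρ J M₁ M₂)
    (hnt : ∀ i, ∃ g ∈ ℓ.blk (e i) (d i), ∃ w ∈ M₁, ρ g w - w ∉ M₂) :
    ∃ w ∈ M₁, pr ρ (List.ofFn x) w ∉ M₂ := by
  have hfd : FiniteDimensional K W := Module.Finite.of_finite
  obtain ⟨B, _, _, _, π, τ, hsur, hker, hact, hτ⟩ := ℓ.ptf_quot ρ J hM.inv1 hM.inv2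
    (fun t ht w hw => ℓ.T_irr hp ρ hTJ hM ht hw)
  obtain ⟨𝒦, x', hx', hxK, hcom, hperf, hgen, hmem⟩ :=
    ℓ.ptf_data hp hs hd hdd hr hx J hJ τ hτ
  have hlist : (List.ofFn x').map Subtype.val = List.ofFn x := by
    rw [List.map_ofFn]
    congr 1
    funext i
    exact hx' i
  have hprN : prN (fun i => τ (x' i)) = ((List.ofFn x').map fun g => (τ g).val - 1).prod := by
    rw [List.map_ofFn]
    rfl
  have hne : prN (fun i => τ (x' i)) ≠ 0 := by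
    refine pb_irr 𝒦 (fun i => τ (x' i)) hxK hcom hgen τ.range ?_ ?_ ?_ ?_ ?_
    · intro i y hy
      obtain ⟨g, -, rfl⟩ := (hmem i y).1 hy
      exact ⟨g, rfl⟩
    · rintro i _ ⟨g, rfl⟩ y hy
      obtain ⟨h, hh, rfl⟩ := (hmem i y).1 hy
      refine (hmem i _).2 ⟨g * h * g⁻¹, hJn i g g.2 h hh, ?_⟩
      rw [map_mul, map_mul, map_inv]
    · intro N hN
      obtain ⟨N', hN'⟩ : ∃ N' : Submodule K W, N' = (N.comap π).map M₁.subtype := ⟨_, rfl⟩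
      have hmemN : ∀ v : M₁, (v : W) ∈ N' ↔ π v ∈ N := by
        intro v
        rw [hN']
        constructor
        · rintro ⟨v', hv', hvv⟩
          have h3 : v' = v := Subtype.ext hvv
          rw [← h3]
          exact hv'
        · intro hv
          exact ⟨v, hv, rfl⟩
      have hle : N' ≤ M₁ := by
        rw [hN']
        rintro _ ⟨v, -, rfl⟩
        exact v.2
      have hge : M₂ ≤ N' := by
        intro w hw
        have h3 := (hmemN ⟨w, hM.lt.le hw⟩).2 (by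
          rw [(hker _).2 hw]
          exact N.zero_mem)
        exact h3
      have hinv : Inv ρ J N' := by
        intro g hg w hw
        have h3 := hle hw
        have h4 := (hmemN ⟨w, h3⟩).1 hw
        have h5 := hN _ ⟨⟨g, hg⟩, rfl⟩ _ h4
        rw [hact] at h5
        exact (hmemN _).2 h5
      rcases hM.irr N' hinv hge hle with h3 | h3
      · left
        rw [eq_bot_iff]
        intro b hb
        obtain ⟨v, rfl⟩ := hsur b
        have h4 := (hmemN v).2 hb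
        rw [h3] at h4
        rw [(hker v).2 h4]
        exact Submodule.zero_mem _
      · right
        rw [eq_top_iff]
        intro b _
        obtain ⟨v, rfl⟩ := hsur b
        rw [← hmemN, h3]
        exact v.2
    · obtain ⟨w, hw, hw'⟩ := SetLike.exists_of_lt hM.lt
      exact ⟨⟨π ⟨w, hw⟩, 0, fun h0 => hw' ((hker _).1 h0)⟩⟩
    · intro i
      obtain ⟨g, hg, w, hw, hw'⟩ := hnt i
      refine ⟨τ ⟨g, hJ i hg⟩, (hmem i _).2 ⟨_, hg, rfl⟩, fun h0 => hw' ?_⟩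
      have h3 := hact ⟨g, hJ i hg⟩ ⟨w, hw⟩
      rw [h0, Units.val_one, Module.End.one_apply, eq_comm, ← sub_eq_zero, ← map_sub, hker] at h3
      exact h3
  obtain ⟨b, hb⟩ : ∃ b, prN (fun i => τ (x' i)) b ≠ 0 := by
    by_contra hcon
    push Not at hcon
    exact hne (LinearMap.ext hcon)
  obtain ⟨w, rfl⟩ := hsur b
  obtain ⟨hw1, hw2⟩ := ptf_pr hM.inv1 π τ hact (List.ofFn x') w
  rw [← hprN] at hw2
  refine ⟨w, w.2, fun hcon => hb ?_⟩
  rw [hw2, hker]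
  show pr ρ ((List.ofFn x').map Subtype.val) w ∈ M₂
  rw [hlist]
  exact hcon

end Lay

namespace Lay

variable {p : ℕ} {Γ F V K W : Type} [Group Γ] [Field F] [AddCommGroup V] [Module F V] [Field K]
  [AddCommGroup W] [Module K W]

variable (ℓ : Lay p Γ F V) [Finite Γ] (hp : p.Prime) [CharP F p] [FiniteDimensional F V]

include hp

theorem ptf_pgroup {s : ℕ} {e : Fin s → V} {d : Fin s → Dual F V} (h : DB e d) :
    IsPGroup p (ℓ.ptfP e d) := by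
  have h1 : ∀ g ∈ ℓ.ptfP e d, ∃ j : ℕ, ℓ.a g ^ p ^ j = 1 := fun g hg =>
    ℓ.ptf_nil hp (ℓ.ptf_sh_P h hg)
  have h2 : ∀ g ∈ ℓ.ptfP e d, Pw p g := by
    intro g hg
    refine Subgroup.closure_induction (p := fun g _ => Pw p g) ?_ ?_ ?_ ?_ hg
    · rintro x ⟨i, j, hij, c, hx⟩
      exact hx.2.1
    · exact Pw.one
    · intro x y hx hy hx' hy'
      exact ℓ.pw_mul_of hp (ℓ.ptfP_le_L e d) h1 hx hy hx' hy'
    · intro x _ hx
      exact hx.inv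
  rintro ⟨g, hg⟩
  obtain ⟨j, hj⟩ := h2 g hg
  exact ⟨j, Subtype.ext hj⟩

/-- a root lift of `(e i, c • d j)` shifts the chain by `j - i` -/
theorem ptf_shift {ρ : Γ →* (W →ₗ[K] W)} {s : ℕ} {e : Fin s → V} {d : Fin s → Dual F V}
    (h : DB e d) {D : ℕ → Submodule K W} {M₂ : Submodule K W} (hD2 : ∀ k, M₂ ≤ D k)
    (hDa : ∀ k, D (k + 1) ≤ D k) (h2 : Inv ρ (ℓ.blk e d) M₂)
    (hT : ∀ t ∈ ℓ.T, ∀ w ∈ D 0, ρ t w - w ∈ M₂) (hP : ∀ g ∈ ℓ.ptfP e d, PtfSh ρ D 1 g) (m : ℕ) :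
    ∀ (i j : Fin s) (c : F) (y : Γ), (j : ℕ) = i + (m + 1) → ℓ.Rt (e i) (c • d j) y →
      PtfSh ρ D (m + 1) y := by
  induction m with
  | zero =>
    intro i j c y hij hy
    refine hP y (Subgroup.subset_closure ⟨i, j, ?_, c, hy⟩)
    show (i : ℕ) < (j : ℕ)
    omega
  | succ m ih =>
    intro i j c y hij hy
    have hj := j.2
    obtain ⟨k, hk⟩ : ∃ k : Fin s, (k : ℕ) = i + (m + 1) := ⟨⟨i + (m + 1), by omega⟩, rfl⟩
    have hik : i ≠ k := by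
      intro h0
      rw [← h0] at hk
      omega
    have hkj : k ≠ j := by
      intro h0
      rw [← h0] at hij
      omega
    have hij' : i ≠ j := by
      intro h0
      rw [← h0] at hij
      omega
    obtain ⟨x, hx⟩ := ℓ.blk_exists hp h hik c
    obtain ⟨z, hz⟩ := ℓ.blk_exists hp h hkj 1
    obtain ⟨t, ht, hyt⟩ := ℓ.blk_brk hp h hij' (Ne.symm hik) hkj (mul_one c) hx hz hy
    have hx1 : PtfSh ρ D (m + 1) x := ih i k c x hk hx
    have hz1 : PtfSh ρ D 1 z := by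
      refine hP z (Subgroup.subset_closure ⟨k, j, ?_, 1, hz⟩)
      show (k : ℕ) < (j : ℕ)
      omega
    have hc : PtfSh ρ D (m + 1 + 1) ⁅x, z⁆ := hx1.comm hDa hz1
    have hcb : ⁅x, z⁆ ∈ ℓ.blk e d := by
      rw [commutatorElement_def]
      exact mul_mem (mul_mem (mul_mem (ℓ.mem_blk_of hik hx) (ℓ.mem_blk_of hkj hz))
        (inv_mem (ℓ.mem_blk_of hik hx))) (inv_mem (ℓ.mem_blk_of hkj hz))
    intro q w hw
    have hw0 : w ∈ D 0 := by
      have h3 := ptf_anti hDa 0 q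
      rw [zero_add] at h3
      exact h3 hw
    have h4 : ρ y w - w = ρ ⁅x, z⁆ (ρ t w - w) + (ρ ⁅x, z⁆ w - w) := by
      rw [hyt, map_mul, Module.End.mul_apply, map_sub]
      abel
    rw [h4]
    exact (D _).add_mem (hD2 _ (h2 _ hcb _ (hT t ht w hw0))) (hc q w hw)

/-- (1.5) a block of size `s` needs dimension `s` -/
theorem dim_blk [Finite W] [CharP K p] (ρ : Γ →* (W →ₗ[K] W)) {s : ℕ} (hs : 3 ≤ s)
    {e : Fin s → V} {d : Fin s → Dual F V} (h : DB e d) {M₁ M₂ : Submodule K W} (hle : M₂ ≤ M₁)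
    (h1 : Inv ρ (ℓ.blk e d) M₁) (h2 : Inv ρ (ℓ.blk e d) M₂)
    (hT : ∀ t ∈ ℓ.T, ∀ w ∈ M₁, ρ t w - w ∈ M₂)
    (hnt : ∃ g ∈ ℓ.blk e d, ∃ w ∈ M₁, ρ g w - w ∉ M₂) :
    finrank K M₂ + s ≤ finrank K M₁ := by
  by_contra hcon
  obtain ⟨r, hr⟩ : ∃ r, s = r + 1 := ⟨s - 1, by omega⟩
  obtain ⟨D, hD0, hDn, hD2, hDa, hDs⟩ := ptf_flag hp (ℓ.ptf_pgroup hp h)
    (h2.mono (ℓ.ptfP_le e d)) r M₁ hle (h1.mono (ℓ.ptfP_le e d)) (by omega)
  obtain ⟨m, hm⟩ : ∃ m, r = m + 1 := ⟨r - 1, by omega⟩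
  obtain ⟨i, hi⟩ : ∃ i : Fin s, (i : ℕ) = 0 := ⟨⟨0, by omega⟩, rfl⟩
  obtain ⟨j, hj⟩ : ∃ j : Fin s, (j : ℕ) = r := ⟨⟨r, by omega⟩, rfl⟩
  have hij : i ≠ j := by
    intro h0
    rw [h0] at hi
    omega
  obtain ⟨y, hy⟩ := ℓ.blk_exists hp h hij 1
  have hsh := ℓ.ptf_shift hp h hD2 hDa h2 (by rw [hD0]; exact hT) hDs m i j 1 y (by omega) hy
  have hy1 : ∀ w ∈ M₁, ρ y w - w ∈ M₂ := by
    intro w hw
    have h3 := hsh 0 w (by rw [hD0]; exact hw)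
    rw [zero_add, ← hm, hDn] at h3
    exact h3
  have hyb := ℓ.mem_blk_of hij hy
  let C : Subgroup Γ :=
    { carrier := {g | g ∈ ℓ.blk e d ∧ ∀ w ∈ M₁, ρ g w - w ∈ M₂}
      one_mem' := ⟨one_mem _, fun w _ => by
        rw [map_one, Module.End.one_apply, sub_self]
        exact M₂.zero_mem⟩
      mul_mem' := by
        rintro a b ⟨ha, ha'⟩ ⟨hb, hb'⟩
        refine ⟨mul_mem ha hb, fun w hw => ?_⟩
        have h3 : ρ (a * b) w - w = (ρ a (ρ b w) - ρ b w) + (ρ b w - w) := by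
          rw [map_mul, Module.End.mul_apply]
          abel
        rw [h3]
        exact M₂.add_mem (ha' _ (h1 b hb w hw)) (hb' w hw)
      inv_mem' := by
        rintro a ⟨ha, ha'⟩
        refine ⟨inv_mem ha, fun w hw => ?_⟩
        have h3 := h2 _ (inv_mem ha) _ (ha' w hw)
        have h4 : ρ a⁻¹ (ρ a w - w) = -(ρ a⁻¹ w - w) := by
          rw [map_sub, ← Module.End.mul_apply, ← map_mul, inv_mul_cancel, map_one,
            Module.End.one_apply]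
          abel
        rw [h4] at h3
        exact (Submodule.neg_mem_iff _).1 h3 }
  have hC : ∀ g, g ∈ C ↔ g ∈ ℓ.blk e d ∧ ∀ w ∈ M₁, ρ g w - w ∈ M₂ := fun g => Iff.rfl
  have hle2 : ℓ.blk e d ≤ C := by
    refine (ℓ.blk_gen hp hs h hij (by rwa [one_smul] at hy)).trans
      (sup_le ((Subgroup.closure_le _).2 ?_) ?_)
    · rintro _ ⟨g, hg, rfl⟩
      refine (hC _).2 ⟨mul_mem (mul_mem hg hyb) (inv_mem hg), fun w hw => ?_⟩
      have h3 := hy1 _ (h1 _ (inv_mem hg) w hw)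
      have h4 := h2 g hg _ h3
      rw [map_sub, ← Module.End.mul_apply, ← Module.End.mul_apply, ← Module.End.mul_apply,
        ← map_mul, ← map_mul, ← map_mul, mul_inv_cancel, map_one, Module.End.one_apply] at h4
      exact h4
    · intro t ht
      exact (hC _).2 ⟨ℓ.T_le_blk hp (by omega) h ht, hT t ht⟩
  obtain ⟨g, hg, w, hw, hw'⟩ := hnt
  exact hw' (((hC g).1 (hle2 hg)).2 w hw)

end Lay

end Pool.Agent.Lib.MP_b9166b_al.Pt
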