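import Pool.Agent.Lib.MP_b9166b_al.Pt.FvA
import Pool.Agent.Lib.MP_b9166b_al.Pt.Gq
import Pool.Agent.Lib.MP_b9166b_al.Pt.Ptf

/-!
# MP_b9166b_al, PT: free vectors (3.2)

`free_vec`. `𝔽` a finite group, `λ : 𝔽 → Γ` a map which is a homomorphism up to `ℓ.Z` (`Z` acts by scalars on `V` and `W`). `A g := ℓ.a (λ g)`.
`exists_conf` gives `e g, d g` (`v = e g 0`, `w = e g 1`, `y = e g 2`; `α = d g 0`, `φ = d g 1`, `β = d g 2`). Let
`τ g` be a root lift of `(e g 0, d g 1)`, `σ g = λ g * τ g * (λ g)⁻¹` a root lift of `(A g (e g 0), d g 1 ∘ A g⁻¹)` (`Rt.conj`; up to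
scalars `ℓ.a (λ g)⁻¹ = c A g⁻¹`). `(e g 0, d g 1)`, `g ≠ 1`, is a system of size `m = card 𝔽 - 1`; `M₁ / M₂` from `Dg.all`. On `B = M₁/M₂`
(`exists_quot` for `Y = ⊤`; `T` trivial): the `σ`s commute with each other (`d g 1 (A g⁻¹ (A g' (e g' 0))) = 0`) and with all elements of the
block groups of `(e g', d g')` (`d g' i (A g (e g 0)) = 0`, `d g 1 (A g⁻¹ (e g' j)) = 0`).
Claim: the range of `∏ (τ g - 1)` (product in the order of an enumeration `Fin m ≃ {g ≠ 1}`) is not contained in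
`B_E := ⨆ range (σ g - 1)`. Otherwise use `pb` for `B` with the chain `b t := E^(l-t) B` where `E^i B` is the span of all products of `i` of
the `σ g - 1` applied to `B` (`E^l B = 0` for large `l`, as the `σ g` are commuting `p`-elements in characteristic `p`): `∏ (τ g - 1)` maps `E^i B` to
`E^i (∏ (τ g - 1) B) ≤ E^(i+1) B`, the `E^i B` are stable under the block groups: contradiction to `pb`.
So there are `b₀` and a functional `χ` with `χ = 0` on `B_E` and `χ b = 1`, `b = ∏ (τ g - 1) b₀`. For `g ≠ 1`: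
`λ g b = (σ g - 1) (..) ∈ B_E` (all `τ`s commute on `B`, move `τ g - 1` to the front). So `χ (λ g b) = 0`. The vectors `λ g b`
are independent: apply `χ ∘ (λ g₀)⁻¹` to a relation; `(λ g₀)⁻¹ λ g = z λ (g₀⁻¹ g)` up to `Z`. Lift `b` to `M₁ ≤ W`.
-/

set_option autoImplicit false

namespace Pool.Agent.Lib.MP_b9166b_al.Pt

open Module

open scoped commutatorElement

theorem fv_nilp {p : ℕ} (hp : p.Prime) {K B : Type} [Field K] [CharP K p] [AddCommGroup B]
    [Module K B] {x : B →ₗ[K] B} {j : ℕ} (h : x ^ p ^ j = 1) : IsNilpotent (x - 1) := by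
  haveI : Fact p.Prime := ⟨hp⟩
  refine ⟨p ^ j, ?_⟩
  have h1 : ((Polynomial.X : Polynomial K) - 1) ^ p ^ j = Polynomial.X ^ p ^ j - 1 := by
    rw [sub_pow_char_pow, one_pow]
  have h2 := congrArg (Polynomial.aeval x) h1
  rw [map_pow, map_sub, map_sub, map_pow, Polynomial.aeval_X, map_one, h, sub_self] at h2
  exact h2

theorem fv_scal {p : ℕ} {Γ F V : Type} [Group Γ] [Field F] [AddCommGroup V] [Module F V]
    (ℓ : Lay p Γ F V) {z : Γ} (hz : z ∈ ℓ.Z) : ∃ c : F, c ≠ 0 ∧ ℓ.a z = c • (1 : V →ₗ[F] V) := by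
  obtain ⟨e, he⟩ := ℓ.scal z hz
  by_cases h0 : e = 0
  · refine ⟨1, one_ne_zero, ?_⟩
    have h1 : ℓ.a z * ℓ.a z⁻¹ = 1 := by rw [← map_mul, mul_inv_cancel, map_one]
    rw [he, h0, zero_smul, zero_mul] at h1
    rw [he, h0, zero_smul, one_smul, h1]
  · exact ⟨e, h0, he⟩

/-- commuting elements of the quotient -/
theorem fv_comm {Γ K B : Type} [Group Γ] [Field K] [AddCommGroup B] [Module K B]
    (ρ : Γ →* (B →ₗ[K] B)) {x y : Γ} (h : ρ ⁅x, y⁆ = 1) : Commute (ρ x) (ρ y) := by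
  have h1 : ⁅x, y⁆ * (y * x) = x * y := by
    rw [commutatorElement_def]
    group
  have h2 := congrArg ρ h1
  rw [map_mul, h, one_mul, map_mul, map_mul] at h2
  exact h2.symm

theorem fv_cls {Γ K B : Type} [Group Γ] [Field K] [AddCommGroup B] [Module K B]
    (ρ : Γ →* (B →ₗ[K] B)) {S : Set Γ} {x : B →ₗ[K] B} (h : ∀ y ∈ S, Commute (ρ y) x) {y : Γ}
    (hy : y ∈ Subgroup.closure S) : Commute (ρ y) x := by
  induction hy using Subgroup.closure_induction with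
  | mem y hy => exact h y hy
  | one =>
    rw [map_one]
    exact Commute.one_left _
  | mul a b _ _ ha hb =>
    rw [map_mul]
    exact ha.mul_left hb
  | inv a _ ha =>
    have h1 : ρ a⁻¹ * ρ a = 1 := by rw [← map_mul, inv_mul_cancel, map_one]
    have h2 : ρ a * ρ a⁻¹ = 1 := by rw [← map_mul, mul_inv_cancel, map_one]
    calc ρ a⁻¹ * x = ρ a⁻¹ * (x * ρ a) * ρ a⁻¹ := by rw [mul_assoc, mul_assoc, h2, mul_one]
      _ = x * ρ a⁻¹ := by rw [← ha.eq, ← mul_assoc, h1, one_mul]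

theorem fv_sec {p : ℕ} (hp : p.Prime) {Γ F V K W : Type} [Group Γ] [Finite Γ] [Field F]
    [CharP F p] [AddCommGroup V] [Module F V] [FiniteDimensional F V] [Field K]
    [CharP K p] [AddCommGroup W] [Module K W] [Finite W] (ℓ : Lay p Γ F V)
    (ρ : Γ →* (W →ₗ[K] W)) {n : ℕ} (hn : n = 0 ∨ 2 * n < finrank F V) (h : ℓ.Dg ρ n)
    {v : Fin n → V} {f : Fin n → Dual F V} {g : Fin n → Γ} (hs : Sys v f)
    (hg : ∀ i, ℓ.Rt (v i) (f i) (g i)) :
    ∃ M₁ M₂, Irr ρ ⊤ M₁ M₂ ∧ ∃ w ∈ M₁, pr ρ (List.ofFn g) w ∉ M₂ := by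
  rcases hn with rfl | hn
  · obtain ⟨M₁, M₂, hM, v', f', g', _, _, w, hw, hw'⟩ := h
    refine ⟨M₁, M₂, hM, w, hw, ?_⟩
    have h1 : List.ofFn g = List.ofFn g' := by rw [List.ofFn_zero, List.ofFn_zero]
    rw [h1]
    exact hw'
  · exact Lay.Dg.all ℓ hp ρ hn h hs hg

theorem fv_pr {Γ K W B : Type} [Group Γ] [Field K] [AddCommGroup W] [Module K W] [AddCommGroup B]
    [Module K B] {ρ : Γ →* (W →ₗ[K] W)} {σ : Γ →* (B →ₗ[K] B)} {M : Submodule K W}
    (hM : ∀ g, ∀ w ∈ M, ρ g w ∈ M) (π : M →ₗ[K] B)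
    (h : ∀ g (w : M), σ g (π w) = π ⟨ρ g w, hM g w w.2⟩) (l : List Γ) (w : M) :
    ∃ w' : M, (w' : W) = pr ρ l w ∧ pr σ l (π w) = π w' := by
  induction l with
  | nil => exact ⟨w, by simp [pr], by simp [pr]⟩
  | cons x l ih =>
    obtain ⟨w', h1, h2⟩ := ih
    refine ⟨⟨ρ x w', hM x w' w'.2⟩ - w', ?_, ?_⟩
    · have h3 : pr ρ (x :: l) w = ρ x (pr ρ l w) - pr ρ l w := by
        simp [pr, Module.End.mul_apply, LinearMap.sub_apply, Module.End.one_apply]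
      rw [h3, ← h1]
      rfl
    · have h3 : pr σ (x :: l) (π w) = σ x (pr σ l (π w)) - pr σ l (π w) := by
        simp [pr, Module.End.mul_apply, LinearMap.sub_apply, Module.End.one_apply]
      rw [h3, h2, h, map_sub]

theorem free_vec {p : ℕ} (hp : p.Prime) {Γ F V K W 𝔽 : Type} [Group Γ] [Finite Γ] [Field F]
    [Finite F] [CharP F p] [AddCommGroup V] [Module F V] [FiniteDimensional F V] [Field K]
    [CharP K p] [AddCommGroup W] [Module K W] [FiniteDimensional K W] [Finite W] [Group 𝔽]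
    [Finite 𝔽] (ℓ : Lay p Γ F V) (ρ : Γ →* (W →ₗ[K] W))
    (hZ : ∀ z ∈ ℓ.Z, ∃ e : K, ρ z = e • (1 : W →ₗ[K] W)) (lam : 𝔽 → Γ)
    (hlam : ∀ g h, ∃ z ∈ ℓ.Z, lam g * lam h = lam (g * h) * z) {R : ℕ}
    (hR : Nat.card 𝔽 * (3 * Nat.card 𝔽) + Nat.card 𝔽 + 1 ≤ R)
    (h : ∀ g, g ≠ 1 → ∀ c : F,
      R ≤ finrank F (LinearMap.range (ℓ.a (lam g) - c • (1 : V →ₗ[F] V))))
    (hD : ℓ.Dg ρ (Nat.card 𝔽 - 1)) : ∃ w : W, LinearIndependent K fun g => ρ (lam g) w := by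
  classical
  have hl1 : lam 1 ∈ ℓ.Z := by
    obtain ⟨z, hz, h1⟩ := hlam 1 1
    rw [mul_one] at h1
    rwa [mul_left_cancel h1]
  have hinv : ∀ g, ∃ z ∈ ℓ.Z, (lam g)⁻¹ = lam g⁻¹ * z := by
    intro g
    obtain ⟨z, hz, h1⟩ := hlam g g⁻¹
    rw [mul_inv_cancel] at h1
    refine ⟨(lam 1 * z)⁻¹, ℓ.Z.inv_mem (ℓ.Z.mul_mem hl1 hz), ?_⟩
    rw [← h1, mul_inv_rev, mul_inv_cancel_left]
  have hinv2 : ∀ g h, ∃ z ∈ ℓ.Z, (lam g)⁻¹ * lam h = lam (g⁻¹ * h) * z := by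
    intro g h
    obtain ⟨z, hz, h1⟩ := hlam g (g⁻¹ * h)
    rw [mul_inv_cancel_left] at h1
    refine ⟨z⁻¹, ℓ.Z.inv_mem hz, ?_⟩
    rw [inv_mul_eq_iff_eq_mul, ← mul_assoc, h1, mul_inv_cancel_right]
  have hA : PRep fun g => ℓ.a (lam g) := by
    refine ⟨fv_scal ℓ hl1, fun g h => ?_⟩
    obtain ⟨z, hz, h1⟩ := hlam g h
    obtain ⟨c, hc, h2⟩ := fv_scal ℓ hz
    refine ⟨c, hc, ?_⟩
    rw [← map_mul, h1, map_mul, h2, mul_smul_comm, mul_one]
  obtain ⟨e, d, c1, c2, c3, c4⟩ := exists_conf hA hR h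
  have := Fintype.ofFinite 𝔽
  have hcard : Fintype.card {g : 𝔽 // g ≠ 1} = Nat.card 𝔽 - 1 := by
    rw [Nat.card_eq_fintype_card]
    exact Set.card_ne_eq 1
  obtain ⟨en⟩ : Nonempty (Fin (Nat.card 𝔽 - 1) ≃ {g : 𝔽 // g ≠ 1}) :=
    ⟨(Fintype.equivFinOfCardEq hcard).symm⟩
  clear hcard
  generalize Nat.card 𝔽 - 1 = m at en hD
  have hrt : ∀ i, ∃ g, ℓ.Rt (e (en i) 0) (d (en i) 1) g := fun i =>
    Lay.Rt.exists ℓ hp (by rw [c1]; simp)
  choose τ hτ using hrt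
  have hsR : ∀ i, ℓ.Rt (ℓ.a (lam (en i)) (e (en i) 0)) (d (en i) 1 ∘ₗ ℓ.a (lam (en i))⁻¹)
      (lam (en i) * τ i * (lam (en i))⁻¹) := fun i => Lay.Rt.conj ℓ hp (hτ i) (lam (en i))
  have hsf : ∀ (g : {g : 𝔽 // g ≠ 1}) (x : V), d g 1 (ℓ.a (lam (g : 𝔽)⁻¹) x) = 0 →
      (d g 1 ∘ₗ ℓ.a (lam g)⁻¹) x = 0 := by
    intro g x hx
    obtain ⟨z, hz, h1⟩ := hinv g
    obtain ⟨c, hc, h2⟩ := fv_scal ℓ hz
    rw [LinearMap.comp_apply, h1, map_mul, h2, Module.End.mul_apply, LinearMap.smul_apply,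
      Module.End.one_apply, map_smul, map_smul, hx, smul_zero]
  have hsys : Sys (fun i => e (en i) 0) (fun i => d (en i) 1) := by
    refine ⟨fun i j => by rw [c1]; simp, ?_, ?_⟩
    · refine LinearIndependent.of_pairwise_dual_eq_zero_one _ (fun i => d (en i) 0) ?_ ?_
      · intro i j hij
        change d (en i) 0 (e (en j) 0) = 0
        rw [c1, if_neg]
        rintro ⟨h1, -⟩
        exact hij (en.injective h1)
      · intro i
        rw [c1, if_pos ⟨rfl, rfl⟩]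
    · refine LinearIndependent.of_pairwise_dual_eq_zero_one _
        (fun i => Module.Dual.eval F V (e (en i) 1)) ?_ ?_
      · intro i j hij
        change d (en j) 1 (e (en i) 1) = 0
        rw [c1, if_neg]
        rintro ⟨h1, -⟩
        exact hij (en.injective h1).symm
      · intro i
        change d (en i) 1 (e (en i) 1) = 1
        rw [c1, if_pos ⟨rfl, rfl⟩]
  have hdim : m = 0 ∨ 2 * m < finrank F V := by
    have h1 : LinearIndependent F fun x : Fin m × Fin 3 => e (en x.1) x.2 := by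
      refine LinearIndependent.of_pairwise_dual_eq_zero_one _ (fun x => d (en x.1) x.2) ?_ ?_
      · intro x y hxy
        change d (en x.1) x.2 (e (en y.1) y.2) = 0
        rw [c1, if_neg]
        rintro ⟨h1, h2⟩
        exact hxy (Prod.ext (en.injective h1) h2)
      · intro x
        rw [c1, if_pos ⟨rfl, rfl⟩]
    have h2 := h1.fintype_card_le_finrank
    rw [Fintype.card_prod, Fintype.card_fin, Fintype.card_fin] at h2
    omega
  obtain ⟨M₁, M₂, hM, w₀, hw₀, hne⟩ := fv_sec hp ℓ ρ hdim hD hsys hτ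
  obtain ⟨B, _, _, _, π, σ₀, hsur, hker, hact⟩ := exists_quot ρ ⊤ hM.inv1 hM.inv2
  let σ : Γ →* (B →ₗ[K] B) := σ₀.comp (Subgroup.topEquiv (G := Γ)).symm.toMonoidHom
  have hσ : ∀ g (w : M₁), σ g (π w) = π ⟨ρ g w, hM.inv1 g (Subgroup.mem_top g) w w.2⟩ :=
    fun g w => hact ⟨g, Subgroup.mem_top g⟩ w
  have hT : ∀ t ∈ ℓ.T, σ t = 1 := by
    intro t ht
    ext b
    obtain ⟨w, rfl⟩ := hsur b
    rw [hσ, Module.End.one_apply, ← sub_eq_zero, ← map_sub, hker]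
    exact Lay.T_irr ℓ hp ρ le_top hM ht w.2
  have hcm : ∀ {v v' : V} {f f' : Dual F V} {g g' : Γ}, ℓ.Rt v f g → ℓ.Rt v' f' g' → f v' = 0 →
      f' v = 0 → Commute (σ g) (σ g') := fun h1 h2 h3 h4 =>
    fv_comm σ (hT _ (Lay.Rt.comm ℓ hp h1 h2 h3 h4))
  have hst : ∀ (i j : Fin m) (a : Fin 3) (b : Fin 3) (c : F) (y : Γ),
      ℓ.Rt (e (en j) a) (c • d (en j) b) y →
      Commute (σ (lam (en i) * τ i * (lam (en i))⁻¹)) (σ y) := by
    intro i j a b c y hy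
    refine hcm (hsR i) hy (hsf _ _ (c3 _ _ _)) ?_
    rw [LinearMap.smul_apply, c2, smul_zero]
  have key : ∃ (b : B) (χ : B →ₗ[K] K), χ b ≠ 0 ∧ ∀ i, χ (σ (lam (en i)) b) = 0 := by
    refine fv_core σ τ (fun i => lam (en i))
      (fun i => lam (en i) * τ i * (lam (en i))⁻¹) (fun i => by group) ?_ ?_ ?_ ?_ ?_
    · intro i
      obtain ⟨j, hj⟩ := (hsR i).2.1
      refine fv_nilp hp (j := j) ?_
      rw [← map_pow, hj, map_one]
    · intro i j
      by_cases hij : i = j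
      · rw [hij]
      · refine hcm (hsR i) (hsR j) (hsf _ _ (c4 _ _ ?_)) (hsf _ _ (c4 _ _ ?_))
        · exact fun h1 => hij (en.injective h1)
        · exact fun h1 => hij (en.injective h1).symm
    · intro i j
      exact hst i j 0 1 1 (τ j) (by rw [one_smul]; exact hτ j)
    · intro i j
      refine hcm (hτ i) (hτ j) ?_ ?_
      · rw [c1]; simp
      · rw [c1]; simp
    · intro l c hc0 hcl hc
      refine ℓ.ptf hp σ (n := m) (s := 3) le_rfl (e := fun i => e (en i)) (d := fun i => d (en i))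
        ?_ ?_ (x := τ) (r₀ := 0) (r₁ := 1) (by decide) hτ (M₁ := ⊤) (M₂ := ⊥) ?_ ?_ ?_ ?_ c hc0 hcl ?_
      · intro i a b
        rw [c1]
        simp
      · intro i i' hii r r'
        rw [c1, if_neg]
        rintro ⟨h1, -⟩
        exact hii (en.injective h1)
      · intro i g _ w _
        exact Submodule.mem_top
      · intro i g _ w hw
        rw [Submodule.mem_bot] at hw ⊢
        rw [hw, map_zero]
      · intro t ht w _
        rw [hT t ht, Module.End.one_apply, sub_self]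
        exact Submodule.zero_mem _
      · refine ⟨π ⟨w₀, hw₀⟩, Submodule.mem_top, ?_⟩
        obtain ⟨w', h1, h2⟩ := fv_pr (fun g w hw => hM.inv1 g (Subgroup.mem_top g) w hw) π hσ
          (List.ofFn τ) ⟨w₀, hw₀⟩
        rw [h2, Submodule.mem_bot, hker, h1]
        exact hne
      · intro t i g hg
        refine hc t (σ g) fun j => ?_
        refine fv_cls σ ?_ hg
        rintro y ⟨a, b, _, c, hy⟩
        exact (hst j i a b c y hy).symm
  obtain ⟨b, χ, hχ, hχ0⟩ := key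
  have h1 : ∀ g, g ≠ 1 → χ (σ (lam g) b) = 0 := by
    intro g hg
    have h2 := hχ0 (en.symm ⟨g, hg⟩)
    rwa [Equiv.apply_symm_apply] at h2
  have hZB : ∀ z ∈ ℓ.Z, ∃ c : K, σ z = c • (1 : B →ₗ[K] B) := by
    intro z hz
    obtain ⟨c, hc⟩ := hZ z hz
    refine ⟨c, ?_⟩
    ext b
    obtain ⟨w, rfl⟩ := hsur b
    rw [hσ, LinearMap.smul_apply, Module.End.one_apply, ← map_smul]
    refine congrArg π (Subtype.ext ?_)
    change ρ z w = c • (w : W)
    rw [hc]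
    rfl
  have h2 := fv_indep σ lam ℓ.Z hZB hinv2 hχ h1
  obtain ⟨w, rfl⟩ := hsur b
  refine ⟨w, ?_⟩
  have h3 : LinearIndependent K
      fun g => (⟨ρ (lam g) w, hM.inv1 _ (Subgroup.mem_top _) w w.2⟩ : M₁) := by
    refine LinearIndependent.of_comp π ?_
    have h4 : (fun g => σ (lam g) (π w)) =
        π ∘ fun g => (⟨ρ (lam g) w, hM.inv1 _ (Subgroup.mem_top _) w w.2⟩ : M₁) := by
      funext g
      exact hσ (lam g) w
    rwa [h4] at h2
  exact h3.map' M₁.subtype (Submodule.ker_subtype M₁)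

end Pool.Agent.Lib.MP_b9166b_al.Pt
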