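import Pool.Agent.Lib.MP_b9166b_al.Pt.Sec

/-!
# MP_b9166b_al, PT: free vectors, linear algebra
-/

set_option autoImplicit false

namespace Pool.Agent.Lib.MP_b9166b_al.Pt

open Module

section

variable {K B : Type} [Field K] [AddCommGroup B] [Module K B] {m : ℕ}

/-- `M = ∑ N i M` for commuting nilpotent maps implies `M = 0` -/
theorem fv_nil : ∀ (m : ℕ) (N : Fin m → (B →ₗ[K] B)) (_ : ∀ i j, Commute (N i) (N j))
    (_ : ∀ i, IsNilpotent (N i)) (M : Submodule K B) (_ : ∀ i, M.map (N i) ≤ M)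
    (_ : M ≤ ⨆ i, M.map (N i)), M = ⊥
  | 0, _, _, _, M, _, h => by
      rw [iSup_of_empty] at h
      exact le_bot_iff.1 h
  | m + 1, N, hc, hn, M, hM, h => by
      set S : Submodule K B := ⨆ i : Fin m, M.map (N i.succ) with hS
      have hS0 : S.map (N 0) ≤ S := by
        rw [hS, Submodule.map_iSup]
        refine iSup_le fun i => ?_
        refine le_trans ?_ (le_iSup (fun i : Fin m => M.map (N i.succ)) i)
        rintro _ ⟨_, ⟨w, hw, rfl⟩, rfl⟩
        have h1 : N 0 (N i.succ w) = N i.succ (N 0 w) :=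
          congrArg (fun f : B →ₗ[K] B => f w) (hc 0 i.succ).eq
        rw [h1]
        exact Submodule.mem_map_of_mem (hM 0 (Submodule.mem_map_of_mem hw))
      have hSk : ∀ k : ℕ, S.map (N 0 ^ k) ≤ S := by
        intro k
        induction k with
        | zero =>
          rintro _ ⟨w, hw, rfl⟩
          rw [pow_zero]
          exact hw
        | succ k ih =>
          rintro _ ⟨w, hw, rfl⟩
          rw [pow_succ, Module.End.mul_apply]
          exact ih (Submodule.mem_map_of_mem (hS0 (Submodule.mem_map_of_mem hw)))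
      have h' : M ≤ M.map (N 0) ⊔ S := by
        refine h.trans (iSup_le fun i => ?_)
        refine Fin.cases ?_ (fun i => ?_) i
        · exact le_sup_left
        · exact le_sup_of_le_right (le_iSup (fun i : Fin m => M.map (N i.succ)) i)
      have hk : ∀ k : ℕ, M ≤ M.map (N 0 ^ k) ⊔ S := by
        intro k
        induction k with
        | zero =>
          refine le_sup_of_le_left ?_
          intro w hw
          exact ⟨w, hw, by rw [pow_zero]; rfl⟩
        | succ k ih =>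
          refine ih.trans (sup_le ?_ le_sup_right)
          have h2 := Submodule.map_mono (f := N 0 ^ k) h'
          rw [Submodule.map_sup] at h2
          refine h2.trans (sup_le_sup ?_ (hSk k))
          rintro _ ⟨_, ⟨w, hw, rfl⟩, rfl⟩
          rw [← Module.End.mul_apply, ← pow_succ]
          exact Submodule.mem_map_of_mem hw
      obtain ⟨k, hk0⟩ := hn 0
      have h3 := hk k
      rw [hk0] at h3
      have h4 : M ≤ S := by
        refine h3.trans (sup_le ?_ le_rfl)
        rintro _ ⟨w, hw, rfl⟩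
        exact S.zero_mem
      exact fv_nil m (fun i => N i.succ) (fun i j => hc i.succ j.succ) (fun i => hn i.succ) M
        (fun i => hM i.succ) h4

/-- the chain of the spans of the products of `k` of the maps -/
def Ee (N : Fin m → (B →ₗ[K] B)) : ℕ → Submodule K B
  | 0 => ⊤
  | k + 1 => ⨆ i, (Ee N k).map (N i)

theorem Ee_anti (N : Fin m → (B →ₗ[K] B)) : ∀ k, Ee N (k + 1) ≤ Ee N k
  | 0 => le_top
  | k + 1 => iSup_mono fun _ => Submodule.map_mono (Ee_anti N k)

theorem Ee_anti' (N : Fin m → (B →ₗ[K] B)) : Antitone (Ee N) :=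
  antitone_nat_of_succ_le (Ee_anti N)

theorem Ee_bot [FiniteDimensional K B] {N : Fin m → (B →ₗ[K] B)}
    (hc : ∀ i j, Commute (N i) (N j)) (hn : ∀ i, IsNilpotent (N i)) : ∃ l, Ee N l = ⊥ := by
  obtain ⟨n, hn'⟩ := IsArtinian.monotone_stabilizes (R := K) (M := B)
    ⟨fun k => OrderDual.toDual (Ee N k), fun _ _ h => Ee_anti' N h⟩
  have h1 : Ee N n = Ee N (n + 1) := hn' (n + 1) (Nat.le_succ n)
  refine ⟨n, fv_nil m N hc hn _ (fun i => ?_) h1.le⟩
  exact (le_iSup (fun i => (Ee N n).map (N i)) i).trans (Ee_anti N n)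

theorem Ee_stab {N : Fin m → (B →ₗ[K] B)} {g : B →ₗ[K] B} (hg : ∀ i, Commute g (N i)) :
    ∀ k, Ee N k ≤ (Ee N k).comap g
  | 0 => fun _ _ => Submodule.mem_top
  | k + 1 => by
      refine iSup_le fun i => ?_
      rintro _ ⟨w, hw, rfl⟩
      rw [Submodule.mem_comap]
      have h1 : g (N i w) = N i (g w) := congrArg (fun f : B →ₗ[K] B => f w) (hg i).eq
      rw [h1]
      exact le_iSup (fun i => (Ee N k).map (N i)) i
        (Submodule.mem_map_of_mem (Ee_stab hg k hw))

theorem Ee_map {N : Fin m → (B →ₗ[K] B)} {P : B →ₗ[K] B} (hP : ∀ i, Commute P (N i))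
    (h : ∀ w, P w ∈ Ee N 1) : ∀ k, Ee N k ≤ (Ee N (k + 1)).comap P
  | 0 => fun w _ => h w
  | k + 1 => by
      refine iSup_le fun i => ?_
      rintro _ ⟨w, hw, rfl⟩
      rw [Submodule.mem_comap]
      have h1 : P (N i w) = N i (P w) := congrArg (fun f : B →ₗ[K] B => f w) (hP i).eq
      rw [h1]
      exact le_iSup (fun i => (Ee N (k + 1)).map (N i)) i
        (Submodule.mem_map_of_mem (Ee_map hP h k hw))

theorem pr_comm {Γ : Type} [Group Γ] {ρ : Γ →* (B →ₗ[K] B)} {l : List Γ} {g : B →ₗ[K] B}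
    (h : ∀ x ∈ l, Commute g (ρ x)) : Commute g (pr ρ l) := by
  apply Commute.list_prod_right
  intro y hy
  obtain ⟨x, hx, rfl⟩ := List.mem_map.1 hy
  exact (h x hx).sub_right (Commute.one_right _)

/-- the core of the argument -/
theorem fv_core [FiniteDimensional K B] {Γ : Type} [Group Γ] (ρ : Γ →* (B →ₗ[K] B))
    (τ l s : Fin m → Γ) (hs : ∀ i, l i * τ i = s i * l i) (hnil : ∀ i, IsNilpotent (ρ (s i) - 1))
    (hss : ∀ i j, Commute (ρ (s i)) (ρ (s j))) (hst : ∀ i j, Commute (ρ (s i)) (ρ (τ j)))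
    (htt : ∀ i j, Commute (ρ (τ i)) (ρ (τ j)))
    (hptf : ∀ (l : ℕ) (c : ℕ → Submodule K B), c 0 = ⊥ → c l = ⊤ →
      (∀ t, ∀ g : B →ₗ[K] B, (∀ i, Commute g (ρ (s i))) → ∀ w ∈ c t, g w ∈ c t) →
      ∃ t < l, ∃ w ∈ c (t + 1), pr ρ (List.ofFn τ) w ∉ c t) :
    ∃ (b : B) (χ : B →ₗ[K] K), χ b ≠ 0 ∧ ∀ i, χ (ρ (l i) b) = 0 := by
  classical
  set N : Fin m → (B →ₗ[K] B) := fun i => ρ (s i) - 1 with hN
  have hNc : ∀ i j, Commute (N i) (N j) := fun i j =>
    ((hss i j).sub_right (Commute.one_right _)).sub_left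
      ((Commute.one_left _).sub_right (Commute.one_right _))
  have hPs : ∀ i, Commute (pr ρ (List.ofFn τ)) (ρ (s i)) := fun i =>
    (pr_comm (g := ρ (s i)) fun x hx => by
      obtain ⟨j, rfl⟩ := List.mem_ofFn.1 hx
      exact hst i j).symm
  have hex : ∃ b₀, pr ρ (List.ofFn τ) b₀ ∉ Ee N 1 := by
    by_contra hcon
    push Not at hcon
    obtain ⟨n, hn⟩ := Ee_bot hNc hnil
    have hmap := Ee_map (N := N) (P := pr ρ (List.ofFn τ))
      (fun i => (hPs i).sub_right (Commute.one_right _)) hcon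
    obtain ⟨t, ht, w, hw, hw'⟩ := hptf n (fun t => Ee N (n - t)) (by simpa using hn)
      (by rw [Nat.sub_self]; rfl) (fun t g hg w hw =>
        Ee_stab (fun i => (hg i).sub_right (Commute.one_right _)) _ hw)
    apply hw'
    have h1 := hmap (n - (t + 1)) hw
    rw [Submodule.mem_comap] at h1
    have h2 : n - (t + 1) + 1 = n - t := by omega
    rw [h2] at h1
    exact h1
  obtain ⟨b₀, hb₀⟩ := hex
  obtain ⟨χ, hχ, hker⟩ := Submodule.exists_le_ker_of_notMem hb₀
  refine ⟨pr ρ (List.ofFn τ) b₀, χ, hχ, fun i => ?_⟩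
  have hmem : ρ (l i) (pr ρ (List.ofFn τ) b₀) ∈ Ee N 1 := by
    have h1 : (ρ (τ i) - 1) * (((List.ofFn τ).map fun g => ρ g - 1).erase (ρ (τ i) - 1)).prod =
        ((List.ofFn τ).map fun g => ρ g - 1).prod := by
      refine List.prod_erase_of_comm ?_ ?_
      · exact List.mem_map.2 ⟨τ i, List.mem_ofFn.2 ⟨i, rfl⟩, rfl⟩
      · intro x hx y hy
        obtain ⟨x', hx', rfl⟩ := List.mem_map.1 hx
        obtain ⟨y', hy', rfl⟩ := List.mem_map.1 hy
        obtain ⟨j, rfl⟩ := List.mem_ofFn.1 hx'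
        obtain ⟨k, rfl⟩ := List.mem_ofFn.1 hy'
        exact (((htt j k).sub_right (Commute.one_right _)).sub_left
          ((Commute.one_left _).sub_right (Commute.one_right _))).eq
    have h2 : pr ρ (List.ofFn τ) = (ρ (τ i) - 1) *
      (((List.ofFn τ).map fun g => ρ g - 1).erase (ρ (τ i) - 1)).prod := h1.symm
    have h3 : ρ (l i) * (ρ (τ i) - 1) = N i * ρ (l i) := by
      rw [hN, mul_sub, sub_mul, mul_one, one_mul, ← map_mul, ← map_mul, hs]
    rw [h2, Module.End.mul_apply, ← Module.End.mul_apply (ρ (l i)), h3, Module.End.mul_apply]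
    refine le_iSup (fun i => (Ee N 0).map (N i)) i (Submodule.mem_map_of_mem ?_)
    exact Submodule.mem_top
  exact hker hmem

/-- independence -/
theorem fv_indep {Γ 𝔽 : Type} [Group Γ] [Group 𝔽] (ρ : Γ →* (B →ₗ[K] B)) (lam : 𝔽 → Γ)
    (Z : Subgroup Γ) (hZ : ∀ z ∈ Z, ∃ e : K, ρ z = e • (1 : B →ₗ[K] B))
    (hlam : ∀ g h, ∃ z ∈ Z, (lam g)⁻¹ * lam h = lam (g⁻¹ * h) * z) {b : B} {χ : B →ₗ[K] K}
    (h1 : χ b ≠ 0) (h2 : ∀ g, g ≠ 1 → χ (ρ (lam g) b) = 0) :
    LinearIndependent K fun g => ρ (lam g) b := by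
  rw [linearIndependent_iff']
  intro s c hc g₀ hg₀
  have h3 : ∑ g ∈ s, c g * χ (ρ ((lam g₀)⁻¹ * lam g) b) = 0 := by
    have h4 := congrArg (fun v => χ (ρ (lam g₀)⁻¹ v)) hc
    simp only [map_zero, map_sum, map_smul, smul_eq_mul] at h4
    rw [← h4]
    refine Finset.sum_congr rfl fun g _ => ?_
    rw [map_mul, Module.End.mul_apply]
  rw [Finset.sum_eq_single g₀] at h3
  · rw [inv_mul_cancel, map_one, Module.End.one_apply] at h3
    exact (mul_eq_zero.1 h3).resolve_right h1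
  · intro g _ hg
    obtain ⟨z, hz, he⟩ := hlam g₀ g
    obtain ⟨e, he'⟩ := hZ z hz
    have hne : g₀⁻¹ * g ≠ 1 := fun h => hg (inv_mul_eq_one.1 h).symm
    rw [he, map_mul, he', Module.End.mul_apply, LinearMap.smul_apply, Module.End.one_apply,
      map_smul, map_smul, h2 _ hne, smul_zero, mul_zero]
  · intro h
    exact absurd hg₀ h

end

end Pool.Agent.Lib.MP_b9166b_al.Pt
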