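import Pool.Agent.Lib.MP_b9166b_al.Pt.Rkl
import Pool.Agent.Lib.MP_b9166b_al.Pt.Fv

/-!
# MP_b9166b_al, PT: free vectors in covers (3.2)

`free_cov`: let `R = |F₁| * (3 * |F₁|) + |F₁| + 1`, `S` the union of `F₁` and the sets of `rank_large` for the elements `≠ 1` of `F₁` and `R`.
`hU` for `m = |F₁| - 1` and `S` gives `c, d`. `free_vec` for `Γ = Gam2 c d`, `ℓ = lay2 c d h`, `ρ = rep2 c d`, `𝔽 = F₁`, `lam g` any element of `Gam2 c d`
over `g`. Two lifts of `g` to `d.Gam` differ by a scalar `≠ 0` (`d.scal`).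
-/

set_option autoImplicit false

namespace Pool.Agent.Lib.MP_b9166b_al.Pt

open Module Cvr

variable {p : ℕ} {G : Type} [Group G]

theorem free_cov (hp : p.Prime) (hs : IsSimpleGroup G) (hG : ¬ FinLin G)
    (hU : ∀ (m : ℕ) (S : Finset G), ∃ (c d : Cvr p G) (h : c.H ≤ d.H), c.Ge S ∧ Dg2 c d h m)
    (F₁ : Subgroup G) [Finite F₁] : ∃ d : Cvr p G, F₁ ≤ d.H ∧ ∃ w : d.V, ∀ lam : F₁ → d.U,
      (∀ g : F₁, ((g : G), lam g) ∈ d.Gam) → LinearIndependent d.F fun g => (lam g).val w := by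
  classical
  have hex : ∀ s : G, ∃ S : Finset G, s ≠ 1 → ∀ c : Cvr p G, c.Ge S → ∀ u, (s, u) ∈ c.Gam →
      ∀ e : c.F, Nat.card F₁ * (3 * Nat.card F₁) + Nat.card F₁ + 1 <
        finrank c.F (LinearMap.range (u.val - e • (1 : c.V →ₗ[c.F] c.V))) := by
    intro s
    by_cases hs1 : s = 1
    · exact ⟨∅, fun h => absurd hs1 h⟩
    · obtain ⟨S, hS⟩ := rank_large (p := p) hs hG hs1
        (Nat.card F₁ * (3 * Nat.card F₁) + Nat.card F₁ + 1)
      exact ⟨S, fun _ => hS⟩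
  choose T hT using hex
  have hfin : (F₁ : Set G).Finite := Set.toFinite _
  let A : Finset G := hfin.toFinset
  have hA : ∀ g, g ∈ A ↔ g ∈ F₁ := fun g => by
    rw [Set.Finite.mem_toFinset]
    rfl
  obtain ⟨c, d, h, hc, hD⟩ := hU (Nat.card F₁ - 1) (A ∪ A.biUnion T)
  have hcA : ∀ g ∈ F₁, g ∈ c.H := fun g hg =>
    (hc g (Finset.mem_union_left _ ((hA g).2 hg))).1
  have hcT : ∀ g ∈ F₁, c.Ge (T g) := fun g hg => hc.mono fun x hx =>
    Finset.mem_union_right _ (Finset.mem_biUnion.2 ⟨g, (hA g).2 hg, hx⟩)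
  refine ⟨d, fun g hg => h (hcA g hg), ?_⟩
  have hlift : ∀ g : F₁, ∃ q : Gam2 c d, q.1.1 = (g : G) := by
    intro g
    obtain ⟨u, hu⟩ := c.onto g (hcA g g.2)
    obtain ⟨v, hv⟩ := d.onto g (h (hcA g g.2))
    exact ⟨⟨((g : G), u, v), hu, hv⟩, rfl⟩
  choose lam hlam using hlift
  have hZ : ∀ z ∈ (lay2 c d h).Z, ∃ e : d.F, rep2 c d z = e • (1 : d.V →ₗ[d.F] d.V) := by
    intro z hz
    have hz1 : z.1.1 = 1 := hz
    have hz2 : (z.1.1, z.1.2.2) ∈ d.Gam := z.2.2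
    rw [hz1] at hz2
    exact d.scal _ hz2
  have hmul : ∀ g g' : F₁, ∃ z ∈ (lay2 c d h).Z, lam g * lam g' = lam (g * g') * z := by
    intro g g'
    refine ⟨(lam (g * g'))⁻¹ * (lam g * lam g'), ?_, by rw [mul_inv_cancel_left]⟩
    have h1 : g2 c d ((lam (g * g'))⁻¹ * (lam g * lam g')) = 1 := by
      have h2 : ∀ k : F₁, g2 c d (lam k) = (k : G) := hlam
      rw [map_mul, map_inv, map_mul, h2, h2, h2, Subgroup.coe_mul, inv_mul_cancel]
    exact h1
  have hrk : ∀ g : F₁, g ≠ 1 → ∀ e : c.F, Nat.card F₁ * (3 * Nat.card F₁) + Nat.card F₁ + 1 ≤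
      finrank c.F (LinearMap.range ((lay2 c d h).a (lam g) - e • (1 : c.V →ₗ[c.F] c.V))) := by
    intro g hg e
    have hg1 : (g : G) ≠ 1 := fun h1 => hg (Subtype.ext h1)
    have h2 : ((g : G), (lam g).1.2.1) ∈ c.Gam := by
      rw [← hlam g]
      exact (lam g).2.1
    exact (hT (g : G) hg1 c (hcT g g.2) _ h2 e).le
  obtain ⟨w, hw⟩ := free_vec hp (lay2 c d h) (rep2 c d) hZ lam hmul le_rfl hrk hD
  refine ⟨w, fun μ hμ => ?_⟩
  have hsc : ∀ g : F₁, ∃ e : d.Fˣ, (μ g).val w = e • rep2 c d (lam g) w := by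
    intro g
    have h1 : ((g : G), (lam g).1.2.2) ∈ d.Gam := by
      rw [← hlam g]
      exact (lam g).2.2
    have h2 : ((1 : G), μ g * ((lam g).1.2.2)⁻¹) ∈ d.Gam := by
      have h3 := d.Gam.mul_mem (hμ g) (d.Gam.inv_mem h1)
      have h4 : ((g : G), μ g) * ((g : G), (lam g).1.2.2)⁻¹ =
          ((1 : G), μ g * ((lam g).1.2.2)⁻¹) := by
        rw [Prod.inv_mk, Prod.mk_mul_mk, mul_inv_cancel]
      rwa [h4] at h3
    obtain ⟨e, he⟩ := d.scal _ h2
    have h5 : (μ g).val = e • ((lam g).1.2.2).val := by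
      have h6 : (μ g).val = (μ g * ((lam g).1.2.2)⁻¹).val * ((lam g).1.2.2).val := by
        rw [← Units.val_mul, inv_mul_cancel_right]
      rw [h6, he, smul_mul_assoc, one_mul]
    have h7 : (μ g).val w = e • rep2 c d (lam g) w := by
      rw [h5]
      rfl
    have he0 : e ≠ 0 := by
      intro h0
      have h8 : (μ g).val = 0 := by rw [h5, h0, zero_smul]
      have h9 : (1 : d.V →ₗ[d.F] d.V) = 0 := by
        rw [← (μ g).mul_inv, h8, zero_mul]
      have h10 : rep2 c d (lam g) w = 0 := by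
        have h11 := LinearMap.congr_fun h9 (rep2 c d (lam g) w)
        exact h11
      exact hw.ne_zero g h10
    exact ⟨Units.mk0 e he0, h7⟩
  choose e he using hsc
  have h12 : (fun g => (μ g).val w) = e • fun g => rep2 c d (lam g) w := by
    funext g
    rw [he g]
    rfl
  rw [h12]
  exact hw.units_smul e

end Pool.Agent.Lib.MP_b9166b_al.Pt
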