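import Pool.Agent.Lib.MP_b9166b_al.Pt.TsDefs
import Pool.Agent.Lib.MP_b9166b_al.Pt.Choose

/-!
# MP_b9166b_al, PT: a transvection system with `RelA` is a nilpotent system

Proof of `mul_eq_zero`. Write `N v f = X v f - 1`. Let `f v = f' v' = f v' = f' v = 0`; claim
`N v' f' * N v f = 0`, in other words `X v' f' * N v f = N v f`. Trivial if one of `v, f, v', f'` is `0`
(`X 0 f = 1`, `X v 0 = 1` by `addr` and `X v 0 * X v 0 = X v 0`, `X v 0` is invertible).
(1) `v, v'` and `f, f'` independent: `RelA`.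
(2) `v' = c • v`, `f, f'` independent. Use `smul`: may take `v' = v`. Choose (`exists_pair`) `w, k` with
`k w = 1`, `k v = 0`, `f w = f' w = 0`. `rel` for `(v,k), (w,f')`: `X v k * X w f' = X v f' * X w f' * X v k`.
Multiply by `N v f` on the right: `X v k` commutes with `X v f` (so with `N v f`), and `X w f' * N v f = N v f`
by (1), as `w, v` are independent (`k w = 1`, `k v = 0`). So `X v f' * N v f * X v k = X v k * X w f' * N v f
= X v k * N v f = N v f * X v k`, and `X v k` is invertible.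
(3) `f' = c • f`, `v, v'` independent: dual to (2): may take `f' = f`. `k w = 1`, `k v' = k v = 0`,
`f w = 0`: `X v' k * X w f = X v' f * X w f * X v' k`, `X w f` commutes with `X v f`, `X v' k * N v f = N v f`
by (1) (`k, f` independent as `k w = 1`, `f w = 0`).
(4) both dependent: `v' = v`, `f' = c • f`. `k w = 1`, `k v = 0`, `f w = 0`; `rel` for `(v,k), (w, c • f)`:
`X v k * X w (c•f) = X v (c•f) * X w (c•f) * X v k`, where `X v k * N v f = N v f` by (2) and
`X w (c • f) * N v f = N v f` by (3).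
Then `addl, addr, smul` of `NS` are clear (`(1+N)(1+N') = 1+N+N'`), and `br`: with `N'' = N v (f v' • f')`
`(1+N)(1+N') = (1+N'')(1+N')(1+N)` and `N'' * N' = 0`, `N'' * N = 0`.
For `f v ≠ 0` put `N v f = 0`.
-/

set_option autoImplicit false

namespace Pool.Agent.Lib.MP_b9166b_al.Pt

open Module

variable {F V R : Type} [Field F] [AddCommGroup V] [Module F V] [Ring R]

theorem tsNs_inv (S : TS F V R) {v : V} {f : Dual F V} (h : f v = 0) :
    S.X v f * S.X (-v) f = 1 := by
  rw [← S.addl v (-v) f h (by rw [map_neg, h, neg_zero]), add_neg_cancel, S.zero]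

theorem tsNs_zero_right (S : TS F V R) (v : V) : S.X v 0 = 1 := by
  have h1 := S.addr v 0 0 rfl rfl
  rw [add_zero] at h1
  have h2 := congrArg (fun y => y * S.X (-v) 0) h1
  simp only [mul_assoc, tsNs_inv S (f := (0 : Dual F V)) (v := v) rfl, mul_one] at h2
  exact h2.symm

theorem tsNs_cancel (S : TS F V R) {v : V} {f : Dual F V} (h : f v = 0) {a b : R}
    (hab : a * S.X v f = b * S.X v f) : a = b := by
  have h2 := congrArg (fun y => y * S.X (-v) f) hab
  simp only [mul_assoc, tsNs_inv S h, mul_one] at h2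
  exact h2

/-- `w` and `v` are independent if `k w = 1`, `k v = 0`, `v ≠ 0` -/
theorem tsNs_indep {W : Type} [AddCommGroup W] [Module F W] {v w : W} (k : W →ₗ[F] F) (h1 : k w = 1)
    (h2 : k v = 0) (hv : v ≠ 0) : LinearIndependent F ![w, v] := by
  rw [LinearIndependent.pair_iff]
  intro s t hst
  have h3 : s = 0 := by
    have := congrArg k hst
    simpa [h1, h2] using this
  refine ⟨h3, ?_⟩
  rw [h3, zero_smul, zero_add, smul_eq_zero] at hst
  exact hst.resolve_right hv

theorem tsNs_swap {W : Type} [AddCommGroup W] [Module F W] {v w : W}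
    (h : LinearIndependent F ![w, v]) : LinearIndependent F ![v, w] := by
  rw [LinearIndependent.pair_iff] at h ⊢
  intro s t hst
  rw [add_comm] at hst
  exact (h t s hst).symm

theorem tsNs_indep_smul {W : Type} [AddCommGroup W] [Module F W] {v w : W} {c : F} (hc : c ≠ 0)
    (h : LinearIndependent F ![w, v]) : LinearIndependent F ![c • w, v] := by
  rw [LinearIndependent.pair_iff] at h ⊢
  intro s t hst
  rw [smul_smul] at hst
  obtain ⟨h1, h2⟩ := h (s * c) t hst
  exact ⟨(mul_eq_zero.1 h1).resolve_right hc, h2⟩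

/-- dependent nonzero vectors are proportional -/
theorem tsNs_dep {W : Type} [AddCommGroup W] [Module F W] {v w : W} (hv : v ≠ 0)
    (h : ¬ LinearIndependent F ![w, v]) : ∃ c : F, w = c • v := by
  by_contra hcon
  apply h
  rw [LinearIndependent.pair_iff]
  intro s t hst
  have hs : s = 0 := by
    by_contra hs
    apply hcon
    refine ⟨- (s⁻¹ * t), ?_⟩
    have h1 : s • w = - (t • v) := eq_neg_of_add_eq_zero_left hst
    have h2 : w = s⁻¹ • (s • w) := by rw [smul_smul, inv_mul_cancel₀ hs, one_smul]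
    rw [h2, h1, smul_neg, smul_smul, neg_smul]
  refine ⟨hs, ?_⟩
  rw [hs, zero_smul, zero_add, smul_eq_zero] at hst
  exact hst.resolve_right hv

/-- case (1) -/
theorem tsNs_case1 (S : TS F V R) (hA : S.RelA) {v v' : V} {f f' : Dual F V} (h1 : f v = 0)
    (h2 : f' v' = 0) (h3 : f v' = 0) (h4 : f' v = 0) (hv : LinearIndependent F ![v', v])
    (hf : LinearIndependent F ![f', f]) : S.X v' f' * (S.X v f - 1) = S.X v f - 1 := by
  have h := hA v' f' v f h2 h1 h4 h3 hv hf
  rw [sub_mul, one_mul, sub_eq_zero] at h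
  exact h

/-- case (2) -/
theorem tsNs_case2 [FiniteDimensional F V] (S : TS F V R) (hA : S.RelA)
    (h8 : 8 ≤ finrank F V) {v : V} {f f' : Dual F V} (h1 : f v = 0)
    (h4 : f' v = 0) (hv : v ≠ 0) (hf : LinearIndependent F ![f', f]) :
    S.X v f' * (S.X v f - 1) = S.X v f - 1 := by
  obtain ⟨w, k, hkw, hkv, hfw⟩ := exists_pair [v] [f, f'] (by simp; omega)
  have hkv : k v = 0 := hkv v (by simp)
  have hf1 : f w = 0 := hfw f (by simp)
  have hf2 : f' w = 0 := hfw f' (by simp)
  have hrel := S.rel v k w f' hkv hf2 h4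
  rw [hkw, one_smul] at hrel
  have hc1 := tsNs_case1 S hA h1 hf2 hf1 h4 (tsNs_indep k hkw hkv hv) hf
  have hcomm : S.X v k * (S.X v f - 1) = (S.X v f - 1) * S.X v k := by
    rw [mul_sub, sub_mul, mul_one, one_mul, S.comm v k v f hkv h1 hkv h1]
  refine tsNs_cancel S hkv ?_
  have h5 := congrArg (fun y => y * (S.X v f - 1)) hrel
  simp only [mul_assoc] at h5
  rw [hc1, hcomm, ← mul_assoc (S.X w f'), hc1] at h5
  rw [mul_assoc]
  exact h5.symm

/-- case (3) -/
theorem tsNs_case3 [FiniteDimensional F V] (S : TS F V R) (hA : S.RelA)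
    (h8 : 8 ≤ finrank F V) {v v' : V} {f : Dual F V} (h1 : f v = 0)
    (h3 : f v' = 0) (hf : f ≠ 0) (hv : LinearIndependent F ![v', v]) :
    S.X v' f * (S.X v f - 1) = S.X v f - 1 := by
  obtain ⟨w, k, hkw, hkv, hfw⟩ := exists_pair [v, v'] [f] (by simp; omega)
  have hkv1 : k v = 0 := hkv v (by simp)
  have hkv2 : k v' = 0 := hkv v' (by simp)
  have hf1 : f w = 0 := hfw f (by simp)
  have hrel := S.rel v' k w f hkv2 hf1 h3
  rw [hkw, one_smul] at hrel
  have hi : LinearIndependent F ![k, f] := by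
    refine tsNs_indep (W := Dual F V) (Dual.eval F V w) ?_ ?_ hf
    · exact hkw
    · exact hf1
  have hc1 := tsNs_case1 S hA h1 hkv2 h3 hkv1 hv hi
  have hcomm : S.X w f * (S.X v f - 1) = (S.X v f - 1) * S.X w f := by
    rw [mul_sub, sub_mul, mul_one, one_mul, S.comm w f v f hf1 h1 h1 hf1]
  refine tsNs_cancel S hf1 ?_
  have h5 := congrArg (fun y => y * (S.X v f - 1)) hrel
  simp only [mul_assoc] at h5
  rw [hcomm, ← mul_assoc (S.X v' k), hc1, hcomm] at h5
  rw [mul_assoc]
  exact h5.symm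

/-- case (4) -/
theorem tsNs_case4 [FiniteDimensional F V] (S : TS F V R) (hA : S.RelA)
    (h8 : 8 ≤ finrank F V) {v : V} {f : Dual F V} (h1 : f v = 0)
    (hf : f ≠ 0) (hv : v ≠ 0) (c : F) :
    S.X v (c • f) * (S.X v f - 1) = S.X v f - 1 := by
  obtain ⟨w, k, hkw, hkv, hfw⟩ := exists_pair [v] [f] (by simp; omega)
  have hkv : k v = 0 := hkv v (by simp)
  have hf1 : f w = 0 := hfw f (by simp)
  have hrel := S.rel v k w (c • f) hkv (by simp [hf1]) (by simp [h1])
  rw [hkw, one_smul] at hrel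
  have hi : LinearIndependent F ![k, f] := by
    refine tsNs_indep (W := Dual F V) (Dual.eval F V w) ?_ ?_ hf
    · exact hkw
    · exact hf1
  have hc2 := tsNs_case2 S hA h8 h1 hkv hv hi
  have hc3 : S.X w (c • f) * (S.X v f - 1) = S.X v f - 1 := by
    rw [← S.smul c w f hf1]
    by_cases hc : c = 0
    · rw [hc, zero_smul, S.zero, one_mul]
    · exact tsNs_case3 S hA h8 h1 (by rw [map_smul, hf1, smul_zero]) hf
        (tsNs_indep_smul hc (tsNs_indep k hkw hkv hv))
  have h5 := congrArg (fun y => y * (S.X v f - 1)) hrel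
  simp only [mul_assoc] at h5
  rw [hc3, hc2, hc3] at h5
  exact h5.symm

theorem tsNs_all [FiniteDimensional F V] (S : TS F V R) (hA : S.RelA)
    (h8 : 8 ≤ finrank F V) {v v' : V} {f f' : Dual F V} (h1 : f v = 0) (h2 : f' v' = 0)
    (h3 : f v' = 0) (h4 : f' v = 0) : S.X v' f' * (S.X v f - 1) = S.X v f - 1 := by
  by_cases hv0 : v = 0
  · rw [hv0, S.zero, sub_self, mul_zero]
  by_cases hf0 : f = 0
  · rw [hf0, tsNs_zero_right, sub_self, mul_zero]
  by_cases hv : LinearIndependent F ![v', v]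
  · by_cases hf : LinearIndependent F ![f', f]
    · exact tsNs_case1 S hA h1 h2 h3 h4 hv hf
    · obtain ⟨c, hc⟩ := tsNs_dep hf0 hf
      rw [hc, ← S.smul c v' f h3]
      by_cases hc0 : c = 0
      · rw [hc0, zero_smul, S.zero, one_mul]
      · exact tsNs_case3 S hA h8 h1 (by rw [map_smul, h3, smul_zero]) hf0
          (tsNs_indep_smul hc0 hv)
  · obtain ⟨c, hc⟩ := tsNs_dep hv0 hv
    rw [hc, S.smul c v f' h4]
    by_cases hf : LinearIndependent F ![f', f]
    · by_cases hc0 : c = 0
      · rw [hc0, zero_smul, tsNs_zero_right, one_mul]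
      · exact tsNs_case2 S hA h8 h1 (by simp [h4]) hv0 (tsNs_indep_smul hc0 hf)
    · obtain ⟨d, hd⟩ := tsNs_dep hf0 hf
      rw [hd, smul_smul]
      exact tsNs_case4 S hA h8 h1 hf0 hv0 _

theorem TS.mul_eq_zero [FiniteDimensional F V] (S : TS F V R) (hA : S.RelA)
    (h8 : 8 ≤ finrank F V) {v v' : V} {f f' : Dual F V} (h1 : f v = 0) (h2 : f' v' = 0)
    (h3 : f v' = 0) (h4 : f' v = 0) : (S.X v f - 1) * (S.X v' f' - 1) = 0 := by
  rw [sub_mul, one_mul, tsNs_all S hA h8 h2 h1 h4 h3, sub_self]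

theorem exists_ns [FiniteDimensional F V] (S : TS F V R) (hA : S.RelA) (h8 : 8 ≤ finrank F V) :
    ∃ N : NS F V R, ∀ v f, f v = 0 → N.N v f = S.X v f - 1 := by
  classical
  refine ⟨{ N := fun v f => if f v = 0 then S.X v f - 1 else 0
            addl := ?_
            addr := ?_
            smul := ?_
            zero := ?_
            br := ?_ }, fun v f h => if_pos h⟩
  · intro v v' f h h'
    have h0 := S.mul_eq_zero hA h8 h h' h' h
    rw [if_pos h, if_pos h', if_pos (by rw [map_add, h, h', add_zero]), S.addl v v' f h h']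
    have h1 : S.X v f * S.X v' f - 1 - (S.X v f - 1 + (S.X v' f - 1)) =
        (S.X v f - 1) * (S.X v' f - 1) := by noncomm_ring
    rw [← sub_eq_zero, h1, h0]
  · intro v f f' h h'
    have h0 := S.mul_eq_zero hA h8 h h' h h'
    rw [if_pos h, if_pos h', if_pos (by rw [LinearMap.add_apply, h, h', add_zero]),
      S.addr v f f' h h']
    have h1 : S.X v f * S.X v f' - 1 - (S.X v f - 1 + (S.X v f' - 1)) =
        (S.X v f - 1) * (S.X v f' - 1) := by noncomm_ring
    rw [← sub_eq_zero, h1, h0]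
  · intro c v f h
    rw [if_pos (by rw [map_smul, h, smul_zero]), if_pos (by rw [LinearMap.smul_apply, h,
      smul_zero]), S.smul c v f h]
  · intro v f v' f' h1 h2 h3 h4
    rw [if_pos h1, if_pos h2]
    exact S.mul_eq_zero hA h8 h1 h2 h3 h4
  · intro v f v' f' h1 h2 h4
    have hg1 : (f v' • f') v = 0 := by rw [LinearMap.smul_apply, h4, smul_zero]
    have hg2 : (f v' • f') v' = 0 := by rw [LinearMap.smul_apply, h2, smul_zero]
    rw [if_pos h1, if_pos h2, if_pos hg1]
    have hr := S.rel v f v' f' h1 h2 h4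
    have hz1 := S.mul_eq_zero hA h8 hg1 h2 hg2 h4
    have hz2 := S.mul_eq_zero hA h8 hg1 h1 hg1 h1
    set n := S.X v (f v' • f') - 1 with hn
    set a := S.X v f - 1 with ha
    set b := S.X v' f' - 1 with hb
    have e1 : S.X v f = 1 + a := by rw [ha]; abel
    have e2 : S.X v' f' = 1 + b := by rw [hb]; abel
    have e3 : S.X v (f v' • f') = 1 + n := by rw [hn]; abel
    rw [e1, e2, e3] at hr
    have h5 : (1 + n) * (1 + b) * (1 + a) = (1 + b) * (1 + a) + n + n * b + n * a + n * b * a := by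
      noncomm_ring
    rw [h5, hz1, hz2, zero_mul, add_zero, add_zero, add_zero] at hr
    have h6 : a * b - b * a = (1 + a) * (1 + b) - (1 + b) * (1 + a) := by noncomm_ring
    rw [h6, hr]
    abel

end Pool.Agent.Lib.MP_b9166b_al.Pt
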