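import Pool.Agent.Lib.MP_b9166b_al.Pt.NsM
import Pool.Agent.Lib.MP_b9166b_al.Pt.TsNs

/-!
# MP_b9166b_al, PT: nilpotent systems are pairs of representations of the matrix ring

`NS.dual`: `N* φ e := - N (ev⁻¹ e) φ` (`ev = evalEquiv F V : V ≃ Dual F (Dual F V)`), a nilpotent system for
`Dual F V`. `M' v q := (dual).M q (ev v)`. Then, with the theorems of NsM for `S.dual` and `finrank (Dual F V) =
finrank V`:
`M'` additive in both, `M' (c•v) q = M' v (c•q)`, `M' v q * M' u h = M' (h v • u) q`,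
`M' v q * N x φ = - M' (φ v • x) q` (`φ x = 0`) (from `M_mul_N`), `N x φ * M' v q = - M' v (q x • φ)` (from `N_mul_M`).
`M u h * M' v q = 0`: `M' v q = N* q e_x * P* ψ e_v = - N x q * (P* ψ e_v)` with `q x = 0`, `ψ x = 1`, `ψ v = 0` and in
addition `h x = 0`; `M u h * N x q = M u (h x • q) = M u 0 = 0`.
`M' v q * M u h = 0`: `M u h = N u f * P w h` with `f u = 0`, `f w = 1`, `h w = 0` and in addition `f v = 0`;
`M' v q * N u f = - M' (f v • u) q = 0`.
`N v q = M v q - M' v q` for `q v = 0`: choose `f, w`, `f v = 0`, `q w = 0`, `f w = 1`: `br` for `(v,f),(w,q)`: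
`N v f * N w q - N w q * N v f = N v q`; the first product is `P v q = M v q`, the second one is
`N* q e_w * N* f e_v = P* q e_v = M* q e_v`.
`m α := ∑ j, M (α (b j)) (b.coord j)`, `m' α := ∑ j, M' (α (b j)) (b.coord j)` for a basis `b`; `m (rk v f) = M v f`.
-/

set_option autoImplicit false

namespace Pool.Agent.Lib.MP_b9166b_al.Pt

open Module

variable {F V R : Type} [Field F] [AddCommGroup V] [Module F V] [Ring R]

section dual

variable [FiniteDimensional F V]

/-- the dual system -/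
noncomputable def NS.dual (S : NS F V R) : NS F (Dual F V) R where
  N φ e := - S.N ((evalEquiv F V).symm e) φ
  addl φ φ' e h h' := by
    rw [← apply_evalEquiv_symm_apply] at h h'
    rw [S.addr _ _ _ h h']
    abel
  addr φ e e' h h' := by
    rw [← apply_evalEquiv_symm_apply] at h h'
    rw [map_add, S.addl _ _ _ h h']
    abel
  smul c φ e h := by
    rw [← apply_evalEquiv_symm_apply] at h
    rw [map_smul, S.smul _ _ _ h]
  zero φ e φ' e' h1 h2 h3 h4 := by
    rw [← apply_evalEquiv_symm_apply] at h1 h2 h3 h4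
    rw [neg_mul_neg, S.zero _ _ _ _ h1 h2 h4 h3]
  br φ e φ' e' h1 h2 h3 := by
    rw [← apply_evalEquiv_symm_apply] at h1 h2 h3
    have h4 := S.br _ _ _ _ h2 h1 h3
    rw [← S.smul _ _ _ h3] at h4
    rw [neg_mul_neg, neg_mul_neg, map_smul, ← apply_evalEquiv_symm_apply, ← h4]
    abel

theorem NS.dual_N (S : NS F V R) (φ : Dual F V) (x : V) :
    S.dual.N φ (evalEquiv F V x) = - S.N x φ := by
  show - S.N ((evalEquiv F V).symm (evalEquiv F V x)) φ = _
  rw [LinearEquiv.symm_apply_apply]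

theorem ev_apply (x : V) (φ : Dual F V) : evalEquiv F V x φ = φ x := rfl

/-- the second matrix units -/
noncomputable def NS.M' (S : NS F V R) (v : V) (q : Dual F V) : R := S.dual.M q (evalEquiv F V v)

theorem dual_le (h8 : 8 ≤ finrank F V) : 8 ≤ finrank F (Dual F V) := by
  rw [Subspace.dual_finrank_eq]
  exact h8

theorem NS.M'_addl (S : NS F V R) (h8 : 8 ≤ finrank F V) (v v' : V) (q : Dual F V) :
    S.M' (v + v') q = S.M' v q + S.M' v' q := by
  unfold NS.M'
  rw [map_add, NS.M_addr S.dual (dual_le h8)]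

theorem NS.M'_addr (S : NS F V R) (h8 : 8 ≤ finrank F V) (v : V) (q q' : Dual F V) :
    S.M' v (q + q') = S.M' v q + S.M' v q' := by
  unfold NS.M'
  rw [NS.M_addl S.dual (dual_le h8)]

theorem NS.M'_smul (S : NS F V R) (h8 : 8 ≤ finrank F V) (c : F) (v : V) (q : Dual F V) :
    S.M' (c • v) q = S.M' v (c • q) := by
  unfold NS.M'
  rw [map_smul, ← NS.M_smul S.dual (dual_le h8)]

theorem NS.M'_mul_M' (S : NS F V R) (h8 : 8 ≤ finrank F V) (v u : V) (q h : Dual F V) :
    S.M' v q * S.M' u h = S.M' (h v • u) q := by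
  rw [S.M'_smul h8]
  unfold NS.M'
  rw [NS.M_mul_M S.dual (dual_le h8), ev_apply]

theorem NS.M'_mul_N (S : NS F V R) (h8 : 8 ≤ finrank F V) (v : V) (q : Dual F V) {x : V}
    {φ : Dual F V} (h : φ x = 0) : S.M' v q * S.N x φ = - S.M' (φ v • x) q := by
  have h1 := NS.M_mul_N S.dual (dual_le h8) (u := φ) (f := evalEquiv F V x)
    (by rw [ev_apply]; exact h) q (evalEquiv F V v)
  rw [NS.dual_N, ev_apply, ← map_smul, mul_neg] at h1
  unfold NS.M'
  rw [← h1, neg_neg]

theorem NS.M_zero_right (S : NS F V R) (h8 : 8 ≤ finrank F V) (v : V) : S.M v 0 = 0 := by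
  have h := S.M_addr h8 v 0 0
  rw [add_zero] at h
  exact left_eq_add.1 h

theorem NS.M'_zero_left (S : NS F V R) (h8 : 8 ≤ finrank F V) (q : Dual F V) : S.M' 0 q = 0 := by
  have h := S.M'_addl h8 0 0 q
  rw [add_zero] at h
  exact left_eq_add.1 h

theorem NS.M_mul_M' (S : NS F V R) (h8 : 8 ≤ finrank F V) (u v : V) (h q : Dual F V) :
    S.M u h * S.M' v q = 0 := by
  obtain ⟨x, ψ, h1, h2, h3⟩ := exists_pair [v] [q, h] (by
    simp only [List.length_cons, List.length_nil]
    omega)
  have hv : ψ v = 0 := h2 v (by simp)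
  have hq : q x = 0 := h3 q (by simp)
  have hh : h x = 0 := h3 h (by simp)
  have h4 : S.M' v q = S.dual.N q (evalEquiv F V x) * S.dual.P ψ (evalEquiv F V v) :=
    NS.M_eq S.dual (dual_le h8) (by rw [ev_apply]; exact hq) (by rw [ev_apply]; exact hv)
      (by rw [ev_apply]; exact h1)
  rw [h4, NS.dual_N, neg_mul, mul_neg, ← mul_assoc, S.M_mul_N h8 hq, hh, zero_smul,
    S.M_zero_right h8, zero_mul, neg_zero]

theorem NS.M'_mul_M (S : NS F V R) (h8 : 8 ≤ finrank F V) (u v : V) (h q : Dual F V) :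
    S.M' v q * S.M u h = 0 := by
  obtain ⟨w, f, h1, h2, h3⟩ := exists_pair [u, v] [h] (by
    simp only [List.length_cons, List.length_nil]
    omega)
  have hu : f u = 0 := h2 u (by simp)
  have hv : f v = 0 := h2 v (by simp)
  have hh : h w = 0 := h3 h (by simp)
  rw [S.M_eq h8 hu hh h1, ← mul_assoc, S.M'_mul_N h8 _ _ hu, hv, zero_smul, S.M'_zero_left h8,
    neg_zero, zero_mul]

theorem NS.N_eq_sub (S : NS F V R) (h8 : 8 ≤ finrank F V) {v : V} {q : Dual F V}
    (hq : q v = 0) : S.N v q = S.M v q - S.M' v q := by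
  obtain ⟨w, f, h1, h2, h3⟩ := exists_pair [v] [q] (by
    simp only [List.length_cons, List.length_nil]
    omega)
  have hv : f v = 0 := h2 v (by simp)
  have hw : q w = 0 := h3 q (by simp)
  have h4 := S.br v f w q hv hw hq
  rw [h1, one_smul] at h4
  have h5 : S.M v q = S.N v f * S.N w q := by
    rw [S.M_eq_P h8 hq, S.P_eq h8 hq hv hw h1]
  have h6 : S.M' v q = S.N w q * S.N v f := by
    unfold NS.M'
    rw [NS.M_eq_P S.dual (dual_le h8) (by rw [ev_apply]; exact hq),
      NS.P_eq S.dual (dual_le h8) (v := q) (w := f) (q := evalEquiv F V v)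
        (f := evalEquiv F V w) (by rw [ev_apply]; exact hq) (by rw [ev_apply]; exact hw)
        (by rw [ev_apply]; exact hv) (by rw [ev_apply]; exact h1),
      NS.dual_N, NS.dual_N, neg_mul_neg]
  rw [h5, h6, h4]

/-- the sum over a basis -/
noncomputable def sm (B : V → Dual F V → R) (α : V →ₗ[F] V) : R :=
  ∑ j, B (α (finBasis F V j)) ((finBasis F V).coord j)

theorem sum_left {ι : Type} (B : V → Dual F V → R) (h1 : ∀ v v' q, B (v + v') q = B v q + B v' q)
    (s : Finset ι) (g : ι → V) (q : Dual F V) : ∑ i ∈ s, B (g i) q = B (∑ i ∈ s, g i) q := by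
  have h0 : B 0 q = 0 := by
    have h := h1 0 0 q
    rw [add_zero] at h
    exact left_eq_add.1 h
  exact (map_sum (⟨⟨fun v => B v q, h0⟩, fun v v' => h1 v v' q⟩ : V →+ R) g s).symm

theorem sum_right {ι : Type} (B : V → Dual F V → R)
    (h2 : ∀ v q q', B v (q + q') = B v q + B v q')
    (s : Finset ι) (g : ι → Dual F V) (v : V) : ∑ i ∈ s, B v (g i) = B v (∑ i ∈ s, g i) := by
  have h0 : B v 0 = 0 := by
    have h := h2 v 0 0
    rw [add_zero] at h
    exact left_eq_add.1 h
  exact (map_sum (⟨⟨fun q => B v q, h0⟩, fun q q' => h2 v q q'⟩ : Dual F V →+ R) g s).symm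

theorem sm_add (B : V → Dual F V → R) (h1 : ∀ v v' q, B (v + v') q = B v q + B v' q)
    (α β : V →ₗ[F] V) : sm B (α + β) = sm B α + sm B β := by
  unfold sm
  rw [← Finset.sum_add_distrib]
  exact Finset.sum_congr rfl fun j _ => by rw [LinearMap.add_apply, h1]

theorem sm_rk (B : V → Dual F V → R) (h2 : ∀ v q q', B v (q + q') = B v q + B v q')
    (h3 : ∀ (c : F) v q, B (c • v) q = B v (c • q)) (v : V) (f : Dual F V) :
    sm B (rk v f) = B v f := by
  unfold sm
  have h4 : ∀ j, B (rk v f (finBasis F V j)) ((finBasis F V).coord j) =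
      B v (f (finBasis F V j) • (finBasis F V).coord j) := by
    intro j
    rw [rk_apply, h3]
  rw [Finset.sum_congr rfl fun j _ => h4 j, sum_right B h2]
  congr 1
  apply LinearMap.ext
  intro x
  rw [LinearMap.sum_apply]
  conv_rhs => rw [← (finBasis F V).sum_repr x, map_sum]
  refine Finset.sum_congr rfl fun j _ => ?_
  rw [LinearMap.smul_apply, map_smul, Basis.coord_apply, smul_eq_mul, smul_eq_mul, mul_comm]

/-- an endomorphism applied to the expansion of a vector -/
theorem sum_expand (α : V →ₗ[F] V) (x : V) :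
    ∑ j, ((finBasis F V).coord j x) • α (finBasis F V j) = α x := by
  conv_rhs => rw [← (finBasis F V).sum_repr x, map_sum]
  refine Finset.sum_congr rfl fun j _ => ?_
  rw [map_smul, Basis.coord_apply]

end dual

theorem exists_mm_of_ns [FiniteDimensional F V] (N : NS F V R) (h8 : 8 ≤ finrank F V) :
    ∃ S : MM F V R, ∀ v f, f v = 0 → N.N v f = S.m (rk v f) - S.m' (rk v f) := by
  refine ⟨{ m := sm N.M, m' := sm N.M', add := ?_, add' := ?_, mul := ?_, mul' := ?_,
            orth := ?_, orth' := ?_ }, ?_⟩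
  · exact sm_add _ (N.M_addl h8)
  · exact sm_add _ (N.M'_addl h8)
  · intro α β
    unfold sm
    rw [Finset.sum_mul_sum, Finset.sum_comm]
    refine Finset.sum_congr rfl fun k _ => ?_
    rw [Finset.sum_congr rfl fun j _ => N.M_mul_M h8 _ _ _ _, sum_left _ (N.M_addl h8),
      sum_expand]
    rfl
  · intro α β
    unfold sm
    rw [Finset.sum_mul_sum]
    refine Finset.sum_congr rfl fun k _ => ?_
    rw [Finset.sum_congr rfl fun j _ => N.M'_mul_M' h8 _ _ _ _, sum_left _ (N.M'_addl h8),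
      sum_expand]
    rfl
  · intro α β
    unfold sm
    rw [Finset.sum_mul_sum]
    exact Finset.sum_eq_zero fun j _ => Finset.sum_eq_zero fun k _ => N.M_mul_M' h8 _ _ _ _
  · intro α β
    unfold sm
    rw [Finset.sum_mul_sum]
    exact Finset.sum_eq_zero fun j _ => Finset.sum_eq_zero fun k _ => N.M'_mul_M h8 _ _ _ _
  · intro v f h
    show N.N v f = sm N.M (rk v f) - sm N.M' (rk v f)
    rw [sm_rk _ (N.M_addr h8) (N.M_smul h8), sm_rk _ (N.M'_addr h8) (N.M'_smul h8)]
    exact N.N_eq_sub h8 h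

/-- **Theorem of Section 2** -/
theorem exists_mm [FiniteDimensional F V] (S : TS F V R) (hA : S.RelA) (h8 : 8 ≤ finrank F V) :
    ∃ T : MM F V R, ∀ v f, f v = 0 → S.X v f = 1 + T.m (rk v f) - T.m' (rk v f) := by
  obtain ⟨N, hN⟩ := exists_ns S hA h8
  obtain ⟨T, hT⟩ := exists_mm_of_ns N h8
  refine ⟨T, fun v f h => ?_⟩
  have h1 := hN v f h
  rw [hT v f h] at h1
  rw [add_sub_assoc, h1, add_sub_cancel]

end Pool.Agent.Lib.MP_b9166b_al.Pt
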