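import Pool.Agent.Lib.MP_b9166b_al.Pt.Lts
import Pool.Agent.Lib.MP_b9166b_al.Pt.NsMm
import Pool.Agent.Lib.MP_b9166b_al.Pt.Ag
import Pool.Agent.Lib.MP_b9166b_al.Pt.Deg

/-!
# MP_b9166b_al, PT: the graded representation of a natural pair (Section 6)

`ℓ.El`: the subgroup generated by all root lifts (it contains `T`). `S.el α β = 1 - m 1 - m' 1 + m α + m' β`.
`Gm ℓ ρ G S`: `W` is graded by `G`, adapted to a series for the whole group, and on the graded space the root lifts come from the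
two representations `m`, `m'` of the matrix ring.

`exists_gm`. `fil`: `Adp.fil` and `Irr.inv1, inv2`. `T`: `T_irr`. So `σ g = comp 0 (ρ g)` is a homomorphism (`comp_mul`) which is trivial on
`T`; `Lay.exists_ts`. `RelA`: let `g, g'` be root lifts of a 2-system: `¬ Dg 2` says that `pr ρ [g, g']` maps `c (i+1)` into `c i` for all `i`,
so `(ρ g - 1) * (ρ g' - 1)` is `Fil 1` and `comp 0` of it is zero. `exists_mm`. `pi`: `MM.form` and `comp_zero_mul` (every `α` is a sum of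
maps `rk v q`; see the proof of `MM.equiv`). `conj`: `MM.equiv` and `Rt.conj`. `el`: `el α β * el α' β' = el (α * α') (β' * β)`, closure induction
(`(1 + rk v f)⁻¹ = 1 - rk v f`; the inverse of a root lift of `(v, f)` is a root lift of `(v, -f)`).
`El_ker`. `g ∈ El ≤ L`, `a g = 1`: `g = t z` (`L_ker`). Take a series, a grading, `S`. `comp 0 (ρ g) = el 1 1 = 1`, so `(ρ g - 1)^l = 0`, `(ρ g)^(p^j) = 1`
for large `j`; `t^(p^j) = 1`; `z' = z^(p^j) = g^(p^j)` (`z` is central) satisfies `ρ z' = 1`, `a z' = 1`, so `z' = 1` by `hZ`, and `z = 1` as `Nat.card Z`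
is prime to `p`.
-/

set_option autoImplicit false

namespace Pool.Agent.Lib.MP_b9166b_al.Pt

open Module

/-- the subgroup generated by the root lifts -/
def Lay.El {p : ℕ} {Γ F V : Type} [Group Γ] [Field F] [AddCommGroup V] [Module F V]
    (ℓ : Lay p Γ F V) : Subgroup Γ :=
  Subgroup.closure {g | ∃ v f, f v = 0 ∧ ℓ.Rt v f g}

/-- the action of a product of root lifts -/
def MM.el {F V R : Type} [Field F] [AddCommGroup V] [Module F V] [Ring R] (S : MM F V R)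
    (α β : V →ₗ[F] V) : R := 1 - S.m 1 - S.m' 1 + S.m α + S.m' β

/-- the graded representation -/
structure Gm {p l : ℕ} {Γ F V K W : Type} [Group Γ] [Field F] [AddCommGroup V] [Module F V]
    [Field K] [AddCommGroup W] [Module K W] (ℓ : Lay p Γ F V) (ρ : Γ →* (W →ₗ[K] W))
    (G : Grd (W →ₗ[K] W) l) (S : MM F V (W →ₗ[K] W)) : Prop where
  fil : ∀ g, G.Fil 0 (ρ g)
  T : ∀ t ∈ ℓ.T, G.Fil 1 (ρ t - 1)
  rt : ∀ v f g, f v = 0 → ℓ.Rt v f g → G.comp 0 (ρ g) = 1 + S.m (rk v f) - S.m' (rk v f)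
  pi : ∀ α i, S.m α * G.π i = G.π i * S.m α ∧ S.m' α * G.π i = G.π i * S.m' α
  conj : ∀ g α, G.comp 0 (ρ g) * S.m α = S.m (ℓ.a g * α * ℓ.a g⁻¹) * G.comp 0 (ρ g) ∧
    G.comp 0 (ρ g) * S.m' α = S.m' (ℓ.a g * α * ℓ.a g⁻¹) * G.comp 0 (ρ g)
  el : ∀ g ∈ ℓ.El, G.comp 0 (ρ g) = S.el (ℓ.a g) (ℓ.a g⁻¹)

variable {p : ℕ} {Γ F V K W : Type} [Group Γ] [Finite Γ] [Field F] [CharP F p] [AddCommGroup V]
  [Module F V] [FiniteDimensional F V] [Field K] [CharP K p] [AddCommGroup W] [Module K W]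
  [FiniteDimensional K W] [Finite W]

theorem El_normal (ℓ : Lay p Γ F V) {g x : Γ} (hg : g ∈ ℓ.El) : x * g * x⁻¹ ∈ ℓ.El := by
  have hN : ℓ.L.Normal := ℓ.norm
  refine Subgroup.closure_induction
    (p := fun g _ => x * g * x⁻¹ ∈ ℓ.El) ?_ ?_ ?_ ?_ hg
  · rintro g ⟨v, f, hf, h1, h2, h3⟩
    refine Subgroup.subset_closure ⟨ℓ.a x v, f ∘ₗ ℓ.a x⁻¹, ?_, hN.conj_mem g h1 x, h2.conj x, ?_⟩
    · rw [LinearMap.comp_apply, ← Module.End.mul_apply, ← map_mul, inv_mul_cancel, map_one,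
        Module.End.one_apply, hf]
    · rw [map_mul, map_mul, h3]
      have h4 : ℓ.a x * ℓ.a x⁻¹ = 1 := by rw [← map_mul, mul_inv_cancel, map_one]
      unfold tv
      rw [mul_add, add_mul, mul_one, h4]
      congr 1
      ext w
      simp [rk]
  · rw [mul_one, mul_inv_cancel]
    exact ℓ.El.one_mem
  · intro g g' _ _ h h'
    have h1 : x * (g * g') * x⁻¹ = (x * g * x⁻¹) * (x * g' * x⁻¹) := by group
    rw [h1]
    exact ℓ.El.mul_mem h h'
  · intro g _ h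
    have h1 : x * g⁻¹ * x⁻¹ = (x * g * x⁻¹)⁻¹ := by group
    rw [h1]
    exact ℓ.El.inv_mem h

theorem El_le (ℓ : Lay p Γ F V) : ℓ.El ≤ ℓ.L := by
  unfold Lay.El
  rw [Subgroup.closure_le]
  rintro g ⟨v, f, _, h1, _, _⟩
  exact h1

theorem T_le_El (hp : p.Prime) (ℓ : Lay p Γ F V) : ℓ.T ≤ ℓ.El := by
  intro t ht
  obtain ⟨h1, h2, h3⟩ := (Lay.mem_T ℓ hp).1 ht
  refine Subgroup.subset_closure ⟨0, 0, rfl, h1, h3, ?_⟩
  rw [h2]
  unfold tv
  ext w
  simp [rk]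

/-- the series is stable -/
theorem gmm_inv {ρ : Γ →* (W →ₗ[K] W)} {l : ℕ} (c : Series ρ ⊤ l) {i : ℕ} (hi : i ≤ l) :
    Inv ρ ⊤ (c.c i) := by
  rcases Nat.lt_or_ge i l with h | h
  · exact (c.irr i h).inv2
  · have h1 : i = l := le_antisymm hi h
    rw [h1, c.top]
    exact fun _ _ _ _ => Submodule.mem_top

section

variable {R : Type} [Ring R]

/-- multiplication of the elements `el` -/
theorem MM.el_mul (S : MM F V R) (α β α' β' : V →ₗ[F] V) :
    S.el α β * S.el α' β' = S.el (α * α') (β' * β) := by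
  have h1 : ∀ γ, S.m 1 * S.m γ = S.m γ := fun γ => by rw [← S.mul, one_mul]
  have h2 : ∀ γ, S.m γ * S.m 1 = S.m γ := fun γ => by rw [← S.mul, mul_one]
  have h3 : ∀ γ, S.m' 1 * S.m' γ = S.m' γ := fun γ => by rw [← S.mul', mul_one]
  have h4 : ∀ γ, S.m' γ * S.m' 1 = S.m' γ := fun γ => by rw [← S.mul', one_mul]
  unfold MM.el
  rw [S.mul α α', S.mul' β' β]
  simp only [sub_mul, mul_sub, add_mul, mul_add, one_mul, mul_one, S.orth, S.orth', h1, h2, h3, h4]
  abel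

theorem MM.el_one (S : MM F V R) : S.el 1 1 = 1 := by
  unfold MM.el
  abel

end

theorem exists_gm (hp : p.Prime) (ℓ : Lay p Γ F V) (ρ : Γ →* (W →ₗ[K] W)) {l : ℕ}
    (h8 : 8 ≤ finrank F V) (hD : ¬ ℓ.Dg ρ 2) (c : Series ρ ⊤ l) (G : Grd (W →ₗ[K] W) l)
    (hG : Adp G c.c) : ∃ S : MM F V (W →ₗ[K] W), Gm ℓ ρ G S := by
  have hfil : ∀ g, G.Fil 0 (ρ g) := by
    intro g
    rw [hG.fil]
    intro i hi w hw
    exact gmm_inv c hi g (Subgroup.mem_top g) w hw
  have hT : ∀ t ∈ ℓ.T, G.Fil 1 (ρ t - 1) := by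
    intro t ht
    rw [hG.fil]
    intro i hi w hw
    rcases Nat.eq_zero_or_pos i with h0 | h0
    · subst h0
      rw [c.zero, Submodule.mem_bot] at hw
      rw [hw, map_zero]
      exact Submodule.zero_mem _
    · obtain ⟨i, rfl⟩ := Nat.exists_eq_succ_of_ne_zero h0.ne'
      exact ℓ.T_irr hp ρ le_top (c.irr i hi) ht hw
  let σ : Γ →* (W →ₗ[K] W) :=
    { toFun := fun g => G.comp 0 (ρ g)
      map_one' := by rw [map_one, G.comp_one]
      map_mul' := fun g g' => by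
        rw [map_mul]
        exact G.comp_mul (hfil g) (hfil g') }
  have hσ : ∀ g, σ g = G.comp 0 (ρ g) := fun g => rfl
  have hσ1 : ∀ g, σ g - 1 = G.comp 0 (ρ g - 1) := by
    intro g
    rw [hσ, sub_eq_add_neg, sub_eq_add_neg (ρ g), G.comp_add, G.comp_neg, G.comp_one]
  have hσT : ∀ t ∈ ℓ.T, σ t = 1 := by
    intro t ht
    rw [← sub_eq_zero, hσ1]
    exact G.comp_eq_zero (hT t ht) one_pos
  obtain ⟨S, hS⟩ := Lay.exists_ts hp ℓ σ hσT
  have hA : S.RelA := by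
    intro v f v' f' hv hv' hfv hfv' hind hind'
    obtain ⟨g, hg⟩ := Lay.Rt.exists ℓ hp hv
    obtain ⟨g', hg'⟩ := Lay.Rt.exists ℓ hp hv'
    rw [hS v f g hv hg, hS v' f' g' hv' hg', hσ1, hσ1]
    have hf1 : ∀ g, G.Fil 0 (ρ g - 1) := by
      intro g
      rw [sub_eq_add_neg]
      exact Grd.Fil.add G (hfil g) (Grd.Fil.neg G G.fil_one)
    have hprod : G.Fil 1 ((ρ g - 1) * (ρ g' - 1)) := by
      rw [hG.fil]
      intro i hi w hw
      rcases Nat.eq_zero_or_pos i with h0 | h0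
      · subst h0
        rw [c.zero, Submodule.mem_bot] at hw
        rw [hw, map_zero]
        exact Submodule.zero_mem _
      · obtain ⟨i, rfl⟩ := Nat.exists_eq_succ_of_ne_zero h0.ne'
        by_contra hcon
        refine hD ⟨c.c (i + 1), c.c i, c.irr i hi, ![v, v'], ![f, f'], ![g, g'],
          ⟨?_, hind, hind'⟩, ?_, w, hw, ?_⟩
        · intro a b
          fin_cases a <;> fin_cases b
          · exact hv
          · exact hfv
          · exact hfv'
          · exact hv'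
        · intro a
          fin_cases a
          · exact hg
          · exact hg'
        · have h5 : pr ρ (List.ofFn ![g, g']) = (ρ g - 1) * (ρ g' - 1) := by
            simp [pr, List.ofFn_succ]
          rw [h5]
          exact hcon
    have h6 : G.comp 0 (ρ g - 1) * G.comp 0 (ρ g' - 1) =
        G.comp (0 + 0) ((ρ g - 1) * (ρ g' - 1)) := (G.comp_mul (hf1 g) (hf1 g')).symm
    rw [h6]
    exact G.comp_eq_zero hprod one_pos
  obtain ⟨M, hM⟩ := exists_mm S hA h8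
  have hrt : ∀ v f g, f v = 0 → ℓ.Rt v f g →
      G.comp 0 (ρ g) = 1 + M.m (rk v f) - M.m' (rk v f) := by
    intro v f g hf hg
    rw [← hσ, ← hS v f g hf hg]
    exact hM v f hf
  have hN : ∀ v f g, f v = 0 → ℓ.Rt v f g → M.N v f = σ g - 1 := by
    intro v f g hf hg
    rw [hσ, hrt v f g hf hg]
    unfold MM.N
    abel
  refine ⟨M, ⟨hfil, hT, hrt, ?_, ?_, ?_⟩⟩
  · intro α i
    have h1 := M.equiv h8 (LinearEquiv.refl F V) (G.π i) (fun v f hf => by
      obtain ⟨g, hg⟩ := Lay.Rt.exists ℓ hp hf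
      have h2 : (f ∘ₗ (LinearEquiv.refl F V).symm.toLinearMap) = f := by
        ext w
        rfl
      rw [h2, LinearEquiv.refl_apply, hN v f g hf hg, hσ, mul_sub, sub_mul, mul_one, one_mul,
        G.comp_zero_mul]) α
    have h2 : cj (LinearEquiv.refl F V) α = α := by
      ext w
      rfl
    rw [h2] at h1
    exact ⟨h1.1.symm, h1.2.symm⟩
  · intro x α
    have e1 : ℓ.a x * ℓ.a x⁻¹ = 1 := by rw [← map_mul, mul_inv_cancel, map_one]
    have e2 : ℓ.a x⁻¹ * ℓ.a x = 1 := by rw [← map_mul, inv_mul_cancel, map_one]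
    let u : V ≃ₗ[F] V := LinearEquiv.ofLinearMap (ℓ.a x) (ℓ.a x⁻¹) e1 e2
    have hu1 : u.toLinearMap = ℓ.a x := rfl
    have hu2 : u.symm.toLinearMap = ℓ.a x⁻¹ := rfl
    have h1 := M.equiv h8 u (G.comp 0 (ρ x)) (fun v f hf => by
      obtain ⟨g, hg⟩ := Lay.Rt.exists ℓ hp hf
      have h2 := Lay.Rt.conj ℓ hp hg x
      have h3 : (f ∘ₗ ℓ.a x⁻¹) (ℓ.a x v) = 0 := by
        rw [LinearMap.comp_apply, ← Module.End.mul_apply, e2, Module.End.one_apply, hf]
      rw [hu2]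
      change _ = M.N (ℓ.a x v) _ * _
      rw [hN v f g hf hg, hN _ _ _ h3 h2, ← hσ, mul_sub, sub_mul, mul_one, one_mul, ← map_mul,
        ← map_mul, inv_mul_cancel_right]) α
    have h2 : cj u α = ℓ.a x * α * ℓ.a x⁻¹ := by
      ext w
      rfl
    rw [h2] at h1
    exact h1
  · intro g hg
    refine Subgroup.closure_induction
      (p := fun g _ => G.comp 0 (ρ g) = M.el (ℓ.a g) (ℓ.a g⁻¹)) ?_ ?_ ?_ ?_ hg
    · rintro g ⟨v, f, hf, hg⟩
      have h1 : ℓ.a g = 1 + rk v f := hg.2.2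
      have h2 : rk v f * rk v f = 0 := by
        rw [rk_mul_rk, hf, zero_smul]
      have h3 : ℓ.a g⁻¹ = 1 - rk v f := by
        have h4 : ℓ.a g * ℓ.a g⁻¹ = 1 := by rw [← map_mul, mul_inv_cancel, map_one]
        have h5 : (1 - rk v f) * ℓ.a g = 1 := by
          rw [h1, sub_mul, mul_add, mul_add, h2]
          simp
        calc ℓ.a g⁻¹ = ((1 - rk v f) * ℓ.a g) * ℓ.a g⁻¹ := by rw [h5, one_mul]
          _ = 1 - rk v f := by rw [mul_assoc, h4, mul_one]
      have h6 : M.m' (1 - rk v f) = M.m' 1 - M.m' (rk v f) := by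
        have h7 := M.add' (1 - rk v f) (rk v f)
        rw [sub_add_cancel] at h7
        rw [h7, add_sub_cancel_right]
      rw [hrt v f g hf hg, h1, h3]
      unfold MM.el
      rw [M.add, h6]
      abel
    · rw [map_one, inv_one, map_one, G.comp_one, M.el_one]
    · intro g g' _ _ h h'
      rw [mul_inv_rev, map_mul ℓ.a g g', map_mul ℓ.a, ← M.el_mul, ← h, ← h', ← hσ, ← hσ, ← hσ,
        map_mul]
    · intro g _ h
      have e1 : ℓ.a g * ℓ.a g⁻¹ = 1 := by rw [← map_mul, mul_inv_cancel, map_one]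
      have h1 : M.el (ℓ.a g) (ℓ.a g⁻¹) * M.el (ℓ.a g⁻¹) (ℓ.a g) = 1 := by
        rw [M.el_mul, e1, M.el_one]
      have h2 : σ g⁻¹ * σ g = 1 := by rw [← map_mul, inv_mul_cancel, map_one]
      rw [inv_inv, ← hσ]
      rw [← hσ] at h
      calc σ g⁻¹ = σ g⁻¹ * (M.el (ℓ.a g) (ℓ.a g⁻¹) * M.el (ℓ.a g⁻¹) (ℓ.a g)) := by
            rw [h1, mul_one]
        _ = (σ g⁻¹ * σ g) * M.el (ℓ.a g⁻¹) (ℓ.a g) := by rw [h, mul_assoc]
        _ = M.el (ℓ.a g⁻¹) (ℓ.a g) := by rw [h2, one_mul]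

theorem El_ker (hp : p.Prime) (ℓ : Lay p Γ F V) (ρ : Γ →* (W →ₗ[K] W)) (h8 : 8 ≤ finrank F V)
    (hD : ¬ ℓ.Dg ρ 2) (hZ : ∀ z ∈ ℓ.Z, ℓ.a z = 1 → ρ z = 1 → z = 1) {g : Γ} (hg : g ∈ ℓ.El)
    (h1 : ℓ.a g = 1) : g ∈ ℓ.T := by
  have hfp : Fact p.Prime := ⟨hp⟩
  obtain ⟨t, ht, z, hz, hgz⟩ := ℓ.L_ker hp (El_le ℓ hg) h1
  obtain ⟨htL, hta, i, hi⟩ := (Lay.mem_T ℓ hp).1 ht
  have hcz : Commute t z := (Subgroup.mem_center_iff.1 (ℓ.cen hz) t)
  have hza : ℓ.a z = 1 := by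
    rw [hgz, map_mul, hta, one_mul] at h1
    exact h1
  have hgp : ∃ j : ℕ, ρ g ^ p ^ j = 1 := by
    obtain ⟨l, ⟨c⟩⟩ := exists_series ρ ⊤
    obtain ⟨G, hG, _⟩ := exists_grd c.zero c.top (fun i hi => (c.irr i hi).lt.le) 1 (n := 1)
      (one_pow 1) (by rw [Nat.cast_one]; exact one_ne_zero) (fun _ _ _ hw => hw)
    obtain ⟨S, hS⟩ := exists_gm hp ℓ ρ h8 hD c G hG
    have h2 : G.comp 0 (ρ g) = 1 := by
      have h3 : ℓ.a g⁻¹ = 1 := by
        have h4 : ℓ.a g * ℓ.a g⁻¹ = 1 := by rw [← map_mul, mul_inv_cancel, map_one]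
        rwa [h1, one_mul] at h4
      rw [hS.el g hg, h3, h1, S.el_one]
    have h3 : G.Fil 1 (ρ g - 1) := by
      have h4 : G.Fil 0 (ρ g - 1) := by
        rw [sub_eq_add_neg]
        exact Grd.Fil.add G (hS.fil g) (Grd.Fil.neg G G.fil_one)
      refine Grd.Fil.succ G h4 ?_
      rw [sub_eq_add_neg, G.comp_add, G.comp_neg, G.comp_one, h2, add_neg_cancel]
    have h4 : ∀ n : ℕ, G.Fil n ((ρ g - 1) ^ n) := by
      intro n
      induction n with
      | zero =>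
        rw [pow_zero]
        exact G.fil_one
      | succ n ih =>
        rw [pow_succ]
        exact Grd.Fil.mul G ih h3
    have h5 : (ρ g - 1) ^ l = 0 := Grd.Fil.eq_zero G (h4 l)
    obtain ⟨j, hj⟩ : ∃ j : ℕ, l ≤ p ^ j := ⟨l, (Nat.lt_pow_self hp.one_lt).le⟩
    refine ⟨j, ?_⟩
    have h6 : (ρ g - 1) ^ p ^ j = 0 := pow_eq_zero_of_le hj h5
    rcases subsingleton_or_nontrivial W with hW | hW
    · exact LinearMap.ext fun w => Subsingleton.elim _ _
    · have hch : CharP (Module.End K W) p :=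
        charP_of_injective_algebraMap (algebraMap K (Module.End K W)).injective p
      have h7 := sub_pow_char_pow_of_commute (R := Module.End K W) (p := p) j (x := ρ g) (y := 1)
        (Commute.one_right _)
      rw [one_pow] at h7
      have h8 : ρ g ^ p ^ j - 1 = 0 := by
        rw [← h6]
        exact h7.symm
      exact sub_eq_zero.1 h8
  obtain ⟨j, hj⟩ := hgp
  have hz1 : z ^ p ^ (i + j) = 1 := by
    have e1 : g ^ p ^ (i + j) = z ^ p ^ (i + j) := by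
      have e2 : t ^ p ^ (i + j) = 1 := by rw [pow_add, pow_mul, hi, one_pow]
      rw [hgz, hcz.mul_pow, e2, one_mul]
    refine hZ _ (ℓ.Z.pow_mem hz _) ?_ ?_
    · rw [map_pow, hza, one_pow]
    · rw [← e1, map_pow, add_comm, pow_add, pow_mul, hj, one_pow]
  have hz2 : z = 1 := by
    refine Pw.eq_one ⟨_, hz1⟩ ?_
    have h3 : orderOf z ∣ Nat.card ℓ.Z := by
      have h4 := orderOf_dvd_natCard (⟨z, hz⟩ : ℓ.Z)
      rwa [Subgroup.orderOf_mk] at h4
    exact Nat.Coprime.coprime_dvd_left h3 ℓ.cop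
  rw [hgz, hz2, mul_one]
  exact ht

end Pool.Agent.Lib.MP_b9166b_al.Pt
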