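import Mathlib

/-!
# MP_b9166b_al, PT: general position (3.1)

`PRep 𝔽 A`: `A : 𝔽 → End V` is a projective representation of the finite group `𝔽` (up to scalars). `R`: every `A g`, `g ≠ 1`, differs
from every scalar by rank `≥ R`.

`exists_gp`: choose `e 0, e 1, ..` successively. Given `e 0, .., e (j-1)` let `S` be the span of all `A h (e i)`, `i < j`: stable under all
`A g`, `dim S ≤ card 𝔽 * j`. Bad vectors: `x` with `c₁ x + c₂ A g x ∈ S`, `(c₁,c₂) ≠ 0`, for some `g ≠ 1`. If `c₂ = 0` then `x ∈ S`, and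
then `(A g - c) x ∈ S` too; so `x` is bad iff `(A g - c) x ∈ S` for some `g ≠ 1` and `c : F`. For fixed `g, c` this is a subspace of
codimension `≥ R - dim S`. There are at most `card 𝔽 * card F` such subspaces, and `card 𝔽 * card F < (card F)^(R - dim S)` as
`R - dim S ≥ card 𝔽 + 1` and `(card F)^(card 𝔽) ≥ 2^(card 𝔽) > card 𝔽`. So there is a good vector.
-/

set_option autoImplicit false

namespace Pool.Agent.Lib.MP_b9166b_al.Pt

open Module

/-- projective representations -/
structure PRep {𝔽 F V : Type} [Group 𝔽] [Field F] [AddCommGroup V] [Module F V]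
    (A : 𝔽 → (V →ₗ[F] V)) : Prop where
  one : ∃ c : F, c ≠ 0 ∧ A 1 = c • 1
  mul : ∀ g h, ∃ c : F, c ≠ 0 ∧ A g * A h = c • A (g * h)

/-- dimension of a preimage -/
theorem Gp_comap {F V : Type} [Field F] [AddCommGroup V] [Module F V] [FiniteDimensional F V]
    (f : V →ₗ[F] V) (S : Submodule F V) :
    finrank F (S.comap f) ≤ finrank F (LinearMap.ker f) + finrank F S := by
  obtain ⟨g, hg⟩ : ∃ g : (S.comap f) →ₗ[F] S, ∀ x, (g x : V) = f x :=
    ⟨f.restrict (fun x hx => hx), fun x => rfl⟩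
  have h1 := LinearMap.finrank_range_add_finrank_ker g
  have h2 : finrank F (LinearMap.range g) ≤ finrank F S := Submodule.finrank_le _
  have h3 : finrank F (LinearMap.ker g) ≤ finrank F (LinearMap.ker f) := by
    obtain ⟨u, hu⟩ : ∃ u : (LinearMap.ker g) →ₗ[F] (LinearMap.ker f), ∀ x, (u x : V) = (x : V) :=
      ⟨((S.comap f).subtype.comp (LinearMap.ker g).subtype).codRestrict (LinearMap.ker f) (by
        intro x
        have h4 : g x = 0 := x.2
        rw [LinearMap.mem_ker]
        have h5 := hg x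
        rw [h4] at h5
        exact h5.symm), fun x => rfl⟩
    refine LinearMap.finrank_le_finrank_of_injective (f := u) ?_
    intro x y hxy
    have h4 : (u x : V) = (u y : V) := by rw [hxy]
    rw [hu, hu] at h4
    exact Subtype.ext (Subtype.ext h4)
  omega

/-- one step -/
theorem Gp_step {𝔽 F V : Type} [Group 𝔽] [Finite 𝔽] [Field F] [Finite F] [AddCommGroup V]
    [Module F V] [FiniteDimensional F V] {A : 𝔽 → (V →ₗ[F] V)} {R k : ℕ}
    (hR : Nat.card 𝔽 * k + Nat.card 𝔽 + 1 ≤ R)
    (h : ∀ g, g ≠ 1 → ∀ c : F, R ≤ finrank F (LinearMap.range (A g - c • (1 : V →ₗ[F] V))))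
    (S : Submodule F V) (hS : ∀ g, ∀ x ∈ S, A g x ∈ S) (hk : finrank F S ≤ Nat.card 𝔽 * k) :
    ∃ x : V, ∀ g, g ≠ 1 → ∀ c₁ c₂ : F, c₁ • x + c₂ • A g x ∈ S → c₁ = 0 ∧ c₂ = 0 := by
  classical
  by_cases htr : ∃ g : 𝔽, g ≠ 1
  swap
  · exact ⟨0, fun g hg => absurd ⟨g, hg⟩ htr⟩
  obtain ⟨g₀, hg₀⟩ := htr
  have hfin : Finite V := Module.finite_of_finite F
  let _ := Fintype.ofFinite 𝔽
  let _ := Fintype.ofFinite F
  let _ := Fintype.ofFinite V
  -- the bad subspaces
  obtain ⟨B, hB⟩ : ∃ B : 𝔽 × F → Submodule F V,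
      ∀ i, B i = S.comap (A i.1 - i.2 • (1 : V →ₗ[F] V)) := ⟨_, fun _ => rfl⟩
  have hRn : R ≤ finrank F V := (h g₀ hg₀ 0).trans (Submodule.finrank_le _)
  have hdim : ∀ i : 𝔽 × F, i.1 ≠ 1 → finrank F (B i) ≤ finrank F V - (Nat.card 𝔽 + 1) := by
    intro i hi
    have h1 := Gp_comap (A i.1 - i.2 • (1 : V →ₗ[F] V)) S
    have h2 := LinearMap.finrank_range_add_finrank_ker (A i.1 - i.2 • (1 : V →ₗ[F] V))
    have h3 := h i.1 hi i.2
    rw [hB]
    omega
  have hq : 2 ≤ Fintype.card F := Fintype.one_lt_card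
  -- number of bad vectors
  obtain ⟨I, hI⟩ : ∃ I : Finset (𝔽 × F), I = Finset.univ.filter (fun i => i.1 ≠ 1) := ⟨_, rfl⟩
  have hcard : (I.biUnion fun i => Finset.univ.filter fun x : V => x ∈ B i).card <
      (Finset.univ : Finset V).card := by
    have h1 : ∀ i ∈ I, (Finset.univ.filter fun x : V => x ∈ B i).card ≤
        Fintype.card F ^ (finrank F V - (Nat.card 𝔽 + 1)) := by
      intro i hi
      rw [hI, Finset.mem_filter] at hi
      have h2 : (Finset.univ.filter fun x : V => x ∈ B i).card = Fintype.card (B i) := by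
        rw [Fintype.card_subtype]
      rw [h2, Module.card_eq_pow_finrank (K := F) (V := B i)]
      exact Nat.pow_le_pow_right (by omega) (hdim i hi.2)
    have h2 : I.card ≤ Fintype.card 𝔽 * Fintype.card F := by
      rw [hI]
      refine (Finset.card_filter_le _ _).trans ?_
      rw [Finset.card_univ, Fintype.card_prod]
    have h3 : (I.biUnion fun i => Finset.univ.filter fun x : V => x ∈ B i).card ≤
        (Fintype.card 𝔽 * Fintype.card F) *
          Fintype.card F ^ (finrank F V - (Nat.card 𝔽 + 1)) := by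
      refine Finset.card_biUnion_le.trans ?_
      refine (Finset.sum_le_card_nsmul _ _ _ h1).trans ?_
      rw [smul_eq_mul]
      exact Nat.mul_le_mul_right _ h2
    refine h3.trans_lt ?_
    rw [Finset.card_univ, Module.card_eq_pow_finrank (K := F) (V := V), Nat.card_eq_fintype_card]
    rw [Nat.card_eq_fintype_card] at hR
    have h4 : finrank F V = Fintype.card 𝔽 + (1 + (finrank F V - (Fintype.card 𝔽 + 1))) := by
      omega
    have h5 : Fintype.card 𝔽 < Fintype.card F ^ Fintype.card 𝔽 :=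
      Nat.lt_pow_self (by omega)
    calc Fintype.card 𝔽 * Fintype.card F * Fintype.card F ^ (finrank F V - (Fintype.card 𝔽 + 1))
        = Fintype.card 𝔽 * (Fintype.card F ^ (1 + (finrank F V - (Fintype.card 𝔽 + 1)))) := by
          rw [pow_add, pow_one, mul_assoc]
      _ < Fintype.card F ^ Fintype.card 𝔽 *
          (Fintype.card F ^ (1 + (finrank F V - (Fintype.card 𝔽 + 1)))) :=
          Nat.mul_lt_mul_of_pos_right h5 (by positivity)
      _ = Fintype.card F ^ finrank F V := by
          rw [← pow_add, ← h4]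
  obtain ⟨x, -, hx⟩ := Finset.exists_mem_notMem_of_card_lt_card hcard
  refine ⟨x, ?_⟩
  have hbad : ∀ g, g ≠ 1 → ∀ c : F, A g x - c • x ∉ S := by
    intro g hg c hmem
    apply hx
    rw [Finset.mem_biUnion]
    refine ⟨(g, c), ?_, ?_⟩
    · rw [hI, Finset.mem_filter]
      exact ⟨Finset.mem_univ _, hg⟩
    · rw [Finset.mem_filter, hB, Submodule.mem_comap]
      refine ⟨Finset.mem_univ _, ?_⟩
      rw [LinearMap.sub_apply, LinearMap.smul_apply, Module.End.one_apply]
      exact hmem
  intro g hg c₁ c₂ hmem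
  by_cases hc₂ : c₂ = 0
  · refine ⟨?_, hc₂⟩
    by_contra hc₁
    rw [hc₂, zero_smul, add_zero] at hmem
    have hxS : x ∈ S := (Submodule.smul_mem_iff _ hc₁).mp hmem
    apply hbad g hg 0
    rw [zero_smul, sub_zero]
    exact hS g x hxS
  · exfalso
    apply hbad g hg (-(c₂⁻¹ * c₁))
    have h1 := S.smul_mem c₂⁻¹ hmem
    rw [smul_add, smul_smul, smul_smul, inv_mul_cancel₀ hc₂, one_smul] at h1
    rw [neg_smul, sub_neg_eq_add, add_comm]
    exact h1

theorem exists_gp {𝔽 F V : Type} [Group 𝔽] [Finite 𝔽] [Field F] [Finite F] [AddCommGroup V]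
    [Module F V] [FiniteDimensional F V] {A : 𝔽 → (V →ₗ[F] V)} (hA : PRep A) {R k : ℕ}
    (hR : Nat.card 𝔽 * k + Nat.card 𝔽 + 1 ≤ R)
    (h : ∀ g, g ≠ 1 → ∀ c : F, R ≤ finrank F (LinearMap.range (A g - c • (1 : V →ₗ[F] V)))) :
    ∃ e : Fin k → V, ∀ j, ∀ g, g ≠ 1 → ∀ c₁ c₂ : F,
      c₁ • e j + c₂ • A g (e j) ∈ Submodule.span F {x | ∃ i < j, ∃ h, x = A h (e i)} →
        c₁ = 0 ∧ c₂ = 0 := by
  classical
  let _ := Fintype.ofFinite 𝔽
  have key : ∀ m, m ≤ k → ∃ e : ℕ → V, ∀ j < m, ∀ g, g ≠ 1 → ∀ c₁ c₂ : F,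
      c₁ • e j + c₂ • A g (e j) ∈ Submodule.span F {x | ∃ i < j, ∃ h, x = A h (e i)} →
        c₁ = 0 ∧ c₂ = 0 := by
    intro m
    induction m with
    | zero => exact fun _ => ⟨fun _ => 0, fun j hj => absurd hj (Nat.not_lt_zero j)⟩
    | succ m ih =>
      intro hm
      obtain ⟨e, he⟩ := ih (by omega)
      obtain ⟨S, hSdef⟩ : ∃ S : Submodule F V,
          S = Submodule.span F {x | ∃ i < m, ∃ h, x = A h (e i)} := ⟨_, rfl⟩
      have hS : ∀ g : 𝔽, ∀ x : V, x ∈ S → A g x ∈ S := by
        intro g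
        have h1 : S ≤ S.comap (A g) := by
          rw [hSdef, Submodule.span_le]
          rintro x ⟨i, hi, a, rfl⟩
          rw [SetLike.mem_coe, Submodule.mem_comap]
          obtain ⟨c, -, hc⟩ := hA.mul g a
          have h2 : A g (A a (e i)) = c • A (g * a) (e i) := by
            have h3 := LinearMap.congr_fun hc (e i)
            exact h3
          rw [h2]
          exact Submodule.smul_mem _ _ (Submodule.subset_span ⟨i, hi, g * a, rfl⟩)
        exact fun x hx => h1 hx
      have hfr : finrank F S ≤ Nat.card 𝔽 * k := by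
        have h1 : {x | ∃ i < m, ∃ h, x = A h (e i)} ⊆
            Set.range (fun z : Fin m × 𝔽 => A z.2 (e z.1)) := by
          rintro x ⟨i, hi, a, rfl⟩
          exact ⟨(⟨i, hi⟩, a), rfl⟩
        have h2 : finrank F S ≤
            finrank F (Submodule.span F (Set.range (fun z : Fin m × 𝔽 => A z.2 (e z.1)))) := by
          rw [hSdef]
          exact Submodule.finrank_mono (Submodule.span_mono h1)
        have h3 := finrank_range_le_card (R := F) (fun z : Fin m × 𝔽 => A z.2 (e z.1))
        rw [Fintype.card_prod, Fintype.card_fin] at h3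
        rw [Nat.card_eq_fintype_card]
        calc finrank F S ≤ m * Fintype.card 𝔽 := h2.trans h3
          _ ≤ k * Fintype.card 𝔽 := Nat.mul_le_mul_right _ (by omega)
          _ = Fintype.card 𝔽 * k := Nat.mul_comm _ _
      obtain ⟨x, hx⟩ := Gp_step hR h S hS hfr
      refine ⟨Function.update e m x, ?_⟩
      intro j hj
      have hset : {y | ∃ i < j, ∃ h, y = A h (Function.update e m x i)} =
          {y | ∃ i < j, ∃ h, y = A h (e i)} := by
        ext y
        constructor
        · rintro ⟨i, hi, a, hy⟩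
          rw [Function.update_of_ne (by omega)] at hy
          exact ⟨i, hi, a, hy⟩
        · rintro ⟨i, hi, a, hy⟩
          refine ⟨i, hi, a, ?_⟩
          rw [Function.update_of_ne (by omega)]
          exact hy
      rw [hset]
      by_cases hjm : j = m
      · subst hjm
        rw [Function.update_self]
        rw [hSdef] at hx
        exact hx
      · rw [Function.update_of_ne hjm]
        exact he j (by omega)
  obtain ⟨e, he⟩ := key k le_rfl
  refine ⟨fun j => e j, ?_⟩
  intro j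
  have hset : {x | ∃ i < j, ∃ h, x = A h (e i)} = {x | ∃ i < (j : ℕ), ∃ h, x = A h (e i)} := by
    ext y
    constructor
    · rintro ⟨i, hi, a, hy⟩
      exact ⟨i, hi, a, hy⟩
    · rintro ⟨i, hi, a, hy⟩
      exact ⟨⟨i, hi.trans j.2⟩, hi, a, hy⟩
  rw [hset]
  exact he j j.2

end Pool.Agent.Lib.MP_b9166b_al.Pt
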