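import Mathlib

/-!
# MP_b9166b_al, PT: transvection systems in a ring

`V` a vector space over `F`. For `v : V`, `f : Dual F V` with `f v = 0` the transvection `t(v,f)` is
`LinearMap.transvection f v = 1 + f.smulRight v`. `TS`: elements `X v f` of a ring `R` which satisfy the
relations of the transvections (only pairs with `f v = 0` matter); `RelA`: the product of `X v f - 1` and
`X v' f' - 1` is zero for two independent commuting transvections. `MM`: two representations of the
matrix ring (a ring homomorphism `m`, not unital, and an anti-homomorphism `m'`, orthogonal to each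
other). The theorem of Section 2 of the paper proof (h46_ptype.md): a system with `RelA` comes
from an `MM`, `X v f - 1 = m (v ⊗ f) - m' (v ⊗ f)`.
-/

set_option autoImplicit false

namespace Pool.Agent.Lib.MP_b9166b_al.Pt

open Module

variable {F V R : Type} [Field F] [AddCommGroup V] [Module F V] [Ring R]

/-- the rank one map `w ↦ f w • v` -/
def rk (v : V) (f : Dual F V) : V →ₗ[F] V := f.smulRight v

@[simp] theorem rk_apply (v w : V) (f : Dual F V) : rk v f w = f w • v := rfl

/-- a transvection system -/
structure TS (F V R : Type) [Field F] [AddCommGroup V] [Module F V] [Ring R] where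
  X : V → Dual F V → R
  zero : ∀ f, X 0 f = 1
  addl : ∀ v v' f, f v = 0 → f v' = 0 → X (v + v') f = X v f * X v' f
  addr : ∀ v f f', f v = 0 → f' v = 0 → X v (f + f') = X v f * X v f'
  smul : ∀ (c : F) v f, f v = 0 → X (c • v) f = X v (c • f)
  comm : ∀ v f v' f', f v = 0 → f' v' = 0 → f v' = 0 → f' v = 0 →
    X v f * X v' f' = X v' f' * X v f
  rel : ∀ v f v' f', f v = 0 → f' v' = 0 → f' v = 0 →
    X v f * X v' f' = X v (f v' • f') * X v' f' * X v f

/-- products of two independent commuting ones vanish -/
def TS.RelA (S : TS F V R) : Prop :=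
  ∀ v f v' f', f v = 0 → f' v' = 0 → f v' = 0 → f' v = 0 → LinearIndependent F ![v, v'] →
    LinearIndependent F ![f, f'] → (S.X v f - 1) * (S.X v' f' - 1) = 0

/-- a nilpotent system -/
structure NS (F V R : Type) [Field F] [AddCommGroup V] [Module F V] [Ring R] where
  N : V → Dual F V → R
  addl : ∀ v v' f, f v = 0 → f v' = 0 → N (v + v') f = N v f + N v' f
  addr : ∀ v f f', f v = 0 → f' v = 0 → N v (f + f') = N v f + N v f'
  smul : ∀ (c : F) v f, f v = 0 → N (c • v) f = N v (c • f)
  zero : ∀ v f v' f', f v = 0 → f' v' = 0 → f v' = 0 → f' v = 0 → N v f * N v' f' = 0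
  br : ∀ v f v' f', f v = 0 → f' v' = 0 → f' v = 0 →
    N v f * N v' f' - N v' f' * N v f = N v (f v' • f')

/-- two orthogonal representations of the matrix ring, the second one an anti-homomorphism -/
structure MM (F V R : Type) [Field F] [AddCommGroup V] [Module F V] [Ring R] where
  m : (V →ₗ[F] V) → R
  m' : (V →ₗ[F] V) → R
  add : ∀ α β, m (α + β) = m α + m β
  add' : ∀ α β, m' (α + β) = m' α + m' β
  mul : ∀ α β, m (α * β) = m α * m β
  mul' : ∀ α β, m' (α * β) = m' β * m' α
  orth : ∀ α β, m α * m' β = 0
  orth' : ∀ α β, m' α * m β = 0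

end Pool.Agent.Lib.MP_b9166b_al.Pt
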