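import Pool.Agent.Lib.MP_b9166b_al.Pt.Grd
import Pool.Agent.Lib.MP_b9166b_al.Pt.TsDefs

/-!
# MP_b9166b_al, PT: growth, auxiliary statements

Dimension counts, the block diagonal part, and one half of the growth estimate (for one
representation `μ` of a ring).
-/

set_option autoImplicit false

namespace Pool.Agent.Lib.MP_b9166b_al.Pt

open Module

section dim

variable {K W : Type} [Field K] [AddCommGroup W] [Module K W] [FiniteDimensional K W]

theorem grA_le (A B C : Submodule K W) (g : W →ₗ[K] W) (h1 : ∀ w ∈ A, g w ∈ B)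
    (h2 : ∀ w ∈ A, g w = 0 → w ∈ C) : finrank K A ≤ finrank K B + finrank K C := by
  have h3 := LinearMap.finrank_range_add_finrank_ker (g.domRestrict A)
  have h4 : finrank K (LinearMap.range (g.domRestrict A)) ≤ finrank K B := by
    refine Submodule.finrank_mono ?_
    rintro _ ⟨w, rfl⟩
    exact h1 w w.2
  have h5 : finrank K (LinearMap.ker (g.domRestrict A)) ≤ finrank K C := by
    rw [← Submodule.finrank_map_subtype_eq]
    refine Submodule.finrank_mono ?_
    rintro _ ⟨w, hw, rfl⟩
    exact h2 w w.2 hw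
  omega

theorem grA_ge (A B C : Submodule K W) (g : W →ₗ[K] W) (h1 : ∀ w ∈ B, ∃ a ∈ A, g a = w)
    (h2 : ∀ w ∈ C, w ∈ A ∧ g w = 0) : finrank K B + finrank K C ≤ finrank K A := by
  have h3 := LinearMap.finrank_range_add_finrank_ker (g.domRestrict A)
  have h4 : finrank K B ≤ finrank K (LinearMap.range (g.domRestrict A)) := by
    refine Submodule.finrank_mono ?_
    intro w hw
    obtain ⟨a, ha, h⟩ := h1 w hw
    exact ⟨⟨a, ha⟩, h⟩
  have h5 : finrank K C ≤ finrank K (LinearMap.ker (g.domRestrict A)) := by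
    rw [← Submodule.finrank_map_subtype_eq]
    refine Submodule.finrank_mono ?_
    intro w hw
    exact ⟨⟨w, (h2 w hw).1⟩, (h2 w hw).2, rfl⟩
  omega

/-- a nilpotent operator has a large kernel -/
theorem grA_nil (E : Submodule K W) (N : W →ₗ[K] W) (hN : ∀ w ∈ E, N w ∈ E) (P : ℕ)
    (hP : ∀ w ∈ E, (N ^ P) w = 0) :
    finrank K E ≤ P * finrank K (E ⊓ LinearMap.ker N : Submodule K W) := by
  have hNi : ∀ (i : ℕ), ∀ w ∈ E, (N ^ i) w ∈ E := by
    intro i
    induction i with
    | zero => intro w hw; exact hw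
    | succ i ih =>
      intro w hw
      rw [pow_succ', Module.End.mul_apply]
      exact hN _ (ih w hw)
  have key : ∀ i : ℕ, finrank K (E ⊓ LinearMap.ker (N ^ i) : Submodule K W) ≤
      i * finrank K (E ⊓ LinearMap.ker N : Submodule K W) := by
    intro i
    induction i with
    | zero =>
      have h1 : (E ⊓ LinearMap.ker (N ^ 0) : Submodule K W) = ⊥ := by
        rw [eq_bot_iff]
        rintro w ⟨-, hw⟩
        exact hw
      rw [h1, finrank_bot]
      exact Nat.zero_le _
    | succ i ih =>
      have h1 := grA_le (E ⊓ LinearMap.ker (N ^ (i + 1))) (E ⊓ LinearMap.ker N)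
        (E ⊓ LinearMap.ker (N ^ i)) (N ^ i) (by
          rintro w ⟨hw, hw'⟩
          refine ⟨hNi i w hw, ?_⟩
          have h2 : (N ^ (i + 1)) w = 0 := hw'
          rw [pow_succ', Module.End.mul_apply] at h2
          exact h2) (by
          rintro w ⟨hw, -⟩ h2
          exact ⟨hw, h2⟩)
      rw [Nat.succ_mul]
      omega
  have h1 : E ≤ E ⊓ LinearMap.ker (N ^ P) := fun w hw => ⟨hw, hP w hw⟩
  exact (Submodule.finrank_mono h1).trans (key P)

theorem grA_range_mul_le (a b : W →ₗ[K] W) :
    finrank K (LinearMap.range (a * b)) ≤ finrank K (LinearMap.range b) := by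
  have h1 : LinearMap.range (a * b) = (LinearMap.range b).map a := by
    ext w
    constructor
    · rintro ⟨v, rfl⟩
      exact ⟨b v, ⟨v, rfl⟩, rfl⟩
    · rintro ⟨_, ⟨v, rfl⟩, rfl⟩
      exact ⟨v, rfl⟩
  rw [h1]
  exact Submodule.finrank_map_le a (LinearMap.range b)

/-- the range of a sum -/
theorem grA_sum (A : Submodule K W) (d : ℕ) (B : Fin d → Submodule K W)
    (h : ∀ w ∈ A, ∃ b : Fin d → W, (∀ s, b s ∈ B s) ∧ w = ∑ s, b s) (n : ℕ)
    (hn : ∀ s, finrank K (B s) ≤ n) : finrank K A ≤ d * n := by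
  have h1 : A ≤ ⨆ s ∈ (Finset.univ : Finset (Fin d)), B s := by
    intro w hw
    obtain ⟨b, hb, rfl⟩ := h w hw
    refine Submodule.sum_mem _ fun s _ => ?_
    exact (le_iSup₂_of_le (f := fun s (_ : s ∈ (Finset.univ : Finset (Fin d))) => B s) s
      (Finset.mem_univ s) le_rfl) (hb s)
  have h2 : ∀ T : Finset (Fin d), finrank K (⨆ s ∈ T, B s : Submodule K W) ≤ T.card * n := by
    classical
    intro T
    induction T using Finset.induction_on with
    | empty => simp
    | insert s T hs ih =>
      rw [Finset.iSup_insert, Finset.card_insert_of_notMem hs]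
      have h3 := Submodule.finrank_add_le_finrank_add_finrank (B s) (⨆ s ∈ T, B s)
      have h4 := hn s
      rw [Nat.succ_mul]
      omega
  have h3 := h2 Finset.univ
  rw [Finset.card_univ, Fintype.card_fin] at h3
  exact (Submodule.finrank_mono h1).trans h3

/-- the block diagonal part -/
theorem grA_comp {l : ℕ} (G : Grd (W →ₗ[K] W) l) {f : W →ₗ[K] W} (hf : G.Fil 0 f) (k : ℕ) :
    finrank K (LinearMap.range (∑ j ∈ Finset.range k, G.π j * f * G.π j)) ≤
      finrank K (LinearMap.range f ⊓ LinearMap.ker (1 - ∑ j ∈ Finset.range k, G.π j) :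
        Submodule K W) := by
  have hππ : ∀ i j w, G.π i (G.π j w) = if i = j then G.π i w else 0 := by
    intro i j w
    have h1 := LinearMap.congr_fun (G.orth i j) w
    rw [Module.End.mul_apply] at h1
    rw [h1]
    split_ifs <;> rfl
  have hmem : ∀ k w, w ∈ LinearMap.ker (1 - ∑ j ∈ Finset.range k, G.π j) ↔
      ∑ j ∈ Finset.range k, G.π j w = w := by
    intro k w
    rw [LinearMap.mem_ker, LinearMap.sub_apply, Module.End.one_apply, LinearMap.sum_apply,
      sub_eq_zero]
    exact eq_comm
  induction k with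
  | zero =>
    rw [Finset.range_zero, Finset.sum_empty, LinearMap.range_zero, finrank_bot]
    exact Nat.zero_le _
  | succ k ih =>
    have h1 : LinearMap.range (∑ j ∈ Finset.range (k + 1), G.π j * f * G.π j) ≤
        LinearMap.range (∑ j ∈ Finset.range k, G.π j * f * G.π j) ⊔
          LinearMap.range (G.π k * f * G.π k) := by
      rintro _ ⟨w, rfl⟩
      rw [Finset.sum_range_succ, LinearMap.add_apply]
      exact Submodule.add_mem_sup ⟨w, rfl⟩ ⟨w, rfl⟩
    have h2 := (Submodule.finrank_mono h1).trans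
      (Submodule.finrank_add_le_finrank_add_finrank _ _)
    have h3 := grA_ge (LinearMap.range f ⊓ LinearMap.ker (1 - ∑ j ∈ Finset.range (k + 1), G.π j))
      (LinearMap.range (G.π k * f * G.π k))
      (LinearMap.range f ⊓ LinearMap.ker (1 - ∑ j ∈ Finset.range k, G.π j)) (G.π k) (by
        rintro _ ⟨w, rfl⟩
        refine ⟨f (G.π k w), ⟨⟨_, rfl⟩, ?_⟩, rfl⟩
        refine (hmem _ _).2 ?_
        -- `f (π k w)` has components of degree at most `k` only
        have h4 : ∀ j, k < j → G.π j (f (G.π k w)) = 0 := by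
          intro j hj
          exact LinearMap.congr_fun (hf k j (by omega)) w
        have h5 := LinearMap.congr_fun G.sum (f (G.π k w))
        rw [LinearMap.sum_apply, Module.End.one_apply] at h5
        have h6 : ∀ m n, (∀ j, m ≤ j → G.π j (f (G.π k w)) = 0) → m ≤ n →
            ∑ j ∈ Finset.range n, G.π j (f (G.π k w)) =
              ∑ j ∈ Finset.range m, G.π j (f (G.π k w)) := by
          intro m n hm hmn
          refine (Finset.sum_subset (Finset.range_subset_range.2 hmn) ?_).symm
          intro j _ hj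
          exact hm j (by rw [Finset.mem_range] at hj; omega)
        rcases Nat.le_total (k + 1) l with hkl | hkl
        · rw [← h6 (k + 1) l (fun j hj => h4 j hj) hkl]
          exact h5
        · rw [h6 l (k + 1) (fun j hj => by rw [G.zero j hj]; rfl) hkl]
          exact h5) (by
        rintro w ⟨hw, hw0⟩
        have hw' := (hmem _ _).1 hw0
        have h4 : G.π k w = 0 := by
          rw [← hw', map_sum]
          refine Finset.sum_eq_zero fun j hj => ?_
          rw [hππ, if_neg]
          rw [Finset.mem_range] at hj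
          omega
        refine ⟨⟨hw, (hmem _ _).2 ?_⟩, h4⟩
        rw [Finset.sum_range_succ, h4, add_zero]
        exact hw')
    omega

end dim

section half

variable {A K W : Type} [Ring A] [Field K] [AddCommGroup W] [Module K W]

/-- the powers of `x - 1` on the vectors where `x` acts as `μ U` -/
theorem grA_pow {μ : A → (W →ₗ[K] W)} (hadd : ∀ α β, μ (α + β) = μ α + μ β)
    (hmul : ∀ α β, μ (α * β) = μ α * μ β) {U U' : A} (hU : U' * U = 1) {x : W →ₗ[K] W}
    (hx : ∀ α, x * μ α = μ (U * α * U') * x) {b : W} (h1 : μ 1 b = b) (h2 : x b = μ U b)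
    (α : A) : μ 1 (μ α b) = μ α b ∧ x (μ α b) = μ U (μ α b) ∧
      ∀ n : ℕ, ((x - 1) ^ n) b = μ ((U - 1) ^ n) b := by
  have hsub : ∀ α β, μ (α - β) = μ α - μ β := by
    intro α β
    rw [eq_sub_iff_add_eq, ← hadd, sub_add_cancel]
  have hst : ∀ α, μ 1 (μ α b) = μ α b ∧ x (μ α b) = μ U (μ α b) := by
    intro α
    constructor
    · rw [← Module.End.mul_apply, ← hmul, one_mul]
    · rw [← Module.End.mul_apply, hx, Module.End.mul_apply, h2, ← Module.End.mul_apply, ← hmul,
        mul_assoc, mul_assoc, hU, mul_one, hmul, Module.End.mul_apply]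
  refine ⟨(hst α).1, (hst α).2, fun n => ?_⟩
  induction n with
  | zero => rw [pow_zero, pow_zero, h1, Module.End.one_apply]
  | succ n ih =>
    rw [pow_succ', Module.End.mul_apply, ih, LinearMap.sub_apply, Module.End.one_apply,
      (hst _).2, pow_succ', hmul, Module.End.mul_apply, hsub, LinearMap.sub_apply, (hst _).1]

/-- one half of the growth estimate -/
theorem grA_half [FiniteDimensional K W] {p : ℕ} (hp : p.Prime) [CharP K p]
    {μ : A → (W →ₗ[K] W)}
    (hmul : ∀ α β, μ (α * β) = μ α * μ β) {U U' : A} (hU : U' * U = 1) (hU' : U * U' = 1)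
    {x : W →ₗ[K] W} (hx : ∀ α, x * μ α = μ (U * α * U') * x) {j : ℕ} (hUp : U' ^ p ^ j = 1)
    (hxp : x ^ p ^ j = 1) {γ : A} {d : ℕ} {β β' : Fin d → A} (hμs : ∀ g : Fin d → A,
      μ (∑ s, g s) = ∑ s, μ (g s)) (hβ : ∑ s, β s * γ * β' s = 1)
    {f : W →ₗ[K] W} (hf : ∀ b, μ 1 b = b → x b = μ U b → f b = μ γ b) :
    finrank K (LinearMap.range (μ 1)) ≤ p ^ j * (d * finrank K (LinearMap.range f)) := by
  have h11 : ∀ α w, μ 1 (μ α w) = μ α w := by
    intro α w
    rw [← Module.End.mul_apply, ← hmul, one_mul]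
  have hα1 : ∀ α w, μ α (μ 1 w) = μ α w := by
    intro α w
    rw [← Module.End.mul_apply, ← hmul, mul_one]
  have hx1 : ∀ w, x (μ 1 w) = μ 1 (x w) := by
    intro w
    have h1 := LinearMap.congr_fun (hx 1) w
    rw [mul_one, hU'] at h1
    exact h1
  obtain ⟨y, hy⟩ : ∃ y : W →ₗ[K] W, y = μ U' * x := ⟨_, rfl⟩
  have hyα : ∀ α, y * μ α = μ α * y := by
    intro α
    rw [hy, mul_assoc, hx, ← mul_assoc, ← mul_assoc, ← hmul, ← hmul, ← mul_assoc, ← mul_assoc, hU,
      one_mul]
  have hE : ∀ w, w ∈ LinearMap.range (μ 1) ↔ μ 1 w = w := by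
    intro w
    constructor
    · rintro ⟨v, rfl⟩
      exact h11 1 v
    · intro h
      exact ⟨w, h⟩
  have hypow : ∀ n : ℕ, ∀ w, μ 1 w = w → (y ^ n) w = μ (U' ^ n) ((x ^ n) w) := by
    intro n
    induction n with
    | zero =>
      intro w hw
      rw [pow_zero, pow_zero, pow_zero, Module.End.one_apply, hw]
    | succ n ih =>
      intro w hw
      have h1 : μ 1 (y w) = y w := by
        rw [hy, Module.End.mul_apply, h11]
      have hxn : ∀ n α, (x ^ n) * μ α = μ (U ^ n * α * U' ^ n) * x ^ n := by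
        intro n
        induction n with
        | zero => intro α; rw [pow_zero, pow_zero, pow_zero, one_mul, one_mul, mul_one, mul_one]
        | succ n ih2 =>
          intro α
          rw [pow_succ, mul_assoc, hx, ← mul_assoc, ih2, mul_assoc, pow_succ U, pow_succ' U']
          simp only [mul_assoc]
      rw [pow_succ, Module.End.mul_apply, ih (y w) h1, hy, Module.End.mul_apply,
        ← Module.End.mul_apply (x ^ n), hxn, Module.End.mul_apply, ← Module.End.mul_apply,
        ← hmul]
      have h2 : ∀ m : ℕ, U' ^ m * U ^ m = 1 := by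
        intro m
        induction m with
        | zero => rw [pow_zero, pow_zero, mul_one]
        | succ m ih3 =>
          rw [pow_succ, pow_succ', mul_assoc, ← mul_assoc U', hU, one_mul, ih3]
      have h3 : U' ^ n * (U ^ n * U' * U' ^ n) = U' ^ (n + 1) := by
        rw [← mul_assoc, ← mul_assoc, h2, one_mul, pow_succ']
      rw [h3, pow_succ x, Module.End.mul_apply]
  have hyP : ∀ w, μ 1 w = w → (y ^ p ^ j) w = w := by
    intro w hw
    rw [hypow _ w hw, hUp, hxp, Module.End.one_apply, hw]
  -- the nilpotent operator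
  have hnil : ∀ w ∈ LinearMap.range (μ 1), ((y - 1) ^ p ^ j) w = 0 := by
    intro w hw
    rw [hE] at hw
    rcases subsingleton_or_nontrivial W with hW | hW
    · exact Subsingleton.elim _ _
    · have hch : CharP (Module.End K W) p :=
        charP_of_injective_algebraMap (algebraMap K (Module.End K W)).injective p
      have hfp : Fact p.Prime := ⟨hp⟩
      have h1 : (y - 1) ^ p ^ j = y ^ p ^ j - 1 := by
        have h2 := sub_pow_char_pow_of_commute (R := Module.End K W) (p := p) j
          (x := y) (y := 1) (Commute.one_right _)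
        rw [one_pow] at h2
        exact h2
      rw [h1, LinearMap.sub_apply, hyP w hw, Module.End.one_apply, sub_self]
  have h1 := grA_nil (LinearMap.range (μ 1)) (y - 1) (by
    intro w hw
    rw [hE] at hw ⊢
    rw [LinearMap.sub_apply, Module.End.one_apply, map_sub, hw, hy, Module.End.mul_apply, h11])
    (p ^ j) hnil
  refine h1.trans (Nat.mul_le_mul_left _ ?_)
  refine grA_sum _ d (fun s => LinearMap.range (μ (β s) * f)) ?_ _ fun s =>
    grA_range_mul_le _ _
  rintro b ⟨hb0, hb'⟩
  have hb := (hE b).1 hb0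
  have hb2 : y b = b := by
    have h2 : (y - 1) b = 0 := hb'
    rw [LinearMap.sub_apply, Module.End.one_apply, sub_eq_zero] at h2
    exact h2
  have hb3 : x b = μ U b := by
    have h2 : μ U (y b) = μ 1 (x b) := by
      rw [hy, Module.End.mul_apply, ← Module.End.mul_apply (μ U), ← hmul, hU']
    rw [hb2, ← hx1, hb] at h2
    exact h2.symm
  have hst : ∀ α, μ 1 (μ α b) = μ α b ∧ x (μ α b) = μ U (μ α b) := by
    intro α
    refine ⟨h11 α b, ?_⟩
    rw [← Module.End.mul_apply, hx, Module.End.mul_apply, hb3, ← Module.End.mul_apply, ← hmul,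
      mul_assoc, mul_assoc, hU, mul_one, hmul, Module.End.mul_apply]
  refine ⟨fun s => (μ (β s) * f) (μ (β' s) b), fun s => ⟨_, rfl⟩, ?_⟩
  have h2 : μ (∑ s, β s * γ * β' s) b = b := by rw [hβ, hb]
  rw [hμs, LinearMap.sum_apply] at h2
  refine h2.symm.trans (Finset.sum_congr rfl fun s _ => ?_)
  change _ = μ (β s) (f (μ (β' s) b))
  rw [hf _ (hst _).1 (hst _).2, hmul, hmul, Module.End.mul_apply, Module.End.mul_apply]

end half

end Pool.Agent.Lib.MP_b9166b_al.Pt
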