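import Pool.Agent.Lib.MP_b9166b_al.Pt.Gmm
import Pool.Agent.Lib.MP_b9166b_al.Pt.GrA

/-!
# MP_b9166b_al, PT: growth (6.1), (6.2)

`exists_simp_dim`: as `exists_simp`, with `n = finrank F C` terms (`β s = rk (b s) f`, `β' s = rk v (b.coord s)`, `f (α v) = 1`).
`finrank_comp_le`: `rank (comp 0 f) ≤ rank f` for `f` of degree `≥ 0` (`comp 0 f` is the block diagonal part of a block triangular map).
`growth_gen`. Take a series `c`, a grading `G` adapted to it and commuting with `ρ z` (`exists_grd` with `θ = ρ z`, `n = orderOf z`), `S` from `exists_gm`. Then `ρ z = comp 0 (ρ z)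
= el α α⁻¹`, so `ρ z - 1 = (m 1 + m' 1) * (ρ z - 1)` and `rank (ρ z - 1) ≤ rank (m 1) + rank (m' 1)`. Let `x₀ = comp 0 (ρ u)`, `U = a u`, `P = p^j`.
`y = m U⁻¹ * x₀` commutes with all `m α` and with `e₁ = m 1`, `y^P = e₁` (`x₀^P = 1`, `U^P = 1`). `B₁ = {b | e₁ b = b, y b = b}`: `rank e₁ ≤ P * dim B₁` (`(y - 1)^P = 0` on
`e₁ W`). On `B₁`: `x₀ b = m U b`, `f₀ := comp 0 ((ρ ω - 1) * (ρ u - 1)^(k-1)) = (el .. - 1) * (x₀ - 1)^(k-1)` acts as `m γ`, `γ = (a ω - 1) * (U - 1)^(k-1) ≠ 0`. `b = ∑ m (β i) (m γ (m (β' i) b))`,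
so `dim B₁ ≤ finrank F V * rank f₀`. Same for `m'`: `y' = m' U * x₀`, `B₂`, `f₀ = m' γ'` with `γ' = (U⁻¹ - 1)^(k-1) * ((a ω)⁻¹ - 1)`, which is a unit times `γ`.
`growth_pair'`: the same with `1` instead of `ρ ω - 1`.
-/

set_option autoImplicit false

namespace Pool.Agent.Lib.MP_b9166b_al.Pt

open Module

theorem exists_simp_dim {F C : Type} [Field F] [AddCommGroup C] [Module F C]
    [FiniteDimensional F C] {α : C →ₗ[F] C} (hα : α ≠ 0) :
    ∃ β β' : Fin (finrank F C) → (C →ₗ[F] C), ∑ s, β s * α * β' s = 1 := by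
  classical
  obtain ⟨v, hv⟩ : ∃ v, α v ≠ 0 := by
    by_contra h
    push Not at h
    exact hα (LinearMap.ext h)
  obtain ⟨f, hf⟩ : ∃ f : Dual F C, f (α v) = 1 := by
    have h := mt (Module.forall_dual_apply_eq_zero_iff F (α v)).1 hv
    push Not at h
    obtain ⟨f, hf⟩ := h
    exact ⟨(f (α v))⁻¹ • f, by simp [hf]⟩
  let b := Module.finBasis F C
  refine ⟨fun s => rk (b s) f, fun s => rk v (b.coord s), ?_⟩
  refine LinearMap.ext fun w => ?_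
  rw [LinearMap.sum_apply, Module.End.one_apply]
  conv_rhs => rw [← b.sum_repr w]
  refine Finset.sum_congr rfl fun s _ => ?_
  simp [hf]

theorem finrank_comp_le {K W : Type} [Field K] [AddCommGroup W] [Module K W]
    [FiniteDimensional K W] {l : ℕ} (G : Grd (W →ₗ[K] W) l) {f : W →ₗ[K] W} (hf : G.Fil 0 f) :
    finrank K (LinearMap.range (G.comp 0 f)) ≤ finrank K (LinearMap.range f) :=
  (grA_comp G hf l).trans (Submodule.finrank_mono inf_le_left)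

variable {p : ℕ} {Γ F V K W : Type} [Group Γ] [Finite Γ] [Field F] [CharP F p] [AddCommGroup V]
  [Module F V] [FiniteDimensional F V] [Field K] [CharP K p] [AddCommGroup W] [Module K W]
  [FiniteDimensional K W] [Finite W]

theorem gr_fil_sub {R : Type} [Ring R] {l : ℕ} {G : Grd R l} {f : R} (hf : G.Fil 0 f) :
    G.Fil 0 (f - 1) ∧ G.comp 0 (f - 1) = G.comp 0 f - 1 := by
  rw [sub_eq_add_neg, sub_eq_add_neg, G.comp_add, G.comp_neg, G.comp_one]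
  exact ⟨Grd.Fil.add G hf (Grd.Fil.neg G G.fil_one), rfl⟩

theorem gr_fil_pow {R : Type} [Ring R] {l : ℕ} {G : Grd R l} {f : R} (hf : G.Fil 0 f) (n : ℕ) :
    G.Fil 0 (f ^ n) ∧ G.comp 0 (f ^ n) = G.comp 0 f ^ n := by
  induction n with
  | zero =>
    rw [pow_zero, pow_zero]
    exact ⟨Grd.fil_one G, Grd.comp_one G⟩
  | succ n ih =>
    rw [pow_succ, pow_succ]
    have h1 := Grd.Fil.mul G ih.1 hf
    have h2 := Grd.comp_mul G ih.1 hf
    rw [add_zero] at h1 h2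
    exact ⟨h1, by rw [h2, ih.2]⟩

theorem gr_ofs {A B : Type} [Ring A] [Ring B] {μ : A → B} (hadd : ∀ α β, μ (α + β) = μ α + μ β)
    {d : ℕ} (g : Fin d → A) : μ (∑ s, g s) = ∑ s, μ (g s) := by
  have h0 : μ 0 = 0 := by
    have h := hadd 0 0
    rw [add_zero] at h
    exact left_eq_add.1 h
  exact map_sum ({ toFun := μ, map_zero' := h0, map_add' := hadd } : A →+ B) g _

/-- the general estimate -/
theorem growth_gen (hp : p.Prime) (ℓ : Lay p Γ F V) (ρ : Γ →* (W →ₗ[K] W))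
    (h8 : 8 ≤ finrank F V) (hD : ¬ ℓ.Dg ρ 2) {u z : Γ} {j : ℕ} (hu : u ^ p ^ j = 1)
    (hz : z ∈ ℓ.El) (hzp : (orderOf z).Coprime p) (f : W →ₗ[K] W) (γ γ' : V →ₗ[F] V)
    (hγ : γ ≠ 0) (hγ' : γ' ≠ 0) (hf : ∀ {l : ℕ} {G : Grd (W →ₗ[K] W) l}
      {S : MM F V (W →ₗ[K] W)}, Gm ℓ ρ G S → G.Fil 0 f ∧
      (∀ b, S.m 1 b = b → G.comp 0 (ρ u) b = S.m (ℓ.a u) b → G.comp 0 f b = S.m γ b) ∧
      ∀ b, S.m' 1 b = b → G.comp 0 (ρ u) b = S.m' (ℓ.a u⁻¹) b → G.comp 0 f b = S.m' γ' b) :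
    finrank K (LinearMap.range (ρ z - 1)) ≤ 2 * p ^ j * finrank F V *
      finrank K (LinearMap.range f) := by
  obtain ⟨l, ⟨c⟩⟩ := exists_series ρ ⊤
  obtain ⟨G, hG, hGz⟩ := exists_grd (n := orderOf z) c.zero c.top (fun i hi => (c.irr i hi).lt.le)
    (ρ z) (by rw [← map_pow, pow_orderOf_eq_one, map_one]) (by
      rw [Ne, CharP.cast_eq_zero_iff K p]
      intro h3
      exact (Nat.Prime.coprime_iff_not_dvd hp).1 hzp.symm h3)
    (fun i hi w hw => gmm_inv c hi z (Subgroup.mem_top z) w hw)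
  obtain ⟨S, hS⟩ := exists_gm hp ℓ ρ h8 hD c G hG
  obtain ⟨hf0, hf1, hf2⟩ := hf hS
  have hz0 : ρ z = S.el (ℓ.a z) (ℓ.a z⁻¹) := by
    rw [← hS.el z hz, Grd.comp_of_comm G hGz]
  have hxp : G.comp 0 (ρ u) ^ p ^ j = 1 := by
    rw [← (gr_fil_pow (hS.fil u) (p ^ j)).2, ← map_pow, hu, map_one, G.comp_one]
  have hcmp := finrank_comp_le G hf0
  -- the first half
  have H1 : finrank K (LinearMap.range (S.m 1)) ≤
      p ^ j * (finrank F V * finrank K (LinearMap.range (G.comp 0 f))) := by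
    obtain ⟨β, β', hβ⟩ := exists_simp_dim hγ
    exact grA_half hp S.mul (U := ℓ.a u) (U' := ℓ.a u⁻¹) (ℓ.a_inv_mul u) (ℓ.a_mul_inv u)
      (x := G.comp 0 (ρ u)) (fun α => (hS.conj u α).1)
      (by rw [← map_pow, inv_pow, hu, inv_one, map_one]) hxp (gr_ofs S.add) hβ hf1
  have H2 : finrank K (LinearMap.range (S.m' 1)) ≤
      p ^ j * (finrank F V * finrank K (LinearMap.range (G.comp 0 f))) := by
    obtain ⟨β, β', hβ⟩ := exists_simp_dim hγ'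
    exact grA_half (A := (V →ₗ[F] V)ᵐᵒᵖ) hp (μ := fun α => S.m' α.unop)
      (fun α β => S.mul' _ _) (U := MulOpposite.op (ℓ.a u⁻¹)) (U' := MulOpposite.op (ℓ.a u))
      (by rw [← MulOpposite.op_mul, ℓ.a_inv_mul u, MulOpposite.op_one])
      (by rw [← MulOpposite.op_mul, ℓ.a_mul_inv u, MulOpposite.op_one])
      (x := G.comp 0 (ρ u)) (fun α => by
        have h1 := (hS.conj u α.unop).2
        rw [mul_assoc (ℓ.a u)] at h1
        exact h1)
      (by rw [← MulOpposite.op_pow, ← map_pow, hu, map_one, MulOpposite.op_one]) hxp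
      (gr_ofs (A := (V →ₗ[F] V)ᵐᵒᵖ) (μ := fun α => S.m' α.unop) (fun α β => S.add' _ _))
      (γ := MulOpposite.op γ')
      (β := fun s => MulOpposite.op (β' s)) (β' := fun s => MulOpposite.op (β s)) (by
        rw [← MulOpposite.op_one, ← hβ, Finset.op_sum]
        refine Finset.sum_congr rfl fun s _ => ?_
        rw [MulOpposite.op_mul, MulOpposite.op_mul, mul_assoc]) hf2
  have H3 : LinearMap.range (ρ z - 1) ≤ LinearMap.range (S.m 1) ⊔ LinearMap.range (S.m' 1) := by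
    rintro _ ⟨w, rfl⟩
    have h1 : (ρ z - 1) w = S.m 1 (S.m (ℓ.a z) w - w) + S.m' 1 (S.m' (ℓ.a z⁻¹) w - w) := by
      have h2 : S.m 1 (S.m (ℓ.a z) w) = S.m (ℓ.a z) w := by
        rw [← Module.End.mul_apply, ← S.mul, one_mul]
      have h3 : S.m' 1 (S.m' (ℓ.a z⁻¹) w) = S.m' (ℓ.a z⁻¹) w := by
        rw [← Module.End.mul_apply, ← S.mul', mul_one]
      rw [map_sub, map_sub, h2, h3, hz0]
      unfold MM.el
      simp only [LinearMap.sub_apply, LinearMap.add_apply, Module.End.one_apply]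
      abel
    rw [h1]
    exact Submodule.add_mem_sup ⟨_, rfl⟩ ⟨_, rfl⟩
  have H4 := (Submodule.finrank_mono H3).trans (Submodule.finrank_add_le_finrank_add_finrank _ _)
  have H5 : p ^ j * (finrank F V * finrank K (LinearMap.range (G.comp 0 f))) ≤
      p ^ j * (finrank F V * finrank K (LinearMap.range f)) :=
    Nat.mul_le_mul_left _ (Nat.mul_le_mul_left _ hcmp)
  calc finrank K (LinearMap.range (ρ z - 1))
      ≤ p ^ j * (finrank F V * finrank K (LinearMap.range f)) +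
        p ^ j * (finrank F V * finrank K (LinearMap.range f)) := by omega
    _ = _ := by ring

omit [Finite Γ] [CharP F p] [FiniteDimensional F V] [CharP K p] [FiniteDimensional K W]
  [Finite W] in
/-- the action of `comp 0 (ρ u)` on the two halves -/
theorem gr_half {ℓ : Lay p Γ F V} {ρ : Γ →* (W →ₗ[K] W)} {l : ℕ} {G : Grd (W →ₗ[K] W) l}
    {S : MM F V (W →ₗ[K] W)} (hS : Gm ℓ ρ G S) {u : Γ} (n : ℕ) :
    (∀ b, S.m 1 b = b → G.comp 0 (ρ u) b = S.m (ℓ.a u) b →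
      ((G.comp 0 (ρ u) - 1) ^ n) b = S.m ((ℓ.a u - 1) ^ n) b) ∧
    ∀ b, S.m' 1 b = b → G.comp 0 (ρ u) b = S.m' (ℓ.a u⁻¹) b →
      ((G.comp 0 (ρ u) - 1) ^ n) b = S.m' ((ℓ.a u⁻¹ - 1) ^ n) b := by
  constructor
  · intro b h1 h2
    exact (grA_pow S.add S.mul (ℓ.a_inv_mul u) (fun α => (hS.conj u α).1) h1 h2 1).2.2 n
  · intro b h1 h2
    exact (grA_pow (A := (V →ₗ[F] V)ᵐᵒᵖ) (μ := fun α => S.m' α.unop) (fun α β => S.add' _ _)
      (fun α β => S.mul' _ _) (U := MulOpposite.op (ℓ.a u⁻¹)) (U' := MulOpposite.op (ℓ.a u))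
      (by rw [← MulOpposite.op_mul, ℓ.a_inv_mul u, MulOpposite.op_one])
      (x := G.comp 0 (ρ u)) (fun α => by
        have h1 := (hS.conj u α.unop).2
        rw [mul_assoc (ℓ.a u)] at h1
        exact h1) h1 h2 1).2.2 n

theorem growth_pair (hp : p.Prime) (ℓ : Lay p Γ F V) (ρ : Γ →* (W →ₗ[K] W))
    (h8 : 8 ≤ finrank F V) (hD : ¬ ℓ.Dg ρ 2) {u ω z : Γ} {j k : ℕ} (hu : u ^ p ^ j = 1)
    (hω : ω ∈ ℓ.El) (hωu : ℓ.a ω * ℓ.a u = ℓ.a u * ℓ.a ω)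
    (hne : (ℓ.a ω - 1) * (ℓ.a u - 1) ^ (k - 1) ≠ 0) (hz : z ∈ ℓ.El)
    (hzp : (orderOf z).Coprime p) :
    finrank K (LinearMap.range (ρ z - 1)) ≤ 2 * p ^ j * finrank F V *
      finrank K (LinearMap.range ((ρ ω - 1) * (ρ u - 1) ^ (k - 1))) := by
  refine growth_gen hp ℓ ρ h8 hD hu hz hzp _ ((ℓ.a ω - 1) * (ℓ.a u - 1) ^ (k - 1))
    ((ℓ.a u⁻¹ - 1) ^ (k - 1) * (ℓ.a ω⁻¹ - 1)) hne ?_ ?_
  · -- the second symbol is not zero
    intro h0
    apply hne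
    have huu : Commute (ℓ.a u) (ℓ.a u⁻¹ - 1) := by
      refine Commute.sub_right ?_ (Commute.one_right _)
      show ℓ.a u * ℓ.a u⁻¹ = ℓ.a u⁻¹ * ℓ.a u
      rw [ℓ.a_mul_inv, ℓ.a_inv_mul]
    have h1 : (ℓ.a u) ^ (k - 1) * ((ℓ.a u⁻¹ - 1) ^ (k - 1) * (ℓ.a ω⁻¹ - 1)) * ℓ.a ω =
        (1 - ℓ.a u) ^ (k - 1) * (1 - ℓ.a ω) := by
      rw [← mul_assoc, ← huu.mul_pow, mul_assoc, mul_sub, ℓ.a_mul_inv, mul_one, sub_mul,
        ℓ.a_inv_mul, one_mul]
    rw [h0, mul_zero, zero_mul] at h1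
    have h2 : (1 - ℓ.a u) ^ (k - 1) = (-1) ^ (k - 1) * (ℓ.a u - 1) ^ (k - 1) := by
      have h3 : Commute (-1 : V →ₗ[F] V) (ℓ.a u - 1) :=
        (Commute.neg_one_left _)
      rw [← h3.mul_pow, neg_one_mul, neg_sub]
    have h3 : ((-1 : V →ₗ[F] V)) ^ (k - 1) * (-1) ^ (k - 1) = 1 := by
      rw [← pow_add, ← two_mul, pow_mul, neg_one_sq, one_pow]
    have hc : Commute (ℓ.a ω - 1) ((ℓ.a u - 1) ^ (k - 1)) := by
      refine Commute.pow_right ?_ _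
      have h5 : Commute (ℓ.a ω) (ℓ.a u) := hωu
      exact (h5.sub_right (Commute.one_right _)).sub_left (Commute.one_left _)
    rw [hc.eq]
    have h4 : (-1 : V →ₗ[F] V) ^ (k - 1) * ((1 - ℓ.a u) ^ (k - 1) * (1 - ℓ.a ω)) =
        -((ℓ.a u - 1) ^ (k - 1) * (ℓ.a ω - 1)) := by
      rw [h2, ← mul_assoc, ← mul_assoc, h3, one_mul, ← mul_neg, neg_sub]
    rw [← h1, mul_zero] at h4
    exact neg_eq_zero.1 h4.symm
  · intro l G S hS
    obtain ⟨f1, f2⟩ := gr_fil_sub (hS.fil ω)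
    obtain ⟨f3, f4⟩ := gr_fil_sub (hS.fil u)
    obtain ⟨f5, f6⟩ := gr_fil_pow f3 (k - 1)
    have f7 := Grd.Fil.mul G f1 f5
    have f8 := Grd.comp_mul G f1 f5
    rw [add_zero] at f7 f8
    obtain ⟨g1, g2⟩ := gr_half hS (u := u) (k - 1)
    refine ⟨f7, ?_, ?_⟩
    · intro b h1 h2
      rw [f8, f2, f6, f4, Module.End.mul_apply, g1 b h1 h2, hS.el ω hω]
      have h3 : ∀ α β, S.m α (S.m β b) = S.m (α * β) b := by
        intro α β
        rw [S.mul, Module.End.mul_apply]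
      have h4 : ∀ α β, S.m' α (S.m β b) = 0 := by
        intro α β
        rw [← Module.End.mul_apply, S.orth', LinearMap.zero_apply]
      unfold MM.el
      rw [sub_mul, one_mul]
      have h5 : S.m (ℓ.a ω * (ℓ.a u - 1) ^ (k - 1) - (ℓ.a u - 1) ^ (k - 1)) =
          S.m (ℓ.a ω * (ℓ.a u - 1) ^ (k - 1)) - S.m ((ℓ.a u - 1) ^ (k - 1)) := by
        rw [eq_sub_iff_add_eq, ← S.add, sub_add_cancel]
      rw [h5]
      simp only [LinearMap.sub_apply, LinearMap.add_apply, Module.End.one_apply, h3, h4, one_mul,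
        sub_zero, add_zero]
      abel
    · intro b h1 h2
      rw [f8, f2, f6, f4, Module.End.mul_apply, g2 b h1 h2, hS.el ω hω]
      have h3 : ∀ α β, S.m' α (S.m' β b) = S.m' (β * α) b := by
        intro α β
        rw [S.mul', Module.End.mul_apply]
      have h4 : ∀ α β, S.m α (S.m' β b) = 0 := by
        intro α β
        rw [← Module.End.mul_apply, S.orth, LinearMap.zero_apply]
      unfold MM.el
      rw [mul_sub, mul_one]
      have h5 : S.m' ((ℓ.a u⁻¹ - 1) ^ (k - 1) * ℓ.a ω⁻¹ - (ℓ.a u⁻¹ - 1) ^ (k - 1)) =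
          S.m' ((ℓ.a u⁻¹ - 1) ^ (k - 1) * ℓ.a ω⁻¹) - S.m' ((ℓ.a u⁻¹ - 1) ^ (k - 1)) := by
        rw [eq_sub_iff_add_eq, ← S.add', sub_add_cancel]
      rw [h5]
      simp only [LinearMap.sub_apply, LinearMap.add_apply, Module.End.one_apply, h3, h4, mul_one,
        sub_zero, add_zero]
      abel

theorem growth_pair' (hp : p.Prime) (ℓ : Lay p Γ F V) (ρ : Γ →* (W →ₗ[K] W))
    (h8 : 8 ≤ finrank F V) (hD : ¬ ℓ.Dg ρ 2) {u z : Γ} {j k : ℕ} (hu : u ^ p ^ j = 1)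
    (hne : (ℓ.a u - 1) ^ (k - 1) ≠ 0) (hz : z ∈ ℓ.El) (hzp : (orderOf z).Coprime p) :
    finrank K (LinearMap.range (ρ z - 1)) ≤ 2 * p ^ j * finrank F V *
      finrank K (LinearMap.range ((ρ u - 1) ^ (k - 1))) := by
  refine growth_gen hp ℓ ρ h8 hD hu hz hzp _ ((ℓ.a u - 1) ^ (k - 1))
    ((ℓ.a u⁻¹ - 1) ^ (k - 1)) hne ?_ ?_
  · intro h0
    apply hne
    have huu : Commute (ℓ.a u) (ℓ.a u⁻¹ - 1) := by
      refine Commute.sub_right ?_ (Commute.one_right _)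
      show ℓ.a u * ℓ.a u⁻¹ = ℓ.a u⁻¹ * ℓ.a u
      rw [ℓ.a_mul_inv, ℓ.a_inv_mul]
    have h1 : (ℓ.a u) ^ (k - 1) * (ℓ.a u⁻¹ - 1) ^ (k - 1) = (1 - ℓ.a u) ^ (k - 1) := by
      rw [← huu.mul_pow, mul_sub, ℓ.a_mul_inv, mul_one]
    rw [h0, mul_zero] at h1
    have h3 : Commute (-1 : V →ₗ[F] V) (1 - ℓ.a u) := Commute.neg_one_left _
    have h2 : (ℓ.a u - 1) = -1 * (1 - ℓ.a u) := by
      rw [neg_one_mul, neg_sub]
    rw [h2, h3.mul_pow, ← h1, mul_zero]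
  · intro l G S hS
    obtain ⟨f3, f4⟩ := gr_fil_sub (hS.fil u)
    obtain ⟨f5, f6⟩ := gr_fil_pow f3 (k - 1)
    obtain ⟨g1, g2⟩ := gr_half hS (u := u) (k - 1)
    refine ⟨f5, ?_, ?_⟩
    · intro b h1 h2
      rw [f6, f4]
      exact g1 b h1 h2
    · intro b h1 h2
      rw [f6, f4]
      exact g2 b h1 h2

end Pool.Agent.Lib.MP_b9166b_al.Pt
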