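import Mathlib

/-!
# MP_b9166b_al, PT: gradings of a ring by orthogonal idempotents

`Grd R l`: orthogonal idempotents `π i`, `i < l`, with sum `1`, `π i = 0` for `i ≥ l`. Think of `R = End W`,
`W = ⨁ π i W`, filtered by `W_i = ⨁_{j<i} π j W`. `Fil r f`: `f` lowers the degree by at least `r`.
`comp r f`: the part of `f` which lowers the degree by exactly `r`.
-/

set_option autoImplicit false

namespace Pool.Agent.Lib.MP_b9166b_al.Pt

open Finset

structure Grd (R : Type) [Ring R] (l : ℕ) where
  π : ℕ → R
  orth : ∀ i j, π i * π j = if i = j then π i else 0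
  sum : ∑ i ∈ range l, π i = 1
  zero : ∀ i, l ≤ i → π i = 0

namespace Grd

variable {R : Type} [Ring R] {l : ℕ} (G : Grd R l)

/-- `f` lowers the degree by at least `r` -/
def Fil (r : ℕ) (f : R) : Prop := ∀ i j, i < j + r → G.π j * f * G.π i = 0

/-- the part of degree `r` -/
def comp (r : ℕ) (f : R) : R := ∑ j ∈ range l, G.π j * f * G.π (j + r)

theorem pp (i : ℕ) : G.π i * G.π i = G.π i := by
  rw [G.orth, if_pos rfl]

theorem pne {i j : ℕ} (h : i ≠ j) : G.π i * G.π j = 0 := by
  rw [G.orth, if_neg h]

/-- insert `1 = ∑ π m` -/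
theorem split (f g : R) (i j : ℕ) :
    G.π j * (f * g) * G.π i = ∑ m ∈ range l, (G.π j * f * G.π m) * (G.π m * g * G.π i) := by
  have h1 : ∀ m, (G.π j * f * G.π m) * (G.π m * g * G.π i) = G.π j * f * (G.π m * (g * G.π i)) := by
    intro m
    calc (G.π j * f * G.π m) * (G.π m * g * G.π i)
        = G.π j * f * ((G.π m * G.π m) * (g * G.π i)) := by simp only [mul_assoc]
      _ = G.π j * f * (G.π m * (g * G.π i)) := by rw [G.pp]
  simp only [h1]
  rw [← Finset.mul_sum, ← Finset.sum_mul, G.sum, one_mul]
  simp only [mul_assoc]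

/-- the matrix entries of `comp r f` -/
theorem entry (r : ℕ) (f : R) (i j : ℕ) :
    G.π j * G.comp r f * G.π i = if i = j + r then G.π j * f * G.π i else 0 := by
  have h1 : G.π j * G.comp r f * G.π i =
      ∑ m ∈ range l, G.π j * (G.π m * f * G.π (m + r)) * G.π i := by
    rw [comp, Finset.mul_sum, Finset.sum_mul]
  rw [h1]
  by_cases hj : j < l
  · rw [Finset.sum_eq_single j]
    · by_cases hi : i = j + r
      · rw [if_pos hi, ← hi]
        calc G.π j * (G.π j * f * G.π i) * G.π i
            = (G.π j * G.π j) * f * (G.π i * G.π i) := by simp only [mul_assoc]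
          _ = G.π j * f * G.π i := by rw [G.pp, G.pp]
      · rw [if_neg hi]
        calc G.π j * (G.π j * f * G.π (j + r)) * G.π i
            = G.π j * (G.π j * f) * (G.π (j + r) * G.π i) := by simp only [mul_assoc]
          _ = 0 := by rw [G.pne (fun h => hi h.symm), mul_zero]
    · intro m _ hm
      calc G.π j * (G.π m * f * G.π (m + r)) * G.π i
          = (G.π j * G.π m) * (f * G.π (m + r) * G.π i) := by simp only [mul_assoc]
        _ = 0 := by rw [G.pne (fun h => hm h.symm), zero_mul]
    · intro h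
      exact absurd (Finset.mem_range.2 hj) h
  · have h0 : G.π j = 0 := G.zero j (not_lt.1 hj)
    simp only [h0, zero_mul, Finset.sum_const_zero, ite_self]

/-- an element is determined by its entries -/
theorem ext_entries {f g : R} (h : ∀ i j, G.π j * f * G.π i = G.π j * g * G.π i) : f = g := by
  have h1 : ∀ f : R, f = ∑ j ∈ range l, ∑ i ∈ range l, G.π j * f * G.π i := by
    intro f
    have h2 : ∀ j, ∑ i ∈ range l, G.π j * f * G.π i = G.π j * f := by
      intro j
      rw [← Finset.mul_sum, G.sum, mul_one]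
    simp only [h2]
    rw [← Finset.sum_mul, G.sum, one_mul]
  rw [h1 f, h1 g]
  exact Finset.sum_congr rfl fun j _ => Finset.sum_congr rfl fun i _ => h i j

/-- entries of a sum -/
theorem entry_add (f g : R) (i j : ℕ) :
    G.π j * (f + g) * G.π i = G.π j * f * G.π i + G.π j * g * G.π i := by
  rw [mul_add, add_mul]

theorem fil_one : G.Fil 0 1 := by
  intro i j h
  rw [mul_one]
  exact G.pne (by omega)

theorem Fil.add {r : ℕ} {f g : R} (hf : G.Fil r f) (hg : G.Fil r g) : G.Fil r (f + g) := by
  intro i j h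
  rw [G.entry_add, hf i j h, hg i j h, add_zero]

theorem Fil.neg {r : ℕ} {f : R} (hf : G.Fil r f) : G.Fil r (-f) := by
  intro i j h
  rw [mul_neg, neg_mul, hf i j h, neg_zero]

theorem Fil.mono {r r' : ℕ} {f : R} (hf : G.Fil r f) (h : r' ≤ r) : G.Fil r' f := by
  intro i j hij
  exact hf i j (by omega)

theorem Fil.mul {r r' : ℕ} {f g : R} (hf : G.Fil r f) (hg : G.Fil r' g) :
    G.Fil (r + r') (f * g) := by
  intro i j h
  rw [G.split]
  refine Finset.sum_eq_zero fun m _ => ?_
  by_cases hm : m < j + r
  · rw [hf m j hm, zero_mul]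
  · rw [hg i m (by omega), mul_zero]

theorem comp_mul {r r' : ℕ} {f g : R} (hf : G.Fil r f) (hg : G.Fil r' g) :
    G.comp (r + r') (f * g) = G.comp r f * G.comp r' g := by
  refine G.ext_entries fun i j => ?_
  rw [G.entry, G.split (G.comp r f) (G.comp r' g)]
  simp only [G.entry]
  by_cases hi : i = j + (r + r')
  · rw [if_pos hi, G.split]
    refine Finset.sum_congr rfl fun m _ => ?_
    by_cases hm : m = j + r
    · rw [if_pos hm, if_pos (by omega)]
    · rw [if_neg hm, zero_mul]
      by_cases hm' : m < j + r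
      · rw [hf m j hm', zero_mul]
      · rw [hg i m (by omega), mul_zero]
  · rw [if_neg hi]
    refine (Finset.sum_eq_zero fun m _ => ?_).symm
    by_cases hm : m = j + r
    · have hne : ¬ i = m + r' := by omega
      rw [if_neg hne, mul_zero]
    · rw [if_neg hm, zero_mul]

theorem comp_add (r : ℕ) (f g : R) : G.comp r (f + g) = G.comp r f + G.comp r g := by
  refine G.ext_entries fun i j => ?_
  rw [G.entry_add, G.entry, G.entry, G.entry, G.entry_add]
  by_cases hi : i = j + r
  · rw [if_pos hi, if_pos hi, if_pos hi]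
  · rw [if_neg hi, if_neg hi, if_neg hi, add_zero]

theorem comp_neg (r : ℕ) (f : R) : G.comp r (-f) = - G.comp r f := by
  have h := G.comp_add r f (-f)
  have h0 : G.comp r (0 : R) = 0 := by
    simp only [comp, mul_zero, zero_mul, Finset.sum_const_zero]
  rw [add_neg_cancel, h0] at h
  exact eq_neg_of_add_eq_zero_right h.symm

theorem comp_one : G.comp 0 1 = 1 := by
  refine G.ext_entries fun i j => ?_
  rw [G.entry, add_zero]
  by_cases hi : i = j
  · rw [if_pos hi]
  · rw [if_neg hi, mul_one, G.pne (fun h => hi h.symm)]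

theorem fil_comp (r : ℕ) (f : R) : G.Fil r (G.comp r f) := by
  intro i j h
  rw [G.entry, if_neg (by omega)]

theorem comp_comp (r : ℕ) (f : R) : G.comp r (G.comp r f) = G.comp r f := by
  refine G.ext_entries fun i j => ?_
  rw [G.entry]
  by_cases hi : i = j + r
  · rw [if_pos hi]
  · rw [if_neg hi, G.entry, if_neg hi]

theorem comp_eq_zero {r r' : ℕ} {f : R} (hf : G.Fil r' f) (h : r < r') : G.comp r f = 0 := by
  rw [comp]
  exact Finset.sum_eq_zero fun j _ => hf (j + r) j (by omega)

theorem Fil.succ {r : ℕ} {f : R} (hf : G.Fil r f) (h : G.comp r f = 0) : G.Fil (r + 1) f := by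
  intro i j hij
  by_cases hi : i = j + r
  · have h1 := G.entry r f i j
    rw [if_pos hi, h, mul_zero, zero_mul] at h1
    exact h1.symm
  · exact hf i j (by omega)

theorem Fil.eq_zero {f : R} (hf : G.Fil l f) : f = 0 := by
  refine G.ext_entries fun i j => ?_
  rw [mul_zero, zero_mul]
  by_cases hi : i < l
  · exact hf i j (by omega)
  · rw [G.zero i (not_lt.1 hi), mul_zero]

/-- `comp 0 f` commutes with the idempotents -/
theorem comp_zero_mul (f : R) (i : ℕ) : G.comp 0 f * G.π i = G.π i * G.comp 0 f := by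
  refine G.ext_entries fun a b => ?_
  have h1 : G.π b * (G.comp 0 f * G.π i) * G.π a = G.π b * G.comp 0 f * G.π i * G.π a := by
    simp only [mul_assoc]
  have h2 : G.π b * (G.π i * G.comp 0 f) * G.π a = G.π b * (G.π i * G.comp 0 f * G.π a) := by
    simp only [mul_assoc]
  rw [h1, h2, G.entry, G.entry, add_zero, add_zero]
  by_cases hi : i = b
  · rw [if_pos hi]
    by_cases ha : a = i
    · subst hi; subst ha
      rw [if_pos rfl]
      calc G.π a * f * G.π a * G.π a = G.π a * f * (G.π a * G.π a) := by simp only [mul_assoc]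
        _ = (G.π a * G.π a) * f * G.π a := by rw [G.pp]
        _ = G.π a * (G.π a * f * G.π a) := by simp only [mul_assoc]
    · rw [if_neg ha, mul_zero]
      calc G.π b * f * G.π i * G.π a = G.π b * f * (G.π i * G.π a) := by simp only [mul_assoc]
        _ = 0 := by rw [G.pne (fun h => ha h.symm), mul_zero]
  · rw [if_neg hi, zero_mul]
    by_cases ha : a = i
    · rw [if_pos ha]
      calc (0 : R) = (G.π b * G.π i) * (f * G.π a) := by
            rw [G.pne (fun h => hi h.symm), zero_mul]
        _ = G.π b * (G.π i * f * G.π a) := by simp only [mul_assoc]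
    · rw [if_neg ha, mul_zero]

/-- multiplication by elements of degree `0` -/
theorem comp_mul_left {r : ℕ} {f θ : R} (h : ∀ i, θ * G.π i = G.π i * θ) :
    G.comp r (θ * f) = θ * G.comp r f := by
  rw [comp, comp, Finset.mul_sum]
  refine Finset.sum_congr rfl fun j _ => ?_
  calc G.π j * (θ * f) * G.π (j + r) = (G.π j * θ) * f * G.π (j + r) := by simp only [mul_assoc]
    _ = θ * (G.π j * f * G.π (j + r)) := by rw [← h j]; simp only [mul_assoc]

theorem comp_mul_right {r : ℕ} {f θ : R} (h : ∀ i, θ * G.π i = G.π i * θ) :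
    G.comp r (f * θ) = G.comp r f * θ := by
  rw [comp, comp, Finset.sum_mul]
  refine Finset.sum_congr rfl fun j _ => ?_
  calc G.π j * (f * θ) * G.π (j + r) = G.π j * f * (θ * G.π (j + r)) := by simp only [mul_assoc]
    _ = G.π j * f * G.π (j + r) * θ := by rw [h (j + r)]; simp only [mul_assoc]

theorem fil_of_comm {θ : R} (h : ∀ i, θ * G.π i = G.π i * θ) : G.Fil 0 θ := by
  intro i j hij
  rw [← h j, mul_assoc, G.pne (by omega), mul_zero]

theorem comp_of_comm {θ : R} (h : ∀ i, θ * G.π i = G.π i * θ) : G.comp 0 θ = θ := by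
  rw [comp]
  have h1 : ∀ j ∈ range l, G.π j * θ * G.π (j + 0) = θ * G.π j := by
    intro j _
    rw [add_zero, ← h j, mul_assoc, G.pp]
  rw [Finset.sum_congr rfl h1, ← Finset.mul_sum, G.sum, mul_one]

end Grd

end Pool.Agent.Lib.MP_b9166b_al.Pt
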