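import Pool.Agent.Lib.MP_b9166b_al.Pt.Fd

/-!
# MP_b9166b_al, PT: freeness (7.2)

Proof of `exists_lam`. `E = m 1`, `W₁ = range E`, `U = range (m (ε 0)) ≤ W₁`. `x` preserves `W₁`. For `j < k`
`range (m (ε j)) = x^j U`: `m (ε j) = m (u^j * io j) = x^j * m (io j * ..)`: `x^j * m β = m (u^j * β * u⁻¹^j) * x^j`, so
`m (ε j) = m (u^j * ε 0 * io j) = x^j * m (ε 0 * io j * u^j) * x⁻¹^j`, its range is in `x^j U`; and `x^j * m (ε 0) =
m (u^j * ε 0 * u⁻¹^j) * x^j = m (ε j * u^j * ε 0 * u⁻¹^j) * x^j`. As the `m (ε j)` are orthogonal idempotents with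
sum `E`: `W₁ = ⨁ x^j U`, `finrank W₁ = k * finrank U`. `t = x - 1`, `t^k = 0` on `W₁`. Every `x^j U` is in
`∑_{i≤j} t^i U`, so `(Fin k → U) → W₁, (u_j) ↦ ∑ t^j u_j` is surjective, so bijective (`finrank`). `lam j` :=
the `j`-th component of the inverse, composed with `E`. Uniqueness gives `lam 0 * t * E = 0`,
`lam (j+1) * t * E = lam j`, and for `τ` commuting with `x` and all `m α` (so `τ U ≤ U`): `τ * lam j = lam j * τ`.
-/

set_option autoImplicit false

namespace Pool.Agent.Lib.MP_b9166b_al.Pt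

open Finset Module

/-- binomial inversion -/
theorem Lam_binom (i j : ℕ) :
    ∑ l ∈ range (j + 1), ((-1 : ℤ) ^ (j - l) * (j.choose l : ℤ)) * (l.choose i : ℤ) =
      if i = j then 1 else 0 := by
  have h : (Polynomial.X : Polynomial ℤ) ^ j =
      ∑ l ∈ range (j + 1), Polynomial.C ((-1 : ℤ) ^ (j - l) * (j.choose l : ℤ)) *
        (Polynomial.X + 1) ^ l := by
    have h1 : (Polynomial.X : Polynomial ℤ) = (Polynomial.X + 1) + (-1) := by ring
    conv_lhs => rw [h1, add_pow]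
    refine Finset.sum_congr rfl fun l _ => ?_
    rw [Polynomial.C_mul, Polynomial.C_pow, Polynomial.C_neg, Polynomial.C_1]
    simp only [map_natCast]
    ring
  have h2 := congrArg (fun p : Polynomial ℤ => p.coeff i) h
  simp only [Polynomial.coeff_X_pow, Polynomial.finsetSum_coeff, Polynomial.coeff_C_mul,
    Polynomial.coeff_X_add_one_pow] at h2
  rw [← h2]

/-- The statement in a ring. -/
theorem Lam_ring {S R : Type} [Ring S] [Ring R] {u : Sˣ} {k : ℕ} (hk : 0 < k) (D : FD u k)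
    (m : S → R) (hadd : ∀ α β, m (α + β) = m α + m β) (hmul : ∀ α β, m (α * β) = m α * m β)
    (x : Rˣ) (hx : ∀ α, (x : R) * m α = m ((u : S) * α * ((u⁻¹ : Sˣ) : S)) * x)
    (hnil : ((x : R) - 1) ^ k * m 1 = 0) :
    ∃ lam : ℕ → R,
      ∑ j ∈ range k, ((x : R) - 1) ^ j * lam j = m 1 ∧
      (∀ j, m 1 * lam j = lam j ∧ lam j * m 1 = lam j) ∧
      lam 0 * ((x : R) - 1) = 0 ∧
      (∀ j, j + 1 < k → lam (j + 1) * ((x : R) - 1) = lam j) ∧
      ∀ τ : R, τ * x = x * τ → (∀ α, τ * m α = m α * τ) → ∀ j, τ * lam j = lam j * τ := by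
  obtain ⟨y, hy⟩ : ∃ y : R, y = ((x⁻¹ : Rˣ) : R) := ⟨_, rfl⟩
  obtain ⟨v, hv⟩ : ∃ v : S, v = ((u⁻¹ : Sˣ) : S) := ⟨_, rfl⟩
  obtain ⟨t, ht⟩ : ∃ t : R, t = (x : R) - 1 := ⟨_, rfl⟩
  have hxy : (x : R) * y = 1 := by rw [hy]; exact x.mul_inv
  have hyx : y * (x : R) = 1 := by rw [hy]; exact x.inv_mul
  have huv : (u : S) * v = 1 := by rw [hv]; exact u.mul_inv
  have hcxy : Commute (x : R) y := hxy.trans hyx.symm
  have hxyj : ∀ j, (x : R) ^ j * y ^ j = 1 := fun j => by
    rw [← hcxy.mul_pow, hxy, one_pow]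
  have hyxj : ∀ j, y ^ j * (x : R) ^ j = 1 := fun j => by
    rw [← hcxy.symm.mul_pow, hyx, one_pow]
  have hvu : v * (u : S) = 1 := by rw [hv]; exact u.inv_mul
  have hcuv : Commute (u : S) v := huv.trans hvu.symm
  have huvj : ∀ j, (u : S) ^ j * v ^ j = 1 := fun j => by
    rw [← hcuv.mul_pow, huv, one_pow]
  rw [← ht] at hnil ⊢
  rw [← hv] at hx
  let ma : S →+ R := AddMonoidHom.mk' m hadd
  have hm0 : m 0 = 0 := ma.map_zero
  have hxj : ∀ j β, (x : R) ^ j * m β = m ((u : S) ^ j * β * v ^ j) * (x : R) ^ j := by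
    intro j
    induction j with
    | zero => intro β; simp
    | succ j ih =>
      intro β
      rw [pow_succ (x : R), mul_assoc, hx, ← mul_assoc, ih, pow_succ (u : S), pow_succ' v,
        mul_assoc (m _)]
      congr 2
      simp only [mul_assoc]
  have hxj' : ∀ j β, m β * y ^ j = y ^ j * m ((u : S) ^ j * β * v ^ j) := by
    intro j β
    calc m β * y ^ j = y ^ j * ((x : R) ^ j * m β) * y ^ j := by
          rw [← mul_assoc, hyxj, one_mul]
      _ = y ^ j * m ((u : S) ^ j * β * v ^ j) * ((x : R) ^ j * y ^ j) := by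
          rw [hxj]; simp only [mul_assoc]
      _ = _ := by rw [hxyj, mul_one]
  obtain ⟨a, ha⟩ : ∃ a : ℕ → R, a = fun j => y ^ j * m (D.ε j) := ⟨_, rfl⟩
  have hA1 : ∀ j < k, m (D.ε 0) * a j = a j := by
    intro j hj
    rw [ha]
    have h2 := D.e2 j hj
    rw [← hv] at h2
    calc m (D.ε 0) * (y ^ j * m (D.ε j)) = (m (D.ε 0) * y ^ j) * m (D.ε j) := by rw [mul_assoc]
      _ = y ^ j * (m ((u : S) ^ j * D.ε 0 * v ^ j) * m (D.ε j)) := by rw [hxj', mul_assoc]
      _ = y ^ j * m ((u : S) ^ j * (D.ε 0 * (v ^ j * D.ε j))) := by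
          rw [← hmul]; simp only [mul_assoc]
      _ = _ := by rw [h2, ← mul_assoc ((u : S) ^ j), huvj, one_mul]
  have hA2 : ∀ i < k, ∀ j < k, a i * ((x : R) ^ j * m (D.ε 0)) = if i = j then m (D.ε 0) else 0 := by
    intro i hi j hj
    rw [ha]
    have h1 := D.e1 i hi j hj
    have h3 : y ^ i * m (D.ε i) * ((x : R) ^ j * m (D.ε 0)) =
        y ^ i * m (D.ε i * (u : S) ^ j * D.ε 0 * v ^ j) * (x : R) ^ j := by
      rw [hxj, mul_assoc (y ^ i), ← mul_assoc (m (D.ε i)), ← hmul, ← mul_assoc (y ^ i)]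
      simp only [mul_assoc]
    change y ^ i * m (D.ε i) * ((x : R) ^ j * m (D.ε 0)) = _
    rw [h3, h1]
    split_ifs with hij
    · subst hij
      rw [mul_assoc, ← hxj, ← mul_assoc, hyxj, one_mul]
    · rw [zero_mul, hm0, mul_zero, zero_mul]
  have hE1 : ∀ j, m 1 * a j = a j := by
    intro j
    rw [ha]
    change m 1 * (y ^ j * m (D.ε j)) = y ^ j * m (D.ε j)
    rw [← mul_assoc, hxj', mul_one, huvj, mul_assoc, ← hmul, one_mul]
  have hE2 : ∀ j, a j * m 1 = a j := by
    intro j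
    rw [ha]
    change y ^ j * m (D.ε j) * m 1 = y ^ j * m (D.ε j)
    rw [mul_assoc, ← hmul, mul_one]
  obtain ⟨lam, hlam⟩ : ∃ lam : ℕ → R, lam = fun i => ∑ j ∈ range k, (j.choose i) • a j := ⟨_, rfl⟩
  have hl1 : ∀ i, m 1 * lam i = lam i := by
    intro i
    rw [hlam]
    change m 1 * ∑ j ∈ range k, (j.choose i) • a j = ∑ j ∈ range k, (j.choose i) • a j
    rw [Finset.mul_sum]
    exact Finset.sum_congr rfl fun j _ => by rw [mul_smul_comm, hE1]
  have hl2 : ∀ i, lam i * m 1 = lam i := by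
    intro i
    rw [hlam]
    change (∑ j ∈ range k, (j.choose i) • a j) * m 1 = ∑ j ∈ range k, (j.choose i) • a j
    rw [Finset.sum_mul]
    exact Finset.sum_congr rfl fun j _ => by rw [smul_mul_assoc, hE2]
  have hl3 : ∀ i, m (D.ε 0) * lam i = lam i := by
    intro i
    rw [hlam]
    change m (D.ε 0) * ∑ j ∈ range k, (j.choose i) • a j = ∑ j ∈ range k, (j.choose i) • a j
    rw [Finset.mul_sum]
    exact Finset.sum_congr rfl fun j hj => by rw [mul_smul_comm, hA1 j (Finset.mem_range.1 hj)]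
  have hxt : (x : R) = t + 1 := by rw [ht, sub_add_cancel]
  have htx : t = (x : R) + (-1) := by rw [ht, sub_eq_add_neg]
  -- the sum
  have hL1 : ∑ i ∈ range k, t ^ i * lam i = m 1 := by
    have h1 : ∀ j < k, ∑ i ∈ range k, (j.choose i) • t ^ i = (x : R) ^ j := by
      intro j hj
      rw [hxt, (Commute.one_right t).add_pow]
      rw [← Finset.sum_subset (Finset.range_subset_range.2 (show j + 1 ≤ k by omega))]
      · refine Finset.sum_congr rfl fun i _ => ?_
        rw [one_pow, mul_one, nsmul_eq_mul, Nat.cast_comm]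
      · intro i _ hi
        rw [Finset.mem_range, not_lt] at hi
        rw [Nat.choose_eq_zero_of_lt (by omega), zero_smul]
    have h2 : ∑ i ∈ range k, t ^ i * lam i =
        ∑ j ∈ range k, (∑ i ∈ range k, (j.choose i) • t ^ i) * a j := by
      rw [hlam]
      simp only [Finset.mul_sum, Finset.sum_mul]
      rw [Finset.sum_comm]
      refine Finset.sum_congr rfl fun j _ => Finset.sum_congr rfl fun i _ => ?_
      rw [mul_smul_comm, smul_mul_assoc]
    rw [h2]
    have h3 : ∑ j ∈ range k, (∑ i ∈ range k, (j.choose i) • t ^ i) * a j =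
        ∑ j ∈ range k, m (D.ε j) := by
      refine Finset.sum_congr rfl fun j hj => ?_
      rw [h1 j (Finset.mem_range.1 hj), ha]
      change (x : R) ^ j * (y ^ j * m (D.ε j)) = m (D.ε j)
      rw [← mul_assoc, hxyj, one_mul]
    rw [h3]
    have h4 : ∑ j ∈ range k, ma (D.ε j) = ma 1 := by rw [← map_sum, D.sum]
    exact h4
  -- duality
  have hL3 : ∀ i < k, ∀ j < k, lam i * (t ^ j * m (D.ε 0)) = if i = j then m (D.ε 0) else 0 := by
    intro i _ j hj
    have h1 : t ^ j = ∑ l ∈ range (j + 1), ((-1 : ℤ) ^ (j - l) * (j.choose l : ℤ)) • (x : R) ^ l := by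
      rw [htx, (Commute.neg_one_right (x : R)).add_pow]
      refine Finset.sum_congr rfl fun l _ => ?_
      rw [zsmul_eq_mul]
      push_cast
      rw [mul_assoc]
      refine (Commute.mul_right ?_ ?_ : Commute ((x : R) ^ l) _)
      · exact ((Commute.neg_one_right (x : R)).pow_pow _ _)
      · exact (Nat.cast_commute _ _).symm
    have h2 : ∀ l ∈ range (j + 1), lam i * ((x : R) ^ l * m (D.ε 0)) = (l.choose i) • m (D.ε 0) := by
      intro l hl
      rw [Finset.mem_range] at hl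
      rw [hlam]
      change (∑ j' ∈ range k, (j'.choose i) • a j') * ((x : R) ^ l * m (D.ε 0)) = _
      rw [Finset.sum_mul, Finset.sum_eq_single l]
      · rw [smul_mul_assoc, hA2 l (by omega) l (by omega), if_pos rfl]
      · intro j' hj' hne
        rw [smul_mul_assoc, hA2 j' (Finset.mem_range.1 hj') l (by omega), if_neg hne, smul_zero]
      · intro h
        exact absurd (Finset.mem_range.2 (by omega)) h
    rw [h1, Finset.sum_mul, Finset.mul_sum]
    have h3 : ∑ l ∈ range (j + 1), lam i * (((-1 : ℤ) ^ (j - l) * (j.choose l : ℤ)) • (x : R) ^ l *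
        m (D.ε 0)) = (∑ l ∈ range (j + 1), ((-1 : ℤ) ^ (j - l) * (j.choose l : ℤ)) *
          (l.choose i : ℤ)) • m (D.ε 0) := by
      rw [Finset.sum_smul]
      refine Finset.sum_congr rfl fun l hl => ?_
      rw [smul_mul_assoc, mul_smul_comm, h2 l hl,
        mul_smul ((-1 : ℤ) ^ (j - l) * (j.choose l : ℤ)) (l.choose i : ℤ), natCast_zsmul]
    rw [h3, Lam_binom]
    split_ifs
    · rw [one_smul]
    · rw [zero_smul]
  have hEt : m 1 * t = t * m 1 := by
    have h1 := hx 1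
    rw [mul_one, huv] at h1
    rw [ht, mul_sub, sub_mul, h1, mul_one, one_mul]
  have hL4 : ∀ i < k, lam i * t = ∑ j ∈ range (k - 1), if i = j + 1 then lam j else 0 := by
    intro i hi
    have h1 : lam i * t = lam i * t * m 1 := by
      rw [mul_assoc, ← hEt, ← mul_assoc, hl2]
    rw [h1, ← hL1, Finset.mul_sum]
    obtain ⟨k', rfl⟩ : ∃ k', k = k' + 1 := ⟨k - 1, by omega⟩
    rw [Nat.add_sub_cancel, Finset.sum_range_succ]
    have h2 : lam i * t * (t ^ k' * lam k') = 0 := by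
      have h3 : lam i * t * (t ^ k' * lam k') = lam i * (t ^ (k' + 1) * m 1 * lam k') := by
        rw [mul_assoc (t ^ (k' + 1)), hl1, pow_succ']
        simp only [mul_assoc]
      rw [h3, hnil, zero_mul, mul_zero]
    rw [h2, add_zero]
    refine Finset.sum_congr rfl fun j hj => ?_
    rw [Finset.mem_range] at hj
    have h3 : lam i * t * (t ^ j * lam j) = lam i * (t ^ (j + 1) * m (D.ε 0)) * lam j := by
      conv_lhs => rw [← hl3 j]
      rw [pow_succ']
      simp only [mul_assoc]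
    rw [h3, hL3 i hi (j + 1) (by omega)]
    split_ifs
    · exact hl3 j
    · rw [zero_mul]
  refine ⟨lam, hL1, fun j => ⟨hl1 j, hl2 j⟩, ?_, ?_, ?_⟩
  · rw [hL4 0 hk]
    exact Finset.sum_eq_zero fun j _ => if_neg (by omega)
  · intro j hj
    rw [hL4 (j + 1) hj, Finset.sum_eq_single j]
    · rw [if_pos rfl]
    · intro j' _ hne
      exact if_neg (by omega)
    · intro h
      exact absurd (Finset.mem_range.2 (by omega)) h
  · intro τ hτx hτm j
    have h1 : Commute τ (x : R) := hτx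
    have h2 : Commute τ y := by
      rw [hy]
      exact h1.units_inv_right
    rw [hlam]
    change τ * (∑ j' ∈ range k, (j'.choose j) • a j') = (∑ j' ∈ range k, (j'.choose j) • a j') * τ
    rw [Finset.mul_sum, Finset.sum_mul]
    refine Finset.sum_congr rfl fun j' _ => ?_
    rw [mul_smul_comm, smul_mul_assoc, ha]
    have h3 : Commute τ (y ^ j' * m (D.ε j')) := (h2.pow_right j').mul_right (hτm _)
    rw [h3.eq]

theorem exists_lam {S K W : Type} [Ring S] [Field K] [AddCommGroup W] [Module K W]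
    [FiniteDimensional K W] {u : Sˣ} {k : ℕ} (hk : 0 < k) (D : FD u k) (m : S → (W →ₗ[K] W))
    (hadd : ∀ α β, m (α + β) = m α + m β) (hmul : ∀ α β, m (α * β) = m α * m β)
    (x : (W →ₗ[K] W)ˣ)
    (hx : ∀ α, (x : W →ₗ[K] W) * m α = m ((u : S) * α * ((u⁻¹ : Sˣ) : S)) * x)
    (hnil : ((x : W →ₗ[K] W) - 1) ^ k * m 1 = 0) :
    ∃ lam : ℕ → (W →ₗ[K] W),
      ∑ j ∈ range k, ((x : W →ₗ[K] W) - 1) ^ j * lam j = m 1 ∧
      (∀ j, m 1 * lam j = lam j ∧ lam j * m 1 = lam j) ∧
      lam 0 * ((x : W →ₗ[K] W) - 1) = 0 ∧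
      (∀ j, j + 1 < k → lam (j + 1) * ((x : W →ₗ[K] W) - 1) = lam j) ∧
      ∀ τ : W →ₗ[K] W, τ * x = x * τ → (∀ α, τ * m α = m α * τ) → ∀ j, τ * lam j = lam j * τ :=
  Lam_ring hk D m hadd hmul x hx hnil

end Pool.Agent.Lib.MP_b9166b_al.Pt
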