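import Pool.Agent.Lib.MP_b9166b_al.Pt.Pgrp
import Pool.Agent.Lib.MP_b9166b_al.Pt.TsDefs

/-!
# MP_b9166b_al, PT: layers and root lifts

`Lay p Γ F V`: the finite group `Γ` acts linearly on `V` (`a`), `L` is a normal subgroup with
`SL(V) ≤ a L`, `Z` is a central subgroup of order prime to `p` acting by scalars, and the kernel of `a` on `L` is
a `p`-group modulo `Z`.
`tv v f = 1 + rk v f` (transvection if `f v = 0`). `T` = the `p`-elements of `L` which act trivially on `V`.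
`Rt v f g`: `g` is a root lift of `(v, f)`.

Proofs. `L_dec`: `(a x)^(p^j) = 1`, so `x^(p^j) ∈ L`, `a = 1`, and `x^(p^(j+i)) ∈ Z` by `ker`. `n` from `exists_ppart`,
`g = x^n`, `a g = a x`; `z = x^(1-n)` is a power of `x^(p^(j+i))` (the order of `x` divides `(1-n) * (power of p)`..., use
`orderOf x = p^s * m`, `n ≡ 1` mod `p^s`: `1 - n` is a multiple of `p^s`, and `⟨x^(p^s)⟩ = ⟨x^(p^(s+j+i))⟩`).
`mem_T`: the set is closed under products by `pw_mul` for the group `{g ∈ L, a g = 1}` and its central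
subgroup of the elements in `Z`. `T_normal`: conjugation. `Rt.exists`: take `g ∈ L` with `a g = tv v f`
(`det = 1`: `LinearMap.transvection.det` or `det_one_add_smulRight`) and its `p`-part (`exists_ppart`; `(tv v f)^p = 1` as
`(rk v f)^2 = 0` and `F` has characteristic `p`).
`Rt.mul_T`: `⟨g⟩ T` is a `p`-group (`T` normal): some `p`-power of `g t` is in `T`.
`Rt.unique`: `x = g⁻¹ g'` is in `L`, `a x = 1`, so `x^(p^j) ∈ Z`; let `n` be from `exists_ppart` for `x`: `x = t z` with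
`t = x^n`-part in `T` and `z` in `⟨x^(p^j)⟩ ≤ Z`. `g' = g t z`, `g t` is a `p`-element (`Rt.mul_T`), commutes
with `z`, so `z` is a `p`-element, `z = 1`.
`L_ker`: the same decomposition for any `x ∈ L`, `a x = 1`: `x = t z`, `t ∈ T`, `z ∈ Z`.
`Rt.comm`: `c = ⁅g, g'⁆ ∈ L`, `a c = 1`, `c = t z` by `L_ker`; modulo `T`: `g g' = z g' g` with `z` central of order
prime to `p`: `eq_one_of_comm` in `Γ ⧸ T` gives `z ∈ T`, so `z = 1`.
`Rt.add_left` : `⟨g, g'⟩ T / T` is abelian by `Rt.comm`, so `g g'` is a `p`-element modulo `T`, so a `p`-element.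
`Rt.brk` (`f' v = 0`): `c = ⁅g, g'⁆`, `a c = tv v (f v' • f')`. Let `x` be a root lift of `(v, f v' • f')`; `c = x t z`
(`L_ker` for `x⁻¹ c`). Modulo `T`, `x` commutes with `g, g'` (`Rt.comm`), so `c` commutes with `g`, `g'`
and `⁅g^n, g'⁆ = c^n`, with `n = p^j`, `g^n = 1`: `c^n ∈ T`; so `c` is a `p`-element.
`Rt.conj`: clear.
-/

set_option autoImplicit false

namespace Pool.Agent.Lib.MP_b9166b_al.Pt

open Module
open scoped commutatorElement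

/-- `1 + rk v f` -/
def tv {F V : Type} [Field F] [AddCommGroup V] [Module F V] (v : V) (f : Dual F V) : V →ₗ[F] V :=
  1 + rk v f

structure Lay (p : ℕ) (Γ F V : Type) [Group Γ] [Field F] [AddCommGroup V] [Module F V] where
  a : Γ →* (V →ₗ[F] V)
  L : Subgroup Γ
  norm : L.Normal
  surj : ∀ u : V →ₗ[F] V, LinearMap.det u = 1 → ∃ g ∈ L, a g = u
  Z : Subgroup Γ
  cen : Z ≤ Subgroup.center Γ
  cop : (Nat.card Z).Coprime p
  scal : ∀ z ∈ Z, ∃ e : F, a z = e • (1 : V →ₗ[F] V)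
  ker : ∀ g ∈ L, a g = 1 → ∃ j : ℕ, g ^ p ^ j ∈ Z

namespace Lay

variable {p : ℕ} {Γ F V : Type} [Group Γ] [Field F] [AddCommGroup V] [Module F V]

/-- the `p`-elements of `L` acting trivially on `V` -/
def T (ℓ : Lay p Γ F V) : Subgroup Γ :=
  Subgroup.closure {g | g ∈ ℓ.L ∧ ℓ.a g = 1 ∧ Pw p g}

/-- root lifts -/
def Rt (ℓ : Lay p Γ F V) (v : V) (f : Dual F V) (g : Γ) : Prop :=
  g ∈ ℓ.L ∧ Pw p g ∧ ℓ.a g = tv v f

variable (ℓ : Lay p Γ F V) [Finite Γ] (hp : p.Prime)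

omit [Finite Γ] in
theorem a_inv_mul (g : Γ) : ℓ.a g⁻¹ * ℓ.a g = 1 := by
  rw [← map_mul, inv_mul_cancel, map_one]

omit [Finite Γ] in
theorem a_mul_inv (g : Γ) : ℓ.a g * ℓ.a g⁻¹ = 1 := by
  rw [← map_mul, mul_inv_cancel, map_one]

omit [Finite Γ] in
theorem a_conj {g : Γ} (h : ℓ.a g = 1) (x : Γ) : ℓ.a (x * g * x⁻¹) = 1 := by
  rw [map_mul, map_mul, h, mul_one, ← map_mul, mul_inv_cancel, map_one]

omit [Finite Γ] in
/-- from `a x = a y` to `a (x * y⁻¹) = 1` -/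
theorem a_eq_one_of {x y : Γ} (h : ℓ.a x = ℓ.a y) : ℓ.a (x * y⁻¹) = 1 := by
  rw [map_mul, h, ← map_mul, mul_inv_cancel, map_one]

omit [Finite Γ] in
theorem Z_cen {z : Γ} (hz : z ∈ ℓ.Z) (g : Γ) : Commute z g :=
  ((Subgroup.mem_center_iff.1 (ℓ.cen hz)) g).symm

omit [Finite Γ] in
theorem Z_cop {z : Γ} (hz : z ∈ ℓ.Z) : (orderOf z).Coprime p := by
  refine Nat.Coprime.coprime_dvd_left ?_ ℓ.cop
  have h := orderOf_dvd_natCard (⟨z, hz⟩ : ℓ.Z)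
  rwa [← Subgroup.orderOf_coe] at h

include hp

/-- the `p`-elements in a subgroup of `L` which acts by `p`-elements form a subgroup -/
theorem pw_mul_aux {S : Subgroup Γ} (hS : S ≤ ℓ.L) (h : ∀ g ∈ S, ∃ j : ℕ, ℓ.a g ^ p ^ j = 1)
    {g g' : Γ} (hg : g ∈ S) (hg' : g' ∈ S) (h1 : Pw p g) (h2 : Pw p g') : Pw p (g * g') := by
  have hZ : ℓ.Z.subgroupOf S ≤ Subgroup.center S := by
    intro z hz
    rw [Subgroup.mem_center_iff]
    intro x
    exact Subtype.ext (Subgroup.mem_center_iff.1 (ℓ.cen (Subgroup.mem_subgroupOf.1 hz)) x)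
  have hc : (Nat.card (ℓ.Z.subgroupOf S)).Coprime p := by
    refine Nat.Coprime.coprime_dvd_left ?_ ℓ.cop
    refine Subgroup.card_dvd_of_injective
      ((S.subtype.comp (ℓ.Z.subgroupOf S).subtype).codRestrict ℓ.Z fun z =>
        Subgroup.mem_subgroupOf.1 z.2) ?_
    intro x y hxy
    have h3 := congrArg (fun w : ℓ.Z => (w : Γ)) hxy
    exact Subtype.ext (Subtype.ext h3)
  have hpow : ∀ x : S, ∃ j : ℕ, x ^ p ^ j ∈ ℓ.Z.subgroupOf S := by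
    intro x
    obtain ⟨j, hj⟩ := h x x.2
    obtain ⟨i, hi⟩ := ℓ.ker ((x : Γ) ^ p ^ j) (ℓ.L.pow_mem (hS x.2) _) (by rw [map_pow, hj])
    refine ⟨j + i, ?_⟩
    rw [Subgroup.mem_subgroupOf, Subgroup.coe_pow, pow_add, pow_mul]
    exact hi
  obtain ⟨i, hi⟩ := h1
  obtain ⟨j, hj⟩ := h2
  obtain ⟨m, hm⟩ := pw_mul hp (ℓ.Z.subgroupOf S) hZ hc hpow (g := ⟨g, hg⟩) (g' := ⟨g', hg'⟩)
    ⟨i, Subtype.ext hi⟩ ⟨j, Subtype.ext hj⟩
  exact ⟨m, congrArg (fun w : S => (w : Γ)) hm⟩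

theorem mem_T {g : Γ} : g ∈ ℓ.T ↔ g ∈ ℓ.L ∧ ℓ.a g = 1 ∧ Pw p g := by
  refine ⟨fun h => ?_, fun h => Subgroup.subset_closure h⟩
  induction h using Subgroup.closure_induction with
  | mem x hx => exact hx
  | one => exact ⟨ℓ.L.one_mem, map_one _, Pw.one⟩
  | mul x y _ _ hx hy =>
    refine ⟨ℓ.L.mul_mem hx.1 hy.1, by rw [map_mul, hx.2.1, hy.2.1, mul_one], ?_⟩
    refine ℓ.pw_mul_aux hp (S := ℓ.L ⊓ ℓ.a.ker) inf_le_left ?_ ⟨hx.1, hx.2.1⟩ ⟨hy.1, hy.2.1⟩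
      hx.2.2 hy.2.2
    intro z hz
    refine ⟨0, ?_⟩
    have h1 : ℓ.a z = 1 := hz.2
    rw [h1, one_pow]
  | inv x _ hx =>
    refine ⟨ℓ.L.inv_mem hx.1, ?_, hx.2.2.inv⟩
    have h1 := ℓ.a_inv_mul x
    rwa [hx.2.1, mul_one] at h1

theorem T_normal : ℓ.T.Normal := by
  refine ⟨fun g hg x => ?_⟩
  rw [ℓ.mem_T hp] at hg ⊢
  exact ⟨ℓ.norm.conj_mem g hg.1 x, ℓ.a_conj hg.2.1 x, hg.2.2.conj x⟩

theorem T_pgroup : IsPGroup p ℓ.T := by
  intro g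
  obtain ⟨j, hj⟩ := ((ℓ.mem_T hp).1 g.2).2.2
  exact ⟨j, Subtype.ext hj⟩

/-- an element with a `p`-power in `T` is a `p`-element -/
theorem pw_of_T {x : Γ} {j : ℕ} (h : x ^ p ^ j ∈ ℓ.T) : Pw p x := by
  obtain ⟨i, hi⟩ := ((ℓ.mem_T hp).1 h).2.2
  exact ⟨j + i, by rw [pow_add, pow_mul, hi]⟩

/-- a `p`-element modulo `T` is a `p`-element -/
theorem pw_of_mk {x : Γ} (h : letI := ℓ.T_normal hp; Pw p (QuotientGroup.mk' ℓ.T x)) :
    Pw p x := by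
  let _ := ℓ.T_normal hp
  obtain ⟨j, hj⟩ := h
  refine ℓ.pw_of_T hp (j := j) ?_
  rw [← map_pow] at hj
  exact (QuotientGroup.eq_one_iff _).1 hj

/-- an element of `L` acting as a `p`-element is a `p`-element times an element of `Z` -/
theorem L_dec {x : Γ} (h : x ∈ ℓ.L) (h1 : ∃ j : ℕ, ℓ.a x ^ p ^ j = 1) :
    ∃ g ∈ ℓ.L, ∃ z ∈ ℓ.Z, x = g * z ∧ Pw p g ∧ ℓ.a g = ℓ.a x := by
  obtain ⟨n, hn, hφ⟩ := exists_ppart hp x
  have hZn : ℓ.Z.Normal := ⟨fun z hz g => by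
    rw [← (ℓ.Z_cen hz g).eq, mul_inv_cancel_right]
    exact hz⟩
  refine ⟨x ^ n, ℓ.L.pow_mem h n, (x ^ n)⁻¹ * x, ?_, by rw [mul_inv_cancel_left], hn,
    hφ ℓ.a h1⟩
  obtain ⟨j, hj⟩ := h1
  obtain ⟨i, hi⟩ := ℓ.ker (x ^ p ^ j) (ℓ.L.pow_mem h _) (by rw [map_pow, hj])
  have h2 := hφ (QuotientGroup.mk' ℓ.Z) ⟨j + i, by
    rw [← map_pow, pow_add, pow_mul]
    exact (QuotientGroup.eq_one_iff _).2 hi⟩
  exact QuotientGroup.eq.1 h2

/-- the kernel of `a` on `L` -/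
theorem L_ker {x : Γ} (h : x ∈ ℓ.L) (h1 : ℓ.a x = 1) : ∃ t ∈ ℓ.T, ∃ z ∈ ℓ.Z, x = t * z := by
  obtain ⟨g, hg, z, hz, h2, h3, h4⟩ := ℓ.L_dec hp h ⟨0, by rw [h1, one_pow]⟩
  exact ⟨g, (ℓ.mem_T hp).2 ⟨hg, h4.trans h1, h3⟩, z, hz, h2⟩

/-- an element of `L`, trivial on `V`, which is a `p`-element modulo `T`, is in `T` -/
theorem mem_T_of_pow {x : Γ} (h : x ∈ ℓ.L) (h1 : ℓ.a x = 1) (h2 : ∃ j : ℕ, x ^ p ^ j ∈ ℓ.T) :
    x ∈ ℓ.T := by
  obtain ⟨j, hj⟩ := h2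
  exact (ℓ.mem_T hp).2 ⟨h, h1, ℓ.pw_of_T hp hj⟩

omit hp [Finite Γ] in
theorem tv_eq {v : V} {f : Dual F V} : tv v f = 1 + rk v f := rfl

omit hp [Finite Γ] in
theorem rk_mul_rk (v v' : V) (f f' : Dual F V) : rk v f * rk v' f' = f v' • rk v f' := by
  ext w
  simp only [Module.End.mul_apply, rk_apply, LinearMap.smul_apply, map_smul, smul_eq_mul,
    smul_smul]
  rw [mul_comm]

omit hp [Finite Γ] in
theorem tv_pow {v : V} {f : Dual F V} (h : f v = 0) (n : ℕ) :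
    (tv v f) ^ n = 1 + n • rk v f := by
  induction n with
  | zero => rw [pow_zero, zero_smul, add_zero]
  | succ n ih =>
    rw [pow_succ, ih, tv_eq, mul_add, mul_one, add_mul, one_mul, smul_mul_assoc, rk_mul_rk, h,
      zero_smul, smul_zero, add_zero, add_assoc, succ_nsmul]

variable [CharP F p] [FiniteDimensional F V]

theorem Rt.exists {v : V} {f : Dual F V} (h : f v = 0) : ∃ g, ℓ.Rt v f g := by
  have hdet : LinearMap.det (tv v f) = 1 := by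
    have h1 := LinearMap.transvection.det f v
    rw [h, add_zero] at h1
    exact h1
  obtain ⟨g, hg, h2⟩ := ℓ.surj _ hdet
  obtain ⟨g', hg', z, hz, h3, h4, h5⟩ := ℓ.L_dec hp hg ⟨1, by
    rw [h2, pow_one, tv_pow h, ← Nat.cast_smul_eq_nsmul F, CharP.cast_eq_zero, zero_smul,
      add_zero]⟩
  exact ⟨g', hg', h4, h5.trans h2⟩

omit [CharP F p] [FiniteDimensional F V] in
theorem Rt.mul_T {v : V} {f : Dual F V} {g t : Γ} (h : ℓ.Rt v f g) (ht : t ∈ ℓ.T) :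
    ℓ.Rt v f (g * t) := by
  have h1 := (ℓ.mem_T hp).1 ht
  refine ⟨ℓ.L.mul_mem h.1 h1.1, ?_, by rw [map_mul, h1.2.1, mul_one, h.2.2]⟩
  let _ := ℓ.T_normal hp
  refine ℓ.pw_of_mk hp ?_
  rw [map_mul, show QuotientGroup.mk' ℓ.T t = 1 from (QuotientGroup.eq_one_iff _).2 ht, mul_one]
  exact h.2.1.map _

omit [CharP F p] [FiniteDimensional F V] in
theorem Rt.unique {v : V} {f : Dual F V} {g g' : Γ} (h : ℓ.Rt v f g) (h' : ℓ.Rt v f g') :
    g⁻¹ * g' ∈ ℓ.T := by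
  have h1 : ℓ.a (g⁻¹ * g') = 1 := by
    rw [map_mul, h'.2.2, ← h.2.2, ← map_mul, inv_mul_cancel, map_one]
  obtain ⟨t, ht, z, hz, h2⟩ := ℓ.L_ker hp (ℓ.L.mul_mem (ℓ.L.inv_mem h.1) h'.1) h1
  have h3 : g' = g * t * z := by
    rw [mul_assoc, ← h2, mul_inv_cancel_left]
  have h4 := (Rt.mul_T ℓ hp h ht).2.1
  have h5 : z = (g * t)⁻¹ * g' := by
    rw [h3, inv_mul_cancel_left]
  have h6 : Commute (g * t)⁻¹ g' := by
    rw [h3]
    exact ((Commute.refl (g * t)).mul_right (ℓ.Z_cen hz (g * t)).symm).inv_left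
  have h7 : z = 1 := by
    refine Pw.eq_one (p := p) ?_ (ℓ.Z_cop hz)
    rw [h5]
    exact h4.inv.mul h'.2.1 h6
  rw [h2, h7, mul_one]
  exact ht

omit [CharP F p] [FiniteDimensional F V] in
theorem Rt.conj {v : V} {f : Dual F V} {g : Γ} (h : ℓ.Rt v f g) (x : Γ) :
    ℓ.Rt (ℓ.a x v) (f ∘ₗ ℓ.a x⁻¹) (x * g * x⁻¹) := by
  refine ⟨ℓ.norm.conj_mem g h.1 x, h.2.1.conj x, ?_⟩
  rw [map_mul, map_mul, h.2.2, tv_eq, tv_eq, mul_add, mul_one, add_mul, a_mul_inv]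
  congr 1
  ext w
  simp only [Module.End.mul_apply, rk_apply, LinearMap.comp_apply, map_smul]

omit hp [Finite Γ] [CharP F p] [FiniteDimensional F V] in
theorem L_comm {g g' : Γ} (h : g ∈ ℓ.L) (h' : g' ∈ ℓ.L) : ⁅g, g'⁆ ∈ ℓ.L := by
  rw [commutatorElement_def]
  exact ℓ.L.mul_mem (ℓ.L.mul_mem (ℓ.L.mul_mem h h') (ℓ.L.inv_mem h)) (ℓ.L.inv_mem h')

omit hp [Finite Γ] [CharP F p] [FiniteDimensional F V] in
theorem comm_eq (g g' : Γ) : ⁅g, g'⁆ = g * g' * (g' * g)⁻¹ := by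
  rw [commutatorElement_def, mul_inv_rev]
  simp only [mul_assoc]

omit [CharP F p] [FiniteDimensional F V] in
theorem Rt.comm {v v' : V} {f f' : Dual F V} {g g' : Γ} (h : ℓ.Rt v f g) (h' : ℓ.Rt v' f' g')
    (h1 : f v' = 0) (h2 : f' v = 0) : ⁅g, g'⁆ ∈ ℓ.T := by
  have h3 : ℓ.a ⁅g, g'⁆ = 1 := by
    rw [comm_eq]
    refine ℓ.a_eq_one_of ?_
    rw [map_mul, map_mul, h.2.2, h'.2.2, tv_eq, tv_eq]
    simp only [mul_add, add_mul, rk_mul_rk, h1, h2, one_mul, mul_one, zero_smul, add_zero]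
    abel
  obtain ⟨t, ht, z, hz, h4⟩ := ℓ.L_ker hp (ℓ.L_comm h.1 h'.1) h3
  let _ := ℓ.T_normal hp
  have ht1 : QuotientGroup.mk' ℓ.T t = 1 := (QuotientGroup.eq_one_iff _).2 ht
  have h5 : QuotientGroup.mk' ℓ.T z = 1 := by
    refine eq_one_of_comm (p := p) (g := QuotientGroup.mk' ℓ.T g) (h := QuotientGroup.mk' ℓ.T g')
      (h.2.1.map _) ((ℓ.Z_cen hz g).map _)
      (Nat.Coprime.coprime_dvd_left (orderOf_map_dvd _ z) (ℓ.Z_cop hz)) ?_
    have h6 : g * g' = t * z * g' * g := by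
      rw [← h4, comm_eq, mul_assoc (g * g' * (g' * g)⁻¹), inv_mul_cancel_right]
    rw [← map_mul, h6, map_mul, map_mul, map_mul, ht1, one_mul]
  rw [h4]
  exact ℓ.T.mul_mem ht ((QuotientGroup.eq_one_iff _).1 h5)

omit [CharP F p] [FiniteDimensional F V] in
/-- the images modulo `T` commute -/
theorem Rt.commute_mk {v v' : V} {f f' : Dual F V} {g g' : Γ} (h : ℓ.Rt v f g)
    (h' : ℓ.Rt v' f' g') (h1 : f v' = 0) (h2 : f' v = 0) :
    letI := ℓ.T_normal hp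
    Commute (QuotientGroup.mk' ℓ.T g) (QuotientGroup.mk' ℓ.T g') := by
  let _ := ℓ.T_normal hp
  have h3 := Rt.comm ℓ hp h h' h1 h2
  have h4 : QuotientGroup.mk' ℓ.T ⁅g, g'⁆ = 1 := (QuotientGroup.eq_one_iff _).2 h3
  rw [comm_eq, map_mul, map_inv, mul_inv_eq_one, map_mul, map_mul] at h4
  exact h4

omit [CharP F p] [FiniteDimensional F V] in
theorem Rt.add_left {v v' : V} {f : Dual F V} {g g' : Γ} (h : ℓ.Rt v f g) (h' : ℓ.Rt v' f g')
    (h1 : f v = 0) (h2 : f v' = 0) : ℓ.Rt (v + v') f (g * g') := by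
  refine ⟨ℓ.L.mul_mem h.1 h'.1, ?_, ?_⟩
  · let _ := ℓ.T_normal hp
    refine ℓ.pw_of_mk hp ?_
    rw [map_mul]
    exact (h.2.1.map _).mul (h'.2.1.map _) (Rt.commute_mk ℓ hp h h' h2 h1)
  · rw [map_mul, h.2.2, h'.2.2, tv_eq, tv_eq, tv_eq, mul_add, add_mul, add_mul, rk_mul_rk, h2]
    ext w
    simp only [one_mul, mul_one, zero_smul, add_zero, LinearMap.add_apply, rk_apply, smul_add]
    abel

omit [CharP F p] [FiniteDimensional F V] in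
theorem Rt.add_right {v : V} {f f' : Dual F V} {g g' : Γ} (h : ℓ.Rt v f g) (h' : ℓ.Rt v f' g')
    (h1 : f v = 0) (h2 : f' v = 0) : ℓ.Rt v (f + f') (g * g') := by
  refine ⟨ℓ.L.mul_mem h.1 h'.1, ?_, ?_⟩
  · let _ := ℓ.T_normal hp
    refine ℓ.pw_of_mk hp ?_
    rw [map_mul]
    exact (h.2.1.map _).mul (h'.2.1.map _) (Rt.commute_mk ℓ hp h h' h1 h2)
  · rw [map_mul, h.2.2, h'.2.2, tv_eq, tv_eq, tv_eq, mul_add, add_mul, add_mul, rk_mul_rk, h1]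
    ext w
    simp only [one_mul, mul_one, zero_smul, add_zero, LinearMap.add_apply, rk_apply, add_smul]
    abel

omit [CharP F p] [FiniteDimensional F V] in
theorem Rt.smul {c : F} {v : V} {f : Dual F V} {g : Γ} : ℓ.Rt (c • v) f g ↔ ℓ.Rt v (c • f) g := by
  have h : tv (c • v) f = tv v (c • f) := by
    rw [tv_eq, tv_eq]
    congr 1
    ext w
    simp only [rk_apply, LinearMap.smul_apply, smul_smul, smul_eq_mul]
    rw [mul_comm]
  unfold Rt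
  rw [h]

omit [CharP F p] [FiniteDimensional F V] in
theorem Rt.zero : ℓ.Rt 0 0 1 ∧ ∀ f : Dual F V, ℓ.Rt 0 f 1 := by
  have h : ∀ f : Dual F V, ℓ.Rt 0 f 1 := by
    intro f
    refine ⟨ℓ.L.one_mem, Pw.one, ?_⟩
    rw [map_one, tv_eq]
    ext w
    simp only [LinearMap.add_apply, rk_apply, smul_zero, add_zero]
  exact ⟨h 0, h⟩

theorem Rt.brk {v v' : V} {f f' : Dual F V} {g g' : Γ} (h : ℓ.Rt v f g) (h' : ℓ.Rt v' f' g')
    (h1 : f v = 0) (h2 : f' v' = 0) (h3 : f' v = 0) : ℓ.Rt v (f v' • f') ⁅g, g'⁆ := by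
  have hL := ℓ.L_comm h.1 h'.1
  have ha : ℓ.a ⁅g, g'⁆ = tv v (f v' • f') := by
    have h4 : ℓ.a (g * g') = tv v (f v' • f') * ℓ.a (g' * g) := by
      have e1 : rk v f * rk v' f' = rk v (f v' • f') := by
        rw [rk_mul_rk]
        ext w
        simp only [rk_apply, LinearMap.smul_apply, smul_smul, smul_eq_mul]
      have e2 : rk v' f' * rk v f = 0 := by rw [rk_mul_rk, h3, zero_smul]
      have e3 : rk v (f v' • f') * rk v' f' = 0 := by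
        rw [rk_mul_rk, LinearMap.smul_apply, h2, smul_zero, zero_smul]
      have e4 : rk v (f v' • f') * rk v f = 0 := by
        rw [rk_mul_rk, LinearMap.smul_apply, h3, smul_zero, zero_smul]
      rw [map_mul, map_mul, h.2.2, h'.2.2, tv_eq, tv_eq, tv_eq]
      simp only [mul_add, add_mul, one_mul, mul_one, e1, e2, e3, e4, mul_zero, add_zero]
      abel
    rw [comm_eq, map_mul, h4, mul_assoc, ← map_mul, mul_inv_cancel, map_one, mul_one]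
  refine ⟨hL, ?_, ha⟩
  have h5 : (f v' • f') v = 0 := by
    rw [LinearMap.smul_apply, h3, smul_zero]
  obtain ⟨x, hx⟩ := Rt.exists ℓ hp h5
  have h6 : ℓ.a (x⁻¹ * ⁅g, g'⁆) = 1 := by
    rw [map_mul, ha, ← hx.2.2, ← map_mul, inv_mul_cancel, map_one]
  obtain ⟨t, ht, z, hz, h7⟩ := ℓ.L_ker hp (ℓ.L.mul_mem (ℓ.L.inv_mem hx.1) hL) h6
  let _ := ℓ.T_normal hp
  have ht1 : QuotientGroup.mk' ℓ.T t = 1 := (QuotientGroup.eq_one_iff _).2 ht
  have h8 : QuotientGroup.mk' ℓ.T ⁅g, g'⁆ =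
      QuotientGroup.mk' ℓ.T x * QuotientGroup.mk' ℓ.T z := by
    have h9 : ⁅g, g'⁆ = x * (t * z) := by rw [← h7, mul_inv_cancel_left]
    rw [h9, map_mul, map_mul, ht1, one_mul]
  have hcx : Commute (QuotientGroup.mk' ℓ.T x) (QuotientGroup.mk' ℓ.T g) :=
    Rt.commute_mk ℓ hp hx h h5 h1
  have hc : Commute (QuotientGroup.mk' ℓ.T ⁅g, g'⁆) (QuotientGroup.mk' ℓ.T g) := by
    rw [h8]
    exact hcx.mul_left ((ℓ.Z_cen hz g).map _)
  refine ℓ.pw_of_mk hp ?_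
  have h10 : (QuotientGroup.mk' ℓ.T ⁅g, g'⁆)⁻¹ * QuotientGroup.mk' ℓ.T g =
      QuotientGroup.mk' ℓ.T g' * QuotientGroup.mk' ℓ.T g * (QuotientGroup.mk' ℓ.T g')⁻¹ := by
    rw [← map_inv, ← map_mul, ← map_mul, ← map_inv, ← map_mul]
    congr 1
    rw [comm_eq]
    group
  have hg1 : Pw p (QuotientGroup.mk' ℓ.T g) := h.2.1.map _
  have h11 : Pw p ((QuotientGroup.mk' ℓ.T ⁅g, g'⁆)⁻¹ * QuotientGroup.mk' ℓ.T g) := by
    rw [h10]
    exact hg1.conj _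
  have h12 : Pw p ((QuotientGroup.mk' ℓ.T ⁅g, g'⁆)⁻¹ * QuotientGroup.mk' ℓ.T g *
      (QuotientGroup.mk' ℓ.T g)⁻¹) :=
    h11.mul hg1.inv ((hc.inv_left.mul_left (Commute.refl _)).inv_right)
  rw [mul_inv_cancel_right] at h12
  have h13 := h12.inv
  rwa [inv_inv] at h13

/-- the `p`-elements in a subgroup of `L` which acts by `p`-elements form a subgroup -/
theorem pw_mul_of {S : Subgroup Γ} (hS : S ≤ ℓ.L) (h : ∀ g ∈ S, ∃ j : ℕ, ℓ.a g ^ p ^ j = 1)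
    {g g' : Γ} (hg : g ∈ S) (hg' : g' ∈ S) (h1 : Pw p g) (h2 : Pw p g') : Pw p (g * g') :=
  ℓ.pw_mul_aux hp hS h hg hg' h1 h2

end Lay

end Pool.Agent.Lib.MP_b9166b_al.Pt
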