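import Pool.Agent.Lib.MP_b9166b_al.Ks.PartB

/-!
# MP_b9166b_al, PT: involutions moving 16 basis vectors

`rank_D`: `1 - A` has rank `8`, for `A` permuting a part of a basis by an involution with 8 transpositions. `rank_X0`: the rank over `F` of `1 - P.X0 A`.
`three_cyc`: a three cycle on at least 17 points is the product of two such involutions.
-/

set_option autoImplicit false

namespace Pool.Agent.Lib.MP_b9166b_al.Pt

open Module Equiv Equiv.Perm

/-- a product of eight disjoint transpositions -/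
structure Inv8 {ι : Type} (τ : Perm ι) (r : Fin 8 → ι) : Prop where
  sq : τ * τ = 1
  inj : Function.Injective r
  ne : ∀ i j, τ (r i) ≠ r j
  cov : ∀ i, τ i = i ∨ (∃ j, i = r j) ∨ ∃ j, i = τ (r j)

theorem rank_D {E W : Type} [Field E] [AddCommGroup W] [Module E W] {ι κ : Type}
    [DecidableEq ι]
    (w : Basis (ι ⊕ κ) E W) (A : W →ₗ[E] W) {τ : Perm ι} {r : Fin 8 → ι} (h : Inv8 τ r)
    (hA : ∀ i, A (w (Sum.inl i)) = w (Sum.inl (τ i)))
    (hA' : ∀ i, A (w (Sum.inr i)) = w (Sum.inr i)) :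
    finrank E (LinearMap.range (1 - A)) = 8 := by
  classical
  have hττ : ∀ i, τ (τ i) = i := fun i => by
    rw [← Perm.mul_apply, h.sq, Perm.one_apply]
  let Φ : (Fin 8 → E) →ₗ[E] W :=
    Fintype.linearCombination E (fun j => w (Sum.inl (r j)) - w (Sum.inl (τ (r j))))
  let Ψ : W →ₗ[E] (Fin 8 → E) := LinearMap.pi fun j => w.coord (Sum.inl (r j))
  have hΦ : ∀ a, Φ a = ∑ j, a j • (w (Sum.inl (r j)) - w (Sum.inl (τ (r j)))) := fun a =>
    Fintype.linearCombination_apply E _ a
  have hΨ : ∀ i j, Ψ (w (Sum.inl i)) j = if i = r j then 1 else 0 := by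
    intro i j
    change w.coord (Sum.inl (r j)) (w (Sum.inl i)) = _
    rw [Basis.coord_apply, Basis.repr_self, Finsupp.single_apply]
    by_cases hij : i = r j
    · rw [if_pos (congrArg Sum.inl hij), if_pos hij]
    · rw [if_neg fun hh => hij (Sum.inl_injective hh), if_neg hij]
  have hi : ∀ a, Ψ (Φ a) = a := by
    intro a
    funext j
    rw [hΦ, map_sum, Finset.sum_apply, Finset.sum_eq_single j]
    · rw [map_smul, map_sub, Pi.smul_apply, Pi.sub_apply, hΨ, hΨ, if_pos rfl,
        if_neg (h.ne j j), sub_zero, smul_eq_mul, mul_one]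
    · intro i _ hij
      rw [map_smul, map_sub, Pi.smul_apply, Pi.sub_apply, hΨ, hΨ,
        if_neg fun hh => hij (h.inj hh), if_neg (h.ne i j), sub_zero, smul_zero]
    · intro hj
      exact absurd (Finset.mem_univ j) hj
  have hinj : Function.Injective Φ := Function.LeftInverse.injective hi
  have hv : ∀ j, Φ (Pi.single j 1) = w (Sum.inl (r j)) - w (Sum.inl (τ (r j))) := by
    intro j
    rw [hΦ, Finset.sum_eq_single j]
    · rw [Pi.single_eq_same, one_smul]
    · intro i _ hij
      rw [Pi.single_eq_of_ne hij, zero_smul]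
    · intro hj
      exact absurd (Finset.mem_univ j) hj
  have hr : LinearMap.range (1 - A) = LinearMap.range Φ := by
    apply le_antisymm
    · rw [LinearMap.range_eq_map (1 - A), ← w.span_eq, Submodule.map_span, Submodule.span_le]
      rintro _ ⟨_, ⟨i, rfl⟩, rfl⟩
      rcases i with i | i
      · have e1 : (1 - A) (w (Sum.inl i)) = w (Sum.inl i) - w (Sum.inl (τ i)) := by
          rw [LinearMap.sub_apply, Module.End.one_apply, hA]
        rw [e1]
        rcases h.cov i with h1 | ⟨j, rfl⟩ | ⟨j, rfl⟩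
        · rw [h1, sub_self]
          exact Submodule.zero_mem _
        · exact ⟨_, hv j⟩
        · rw [hττ]
          refine ⟨-(Pi.single j 1), ?_⟩
          rw [map_neg, hv, neg_sub]
      · have e1 : (1 - A) (w (Sum.inr i)) = 0 := by
          rw [LinearMap.sub_apply, Module.End.one_apply, hA', sub_self]
        rw [e1]
        exact Submodule.zero_mem _
    · rintro _ ⟨a, rfl⟩
      rw [hΦ]
      refine Submodule.sum_mem _ fun j _ => Submodule.smul_mem _ _ ⟨w (Sum.inl (r j)), ?_⟩
      rw [LinearMap.sub_apply, Module.End.one_apply, hA]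
  rw [hr, LinearMap.finrank_range_of_inj hinj, finrank_fin_fun]

/-- the rank of `1 - P.X0 A` -/
theorem rank_X0 {F V : Type} [Field F] [AddCommGroup V] [Module F V] {a : V →ₗ[F] V} {m : ℕ}
    (P : Ks.Part F V a m) (A : P.W →ₗ[P.E] P.W) :
    finrank F (LinearMap.range (1 - P.X0 A)) =
      finrank F P.E * finrank P.E (LinearMap.range (1 - A)) := by
  have hX : ∀ v, (1 - P.X0 A) v = P.j ((1 - A) (P.q v)) := by
    intro v
    rw [LinearMap.sub_apply, Module.End.one_apply, P.X0_apply, LinearMap.sub_apply,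
      Module.End.one_apply, map_sub]
    abel
  have h1 : LinearMap.range (1 - P.X0 A) =
      (LinearMap.range ((1 - A).restrictScalars F)).map P.j := by
    apply le_antisymm
    · rintro _ ⟨v, rfl⟩
      exact ⟨(1 - A) (P.q v), ⟨P.q v, rfl⟩, (hX v).symm⟩
    · rintro _ ⟨_, ⟨y, rfl⟩, rfl⟩
      refine ⟨P.j y, ?_⟩
      rw [hX, P.qj]
      rfl
  rw [h1, ← LinearEquiv.finrank_eq (Submodule.equivMapOfInjective P.j P.j_inj _),
    Module.finrank_mul_finrank F P.E (LinearMap.range (1 - A))]
  rfl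

/-- transport of a product of eight transpositions -/
theorem Inv8.via {ι : Type} {t : Perm (Fin 17)} {r : Fin 8 → Fin 17} (h : Inv8 t r)
    (e : Fin 17 ↪ ι) : Inv8 (t.viaEmbedding e) (fun j => e (r j)) where
  sq := by
    rw [← viaEmbeddingHom_apply, ← map_mul, h.sq, map_one]
  inj := fun i j hij => h.inj (e.injective hij)
  ne := fun i j hij => by
    rw [viaEmbedding_apply] at hij
    exact h.ne i j (e.injective hij)
  cov := by
    intro i
    by_cases hi : i ∈ Set.range e
    · obtain ⟨i, rfl⟩ := hi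
      rcases h.cov i with h1 | ⟨j, h1⟩ | ⟨j, h1⟩
      · left
        rw [viaEmbedding_apply, h1]
      · right
        left
        exact ⟨j, by rw [h1]⟩
      · right
        right
        exact ⟨j, by rw [viaEmbedding_apply, ← h1]⟩
    · left
      exact viaEmbedding_apply_of_notMem t e i hi

/-- the common part -/
def sg : Perm (Fin 17) :=
  swap 3 4 * swap 5 6 * swap 7 8 * swap 9 10 * swap 11 12 * swap 13 14 * swap 15 16

def t1 : Perm (Fin 17) := swap 0 1 * sg

def t2 : Perm (Fin 17) := swap 1 2 * sg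

theorem t1_t2 : t1 * t2 = swap 0 1 * swap 1 2 := by
  decide

theorem inv_t1 : Inv8 t1 ![0, 3, 5, 7, 9, 11, 13, 15] := by
  refine ⟨?_, ?_, ?_, ?_⟩ <;> decide

theorem inv_t2 : Inv8 t2 ![1, 3, 5, 7, 9, 11, 13, 15] := by
  refine ⟨?_, ?_, ?_, ?_⟩ <;> decide

theorem ias {ι : Type} (g : Perm ι) (y : ι) : g⁻¹ (g y) = y := g.symm_apply_apply y

theorem Inv8.conj {ι : Type} {τ : Perm ι} {r : Fin 8 → ι} (h : Inv8 τ r) (g : Perm ι) :
    Inv8 (g * τ * g⁻¹) (fun j => g (r j)) where
  sq := by
    have e : g * τ * g⁻¹ * (g * τ * g⁻¹) = g * (τ * τ) * g⁻¹ := by group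
    rw [e, h.sq, mul_one, mul_inv_cancel]
  inj := fun i j hij => h.inj (g.injective hij)
  ne := fun i j hij => by
    rw [Perm.mul_apply, Perm.mul_apply, ias] at hij
    exact h.ne i j (g.injective hij)
  cov := by
    intro i
    obtain ⟨i, rfl⟩ := g.surjective i
    rcases h.cov i with h1 | ⟨j, h1⟩ | ⟨j, h1⟩
    · left
      rw [Perm.mul_apply, Perm.mul_apply, ias, h1]
    · right
      left
      exact ⟨j, by rw [h1]⟩
    · right
      right
      refine ⟨j, ?_⟩
      rw [Perm.mul_apply, Perm.mul_apply, ias, ← h1]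

theorem three_cyc {ι : Type} [Fintype ι] [DecidableEq ι] (hc : 17 ≤ Fintype.card ι) {σ : Perm ι}
    (hσ : IsThreeCycle σ) : ∃ (τ τ' : Perm ι) (r r' : Fin 8 → ι), Inv8 τ r ∧ Inv8 τ' r' ∧
      σ = τ * τ' := by
  classical
  have h0 : Fintype.card (Fin 17) ≤ Fintype.card ι := by rwa [Fintype.card_fin]
  obtain ⟨e⟩ := Function.Embedding.nonempty_of_card_le h0
  have h1 : IsThreeCycle (t1 * t2) := by
    have h2 : t1 * t2 = swap 1 0 * swap 1 2 := by rw [t1_t2, swap_comm]
    rw [h2]
    exact isThreeCycle_swap_mul_swap_same (by decide) (by decide) (by decide)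
  have h2 : ((t1 * t2).viaEmbedding e).cycleType = σ.cycleType := by
    have h3 : ((t1 * t2).viaEmbedding e).cycleType = (t1 * t2).cycleType :=
      @cycleType_extendDomain (Fin 17) _ _ ι _ _ (fun b => b ∈ Set.range e.1)
        (fun _ => Classical.propDecidable _) (ofInjective e.1 e.2) (t1 * t2)
    rw [h3, h1.cycleType, hσ.cycleType]
  obtain ⟨g, hg⟩ := isConj_iff.1 (isConj_iff_cycleType_eq.2 h2)
  refine ⟨_, _, _, _, (inv_t1.via e).conj g, (inv_t2.via e).conj g, ?_⟩
  rw [← hg, ← viaEmbeddingHom_apply, ← viaEmbeddingHom_apply, ← viaEmbeddingHom_apply, map_mul]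
  group

end Pool.Agent.Lib.MP_b9166b_al.Pt
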