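import Pool.Agent.Lib.MP_b9166b_al.Pt.Cvc
import Pool.Agent.Lib.MP_b9166b_al.Ks.PartB
import Pool.Agent.Lib.MP_b9166b_al.Pt.LfA

/-!
# MP_b9166b_al, PT: lifting even permutations (7.0)

`c.Xr uc k = range ((uc - 1)^(k-1))`, `rX b`: the restriction of `b` (commuting with `uc`) to it. `Lifts`: even permutations of at least 17 vectors of a basis of a part of
`(Xr, s)` are induced by elements of `LL` commuting with `x`.

`lift_even`: the permutations `π` of `ι` for which the conclusion holds form a subgroup (`P.X0Hom`, products; inverses); by `closure_three_cycles_eq_alternating` it is enough to take a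
three cycle, which is `τ₁ * τ₂` with `τ₁ = swap a b * σ`, `τ₂ = swap b c * σ`, `σ` a product of 7 disjoint transpositions away from `a, b, c` (`3 + 14 ≤ 17`). So let `τ` be a product of 8 disjoint
transpositions, `θ = P.X0 (Θ τ)`, `θ² = 1`, `ε = (1/2) (1 - θ)` (`p ≠ 2`), commuting with `s` (`P.ext_comm`). The range of `ε` is `P.j` of the `E`-span of the 8 vectors
`w i - w (τ i)`: dimension `8 * finrank F E`, even and `≥ 8`. `cov_inv` for `c` and a cover `d` from `hcof` (with `S` = the set of `Nt c` and the elements of `c.H`; `d.Ge` gives `hdH` and `c.H ≤ d.H`).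
-/

set_option autoImplicit false

namespace Pool.Agent.Lib.MP_b9166b_al.Pt

open Module Cvr Equiv Equiv.Perm

/-- the restriction to the range of `T` of a map commuting with `T` -/
def rX {F V : Type} [Field F] [AddCommGroup V] [Module F V] (T b : V →ₗ[F] V) (h : b * T = T * b) :
    LinearMap.range T →ₗ[F] LinearMap.range T :=
  b.restrict (by
    rintro _ ⟨y, rfl⟩
    exact ⟨b y, (LinearMap.congr_fun h y).symm⟩)

theorem rX_apply {F V : Type} [Field F] [AddCommGroup V] [Module F V] (T b : V →ₗ[F] V)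
    (h : b * T = T * b) (y : LinearMap.range T) : (rX T b h y : V) = b y := rfl

variable {p : ℕ} {G : Type} [Group G] {x u s : G}

/-- the lifting property of a cover -/
def Lifts (c : Cvr p G) (x : G) (uc sc : c.U) (T : c.V →ₗ[c.F] c.V)
    (h : sc.val * T = T * sc.val) : Prop :=
  ∀ (m : ℕ) (P : Ks.Part c.F (LinearMap.range T) (rX T sc.val h) m) (ι κ : Type) (_ : Fintype ι)
    (_ : DecidableEq ι), 17 ≤ Fintype.card ι → ∀ (w : Basis (ι ⊕ κ) P.E P.W)
    (Θ : Perm ι →* (P.W →ₗ[P.E] P.W)ˣ),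
    (∀ π i, (Θ π).val (w (Sum.inl i)) = w (Sum.inl (π i))) →
    (∀ π i, (Θ π).val (w (Sum.inr i)) = w (Sum.inr i)) → ∀ π ∈ alternatingGroup ι,
    ∃ (g : G) (v : c.U), Commute g x ∧ (g, v) ∈ c.LL ∧ v ∈ c.TV ∧ Commute v uc ∧ Commute v sc ∧
      ∀ y : LinearMap.range T, v.val y = (P.X0 (Θ π).val y : LinearMap.range T)

theorem lift_even (hp : p.Prime) (hp2 : p ≠ 2) (h : XD p x u s) {c : Cvr p G} {k : ℕ}
    (hk : 0 < k)
    (hD : ∃ S : Finset G, ∀ d : Cvr p G, d.Ge S → ∀ h : c.H ≤ d.H, ¬ Dg2 c d h 2)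
    (hcof : ∀ S : Finset G, ∃ d : Cvr p G, d.Ge S ∧ Kap d u k) (hx : x ∈ c.H) {uc sc : c.U}
    (hl : Xl c u s uc sc) (hkc : Kap c u k)
    (hT : sc.val * (uc.val - 1) ^ (k - 1) = (uc.val - 1) ^ (k - 1) * sc.val) :
    Lifts c x uc sc ((uc.val - 1) ^ (k - 1)) hT := by
  classical
  intro m P ι κ _ _ hcard w Θ hΘ hΘ' π hπ
  -- the permutations which lift
  let Gd : Subgroup (Perm ι) :=
    { carrier := {π | ∃ (g : G) (v : c.U), Commute g x ∧ (g, v) ∈ c.LL ∧ v ∈ c.TV ∧ Commute v uc ∧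
        Commute v sc ∧ ∀ y : LinearMap.range ((uc.val - 1) ^ (k - 1)),
          v.val y = (P.X0 (Θ π).val y : LinearMap.range ((uc.val - 1) ^ (k - 1)))}
      one_mem' := by
        refine ⟨1, 1, Commute.one_left _, c.LL.one_mem, c.TV.one_mem, Commute.one_left _,
          Commute.one_left _, fun y => ?_⟩
        have e1 : P.X0 (Θ 1).val = 1 := by
          rw [map_one, Units.val_one]
          exact P.X0Hom.map_one
        rw [e1]
        rfl
      mul_mem' := by
        rintro π π' ⟨g, v, h1, h2, h3, h4, h5, h6⟩ ⟨g', v', h1', h2', h3', h4', h5', h6'⟩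
        refine ⟨g * g', v * v', h1.mul_left h1', c.LL.mul_mem h2 h2', c.TV.mul_mem h3 h3',
          h4.mul_left h4', h5.mul_left h5', fun y => ?_⟩
        have e1 : P.X0 (Θ (π * π')).val = P.X0 (Θ π).val * P.X0 (Θ π').val := by
          rw [map_mul, Units.val_mul]
          exact P.X0Hom.map_mul _ _
        rw [e1, Units.val_mul, Module.End.mul_apply, Module.End.mul_apply, h6', h6]
      inv_mem' := by
        rintro π ⟨g, v, h1, h2, h3, h4, h5, h6⟩
        refine ⟨g⁻¹, v⁻¹, h1.inv_left, c.LL.inv_mem h2, c.TV.inv_mem h3, h4.inv_left,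
          h5.inv_left, fun y => ?_⟩
        have e1 : P.X0 (Θ π).val * P.X0 (Θ π⁻¹).val = 1 := by
          have e2 : P.X0 (Θ π).val * P.X0 (Θ π⁻¹).val = P.X0 ((Θ π).val * (Θ π⁻¹).val) :=
            (P.X0Hom.map_mul _ _).symm
          rw [e2, ← Units.val_mul, ← map_mul, mul_inv_cancel, map_one, Units.val_one]
          exact P.X0Hom.map_one
        have e3 := h6 (P.X0 (Θ π⁻¹).val y)
        rw [← Module.End.mul_apply, e1, Module.End.one_apply] at e3
        rw [← e3, ← Module.End.mul_apply, Units.inv_mul, Module.End.one_apply] }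
  suffices hG : alternatingGroup ι ≤ Gd from hG hπ
  -- the involutions
  have key : ∀ (τ : Perm ι) (r : Fin 8 → ι), Inv8 τ r → τ ∈ Gd := by
    intro τ r hτ
    obtain ⟨S, hS⟩ := hD
    have hfin : (c.H : Set G).Finite := c.fin
    obtain ⟨d, hd, hkd⟩ := hcof (S ∪ hfin.toFinset)
    have hd1 : d.Ge S := hd.mono Finset.subset_union_left
    have hd2 : ∀ g ∈ c.H, g ∈ S ∪ hfin.toFinset := fun g hg =>
      Finset.mem_union_right _ (hfin.mem_toFinset.2 hg)
    have hcd : c.H ≤ d.H := fun g hg => (hd g (hd2 g hg)).1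
    have hDg := hS d hd1 hcd
    have h2 : (2 : c.F) ≠ 0 := by
      intro h0
      have h1 : ((2 : ℕ) : c.F) = 0 := by exact_mod_cast h0
      rw [CharP.cast_eq_zero_iff c.F p] at h1
      exact hp2 ((Nat.prime_dvd_prime_iff_eq hp Nat.prime_two).1 h1)
    -- the involution
    have hθθ : P.X0 (Θ τ).val * P.X0 (Θ τ).val = 1 := by
      have e2 : P.X0 (Θ τ).val * P.X0 (Θ τ).val = P.X0 ((Θ τ).val * (Θ τ).val) :=
        (P.X0Hom.map_mul _ _).symm
      rw [e2, ← Units.val_mul, ← map_mul, hτ.sq, map_one, Units.val_one]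
      exact P.X0Hom.map_one
    have hrk : finrank c.F (LinearMap.range (1 - P.X0 (Θ τ).val)) = finrank c.F P.E * 8 := by
      rw [rank_X0 P, rank_D w (Θ τ).val hτ (hΘ τ) (hΘ' τ)]
    have hcomm : Commute (P.X0 (Θ τ).val)
        (rX ((uc.val - 1) ^ (k - 1)) sc.val hT) := P.ext_comm (Θ τ).val
    obtain ⟨θ, hθd⟩ : ∃ θ, θ = P.X0 (Θ τ).val := ⟨_, rfl⟩
    rw [← hθd] at hθθ hrk hcomm
    have hE : 0 < finrank c.F P.E := Module.finrank_pos
    have hrε : LinearMap.range ((2⁻¹ : c.F) • (1 - θ)) = LinearMap.range (1 - θ) :=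
      LinearMap.range_smul _ _ (inv_ne_zero h2)
    have hε2 : ∀ y, y - ((2⁻¹ : c.F) • (1 - θ)) y - ((2⁻¹ : c.F) • (1 - θ)) y = θ y := by
      intro y
      rw [sub_sub, ← two_smul c.F, LinearMap.smul_apply, smul_smul, mul_inv_cancel₀ h2, one_smul,
        LinearMap.sub_apply, Module.End.one_apply, sub_sub_cancel]
    have hε1 : ((2⁻¹ : c.F) • (1 - θ)) * ((2⁻¹ : c.F) • (1 - θ)) = (2⁻¹ : c.F) • (1 - θ) := by
      have e1 : (1 - θ) * (1 - θ) = (2 : c.F) • (1 - θ) := by
        rw [sub_mul, mul_sub, mul_sub, hθθ, one_mul, mul_one, one_mul, two_smul]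
        abel
      rw [smul_mul_assoc, mul_smul_comm, e1, smul_smul (2⁻¹ : c.F) 2, inv_mul_cancel₀ h2, one_smul]
    have hεs : ∀ y z : LinearMap.range ((uc.val - 1) ^ (k - 1)), (z : c.V) = sc.val y →
        ((((2⁻¹ : c.F) • (1 - θ)) z : LinearMap.range ((uc.val - 1) ^ (k - 1))) : c.V) =
          sc.val ((((2⁻¹ : c.F) • (1 - θ)) y : LinearMap.range ((uc.val - 1) ^ (k - 1))) : c.V) := by
      intro y z hz
      have e1 : z = rX ((uc.val - 1) ^ (k - 1)) sc.val hT y := Subtype.ext hz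
      have e2 : Commute ((2⁻¹ : c.F) • (1 - θ)) (rX ((uc.val - 1) ^ (k - 1)) sc.val hT) :=
        ((Commute.one_left _).sub_left hcomm).smul_left _
      have e3 := LinearMap.congr_fun e2.eq y
      rw [Module.End.mul_apply, Module.End.mul_apply] at e3
      rw [e1, e3, rX_apply]
    have hev : Even (finrank c.F (LinearMap.range ((2⁻¹ : c.F) • (1 - θ)))) := by
      rw [hrε, hrk]
      exact Nat.even_mul.2 (Or.inr (by decide))
    have h8' : 8 ≤ finrank c.F (LinearMap.range ((2⁻¹ : c.F) • (1 - θ))) := by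
      rw [hrε, hrk]
      omega
    obtain ⟨g, v, h3, h4, h5, h6, h7, h8⟩ := cov_inv hp hp2 h hcd hDg
      (fun g hg hg1 => (hd g (hd2 g hg)).2 hg1) hx hl hk hkc hkd ((2⁻¹ : c.F) • (1 - θ)) hε1 hεs
      hev h8'
    refine ⟨g, v, h3, h4, h5, h6, h7, fun y => ?_⟩
    rw [h8, hε2, hθd]
  rw [← closure_three_cycles_eq_alternating, Subgroup.closure_le]
  intro σ hσ
  obtain ⟨τ, τ', r, r', h1, h2, rfl⟩ := three_cyc hcard hσ
  exact Gd.mul_mem (key τ r h1) (key τ' r' h2)

end Pool.Agent.Lib.MP_b9166b_al.Pt
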