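import Pool.Agent.Lib.MP_b9166b_al.Pt.Lay
import Pool.Agent.Lib.MP_b9166b_al.Pt.MmEq

/-!
# MP_b9166b_al, PT: the transvection system of a layer

`exists_ts`: `X v f = σ g` for any root lift `g` of `(v, f)` (`Rt.exists`, `Rt.unique`) if `f v = 0`, and `1` otherwise. `zero`:
`Rt.zero`; `addl`, `addr`: `Rt.add_left`, `Rt.add_right`; `smul`: `Rt.smul`; `comm`: `Rt.comm`; `rel`: `Rt.brk`,
`g g' = ⁅g, g'⁆ g' g`.
`mm_one`: `P = m 1 + m' 1` satisfies `N v f * P = N v f`, so `b - P b` is killed by all `N v f`.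
`prod_remove`: induction on `l`: for `l = i :: l'` and `c` on `l'`: `M * N i a * P' = N i a * (M * P') = 0` for all `a`, so
`M * P' = 0` by `h0`.
-/

set_option autoImplicit false

namespace Pool.Agent.Lib.MP_b9166b_al.Pt

open Module
open scoped commutatorElement

theorem Lay.exists_ts {p : ℕ} (hp : p.Prime) {Γ F V R : Type} [Group Γ] [Finite Γ] [Field F]
    [CharP F p] [AddCommGroup V] [Module F V] [FiniteDimensional F V] [Ring R] (ℓ : Lay p Γ F V)
    (σ : Γ →* R) (hT : ∀ t ∈ ℓ.T, σ t = 1) :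
    ∃ S : TS F V R, ∀ v f g, f v = 0 → ℓ.Rt v f g → S.X v f = σ g := by
  classical
  choose G hG using fun (v : V) (f : Dual F V) (h : f v = 0) => Lay.Rt.exists ℓ hp h
  have huniq : ∀ (v : V) (f : Dual F V) (g g' : Γ), ℓ.Rt v f g → ℓ.Rt v f g' → σ g = σ g' := by
    intro v f g g' h h'
    have h1 := hT _ (Lay.Rt.unique ℓ hp h h')
    have h2 : g' = g * (g⁻¹ * g') := by group
    rw [h2, map_mul, h1, mul_one]
  have hX : ∀ (v : V) (f : Dual F V) (g : Γ) (h : f v = 0), ℓ.Rt v f g →
      σ (G v f h) = σ g := fun v f g h hg => huniq v f _ _ (hG v f h) hg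
  let X : V → Dual F V → R := fun v f => if h : f v = 0 then σ (G v f h) else 1
  have hX' : ∀ (v : V) (f : Dual F V) (g : Γ), f v = 0 → ℓ.Rt v f g → X v f = σ g := by
    intro v f g h hg
    change (if h : f v = 0 then σ (G v f h) else 1) = σ g
    rw [dif_pos h]
    exact hX v f g h hg
  refine ⟨⟨X, ?_, ?_, ?_, ?_, ?_, ?_⟩, hX'⟩
  · intro f
    rw [hX' 0 f 1 (map_zero f) ((Lay.Rt.zero ℓ hp).2 f), map_one]
  · intro v v' f h h'
    have h1 : f (v + v') = 0 := by rw [map_add, h, h', add_zero]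
    rw [hX' v f _ h (hG v f h), hX' v' f _ h' (hG v' f h'), ← map_mul]
    exact hX' _ _ _ h1 (Lay.Rt.add_left ℓ hp (hG v f h) (hG v' f h') h h')
  · intro v f f' h h'
    have h1 : (f + f') v = 0 := by rw [LinearMap.add_apply, h, h', add_zero]
    rw [hX' v f _ h (hG v f h), hX' v f' _ h' (hG v f' h'), ← map_mul]
    exact hX' _ _ _ h1 (Lay.Rt.add_right ℓ hp (hG v f h) (hG v f' h') h h')
  · intro c v f h
    have h1 : f (c • v) = 0 := by rw [map_smul, h, smul_zero]
    have h2 : (c • f) v = 0 := by rw [LinearMap.smul_apply, h, smul_zero]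
    rw [hX' _ _ _ h1 (hG _ _ h1)]
    exact (hX' _ _ _ h2 ((Lay.Rt.smul ℓ hp).1 (hG _ _ h1))).symm
  · intro v f v' f' h h' h1 h2
    rw [hX' v f _ h (hG v f h), hX' v' f' _ h' (hG v' f' h')]
    have h3 := hT _ (Lay.Rt.comm ℓ hp (hG v f h) (hG v' f' h') h1 h2)
    have h4 : G v f h * G v' f' h' = ⁅G v f h, G v' f' h'⁆ * (G v' f' h' * G v f h) := by
      rw [commutatorElement_def]
      group
    rw [← map_mul, ← map_mul, h4, map_mul, h3, one_mul]
  · intro v f v' f' h h' h1
    have h5 : (f v' • f') v = 0 := by rw [LinearMap.smul_apply, h1, smul_zero]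
    have h3 := Lay.Rt.brk ℓ hp (hG v f h) (hG v' f' h') h h' h1
    rw [hX' v f _ h (hG v f h), hX' v' f' _ h' (hG v' f' h'), hX' _ _ _ h5 h3]
    have h4 : G v f h * G v' f' h' = ⁅G v f h, G v' f' h'⁆ * G v' f' h' * G v f h := by
      rw [commutatorElement_def]
      group
    rw [← map_mul, ← map_mul, ← map_mul, ← h4]

theorem mm_one {F C K B : Type} [Field F] [AddCommGroup C] [Module F C] [Field K]
    [AddCommGroup B] [Module K B] (S : MM F C (B →ₗ[K] B))
    (h : ∀ b, (∀ v f, f v = 0 → S.N v f b = 0) → b = 0) : S.m 1 + S.m' 1 = 1 := by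
  have h1 : ∀ v f, S.N v f * (S.m 1 + S.m' 1) = S.N v f := by
    intro v f
    unfold MM.N
    rw [sub_mul, mul_add, mul_add, S.orth, S.orth', ← S.mul, ← S.mul', mul_one, one_mul, add_zero,
      zero_add]
  refine LinearMap.ext fun b => ?_
  have h2 : b - (S.m 1 + S.m' 1) b = 0 := by
    refine h _ fun v f _ => ?_
    rw [map_sub]
    have h3 : S.N v f ((S.m 1 + S.m' 1) b) = (S.N v f * (S.m 1 + S.m' 1)) b := rfl
    rw [h3, h1, sub_self]
  rw [Module.End.one_apply]
  exact (sub_eq_zero.1 h2).symm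

theorem prod_remove {K B ι : Type} [Field K] [AddCommGroup B] [Module K B] {I : ι → Type}
    [hI : ∀ i, Nonempty (I i)]
    (N : ∀ i, I i → (B →ₗ[K] B)) (M : B →ₗ[K] B) (l : List ι) (hl : l.Nodup)
    (hM : ∀ i ∈ l, ∀ a, Commute M (N i a))
    (h0 : ∀ i ∈ l, ∀ b, (∀ a, N i a b = 0) → b = 0)
    (h : ∀ c : ∀ i, I i, M * (l.map fun i => N i (c i)).prod = 0) : M = 0 := by
  classical
  induction l with
  | nil =>
    have h1 := h fun i => Classical.choice (hI i)
    rwa [List.map_nil, List.prod_nil, mul_one] at h1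
  | cons i l ih =>
    rw [List.nodup_cons] at hl
    refine ih hl.2 (fun j hj => hM j (List.mem_cons_of_mem i hj))
      (fun j hj => h0 j (List.mem_cons_of_mem i hj)) fun c => ?_
    refine LinearMap.ext fun b => ?_
    rw [LinearMap.zero_apply]
    refine h0 i List.mem_cons_self _ fun a => ?_
    have h1 := h (Function.update c i a)
    have h2 : (l.map fun k => N k (Function.update c i a k)) = l.map fun k => N k (c k) := by
      refine List.map_congr_left fun k hk => ?_
      have hki : k ≠ i := by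
        rintro rfl
        exact hl.1 hk
      rw [Function.update_of_ne hki]
    rw [List.map_cons, List.prod_cons, h2, Function.update_self, ← mul_assoc,
      (hM i List.mem_cons_self a).eq, mul_assoc] at h1
    exact LinearMap.congr_fun h1 b

end Pool.Agent.Lib.MP_b9166b_al.Pt
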