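import Pool.Agent.Lib.MP_b9166b_al.Pt.NsP

/-!
# MP_b9166b_al, PT: the matrix units

`M v q := N v f * P w q` for any `f, w` with `f v = 0`, `f w = 1`, `q w = 0` (now `q v` is arbitrary).
`M_indep`. Fix `v`, `q`; `β(f,w) := N v f * P w q` (`f v = 0`, `q w = 0`) is additive in `f` and `w`
(`NS.addr`, `P_addl`) and is `0` if `f w = 0` (`N_mul_P_zero`). Let `f w' = f' w = 0`, `f w = f' w' = 1`: then
`(f + f')(w - w') = 0`, so `0 = β(f,w) - β(f',w')`. In general use a third pair (`exists_pair`: `f''` kills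
`v, w, w'`; `w''` killed by `q, f, f'`).
`M_addl`: common `(f,w)`. `M_eq_P` (`q v = 0`): `N_mul_P`. `N_mul_M` (`f u = 0`, `v, q` arbitrary): `M v q = N v χ * P w q`
with `χ w = 1`, `χ v = χ u = 0`, `q w = f w = 0`; `N u f * N v χ = N v χ * N u f + N u (f v • χ)` (`br`, `χ u = 0`),
`N u f * P w q = 0` (`N_mul_P_zero`), so `N u f * M v q = N (f v • u) χ * P w q = M (f v • u) q`.
`M_addr`: `w` killed by `q, q'`, `P_addr`. `M_smul`: `M (c•v) q = N (c•v) f * P w q`, `M v (c•q) = N v f * P w (c•q) =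
N v f * P (c•w) q`; both are `β`-values: for `c ≠ 0`, `N (c•v) f * P w q = N v (c•f) * P w q` and
`N v f * P (c•w) q = N v (c • f) * P w q`? (`β(c•f, w)` and `β(f, c•w)`, `(c•f) w = c = f (c•w)`): choose `(f',w')` with
`f' w' = 1`, `f w' = f' w = 0`, `f' v = 0`, `q w' = 0`: `(f + c•f')(c•w - w') = 0` gives `β(f,c•w) = β(c•f',w')`, and
`(c•f + c•f')(w - w') = 0` gives `β(c•f,w) = β(c•f',w')`.
`M_mul_N` (`f u = 0`): `M v q = N v f1 * P w q`, `f1 v = 0`, `f1 w = 1`, `q w = 0`, and choose `w` with `f w = 0` too;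
`P_mul_N` (`f w = 0`): `P w q * N u f = P w (q u • f)`.
`M_mul_M`: `M u h = N u f * P w h = N u f * (N w f2 * N w2 h)` and `N_mul_M` three times.
-/

set_option autoImplicit false

namespace Pool.Agent.Lib.MP_b9166b_al.Pt

open Module

variable {F V R : Type} [Field F] [AddCommGroup V] [Module F V] [Ring R]

/-- `N v f * P w q` only depends on `f w`. -/
theorem NS.M_val [FiniteDimensional F V] (S : NS F V R) (h8 : 8 ≤ finrank F V) {v w w' : V}
    {q f f' : Dual F V} (h1 : f v = 0) (h2 : q w = 0) (h1' : f' v = 0)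
    (h2' : q w' = 0) (h3 : f w = f' w') : S.N v f * S.P w q = S.N v f' * S.P w' q := by
  -- the case where each functional kills the other vector
  have key : ∀ (g g' : Dual F V) (x x' : V), g v = 0 → q x = 0 → g' v = 0 → q x' = 0 →
      g x = g' x' → g x' = 0 → g' x = 0 → S.N v g * S.P x q = S.N v g' * S.P x' q := by
    intro g g' x x' hg hx hg' hx' he h0 h0'
    have e1 : S.N v (g + g') * S.P (x - x') q = 0 := by
      refine S.N_mul_P_zero h8 ?_ ?_ ?_
      · rw [LinearMap.add_apply, hg, hg', add_zero]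
      · rw [LinearMap.add_apply, map_sub, map_sub, h0, h0', he, sub_zero, zero_sub, add_neg_cancel]
      · rw [map_sub, hx, hx', sub_zero]
    have e2 : S.P x q = S.P (x - x') q + S.P x' q := by
      have h := S.P_addl h8 (v := x - x') (v' := x') (q := q)
        (by rw [map_sub, hx, hx', sub_zero]) hx'
      rwa [sub_add_cancel] at h
    have e3 : S.P (x - x') q = S.P x q - S.P x' q := by rw [e2, add_sub_cancel_right]
    have e4 : S.N v g * S.P x' q = 0 := S.N_mul_P_zero h8 hg h0 hx'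
    have e5 : S.N v g' * S.P x q = 0 := S.N_mul_P_zero h8 hg' h0' hx
    rw [S.addr v g g' hg hg', e3, add_mul, mul_sub, mul_sub, e4, e5, sub_zero, zero_sub,
      ← sub_eq_add_neg, sub_eq_zero] at e1
    exact e1
  obtain ⟨x, χ, hχ, hv, hf⟩ := exists_pair (F := F) [v, w, w'] [q, f, f'] (by
    simp only [List.length_cons, List.length_nil]
    omega)
  have hχv : χ v = 0 := hv v (by simp)
  have hχw : χ w = 0 := hv w (by simp)
  have hχw' : χ w' = 0 := hv w' (by simp)
  have hqx : q x = 0 := hf q (by simp)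
  have hfx : f x = 0 := hf f (by simp)
  have hfx' : f' x = 0 := hf f' (by simp)
  have e1 := key f (f w • χ) w x h1 h2 (by rw [LinearMap.smul_apply, hχv, smul_zero]) hqx
    (by rw [LinearMap.smul_apply, hχ, smul_eq_mul, mul_one]) hfx
    (by rw [LinearMap.smul_apply, hχw, smul_zero])
  have e2 := key f' (f w • χ) w' x h1' h2' (by rw [LinearMap.smul_apply, hχv, smul_zero]) hqx
    (by rw [LinearMap.smul_apply, hχ, smul_eq_mul, mul_one, h3]) hfx'
    (by rw [LinearMap.smul_apply, hχw', smul_zero])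
  rw [e1, e2]

theorem NS.M_indep [FiniteDimensional F V] (S : NS F V R) (h8 : 8 ≤ finrank F V) {v w w' : V}
    {q f f' : Dual F V} (h1 : f v = 0) (h2 : q w = 0) (h3 : f w = 1) (h1' : f' v = 0)
    (h2' : q w' = 0) (h3' : f' w' = 1) : S.N v f * S.P w q = S.N v f' * S.P w' q := by
  exact S.M_val h8 h1 h2 h1' h2' (by rw [h3, h3'])

open Classical in
/-- the matrix units -/
noncomputable def NS.M (S : NS F V R) (v : V) (q : Dual F V) : R :=
  if h : ∃ (f : Dual F V) (w : V), f v = 0 ∧ q w = 0 ∧ f w = 1 then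
    S.N v h.choose * S.P h.choose_spec.choose q else 0

theorem NS.M_eq [FiniteDimensional F V] (S : NS F V R) (h8 : 8 ≤ finrank F V) {v w : V}
    {q f : Dual F V} (h1 : f v = 0) (h2 : q w = 0) (h3 : f w = 1) :
    S.M v q = S.N v f * S.P w q := by
  have h : ∃ (f : Dual F V) (w : V), f v = 0 ∧ q w = 0 ∧ f w = 1 := ⟨f, w, h1, h2, h3⟩
  unfold NS.M
  rw [dif_pos h]
  obtain ⟨a1, a2, a3⟩ := h.choose_spec.choose_spec
  exact S.M_indep h8 a1 a2 a3 h1 h2 h3

theorem NS.M_eq_P [FiniteDimensional F V] (S : NS F V R) (h8 : 8 ≤ finrank F V) {v : V}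
    {q : Dual F V} (h : q v = 0) : S.M v q = S.P v q := by
  obtain ⟨w, χ, hχ, hv, hf⟩ := exists_pair (F := F) [v] [q] (by
    simp only [List.length_cons, List.length_nil]
    omega)
  have hχv : χ v = 0 := hv v (by simp)
  have hqw : q w = 0 := hf q (by simp)
  rw [S.M_eq h8 hχv hqw hχ, S.N_mul_P h8 hχv h hqw, hχ, one_smul]

theorem NS.M_addl [FiniteDimensional F V] (S : NS F V R) (h8 : 8 ≤ finrank F V) (v v' : V)
    (q : Dual F V) : S.M (v + v') q = S.M v q + S.M v' q := by
  obtain ⟨w, χ, hχ, hv, hf⟩ := exists_pair (F := F) [v, v'] [q] (by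
    simp only [List.length_cons, List.length_nil]
    omega)
  have hχv : χ v = 0 := hv v (by simp)
  have hχv' : χ v' = 0 := hv v' (by simp)
  have hqw : q w = 0 := hf q (by simp)
  rw [S.M_eq h8 (v := v + v') (by rw [map_add, hχv, hχv', add_zero]) hqw hχ,
    S.M_eq h8 hχv hqw hχ, S.M_eq h8 hχv' hqw hχ, S.addl v v' χ hχv hχv', add_mul]

theorem NS.M_addr [FiniteDimensional F V] (S : NS F V R) (h8 : 8 ≤ finrank F V) (v : V)
    (q q' : Dual F V) : S.M v (q + q') = S.M v q + S.M v q' := by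
  obtain ⟨w, χ, hχ, hv, hf⟩ := exists_pair (F := F) [v] [q, q'] (by
    simp only [List.length_cons, List.length_nil]
    omega)
  have hχv : χ v = 0 := hv v (by simp)
  have hqw : q w = 0 := hf q (by simp)
  have hqw' : q' w = 0 := hf q' (by simp)
  rw [S.M_eq h8 (q := q + q') hχv (by rw [LinearMap.add_apply, hqw, hqw', add_zero]) hχ,
    S.M_eq h8 hχv hqw hχ, S.M_eq h8 hχv hqw' hχ, S.P_addr h8 hqw hqw', mul_add]

theorem NS.M_smul [FiniteDimensional F V] (S : NS F V R) (h8 : 8 ≤ finrank F V) (c : F) (v : V)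
    (q : Dual F V) : S.M (c • v) q = S.M v (c • q) := by
  obtain ⟨w, χ, hχ, hv, hf⟩ := exists_pair (F := F) [v] [q] (by
    simp only [List.length_cons, List.length_nil]
    omega)
  have hχv : χ v = 0 := hv v (by simp)
  have hqw : q w = 0 := hf q (by simp)
  rw [S.M_eq h8 (v := c • v) (by rw [map_smul, hχv, smul_zero]) hqw hχ,
    S.M_eq h8 (q := c • q) hχv (by rw [LinearMap.smul_apply, hqw, smul_zero]) hχ,
    S.smul c v χ hχv, ← S.P_smul h8 c hqw]
  refine S.M_val h8 ?_ hqw hχv ?_ ?_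
  · rw [LinearMap.smul_apply, hχv, smul_zero]
  · rw [map_smul, hqw, smul_zero]
  · rw [LinearMap.smul_apply, map_smul]

theorem NS.N_mul_M [FiniteDimensional F V] (S : NS F V R) (h8 : 8 ≤ finrank F V) {u : V}
    {f : Dual F V} (h : f u = 0) (v : V) (q : Dual F V) :
    S.N u f * S.M v q = S.M (f v • u) q := by
  obtain ⟨w, χ, hχ, hv, hf⟩ := exists_pair (F := F) [v, u] [q, f] (by
    simp only [List.length_cons, List.length_nil]
    omega)
  have hχv : χ v = 0 := hv v (by simp)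
  have hχu : χ u = 0 := hv u (by simp)
  have hqw : q w = 0 := hf q (by simp)
  have hfw : f w = 0 := hf f (by simp)
  have hbr := S.br u f v χ h hχv hχu
  have h0 : S.N u f * S.P w q = 0 := S.N_mul_P_zero h8 h hfw hqw
  rw [sub_eq_iff_eq_add] at hbr
  rw [S.M_eq h8 hχv hqw hχ, ← mul_assoc, hbr, add_mul, mul_assoc (S.N v χ), h0, mul_zero, add_zero,
    ← S.smul (f v) u χ hχu,
    S.M_eq h8 (v := f v • u) (by rw [map_smul, hχu, smul_zero]) hqw hχ]

theorem NS.M_mul_N [FiniteDimensional F V] (S : NS F V R) (h8 : 8 ≤ finrank F V) {u : V}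
    {f : Dual F V} (h : f u = 0) (v : V) (q : Dual F V) :
    S.M v q * S.N u f = S.M v (q u • f) := by
  obtain ⟨w, χ, hχ, hv, hf⟩ := exists_pair (F := F) [v] [q, f] (by
    simp only [List.length_cons, List.length_nil]
    omega)
  have hχv : χ v = 0 := hv v (by simp)
  have hqw : q w = 0 := hf q (by simp)
  have hfw : f w = 0 := hf f (by simp)
  rw [S.M_eq h8 hχv hqw hχ, mul_assoc, S.P_mul_N h8 h hqw hfw,
    S.M_eq h8 (q := q u • f) hχv (by rw [LinearMap.smul_apply, hfw, smul_zero]) hχ]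

theorem NS.M_mul_M [FiniteDimensional F V] (S : NS F V R) (h8 : 8 ≤ finrank F V) (u v : V)
    (h q : Dual F V) : S.M u h * S.M v q = S.M (h v • u) q := by
  obtain ⟨w, χ, hχ, hv, hf⟩ := exists_pair (F := F) [u] [h] (by
    simp only [List.length_cons, List.length_nil]
    omega)
  have hχu : χ u = 0 := hv u (by simp)
  have hhw : h w = 0 := hf h (by simp)
  obtain ⟨w2, χ2, hχ2, hv2, hf2⟩ := exists_pair (F := F) [w] [h] (by
    simp only [List.length_cons, List.length_nil]
    omega)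
  have hχw : χ2 w = 0 := hv2 w (by simp)
  have hhw2 : h w2 = 0 := hf2 h (by simp)
  rw [S.M_eq h8 hχu hhw hχ, S.P_eq h8 hhw hχw hhw2 hχ2, mul_assoc, mul_assoc,
    S.N_mul_M h8 hhw2, S.N_mul_M h8 hχw, S.N_mul_M h8 hχu, map_smul, hχ, map_smul, hχ2]
  simp only [smul_eq_mul, mul_one]

end Pool.Agent.Lib.MP_b9166b_al.Pt
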