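import Pool.Agent.Lib.MP_b9166b_al.Pt.TsDefs
import Pool.Agent.Lib.MP_b9166b_al.Pt.Choose

/-!
# MP_b9166b_al, PT: the products of two

Proof of `NS.indep`. `q v = 0`; two choices `(f,w)`, `(f',w')` with `f v = 0`, `q w = 0`, `f w = 1`. First let
`f w' = 0` and `f' w = 0`. `br` for `(v,f'), (w',f)` (`f v = 0`): `N v f = N v f' * N w' f - N w' f * N v f'`.
`N v f' * N w q = 0` (`f' w = 0`, `q v = 0`). `br` for `(w',f), (w,q)` (`q w' = 0`):
`N w' f * N w q = N w q * N w' f + N w' (f w • q)`. So `N v f * N w q = N v f' * N w q * N w' f +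
N v f' * N w' q = N v f' * N w' q`. In general take a third pair `(f'',w'')` with `exists_pair`: `f''`
kills `v, w, w'` and `w''` is killed by `f, f', q`, `f'' w'' = 1`.
`P v q` for `q v = 0`: the common value (0 otherwise).
`P_addl`: choose `(f,w)` with `f v = f v' = 0`. `P_smul`: `N (c•v) f * N w q`; for `c ≠ 0`
`= N v (c•f) * N (c⁻¹•w) (c•q)`, a product for `P v (c•q)`. `P_addr`: same `(f,w)` for `q, q'`: `w` killed by
both.
`N_mul_P` (`f u = 0`, `q u = 0`, `q v = 0`): `P v q = N v χ * N w q` with `χ w = 1`, `χ v = χ u = 0`, `q w = f w = 0`;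
`br` for `(u,f), (v,χ)` (`χ u = 0`): `N u f * N v χ = N v χ * N u f + N u (f v • χ)`, and `N u f * N w q = 0`; so
`N u f * P v q = N (f v • u) χ * N w q = P (f v • u) q`.
`N_mul_P_zero` (`f v = 0`, `f w = 0`, `q w = 0`, `v` arbitrary): `P w q = N w χ * N w' q` with `χ w' = 1`,
`χ w = χ v = 0`, `q w' = 0`; `N v f * N w χ = 0`.
`P_mul_N` (`f u = 0`, `q v = 0`, `f v = 0`): `P v q * N u f = P v (q u • f)`: `P v q = N v χ * N w q` with `χ u = 0`,
`f w = 0`; `N w q * N u f = N u f * N w q + N w (q u • f)` (`br` for `(w,q),(u,f)`), `N v χ * N u f = 0`.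
-/

set_option autoImplicit false

namespace Pool.Agent.Lib.MP_b9166b_al.Pt

open Module

variable {F V R : Type} [Field F] [AddCommGroup V] [Module F V] [Ring R]

theorem nsP_indep_aux (S : NS F V R) {v w w' : V}
    {q f f' : Dual F V} (hq : q v = 0) (h1 : f v = 0) (h2 : q w = 0) (h3 : f w = 1)
    (h1' : f' v = 0) (h2' : q w' = 0) (h3' : f' w' = 1) (h4 : f w' = 0) (h5 : f' w = 0) :
    S.N v f * S.N w q = S.N v f' * S.N w' q := by
  have b1 := S.br v f' w' f h1' h4 h1
  rw [h3', one_smul] at b1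
  have z := S.zero v f' w q h1' h2 h5 hq
  have b2 := S.br w' f w q h4 h2 h2'
  rw [h3, one_smul] at b2
  have b3 : S.N w' f * S.N w q = S.N w' q + S.N w q * S.N w' f := by
    rw [← b2, sub_add_cancel]
  rw [← b1, sub_mul, mul_assoc, b3, mul_add, ← mul_assoc (S.N v f') (S.N w q), z, zero_mul,
    add_zero, mul_assoc, z, mul_zero, sub_zero]

theorem NS.indep [FiniteDimensional F V] (S : NS F V R) (h8 : 8 ≤ finrank F V) {v w w' : V}
    {q f f' : Dual F V} (hq : q v = 0) (h1 : f v = 0) (h2 : q w = 0) (h3 : f w = 1)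
    (h1' : f' v = 0) (h2' : q w' = 0) (h3' : f' w' = 1) :
    S.N v f * S.N w q = S.N v f' * S.N w' q := by
  obtain ⟨x, g, hg1, hg2, hg3⟩ := exists_pair [v, w, w'] [f, f', q]
    (by simp only [List.length_cons, List.length_nil]; omega)
  have gv : g v = 0 := hg2 v (by simp)
  have gw : g w = 0 := hg2 w (by simp)
  have gw' : g w' = 0 := hg2 w' (by simp)
  have fx : f x = 0 := hg3 f (by simp)
  have fx' : f' x = 0 := hg3 f' (by simp)
  have qx : q x = 0 := hg3 q (by simp)
  rw [nsP_indep_aux S hq h1 h2 h3 gv qx hg1 fx gw,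
    nsP_indep_aux S hq h1' h2' h3' gv qx hg1 fx' gw']

open Classical in
/-- the product `N v f * N w q` for any `(f,w)` -/
noncomputable def NS.P (S : NS F V R) (v : V) (q : Dual F V) : R :=
  if h : q v = 0 ∧ ∃ (f : Dual F V) (w : V), f v = 0 ∧ q w = 0 ∧ f w = 1 then
    S.N v h.2.choose * S.N h.2.choose_spec.choose q else 0

theorem NS.P_eq [FiniteDimensional F V] (S : NS F V R) (h8 : 8 ≤ finrank F V) {v w : V}
    {q f : Dual F V} (hq : q v = 0) (h1 : f v = 0) (h2 : q w = 0) (h3 : f w = 1) :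
    S.P v q = S.N v f * S.N w q := by
  classical
  have h : q v = 0 ∧ ∃ (f : Dual F V) (w : V), f v = 0 ∧ q w = 0 ∧ f w = 1 :=
    ⟨hq, f, w, h1, h2, h3⟩
  have e : S.P v q = S.N v h.2.choose * S.N h.2.choose_spec.choose q := by
    unfold NS.P
    rw [dif_pos h]
  rw [e]
  have s := h.2.choose_spec.choose_spec
  exact S.indep h8 hq s.1 s.2.1 s.2.2 h1 h2 h3

theorem nsP_zero_left (S : NS F V R) (f : Dual F V) : S.N 0 f = 0 := by
  have h := S.addl 0 0 f (map_zero f) (map_zero f)
  rw [add_zero] at h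
  exact left_eq_add.1 h

theorem nsP_zero_right (S : NS F V R) (v : V) : S.N v 0 = 0 := by
  have h := S.addr v 0 0 rfl rfl
  rw [add_zero] at h
  exact left_eq_add.1 h

theorem NS.P_addl [FiniteDimensional F V] (S : NS F V R) (h8 : 8 ≤ finrank F V) {v v' : V}
    {q : Dual F V} (h : q v = 0) (h' : q v' = 0) : S.P (v + v') q = S.P v q + S.P v' q := by
  obtain ⟨w, f, hf1, hf2, hf3⟩ := exists_pair [v, v'] [q]
    (by simp only [List.length_cons, List.length_nil]; omega)
  have fv : f v = 0 := hf2 v (by simp)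
  have fv' : f v' = 0 := hf2 v' (by simp)
  have qw : q w = 0 := hf3 q (by simp)
  rw [S.P_eq h8 h fv qw hf1, S.P_eq h8 h' fv' qw hf1,
    S.P_eq h8 (v := v + v') (q := q) (by rw [map_add, h, h', add_zero])
      (by rw [map_add, fv, fv', add_zero] : f (v + v') = 0) qw hf1,
    S.addl v v' f fv fv', add_mul]

theorem NS.P_addr [FiniteDimensional F V] (S : NS F V R) (h8 : 8 ≤ finrank F V) {v : V}
    {q q' : Dual F V} (h : q v = 0) (h' : q' v = 0) : S.P v (q + q') = S.P v q + S.P v q' := by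
  obtain ⟨w, f, hf1, hf2, hf3⟩ := exists_pair [v] [q, q']
    (by simp only [List.length_cons, List.length_nil]; omega)
  have fv : f v = 0 := hf2 v (by simp)
  have qw : q w = 0 := hf3 q (by simp)
  have qw' : q' w = 0 := hf3 q' (by simp)
  rw [S.P_eq h8 h fv qw hf1, S.P_eq h8 h' fv qw' hf1,
    S.P_eq h8 (v := v) (q := q + q') (by rw [LinearMap.add_apply, h, h', add_zero])
      fv (by rw [LinearMap.add_apply, qw, qw', add_zero] : (q + q') w = 0) hf1,
    S.addr w q q' qw qw', mul_add]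

theorem NS.P_smul [FiniteDimensional F V] (S : NS F V R) (h8 : 8 ≤ finrank F V) (c : F) {v : V}
    {q : Dual F V} (h : q v = 0) : S.P (c • v) q = S.P v (c • q) := by
  obtain ⟨w, f, hf1, hf2, hf3⟩ := exists_pair [v] [q]
    (by simp only [List.length_cons, List.length_nil]; omega)
  have fv : f v = 0 := hf2 v (by simp)
  have qw : q w = 0 := hf3 q (by simp)
  have e1 : S.P (c • v) q = S.N (c • v) f * S.N w q :=
    S.P_eq h8 (by rw [map_smul, h, smul_zero]) (by rw [map_smul, fv, smul_zero]) qw hf1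
  by_cases hc : c = 0
  · subst hc
    have e2 : S.P v ((0 : F) • q) = S.N v f * S.N w ((0 : F) • q) :=
      S.P_eq h8 (by rw [zero_smul]; rfl) fv (by rw [zero_smul]; rfl) hf1
    rw [e1, e2, zero_smul, zero_smul, nsP_zero_left, nsP_zero_right, zero_mul, mul_zero]
  · have e2 : S.P v (c • q) = S.N v (c • f) * S.N (c⁻¹ • w) (c • q) :=
      S.P_eq h8 (by rw [LinearMap.smul_apply, h, smul_zero])
        (by rw [LinearMap.smul_apply, fv, smul_zero])
        (by rw [LinearMap.smul_apply, map_smul, qw, smul_zero, smul_zero])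
        (by rw [LinearMap.smul_apply, map_smul, hf1, smul_eq_mul, smul_eq_mul, mul_one,
          mul_inv_cancel₀ hc])
    have qw2 : (c • q) w = 0 := by rw [LinearMap.smul_apply, qw, smul_zero]
    rw [e1, e2, S.smul c v f fv, S.smul c⁻¹ w (c • q) qw2, smul_smul, inv_mul_cancel₀ hc,
      one_smul]

theorem NS.N_mul_P [FiniteDimensional F V] (S : NS F V R) (h8 : 8 ≤ finrank F V) {u v : V}
    {q f : Dual F V} (h1 : f u = 0) (h2 : q u = 0) (h3 : q v = 0) :
    S.N u f * S.P v q = S.P (f v • u) q := by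
  obtain ⟨w, g, hg1, hg2, hg3⟩ := exists_pair [v, u] [q, f]
    (by simp only [List.length_cons, List.length_nil]; omega)
  have gv : g v = 0 := hg2 v (by simp)
  have gu : g u = 0 := hg2 u (by simp)
  have qw : q w = 0 := hg3 q (by simp)
  have fw : f w = 0 := hg3 f (by simp)
  have b1 := S.br u f v g h1 gv gu
  have z := S.zero u f w q h1 qw fw h2
  have e2 : S.P (f v • u) q = S.N (f v • u) g * S.N w q :=
    S.P_eq h8 (by rw [map_smul, h2, smul_zero]) (by rw [map_smul, gu, smul_zero]) qw hg1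
  have b2 : S.N u f * S.N v g = S.N u (f v • g) + S.N v g * S.N u f := by
    rw [← b1, sub_add_cancel]
  rw [S.P_eq h8 h3 gv qw hg1, e2, S.smul (f v) u g gu, ← mul_assoc, b2, add_mul,
    mul_assoc (S.N v g), z, mul_zero, add_zero]

theorem NS.N_mul_P_zero [FiniteDimensional F V] (S : NS F V R) (h8 : 8 ≤ finrank F V) {v w : V}
    {q f : Dual F V} (h1 : f v = 0) (h2 : f w = 0) (h3 : q w = 0) :
    S.N v f * S.P w q = 0 := by
  obtain ⟨x, g, hg1, hg2, hg3⟩ := exists_pair [v, w] [q]
    (by simp only [List.length_cons, List.length_nil]; omega)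
  have gv : g v = 0 := hg2 v (by simp)
  have gw : g w = 0 := hg2 w (by simp)
  have qx : q x = 0 := hg3 q (by simp)
  rw [S.P_eq h8 h3 gw qx hg1, ← mul_assoc, S.zero v f w g h1 gw h2 gv, zero_mul]

theorem NS.P_mul_N [FiniteDimensional F V] (S : NS F V R) (h8 : 8 ≤ finrank F V) {u v : V}
    {q f : Dual F V} (h1 : f u = 0) (h2 : q v = 0) (h3 : f v = 0) :
    S.P v q * S.N u f = S.P v (q u • f) := by
  obtain ⟨w, g, hg1, hg2, hg3⟩ := exists_pair [v, u] [q, f]
    (by simp only [List.length_cons, List.length_nil]; omega)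
  have gv : g v = 0 := hg2 v (by simp)
  have gu : g u = 0 := hg2 u (by simp)
  have qw : q w = 0 := hg3 q (by simp)
  have fw : f w = 0 := hg3 f (by simp)
  have b1 := S.br w q u f qw h1 fw
  have b2 : S.N w q * S.N u f = S.N w (q u • f) + S.N u f * S.N w q := by
    rw [← b1, sub_add_cancel]
  have z := S.zero v g u f gv h1 gu h3
  have e2 : S.P v (q u • f) = S.N v g * S.N w (q u • f) :=
    S.P_eq h8 (by rw [LinearMap.smul_apply, h3, smul_zero]) gv
      (by rw [LinearMap.smul_apply, fw, smul_zero]) hg1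
  rw [S.P_eq h8 h2 gv qw hg1, e2, mul_assoc, b2, mul_add, ← mul_assoc (S.N v g) (S.N u f), z,
    zero_mul, add_zero]

end Pool.Agent.Lib.MP_b9166b_al.Pt
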