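import Pool.Agent.Lib.MP_b9166b_al.Pt.Grd

/-!
# MP_b9166b_al, PT: auxiliary lemmas for the parabolic subgroups
-/

set_option autoImplicit false

namespace Pool.Agent.Lib.MP_b9166b_al.Pt

open Module

namespace Grd

variable {R : Type} [Ring R] {l : ℕ} (G : Grd R l)

theorem diag (f : R) (k : ℕ) : G.π k * f * G.π k = G.comp 0 f * G.π k := by
  have h := G.entry 0 f k k
  rw [add_zero, if_pos rfl] at h
  rw [← h, ← G.comp_zero_mul, mul_assoc, G.pp]

theorem comp_mul0 {f g : R} (hf : G.Fil 0 f) (hg : G.Fil 0 g) :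
    G.comp 0 (f * g) = G.comp 0 f * G.comp 0 g := G.comp_mul hf hg

theorem mul0 {f g : R} (hf : G.Fil 0 f) (hg : G.Fil 0 g) : G.Fil 0 (f * g) :=
  Fil.mul G hf hg

theorem diag_mul {f g : R} (hf : G.Fil 0 f) (hg : G.Fil 0 g) (k : ℕ) :
    G.π k * (f * g) * G.π k = (G.π k * f * G.π k) * (G.π k * g * G.π k) := by
  rw [G.diag, G.diag, G.diag, G.comp_mul0 hf hg]
  calc G.comp 0 f * G.comp 0 g * G.π k = G.comp 0 f * (G.comp 0 g * (G.π k * G.π k)) := by
        rw [G.pp, mul_assoc]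
    _ = G.comp 0 f * ((G.comp 0 g * G.π k) * G.π k) := by rw [← mul_assoc (G.comp 0 g)]
    _ = G.comp 0 f * ((G.π k * G.comp 0 g) * G.π k) := by rw [G.comp_zero_mul g k]
    _ = G.comp 0 f * G.π k * (G.comp 0 g * G.π k) := by simp only [mul_assoc]

theorem diag_inv {f g : R} (hf : G.Fil 0 f) (hg : G.Fil 0 g) (hfg : f * g = 1) {k : ℕ}
    (h : G.π k * f * G.π k = G.π k) : G.π k * g * G.π k = G.π k := by
  have h1 := G.diag_mul hf hg k
  rw [hfg, mul_one, G.pp, h] at h1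
  calc G.π k * g * G.π k = G.π k * (G.π k * g * G.π k) := by
        rw [← mul_assoc, ← mul_assoc, G.pp]
    _ = G.π k := h1.symm

theorem diag_conj {f g h : R} (hf : G.Fil 0 f) (hg : G.Fil 0 g) (hfg : f * g = 1)
    (hh : G.Fil 0 h) {k : ℕ} (h1 : G.π k * h * G.π k = G.π k) :
    G.π k * (f * h * g) * G.π k = G.π k := by
  have h2 := G.diag_mul hf hg k
  rw [hfg, mul_one, G.pp] at h2
  rw [G.diag_mul (G.mul0 hf hh) hg, G.diag_mul hf hh, h1]
  rw [mul_assoc (G.π k * f) (G.π k) (G.π k), G.pp]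
  exact h2.symm

theorem fil_zero (r : ℕ) : G.Fil r 0 := by
  intro i j _
  rw [mul_zero, zero_mul]

theorem fil0_of_fil1 {f : R} (h : G.Fil 1 (f - 1)) : G.Fil 0 f := by
  have h1 := Fil.add G (Fil.mono G h (Nat.zero_le 1)) G.fil_one
  rwa [sub_add_cancel] at h1

theorem fil_pow {n : R} (h : G.Fil 1 n) (m : ℕ) : G.Fil m (n ^ m) := by
  induction m with
  | zero => rw [pow_zero]; exact G.fil_one
  | succ m ih => rw [pow_succ]; exact Fil.mul G ih h

theorem fil0_pow {n : R} (h : G.Fil 0 n) (m : ℕ) : G.Fil 0 (n ^ m) := by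
  induction m with
  | zero => rw [pow_zero]; exact G.fil_one
  | succ m ih => rw [pow_succ]; exact G.mul0 ih h

theorem comp_zero' (r : ℕ) : G.comp r (0 : R) = 0 :=
  G.comp_eq_zero (G.fil_zero (r + 1)) (Nat.lt_succ_self r)

theorem comp0_of_fil1 {f : R} (h : G.Fil 1 (f - 1)) : G.comp 0 f = 1 := by
  have h1 := G.comp_add 0 (f - 1) 1
  rw [sub_add_cancel, G.comp_eq_zero h Nat.zero_lt_one, G.comp_one, zero_add] at h1
  exact h1

theorem fil1_of_comp0 {f : R} (h : G.Fil 0 f) (h1 : G.comp 0 f = 1) : G.Fil 1 (f - 1) := by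
  have h2 : G.Fil 0 (f - 1) := by
    rw [sub_eq_add_neg]
    exact Fil.add G h (Fil.neg G G.fil_one)
  refine Fil.succ G h2 ?_
  rw [sub_eq_add_neg, G.comp_add, G.comp_neg, h1, G.comp_one, add_neg_cancel]

/-- if all the diagonal blocks are trivial then `comp 0` is one -/
theorem comp0_of_diag {f : R} (h : ∀ k, G.π k * f * G.π k = G.π k) : G.comp 0 f = 1 := by
  rw [comp]
  rw [Finset.sum_congr rfl (fun j _ => by rw [add_zero, h j]) , G.sum]

theorem diag_of_comp0 {f : R} (h : G.comp 0 f = 1) (k : ℕ) : G.π k * f * G.π k = G.π k := by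
  rw [G.diag, h, one_mul]

theorem fil1_mul {f g : R} (hf : G.Fil 1 (f - 1)) (hg : G.Fil 1 (g - 1)) :
    G.Fil 1 (f * g - 1) := by
  refine G.fil1_of_comp0 (G.mul0 (G.fil0_of_fil1 hf) (G.fil0_of_fil1 hg)) ?_
  rw [G.comp_mul0 (G.fil0_of_fil1 hf) (G.fil0_of_fil1 hg), G.comp0_of_fil1 hf,
    G.comp0_of_fil1 hg, one_mul]

theorem fil1_conj {f g h : R} (hf : G.Fil 0 f) (hg : G.Fil 0 g) (hfg : f * g = 1)
    (hh : G.Fil 1 (h - 1)) : G.Fil 1 (f * h * g - 1) := by
  have h1 : f * h * g - 1 = f * (h - 1) * g := by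
    rw [mul_sub, sub_mul, mul_one, hfg]
  rw [h1]
  have h2 : G.Fil (0 + 1) (f * (h - 1)) := Fil.mul G hf hh
  exact Fil.mul G h2 hg

/-- a unipotent element has `p`-power order -/
theorem pow_one_of_fil1 {p : ℕ} (hp : p.Prime) (hR : (p : R) = 0) {f : R} (h : G.Fil 1 (f - 1)) :
    ∃ j : ℕ, f ^ p ^ j = 1 := by
  refine ⟨l, ?_⟩
  have hl : l ≤ p ^ l := (Nat.lt_pow_self hp.one_lt).le
  have h1 : (f - 1) ^ p ^ l = 0 := Fil.eq_zero G (Fil.mono G (G.fil_pow h _) hl)
  have h2 : Commute (f - 1) (1 : R) := Commute.one_right _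
  obtain ⟨r, hr⟩ := h2.exists_add_pow_prime_pow_eq hp l
  rw [sub_add_cancel, h1, one_pow, hR] at hr
  rw [hr]
  simp only [zero_mul, add_zero, zero_add]

end Grd

theorem det_block {F V : Type} [Field F] [AddCommGroup V] [Module F V] [FiniteDimensional F V]
    (W : Submodule F V) (ρ : V →ₗ[F] W) (hr : ∀ w : W, ρ (w : V) = w) (u : W →ₗ[F] W)
    (U : V →ₗ[F] V) (hUx : ∀ x, U x = (u (ρ x) : V) + (x - (ρ x : V))) :
    LinearMap.det U = LinearMap.det u := by
  have hUw : ∀ w : W, U (w : V) = u w := by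
    intro w
    rw [hUx, hr, sub_self, add_zero]
  have he : W ≤ W.comap U := by
    intro w hw
    have h1 := hUw ⟨w, hw⟩
    change U w ∈ W
    rw [show U w = (u ⟨w, hw⟩ : V) from h1]
    exact (u ⟨w, hw⟩).2
  rw [LinearMap.det_eq_det_mul_det W U he]
  have h1 : U.restrict he = u := by
    ext w
    exact hUw w
  have h2 : W.mapQ W U he = LinearMap.id := by
    apply Submodule.linearMap_qext
    ext x
    change Submodule.Quotient.mk (U x) = Submodule.Quotient.mk x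
    rw [Submodule.Quotient.eq, hUx]
    have h3 : (u (ρ x) : V) + (x - (ρ x : V)) - x = (u (ρ x) : V) - (ρ x : V) := by
      abel
    rw [h3]
    exact W.sub_mem (u (ρ x)).2 (ρ x).2
  rw [h1, h2, LinearMap.det_id, mul_one]

end Pool.Agent.Lib.MP_b9166b_al.Pt
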