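import Pool.Agent.Lib.MP_b9166b_al.Pt.Lay
import Pool.Agent.Lib.MP_b9166b_al.Pt.Grd
import Pool.Agent.Lib.MP_b9166b_al.Pt.ParA

/-!
# MP_b9166b_al, PT: parabolic subgroups

`V` is graded by `G`. `ℓ.Par G`: the elements of `Γ` which preserve the flag. `ℓ.UU G`: the `p`-elements of `L` which act as `1` on
the graded pieces. `ℓ.Lv G t`: elements of `L` in the parabolic which act as `1` on all the pieces `≠ t`.

Proofs. If `f, g` are `Fil 0` then `comp 0 (f g) = comp 0 f * comp 0 g`, and `π k * f * π k = π k * comp 0 f`. `Fil 1 (f - 1)` gives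
`(f - 1)^l = 0` and `f^(p^j) = 1` for `l ≤ p^j` (`End V` has characteristic `p`). So `mem_UU` is `pw_mul_of` for the group
`{g ∈ L | Fil 1 (a g - 1)}`, and `UU_pgroup`.
`exists_piece`: `a' y = ` restriction of `comp 0 (a y)` to the range of `π t`; `L' = Lv`, `Z' = Z ∩ Y`. `surj`: `u` on the range of
`π t`, of determinant 1: `u ⊕ 1 = ι u π t + (1 - π t)` has determinant 1 (`det` of a map which is `u` on a subspace and `1` on a complement),
so it is `a g`, `g ∈ L`, and `g ∈ Lv`. `ker`: `y ∈ Lv`, trivial on the piece `t`: `comp 0 (a y) = 1`, so `(a y)^(p^j) = 1`,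
`y^(p^j) ∈ L` and `ker` of `ℓ`. `T`: `y ∈ L'`, `a' y = 1`, `Pw p y` iff `y ∈ UU`.
-/

set_option autoImplicit false

namespace Pool.Agent.Lib.MP_b9166b_al.Pt

open Module

namespace Lay

variable {p : ℕ} {Γ F V : Type} [Group Γ] [Field F] [AddCommGroup V] [Module F V] {l : ℕ}

/-- the stabilizer of the flag -/
def Par (ℓ : Lay p Γ F V) (G : Grd (V →ₗ[F] V) l) : Subgroup Γ where
  carrier := {g | G.Fil 0 (ℓ.a g) ∧ G.Fil 0 (ℓ.a g⁻¹)}
  one_mem' := by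
    refine ⟨?_, ?_⟩
    · rw [map_one]
      exact G.fil_one
    · rw [inv_one, map_one]
      exact G.fil_one
  mul_mem' := by
    intro g h hg hh
    refine ⟨?_, ?_⟩
    · rw [map_mul]
      exact G.mul0 hg.1 hh.1
    · rw [mul_inv_rev, map_mul]
      exact G.mul0 hh.2 hg.2
  inv_mem' := by
    intro g hg
    refine ⟨hg.2, ?_⟩
    rw [inv_inv]
    exact hg.1

/-- the unipotent radical -/
def UU (ℓ : Lay p Γ F V) (G : Grd (V →ₗ[F] V) l) : Subgroup Γ :=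
  Subgroup.closure {g | g ∈ ℓ.L ∧ Pw p g ∧ G.Fil 1 (ℓ.a g - 1)}

/-- elements acting on one piece only -/
def Lv (ℓ : Lay p Γ F V) (G : Grd (V →ₗ[F] V) l) (t : ℕ) : Subgroup Γ :=
  Subgroup.closure {g | g ∈ ℓ.L ∧ g ∈ ℓ.Par G ∧ ∀ k, k ≠ t → G.π k * ℓ.a g * G.π k = G.π k}

/-- `ℓ'` is the layer of the piece `t` -/
structure Pc (ℓ : Lay p Γ F V) (G : Grd (V →ₗ[F] V) l) (Y : Subgroup Γ) (t : ℕ)
    (ℓ' : Lay p Y F (LinearMap.range (G.π t))) : Prop where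
  act : ∀ (y : Y) (c : LinearMap.range (G.π t)),
    ((ℓ'.a y c : LinearMap.range (G.π t)) : V) = G.π t (ℓ.a y c)
  L : ∀ y : Y, y ∈ ℓ'.L ↔ (y : Γ) ∈ ℓ.Lv G t
  T : ∀ y : Y, y ∈ ℓ'.T ↔ (y : Γ) ∈ ℓ.UU G
  rt : ∀ (v : LinearMap.range (G.π t)) (f : Dual F (LinearMap.range (G.π t))) (g : Γ), f v = 0 →
    ℓ.Rt (v : V) (f ∘ₗ (G.π t).rangeRestrict) g → ∃ hg : g ∈ Y, ℓ'.Rt v f ⟨g, hg⟩

variable (ℓ : Lay p Γ F V) (G : Grd (V →ₗ[F] V) l)

theorem mem_Par {g : Γ} : g ∈ ℓ.Par G ↔ G.Fil 0 (ℓ.a g) ∧ G.Fil 0 (ℓ.a g⁻¹) := Iff.rfl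

theorem mem_Lv {t : ℕ} {g : Γ} : g ∈ ℓ.Lv G t ↔
    g ∈ ℓ.L ∧ g ∈ ℓ.Par G ∧ ∀ k, k ≠ t → G.π k * ℓ.a g * G.π k = G.π k := by
  constructor
  · intro h
    refine Subgroup.closure_induction (p := fun g _ => g ∈ ℓ.L ∧ g ∈ ℓ.Par G ∧
      ∀ k, k ≠ t → G.π k * ℓ.a g * G.π k = G.π k) ?_ ?_ ?_ ?_ h
    · intro x hx
      exact hx
    · refine ⟨ℓ.L.one_mem, (ℓ.Par G).one_mem, fun k _ => ?_⟩
      rw [map_one, mul_one, G.pp]
    · rintro x y _ _ hx hy
      refine ⟨ℓ.L.mul_mem hx.1 hy.1, (ℓ.Par G).mul_mem hx.2.1 hy.2.1, fun k hk => ?_⟩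
      rw [map_mul, G.diag_mul hx.2.1.1 hy.2.1.1, hx.2.2 k hk, hy.2.2 k hk, G.pp]
    · rintro x _ hx
      refine ⟨ℓ.L.inv_mem hx.1, (ℓ.Par G).inv_mem hx.2.1, fun k hk =>
        G.diag_inv hx.2.1.1 hx.2.1.2 ?_ (hx.2.2 k hk)⟩
      rw [← map_mul, mul_inv_cancel, map_one]
  · intro h
    exact Subgroup.subset_closure h

theorem Lv_norm {t : ℕ} {g h : Γ} (hg : g ∈ ℓ.Par G) (hh : h ∈ ℓ.Lv G t) :
    g * h * g⁻¹ ∈ ℓ.Lv G t := by
  have hh' := (ℓ.mem_Lv G).1 hh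
  refine (ℓ.mem_Lv G).2 ⟨ℓ.norm.conj_mem h hh'.1 g, ?_, fun k hk => ?_⟩
  · exact (ℓ.Par G).mul_mem ((ℓ.Par G).mul_mem hg hh'.2.1) ((ℓ.Par G).inv_mem hg)
  · rw [map_mul, map_mul]
    refine G.diag_conj hg.1 hg.2 ?_ hh'.2.1.1 (hh'.2.2 k hk)
    rw [← map_mul, mul_inv_cancel, map_one]

/-- root lifts of a piece -/
theorem rt_mem_Lv {t : ℕ} {v : V} {f : Dual F V} {g : Γ} (hv : G.π t v = v)
    (hf : f ∘ₗ G.π t = f) (h0 : f v = 0) (hg : ℓ.Rt v f g) : g ∈ ℓ.Lv G t := by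
  have hf' : ∀ w, f (G.π t w) = f w := fun w => LinearMap.congr_fun hf w
  have hL : ∀ k, k ≠ t → rk v f * G.π k = 0 := by
    intro k hk
    apply LinearMap.ext
    intro w
    change f (G.π k w) • v = 0
    have h1 : G.π t (G.π k w) = 0 := LinearMap.congr_fun (G.pne (Ne.symm hk)) w
    rw [← hf', h1, map_zero, zero_smul]
  have hR : ∀ k, k ≠ t → G.π k * rk v f = 0 := by
    intro k hk
    apply LinearMap.ext
    intro w
    change G.π k (f w • v) = 0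
    have h1 : G.π k (G.π t v) = 0 := LinearMap.congr_fun (G.pne hk) v
    rw [map_smul, ← hv, h1, smul_zero]
  have hc : ∀ k, rk v f * G.π k = G.π k * rk v f := by
    intro k
    by_cases hk : k = t
    · subst hk
      apply LinearMap.ext
      intro w
      change f (G.π k w) • v = G.π k (f w • v)
      rw [hf', map_smul, hv]
    · rw [hL k hk, hR k hk]
  have hag : ℓ.a g = 1 + rk v f := hg.2.2
  have hc1 : ∀ k, ℓ.a g * G.π k = G.π k * ℓ.a g := by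
    intro k
    rw [hag, add_mul, mul_add, one_mul, mul_one, hc]
  have hi1 : ℓ.a g * ℓ.a g⁻¹ = 1 := by
    rw [← map_mul, mul_inv_cancel, map_one]
  have hi2 : ℓ.a g⁻¹ * ℓ.a g = 1 := by
    rw [← map_mul, inv_mul_cancel, map_one]
  have hc2 : ∀ k, ℓ.a g⁻¹ * G.π k = G.π k * ℓ.a g⁻¹ := by
    intro k
    calc ℓ.a g⁻¹ * G.π k = ℓ.a g⁻¹ * (G.π k * (ℓ.a g * ℓ.a g⁻¹)) := by rw [hi1, mul_one]
      _ = ℓ.a g⁻¹ * ((G.π k * ℓ.a g) * ℓ.a g⁻¹) := by rw [mul_assoc (G.π k)]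
      _ = (ℓ.a g⁻¹ * ℓ.a g) * (G.π k * ℓ.a g⁻¹) := by rw [← hc1]; simp only [mul_assoc]
      _ = G.π k * ℓ.a g⁻¹ := by rw [hi2, one_mul]
  refine (ℓ.mem_Lv G).2 ⟨hg.1, ⟨G.fil_of_comm hc1, G.fil_of_comm hc2⟩, fun k hk => ?_⟩
  rw [hag, mul_assoc, add_mul, one_mul, hL k hk, add_zero, G.pp]

theorem Fil1_inv [Finite Γ] {g : Γ} (h : G.Fil 1 (ℓ.a g - 1)) : G.Fil 1 (ℓ.a g⁻¹ - 1) := by
  have h0 : G.Fil 0 (ℓ.a g) := G.fil0_of_fil1 h
  have h1 : g⁻¹ = g ^ (orderOf g - 1) := by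
    refine inv_eq_of_mul_eq_one_right ?_
    rw [← pow_succ', Nat.sub_add_cancel (orderOf_pos g), pow_orderOf_eq_one]
  have h2 : G.Fil 0 (ℓ.a g⁻¹) := by
    rw [h1, map_pow]
    exact G.fil0_pow h0 _
  have h3 := G.comp_mul0 h0 h2
  rw [← map_mul, mul_inv_cancel, map_one, G.comp_one, G.comp0_of_fil1 h, one_mul] at h3
  exact G.fil1_of_comp0 h2 h3.symm

theorem card_sub (Y : Subgroup Γ) : (Nat.card (ℓ.Z.subgroupOf Y)).Coprime p := by
  refine Nat.Coprime.coprime_dvd_left ?_ ℓ.cop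
  refine Subgroup.card_dvd_of_injective (Y.subtype.subgroupComap ℓ.Z) ?_
  intro x y hxy
  have h1 : (((x : Y) : Γ)) = ((y : Y) : Γ) := congrArg (fun z : ℓ.Z => (z : Γ)) hxy
  exact Subtype.ext (Subtype.ext h1)

theorem cen_sub (Y : Subgroup Γ) : ℓ.Z.subgroupOf Y ≤ Subgroup.center Y := by
  intro z hz
  rw [Subgroup.mem_center_iff]
  intro x
  exact Subtype.ext (Subgroup.mem_center_iff.1 (ℓ.cen hz) x)

theorem ker_pow {x : Γ} (h : x ∈ ℓ.L) {j : ℕ} (h1 : ℓ.a x ^ p ^ j = 1) :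
    ∃ i : ℕ, x ^ p ^ i ∈ ℓ.Z := by
  obtain ⟨i, hi⟩ := ℓ.ker (x ^ p ^ j) (ℓ.L.pow_mem h _) (by rw [map_pow, h1])
  refine ⟨j + i, ?_⟩
  rw [pow_add, pow_mul]
  exact hi

/-- the group of the elements of `L` acting as `1` on the graded pieces -/
def Sg [Finite Γ] : Subgroup Γ where
  carrier := {g | g ∈ ℓ.L ∧ G.Fil 1 (ℓ.a g - 1)}
  one_mem' := by
    refine ⟨ℓ.L.one_mem, ?_⟩
    rw [map_one, sub_self]
    exact G.fil_zero 1
  mul_mem' := by
    intro g h hg hh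
    refine ⟨ℓ.L.mul_mem hg.1 hh.1, ?_⟩
    rw [map_mul]
    exact G.fil1_mul hg.2 hh.2
  inv_mem' := by
    intro g hg
    exact ⟨ℓ.L.inv_mem hg.1, ℓ.Fil1_inv G hg.2⟩

theorem end_char [CharP F p] : ((p : ℕ) : V →ₗ[F] V) = 0 := by
  apply LinearMap.ext
  intro w
  rw [Module.End.natCast_apply, ← Nat.cast_smul_eq_nsmul F p w, CharP.cast_eq_zero F p, zero_smul]
  rfl

variable [Finite Γ] (hp : p.Prime) [CharP F p]

include hp

omit [CharP F p] in
theorem pwm {S : Subgroup Γ} (hS : S ≤ ℓ.L) (h : ∀ g ∈ S, ∃ j : ℕ, ℓ.a g ^ p ^ j = 1)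
    {g g' : Γ} (hg : g ∈ S) (hg' : g' ∈ S) (h1 : Pw p g) (h2 : Pw p g') : Pw p (g * g') := by
  have hj : ∀ x : S, ∃ j : ℕ, x ^ p ^ j ∈ ℓ.Z.subgroupOf S := by
    intro x
    obtain ⟨j, hj⟩ := h x x.2
    obtain ⟨i, hi⟩ := ℓ.ker_pow (hS x.2) hj
    exact ⟨i, hi⟩
  obtain ⟨a, ha⟩ := h1
  obtain ⟨b, hb⟩ := h2
  have hg1 : Pw p (⟨g, hg⟩ : S) := ⟨a, Subtype.ext ha⟩
  have hg2 : Pw p (⟨g', hg'⟩ : S) := ⟨b, Subtype.ext hb⟩
  obtain ⟨j, hj⟩ := pw_mul hp _ (ℓ.cen_sub S) (ℓ.card_sub S) hj hg1 hg2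
  exact ⟨j, congrArg Subtype.val hj⟩

theorem pow_one' {x : Γ} (h1 : G.Fil 1 (ℓ.a x - 1)) : ∃ j : ℕ, ℓ.a x ^ p ^ j = 1 :=
  G.pow_one_of_fil1 hp end_char h1

theorem mem_UU {g : Γ} : g ∈ ℓ.UU G ↔ g ∈ ℓ.L ∧ Pw p g ∧ G.Fil 1 (ℓ.a g - 1) := by
  constructor
  · intro h
    refine Subgroup.closure_induction (p := fun g _ => g ∈ ℓ.L ∧ Pw p g ∧
      G.Fil 1 (ℓ.a g - 1)) ?_ ?_ ?_ ?_ h
    · intro x hx
      exact hx
    · refine ⟨ℓ.L.one_mem, Pw.one, ?_⟩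
      rw [map_one, sub_self]
      exact G.fil_zero 1
    · rintro x y _ _ hx hy
      have hS : ℓ.Sg G ≤ ℓ.L := fun z hz => hz.1
      refine ⟨ℓ.L.mul_mem hx.1 hy.1, ?_, ?_⟩
      · exact ℓ.pwm hp hS (fun z hz => ℓ.pow_one' G hp hz.2) (g := x) (g' := y) ⟨hx.1, hx.2.2⟩
          ⟨hy.1, hy.2.2⟩ hx.2.1 hy.2.1
      · rw [map_mul]
        exact G.fil1_mul hx.2.2 hy.2.2
    · rintro x _ hx
      exact ⟨ℓ.L.inv_mem hx.1, hx.2.1.inv, ℓ.Fil1_inv G hx.2.2⟩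
  · intro h
    exact Subgroup.subset_closure h

theorem UU_pgroup : IsPGroup p (ℓ.UU G) := by
  intro g
  obtain ⟨j, hj⟩ := ((ℓ.mem_UU G hp).1 g.2).2.1
  exact ⟨j, Subtype.ext hj⟩

theorem UU_norm {g h : Γ} (hg : g ∈ ℓ.Par G) (hh : h ∈ ℓ.UU G) : g * h * g⁻¹ ∈ ℓ.UU G := by
  have h1 := (ℓ.mem_UU G hp).1 hh
  refine (ℓ.mem_UU G hp).2 ⟨ℓ.norm.conj_mem h h1.1 g, h1.2.1.conj g, ?_⟩
  rw [map_mul, map_mul]
  refine G.fil1_conj hg.1 hg.2 ?_ h1.2.2
  rw [← map_mul, mul_inv_cancel, map_one]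

theorem T_le_UU : ℓ.T ≤ ℓ.UU G := by
  refine (Subgroup.closure_le _).2 ?_
  rintro x ⟨h1, h2, h3⟩
  refine Subgroup.subset_closure ⟨h1, h3, ?_⟩
  rw [h2, sub_self]
  exact G.fil_zero 1

theorem UU_le_Lv (t : ℕ) : ℓ.UU G ≤ ℓ.Lv G t := by
  intro x hx
  have h1 := (ℓ.mem_UU G hp).1 hx
  refine (ℓ.mem_Lv G).2 ⟨h1.1, ⟨G.fil0_of_fil1 h1.2.2, G.fil0_of_fil1 (ℓ.Fil1_inv G h1.2.2)⟩,
    fun k _ => ?_⟩
  exact G.diag_of_comp0 (G.comp0_of_fil1 h1.2.2) k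

/-- an element of `L` which acts as `1` on the graded pieces -/
theorem UU_dec {x : Γ} (h : x ∈ ℓ.L) (h1 : G.Fil 1 (ℓ.a x - 1)) :
    ∃ u ∈ ℓ.UU G, ∃ z ∈ ℓ.Z, x = u * z := by
  obtain ⟨g, hg, z, hz, hxz, hP, hag⟩ := ℓ.L_dec hp h (ℓ.pow_one' G hp h1)
  refine ⟨g, (ℓ.mem_UU G hp).2 ⟨hg, hP, ?_⟩, z, hz, hxz⟩
  rw [hag]
  exact h1

theorem exists_piece [FiniteDimensional F V] (Y : Subgroup Γ) (hY : Y ≤ ℓ.Par G) {t : ℕ}
    (ht : ℓ.Lv G t ≤ Y) : ∃ ℓ' : Lay p Y F (LinearMap.range (G.π t)), ℓ.Pc G Y t ℓ' := by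
  have hππ : ∀ x, G.π t (G.π t x) = G.π t x := fun x => LinearMap.congr_fun (G.pp t) x
  have hfix : ∀ w : LinearMap.range (G.π t), G.π t (w : V) = w := by
    rintro ⟨w, x, rfl⟩
    exact hππ x
  have hr : ∀ w : LinearMap.range (G.π t), (G.π t).rangeRestrict (w : V) = w :=
    fun w => Subtype.ext (hfix w)
  have hrv : ∀ x, (((G.π t).rangeRestrict x : LinearMap.range (G.π t)) : V) = G.π t x :=
    fun x => rfl
  have hmulp : ∀ y z : Y, ∀ w : LinearMap.range (G.π t),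
      G.π t (ℓ.a ((y : Γ) * (z : Γ)) (w : V)) = G.π t (ℓ.a y (G.π t (ℓ.a z (w : V)))) := by
    intro y z w
    have h1 := LinearMap.congr_fun (G.diag_mul (hY y.2).1 (hY z.2).1 t) (w : V)
    have h2 : G.π t (ℓ.a y (ℓ.a z (G.π t (w : V)))) =
        G.π t (ℓ.a y (G.π t (G.π t (ℓ.a z (G.π t (w : V)))))) := h1
    rw [hfix, hππ] at h2
    rw [map_mul]
    exact h2
  let a' : Y →* (LinearMap.range (G.π t) →ₗ[F] LinearMap.range (G.π t)) :=
    { toFun := fun y => (G.π t).rangeRestrict ∘ₗ ℓ.a y ∘ₗ (LinearMap.range (G.π t)).subtype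
      map_one' := by
        apply LinearMap.ext
        intro w
        apply Subtype.ext
        change G.π t (ℓ.a (1 : Γ) (w : V)) = w
        rw [map_one]
        exact hfix w
      map_mul' := by
        intro y z
        apply LinearMap.ext
        intro w
        apply Subtype.ext
        exact hmulp y z w }
  have ha' : ∀ (y : Y) (w : LinearMap.range (G.π t)),
      ((a' y w : LinearMap.range (G.π t)) : V) = G.π t (ℓ.a y w) := fun y w => rfl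
  -- the block decomposition
  have hfil : ∀ y : Y, (y : Γ) ∈ ℓ.Lv G t → a' y = 1 → G.Fil 1 (ℓ.a y - 1) := by
    intro y hy h1
    have h2 := (ℓ.mem_Lv G).1 hy
    refine G.fil1_of_comp0 h2.2.1.1 (G.comp0_of_diag fun k => ?_)
    by_cases hk : k = t
    · subst hk
      apply LinearMap.ext
      intro x
      have h3 := congrArg Subtype.val (LinearMap.congr_fun h1 ((G.π k).rangeRestrict x))
      exact h3
    · exact h2.2.2 k hk
  have hsurj : ∀ u : LinearMap.range (G.π t) →ₗ[F] LinearMap.range (G.π t),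
      LinearMap.det u = 1 → ∃ g : Y, (g : Γ) ∈ ℓ.Lv G t ∧ a' g = u := by
    intro u hu
    let U : (LinearMap.range (G.π t) →ₗ[F] LinearMap.range (G.π t)) → (V →ₗ[F] V) :=
      fun u => (LinearMap.range (G.π t)).subtype ∘ₗ u ∘ₗ (G.π t).rangeRestrict + (1 - G.π t)
    have hUx : ∀ u x, U u x = (u ((G.π t).rangeRestrict x) : V) + (x - G.π t x) :=
      fun u x => rfl
    have hdet : LinearMap.det (U u) = 1 := by
      rw [det_block _ (G.π t).rangeRestrict hr u (U u) (fun x => hUx u x), hu]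
    obtain ⟨g, hg, hag⟩ := ℓ.surj (U u) hdet
    -- the inverse of u
    have hunit : IsUnit (LinearMap.det u) := by
      rw [hu]
      exact isUnit_one
    have hu' : IsUnit u := (LinearMap.isUnit_iff_isUnit_det u).2 hunit
    obtain ⟨w, hw⟩ := hu'
    have hcom : ∀ u, ∀ k, U u * G.π k = G.π k * U u := by
      intro u k
      apply LinearMap.ext
      intro x
      change U u (G.π k x) = G.π k (U u x)
      rw [hUx, hUx, map_add, map_sub]
      by_cases hk : k = t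
      · subst hk
        rw [hππ, sub_self, add_zero, add_zero, hfix]
        exact congrArg (fun z => (u z : V)) (hr ((G.π k).rangeRestrict x))
      · have h1 : (G.π t).rangeRestrict (G.π k x) = 0 :=
          Subtype.ext (LinearMap.congr_fun (G.pne (Ne.symm hk)) x)
        have h2 : G.π t (G.π k x) = 0 := LinearMap.congr_fun (G.pne (Ne.symm hk)) x
        have h3 : G.π k (G.π t x) = 0 := LinearMap.congr_fun (G.pne hk) x
        have h4 : G.π k (u ((G.π t).rangeRestrict x) : V) = 0 := by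
          rw [← hfix]
          exact LinearMap.congr_fun (G.pne hk) _
        rw [h1, h2, h3, h4, map_zero]
        rfl
    have hmul : ∀ u v, U u * U v = U (u * v) := by
      intro u v
      apply LinearMap.ext
      intro x
      change U u (U v x) = U (u * v) x
      have h1 : (G.π t).rangeRestrict (U v x) = v ((G.π t).rangeRestrict x) := by
        apply Subtype.ext
        change G.π t (U v x) = _
        rw [hUx, map_add, map_sub, hππ, sub_self, add_zero, hfix]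
      have h2 : G.π t (U v x) = (v ((G.π t).rangeRestrict x) : V) := congrArg Subtype.val h1
      rw [hUx u (U v x), h1, h2, hUx, hUx, add_sub_cancel_left]
      rfl
    have hone : U 1 = 1 := by
      apply LinearMap.ext
      intro x
      rw [hUx]
      change G.π t x + (x - G.π t x) = x
      rw [add_sub_cancel]
    have hinv : ℓ.a g⁻¹ = U (w⁻¹ : (LinearMap.range (G.π t) →ₗ[F] LinearMap.range (G.π t))ˣ).1 := by
      have h1 : ℓ.a g⁻¹ * ℓ.a g = 1 := by rw [← map_mul, inv_mul_cancel, map_one]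
      have h2 : ℓ.a g * U (w⁻¹ : (LinearMap.range (G.π t) →ₗ[F] LinearMap.range (G.π t))ˣ).1 =
          1 := by
        rw [hag, ← hw, hmul, ← hone]
        exact congrArg U w.mul_inv
      exact left_inv_eq_right_inv h1 h2
    have hgLv : g ∈ ℓ.Lv G t := by
      refine (ℓ.mem_Lv G).2 ⟨hg, ⟨?_, ?_⟩, fun k hk => ?_⟩
      · rw [hag]
        exact G.fil_of_comm (hcom u)
      · rw [hinv]
        exact G.fil_of_comm (hcom _)
      · rw [hag]
        apply LinearMap.ext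
        intro x
        change G.π k (U u (G.π k x)) = G.π k x
        have h1 : (G.π t).rangeRestrict (G.π k x) = 0 :=
          Subtype.ext (LinearMap.congr_fun (G.pne (Ne.symm hk)) x)
        have h2 : G.π t (G.π k x) = 0 := LinearMap.congr_fun (G.pne (Ne.symm hk)) x
        have h3 : G.π k (G.π k x) = G.π k x := LinearMap.congr_fun (G.pp k) x
        rw [hUx, h1, h2, map_zero, sub_zero, map_add, h3]
        change G.π k 0 + _ = _
        rw [map_zero, zero_add]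
    refine ⟨⟨g, ht hgLv⟩, hgLv, ?_⟩
    apply LinearMap.ext
    intro x
    apply Subtype.ext
    rw [ha']
    change G.π t (ℓ.a g (x : V)) = _
    rw [hag, hUx, map_add, map_sub, hππ, sub_self, add_zero, hfix, hr]
  let ℓ' : Lay p Y F (LinearMap.range (G.π t)) :=
    { a := a'
      L := (ℓ.Lv G t).subgroupOf Y
      norm := ⟨fun n hn g => ℓ.Lv_norm G (hY g.2) hn⟩
      surj := fun u hu => by
        obtain ⟨g, hg, hgu⟩ := hsurj u hu
        exact ⟨g, hg, hgu⟩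
      Z := ℓ.Z.subgroupOf Y
      cen := ℓ.cen_sub Y
      cop := ℓ.card_sub Y
      scal := fun z hz => by
        obtain ⟨e, he⟩ := ℓ.scal z hz
        refine ⟨e, ?_⟩
        apply LinearMap.ext
        intro w
        apply Subtype.ext
        rw [ha', he]
        change G.π t (e • (w : V)) = e • (w : V)
        rw [map_smul, hfix]
      ker := fun y hy h1 => by
        obtain ⟨j, hj⟩ := ℓ.pow_one' G hp (hfil y hy h1)
        obtain ⟨i, hi⟩ := ℓ.ker_pow ((ℓ.mem_Lv G).1 hy).1 hj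
        exact ⟨i, hi⟩ }
  refine ⟨ℓ', ⟨fun y c => rfl, fun y => Iff.rfl, fun y => ?_, ?_⟩⟩
  · rw [ℓ'.mem_T hp, ℓ.mem_UU G hp]
    constructor
    · rintro ⟨h1, h2, ⟨j, h3⟩⟩
      exact ⟨((ℓ.mem_Lv G).1 h1).1, ⟨j, congrArg Subtype.val h3⟩, hfil y h1 h2⟩
    · rintro ⟨h1, ⟨j, h2⟩, h3⟩
      refine ⟨?_, ?_, ⟨j, Subtype.ext h2⟩⟩
      · exact ℓ.UU_le_Lv G hp t ((ℓ.mem_UU G hp).2 ⟨h1, ⟨j, h2⟩, h3⟩)
      · apply LinearMap.ext
        intro w
        apply Subtype.ext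
        change G.π t (ℓ.a y (w : V)) = w
        have h4 := LinearMap.congr_fun (G.diag_of_comp0 (G.comp0_of_fil1 h3) t) (w : V)
        have h5 : G.π t (ℓ.a y (G.π t (w : V))) = G.π t (w : V) := h4
        rwa [hfix] at h5
  · intro v f g h0 hg
    have hgL : g ∈ ℓ.Lv G t := by
      refine ℓ.rt_mem_Lv G (hfix v) ?_ ?_ hg
      · apply LinearMap.ext
        intro x
        change f ((G.π t).rangeRestrict (G.π t x)) = f ((G.π t).rangeRestrict x)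
        exact congrArg f (Subtype.ext (hππ x))
      · change f ((G.π t).rangeRestrict (v : V)) = 0
        rw [hr, h0]
    obtain ⟨h1, ⟨j, h2⟩, h3⟩ := hg
    refine ⟨ht hgL, hgL, ⟨j, Subtype.ext h2⟩, ?_⟩
    apply LinearMap.ext
    intro w
    apply Subtype.ext
    change G.π t (ℓ.a g (w : V)) = (w : V) + f w • (v : V)
    rw [h3]
    change G.π t ((w : V) + f ((G.π t).rangeRestrict (w : V)) • (v : V)) = _
    rw [hr, map_add, map_smul, hfix, hfix]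

end Lay

end Pool.Agent.Lib.MP_b9166b_al.Pt
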