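import Mathlib

/-!
# MP_b9166b_al, PT: p-elements

`Pw p g`: the order of `g` is a power of `p`.
`eq_one_of_comm`: `g h = z h g` gives `z⁻¹ g = h g h⁻¹`, so `(z⁻¹ g)^(p^j) = 1`, `z^(p^j) = 1`.
`pw_mul`: `Z` central of order prime to `p`, `Γ / Z` a `p`-group. A Sylow `p`-subgroup `P` of `Γ` has index
`card Z`, `P ∩ Z = 1`, so `Γ = P Z` and every element of `p`-power order is in `P` (write `g = x z`; `x, z` commute;
`z` has `p`-power order).
`exists_ppart`: `orderOf g = p^i * m`, `m` prime to `p`; `n ≡ 1` mod `p^i`, `n ≡ 0` mod `m`. For a homomorphism `φ` with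
`(φ g)^(p^j) = 1` the order of `φ g` divides `p^i`. `exists_qpart` similarly with `n ≡ 0` mod `p^i`, `n ≡ 1` mod `m`.
-/

set_option autoImplicit false

namespace Pool.Agent.Lib.MP_b9166b_al.Pt

/-- `p`-elements -/
def Pw (p : ℕ) {Γ : Type} [Group Γ] (g : Γ) : Prop := ∃ j : ℕ, g ^ p ^ j = 1

section

variable {p : ℕ} {Γ : Type} [Group Γ]

theorem Pw.one : Pw p (1 : Γ) := ⟨0, one_pow _⟩

theorem Pw.inv {g : Γ} (h : Pw p g) : Pw p g⁻¹ := by
  obtain ⟨j, hj⟩ := h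
  exact ⟨j, by rw [inv_pow, hj, inv_one]⟩

theorem Pw.pow {g : Γ} (h : Pw p g) (n : ℕ) : Pw p (g ^ n) := by
  obtain ⟨j, hj⟩ := h
  exact ⟨j, by rw [← pow_mul, mul_comm, pow_mul, hj, one_pow]⟩

theorem Pw.map {H : Type} [Group H] (φ : Γ →* H) {g : Γ} (h : Pw p g) : Pw p (φ g) := by
  obtain ⟨j, hj⟩ := h
  exact ⟨j, by rw [← map_pow, hj, map_one]⟩

theorem Pw.conj {g : Γ} (h : Pw p g) (x : Γ) : Pw p (x * g * x⁻¹) := by
  obtain ⟨j, hj⟩ := h
  exact ⟨j, by rw [conj_pow, hj, mul_one, mul_inv_cancel]⟩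

theorem Pw.mul {g h : Γ} (hg : Pw p g) (hh : Pw p h) (hc : Commute g h) : Pw p (g * h) := by
  obtain ⟨i, hi⟩ := hg
  obtain ⟨j, hj⟩ := hh
  refine ⟨i + j, ?_⟩
  rw [hc.mul_pow, pow_add, pow_mul g, hi, one_pow, one_mul, mul_comm, pow_mul, hj, one_pow]

theorem Pw.eq_one {g : Γ} (h : Pw p g) (hc : (orderOf g).Coprime p) : g = 1 := by
  obtain ⟨j, hj⟩ := h
  have h1 : orderOf g ∣ p ^ j := orderOf_dvd_of_pow_eq_one hj
  have h2 : (orderOf g).Coprime (p ^ j) := hc.pow_right j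
  have h3 : orderOf g = 1 := Nat.Coprime.eq_one_of_dvd h2 h1
  exact orderOf_eq_one_iff.1 h3

theorem eq_one_of_comm {g h z : Γ} (hg : Pw p g) (hz : Commute z g) (hc : (orderOf z).Coprime p)
    (h1 : g * h = z * h * g) : z = 1 := by
  obtain ⟨j, hj⟩ := hg
  have h2 : z⁻¹ * g = h * g * h⁻¹ := by
    have h3 : z⁻¹ * g * h = h * g := by
      rw [mul_assoc, h1]
      group
    rw [← h3]
    group
  have h4 : (z⁻¹ * g) ^ p ^ j = 1 := by
    rw [h2, conj_pow, hj, mul_one, mul_inv_cancel]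
  have h5 : Commute z⁻¹ g := hz.inv_left
  rw [h5.mul_pow, hj, mul_one, inv_pow, inv_eq_one] at h4
  exact Pw.eq_one ⟨j, h4⟩ hc

theorem pw_mul [Finite Γ] (hp : p.Prime) (Z : Subgroup Γ) (hZ : Z ≤ Subgroup.center Γ)
    (hc : (Nat.card Z).Coprime p) (h : ∀ g : Γ, ∃ j : ℕ, g ^ p ^ j ∈ Z) {g g' : Γ} (hg : Pw p g)
    (hg' : Pw p g') : Pw p (g * g') := by
  have hfp : Fact p.Prime := ⟨hp⟩
  have hN : Z.Normal := ⟨fun n hn x => by
    rw [(Subgroup.mem_center_iff.1 (hZ hn) x), mul_assoc, mul_inv_cancel, mul_one]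
    exact hn⟩
  have hpg : IsPGroup p (Γ ⧸ Z) := by
    intro q
    obtain ⟨x, rfl⟩ := QuotientGroup.mk_surjective q
    obtain ⟨j, hj⟩ := h x
    exact ⟨j, by rw [← QuotientGroup.mk_pow]; exact (QuotientGroup.eq_one_iff _).2 hj⟩
  obtain ⟨i, hi⟩ := IsPGroup.iff_card.1 hpg
  have hcop : Nat.Coprime (Nat.card Z) Z.index := by
    rw [Subgroup.index, hi]
    exact hc.pow_right i
  obtain ⟨P, hP⟩ := Subgroup.exists_right_complement'_of_coprime hcop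
  have hdis : ∀ x, x ∈ Z → x ∈ P → x = 1 := by
    intro x hx hx'
    exact Subgroup.disjoint_def.1 hP.disjoint hx hx'
  have hmem : ∀ g : Γ, Pw p g → g ∈ P := by
    intro g hg
    obtain ⟨⟨z, x⟩, hzx⟩ := hP.2 g
    have hzx' : (z : Γ) * (x : Γ) = g := hzx
    obtain ⟨j, hj⟩ := hg
    have hcm : Commute (z : Γ) (x : Γ) := (Subgroup.mem_center_iff.1 (hZ z.2) x).symm
    rw [← hzx', hcm.mul_pow] at hj
    have h1 : (z : Γ) ^ p ^ j ∈ P := by
      rw [eq_inv_of_mul_eq_one_left hj]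
      exact P.inv_mem (P.pow_mem x.2 _)
    have h2 : (z : Γ) ^ p ^ j = 1 := hdis _ (Z.pow_mem z.2 _) h1
    have h3 : (orderOf (z : Γ)).Coprime p := by
      rw [Subgroup.orderOf_coe]
      exact Nat.Coprime.coprime_dvd_left (orderOf_dvd_natCard z) hc
    have h4 : (z : Γ) = 1 := Pw.eq_one ⟨j, h2⟩ h3
    rw [← hzx', h4, one_mul]
    exact x.2
  obtain ⟨j, hj⟩ := h (g * g')
  exact ⟨j, hdis _ hj (P.pow_mem (P.mul_mem (hmem g hg) (hmem g' hg')) _)⟩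

theorem pgrp_pow {M : Type} [Monoid M] {x : M} {n c : ℕ} (hx : orderOf x ∣ c)
    (hn : n ≡ 1 [MOD c]) : x ^ n = x := by
  have h1 : n ≡ 1 [MOD orderOf x] := hn.of_dvd hx
  calc x ^ n = x ^ (n % orderOf x) := (pow_mod_orderOf x n).symm
    _ = x ^ (1 % orderOf x) := by rw [h1]
    _ = x ^ 1 := pow_mod_orderOf x 1
    _ = x := pow_one x

theorem pgrp_split (hp : p.Prime) {n : ℕ} (hn : n ≠ 0) :
    ∃ i m : ℕ, n = p ^ i * m ∧ m.Coprime p := by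
  obtain ⟨i, m, hm, h⟩ := Nat.exists_eq_pow_mul_and_not_dvd hn p hp.ne_one
  exact ⟨i, m, h, ((Nat.Prime.coprime_iff_not_dvd hp).2 hm).symm⟩

theorem exists_ppart [Finite Γ] (hp : p.Prime) (g : Γ) : ∃ n : ℕ, Pw p (g ^ n) ∧
    ∀ {M : Type} [Monoid M] (φ : Γ →* M), (∃ j : ℕ, φ g ^ p ^ j = 1) → φ (g ^ n) = φ g := by
  obtain ⟨i, m, him, hm⟩ := pgrp_split hp (orderOf_pos g).ne'
  obtain ⟨n, hn1, hn0⟩ := Nat.chineseRemainder (hm.symm.pow_left i) 1 0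
  have hmn : m ∣ n := (Nat.modEq_zero_iff_dvd).1 hn0
  refine ⟨n, ⟨i, ?_⟩, ?_⟩
  · rw [← pow_mul]
    apply orderOf_dvd_iff_pow_eq_one.1
    rw [him, mul_comm n]
    exact Nat.mul_dvd_mul_left _ hmn
  · intro M _ φ hφ
    obtain ⟨j, hj⟩ := hφ
    rw [map_pow]
    have h1 : orderOf (φ g) ∣ p ^ j := orderOf_dvd_of_pow_eq_one hj
    have h2 : orderOf (φ g) ∣ p ^ i * m := by
      rw [← him]
      exact orderOf_map_dvd φ g
    have h3 : (orderOf (φ g)).Coprime m :=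
      Nat.Coprime.coprime_dvd_left h1 (hm.symm.pow_left j)
    exact pgrp_pow (h3.dvd_of_dvd_mul_right h2) hn1

theorem exists_qpart [Finite Γ] (hp : p.Prime) (g : Γ) : ∃ n : ℕ, (orderOf (g ^ n)).Coprime p ∧
    ∀ {M : Type} [Monoid M] (φ : Γ →* M), (∃ c : ℕ, c.Coprime p ∧ φ g ^ c = 1) →
      φ (g ^ n) = φ g := by
  obtain ⟨i, m, him, hm⟩ := pgrp_split hp (orderOf_pos g).ne'
  obtain ⟨n, hn0, hn1⟩ := Nat.chineseRemainder (hm.symm.pow_left i) 0 1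
  have hmn : p ^ i ∣ n := (Nat.modEq_zero_iff_dvd).1 hn0
  refine ⟨n, ?_, ?_⟩
  · have h1 : orderOf (g ^ n) ∣ m := by
      apply orderOf_dvd_of_pow_eq_one
      rw [← pow_mul]
      apply orderOf_dvd_iff_pow_eq_one.1
      rw [him]
      exact Nat.mul_dvd_mul_right hmn _
    exact Nat.Coprime.coprime_dvd_left h1 hm
  · intro M _ φ hφ
    obtain ⟨c, hc, hcg⟩ := hφ
    rw [map_pow]
    have h1 : orderOf (φ g) ∣ c := orderOf_dvd_of_pow_eq_one hcg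
    have h2 : orderOf (φ g) ∣ p ^ i * m := by
      rw [← him]
      exact orderOf_map_dvd φ g
    have h3 : (orderOf (φ g)).Coprime (p ^ i) :=
      (Nat.Coprime.coprime_dvd_left h1 hc).pow_right i
    exact pgrp_pow (h3.dvd_of_dvd_mul_left h2) hn1

end

end Pool.Agent.Lib.MP_b9166b_al.Pt
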