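import Pool.Agent.Lib.MP_b9166b_al.Pt.Fd

/-!
# MP_b9166b_al, PT: purity (7.4)

Proof of `purity`. All in the ring `End X`. Write `E = m 1` (idempotent; `x E = E x` by `hx 1`), `Y = m u⁻¹ * x`.
`hx` gives `x * m u⁻¹ = m u⁻¹ * x`, so `Y ^ j = m (u⁻¹ ^ j) * x ^ j` on `E`. `Y` commutes with all `m α`:
`Y * m α = m u⁻¹ * m (u α u⁻¹) * x = m α * m u⁻¹ * x`. On `E`, `Y` is invertible with inverse `Y' = x⁻¹ * m u`
(`Y' * Y = x⁻¹ * m 1 * x = E = Y * Y'`). From `hy`: `(Y' - E)^k = 0` (multiply `(Y - E)^k = 0` by `(-1)^k Y'^k`; `Y, Y', E`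
commute), so `∑_{j<k} cf k j • Y'^j = - Y'^k` on `E` (`Y'^0` read as `E`).
`γ := ∑_{j<k} x⁻¹ ^ j * m (ε j) = ∑_{j<k} Y'^j * m (io j)` (`x⁻¹^j * m (u^j) = Y'^j` on `E`). Then `γ * x * E = γ * E`:
`γ * x * E = ∑ Y'^j * m (io j) * m u * Y = ∑ Y'^j * Y * m (io j * u)`, insert `io_mul_zero`, `io_mul_succ`:
`= ∑_{j<k-1} Y'^j * m (io j) - Y * (∑_{j<k} cf k j • Y'^j) * m (io (k-1)) = ∑_{j<k-1} .. + Y'^(k-1) * m (io (k-1))`.
`γ E = γ`. For `w = x ξ - ξ ∈ M`: `γ w = γ E (x ξ - ξ) = γ x E ξ - γ E ξ = 0`. So `E w = E w - γ w =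
∑_{j<k} (1 - x⁻¹^j) (m (ε j) w)`, and `(1 - x⁻¹^j) w' = x w'' - w''` with `w'' = ∑_{i=1..j} x⁻¹^i w'` in `M`.
-/

set_option autoImplicit false

namespace Pool.Agent.Lib.MP_b9166b_al.Pt

open Finset

/-- The ring part of `purity`. -/
theorem Pur_gamma {S R : Type} [Ring S] [Ring R] {u : Sˣ} {k : ℕ} (hk : 0 < k) (D : FD u k)
    (m : S → R) (hadd : ∀ α β, m (α + β) = m α + m β)
    (hmul : ∀ α β, m (α * β) = m α * m β) (x : Rˣ)
    (hx : ∀ α, (x : R) * m α = m ((u : S) * α * ((u⁻¹ : Sˣ) : S)) * x)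
    (hy : (m ((u⁻¹ : Sˣ) : S) * x - m 1) ^ k = 0) :
    (∑ j ∈ range k, ((x⁻¹ : Rˣ) : R) ^ j * m (D.ε j)) * (x : R) =
      ∑ j ∈ range k, ((x⁻¹ : Rˣ) : R) ^ j * m (D.ε j) := by
  -- additivity
  have m0 : m 0 = 0 := by
    have h := hadd 0 0
    rw [add_zero] at h
    exact left_eq_add.1 h
  have mneg : ∀ α, m (-α) = -m α := by
    intro α
    have h := hadd (-α) α
    rw [neg_add_cancel, m0] at h
    exact eq_neg_of_add_eq_zero_left h.symm
  have msub : ∀ α β, m (α - β) = m α - m β := by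
    intro α β
    rw [sub_eq_add_neg, hadd, mneg, ← sub_eq_add_neg]
  let mh : S →+ R := { toFun := m, map_zero' := m0, map_add' := hadd }
  have mzs : ∀ (n : ℤ) (α : S), m (((n : ℤ) : S) * α) = ((n : ℤ) : R) * m α := by
    intro n α
    have h := map_zsmul mh n α
    have h1 : mh (n • α) = m (n • α) := rfl
    have h2 : mh α = m α := rfl
    rw [h1, h2, zsmul_eq_mul, zsmul_eq_mul] at h
    exact h
  -- the idempotent
  have E1 : ∀ α, m 1 * m α = m α := fun α => by rw [← hmul, one_mul]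
  have E2 : ∀ α, m α * m 1 = m α := fun α => by rw [← hmul, mul_one]
  have uu : (u : S) * ((u⁻¹ : Sˣ) : S) = 1 := by rw [← Units.val_mul, mul_inv_cancel, Units.val_one]
  have uu' : ((u⁻¹ : Sˣ) : S) * (u : S) = 1 := by
    rw [← Units.val_mul, inv_mul_cancel, Units.val_one]
  have xx : (x : R) * ((x⁻¹ : Rˣ) : R) = 1 := by rw [← Units.val_mul, mul_inv_cancel, Units.val_one]
  have xx' : ((x⁻¹ : Rˣ) : R) * (x : R) = 1 := by
    rw [← Units.val_mul, inv_mul_cancel, Units.val_one]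
  have xE : (x : R) * m 1 = m 1 * x := by
    have h := hx 1
    rw [mul_one, uu] at h
    exact h
  have xE' : ((x⁻¹ : Rˣ) : R) * m 1 = m 1 * ((x⁻¹ : Rˣ) : R) := by
    have h : ((x⁻¹ : Rˣ) : R) * ((x : R) * m 1) * ((x⁻¹ : Rˣ) : R) =
        ((x⁻¹ : Rˣ) : R) * (m 1 * x) * ((x⁻¹ : Rˣ) : R) := by rw [xE]
    rw [← mul_assoc, xx', one_mul, mul_assoc, mul_assoc, xx, mul_one] at h
    exact h.symm
  have xu : (x : R) * m (u : S) = m (u : S) * x := by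
    have h := hx (u : S)
    rw [mul_assoc, uu, mul_one] at h
    exact h
  have xu' : ((x⁻¹ : Rˣ) : R) * m (u : S) = m (u : S) * ((x⁻¹ : Rˣ) : R) := by
    have h : ((x⁻¹ : Rˣ) : R) * ((x : R) * m (u : S)) * ((x⁻¹ : Rˣ) : R) =
        ((x⁻¹ : Rˣ) : R) * (m (u : S) * x) * ((x⁻¹ : Rˣ) : R) := by rw [xu]
    rw [← mul_assoc, xx', one_mul, mul_assoc, mul_assoc, xx, mul_one] at h
    exact h.symm
  -- `Y` and `Y'`
  obtain ⟨Y, hY⟩ : ∃ Y : R, Y = m ((u⁻¹ : Sˣ) : S) * x := ⟨_, rfl⟩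
  obtain ⟨Y', hY'⟩ : ∃ Y' : R, Y' = ((x⁻¹ : Rˣ) : R) * m (u : S) := ⟨_, rfl⟩
  have Ym : ∀ α, Y * m α = m α * Y := by
    intro α
    have h : ((u⁻¹ : Sˣ) : S) * ((u : S) * α * ((u⁻¹ : Sˣ) : S)) = α * ((u⁻¹ : Sˣ) : S) := by
      rw [← mul_assoc, ← mul_assoc, uu', one_mul]
    rw [hY, mul_assoc, hx α, ← mul_assoc, ← hmul, h, hmul, mul_assoc]
  have Y'Y : Y' * Y = m 1 := by
    rw [hY, hY', mul_assoc, ← mul_assoc (m (u : S)), ← hmul, uu, ← xE, ← mul_assoc, xx', one_mul]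
  have YY' : Y * Y' = m 1 := by
    rw [hY, hY', mul_assoc, ← mul_assoc (x : R), xx, one_mul, ← hmul, uu']
  have EY' : m 1 * Y' = Y' := by
    rw [hY', ← mul_assoc, ← xE', mul_assoc, E1]
  have Y'E : Y' * m 1 = Y' := by
    rw [hY', mul_assoc, E2]
  have EY : m 1 * Y = Y := by rw [hY, ← mul_assoc, E1]
  have YE : Y * m 1 = Y := by rw [Ym, EY]
  have Y'm : ∀ α, Y' * m α = m α * Y' := by
    intro α
    calc Y' * m α = Y' * (m α * (Y * Y')) := by rw [YY', E2]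
      _ = Y' * (m α * Y) * Y' := by simp only [mul_assoc]
      _ = Y' * (Y * m α) * Y' := by rw [Ym]
      _ = (Y' * Y) * m α * Y' := by simp only [mul_assoc]
      _ = m α * Y' := by rw [Y'Y, E1]
  -- the binomial relation
  have hN : (Y' - 1) ^ k * m 1 = 0 := by
    have h1 : Y' - m 1 = -(Y' * (Y - m 1)) := by
      rw [mul_sub, Y'Y, Y'E]
      abel
    have h2 : Commute Y' (Y - m 1) := by
      have : Y' * (Y - m 1) = (Y - m 1) * Y' := by
        rw [mul_sub, sub_mul, Y'Y, YY', Y'E, EY']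
      exact this
    have h3 : (Y' - m 1) ^ k = 0 := by
      rw [h1, neg_pow, h2.mul_pow, hY, hy, mul_zero, mul_zero]
    have h4 : Y' - m 1 = (Y' - 1) * m 1 := by rw [sub_mul, Y'E, one_mul]
    have h5 : Commute (Y' - 1) (m 1) := by
      have : (Y' - 1) * m 1 = m 1 * (Y' - 1) := by
        rw [sub_mul, mul_sub, Y'E, EY', one_mul, mul_one]
      exact this
    have h6 : (m 1) ^ k = m 1 := by
      obtain ⟨n, rfl⟩ : ∃ n, k = n + 1 := ⟨k - 1, by omega⟩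
      clear * - E1
      induction n with
      | zero => rw [zero_add, pow_one]
      | succ n ih => rw [pow_succ, ih, E1]
    rw [h4, h5.mul_pow, h6] at h3
    exact h3
  have hrel : (∑ j ∈ range k, ((FD.cf k j : ℤ) : R) * Y' ^ j) * m 1 = -(Y' ^ k * m 1) := by
    have h := hN
    rw [FD.Fd_binom, Finset.sum_range_succ, FD.Fd_cf_self, Int.cast_one, one_mul, add_mul] at h
    exact eq_neg_of_add_eq_zero_left h
  -- rewriting `γ`
  have hpow : ∀ j, ((x⁻¹ : Rˣ) : R) ^ j * m ((u : S) ^ j) = Y' ^ j * m 1 := by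
    intro j
    induction j with
    | zero => rw [pow_zero, pow_zero, pow_zero]
    | succ j ih =>
      have hc : ∀ j : ℕ, m (u : S) * ((x⁻¹ : Rˣ) : R) ^ j = ((x⁻¹ : Rˣ) : R) ^ j * m (u : S) := by
        intro j
        have : Commute ((x⁻¹ : Rˣ) : R) (m (u : S)) := xu'
        exact (this.pow_left j).eq.symm
      calc ((x⁻¹ : Rˣ) : R) ^ (j + 1) * m ((u : S) ^ (j + 1))
          = ((x⁻¹ : Rˣ) : R) * ((((x⁻¹ : Rˣ) : R) ^ j * m (u : S)) * m ((u : S) ^ j)) := by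
            rw [pow_succ' (u : S), hmul, pow_succ']
            simp only [mul_assoc]
        _ = ((x⁻¹ : Rˣ) : R) * ((m (u : S) * ((x⁻¹ : Rˣ) : R) ^ j) * m ((u : S) ^ j)) := by
            rw [hc]
        _ = Y' * (((x⁻¹ : Rˣ) : R) ^ j * m ((u : S) ^ j)) := by
            rw [hY']
            simp only [mul_assoc]
        _ = Y' ^ (j + 1) * m 1 := by rw [ih, pow_succ', mul_assoc]
  have hγ : ∑ j ∈ range k, ((x⁻¹ : Rˣ) : R) ^ j * m (D.ε j) =
      ∑ j ∈ range k, Y' ^ j * m (D.io j) := by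
    refine Finset.sum_congr rfl fun j _ => ?_
    rw [D.eq_mul_io j, hmul, ← mul_assoc, hpow, mul_assoc, E1]
  rw [hγ]
  have hYx : ∀ α, m α * (x : R) = Y * m (α * (u : S)) := by
    intro α
    calc m α * (x : R) = m α * (m 1 * x) := by rw [← mul_assoc, E2]
      _ = m α * (m (u : S) * (m ((u⁻¹ : Sˣ) : S) * x)) := by
          rw [← mul_assoc (m (u : S)), ← hmul, uu]
      _ = m (α * (u : S)) * Y := by rw [← hY, ← mul_assoc, ← hmul]
      _ = Y * m (α * (u : S)) := (Ym _).symm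
  rw [Finset.sum_mul]
  have h1 : ∀ j ∈ range k, Y' ^ j * m (D.io j) * (x : R) = Y' ^ j * (Y * m (D.io j * (u : S))) := by
    intro j _
    rw [mul_assoc, hYx]
  rw [Finset.sum_congr rfl h1]
  obtain ⟨n, rfl⟩ : ∃ n, k = n + 1 := ⟨k - 1, by omega⟩
  have hYs : ∀ j, Y' ^ (j + 1) * Y = Y' ^ j * m 1 := by
    intro j
    rw [pow_succ, mul_assoc, Y'Y]
  -- each term
  have h2 : ∀ j ∈ range (n + 1), Y' ^ j * (Y * m (D.io j * (u : S))) =
      (if 0 < j then Y' ^ (j - 1) * m (D.io (j - 1)) else 0) -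
        ((FD.cf (n + 1) j : ℤ) : R) * Y' ^ j * (Y * m (D.io n)) := by
    intro j hj
    rcases Nat.eq_zero_or_pos j with h0 | h0
    · subst h0
      rw [if_neg (lt_irrefl 0), zero_sub, D.io_mul_zero hk, Nat.add_sub_cancel, neg_mul, mneg, mzs,
        pow_zero, one_mul, mul_one, mul_neg, ← mul_assoc Y,
        ← (Int.cast_commute (FD.cf (n + 1) 0) Y).eq, mul_assoc]
    · obtain ⟨i, rfl⟩ : ∃ i, j = i + 1 := ⟨j - 1, by omega⟩
      have hi : i + 1 < n + 1 := mem_range.1 hj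
      rw [if_pos h0, Nat.add_sub_cancel, D.io_mul_succ hi, Nat.add_sub_cancel, msub, mzs, mul_sub,
        mul_sub, ← mul_assoc (Y' ^ (i + 1)), hYs, mul_assoc (Y' ^ i), E1]
      congr 1
      rw [← mul_assoc Y, ← (Int.cast_commute (FD.cf (n + 1) (i + 1)) Y).eq, mul_assoc,
        ← mul_assoc (Y' ^ (i + 1)), ← (Int.cast_commute (FD.cf (n + 1) (i + 1)) (Y' ^ (i + 1))).eq]
  rw [Finset.sum_congr rfl h2, Finset.sum_sub_distrib, ← Finset.sum_mul]
  have h3 : ∑ j ∈ range (n + 1), (if 0 < j then Y' ^ (j - 1) * m (D.io (j - 1)) else 0) =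
      ∑ j ∈ range n, Y' ^ j * m (D.io j) := by
    rw [Finset.sum_range_succ', if_neg (lt_irrefl 0), add_zero]
    refine Finset.sum_congr rfl fun j _ => ?_
    rw [if_pos (Nat.succ_pos j), Nat.add_sub_cancel]
  have h4 : (∑ j ∈ range (n + 1), ((FD.cf (n + 1) j : ℤ) : R) * Y' ^ j) * (Y * m (D.io n)) =
      -(Y' ^ n * m (D.io n)) := by
    calc (∑ j ∈ range (n + 1), ((FD.cf (n + 1) j : ℤ) : R) * Y' ^ j) * (Y * m (D.io n))
        = ((∑ j ∈ range (n + 1), ((FD.cf (n + 1) j : ℤ) : R) * Y' ^ j) * m 1) *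
          (Y * m (D.io n)) := by rw [mul_assoc _ (m 1), ← mul_assoc (m 1), EY]
      _ = -(Y' ^ n * m (D.io n)) := by
          rw [hrel, neg_mul, mul_assoc _ (m 1), ← mul_assoc (m 1), EY, ← mul_assoc, hYs, mul_assoc,
            E1]
  rw [h3, h4, sub_neg_eq_add, Finset.sum_range_succ]

/-- `(1 - x⁻¹^j) w'` is of the form `x w'' - w''`. -/
theorem Pur_tele {X : Type} [AddCommGroup X] (x : (AddMonoid.End X)ˣ) (M : AddSubgroup X)
    (hxM' : ∀ w ∈ M, ((x⁻¹ : (AddMonoid.End X)ˣ) : AddMonoid.End X) w ∈ M) {w : X} (hw : w ∈ M)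
    (j : ℕ) : (((x⁻¹ : (AddMonoid.End X)ˣ) : AddMonoid.End X) ^ j) w ∈ M ∧ ∃ w' ∈ M,
      w - (((x⁻¹ : (AddMonoid.End X)ˣ) : AddMonoid.End X) ^ j) w =
        (x : AddMonoid.End X) w' - w' := by
  have xx : ∀ v : X, (x : AddMonoid.End X) (((x⁻¹ : (AddMonoid.End X)ˣ) : AddMonoid.End X) v) = v := by
    intro v
    have h : (x : AddMonoid.End X) * ((x⁻¹ : (AddMonoid.End X)ˣ) : AddMonoid.End X) = 1 := by
      rw [← Units.val_mul, mul_inv_cancel, Units.val_one]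
    exact DFunLike.congr_fun h v
  induction j with
  | zero =>
    refine ⟨?_, 0, M.zero_mem, ?_⟩
    · rw [pow_zero]
      exact hw
    · rw [pow_zero, map_zero, sub_zero]
      exact sub_self w
  | succ j ih =>
    obtain ⟨h1, w', hw', h2⟩ := ih
    have h3 : (((x⁻¹ : (AddMonoid.End X)ˣ) : AddMonoid.End X) ^ (j + 1)) w =
        ((x⁻¹ : (AddMonoid.End X)ˣ) : AddMonoid.End X)
          ((((x⁻¹ : (AddMonoid.End X)ˣ) : AddMonoid.End X) ^ j) w) := by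
      rw [pow_succ']
      rfl
    have h4 : (((x⁻¹ : (AddMonoid.End X)ˣ) : AddMonoid.End X) ^ (j + 1)) w ∈ M := by
      rw [h3]
      exact hxM' _ h1
    refine ⟨h4, w' + (((x⁻¹ : (AddMonoid.End X)ˣ) : AddMonoid.End X) ^ (j + 1)) w,
      M.add_mem hw' h4, ?_⟩
    have h5 : (x : AddMonoid.End X) ((((x⁻¹ : (AddMonoid.End X)ˣ) : AddMonoid.End X) ^ (j + 1)) w) =
        (((x⁻¹ : (AddMonoid.End X)ˣ) : AddMonoid.End X) ^ j) w := by
      rw [h3, xx]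
    rw [map_add, h5]
    have h6 : (x : AddMonoid.End X) w' = w - (((x⁻¹ : (AddMonoid.End X)ˣ) : AddMonoid.End X) ^ j) w
        + w' := by
      rw [h2]
      abel
    rw [h6]
    abel

theorem purity {S X : Type} [Ring S] [AddCommGroup X] {u : Sˣ} {k : ℕ} (hk : 0 < k) (D : FD u k)
    (m : S → AddMonoid.End X) (hadd : ∀ α β, m (α + β) = m α + m β)
    (hmul : ∀ α β, m (α * β) = m α * m β) (x : (AddMonoid.End X)ˣ)
    (hx : ∀ α, (x : AddMonoid.End X) * m α = m ((u : S) * α * ((u⁻¹ : Sˣ) : S)) * x)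
    (hy : (m ((u⁻¹ : Sˣ) : S) * x - m 1) ^ k = 0) (M : AddSubgroup X)
    (hM : ∀ α, ∀ w ∈ M, m α w ∈ M) (hxM : ∀ w ∈ M, (x : AddMonoid.End X) w ∈ M)
    (hxM' : ∀ w ∈ M, ((x⁻¹ : (AddMonoid.End X)ˣ) : AddMonoid.End X) w ∈ M) {w : X} (hw : w ∈ M)
    (hw' : ∃ ξ, w = (x : AddMonoid.End X) ξ - ξ) :
    ∃ w' ∈ M, m 1 w = (x : AddMonoid.End X) w' - w' := by
  obtain ⟨ξ, hξ⟩ := hw'
  have hγ := Pur_gamma hk D m hadd hmul x hx hy
  have h0 : (∑ j ∈ range k, ((x⁻¹ : (AddMonoid.End X)ˣ) : AddMonoid.End X) ^ j * m (D.ε j)) w = 0 := by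
    have h := DFunLike.congr_fun hγ ξ
    rw [hξ, map_sub]
    exact sub_eq_zero.2 h
  have hsum : m 1 = ∑ j ∈ range k, m (D.ε j) := by
    have m0 : m 0 = 0 := by
      have h := hadd 0 0
      rw [add_zero] at h
      exact left_eq_add.1 h
    let mh : S →+ AddMonoid.End X := { toFun := m, map_zero' := m0, map_add' := hadd }
    have h := map_sum mh D.ε (range k)
    rw [D.sum] at h
    exact h
  let ev : AddMonoid.End X →+ X := { toFun := fun f => f w, map_zero' := rfl, map_add' := fun _ _ => rfl }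
  have h1 : m 1 w = ∑ j ∈ range k, (m (D.ε j) w -
      (((x⁻¹ : (AddMonoid.End X)ˣ) : AddMonoid.End X) ^ j) (m (D.ε j) w)) := by
    rw [Finset.sum_sub_distrib]
    have h2 : ∑ j ∈ range k, (((x⁻¹ : (AddMonoid.End X)ˣ) : AddMonoid.End X) ^ j) (m (D.ε j) w) =
        (∑ j ∈ range k, ((x⁻¹ : (AddMonoid.End X)ˣ) : AddMonoid.End X) ^ j * m (D.ε j)) w :=
      (map_sum ev (fun j => ((x⁻¹ : (AddMonoid.End X)ˣ) : AddMonoid.End X) ^ j * m (D.ε j))
        (range k)).symm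
    have h3 : ∑ j ∈ range k, m (D.ε j) w = (∑ j ∈ range k, m (D.ε j)) w :=
      (map_sum ev (fun j => m (D.ε j)) (range k)).symm
    rw [h2, h0, sub_zero, h3, ← hsum]
  have h2 : ∀ j, ∃ w' ∈ M, m (D.ε j) w -
      (((x⁻¹ : (AddMonoid.End X)ˣ) : AddMonoid.End X) ^ j) (m (D.ε j) w) =
        (x : AddMonoid.End X) w' - w' :=
    fun j => (Pur_tele x M hxM' (hM (D.ε j) w hw) j).2
  choose w' hw' hw'' using h2
  refine ⟨∑ j ∈ range k, w' j, M.sum_mem fun j _ => hw' j, ?_⟩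
  rw [h1, map_sum, ← Finset.sum_sub_distrib]
  exact Finset.sum_congr rfl fun j _ => hw'' j

end Pool.Agent.Lib.MP_b9166b_al.Pt
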