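import Mathlib

/-!
# MP_b9166b_al, PT: the order of `y` (7.4)

`ypow`. `m` is additive and multiplicative (not unital), `E = m 1`. `y = m u⁻¹ * x`. It commutes with all `m α`:
`y * m α = m u⁻¹ * m (u α u⁻¹) * x = m α * m u⁻¹ * x`; `y E = E y = y`. `x * m (u^i) = m (u^i) * x`, so `y^n = m (u⁻¹^n) * x^n` for `n ≥ 1`, and
`x^n E = m (u^n) y^n`. For `n = p^j` large `u^n = 1` (`(u - 1)^n = u^n - 1` as `p = 0` in `S`) and `x^n E = E`, so `y^n = E`.
Let `η = m (u^(p^b) - 1)`, `ν = y^(p^b) - E`; they commute. `η^a = m ((u - 1)^k) = 0`, `k = p^b * a`.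
`0 = (x - 1)^k E = (x^(p^b) - 1)^a E = ((E + η) (E + ν) - E)^a = (η + ν + η ν)^a`. `ν` is nilpotent (`ν^(p^j) = y^(p^(b+j)) - E`). Suppose `ν ≠ 0`, let
`ν^s ≠ 0 = ν^(s+1)`, `s ≥ 1`. Multiply with `ν^(s-1)`: `0 = ν^(s-1) η^a + a ν^s η^(a-1) (E + η) = a ν^s η^(a-1)`. As `p` does not divide `a`:
`ν^s η^(a-1) = 0`. `(u^(p^b) - 1)^(a-1) = (u - 1)^(p^b (a-1)) ≠ 0` by `hu` (`p^b (a-1) ≤ k - 1`). By `hS` there are `β, β'` with
`∑ β (u^(p^b)-1)^(a-1) β' = 1`, and `ν` commutes with `m β`, `m β'`: `ν^s = ν^s E = 0` (for `a = 1` read `η^0 = E`). Contradiction. So `ν = 0`.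
-/

set_option autoImplicit false

namespace Pool.Agent.Lib.MP_b9166b_al.Pt

/-- The expansion modulo the square of `ν`, in a commutative ring. -/
private theorem yp_exp {C : Type} [CommRing C] (η ν : C) (t n : ℕ) (h : ν ^ (t + 2) = 0) :
    ν ^ t * (η + ν + η * ν) ^ (n + 1) =
      ν ^ t * η ^ (n + 1) + (n + 1 : ℕ) * (ν ^ (t + 1) * η ^ n * (1 + η)) := by
  induction n with
  | zero =>
    push_cast
    ring
  | succ n ih =>
    have h1 : ν ^ t * (η + ν + η * ν) ^ (n + 1 + 1) =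
        (ν ^ t * (η + ν + η * ν) ^ (n + 1)) * (η + ν + η * ν) := by ring
    rw [h1, ih]
    push_cast
    have h2 : (ν ^ t * η ^ (n + 1) + ((n : C) + 1) * (ν ^ (t + 1) * η ^ n * (1 + η))) *
        (η + ν + η * ν) = ν ^ t * η ^ (n + 1 + 1) +
          ((n : C) + 1 + 1) * (ν ^ (t + 1) * η ^ (n + 1) * (1 + η)) +
          ((n : C) + 1) * η ^ n * (1 + η) * (1 + η) * ν ^ (t + 2) := by ring
    rw [h2, h, mul_zero, add_zero]

/-- The unital case. -/
private theorem yp_one {S R : Type} [Ring S] [Ring R] {p : ℕ} (hp : p.Prime) (hpR : (p : R) = 0)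
    (hpS : (p : S) = 0)
    (hS : ∀ α : S, α ≠ 0 → ∃ (n : ℕ) (β β' : Fin n → S), ∑ s, β s * α * β' s = 1)
    (m : S →+* R) (u : Sˣ) (x : R)
    (hx : ∀ α, x * m α = m ((u : S) * α * ((u⁻¹ : Sˣ) : S)) * x) {a b : ℕ}
    (ha : ¬ p ∣ a) (hu : ((u : S) - 1) ^ (p ^ b * a - 1) ≠ 0)
    (huk : ((u : S) - 1) ^ (p ^ b * a) = 0) (hxk : (x - 1) ^ (p ^ b * a) = 0) :
    (m ((u⁻¹ : Sˣ) : S) * x) ^ p ^ b = 1 := by
  have hfp : Fact p.Prime := ⟨hp⟩
  have hnS : Nontrivial S := ⟨⟨_, _, hu⟩⟩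
  rcases subsingleton_or_nontrivial R with hR | hnR
  · exact Subsingleton.elim _ _
  have hcS : CharP S p := (CharP.charP_iff_prime_eq_zero hp).2 hpS
  have hcR : CharP R p := (CharP.charP_iff_prime_eq_zero hp).2 hpR
  have ha0 : a ≠ 0 := by
    rintro rfl
    exact ha (dvd_zero p)
  set y : R := m ((u⁻¹ : Sˣ) : S) * x with hy
  have hym : ∀ α, Commute y (m α) := by
    intro α
    change y * m α = m α * y
    rw [hy, mul_assoc, hx, ← mul_assoc, ← mul_assoc, ← map_mul, ← map_mul]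
    congr 2
    rw [← mul_assoc, ← mul_assoc, Units.inv_mul, one_mul]
  have hxy : x = m u * y := by
    rw [hy, ← mul_assoc, ← map_mul, Units.mul_inv, map_one, one_mul]
  have hxpow : ∀ n : ℕ, x ^ n = m ((u : S) ^ n) * y ^ n := by
    intro n
    rw [hxy, ((hym (u : S)).symm).mul_pow, map_pow]
  have hun : ∀ n : ℕ, ((u : S) - 1) ^ p ^ n = (u : S) ^ p ^ n - 1 := by
    intro n
    rw [sub_pow_char_pow_of_commute _ _ (Commute.one_right _), one_pow]
  have hxn : ∀ n : ℕ, (x - 1) ^ p ^ n = x ^ p ^ n - 1 := by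
    intro n
    rw [sub_pow_char_pow_of_commute _ _ (Commute.one_right _), one_pow]
  -- a large power
  obtain ⟨N, hN⟩ : ∃ N : ℕ, p ^ b * a ≤ p ^ N := ⟨p ^ b * a, (Nat.lt_pow_self hp.one_lt).le⟩
  have huN : (u : S) ^ p ^ N = 1 := by
    have h1 := hun N
    rw [← Nat.sub_add_cancel hN, pow_add, huk, mul_zero, Nat.sub_add_cancel hN] at h1
    exact (sub_eq_zero.1 h1.symm)
  have hxN : x ^ p ^ N = 1 := by
    have h1 := hxn N
    rw [← Nat.sub_add_cancel hN, pow_add, hxk, mul_zero, Nat.sub_add_cancel hN] at h1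
    exact (sub_eq_zero.1 h1.symm)
  have hyN : y ^ p ^ N = 1 := by
    have h1 := hxpow (p ^ N)
    rw [huN, map_one, one_mul, hxN] at h1
    exact h1.symm
  -- the two elements
  set η : R := m ((u : S) ^ p ^ b - 1) with hη
  set ν : R := y ^ p ^ b - 1 with hν
  have hcomm : Commute η ν := by
    have h1 : Commute (m ((u : S) ^ p ^ b - 1)) (y ^ p ^ b) :=
      ((hym ((u : S) ^ p ^ b - 1)).symm).pow_right _
    exact h1.sub_right (Commute.one_right _)
  have hηa : η ^ a = 0 := by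
    rw [hη, ← map_pow, ← hun, ← pow_mul, huk, map_zero]
  have hνN : ν ^ p ^ N = 0 := by
    rw [hν, sub_pow_char_pow_of_commute _ _ (Commute.one_right _), one_pow, ← pow_mul, mul_comm,
      pow_mul, hyN, one_pow, sub_self]
  have hw : (η + ν + η * ν) ^ a = 0 := by
    have h1 : η + ν + η * ν = x ^ p ^ b - 1 := by
      rw [hxpow, hη, hν, map_sub, map_one]
      noncomm_ring
    rw [h1, ← hxn, ← pow_mul, hxk]
  -- the contradiction
  by_contra hne
  have hν0 : ν ≠ 0 := fun h0 => hne (sub_eq_zero.1 h0)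
  classical
  have hex : ∃ s : ℕ, ν ^ s = 0 := ⟨_, hνN⟩
  obtain ⟨s, hs, hs'⟩ : ∃ s : ℕ, ν ^ s = 0 ∧ ∀ t, t < s → ν ^ t ≠ 0 :=
    ⟨Nat.find hex, Nat.find_spec hex, fun t ht => Nat.find_min hex ht⟩
  obtain ⟨t, rfl⟩ : ∃ t, s = t + 2 := by
    match s, hs with
    | 0, hs => exact absurd (pow_zero ν ▸ hs) one_ne_zero
    | 1, hs => exact absurd (pow_one ν ▸ hs) hν0
    | t + 2, _ => exact ⟨t, rfl⟩
  obtain ⟨n, rfl⟩ : ∃ n, a = n + 1 := Nat.exists_eq_succ_of_ne_zero ha0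
  have hkey : ((n + 1 : ℕ) : R) * (ν ^ (t + 1) * η ^ n) = 0 := by
    have hc : ∀ c ∈ ({η, ν} : Set R), ∀ d ∈ ({η, ν} : Set R), c * d = d * c := by
      rintro c (rfl | rfl) d (rfl | rfl)
      · rfl
      · exact hcomm
      · exact hcomm.symm
      · rfl
    let _ : CommRing (Subring.closure ({η, ν} : Set R)) := Subring.closureCommRingOfComm hc
    have h1 : η ∈ Subring.closure ({η, ν} : Set R) := Subring.subset_closure (Or.inl rfl)
    have h2 : ν ∈ Subring.closure ({η, ν} : Set R) := Subring.subset_closure (Or.inr rfl)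
    have h3 := yp_exp (⟨η, h1⟩ : Subring.closure ({η, ν} : Set R)) ⟨ν, h2⟩ t n
      (Subtype.ext hs)
    have h4 := congrArg Subtype.val h3
    have h5 : ν ^ t * (η + ν + η * ν) ^ (n + 1) =
        ν ^ t * η ^ (n + 1) + (n + 1 : ℕ) * (ν ^ (t + 1) * η ^ n * (1 + η)) := h4
    rw [hw, hηa, mul_zero, zero_add] at h5
    have h6 : ν ^ (t + 1) * η ^ n * (1 + η) = ν ^ (t + 1) * η ^ n := by
      rw [mul_add, mul_one, mul_assoc, ← pow_succ, hηa, mul_zero, add_zero]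
    rw [h6] at h5
    exact h5.symm
  have hkey2 : ν ^ (t + 1) * η ^ n = 0 := by
    have hcop : (n + 1).Coprime p := ((Nat.Prime.coprime_iff_not_dvd hp).2 ha).symm
    obtain ⟨c, d, hcd⟩ := Nat.isCoprime_iff_coprime.2 hcop
    have h1 : ((c * ((n + 1 : ℕ) : ℤ) + d * (p : ℤ) : ℤ) : R) = 1 := by
      rw [hcd, Int.cast_one]
    rw [Int.cast_add, Int.cast_mul, Int.cast_mul, Int.cast_natCast, Int.cast_natCast, hpR,
      mul_zero, add_zero] at h1
    rw [← one_mul (ν ^ (t + 1) * η ^ n), ← h1, mul_assoc, hkey, mul_zero]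
  have hα : ((u : S) ^ p ^ b - 1) ^ n ≠ 0 := by
    rw [← hun, ← pow_mul]
    intro h0
    apply hu
    have h1 : p ^ b * (n + 1) - 1 = p ^ b * n + (p ^ b - 1) := by
      have h2 : 0 < p ^ b := Nat.pow_pos hp.pos
      rw [Nat.mul_succ]
      omega
    rw [h1, pow_add, h0, zero_mul]
  obtain ⟨r, β, β', hβ⟩ := hS _ hα
  have hνβ : ∀ γ : S, ν ^ (t + 1) * m γ = m γ * ν ^ (t + 1) := by
    intro γ
    have h1 : Commute (y ^ p ^ b) (m γ) := (hym γ).pow_left _
    have h2 : Commute ν (m γ) := h1.sub_left (Commute.one_left _)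
    exact h2.pow_left _
  apply hs' (t + 1) (Nat.lt_succ_self _)
  calc ν ^ (t + 1) = ν ^ (t + 1) * m 1 := by rw [map_one, mul_one]
    _ = ∑ i, ν ^ (t + 1) * m (β i * ((u : S) ^ p ^ b - 1) ^ n * β' i) := by
      have h9 : ν ^ (t + 1) * m (∑ i, β i * ((u : S) ^ p ^ b - 1) ^ n * β' i) =
          ν ^ (t + 1) * m 1 := by rw [hβ]
      rw [map_sum, Finset.mul_sum] at h9
      exact h9.symm
    _ = ∑ i : Fin r, (0 : R) := by
      refine Finset.sum_congr rfl fun i _ => ?_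
      rw [map_mul, map_mul, map_pow, ← hη, ← mul_assoc, ← mul_assoc, hνβ, mul_assoc (m (β i)),
        hkey2, mul_zero, zero_mul]
    _ = 0 := Finset.sum_const_zero

theorem ypow {S R : Type} [Ring S] [Ring R] {p : ℕ} (hp : p.Prime) (hpR : (p : R) = 0)
    (hpS : (p : S) = 0)
    (hS : ∀ α : S, α ≠ 0 → ∃ (n : ℕ) (β β' : Fin n → S), ∑ s, β s * α * β' s = 1)
    (m : S → R) (hadd : ∀ α β, m (α + β) = m α + m β) (hmul : ∀ α β, m (α * β) = m α * m β)
    (u : Sˣ) (x : Rˣ)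
    (hx : ∀ α, (x : R) * m α = m ((u : S) * α * ((u⁻¹ : Sˣ) : S)) * x) {a b : ℕ}
    (ha : ¬ p ∣ a) (hu : ((u : S) - 1) ^ (p ^ b * a - 1) ≠ 0)
    (huk : ((u : S) - 1) ^ (p ^ b * a) = 0) (hxk : ((x : R) - 1) ^ (p ^ b * a) * m 1 = 0) :
    (m ((u⁻¹ : Sˣ) : S) * (x : R)) ^ p ^ b = m 1 := by
  classical
  have hE : IsIdempotentElem (m 1) := by
    change m 1 * m 1 = m 1
    rw [← hmul, mul_one]
  have hE1 : ∀ α, m 1 * m α = m α := fun α => by rw [← hmul, one_mul]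
  have hE2 : ∀ α, m α * m 1 = m α := fun α => by rw [← hmul, mul_one]
  have hxE : (x : R) * m 1 = m 1 * x := by
    rw [hx, mul_one, Units.mul_inv]
  have hm0 : m 0 = 0 := by
    have h1 := hadd 0 0
    rw [add_zero] at h1
    exact left_eq_add.1 h1
  have hmem : ∀ r : R, r ∈ Subsemigroup.corner (m 1) ↔ m 1 * r = r ∧ r * m 1 = r := fun r =>
    Subsemigroup.mem_corner_iff hE
  let v : hE.Corner →+ R :=
    { toFun := fun c => c.1
      map_zero' := rfl
      map_add' := fun _ _ => rfl }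
  have hvinj : Function.Injective v := fun c d h => Subtype.ext h
  have hvmul : ∀ c d : hE.Corner, v (c * d) = v c * v d := fun _ _ => rfl
  have hvone : v 1 = m 1 := rfl
  have hvpow : ∀ (c : hE.Corner) (n : ℕ), v (c ^ (n + 1)) = v c ^ (n + 1) := by
    intro c n
    induction n with
    | zero => rw [zero_add, pow_one, pow_one]
    | succ n ih => rw [pow_succ, hvmul, ih, pow_succ (v c) (n + 1)]
  let mC : S →+* hE.Corner :=
    { toFun := fun α => ⟨m α, (hmem _).2 ⟨hE1 α, hE2 α⟩⟩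
      map_one' := rfl
      map_mul' := fun α β => Subtype.ext (hmul α β)
      map_zero' := Subtype.ext hm0
      map_add' := fun α β => Subtype.ext (hadd α β) }
  have hvm : ∀ α, v (mC α) = m α := fun _ => rfl
  let xC : hE.Corner := ⟨(x : R) * m 1, (hmem _).2 ⟨by
    rw [← mul_assoc, ← hxE, mul_assoc, hE.eq], by rw [mul_assoc, hE.eq]⟩⟩
  have hvx : v xC = (x : R) * m 1 := rfl
  have hpC : ((p : ℕ) : hE.Corner) = 0 := by
    apply hvinj
    rw [← nsmul_one, map_nsmul, hvone, nsmul_eq_mul, hpR, zero_mul, map_zero]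
  have hxC : ∀ α, xC * mC α = mC ((u : S) * α * ((u⁻¹ : Sˣ) : S)) * xC := by
    intro α
    apply hvinj
    rw [hvmul, hvmul, hvm, hvm, hvx, mul_assoc, hE1, hx, hxE, ← mul_assoc, hE2]
  have hsub : ∀ n : ℕ, v ((xC - 1) ^ n) = ((x : R) - 1) ^ n * m 1 := by
    intro n
    induction n with
    | zero => rw [pow_zero, pow_zero, one_mul, hvone]
    | succ n ih =>
      rw [pow_succ, hvmul, ih, map_sub, hvone, hvx, pow_succ, mul_assoc, mul_assoc, mul_sub,
        sub_mul, hE.eq, one_mul, ← mul_assoc (m 1), ← hxE, mul_assoc, hE.eq]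
  have hxkC : (xC - 1) ^ (p ^ b * a) = 0 := by
    apply hvinj
    rw [hsub, hxk, map_zero]
  have hmain := yp_one hp hpC hpS hS mC u xC hxC ha hu huk hxkC
  have h1 := congrArg v hmain
  obtain ⟨n, hn⟩ : ∃ n, p ^ b = n + 1 := Nat.exists_eq_succ_of_ne_zero (pow_pos hp.pos b).ne'
  rw [hn, hvpow, hvmul, hvm, hvx, hvone, hxE, ← mul_assoc, hE2] at h1
  rw [hn]
  exact h1

end Pool.Agent.Lib.MP_b9166b_al.Pt
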