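import Pool.Agent.Lib.MP_b9166b_al.Pt.Pur
import Pool.Agent.Lib.MP_b9166b_al.Pt.Yp

/-!
# MP_b9166b_al, PT: purity for operators (7.4)

`m` a homomorphism, `n` an antihomomorphism, both killed by the idempotent `e'` on both sides. `purity` for the ring `AddMonoid.End R`,
`mX α ξ = m α * ξ * e' + e' * ξ * n α` (additive and multiplicative in `α`), and `X = Ad x`: `ξ ↦ x * ξ * x⁻¹`. `hx` of `purity`: `x` commutes with `e'`.
`hy`: write `k = p^b * a` with `a` prime to `p` (`k ≠ 0`). `Y = mX u⁻¹ * X`: `Y ξ = y * ξ * (x⁻¹ * e') + (e' * x) * ξ * z` with `y = m u⁻¹ * x`,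
`z = x⁻¹ * n u⁻¹`. `ypow` for `m`: `y^(p^b) = m 1`. `ypow` for `n` (as a homomorphism from `Sᵐᵒᵖ`, unit `op u⁻¹`, see `hS'`): `(n u * x)^(p^b) = n 1`; and
`n u * x * z = n 1 = z * n u * x`, so `z^(p^b) = n 1`. So `Y^(p^b) ξ = m 1 * ξ * x⁻¹^(p^b) * e' + e' * x^(p^b) * ξ * n 1`. `E = mX 1` is an idempotent,
`Y E = E Y = Y`, and `(Y - E)^k = (Y^(p^b) - E)^a` (`p = 0` in `AddMonoid.End R`); `(Y^(p^b) - E)^a ξ = m 1 * ξ * (x⁻¹^(p^b) - 1)^a * e' +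
e' * (x^(p^b) - 1)^a * ξ * n 1 = 0` as `(x^(p^b) - 1)^a = (x - 1)^k = 0`.
-/

set_option autoImplicit false

namespace Pool.Agent.Lib.MP_b9166b_al.Pt

/-- `ξ ↦ a ξ b` -/
def purXlr {R : Type} [Ring R] (a b : R) : AddMonoid.End R where
  toFun ξ := a * ξ * b
  map_zero' := by rw [mul_zero, zero_mul]
  map_add' ξ η := by rw [mul_add, add_mul]

section

variable {R : Type} [Ring R]

theorem purXlr_apply (a b ξ : R) : purXlr a b ξ = a * ξ * b := rfl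

theorem purXlr_mul (a b c d : R) : purXlr a b * purXlr c d = purXlr (a * c) (d * b) := by
  refine DFunLike.ext _ _ fun ξ => ?_
  change a * (c * ξ * d) * b = a * c * ξ * (d * b)
  simp only [mul_assoc]

theorem purXlr_zero_left (b : R) : purXlr 0 b = 0 := by
  refine DFunLike.ext _ _ fun ξ => ?_
  change 0 * ξ * b = 0
  rw [zero_mul, zero_mul]

theorem purXlr_zero_right (a : R) : purXlr a 0 = 0 := by
  refine DFunLike.ext _ _ fun ξ => ?_
  change a * ξ * 0 = 0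
  rw [mul_zero]

theorem purXlr_one : purXlr (1 : R) 1 = 1 := by
  refine DFunLike.ext _ _ fun ξ => ?_
  change 1 * ξ * 1 = ξ
  rw [one_mul, mul_one]

theorem purXlr_sub_left (a a' b : R) : purXlr (a - a') b = purXlr a b - purXlr a' b := by
  refine DFunLike.ext _ _ fun ξ => ?_
  change (a - a') * ξ * b = a * ξ * b - a' * ξ * b
  rw [sub_mul, sub_mul]

theorem purXlr_sub_right (a b b' : R) : purXlr a (b - b') = purXlr a b - purXlr a b' := by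
  refine DFunLike.ext _ _ fun ξ => ?_
  change a * ξ * (b - b') = a * ξ * b - a * ξ * b'
  rw [mul_sub]

theorem purXlr_add_left (a a' b : R) : purXlr (a + a') b = purXlr a b + purXlr a' b := by
  refine DFunLike.ext _ _ fun ξ => ?_
  change (a + a') * ξ * b = a * ξ * b + a' * ξ * b
  rw [add_mul, add_mul]

theorem purXlr_add_right (a b b' : R) : purXlr a (b + b') = purXlr a b + purXlr a b' := by
  refine DFunLike.ext _ _ fun ξ => ?_
  change a * ξ * (b + b') = a * ξ * b + a * ξ * b'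
  rw [mul_add]

theorem purXlr_pow (a b : R) (n : ℕ) : purXlr a b ^ n = purXlr (a ^ n) (b ^ n) := by
  induction n with
  | zero => rw [pow_zero, pow_zero, pow_zero, purXlr_one]
  | succ n ih => rw [pow_succ, ih, purXlr_mul, pow_succ a, pow_succ' b]

/-- powers of sums of orthogonal elements -/
theorem purX_orth {P Q : R} (h1 : P * Q = 0) (h2 : Q * P = 0) (n : ℕ) :
    (P + Q) ^ (n + 1) = P ^ (n + 1) + Q ^ (n + 1) := by
  induction n with
  | zero => rw [zero_add, pow_one, pow_one, pow_one]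
  | succ n ih =>
    have h3 : P ^ (n + 1) * Q = 0 := by rw [pow_succ, mul_assoc, h1, mul_zero]
    have h4 : Q ^ (n + 1) * P = 0 := by rw [pow_succ, mul_assoc, h2, mul_zero]
    rw [pow_succ, ih, add_mul, mul_add, mul_add, h3, h4, add_zero, zero_add, ← pow_succ,
      ← pow_succ]

theorem purX_sub_pow {p : ℕ} (hp : p.Prime) (hpR : (p : R) = 0) {y e : R} (h : Commute y e)
    (b : ℕ) : (y - e) ^ p ^ b = y ^ p ^ b - e ^ p ^ b := by
  rcases subsingleton_or_nontrivial R with hR | hR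
  · exact Subsingleton.elim _ _
  · have : Fact p.Prime := ⟨hp⟩
    have : CharP R p := (CharP.charP_iff_prime_eq_zero hp).2 hpR
    exact sub_pow_char_pow_of_commute p b h

/-- the inverse of a unipotent unit -/
theorem purX_inv (u : Rˣ) (n : ℕ) : (((u⁻¹ : Rˣ) : R) - 1) ^ n =
    (-1) ^ n * (((u⁻¹ : Rˣ) : R) ^ n * ((u : R) - 1) ^ n) := by
  have uu' : ((u⁻¹ : Rˣ) : R) * (u : R) = 1 := by
    rw [← Units.val_mul, inv_mul_cancel, Units.val_one]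
  have uu : (u : R) * ((u⁻¹ : Rˣ) : R) = 1 := by
    rw [← Units.val_mul, mul_inv_cancel, Units.val_one]
  have h1 : ((u⁻¹ : Rˣ) : R) - 1 = -(((u⁻¹ : Rˣ) : R) * ((u : R) - 1)) := by
    rw [mul_sub, uu', mul_one, neg_sub]
  have h2 : Commute ((u⁻¹ : Rˣ) : R) ((u : R) - 1) := by
    have : ((u⁻¹ : Rˣ) : R) * ((u : R) - 1) = ((u : R) - 1) * ((u⁻¹ : Rˣ) : R) := by
      rw [mul_sub, sub_mul, uu, uu', mul_one, one_mul]
    exact this
  rw [h1, neg_pow, h2.mul_pow]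

theorem purX_inv_zero (u : Rˣ) {n : ℕ} (h : ((u : R) - 1) ^ n = 0) :
    (((u⁻¹ : Rˣ) : R) - 1) ^ n = 0 := by
  rw [purX_inv, h, mul_zero, mul_zero]

theorem purX_inv_ne (u : Rˣ) {n : ℕ} (h : ((u : R) - 1) ^ n ≠ 0) :
    (((u⁻¹ : Rˣ) : R) - 1) ^ n ≠ 0 := by
  intro h1
  apply h
  have h2 := purX_inv_zero u⁻¹ h1
  rw [inv_inv] at h2
  exact h2

/-- an idempotent commuting with `c` -/
theorem purX_pow_idem {c e : R} (he : e * e = e) (hc : Commute c e) (n : ℕ) :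
    (c * e) ^ (n + 1) = c ^ (n + 1) * e := by
  rw [hc.mul_pow]
  congr 1
  induction n with
  | zero => rw [zero_add, pow_one]
  | succ n ih => rw [pow_succ, ih, he]

end

/-- `ypow` for antihomomorphisms -/
theorem purX_yop {S R : Type} [Ring S] [Ring R] {p : ℕ} (hp : p.Prime) (hpR : (p : R) = 0)
    (hpS : (p : S) = 0)
    (hS : ∀ α : S, α ≠ 0 → ∃ (n : ℕ) (β β' : Fin n → S), ∑ s, β s * α * β' s = 1) (n : S → R)
    (hna : ∀ α β, n (α + β) = n α + n β) (hnn : ∀ α β, n (α * β) = n β * n α) (u : Sˣ) (x : Rˣ)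
    (hxn : ∀ α, (x : R) * n α = n ((u : S) * α * ((u⁻¹ : Sˣ) : S)) * x) {a b : ℕ}
    (ha : ¬ p ∣ a) (hu : ((u : S) - 1) ^ (p ^ b * a - 1) ≠ 0)
    (huk : ((u : S) - 1) ^ (p ^ b * a) = 0) (hxk : ((x : R) - 1) ^ (p ^ b * a) = 0) :
    (((x⁻¹ : Rˣ) : R) * n ((u⁻¹ : Sˣ) : S)) ^ p ^ b = n 1 := by
  have uu : (u : S) * ((u⁻¹ : Sˣ) : S) = 1 := by
    rw [← Units.val_mul, mul_inv_cancel, Units.val_one]
  have uu' : ((u⁻¹ : Sˣ) : S) * (u : S) = 1 := by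
    rw [← Units.val_mul, inv_mul_cancel, Units.val_one]
  have xx : (x : R) * ((x⁻¹ : Rˣ) : R) = 1 := by
    rw [← Units.val_mul, mul_inv_cancel, Units.val_one]
  have xx' : ((x⁻¹ : Rˣ) : R) * (x : R) = 1 := by
    rw [← Units.val_mul, inv_mul_cancel, Units.val_one]
  have hw : (n (u : S) * (x : R)) ^ p ^ b = n 1 := by
    let v : (Sᵐᵒᵖ)ˣ := ⟨MulOpposite.op ((u⁻¹ : Sˣ) : S), MulOpposite.op (u : S),
      by rw [← MulOpposite.op_mul, uu]; rfl, by rw [← MulOpposite.op_mul, uu']; rfl⟩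
    have hv : (v : Sᵐᵒᵖ) = MulOpposite.op ((u⁻¹ : Sˣ) : S) := rfl
    have hv' : ((v⁻¹ : (Sᵐᵒᵖ)ˣ) : Sᵐᵒᵖ) = MulOpposite.op (u : S) := rfl
    have hsub : ∀ j : ℕ, ((v : Sᵐᵒᵖ) - 1) ^ j =
        MulOpposite.op ((((u⁻¹ : Sˣ) : S) - 1) ^ j) := by
      intro j
      rw [hv, MulOpposite.op_pow, MulOpposite.op_sub, MulOpposite.op_one]
    have h := ypow (S := Sᵐᵒᵖ) (R := R) hp hpR (by
        rw [← MulOpposite.op_natCast, hpS, MulOpposite.op_zero]) ?_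
      (fun α => n (MulOpposite.unop α)) ?_ ?_ v x ?_ (a := a) (b := b) ha ?_ ?_ ?_
    · have h1 : MulOpposite.unop ((v⁻¹ : (Sᵐᵒᵖ)ˣ) : Sᵐᵒᵖ) = (u : S) := rfl
      have h2 : MulOpposite.unop (1 : Sᵐᵒᵖ) = 1 := rfl
      change (n (MulOpposite.unop ((v⁻¹ : (Sᵐᵒᵖ)ˣ) : Sᵐᵒᵖ)) * (x : R)) ^ p ^ b =
        n (MulOpposite.unop (1 : Sᵐᵒᵖ)) at h
      rw [h1, h2] at h
      exact h
    · intro α hα
      obtain ⟨N, β, β', hβ⟩ := hS (MulOpposite.unop α) (by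
        intro h0
        apply hα
        rw [← MulOpposite.op_unop α, h0, MulOpposite.op_zero])
      refine ⟨N, fun s => MulOpposite.op (β' s), fun s => MulOpposite.op (β s), ?_⟩
      have h1 := congrArg MulOpposite.op hβ
      rw [MulOpposite.op_one, Finset.op_sum] at h1
      rw [← h1]
      refine Finset.sum_congr rfl fun s _ => ?_
      rw [MulOpposite.op_mul, MulOpposite.op_mul, MulOpposite.op_unop, mul_assoc]
    · intro α β
      exact hna _ _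
    · intro α β
      exact hnn _ _
    · intro α
      change (x : R) * n (MulOpposite.unop α) = n (MulOpposite.unop ((v : Sᵐᵒᵖ) * α *
        ((v⁻¹ : (Sᵐᵒᵖ)ˣ) : Sᵐᵒᵖ))) * x
      rw [hxn, MulOpposite.unop_mul, MulOpposite.unop_mul, hv, hv', MulOpposite.unop_op,
        MulOpposite.unop_op, mul_assoc]
    · rw [hsub]
      intro h0
      exact purX_inv_ne u hu (MulOpposite.op_injective (h0.trans MulOpposite.op_zero.symm))
    · rw [hsub, purX_inv_zero u huk, MulOpposite.op_zero]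
    · rw [hxk, zero_mul]
  have x1 : (x : R) * n 1 = n 1 * x := by
    have h := hxn 1
    rw [mul_one, uu] at h
    exact h
  have x1' : ((x⁻¹ : Rˣ) : R) * n 1 = n 1 * ((x⁻¹ : Rˣ) : R) := by
    have h : ((x⁻¹ : Rˣ) : R) * ((x : R) * n 1) * ((x⁻¹ : Rˣ) : R) =
        ((x⁻¹ : Rˣ) : R) * (n 1 * x) * ((x⁻¹ : Rˣ) : R) := by rw [x1]
    rw [← mul_assoc, xx', one_mul, mul_assoc, mul_assoc, xx, mul_one] at h
    exact h.symm
  have hwz : (n (u : S) * (x : R)) * (((x⁻¹ : Rˣ) : R) * n ((u⁻¹ : Sˣ) : S)) = n 1 := by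
    rw [mul_assoc, ← mul_assoc (x : R), xx, one_mul, ← hnn, uu']
  have hzw : (((x⁻¹ : Rˣ) : R) * n ((u⁻¹ : Sˣ) : S)) * (n (u : S) * (x : R)) = n 1 := by
    rw [mul_assoc, ← mul_assoc (n ((u⁻¹ : Sˣ) : S)), ← hnn, uu, ← x1, ← mul_assoc, xx', one_mul]
  have hid : n 1 * n 1 = n 1 := by rw [← hnn, mul_one]
  have hpow1 : ∀ j : ℕ, (n 1) ^ (j + 1) = n 1 := by
    intro j
    induction j with
    | zero => rw [zero_add, pow_one]
    | succ j ih => rw [pow_succ, ih, hid]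
  obtain ⟨q, hq⟩ : ∃ q, p ^ b = q + 1 := ⟨p ^ b - 1, by have := Nat.pow_pos hp.pos (n := b); omega⟩
  have hez : n 1 * (((x⁻¹ : Rˣ) : R) * n ((u⁻¹ : Sˣ) : S)) ^ p ^ b =
      (((x⁻¹ : Rˣ) : R) * n ((u⁻¹ : Sˣ) : S)) ^ p ^ b := by
    rw [hq, pow_succ', ← mul_assoc, ← mul_assoc, ← x1', mul_assoc (((x⁻¹ : Rˣ) : R)) (n 1), ← hnn,
      mul_one]
  have hcomm : Commute (n (u : S) * (x : R)) (((x⁻¹ : Rˣ) : R) * n ((u⁻¹ : Sˣ) : S)) := by
    have : (n (u : S) * (x : R)) * (((x⁻¹ : Rˣ) : R) * n ((u⁻¹ : Sˣ) : S)) =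
      (((x⁻¹ : Rˣ) : R) * n ((u⁻¹ : Sˣ) : S)) * (n (u : S) * (x : R)) := by rw [hwz, hzw]
    exact this
  calc (((x⁻¹ : Rˣ) : R) * n ((u⁻¹ : Sˣ) : S)) ^ p ^ b
      = (n (u : S) * (x : R)) ^ p ^ b * (((x⁻¹ : Rˣ) : R) * n ((u⁻¹ : Sˣ) : S)) ^ p ^ b := by
        rw [hw, hez]
    _ = n 1 := by rw [← hcomm.mul_pow, hwz, hq, hpow1]

theorem purity_X {S R : Type} [Ring S] [Ring R] {p : ℕ} (hp : p.Prime) (hpR : (p : R) = 0)
    (hpS : (p : S) = 0)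
    (hS : ∀ α : S, α ≠ 0 → ∃ (n : ℕ) (β β' : Fin n → S), ∑ s, β s * α * β' s = 1) (e' : R)
    (he' : e' * e' = e') (m n : S → R) (hma : ∀ α β, m (α + β) = m α + m β)
    (hna : ∀ α β, n (α + β) = n α + n β) (hmm : ∀ α β, m (α * β) = m α * m β)
    (hnn : ∀ α β, n (α * β) = n β * n α) (hme : ∀ α, m α * e' = 0 ∧ e' * m α = 0)
    (hne : ∀ α, n α * e' = 0 ∧ e' * n α = 0) (u : Sˣ) {k : ℕ} (hk : 0 < k) (D : FD u k)
    (hu : ((u : S) - 1) ^ (k - 1) ≠ 0) (x : Rˣ) (hxe : (x : R) * e' = e' * x)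
    (hxm : ∀ α, (x : R) * m α = m ((u : S) * α * ((u⁻¹ : Sˣ) : S)) * x)
    (hxn : ∀ α, (x : R) * n α = n ((u : S) * α * ((u⁻¹ : Sˣ) : S)) * x)
    (hxk : ((x : R) - 1) ^ k = 0) (M : AddSubgroup R)
    (hM : ∀ α, ∀ w ∈ M, m α * w * e' + e' * w * n α ∈ M)
    (hxM : ∀ w ∈ M, (x : R) * w * ((x⁻¹ : Rˣ) : R) ∈ M)
    (hxM' : ∀ w ∈ M, ((x⁻¹ : Rˣ) : R) * w * x ∈ M) {w : R} (hw : w ∈ M)
    (hw' : ∃ ξ, w = (x : R) * ξ * ((x⁻¹ : Rˣ) : R) - ξ) :
    ∃ w' ∈ M, m 1 * w * e' + e' * w * n 1 = (x : R) * w' * ((x⁻¹ : Rˣ) : R) - w' := by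
  have uu : (u : S) * ((u⁻¹ : Sˣ) : S) = 1 := by
    rw [← Units.val_mul, mul_inv_cancel, Units.val_one]
  have xx : (x : R) * ((x⁻¹ : Rˣ) : R) = 1 := by
    rw [← Units.val_mul, mul_inv_cancel, Units.val_one]
  have xx' : ((x⁻¹ : Rˣ) : R) * (x : R) = 1 := by
    rw [← Units.val_mul, inv_mul_cancel, Units.val_one]
  have hxe' : ((x⁻¹ : Rˣ) : R) * e' = e' * ((x⁻¹ : Rˣ) : R) := by
    have h : ((x⁻¹ : Rˣ) : R) * ((x : R) * e') * ((x⁻¹ : Rˣ) : R) =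
        ((x⁻¹ : Rˣ) : R) * (e' * x) * ((x⁻¹ : Rˣ) : R) := by rw [hxe]
    rw [← mul_assoc, xx', one_mul, mul_assoc, mul_assoc, xx, mul_one] at h
    exact h.symm
  have hxn' : ∀ α, n α * ((x⁻¹ : Rˣ) : R) = ((x⁻¹ : Rˣ) : R) *
      n ((u : S) * α * ((u⁻¹ : Sˣ) : S)) := by
    intro α
    have h : ((x⁻¹ : Rˣ) : R) * ((x : R) * n α) * ((x⁻¹ : Rˣ) : R) =
        ((x⁻¹ : Rˣ) : R) * (n ((u : S) * α * ((u⁻¹ : Sˣ) : S)) * x) * ((x⁻¹ : Rˣ) : R) := by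
      rw [hxn]
    rw [← mul_assoc, xx', one_mul, mul_assoc, mul_assoc, xx, mul_one] at h
    exact h
  -- the operators
  obtain ⟨mX, hmX⟩ : ∃ mX : S → AddMonoid.End R, ∀ α, mX α = purXlr (m α) e' + purXlr e' (n α) :=
    ⟨_, fun _ => rfl⟩
  have hmXa : ∀ α w, mX α w = m α * w * e' + e' * w * n α := by
    intro α w
    rw [hmX]
    rfl
  let X : (AddMonoid.End R)ˣ := ⟨purXlr (x : R) ((x⁻¹ : Rˣ) : R), purXlr ((x⁻¹ : Rˣ) : R) (x : R),
    by rw [purXlr_mul, xx, purXlr_one], by rw [purXlr_mul, xx', purXlr_one]⟩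
  have hX : (X : AddMonoid.End R) = purXlr (x : R) ((x⁻¹ : Rˣ) : R) := rfl
  have hX' : ((X⁻¹ : (AddMonoid.End R)ˣ) : AddMonoid.End R) =
      purXlr ((x⁻¹ : Rˣ) : R) (x : R) := rfl
  have hadd : ∀ α β, mX (α + β) = mX α + mX β := by
    intro α β
    rw [hmX, hmX, hmX, hma, hna, purXlr_add_left, purXlr_add_right]
    abel
  have hmul : ∀ α β, mX (α * β) = mX α * mX β := by
    intro α β
    rw [hmX, hmX, hmX, add_mul, mul_add, mul_add, purXlr_mul, purXlr_mul, purXlr_mul, purXlr_mul,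
      he', (hme α).1, (hme β).2, purXlr_zero_left, purXlr_zero_left, ← hmm, ← hnn, add_zero,
      zero_add]
  have hx : ∀ α, (X : AddMonoid.End R) * mX α =
      mX ((u : S) * α * ((u⁻¹ : Sˣ) : S)) * X := by
    intro α
    rw [hmX, hmX, hX, mul_add, add_mul, purXlr_mul, purXlr_mul, purXlr_mul, purXlr_mul, hxm, hxe,
      hxe', hxn']
  -- the powers
  obtain ⟨b, a, ha, hka⟩ := Nat.exists_eq_pow_mul_and_not_dvd hk.ne' p hp.ne_one
  have hk1 := hu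
  have hk2 := D.nil
  rw [hka] at hk1 hk2
  have hxk' := hxk
  rw [hka] at hxk'
  have hy1 := ypow hp hpR hpS hS m hma hmm u x hxm ha hk1 hk2 (by rw [hxk', zero_mul])
  have hy2 := purX_yop hp hpR hpS hS n hna hnn u x hxn ha hk1 hk2 hxk'
  obtain ⟨q, hq⟩ : ∃ q, p ^ b = q + 1 := ⟨p ^ b - 1, by have := Nat.pow_pos hp.pos (n := b); omega⟩
  have ha0 : a ≠ 0 := by
    rintro rfl
    exact ha (dvd_zero p)
  obtain ⟨a', ha'⟩ : ∃ a', a = a' + 1 := ⟨a - 1, by omega⟩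
  have hpA : ((p : ℕ) : AddMonoid.End R) = 0 := by
    refine DFunLike.ext _ _ fun ξ => ?_
    rw [AddMonoid.End.natCast_apply, nsmul_eq_mul, hpR, zero_mul]
    rfl
  obtain ⟨Y, hY⟩ : ∃ Y : AddMonoid.End R, Y = mX ((u⁻¹ : Sˣ) : S) * X := ⟨_, rfl⟩
  have hYE : Y * mX 1 = Y := by
    rw [hY, mul_assoc, hx, mul_one, uu, ← mul_assoc, ← hmul, mul_one]
  have hEY : mX 1 * Y = Y := by
    rw [hY, ← mul_assoc, ← hmul, one_mul]
  have hEE : mX 1 * mX 1 = mX 1 := by rw [← hmul, one_mul]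
  have hEp : (mX 1) ^ p ^ b = mX 1 := by
    rw [hq]
    clear * - hEE
    induction q with
    | zero => rw [zero_add, pow_one]
    | succ q ih => rw [pow_succ, ih, hEE]
  have hYe : Y = purXlr (m ((u⁻¹ : Sˣ) : S) * x) (((x⁻¹ : Rˣ) : R) * e') +
      purXlr ((x : R) * e') (((x⁻¹ : Rˣ) : R) * n ((u⁻¹ : Sˣ) : S)) := by
    rw [hY, hmX, hX, add_mul, purXlr_mul, purXlr_mul, hxe]
  have hYp : Y ^ p ^ b = purXlr (m 1) (((x⁻¹ : Rˣ) : R) ^ p ^ b * e') +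
      purXlr ((x : R) ^ p ^ b * e') (n 1) := by
    rw [hYe, hq, purX_orth, purXlr_pow, purXlr_pow, ← hq, hy1, hy2, hq, purX_pow_idem he' hxe',
      purX_pow_idem he' hxe]
    · have h1 : m ((u⁻¹ : Sˣ) : S) * (x : R) * ((x : R) * e') = 0 := by
        rw [hxe, mul_assoc, ← mul_assoc (x : R) e', hxe, mul_assoc, ← mul_assoc (m _), (hme _).1,
          zero_mul]
      rw [purXlr_mul, h1, purXlr_zero_left]
    · have h1 : (x : R) * e' * (m ((u⁻¹ : Sˣ) : S) * (x : R)) = 0 := by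
        rw [mul_assoc, ← mul_assoc e', (hme _).2, zero_mul, mul_zero]
      rw [purXlr_mul, h1, purXlr_zero_left]
  have hy : (mX ((u⁻¹ : Sˣ) : S) * X - mX 1) ^ k = 0 := by
    rw [← hY, hka, pow_mul, purX_sub_pow hp hpA (show Y * mX 1 = mX 1 * Y by rw [hYE, hEY]), hEp,
      hYp, hmX]
    have h1 : purXlr (m 1) (((x⁻¹ : Rˣ) : R) ^ p ^ b * e') + purXlr ((x : R) ^ p ^ b * e') (n 1) -
        (purXlr (m 1) e' + purXlr e' (n 1)) =
        purXlr (m 1) ((((x⁻¹ : Rˣ) : R) ^ p ^ b - 1) * e') +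
          purXlr (((x : R) ^ p ^ b - 1) * e') (n 1) := by
      rw [sub_mul, sub_mul, one_mul, purXlr_sub_right, purXlr_sub_left]
      abel
    have hx1 : ((x : R) ^ p ^ b - 1) ^ (a' + 1) = 0 := by
      have h := purX_sub_pow hp hpR (Commute.one_right (x : R)) b
      rw [one_pow] at h
      rw [← h, ← pow_mul, ← ha']
      exact hxk'
    have hx2 : (((x⁻¹ : Rˣ) : R) ^ p ^ b - 1) ^ (a' + 1) = 0 := by
      have h := purX_sub_pow hp hpR (Commute.one_right ((x⁻¹ : Rˣ) : R)) b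
      rw [one_pow] at h
      rw [← h, ← pow_mul, ← ha']
      exact purX_inv_zero x hxk'
    have hc1 : Commute ((x : R) ^ p ^ b - 1) e' :=
      ((show Commute (x : R) e' from hxe).pow_left _).sub_left (Commute.one_left _)
    have hc2 : Commute (((x⁻¹ : Rˣ) : R) ^ p ^ b - 1) e' :=
      ((show Commute ((x⁻¹ : Rˣ) : R) e' from hxe').pow_left _).sub_left (Commute.one_left _)
    rw [h1, ha', purX_orth, purXlr_pow, purXlr_pow, purX_pow_idem he' hc1, purX_pow_idem he' hc2,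
      hx1, hx2, zero_mul, purXlr_zero_left, purXlr_zero_right, add_zero]
    · have h2 : m 1 * (((x : R) ^ p ^ b - 1) * e') = 0 := by
        rw [hc1.eq, ← mul_assoc, (hme 1).1, zero_mul]
      rw [purXlr_mul, h2, purXlr_zero_left]
    · have h2 : (((x : R) ^ p ^ b - 1) * e') * m 1 = 0 := by
        rw [mul_assoc, (hme 1).2, mul_zero]
      rw [purXlr_mul, h2, purXlr_zero_left]
  obtain ⟨w', hw1, hw2⟩ := purity hk D mX hadd hmul X hx hy M
    (fun α w hw => by rw [hmXa]; exact hM α w hw) hxM hxM' hw hw'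
  refine ⟨w', hw1, ?_⟩
  rw [← hmXa, hw2]
  rfl

end Pool.Agent.Lib.MP_b9166b_al.Pt
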