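import Pool.Agent.Lib.MP_b9166b_al.Pt.Gmm

/-!
# MP_b9166b_al, PT: the groups `Q^r` and their symbols

`ℓ.Qr ρ c l r`: the `t ∈ T` with `(ρ t - 1) (c i) ≤ c (i - r)`. `ℓ.Mr ρ c l r G θ`: the `comp r (ρ t - 1)`, `t ∈ Q^r`, which are odd for `θ`
(`θ ξ θ = - ξ`, `θ² = 1`). `c.c` is a series for `⊤`, `G` a grading adapted to it, `1 ≤ r`.

`mem_Qr`: `ρ (t t') - 1 = ρ t (ρ t' - 1) + (ρ t - 1)`, `ρ t⁻¹ - 1 = - ρ t⁻¹ (ρ t - 1)`, and the `c i` are stable under `Γ`. `mem_Mr`: for `1 ≤ r` and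
`t, t' ∈ Q^r`: `comp r (ρ (t t') - 1) = comp r (ρ t - 1) + comp r (ρ t' - 1)` (`(ρ t - 1) (ρ t' - 1)` is `Fil (r + r)`); inverse similarly.
`Mr_conj`: `x t x⁻¹ ∈ Q^r`, and `comp r (ρ x * f * ρ x⁻¹) = comp 0 (ρ x) * comp r f * comp 0 (ρ x⁻¹)`.
`Mr_nsmul`: `M` is an additive subgroup. `Mr_N`: let `g` be a root lift of `(ι v, f ∘ κ)`, `N = comp 0 (ρ g) - 1 = (S.res ι κ h).N v f`, `N * N = 0`; `comp 0 (ρ g)` commutes
with `θ = 1 - e - e`, `e = m (ι κ) + m' (ι κ)` (`N e = e N = N`); by `Mr_conj` `(1 + N) ξ (1 - N) ∈ M`, and `N ξ N = N e ξ e N = 0` as `ξ` is odd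
(`e = (1 - θ)/2`; `θ ξ θ = -ξ` gives `4 e ξ e = (1 - θ) ξ (1 - θ) = ξ - θ ξ - ξ θ + θ ξ θ = - θ ξ - ξ θ`, and `θ ξ = - ξ θ` as `θ² = 1`; `p` odd).
-/

set_option autoImplicit false

namespace Pool.Agent.Lib.MP_b9166b_al.Pt

open Module

section

variable {p : ℕ} {Γ F V K W : Type} [Group Γ] [Field F] [AddCommGroup V] [Module F V] [Field K]
  [AddCommGroup W] [Module K W]

/-- `Q^r` -/
def Lay.Qr (ℓ : Lay p Γ F V) (ρ : Γ →* (W →ₗ[K] W)) (c : ℕ → Submodule K W) (l r : ℕ) :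
    Subgroup Γ :=
  Subgroup.closure {t | t ∈ ℓ.T ∧ ∀ i ≤ l, ∀ w ∈ c i, ρ t w - w ∈ c (i - r)}

/-- the odd symbols -/
def Lay.Mr (ℓ : Lay p Γ F V) (ρ : Γ →* (W →ₗ[K] W)) (c : ℕ → Submodule K W) {l : ℕ} (r : ℕ)
    (G : Grd (W →ₗ[K] W) l) (θ : W →ₗ[K] W) : AddSubgroup (W →ₗ[K] W) :=
  AddSubgroup.closure {ξ | ∃ t ∈ ℓ.Qr ρ c l r, ξ = G.comp r (ρ t - 1) ∧ θ * ξ * θ = -ξ}

end

variable {p : ℕ} (hp : p.Prime) {Γ F V K W : Type} [Group Γ] [Finite Γ] [Field F] [CharP F p]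
  [AddCommGroup V] [Module F V] [FiniteDimensional F V] [Field K] [CharP K p] [AddCommGroup W]
  [Module K W] [FiniteDimensional K W] [Finite W] {ℓ : Lay p Γ F V} {ρ : Γ →* (W →ₗ[K] W)}
  {l : ℕ} {c : Series ρ ⊤ l}

omit [Finite Γ] [FiniteDimensional K W] [Finite W] [CharP K p] in
theorem qr_inv (c : Series ρ ⊤ l) {i : ℕ} (hi : i ≤ l) (g : Γ) {w : W} (hw : w ∈ c.c i) :
    ρ g w ∈ c.c i := by
  rcases Nat.lt_or_eq_of_le hi with h | h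
  · exact (c.irr i h).inv2 g (Subgroup.mem_top g) w hw
  · rw [h, c.top]
    exact Submodule.mem_top

omit [Finite Γ] [FiniteDimensional K W] [Finite W] [CharP K p] in
theorem qr_fil0 {G : Grd (W →ₗ[K] W) l} (hG : Adp G c.c) (g : Γ) : G.Fil 0 (ρ g) := by
  rw [hG.fil]
  intro i hi w hw
  rw [Nat.sub_zero]
  exact qr_inv c hi g hw

omit [Finite Γ] [FiniteDimensional K W] [Finite W] [CharP K p] in
theorem qr_cinv {G : Grd (W →ₗ[K] W) l} (hG : Adp G c.c) (g : Γ) :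
    G.comp 0 (ρ g) * G.comp 0 (ρ g⁻¹) = 1 := by
  have h1 := G.comp_mul (qr_fil0 hG g) (qr_fil0 hG g⁻¹)
  rw [← h1, ← map_mul, mul_inv_cancel, map_one]
  exact G.comp_one

omit [Finite Γ] [FiniteDimensional K W] [Finite W] [CharP K p] in
theorem qr_comp0 (G : Grd (W →ₗ[K] W) l) (r : ℕ) : G.comp r (0 : W →ₗ[K] W) = 0 := by
  simp only [Grd.comp, mul_zero, zero_mul, Finset.sum_const_zero]

include hp

set_option linter.unusedSectionVars false in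
theorem mem_Qr {r : ℕ} {t : Γ} : t ∈ ℓ.Qr ρ c.c l r ↔
    t ∈ ℓ.T ∧ ∀ i ≤ l, ∀ w ∈ c.c i, ρ t w - w ∈ c.c (i - r) := by
  refine ⟨fun h => ?_, fun h => Subgroup.subset_closure h⟩
  induction h using Subgroup.closure_induction with
  | mem x hx => exact hx
  | one =>
    refine ⟨ℓ.T.one_mem, fun i _ w _ => ?_⟩
    rw [map_one, Module.End.one_apply, sub_self]
    exact Submodule.zero_mem _
  | mul x y _ _ hx hy =>
    refine ⟨ℓ.T.mul_mem hx.1 hy.1, fun i hi w hw => ?_⟩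
    have h1 : ρ (x * y) w - w = ρ x (ρ y w - w) + (ρ x w - w) := by
      rw [map_mul, Module.End.mul_apply, map_sub]
      abel
    rw [h1]
    exact Submodule.add_mem _ (qr_inv c (by omega) x (hy.2 i hi w hw)) (hx.2 i hi w hw)
  | inv x _ hx =>
    refine ⟨ℓ.T.inv_mem hx.1, fun i hi w hw => ?_⟩
    have h2 : ρ x⁻¹ (ρ x w) = w := by
      rw [← Module.End.mul_apply, ← map_mul, inv_mul_cancel, map_one, Module.End.one_apply]
    have h1 : ρ x⁻¹ w - w = -(ρ x⁻¹ (ρ x w - w)) := by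
      rw [map_sub, h2]
      abel
    rw [h1]
    exact Submodule.neg_mem _ (qr_inv c (by omega) x⁻¹ (hx.2 i hi w hw))

theorem mem_Qr_fil {G : Grd (W →ₗ[K] W) l} (hG : Adp G c.c) {r : ℕ} {t : Γ} :
    t ∈ ℓ.Qr ρ c.c l r ↔ t ∈ ℓ.T ∧ G.Fil r (ρ t - 1) := by
  rw [mem_Qr hp, hG.fil]
  rfl

theorem Qr_conj {r : ℕ} {t : Γ} (h : t ∈ ℓ.Qr ρ c.c l r) (x : Γ) :
    x * t * x⁻¹ ∈ ℓ.Qr ρ c.c l r := by
  rw [mem_Qr hp] at h ⊢
  refine ⟨(ℓ.T_normal hp).conj_mem t h.1 x, fun i hi w hw => ?_⟩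
  have h2 : ρ x (ρ x⁻¹ w) = w := by
    rw [← Module.End.mul_apply, ← map_mul, mul_inv_cancel, map_one, Module.End.one_apply]
  have h1 : ρ (x * t * x⁻¹) w - w = ρ x (ρ t (ρ x⁻¹ w) - ρ x⁻¹ w) := by
    rw [map_mul, map_mul, Module.End.mul_apply, Module.End.mul_apply, map_sub, h2]
  rw [h1]
  exact qr_inv c (by omega) x (h.2 i hi _ (qr_inv c hi x⁻¹ hw))

theorem Qr_one {t : Γ} (h : t ∈ ℓ.T) : t ∈ ℓ.Qr ρ c.c l 1 := by
  rw [mem_Qr hp]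
  refine ⟨h, fun i hi w hw => ?_⟩
  rcases i with _ | k
  · rw [c.zero, Submodule.mem_bot] at hw
    rw [hw, map_zero, sub_self]
    exact Submodule.zero_mem _
  · exact Lay.T_irr ℓ hp ρ le_top (c.irr k (by omega)) h hw

theorem qr_comp {G : Grd (W →ₗ[K] W) l} (hG : Adp G c.c) {r : ℕ} (hr : 0 < r) {t t' : Γ}
    (h : t ∈ ℓ.Qr ρ c.c l r) (h' : t' ∈ ℓ.Qr ρ c.c l r) :
    G.comp r (ρ (t * t') - 1) = G.comp r (ρ t - 1) + G.comp r (ρ t' - 1) := by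
  have h1 := ((mem_Qr_fil hp hG).1 h).2
  have h2 := ((mem_Qr_fil hp hG).1 h').2
  have e : ρ (t * t') - 1 = (ρ t - 1) * (ρ t' - 1) + ((ρ t - 1) + (ρ t' - 1)) := by
    rw [map_mul, sub_mul, mul_sub, mul_one, one_mul]
    abel
  rw [e, G.comp_add, G.comp_add, G.comp_eq_zero (h1.mul (G := G) h2) (by omega), zero_add]

theorem mem_Mr {G : Grd (W →ₗ[K] W) l} (hG : Adp G c.c) {r : ℕ} (hr : 0 < r)
    {θ ξ : W →ₗ[K] W} : ξ ∈ ℓ.Mr ρ c.c r G θ ↔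
      ∃ t ∈ ℓ.Qr ρ c.c l r, ξ = G.comp r (ρ t - 1) ∧ θ * ξ * θ = -ξ := by
  refine ⟨fun h => ?_, fun h => AddSubgroup.subset_closure h⟩
  induction h using AddSubgroup.closure_induction with
  | mem x hx => exact hx
  | zero =>
    refine ⟨1, Subgroup.one_mem _, ?_, by rw [mul_zero, zero_mul, neg_zero]⟩
    rw [map_one, sub_self, qr_comp0]
  | add x y _ _ hx hy =>
    obtain ⟨t, ht, h1, h2⟩ := hx
    obtain ⟨t', ht', h1', h2'⟩ := hy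
    refine ⟨t * t', Subgroup.mul_mem _ ht ht', ?_, ?_⟩
    · rw [qr_comp hp hG hr ht ht', ← h1, ← h1']
    · rw [mul_add, add_mul, h2, h2', neg_add]
  | neg x _ hx =>
    obtain ⟨t, ht, h1, h2⟩ := hx
    refine ⟨t⁻¹, Subgroup.inv_mem _ ht, ?_, ?_⟩
    · have h3 := qr_comp hp hG hr (Subgroup.inv_mem _ ht) ht
      rw [inv_mul_cancel, map_one, sub_self, qr_comp0, ← h1] at h3
      exact neg_eq_of_add_eq_zero_left h3.symm
    · rw [mul_neg, neg_mul, h2]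

theorem Mr_conj {G : Grd (W →ₗ[K] W) l} (hG : Adp G c.c) {r : ℕ} (hr : 0 < r)
    {θ ξ : W →ₗ[K] W} {x : Γ} (hx : θ * G.comp 0 (ρ x) = G.comp 0 (ρ x) * θ)
    (h : ξ ∈ ℓ.Mr ρ c.c r G θ) :
    G.comp 0 (ρ x) * ξ * G.comp 0 (ρ x⁻¹) ∈ ℓ.Mr ρ c.c r G θ := by
  rw [mem_Mr hp hG hr] at h ⊢
  obtain ⟨t, ht, h1, h2⟩ := h
  have hf : G.Fil r (ρ t - 1) := ((mem_Qr_fil hp hG).1 ht).2
  have hσ := qr_cinv hG x
  have hσ' := qr_cinv hG x⁻¹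
  rw [inv_inv] at hσ'
  have hx' : θ * G.comp 0 (ρ x⁻¹) = G.comp 0 (ρ x⁻¹) * θ := by
    calc θ * G.comp 0 (ρ x⁻¹)
        = (G.comp 0 (ρ x⁻¹) * G.comp 0 (ρ x)) * θ * G.comp 0 (ρ x⁻¹) := by rw [hσ', one_mul]
      _ = G.comp 0 (ρ x⁻¹) * (G.comp 0 (ρ x) * θ) * G.comp 0 (ρ x⁻¹) := by simp only [mul_assoc]
      _ = G.comp 0 (ρ x⁻¹) * θ * (G.comp 0 (ρ x) * G.comp 0 (ρ x⁻¹)) := by
          rw [← hx]; simp only [mul_assoc]
      _ = G.comp 0 (ρ x⁻¹) * θ := by rw [hσ, mul_one]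
  refine ⟨x * t * x⁻¹, Qr_conj hp ht x, ?_, ?_⟩
  · have e1 : ρ (x * t * x⁻¹) - 1 = ρ x * ((ρ t - 1) * ρ x⁻¹) := by
      rw [map_mul, map_mul, sub_mul, mul_sub, one_mul, ← map_mul ρ x x⁻¹, mul_inv_cancel, map_one,
        mul_assoc]
    have e2 := G.comp_mul (qr_fil0 hG x) (hf.mul (G := G) (qr_fil0 hG x⁻¹))
    have e3 := G.comp_mul hf (qr_fil0 hG x⁻¹)
    rw [e3] at e2
    simp only [add_zero, zero_add] at e2
    rw [e1, e2, h1, mul_assoc]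
  · calc θ * (G.comp 0 (ρ x) * ξ * G.comp 0 (ρ x⁻¹)) * θ
        = (θ * G.comp 0 (ρ x)) * ξ * (G.comp 0 (ρ x⁻¹) * θ) := by simp only [mul_assoc]
      _ = G.comp 0 (ρ x) * (θ * ξ * θ) * G.comp 0 (ρ x⁻¹) := by
          rw [hx, ← hx']; simp only [mul_assoc]
      _ = -(G.comp 0 (ρ x) * ξ * G.comp 0 (ρ x⁻¹)) := by rw [h2, mul_neg, neg_mul]

theorem Mr_N (hp2 : p ≠ 2) {G : Grd (W →ₗ[K] W) l} (hG : Adp G c.c)
    {S : MM F V (W →ₗ[K] W)} (hS : Gm ℓ ρ G S) {Z : Type} [AddCommGroup Z] [Module F Z]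
    (ι : Z →ₗ[F] V) (κ : V →ₗ[F] Z) (h : κ ∘ₗ ι = 1) {r : ℕ} (hr : 0 < r) {θ : W →ₗ[K] W}
    (hθ : θ = 1 - (S.m (ι ∘ₗ κ) + S.m' (ι ∘ₗ κ)) - (S.m (ι ∘ₗ κ) + S.m' (ι ∘ₗ κ)))
    {v : Z} {f : Dual F Z} (hvf : f v = 0) {ξ : W →ₗ[K] W} (hξ : ξ ∈ ℓ.Mr ρ c.c r G θ) :
    (S.m (ι ∘ₗ rk v f ∘ₗ κ) - S.m' (ι ∘ₗ rk v f ∘ₗ κ)) * ξ -
      ξ * (S.m (ι ∘ₗ rk v f ∘ₗ κ) - S.m' (ι ∘ₗ rk v f ∘ₗ κ)) ∈ ℓ.Mr ρ c.c r G θ := by
  have hm0 : S.m 0 = 0 := by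
    have h1 := S.add 0 0
    rw [add_zero] at h1
    exact left_eq_add.1 h1
  have hm0' : S.m' 0 = 0 := by
    have h1 := S.add' 0 0
    rw [add_zero] at h1
    exact left_eq_add.1 h1
  have hκι : ∀ z, κ (ι z) = z := fun z => LinearMap.congr_fun h z
  obtain ⟨α, hα⟩ : ∃ α : V →ₗ[F] V, α = ι ∘ₗ rk v f ∘ₗ κ := ⟨_, rfl⟩
  obtain ⟨ε, hε⟩ : ∃ ε : V →ₗ[F] V, ε = ι ∘ₗ κ := ⟨_, rfl⟩
  rw [← hα]
  rw [← hε] at hθ
  have hαα : α * α = 0 := by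
    ext w
    rw [hα]
    simp only [Module.End.mul_apply, LinearMap.comp_apply, rk_apply, hκι, map_smul, hvf,
      zero_smul, LinearMap.zero_apply, smul_zero, map_zero]
  have hεα : ε * α = α := by
    ext w
    rw [hα, hε]
    simp only [Module.End.mul_apply, LinearMap.comp_apply, hκι]
  have hαε : α * ε = α := by
    ext w
    rw [hα, hε]
    simp only [Module.End.mul_apply, LinearMap.comp_apply, hκι]
  have hεε : ε * ε = ε := by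
    ext w
    rw [hε]
    simp only [Module.End.mul_apply, LinearMap.comp_apply, hκι]
  obtain ⟨e, he⟩ : ∃ e : W →ₗ[K] W, e = S.m ε + S.m' ε := ⟨_, rfl⟩
  obtain ⟨N, hN⟩ : ∃ N : W →ₗ[K] W, N = S.m α - S.m' α := ⟨_, rfl⟩
  rw [← he] at hθ
  rw [← hN]
  have hee : e * e = e := by
    rw [he, mul_add, add_mul, add_mul, S.orth, S.orth', ← S.mul, ← S.mul', hεε, add_zero, zero_add]
  have heN : e * N = N := by
    rw [he, hN, mul_sub, add_mul, add_mul, S.orth, S.orth', ← S.mul, ← S.mul', hεα, hαε, add_zero,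
      zero_add]
  have hNe : N * e = N := by
    rw [he, hN, mul_add, sub_mul, sub_mul, S.orth, S.orth', ← S.mul, ← S.mul', hεα, hαε, sub_zero,
      zero_sub, sub_eq_add_neg]
  have hNN : N * N = 0 := by
    rw [hN, mul_sub, sub_mul, sub_mul, S.orth, S.orth', ← S.mul, ← S.mul', hαα, hm0, hm0', sub_self]
  have hfv : (f ∘ₗ κ) (ι v) = 0 := by
    rw [LinearMap.comp_apply, hκι]
    exact hvf
  obtain ⟨g, hg⟩ := Lay.Rt.exists ℓ hp hfv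
  have hrk : rk (ι v) (f ∘ₗ κ) = α := by
    ext w
    rw [hα]
    simp only [rk_apply, LinearMap.comp_apply, map_smul]
  have hσ : G.comp 0 (ρ g) = 1 + N := by
    rw [hS.rt _ _ g hfv hg, hrk, hN]
    abel
  have hσ' : G.comp 0 (ρ g⁻¹) = 1 - N := by
    have h1 := qr_cinv hG g
    have h2 : (1 - N) * (1 + N) = 1 := by
      simp only [sub_mul, mul_add, one_mul, mul_one, hNN]
      abel
    calc G.comp 0 (ρ g⁻¹) = (1 - N) * (1 + N) * G.comp 0 (ρ g⁻¹) := by rw [h2, one_mul]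
      _ = (1 - N) * (G.comp 0 (ρ g) * G.comp 0 (ρ g⁻¹)) := by rw [hσ, mul_assoc]
      _ = 1 - N := by rw [h1, mul_one]
  have hcomm : θ * G.comp 0 (ρ g) = G.comp 0 (ρ g) * θ := by
    rw [hσ, hθ]
    simp only [sub_mul, mul_sub, mul_add, add_mul, mul_one, one_mul, heN, hNe]
    abel
  have h1 := Mr_conj hp hG hr hcomm hξ
  rw [hσ, hσ'] at h1
  have hodd : θ * ξ * θ = -ξ := by
    obtain ⟨t, -, -, h2⟩ := (mem_Mr hp hG hr).1 hξ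
    exact h2
  have h2K : (2 : K) ≠ 0 := by
    intro h2
    have h3 : ((2 : ℕ) : K) = 0 := by exact_mod_cast h2
    rw [CharP.cast_eq_zero_iff K p 2] at h3
    exact hp2 ((Nat.prime_dvd_prime_iff_eq hp Nat.prime_two).1 h3)
  have hexe : e * ξ * e = 0 := by
    have h3 : e * (θ * ξ * θ) * e = -(e * ξ * e) := by
      rw [hodd, mul_neg, neg_mul]
    have h4 : e * θ = -e := by
      rw [hθ, mul_sub, mul_sub, mul_one, hee]
      abel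
    have h5 : θ * e = -e := by
      rw [hθ, sub_mul, sub_mul, one_mul, hee]
      abel
    have h6 : e * (θ * ξ * θ) * e = e * ξ * e := by
      calc e * (θ * ξ * θ) * e = (e * θ) * ξ * (θ * e) := by simp only [mul_assoc]
        _ = e * ξ * e := by rw [h4, h5, neg_mul, neg_mul_neg]
    rw [h6] at h3
    have h7 : (2 : K) • (e * ξ * e) = 0 := by
      rw [two_smul]
      nth_rewrite 1 [h3]
      exact neg_add_cancel _
    exact (smul_eq_zero.1 h7).resolve_left h2K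
  have hNxN : N * ξ * N = 0 := by
    calc N * ξ * N = (N * e) * ξ * (e * N) := by rw [hNe, heN]
      _ = N * (e * ξ * e) * N := by simp only [mul_assoc]
      _ = 0 := by rw [hexe, mul_zero, zero_mul]
  have h8 : (1 + N) * ξ * (1 - N) = ξ + (N * ξ - ξ * N) := by
    rw [mul_sub, mul_one, add_mul, one_mul, add_mul, hNxN, add_zero]
    abel
  rw [h8] at h1
  have h9 := AddSubgroup.sub_mem _ h1 hξ
  rwa [add_sub_cancel_left] at h9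

end Pool.Agent.Lib.MP_b9166b_al.Pt
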