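import Pool.Agent.Lib.MP_b9166b_al.Pt.MmEq

/-!
# MP_b9166b_al, PT: restriction and operators

`MM.res`: restriction to a direct summand `Z` of `V` (`ι, κ`). `MM.X`: the two representations on the additive group `R` of operators, for an
idempotent `e'` which kills everything: `ξ ↦ m α ξ e' + e' ξ m' α` and `ξ ↦ m' α ξ e' + e' ξ m α`. `MM.stable`: by `MM.form` (with
`exists_pair`; see the proof of `MM.equiv`) `m (rk v q)` and `m' (rk v q)` are products of three `N`s, every `α` is a sum of maps `rk v q`.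
`X_N`: for `e ξ e = 0`, `e = 1 - e'`: `N ξ = N e ξ = N ξ e'`, and the same on the right.
-/

set_option autoImplicit false

namespace Pool.Agent.Lib.MP_b9166b_al.Pt

open Module

variable {F V Z R : Type} [Field F] [AddCommGroup V] [Module F V] [AddCommGroup Z] [Module F Z]
  [Ring R]

theorem res_mul (ι : Z →ₗ[F] V) (κ : V →ₗ[F] Z) (h : κ ∘ₗ ι = 1) (α β : Z →ₗ[F] Z) :
    ι ∘ₗ (α * β) ∘ₗ κ = (ι ∘ₗ α ∘ₗ κ) * (ι ∘ₗ β ∘ₗ κ) := by
  ext x
  have h1 : ∀ y, κ (ι y) = y := fun y => LinearMap.congr_fun h y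
  simp only [LinearMap.comp_apply, Module.End.mul_apply, h1]

theorem res_add (ι : Z →ₗ[F] V) (κ : V →ₗ[F] Z) (α β : Z →ₗ[F] Z) :
    ι ∘ₗ (α + β) ∘ₗ κ = (ι ∘ₗ α ∘ₗ κ) + (ι ∘ₗ β ∘ₗ κ) := by
  rw [LinearMap.add_comp, LinearMap.comp_add]

/-- restriction -/
def MM.res (S : MM F V R) (ι : Z →ₗ[F] V) (κ : V →ₗ[F] Z) (h : κ ∘ₗ ι = 1) : MM F Z R where
  m α := S.m (ι ∘ₗ α ∘ₗ κ)
  m' α := S.m' (ι ∘ₗ α ∘ₗ κ)
  add := by
    intro α β
    rw [res_add, S.add]
  add' := by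
    intro α β
    rw [res_add, S.add']
  mul := by
    intro α β
    rw [res_mul ι κ h, S.mul]
  mul' := by
    intro α β
    rw [res_mul ι κ h, S.mul']
  orth := fun _ _ => S.orth _ _
  orth' := fun _ _ => S.orth' _ _

/-- the operator `ξ ↦ a ξ e' + e' ξ b` -/
def opX (e' a b : R) : AddMonoid.End R where
  toFun ξ := a * ξ * e' + e' * ξ * b
  map_zero' := by simp
  map_add' := by
    intro ξ η
    simp only [mul_add, add_mul]
    abel

theorem opX_apply (e' a b ξ : R) : opX e' a b ξ = a * ξ * e' + e' * ξ * b := rfl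

theorem opX_add (e' a b c d : R) : opX e' (a + c) (b + d) = opX e' a b + opX e' c d := by
  ext ξ
  change (a + c) * ξ * e' + e' * ξ * (b + d) =
    (a * ξ * e' + e' * ξ * b) + (c * ξ * e' + e' * ξ * d)
  noncomm_ring

theorem opX_zero (e' : R) : opX e' 0 0 = 0 := by
  ext ξ
  rw [opX_apply, zero_mul, zero_mul, mul_zero, add_zero]
  rfl

theorem opX_mul {e' a b c d : R} (h : e' * e' = e') (ha : a * e' = 0) (hc : e' * c = 0)
    (hd : d * e' = 0) (hb : e' * b = 0) :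
    opX e' a b * opX e' c d = opX e' (a * c) (d * b) := by
  ext ξ
  change a * (c * ξ * e' + e' * ξ * d) * e' + e' * (c * ξ * e' + e' * ξ * d) * b =
    a * c * ξ * e' + e' * ξ * (d * b)
  have h1 : a * (c * ξ * e' + e' * ξ * d) * e' + e' * (c * ξ * e' + e' * ξ * d) * b =
      a * c * ξ * (e' * e') + a * e' * ξ * (d * e') + e' * c * ξ * (e' * b) +
        e' * e' * ξ * (d * b) := by
    noncomm_ring
  rw [h1, h, ha, hc, hd, hb]
  simp only [zero_mul, mul_zero, add_zero]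

/-- `e'` is an idempotent killing everything -/
def MM.Kl (S : MM F Z R) (e' : R) : Prop :=
  e' * e' = e' ∧ ∀ α, (S.m α * e' = 0 ∧ e' * S.m α = 0) ∧ (S.m' α * e' = 0 ∧ e' * S.m' α = 0)

/-- the representations on operators -/
def MM.X (S : MM F Z R) (e' : R) (he : S.Kl e') : MM F Z (AddMonoid.End R) where
  m α := opX e' (S.m α) (S.m' α)
  m' α := opX e' (S.m' α) (S.m α)
  add := by
    intro α β
    rw [S.add, S.add', opX_add]
  add' := by
    intro α β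
    rw [S.add, S.add', opX_add]
  mul := by
    intro α β
    rw [opX_mul he.1 (he.2 α).1.1 (he.2 β).1.2 (he.2 β).2.1 (he.2 α).2.2, S.mul, S.mul']
  mul' := by
    intro α β
    rw [opX_mul he.1 (he.2 β).2.1 (he.2 α).2.2 (he.2 α).1.1 (he.2 β).1.2, S.mul, S.mul']
  orth := by
    intro α β
    rw [opX_mul he.1 (he.2 α).1.1 (he.2 β).2.2 (he.2 β).1.1 (he.2 α).2.2, S.orth, S.orth,
      opX_zero]
  orth' := by
    intro α β
    rw [opX_mul he.1 (he.2 α).2.1 (he.2 β).1.2 (he.2 β).2.1 (he.2 α).1.2, S.orth', S.orth',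
      opX_zero]

theorem MM.kl_one (S : MM F Z R) : S.Kl (1 - S.m 1 - S.m' 1) := by
  have a1 : ∀ α, S.m α * S.m 1 = S.m α := fun α => by rw [← S.mul, mul_one]
  have a2 : ∀ α, S.m 1 * S.m α = S.m α := fun α => by rw [← S.mul, one_mul]
  have a3 : ∀ α, S.m' α * S.m' 1 = S.m' α := fun α => by rw [← S.mul', one_mul]
  have a4 : ∀ α, S.m' 1 * S.m' α = S.m' α := fun α => by rw [← S.mul', mul_one]
  have b1 : ∀ α, S.m α * (1 - S.m 1 - S.m' 1) = 0 := fun α => by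
    rw [mul_sub, mul_sub, mul_one, a1, S.orth, sub_self, sub_zero]
  have b2 : ∀ α, (1 - S.m 1 - S.m' 1) * S.m α = 0 := fun α => by
    rw [sub_mul, sub_mul, one_mul, a2, S.orth', sub_self, sub_zero]
  have b3 : ∀ α, S.m' α * (1 - S.m 1 - S.m' 1) = 0 := fun α => by
    rw [mul_sub, mul_sub, mul_one, a3, S.orth', sub_zero, sub_self]
  have b4 : ∀ α, (1 - S.m 1 - S.m' 1) * S.m' α = 0 := fun α => by
    rw [sub_mul, sub_mul, one_mul, a4, S.orth, sub_zero, sub_self]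
  refine ⟨?_, fun α => ⟨⟨b1 α, b2 α⟩, b3 α, b4 α⟩⟩
  conv_lhs => rw [mul_sub, mul_sub, mul_one, b2, b4, sub_zero, sub_zero]

theorem MM.X_N (S : MM F Z R) (v : Z) (f : Dual F Z) {ξ : R}
    (hξ : (S.m 1 + S.m' 1) * ξ * (S.m 1 + S.m' 1) = 0) :
    (S.X _ S.kl_one).N v f ξ = S.N v f * ξ - ξ * S.N v f := by
  have h1 : (S.X _ S.kl_one).N v f ξ =
      opX (1 - S.m 1 - S.m' 1) (S.m (rk v f)) (S.m' (rk v f)) ξ -
        opX (1 - S.m 1 - S.m' 1) (S.m' (rk v f)) (S.m (rk v f)) ξ := rfl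
  have hl : S.N v f * (S.m 1 + S.m' 1) = S.N v f := by
    unfold MM.N
    rw [sub_mul, mul_add, mul_add, S.orth, S.orth', ← S.mul, ← S.mul', mul_one, one_mul, add_zero,
      zero_add]
  have hr : (S.m 1 + S.m' 1) * S.N v f = S.N v f := by
    unfold MM.N
    rw [add_mul, mul_sub, mul_sub, S.orth, S.orth', ← S.mul, ← S.mul', mul_one, one_mul, sub_zero,
      zero_sub, ← sub_eq_add_neg]
  have h2 : S.N v f * ξ * (S.m 1 + S.m' 1) = 0 := by
    calc S.N v f * ξ * (S.m 1 + S.m' 1) =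
        S.N v f * ((S.m 1 + S.m' 1) * ξ * (S.m 1 + S.m' 1)) := by
          rw [mul_assoc (S.m 1 + S.m' 1), ← mul_assoc (S.N v f) (S.m 1 + S.m' 1), hl, ← mul_assoc]
      _ = 0 := by rw [hξ, mul_zero]
  have h3 : (S.m 1 + S.m' 1) * ξ * S.N v f = 0 := by
    calc (S.m 1 + S.m' 1) * ξ * S.N v f =
        ((S.m 1 + S.m' 1) * ξ * (S.m 1 + S.m' 1)) * S.N v f := by
          rw [mul_assoc ((S.m 1 + S.m' 1) * ξ) (S.m 1 + S.m' 1), hr]
      _ = 0 := by rw [hξ, zero_mul]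
  rw [h1, opX_apply, opX_apply]
  have h4 : S.N v f * ξ = S.N v f * ξ * (1 - S.m 1 - S.m' 1) := by
    rw [sub_sub, mul_sub, mul_one, h2, sub_zero]
  have h5 : ξ * S.N v f = (1 - S.m 1 - S.m' 1) * ξ * S.N v f := by
    rw [sub_sub, sub_mul, sub_mul, one_mul, h3, sub_zero]
  rw [h4, h5]
  unfold MM.N
  generalize 1 - S.m 1 - S.m' 1 = e
  rw [sub_mul, sub_mul, mul_sub]
  abel

theorem MM.stable [FiniteDimensional F Z] {A : Type} [AddCommGroup A]
    (T : MM F Z (AddMonoid.End A)) (h8 : 8 ≤ finrank F Z) (M : AddSubgroup A)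
    (hM : ∀ v f, f v = 0 → ∀ ξ ∈ M, T.N v f ξ ∈ M) (α : Z →ₗ[F] Z) {ξ : A} (hξ : ξ ∈ M) :
    T.m α ξ ∈ M ∧ T.m' α ξ ∈ M := by
  classical
  have hrk : ∀ (v : Z) (q : Dual F Z), T.m (rk v q) ξ ∈ M ∧ T.m' (rk v q) ξ ∈ M := by
    intro v q
    obtain ⟨w, f, h2, hv, hq⟩ := exists_pair [v] [q]
      (by simp only [List.length_cons, List.length_nil]; omega)
    obtain ⟨w1, f1, h4, hw, hq1⟩ := exists_pair [w] [q]
      (by simp only [List.length_cons, List.length_nil]; omega)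
    have h1 : f v = 0 := hv v (by simp)
    have h5 : q w = 0 := hq q (by simp)
    have h3 : f1 w = 0 := hw w (by simp)
    have h6 : q w1 = 0 := hq1 q (by simp)
    obtain ⟨a1, a2⟩ := T.form h1 h2 h3 h4 h5 h6
    rw [a1, a2]
    constructor
    · exact hM _ _ h1 _ (hM _ _ h3 _ (hM _ _ h6 _ hξ))
    · exact M.neg_mem (hM _ _ h6 _ (hM _ _ h3 _ (hM _ _ h1 _ hξ)))
  let b := Module.finBasis F Z
  have hα : α = ∑ i, rk (α (b i)) (b.coord i) := by
    refine b.ext fun j => ?_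
    rw [LinearMap.sum_apply, Finset.sum_eq_single j]
    · simp
    · intro i _ hij
      simp [hij.symm]
    · intro hj
      exact absurd (Finset.mem_univ j) hj
  rw [hα]
  refine Finset.sum_induction (fun i => rk (α (b i)) (b.coord i))
    (fun β => T.m β ξ ∈ M ∧ T.m' β ξ ∈ M) ?_ ?_ ?_
  · rintro β γ ⟨h1, h2⟩ ⟨h3, h4⟩
    rw [T.add, T.add']
    exact ⟨M.add_mem h1 h3, M.add_mem h2 h4⟩
  · rw [T.m_zero, T.m'_zero]
    exact ⟨M.zero_mem, M.zero_mem⟩
  · intro i _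
    exact hrk _ _

end Pool.Agent.Lib.MP_b9166b_al.Pt
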