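import Pool.Agent.Lib.MP_b9166b_al.Pt.Lts
import Pool.Agent.Lib.MP_b9166b_al.Pt.NsMm
import Pool.Agent.Lib.MP_b9166b_al.Pt.Simp

/-!
# MP_b9166b_al, PT: the core of (4.1)

`Y` acts irreducibly on `B` (`σ`); it has layers `ℓ j` for the spaces `C j`, `j ≤ b'`, whose root lifts commute on `B` for different `j`,
and which are all nontrivial on `B`. `hA`: two roots of a 2-system for `j` and roots of all the other layers have product `0`. The
`τ j i` are `p`-elements, commuting on `B`, `τ j i` acts trivially on the `C j'`, `j' ≠ j`, and the product over `i` of the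
`(ℓ j).a (τ j i) - 1` is not `0`. Then the product of all `σ (τ j i) - 1` is not `0`.

Proof. (1) `nofix`: the vectors of `B` fixed by all root lifts of `ℓ j` form a `Y`-stable subspace (`Rt.conj`), which is not `⊤`
(`hnt`), so it is `⊥`. (2) `TS` for every `j` (`Lay.exists_ts`), with `RelA`: `prod_remove` with `I k = {q : C k × Dual F (C k) //
q.2 q.1 = 0}`, `N k q = (S k).X q.1.1 q.1.2 - 1`, `l = List.ofFn j.succAbove`, and `hA`. (3) `exists_mm` gives `MM` for every `j`;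
`mm_one`. The `m, m'` for different `j` commute (`MM.form`). (4) `τ j i` is a unit in `End B`; `MM.equiv` for `σ (τ j i)` and
`g = (ℓ j).a (τ j i)` (`s3c_conj`), and with `g = 1` for `j' ≠ j` (`s3c_comm`). (5) `ring42` (with `b = b' + 1`).
-/

set_option autoImplicit false

namespace Pool.Agent.Lib.MP_b9166b_al.Pt

open Module
open scoped commutatorElement

section

variable {p : ℕ} {Y F K B : Type} [Group Y] [Finite Y] [Field F] [CharP F p]
  [Field K] [AddCommGroup B] [Module K B]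

omit [Finite Y] [CharP F p] in
/-- conjugates of root lifts -/
theorem s3c_conj {C : Type} [AddCommGroup C] [Module F C] (ℓ : Lay p Y F C) {v : C}
    {f : Dual F C} {g : Y} (h : ℓ.Rt v f g) (x : Y) :
    ℓ.Rt (ℓ.a x v) (f ∘ₗ ℓ.a x⁻¹) (x * g * x⁻¹) := by
  obtain ⟨h1, h2, h3⟩ := h
  refine ⟨ℓ.norm.conj_mem g h1 x, Pw.conj h2 x, ?_⟩
  rw [map_mul, map_mul, h3]
  refine LinearMap.ext fun w => ?_
  have h4 : ℓ.a x (ℓ.a x⁻¹ w) = w := by
    rw [← Module.End.mul_apply, ← map_mul, mul_inv_cancel, map_one, Module.End.one_apply]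
  rw [Module.End.mul_apply, Module.End.mul_apply]
  unfold tv
  rw [LinearMap.add_apply, LinearMap.add_apply, Module.End.one_apply, Module.End.one_apply,
    rk_apply, rk_apply, map_add, map_smul, h4]
  rfl

theorem s3_nofix {C : Type} [AddCommGroup C] [Module F C] (ℓ : Lay p Y F C)
    (σ : Y →* (B →ₗ[K] B))
    (hirr : ∀ M : Submodule K B, (∀ y, ∀ w ∈ M, σ y w ∈ M) → M = ⊥ ∨ M = ⊤)
    (hnt : ∃ v f g, f v = 0 ∧ ℓ.Rt v f g ∧ σ g ≠ 1) {b : B}
    (h : ∀ v f g, f v = 0 → ℓ.Rt v f g → σ g b = b) : b = 0 := by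
  let M : Submodule K B :=
    { carrier := {w | ∀ v f g, f v = 0 → ℓ.Rt v f g → σ g w = w}
      add_mem' := fun {x y} hx hy v f g h1 h2 => by rw [map_add, hx v f g h1 h2, hy v f g h1 h2]
      zero_mem' := fun v f g _ _ => map_zero _
      smul_mem' := fun c x hx v f g h1 h2 => by rw [map_smul, hx v f g h1 h2] }
  have hM : ∀ w, w ∈ M ↔ ∀ v f g, f v = 0 → ℓ.Rt v f g → σ g w = w := fun w => Iff.rfl
  have hst : ∀ y, ∀ w ∈ M, σ y w ∈ M := by
    intro y w hw
    rw [hM] at hw ⊢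
    intro v f g h1 h2
    have h3 := s3c_conj ℓ h2 y⁻¹
    have h4 : (f ∘ₗ ℓ.a (y⁻¹)⁻¹) (ℓ.a y⁻¹ v) = 0 := by
      rw [LinearMap.comp_apply, ← Module.End.mul_apply, ← map_mul, inv_inv, mul_inv_cancel, map_one,
        Module.End.one_apply, h1]
    have h5 := hw _ _ _ h4 h3
    have h6 : σ g (σ y w) = σ y (σ (y⁻¹ * g * (y⁻¹)⁻¹) w) := by
      rw [← Module.End.mul_apply, ← Module.End.mul_apply, ← map_mul, ← map_mul, inv_inv]
      congr 2
      group
    rw [h6, h5]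
  rcases hirr M hst with h1 | h1
  · have h2 : b ∈ M := h
    rw [h1] at h2
    exact (Submodule.mem_bot K).1 h2
  · exfalso
    obtain ⟨v, f, g, h2, h3, h4⟩ := hnt
    apply h4
    refine LinearMap.ext fun w => ?_
    have h5 : w ∈ M := h1 ▸ Submodule.mem_top
    exact h5 v f g h2 h3

/-- operators commuting with all nilpotent elements -/
theorem s3c_comm {C R : Type} [AddCommGroup C] [Module F C] [FiniteDimensional F C] [Ring R]
    (h8 : 8 ≤ finrank F C) (T : MM F C R) (r : R)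
    (h : ∀ v f, f v = 0 → r * T.N v f = T.N v f * r) (α : C →ₗ[F] C) :
    r * T.m α = T.m α * r ∧ r * T.m' α = T.m' α * r := by
  have h1 := MM.equiv h8 T (LinearEquiv.refl F C) r (by
    intro v f hv
    exact h v f hv) α
  exact h1

/-- the automorphism of the space of a layer -/
noncomputable def s3c_g {C : Type} [AddCommGroup C] [Module F C] (ℓ : Lay p Y F C) (y : Y) :
    C ≃ₗ[F] C :=
  LinearEquiv.ofLinearMap (ℓ.a y) (ℓ.a y⁻¹)
    (by rw [← Module.End.mul_eq_comp, ← map_mul, mul_inv_cancel, map_one]; rfl)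
    (by rw [← Module.End.mul_eq_comp, ← map_mul, inv_mul_cancel, map_one]; rfl)

omit [Finite Y] [CharP F p] in
theorem s3c_g_toLinearMap {C : Type} [AddCommGroup C] [Module F C] (ℓ : Lay p Y F C) (y : Y) :
    (s3c_g ℓ y).toLinearMap = ℓ.a y := rfl

omit [Finite Y] [CharP F p] in
theorem s3c_g_symm {C : Type} [AddCommGroup C] [Module F C] (ℓ : Lay p Y F C) (y : Y) :
    (s3c_g ℓ y).symm.toLinearMap = ℓ.a y⁻¹ := rfl

omit [Finite Y] [CharP F p] in
theorem s3c_g_mul {C : Type} [AddCommGroup C] [Module F C] (ℓ : Lay p Y F C) (y z : Y) :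
    s3c_g ℓ (y * z) = s3c_g ℓ y * s3c_g ℓ z := by
  apply LinearEquiv.toLinearMap_injective
  exact map_mul ℓ.a y z

omit [Finite Y] [CharP F p] in
theorem s3c_g_one {C : Type} [AddCommGroup C] [Module F C] (ℓ : Lay p Y F C) :
    s3c_g ℓ 1 = 1 := by
  apply LinearEquiv.toLinearMap_injective
  exact map_one ℓ.a

omit [Finite Y] [CharP F p] in
theorem s3c_g_pow {C : Type} [AddCommGroup C] [Module F C] (ℓ : Lay p Y F C) (y : Y) (n : ℕ) :
    s3c_g ℓ (y ^ n) = s3c_g ℓ y ^ n := by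
  induction n with
  | zero => rw [pow_zero, pow_zero, s3c_g_one]
  | succ n ih => rw [pow_succ, pow_succ, s3c_g_mul, ih]

theorem s3_core (hp : p.Prime) [Finite B] [Nontrivial B] [CharP K p] {a b' : ℕ}
    (C : Fin (b' + 1) → Type)
    [∀ j, AddCommGroup (C j)] [∀ j, Module F (C j)] [∀ j, FiniteDimensional F (C j)]
    (h8 : ∀ j, 8 ≤ finrank F (C j)) (ℓ : ∀ j, Lay p Y F (C j)) (σ : Y →* (B →ₗ[K] B))
    (hirr : ∀ M : Submodule K B, (∀ y, ∀ w ∈ M, σ y w ∈ M) → M = ⊥ ∨ M = ⊤)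
    (hT : ∀ j, ∀ t ∈ (ℓ j).T, σ t = 1)
    (hcomm : ∀ i j, i ≠ j → ∀ v f v' f' g g', f v = 0 → f' v' = 0 → (ℓ i).Rt v f g →
      (ℓ j).Rt v' f' g' → Commute (σ g) (σ g'))
    (hnt : ∀ j, ∃ v f g, f v = 0 ∧ (ℓ j).Rt v f g ∧ σ g ≠ 1)
    (hA : ∀ j v f v' f' g g', f v = 0 → f' v' = 0 → f v' = 0 → f' v = 0 →
      LinearIndependent F ![v, v'] → LinearIndependent F ![f, f'] → (ℓ j).Rt v f g →
      (ℓ j).Rt v' f' g' → ∀ (v₁ : ∀ k, C k) (f₁ : ∀ k, Dual F (C k)) (g₁ : Fin (b' + 1) → Y),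
      (∀ k, f₁ k (v₁ k) = 0) → (∀ k, (ℓ k).Rt (v₁ k) (f₁ k) (g₁ k)) →
      (σ g - 1) * (σ g' - 1) * (List.ofFn fun k => σ (g₁ (j.succAbove k)) - 1).prod = 0)
    (τ : Fin (b' + 1) → Fin a → Y) (hτp : ∀ j i, Pw p (τ j i))
    (hττ : ∀ j i j' i', Commute (σ (τ j i)) (σ (τ j' i')))
    (hcc : ∀ j i i', Commute ((ℓ j).a (τ j i)) ((ℓ j).a (τ j i')))
    (hτ0 : ∀ j i j', j ≠ j' → (ℓ j').a (τ j i) = 1)
    (hτ1 : ∀ j, (List.ofFn fun i => (ℓ j).a (τ j i) - 1).prod ≠ 0) :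
    (List.ofFn fun j => (List.ofFn fun i => σ (τ j i) - 1).prod).prod ≠ 0 := by
  -- the transvection systems
  obtain ⟨S, hS⟩ : ∃ S : ∀ j, TS F (C j) (B →ₗ[K] B), ∀ j v f g, f v = 0 → (ℓ j).Rt v f g →
      (S j).X v f = σ g := by
    choose S hS using fun j => Lay.exists_ts hp (ℓ j) σ (hT j)
    exact ⟨S, hS⟩
  have hex : ∀ j v f, f v = 0 → ∃ g, (ℓ j).Rt v f g := fun j v f h => Lay.Rt.exists (ℓ j) hp h
  have hRelA : ∀ j, (S j).RelA := by
    intro j v f v' f' h1 h2 h3 h4 h5 h6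
    obtain ⟨g, hg⟩ := hex j v f h1
    obtain ⟨g', hg'⟩ := hex j v' f' h2
    rw [hS j v f g h1 hg, hS j v' f' g' h2 hg']
    let I : Fin (b' + 1) → Type := fun k => {q : C k × Dual F (C k) // q.2 q.1 = 0}
    have hI : ∀ k, Nonempty (I k) := fun k => ⟨⟨(0, 0), map_zero _⟩⟩
    refine prod_remove (I := I) (fun k q => (S k).X q.1.1 q.1.2 - 1) _ (List.ofFn j.succAbove)
      ?_ ?_ ?_ ?_
    · exact List.nodup_ofFn.2 Fin.succAbove_right_injective
    · intro i hi q
      obtain ⟨k, rfl⟩ := List.mem_ofFn.1 hi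
      obtain ⟨x, hx⟩ := hex (j.succAbove k) q.1.1 q.1.2 q.2
      have hne : j ≠ j.succAbove k := (Fin.succAbove_ne j k).symm
      change Commute _ ((S (j.succAbove k)).X q.1.1 q.1.2 - 1)
      rw [hS _ _ _ x q.2 hx]
      have e1 := hcomm j _ hne v f q.1.1 q.1.2 g x h1 q.2 hg hx
      have e2 := hcomm j _ hne v' f' q.1.1 q.1.2 g' x h2 q.2 hg' hx
      have e3 : ∀ s : B →ₗ[K] B, Commute s (σ x) → Commute (s - 1) (σ x - 1) := fun s hs =>
        (hs.sub_left (Commute.one_left _)).sub_right (Commute.one_right _)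
      exact (e3 _ e1).mul_left (e3 _ e2)
    · intro i _ w hw
      refine s3_nofix (ℓ i) σ hirr (hnt i) ?_
      intro v₁ f₁ g₁ h7 h8
      have h9 := hw ⟨(v₁, f₁), h7⟩
      change ((S i).X v₁ f₁ - 1) w = 0 at h9
      rw [hS i v₁ f₁ g₁ h7 h8, LinearMap.sub_apply, Module.End.one_apply, sub_eq_zero] at h9
      exact h9
    · intro c
      choose g₁ hg₁ using fun k => hex k (c k).1.1 (c k).1.2 (c k).2
      have h7 := hA j v f v' f' g g' h1 h2 h3 h4 h5 h6 hg hg' (fun k => (c k).1.1)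
        (fun k => (c k).1.2) g₁ (fun k => (c k).2) hg₁
      rw [List.map_ofFn]
      have h8 : ((fun k => (S k).X (c k).1.1 (c k).1.2 - 1) ∘ j.succAbove) =
          fun k => σ (g₁ (j.succAbove k)) - 1 := by
        funext k
        change (S (j.succAbove k)).X (c (j.succAbove k)).1.1 (c (j.succAbove k)).1.2 - 1 = _
        rw [hS _ _ _ _ (c (j.succAbove k)).2 (hg₁ _)]
      rw [h8]
      exact h7
  -- pairs of representations of the matrix rings
  obtain ⟨T, hT1⟩ : ∃ T : ∀ j, MM F (C j) (B →ₗ[K] B), ∀ j v f, f v = 0 →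
      (S j).X v f = 1 + (T j).m (rk v f) - (T j).m' (rk v f) := by
    choose T hT1 using fun j => exists_mm (S j) (hRelA j) (h8 j)
    exact ⟨T, hT1⟩
  have hN : ∀ j v f g, f v = 0 → (ℓ j).Rt v f g → (T j).N v f = σ g - 1 := by
    intro j v f g h1 h2
    rw [← hS j v f g h1 h2, hT1 j v f h1, MM.N]
    abel
  have hone : ∀ j, (T j).m 1 + (T j).m' 1 = 1 := by
    intro j
    refine mm_one (T j) ?_
    intro w hw
    refine s3_nofix (ℓ j) σ hirr (hnt j) ?_
    intro v f g h1 h2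
    have h3 := hw v f h1
    rw [hN j v f g h1 h2, LinearMap.sub_apply, Module.End.one_apply, sub_eq_zero] at h3
    exact h3
  -- different ones commute
  have hNN : ∀ i j, i ≠ j → ∀ v f v' f', f v = 0 → f' v' = 0 →
      (T i).N v f * (T j).N v' f' = (T j).N v' f' * (T i).N v f := by
    intro i j hij v f v' f' h1 h2
    obtain ⟨g, hg⟩ := hex i v f h1
    obtain ⟨g', hg'⟩ := hex j v' f' h2
    rw [hN i v f g h1 hg, hN j v' f' g' h2 hg']
    exact ((hcomm i j hij v f v' f' g g' h1 h2 hg hg').sub_left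
      (Commute.one_left _)).sub_right (Commute.one_right _)
  have hmN : ∀ i j, i ≠ j → ∀ α v' f', f' v' = 0 →
      (T i).m α * (T j).N v' f' = (T j).N v' f' * (T i).m α ∧
      (T i).m' α * (T j).N v' f' = (T j).N v' f' * (T i).m' α := by
    intro i j hij α v' f' h2
    have h3 := s3c_comm (h8 i) (T i) ((T j).N v' f')
      (fun v f h1 => (hNN i j hij v f v' f' h1 h2).symm) α
    exact ⟨h3.1.symm, h3.2.symm⟩
  have hmm : ∀ i j, i ≠ j → ∀ α β, (T i).m α * (T j).m β = (T j).m β * (T i).m α ∧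
      (T i).m α * (T j).m' β = (T j).m' β * (T i).m α ∧
      (T i).m' α * (T j).m' β = (T j).m' β * (T i).m' α := by
    intro i j hij α β
    have h3 := s3c_comm (h8 j) (T j) ((T i).m α) (fun v f h1 => (hmN i j hij α v f h1).1) β
    have h4 := s3c_comm (h8 j) (T j) ((T i).m' α) (fun v f h1 => (hmN i j hij α v f h1).2) β
    exact ⟨h3.1, h3.2, h4.2⟩
  -- the elements `τ`
  have hcoe : ∀ j i, ((σ.toHomUnits (τ j i) : (B →ₗ[K] B)ˣ) : B →ₗ[K] B) = σ (τ j i) :=
    fun j i => rfl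
  have hconj : ∀ j (y : Y) v f, f v = 0 → σ y * (T j).N v f =
      (T j).N (s3c_g (ℓ j) y v) (f ∘ₗ (s3c_g (ℓ j) y).symm.toLinearMap) * σ y := by
    intro j y v f h1
    obtain ⟨g, hg⟩ := hex j v f h1
    have h2 := s3c_conj (ℓ j) hg y
    have h4 : (f ∘ₗ (ℓ j).a y⁻¹) ((ℓ j).a y v) = 0 := by
      rw [LinearMap.comp_apply, ← Module.End.mul_apply, ← map_mul, inv_mul_cancel, map_one,
        Module.End.one_apply, h1]
    have h5 := hN j _ _ _ h4 h2
    rw [s3c_g_symm]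
    change _ = (T j).N ((ℓ j).a y v) (f ∘ₗ (ℓ j).a y⁻¹) * σ y
    rw [h5, hN j v f g h1 hg, mul_sub, sub_mul, one_mul, mul_one, ← map_mul, ← map_mul,
      inv_mul_cancel_right]
  have key := ring42 hp (a := a) C T hmm hone (fun j i => σ.toHomUnits (τ j i)) ?_ ?_
    (fun j i => s3c_g (ℓ j) (τ j i)) ?_ ?_ ?_ ?_ ?_ ?_
  · exact key
  · intro j i
    obtain ⟨n, hn⟩ := hτp j i
    exact ⟨n, by rw [← map_pow, hn, map_one]⟩
  · intro j i j' i'
    exact Units.ext (hττ j i j' i')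
  · intro j i
    obtain ⟨n, hn⟩ := hτp j i
    exact ⟨n, by rw [← s3c_g_pow, hn, s3c_g_one]⟩
  · intro j i i'
    apply LinearEquiv.toLinearMap_injective
    exact hcc j i i'
  · intro j i α
    exact (MM.equiv (h8 j) (T j) (s3c_g (ℓ j) (τ j i)) (σ (τ j i)) (hconj j (τ j i)) α).1
  · intro j i α
    exact (MM.equiv (h8 j) (T j) (s3c_g (ℓ j) (τ j i)) (σ (τ j i)) (hconj j (τ j i)) α).2
  · intro j i j' hj α
    refine s3c_comm (h8 j') (T j') (σ (τ j i)) ?_ α
    intro v f h1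
    have h2 := hconj j' (τ j i) v f h1
    have h3 : s3c_g (ℓ j') (τ j i) = 1 := by
      apply LinearEquiv.toLinearMap_injective
      exact hτ0 j i j' hj
    rw [h3] at h2
    exact h2
  · intro j
    exact hτ1 j

end

end Pool.Agent.Lib.MP_b9166b_al.Pt
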