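import Pool.Agent.Lib.MP_b9166b_al.Pt.Par
import Pool.Agent.Lib.MP_b9166b_al.Pt.Ptf
import Pool.Agent.Lib.MP_b9166b_al.Pt.Ag

/-!
# MP_b9166b_al, PT: (4.1), the group `Y` and a section

`s3_R`. `R₁` normalizes `UU` (`UU_norm`), so `R₁ ⊔ UU` is a `p`-group, and it is normalized by `J`. Let `d ∈ Lv (t j)`, `r ∈ R₁`:
`⁅d, r⁆ ∈ L` and it acts as `1` on the pieces, so (`UU_dec`) `⁅d, r⁆ = u z`; `d r d⁻¹ = u r' ..`: `x = d * r * d⁻¹` is a `p`-element,
`x = (u * r) * z`, `u * r` is a `p`-element commuting with `z`, hence with `x`, so `z = (u r)⁻¹ x` is a `p`-element, `z = 1`.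

`s3_sec`. In the piece `t j` (dimension `≥ 8`) choose `e j, d j : Fin 3 → ..` with `DB`, extend `d j` by `0` (compose with `π (t j)`).
`x j` root lift of `(e j 0, d j 1)`. `Sys` for these; `Dg.all` gives `M₁, M₂` (for `⊤`). `ptf` with `c` a `Y`-series of `W`
(`exists_series`; truncated: `fun t => c.c (min t l)`), the blocks are in `Lv (t j) ≤ Y` (`rt_mem_Lv`), `T_irr`. It gives a
`Y`-irreducible section on which the product of all `ρ (x j) - 1` is not zero; so no factor is zero.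
-/

set_option autoImplicit false

namespace Pool.Agent.Lib.MP_b9166b_al.Pt

open Module
open scoped commutatorElement

variable {p : ℕ} {Γ F V : Type} [Group Γ] [Finite Γ] [Field F] [CharP F p] [AddCommGroup V]
  [Module F V] [FiniteDimensional F V]

omit [Finite Γ] in
private theorem s3r_norm {A N : Subgroup Γ} (h : ∀ y ∈ A, ∀ r ∈ N, y * r * y⁻¹ ∈ N) :
    A ≤ Subgroup.normalizer (N : Set Γ) := by
  intro y hy
  rw [Subgroup.mem_normalizer_iff]
  intro r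
  refine ⟨fun hr => h y hy r hr, fun hr => ?_⟩
  have h1 := h y⁻¹ (inv_mem hy) _ hr
  have h2 : y⁻¹ * (y * r * y⁻¹) * y⁻¹⁻¹ = r := by group
  rw [h2] at h1
  exact h1

omit [Finite Γ] in
private theorem s3r_sup {y : Γ} {R U N : Subgroup Γ} (h1 : ∀ r ∈ R, y * r * y⁻¹ ∈ N)
    (h2 : ∀ r ∈ U, y * r * y⁻¹ ∈ N) : ∀ r ∈ R ⊔ U, y * r * y⁻¹ ∈ N := by
  have h3 : R ⊔ U ≤ N.comap (MulAut.conj y).toMonoidHom := sup_le (fun r hr => h1 r hr)
    (fun r hr => h2 r hr)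
  exact fun r hr => h3 hr

omit [Finite Γ] in
private theorem s3r_pw {N : Subgroup Γ} (hN : IsPGroup p N) {g : Γ} (hg : g ∈ N) : Pw p g := by
  obtain ⟨k, hk⟩ := hN ⟨g, hg⟩
  exact ⟨k, congrArg Subtype.val hk⟩

theorem s3_R (hp : p.Prime) (ℓ : Lay p Γ F V) {b l : ℕ} (G : Grd (V →ₗ[F] V) l)
    {J R₁ : Subgroup Γ} (hJ : J ≤ ℓ.Par G) (hRJ : R₁ ≤ J) (hR : IsPGroup p R₁)
    (hRn : ∀ g ∈ J, ∀ r ∈ R₁, g * r * g⁻¹ ∈ R₁) (hR1 : ∀ r ∈ R₁, G.Fil 1 (ℓ.a r - 1))
    (t : Fin b → ℕ) : IsPGroup p (R₁ ⊔ ℓ.UU G : Subgroup Γ) ∧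
      ∀ y ∈ J ⊔ ⨆ j, ℓ.Lv G (t j), ∀ r ∈ R₁ ⊔ ℓ.UU G, y * r * y⁻¹ ∈ R₁ ⊔ ℓ.UU G := by
  have hU := ℓ.UU_pgroup G hp
  have hpg : IsPGroup p (R₁ ⊔ ℓ.UU G : Subgroup Γ) :=
    hR.to_sup_of_normal_right' hU (s3r_norm fun y hy r hr =>
      ℓ.UU_norm G hp (hJ (hRJ hy)) hr)
  refine ⟨hpg, ?_⟩
  have hJN : J ≤ Subgroup.normalizer ((R₁ ⊔ ℓ.UU G : Subgroup Γ) : Set Γ) := by
    refine s3r_norm fun y hy => s3r_sup ?_ ?_
    · exact fun r hr => Subgroup.mem_sup_left (hRn y hy r hr)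
    · exact fun r hr => Subgroup.mem_sup_right (ℓ.UU_norm G hp (hJ hy) hr)
  have hLN : ∀ j, ℓ.Lv G (t j) ≤ Subgroup.normalizer ((R₁ ⊔ ℓ.UU G : Subgroup Γ) : Set Γ) := by
    intro j
    refine s3r_norm fun d hd => s3r_sup ?_ ?_
    · intro r hr
      obtain ⟨hdL, hdP, -⟩ := (ℓ.mem_Lv G).1 hd
      have hrP := hJ (hRJ hr)
      have hdP' := (ℓ.mem_Par G).1 hdP
      have hrP' := (ℓ.mem_Par G).1 hrP
      have hc : d * r * d⁻¹ * r⁻¹ ∈ ℓ.L := by
        have h1 : d * r * d⁻¹ * r⁻¹ = d * (r * d⁻¹ * r⁻¹) := by group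
        rw [h1]
        exact mul_mem hdL (ℓ.norm.conj_mem _ (inv_mem hdL) r)
      have hf : G.Fil 1 (ℓ.a (d * r * d⁻¹ * r⁻¹) - 1) := by
        have e1 : ℓ.a d * ℓ.a d⁻¹ = 1 := by rw [← map_mul, mul_inv_cancel, map_one]
        have e2 : ℓ.a r * ℓ.a r⁻¹ = 1 := by rw [← map_mul, mul_inv_cancel, map_one]
        have h1 : ℓ.a (d * r * d⁻¹ * r⁻¹) - 1 =
            (ℓ.a d * (ℓ.a r - 1) * ℓ.a d⁻¹ + -(ℓ.a r - 1)) * ℓ.a r⁻¹ := by
          rw [map_mul, map_mul, map_mul, mul_sub, sub_mul, mul_one, e1, add_mul, sub_mul, one_mul,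
            neg_mul, sub_mul, e2, one_mul]
          abel
        rw [h1]
        have h2 := (((hdP'.1.mul G (hR1 r hr)).mul G hdP'.2).add G ((hR1 r hr).neg G)).mul G hrP'.2
        exact h2
      obtain ⟨u, hu, z, hz, huz⟩ := ℓ.UU_dec G hp hc hf
      have hzc : ∀ x : Γ, x * z = z * x := fun x => Subgroup.mem_center_iff.1 (ℓ.cen hz) x
      have hx : d * r * d⁻¹ = (u * r) * z := by
        have h1 : d * r * d⁻¹ = (d * r * d⁻¹ * r⁻¹) * r := by group
        rw [h1, huz, mul_assoc, ← hzc r, mul_assoc]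
      have hur : u * r ∈ R₁ ⊔ ℓ.UU G :=
        mul_mem (Subgroup.mem_sup_right hu) (Subgroup.mem_sup_left hr)
      have hz1 : z = 1 := by
        have h1 : z = (u * r)⁻¹ * (d * r * d⁻¹) := by rw [hx, inv_mul_cancel_left]
        have h2 : Pw p z := by
          rw [h1]
          refine (s3r_pw hpg hur).inv.mul ((s3r_pw hR hr).conj d) ?_
          rw [Commute.inv_left_iff, hx]
          exact (Commute.refl (u * r)).mul_right (hzc _)
        refine h2.eq_one ?_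
        exact Nat.Coprime.coprime_dvd_left (Subgroup.orderOf_dvd_natCard _ hz) ℓ.cop
      rw [hx, hz1, mul_one]
      exact hur
    · exact fun r hr => Subgroup.mem_sup_right (ℓ.UU_norm G hp ((ℓ.mem_Lv G).1 hd).2.1 hr)
  intro y hy r hr
  have h1 : J ⊔ ⨆ j, ℓ.Lv G (t j) ≤ Subgroup.normalizer ((R₁ ⊔ ℓ.UU G : Subgroup Γ) : Set Γ) :=
    sup_le hJN (iSup_le hLN)
  exact (Subgroup.mem_normalizer_iff.1 (h1 hy) r).1 hr

omit [CharP F p] [Finite Γ] [FiniteDimensional F V] in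
/-- independence from dual families -/
private theorem s3r_ind {E : Type} [AddCommGroup E] [Module F E] {b : ℕ} {v : Fin b → E}
    (f : Fin b → (E →ₗ[F] F)) (h : ∀ i j, f i (v j) = if i = j then 1 else 0) :
    LinearIndependent F v := by
  rw [Fintype.linearIndependent_iff]
  intro c hc i
  have h1 := congrArg (f i) hc
  rw [map_sum, map_zero] at h1
  simp only [map_smul, h, smul_eq_mul, mul_ite, mul_one, mul_zero, Finset.sum_ite_eq,
    Finset.mem_univ, if_true] at h1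
  exact h1

omit [CharP F p] [Finite Γ] in
/-- three vectors of a piece -/
private theorem s3r_three {l : ℕ} (G : Grd (V →ₗ[F] V) l) {k : ℕ}
    (h : 8 ≤ finrank F (LinearMap.range (G.π k))) :
    ∃ (e : Fin 3 → V) (d : Fin 3 → Dual F V), DB e d ∧ (∀ r, G.π k (e r) = e r) ∧
      ∀ r, d r ∘ₗ G.π k = d r := by
  let B := Module.finBasis F (LinearMap.range (G.π k))
  have h3 : 3 ≤ finrank F (LinearMap.range (G.π k)) := by omega
  have hπ : ∀ x : LinearMap.range (G.π k), G.π k (x : V) = x := by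
    rintro ⟨x, y, rfl⟩
    have h1 := LinearMap.congr_fun (G.pp k) y
    exact h1
  have hπ' : ∀ x : LinearMap.range (G.π k), (G.π k).rangeRestrict (x : V) = x := by
    intro x
    exact Subtype.ext (hπ x)
  refine ⟨fun r => (B (Fin.castLE h3 r) : V),
    fun r => B.coord (Fin.castLE h3 r) ∘ₗ (G.π k).rangeRestrict, ?_, ?_, ?_⟩
  · intro i j
    rw [LinearMap.comp_apply, hπ', Basis.coord_apply, B.repr_self, Finsupp.single_apply]
    refine if_congr ?_ rfl rfl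
    rw [Fin.castLE_inj]
    exact eq_comm
  · intro r
    exact hπ _
  · intro r
    refine LinearMap.ext fun x => ?_
    have h1 : (G.π k).rangeRestrict (G.π k x) = (G.π k).rangeRestrict x :=
      hπ' ((G.π k).rangeRestrict x)
    rw [LinearMap.comp_apply, LinearMap.comp_apply, LinearMap.comp_apply, h1]

theorem s3_sec (hp : p.Prime) {K W : Type} [Field K] [CharP K p] [AddCommGroup W] [Module K W]
    [FiniteDimensional K W] [Finite W] (ℓ : Lay p Γ F V) (ρ : Γ →* (W →ₗ[K] W)) {b l : ℕ}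
    (hdV : 2 * b < finrank F V) (hD : ℓ.Dg ρ b) (G : Grd (V →ₗ[F] V) l) (t : Fin b → ℕ)
    (htinj : Function.Injective t)
    (h8 : ∀ j, 8 ≤ finrank F (LinearMap.range (G.π (t j)))) (Y : Subgroup Γ)
    (hY : ∀ j, ℓ.Lv G (t j) ≤ Y) :
    ∃ N₁ N₂, Irr ρ Y N₁ N₂ ∧ ∀ j, ∃ (v : V) (f : Dual F V) (g : Γ), G.π (t j) v = v ∧
      f ∘ₗ G.π (t j) = f ∧ f v = 0 ∧ ℓ.Rt v f g ∧ ∃ w ∈ N₁, ρ g w - w ∉ N₂ := by
  choose e d hDB he hd using fun j => s3r_three G (h8 j)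
  have hdd : ∀ i i', i ≠ i' → ∀ r r', d i r (e i' r') = 0 := by
    intro i i' hii r r'
    rw [← hd i r, ← he i' r', LinearMap.comp_apply]
    have h1 : G.π (t i) (G.π (t i') (e i' r')) = (G.π (t i) * G.π (t i')) (e i' r') := rfl
    rw [h1, G.pne (fun h2 => hii (htinj h2)), LinearMap.zero_apply, map_zero]
  have h01 : (0 : Fin 3) ≠ 1 := by decide
  choose x hx using fun j => Lay.Rt.exists ℓ hp (v := e j 0) (f := d j 1)
    ((hDB j).ne (Ne.symm h01))
  have hall : ∀ r i j, d i r (e j r) = if i = j then 1 else 0 := by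
    intro r i j
    by_cases hij : i = j
    · subst hij
      rw [if_pos rfl, (hDB i).self]
    · rw [if_neg hij, hdd i j hij]
  have hs : Sys (fun j => e j 0) (fun j => d j 1) := by
    refine ⟨?_, ?_, ?_⟩
    · intro i j
      by_cases hij : i = j
      · subst hij
        exact (hDB i).ne (Ne.symm h01)
      · exact hdd i j hij 1 0
    · exact s3r_ind (fun j => d j 0) (hall 0)
    · refine s3r_ind (fun j => (Dual.eval F V) (e j 1)) ?_
      intro i j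
      rw [Dual.eval_apply, hall 1 j i]
      exact if_congr eq_comm rfl rfl
  obtain ⟨M₁, M₂, hM, hw⟩ := Lay.Dg.all ℓ hp ρ hdV hD hs hx
  obtain ⟨n, ⟨S⟩⟩ := exists_series ρ Y
  have hblk : ∀ i, ℓ.blk (e i) (d i) ≤ Y := by
    intro i
    refine le_trans ?_ (hY i)
    refine (Subgroup.closure_le _).2 ?_
    rintro g ⟨r, r', hrr, c, hg⟩
    refine ℓ.rt_mem_Lv G (he i r) ?_ ?_ hg
    · rw [LinearMap.smul_comp, hd]
    · rw [LinearMap.smul_apply, (hDB i).ne (Ne.symm hrr), smul_zero]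
  have hinv : ∀ k ≤ n, Inv ρ Y (S.c k) := by
    intro k hk
    rcases Nat.lt_or_ge k n with h1 | h1
    · exact (S.irr k h1).inv2
    · have h2 : k = n := le_antisymm hk h1
      rw [h2, S.top]
      exact fun g _ w _ => Submodule.mem_top
  obtain ⟨k, hk, w, hw1, hw2⟩ := ℓ.ptf hp ρ (le_refl 3) hDB hdd h01 hx
    (fun i => hM.inv1.mono le_top) (fun i => hM.inv2.mono le_top)
    (fun t ht w hw => ℓ.T_irr hp ρ le_top hM ht hw) hw (fun t => S.c (min t n)) (l := n)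
    (by rw [Nat.zero_min, S.zero]) (by rw [Nat.min_self, S.top])
    (fun t i => (hinv _ (Nat.min_le_right _ _)).mono (hblk i))
  have hw1' : w ∈ S.c (k + 1) := by
    have h1 : w ∈ S.c (min (k + 1) n) := hw1
    rwa [Nat.min_eq_left hk] at h1
  have hw2' : pr ρ (List.ofFn x) w ∉ S.c k := by
    have h1 : pr ρ (List.ofFn x) w ∉ S.c (min k n) := hw2
    rwa [Nat.min_eq_left hk.le] at h1
  refine ⟨S.c (k + 1), S.c k, S.irr k hk, fun j => ⟨e j 0, d j 1, x j, he j 0, hd j 1,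
    (hDB j).ne (Ne.symm h01), hx j, ?_⟩⟩
  by_contra hcon
  push Not at hcon
  have hxY : ∀ g ∈ List.ofFn x, g ∈ Y := by
    intro g hg
    rw [List.mem_ofFn] at hg
    obtain ⟨i, rfl⟩ := hg
    exact hblk i (ℓ.mem_blk_of_one h01 (hx i))
  obtain ⟨l₁, l₂, hl⟩ := List.append_of_mem (List.mem_ofFn.2 ⟨j, rfl⟩ : x j ∈ List.ofFn x)
  rw [hl] at hw2' hxY
  rw [pr_append, pr_cons] at hw2'
  refine hw2' ((S.irr k hk).inv2.pr (fun g hg => hxY g (List.mem_append_left _ hg)) ?_)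
  refine hcon _ ((S.irr k hk).inv1.pr (fun g hg => hxY g ?_) hw1')
  exact List.mem_append_right _ (List.mem_cons_of_mem _ hg)

end Pool.Agent.Lib.MP_b9166b_al.Pt
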