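import Pool.Agent.Lib.MP_b9166b_al.Pt.S3c
import Pool.Agent.Lib.MP_b9166b_al.Pt.S3r

/-!
# MP_b9166b_al, PT: (4.1), main step

`s3m`. `b = b' + 1`. `Y = J ⊔ ⨆ j, Lv (t j)` (contained in `Par G`, contains `UU`). `s3_sec` gives the `Y`-irreducible section `N₁, N₂`;
`R = R₁ ⊔ UU` acts trivially on it (`s3_R`, `Irr.pgroup`). Take `M₁ = N₁`, `M₂ = N₂`. Let `B = N₁ ⧸ N₂`, `π, σ` from `exists_quot`;
`σ` is irreducible, `B` is finite and nontrivial. `ℓ' j` from `exists_piece`. Apply `s3_core` for `C j = range (π (t j))`: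
`hT`: `Pc.T`. `hcomm`: root lifts can be replaced by root lifts `x, x'` of `ℓ` for `(v, f ∘ π)` (`Pc.rt`, `Rt.unique` for `ℓ' j`
and `hT`), `⁅x, x'⁆ ∈ T` (`Rt.comm`). `hnt`: from `s3_sec` with `Pc.rt`. `hA`: `s3_hA`. `hττ`: `⁅τ, τ'⁆ ∈ R₁` acts trivially on `B`;
`hcc`: `R₁` acts trivially on the pieces. `hτ0, hτ1`: `Pc.act` (the map `f ↦ ` restriction of `π f π` is multiplicative for `f` in
`Fil 0`).
`s3_hA`. If one of the `v₁ k, f₁ k` (`k ≠ j`) is `0` then `g₁ k ∈ T` acts trivially on the section. Otherwise `v, v', v₁ k` (`k = j.succAbove i`) and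
`f, f', f₁ k` (composed with `π (t k)`) are a system of size `b' + 2`; `¬ Dg (b' + 2)` and `Dg.of_irr`.
-/

set_option autoImplicit false

namespace Pool.Agent.Lib.MP_b9166b_al.Pt

open Module
open scoped commutatorElement

/-- independence of a system from idempotents -/
theorem s3v_li {F X : Type} [Field F] [AddCommGroup X] [Module F X] {b' : ℕ} (j : Fin (b' + 1))
    (P : Fin (b' + 1) → X →ₗ[F] X) {x x' : X} {y : Fin b' → X} (hx : P j x = x)
    (hx' : P j x' = x') (hy : ∀ k, P (j.succAbove k) (y k) = y k)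
    (hPP : ∀ k k', k ≠ k' → ∀ z, P k (P k' z) = 0) (hne : ∀ k, y k ≠ 0)
    (hli : LinearIndependent F ![x, x']) :
    LinearIndependent F (Fin.cons x (Fin.cons x' y) : Fin (b' + 2) → X) := by
  rw [Fintype.linearIndependent_iff]
  intro c hc
  rw [Fin.sum_univ_succ, Fin.sum_univ_succ] at hc
  simp only [Fin.cons_zero, Fin.cons_succ] at hc
  have h1 : ∀ k : Fin b', c k.succ.succ = 0 := by
    intro k
    have h2 := congrArg (P (j.succAbove k)) hc
    rw [map_add, map_add, map_zero, map_smul, map_smul, map_sum] at h2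
    have h3 : P (j.succAbove k) x = 0 := by
      rw [← hx]
      exact hPP _ _ (Fin.succAbove_ne j k) x
    have h4 : P (j.succAbove k) x' = 0 := by
      rw [← hx']
      exact hPP _ _ (Fin.succAbove_ne j k) x'
    rw [h3, h4, smul_zero, smul_zero, zero_add, zero_add] at h2
    rw [Finset.sum_eq_single k] at h2
    · rw [map_smul, hy] at h2
      exact (smul_eq_zero.1 h2).resolve_right (hne k)
    · intro k' _ hk'
      have hne' : j.succAbove k ≠ j.succAbove k' := fun h =>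
        hk' (Fin.succAbove_right_injective h).symm
      rw [map_smul, ← hy k', hPP _ _ hne', smul_zero]
    · intro h
      exact absurd (Finset.mem_univ k) h
  have h5 : c 0 • x + c (Fin.succ 0) • x' = 0 := by
    have h6 : ∑ k, c (Fin.succ (Fin.succ k)) • y k = 0 :=
      Finset.sum_eq_zero fun k _ => by rw [h1 k, zero_smul]
    rw [h6, add_zero] at hc
    exact hc
  have h7 := LinearIndependent.pair_iff.1 hli _ _ h5
  intro i
  refine Fin.cases h7.1 (fun i => ?_) i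
  exact Fin.cases h7.2 (fun i => h1 i) i

/-- a factor in `T` kills the product -/
theorem s3v_T {p : ℕ} {Γ F V K W : Type} [Group Γ] [Finite Γ] [Field F] [AddCommGroup V]
    [Module F V] [Field K] [CharP K p] [AddCommGroup W] [Module K W] [Finite W] (hp : p.Prime)
    (ℓ : Lay p Γ F V) (ρ : Γ →* (W →ₗ[K] W)) {Y : Subgroup Γ} (hTY : ℓ.T ≤ Y)
    {N₁ N₂ : Submodule K W} (hN : Irr ρ Y N₁ N₂) {L : List Γ} (hL : ∀ g ∈ L, g ∈ Y) {s : Γ}
    (hs : s ∈ L) (hsT : s ∈ ℓ.T) {w : W} (hw : w ∈ N₁) : pr ρ L w ∈ N₂ := by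
  obtain ⟨l₁, l₂, rfl⟩ := List.append_of_mem hs
  rw [pr_append, pr_cons]
  refine hN.inv2.pr (fun g hg => hL g (List.mem_append_left _ hg)) ?_
  refine ℓ.T_irr hp ρ hTY hN hsT ?_
  exact hN.inv1.pr (fun g hg => hL g (List.mem_append_right _ (List.mem_cons_of_mem _ hg))) hw

variable {p : ℕ} {Γ F V K W : Type} [Group Γ] [Finite Γ] [Field F] [CharP F p] [AddCommGroup V]
  [Module F V] [FiniteDimensional F V] [Field K] [CharP K p] [AddCommGroup W] [Module K W]
  [FiniteDimensional K W] [Finite W]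

theorem s3_hA (hp : p.Prime) (ℓ : Lay p Γ F V) (ρ : Γ →* (W →ₗ[K] W)) {b' l : ℕ}
    (hD' : ¬ ℓ.Dg ρ (b' + 2)) (G : Grd (V →ₗ[F] V) l) (t : Fin (b' + 1) → ℕ)
    (htinj : Function.Injective t) {Y : Subgroup Γ} (hTY : ℓ.T ≤ Y)
    (hY : ∀ j, ℓ.Lv G (t j) ≤ Y) {N₁ N₂ : Submodule K W} (hN : Irr ρ Y N₁ N₂)
    (j : Fin (b' + 1)) {v v' : V} {f f' : Dual F V} {g g' : Γ} (hv : G.π (t j) v = v)
    (hv' : G.π (t j) v' = v') (hf : f ∘ₗ G.π (t j) = f) (hf' : f' ∘ₗ G.π (t j) = f')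
    (h1 : f v = 0) (h2 : f' v' = 0) (h3 : f v' = 0) (h4 : f' v = 0)
    (h5 : LinearIndependent F ![v, v']) (h6 : LinearIndependent F ![f, f']) (hg : ℓ.Rt v f g)
    (hg' : ℓ.Rt v' f' g') {v₁ : Fin (b' + 1) → V} {f₁ : Fin (b' + 1) → Dual F V}
    {g₁ : Fin (b' + 1) → Γ} (h7 : ∀ k, G.π (t k) (v₁ k) = v₁ k)
    (h8 : ∀ k, f₁ k ∘ₗ G.π (t k) = f₁ k) (h9 : ∀ k, f₁ k (v₁ k) = 0)
    (h10 : ∀ k, ℓ.Rt (v₁ k) (f₁ k) (g₁ k)) {w : W} (hw : w ∈ N₁) :
    pr ρ (g :: g' :: List.ofFn fun k => g₁ (j.succAbove k)) w ∈ N₂ := by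
  have hgY : g ∈ Y := hY j (ℓ.rt_mem_Lv G hv hf h1 hg)
  have hgY' : g' ∈ Y := hY j (ℓ.rt_mem_Lv G hv' hf' h2 hg')
  have hgk : ∀ k, g₁ k ∈ Y := fun k => hY k (ℓ.rt_mem_Lv G (h7 k) (h8 k) (h9 k) (h10 k))
  have hpp : ∀ {k k' : Fin (b' + 1)}, k ≠ k' → ∀ z : V, G.π (t k) (G.π (t k') z) = 0 := by
    intro k k' hkk z
    have h := G.pne (fun h => hkk (htinj h))
    have h' := LinearMap.congr_fun h z
    rwa [Module.End.mul_apply, LinearMap.zero_apply] at h'
  by_cases hz : ∃ k, v₁ (j.succAbove k) = 0 ∨ f₁ (j.succAbove k) = 0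
  · obtain ⟨k, hk⟩ := hz
    have htv : tv (v₁ (j.succAbove k)) (f₁ (j.succAbove k)) = 1 := by
      have hrk : rk (v₁ (j.succAbove k)) (f₁ (j.succAbove k)) = 0 := by
        ext z
        rw [rk_apply, LinearMap.zero_apply]
        rcases hk with hk | hk
        · rw [hk, smul_zero]
        · rw [hk, LinearMap.zero_apply, zero_smul]
      rw [tv, hrk, add_zero]
    have hT : g₁ (j.succAbove k) ∈ ℓ.T :=
      (ℓ.mem_T hp).2 ⟨(h10 _).1, by rw [(h10 _).2.2, htv], (h10 _).2.1⟩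
    refine s3v_T hp ℓ ρ hTY hN (s := g₁ (j.succAbove k)) ?_ ?_ hT hw
    · intro x hx
      rcases List.mem_cons.1 hx with rfl | hx
      · exact hgY
      rcases List.mem_cons.1 hx with rfl | hx
      · exact hgY'
      rw [List.mem_ofFn] at hx
      obtain ⟨i, rfl⟩ := hx
      exact hgk _
    · refine List.mem_cons_of_mem _ (List.mem_cons_of_mem _ ?_)
      rw [List.mem_ofFn]
      exact ⟨k, rfl⟩
  · push Not at hz
    by_contra hcon
    apply hD'
    have hvz : ∀ k, f (v₁ (j.succAbove k)) = 0 ∧ f' (v₁ (j.succAbove k)) = 0 := by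
      intro k
      have h : G.π (t j) (v₁ (j.succAbove k)) = 0 := by
        rw [← h7]
        exact hpp (Fin.succAbove_ne j k).symm _
      constructor
      · rw [← hf, LinearMap.comp_apply, h, map_zero]
      · rw [← hf', LinearMap.comp_apply, h, map_zero]
    have hfz : ∀ k, f₁ (j.succAbove k) v = 0 ∧ f₁ (j.succAbove k) v' = 0 := by
      intro k
      constructor
      · rw [← h8, LinearMap.comp_apply, ← hv, hpp (Fin.succAbove_ne j k), map_zero]
      · rw [← h8, LinearMap.comp_apply, ← hv', hpp (Fin.succAbove_ne j k), map_zero]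
    have hfv : ∀ k k', f₁ (j.succAbove k) (v₁ (j.succAbove k')) = 0 := by
      intro k k'
      by_cases hkk : k = k'
      · rw [hkk]
        exact h9 _
      · rw [← h8, LinearMap.comp_apply, ← h7 (j.succAbove k'),
          hpp (fun h => hkk (Fin.succAbove_right_injective h)), map_zero]
    have hsys : Sys (Fin.cons v (Fin.cons v' fun k => v₁ (j.succAbove k)) : Fin (b' + 2) → V)
        (Fin.cons f (Fin.cons f' fun k => f₁ (j.succAbove k)) : Fin (b' + 2) → Dual F V) := by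
      refine ⟨?_, ?_, ?_⟩
      · intro i k
        refine Fin.cases ?_ (fun i => Fin.cases ?_ (fun i => ?_) i) i
        · refine Fin.cases ?_ (fun k => Fin.cases ?_ (fun k => ?_) k) k
          · exact h1
          · exact h3
          · exact (hvz k).1
        · refine Fin.cases ?_ (fun k => Fin.cases ?_ (fun k => ?_) k) k
          · exact h4
          · exact h2
          · exact (hvz k).2
        · refine Fin.cases ?_ (fun k => Fin.cases ?_ (fun k => ?_) k) k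
          · exact (hfz i).1
          · exact (hfz i).2
          · exact hfv i k
      · exact s3v_li j (fun k => G.π (t k)) hv hv' (fun k => h7 _)
          (fun k k' hkk z => hpp hkk z) (fun k => (hz k).1) h5
      · refine s3v_li j (fun k => (G.π (t k)).dualMap) hf hf' (fun k => h8 _)
          (fun k k' hkk z => ?_) (fun k => (hz k).2) h6
        ext x
        rw [LinearMap.dualMap_apply, LinearMap.dualMap_apply, hpp hkk.symm, map_zero,
          LinearMap.zero_apply]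
    refine Lay.Dg.of_irr ℓ ρ hN hsys
      (g := (Fin.cons g (Fin.cons g' fun k => g₁ (j.succAbove k)) : Fin (b' + 2) → Γ)) ?_ ?_ ?_
    · intro i
      refine Fin.cases ?_ (fun i => Fin.cases ?_ (fun i => ?_) i) i
      · exact hg
      · exact hg'
      · exact h10 _
    · intro i
      refine Fin.cases ?_ (fun i => Fin.cases ?_ (fun i => ?_) i) i
      · exact hgY
      · exact hgY'
      · exact hgk _
    · refine ⟨w, hw, ?_⟩
      rw [List.ofFn_succ, List.ofFn_succ]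
      exact hcon


/-- diagonal entries of a product of maps preserving the flag -/
theorem s3v_pfp {R : Type} [Ring R] {l : ℕ} (G : Grd R l) {f g : R} (hf : G.Fil 0 f)
    (hg : G.Fil 0 g) (k : ℕ) :
    G.π k * (f * g) * G.π k = (G.π k * f * G.π k) * (G.π k * g * G.π k) := by
  have h1 : ∀ x : R, G.π k * G.comp 0 x * G.π k = G.π k * x * G.π k := by
    intro x
    rw [G.entry, if_pos (Nat.add_zero k).symm]
  have h2 := G.comp_mul hf hg
  rw [Nat.add_zero] at h2
  have h3 : G.π k * (G.comp 0 f * G.comp 0 g) * G.π k =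
      (G.π k * G.comp 0 f * G.π k) * (G.π k * G.comp 0 g * G.π k) := by
    have h4 := G.comp_zero_mul f k
    calc G.π k * (G.comp 0 f * G.comp 0 g) * G.π k
        = (G.π k * G.comp 0 f) * (G.comp 0 g * G.π k) := by simp only [mul_assoc]
      _ = (G.comp 0 f * G.π k) * (G.comp 0 g * G.π k) := by rw [h4]
      _ = (G.comp 0 f * (G.π k * G.π k)) * (G.comp 0 g * G.π k) := by rw [G.pp]
      _ = (G.comp 0 f * G.π k) * (G.π k * G.comp 0 g * G.π k) := by simp only [mul_assoc]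
      _ = (G.π k * G.comp 0 f) * (G.π k * G.comp 0 g * G.π k) := by rw [h4]
      _ = (G.comp 0 f * G.π k) * (G.π k * G.comp 0 g * G.π k) := by rw [h4]
      _ = (G.comp 0 f * (G.π k * G.π k)) * (G.π k * G.comp 0 g * G.π k) := by rw [G.pp]
      _ = ((G.comp 0 f * G.π k) * G.π k) * (G.π k * G.comp 0 g * G.π k) := by
          simp only [mul_assoc]
      _ = (G.π k * G.comp 0 f * G.π k) * (G.π k * G.comp 0 g * G.π k) := by rw [h4]
  rw [← h1 (f * g), h2, h3, h1, h1]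

/-- the product of the `σ y - 1` on the quotient -/
theorem s3v_pr {Γ K W B : Type} [Group Γ] [Field K] [AddCommGroup W] [Module K W]
    [AddCommGroup B] [Module K B] (ρ : Γ →* (W →ₗ[K] W)) {Y : Subgroup Γ} {N₁ : Submodule K W}
    (h1 : Inv ρ Y N₁) (π : N₁ →ₗ[K] B) (σ : Y →* (B →ₗ[K] B))
    (hact : ∀ (g : Y) (w : N₁), σ g (π w) = π ⟨ρ g w, h1 g g.2 w w.2⟩) (l : List Y) (w : N₁) :
    ∃ h : pr ρ (l.map fun y : Y => (y : Γ)) w ∈ N₁,
      (l.map fun y : Y => σ y - 1).prod (π w) = π ⟨_, h⟩ := by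
  induction l with
  | nil =>
    refine ⟨?_, ?_⟩
    · rw [List.map_nil, pr_nil]
      exact w.2
    · rw [List.map_nil, List.prod_nil, Module.End.one_apply]
      congr 1
  | cons y l ih =>
    obtain ⟨h, h'⟩ := ih
    refine ⟨?_, ?_⟩
    · rw [List.map_cons, pr_cons]
      exact N₁.sub_mem (h1 y y.2 _ h) h
    · rw [List.map_cons, List.prod_cons, Module.End.mul_apply, h', LinearMap.sub_apply,
        Module.End.one_apply, hact, ← map_sub]
      congr 1

/-- the action on a piece of a product of the `a y - 1` -/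
theorem s3v_piece {p : ℕ} {Γ F V : Type} [Group Γ] [Field F] [AddCommGroup V] [Module F V]
    {l : ℕ} (ℓ : Lay p Γ F V) (G : Grd (V →ₗ[F] V) l) {Y : Subgroup Γ} (hY : Y ≤ ℓ.Par G) {t : ℕ}
    {ℓ' : Lay p Y F (LinearMap.range (G.π t))} (hP : ℓ.Pc G Y t ℓ') (L : List Y) :
    G.Fil 0 (L.map fun y : Y => ℓ.a y - 1).prod ∧ ∀ c : LinearMap.range (G.π t),
      (((L.map fun y : Y => ℓ'.a y - 1).prod c : LinearMap.range (G.π t)) : V) =
        (G.π t * (L.map fun y : Y => ℓ.a y - 1).prod * G.π t) c := by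
  have hπ : ∀ c : LinearMap.range (G.π t), G.π t c = c := by
    rintro ⟨_, x, rfl⟩
    exact LinearMap.congr_fun (G.pp t) x
  induction L with
  | nil =>
    refine ⟨?_, fun c => ?_⟩
    · rw [List.map_nil, List.prod_nil]
      exact G.fil_one
    · rw [List.map_nil, List.prod_nil, List.map_nil, List.prod_nil, mul_one, G.pp, hπ]
      rfl
  | cons y L ih =>
    have hy : G.Fil 0 (ℓ.a y - 1) := by
      rw [sub_eq_add_neg]
      exact ((ℓ.mem_Par G).1 (hY y.2)).1.add G (G.fil_one.neg G)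
    refine ⟨?_, fun c => ?_⟩
    · rw [List.map_cons, List.prod_cons]
      exact hy.mul G ih.1
    · have h1 : ∀ d : LinearMap.range (G.π t),
          (((ℓ'.a y - 1) d : LinearMap.range (G.π t)) : V) =
            (G.π t * (ℓ.a y - 1) * G.π t) d := by
        intro d
        rw [LinearMap.sub_apply, Module.End.one_apply, Submodule.coe_sub, hP.act,
          Module.End.mul_apply, Module.End.mul_apply, hπ, LinearMap.sub_apply,
          Module.End.one_apply, map_sub, hπ]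
      rw [List.map_cons, List.prod_cons, List.map_cons, List.prod_cons, Module.End.mul_apply, h1,
        ih.2, s3v_pfp G hy ih.1]
      rfl

theorem s3m (hp : p.Prime) (ℓ : Lay p Γ F V) (ρ : Γ →* (W →ₗ[K] W)) {a b l : ℕ} (hb : 1 ≤ b)
    (hdV : 2 * b < finrank F V) (hD : ℓ.Dg ρ b) (hD' : ¬ ℓ.Dg ρ (b + 1))
    (G : Grd (V →ₗ[F] V) l) {J R₁ : Subgroup Γ} (hJ : J ≤ ℓ.Par G) (hRJ : R₁ ≤ J)
    (hR : IsPGroup p R₁) (hRn : ∀ g ∈ J, ∀ r ∈ R₁, g * r * g⁻¹ ∈ R₁)
    (hR1 : ∀ r ∈ R₁, G.Fil 1 (ℓ.a r - 1)) (t : Fin b → ℕ) (htinj : Function.Injective t)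
    (h8 : ∀ j, 8 ≤ finrank F (LinearMap.range (G.π (t j)))) (τ : Fin b → Fin a → Γ)
    (hτJ : ∀ j i, τ j i ∈ J) (hτp : ∀ j i, Pw p (τ j i))
    (hττ : ∀ j i j' i', ⁅τ j i, τ j' i'⁆ ∈ R₁)
    (hτ0 : ∀ j i j', j ≠ j' → G.π (t j') * ℓ.a (τ j i) * G.π (t j') = G.π (t j'))
    (hτ1 : ∀ j, G.π (t j) * (List.ofFn fun i => ℓ.a (τ j i) - 1).prod * G.π (t j) ≠ 0) :
    ∃ M₁ M₂ : Submodule K W, M₂ ≤ M₁ ∧ Inv ρ J M₁ ∧ Inv ρ J M₂ ∧
      (∀ r ∈ R₁, ∀ w ∈ M₁, ρ r w - w ∈ M₂) ∧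
      ∃ w ∈ M₁, pr ρ (List.ofFn fun j => List.ofFn fun i => τ j i).flatten w ∉ M₂ := by
  obtain ⟨b', rfl⟩ : ∃ b', b = b' + 1 := ⟨b - 1, by omega⟩
  obtain ⟨Y, hYdef⟩ : ∃ Y, Y = J ⊔ ⨆ j, ℓ.Lv G (t j) := ⟨_, rfl⟩
  have hJY : J ≤ Y := by
    rw [hYdef]
    exact le_sup_left
  have hLY : ∀ j, ℓ.Lv G (t j) ≤ Y := by
    intro j
    rw [hYdef]
    exact (le_iSup (fun j => ℓ.Lv G (t j)) j).trans le_sup_right
  have hYP : Y ≤ ℓ.Par G := by
    rw [hYdef]
    exact sup_le hJ (iSup_le fun j g hg => ((ℓ.mem_Lv G).1 hg).2.1)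
  have hUY : ℓ.UU G ≤ Y := (ℓ.UU_le_Lv G hp (t 0)).trans (hLY 0)
  have hTY : ℓ.T ≤ Y := (ℓ.T_le_UU G hp).trans hUY
  obtain ⟨N₁, N₂, hN, hnt⟩ := s3_sec hp ℓ ρ hdV hD G t htinj h8 Y hLY
  obtain ⟨hRp, hRn'⟩ := s3_R hp ℓ G hJ hRJ hR hRn hR1 t
  rw [← hYdef] at hRn'
  have htriv : ∀ r ∈ R₁ ⊔ ℓ.UU G, ∀ w ∈ N₁, ρ r w - w ∈ N₂ := fun r hr w hw =>
    hN.pgroup hp hRp (sup_le (hRJ.trans hJY) hUY) hRn' hr hw
  obtain ⟨B, _, _, _, π, σ, hsur, hker, hact⟩ := exists_quot ρ Y hN.inv1 hN.inv2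
  have : Finite B := Finite.of_surjective π hsur
  have : Nontrivial B := by
    obtain ⟨w, hw, hw'⟩ := SetLike.exists_of_lt hN.lt
    exact ⟨π ⟨w, hw⟩, 0, fun h => hw' ((hker _).1 h)⟩
  have hσ : ∀ y : Y, (∀ w ∈ N₁, ρ y w - w ∈ N₂) ↔ σ y = 1 := by
    intro y
    constructor
    · intro h
      ext b
      obtain ⟨w, rfl⟩ := hsur b
      rw [hact, Module.End.one_apply, ← sub_eq_zero, ← map_sub, hker]
      exact h w w.2
    · intro h w hw
      have h1 := hact y ⟨w, hw⟩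
      rw [h, Module.End.one_apply, ← sub_eq_zero, ← map_sub, hker] at h1
      have h2 := N₂.neg_mem h1
      rw [Submodule.coe_sub, neg_sub] at h2
      exact h2
  have hσR : ∀ y : Y, (y : Γ) ∈ R₁ ⊔ ℓ.UU G → σ y = 1 := fun y hy =>
    (hσ y).1 fun w hw => htriv _ hy w hw
  have hcom : ∀ x y : Y, ⁅(x : Γ), (y : Γ)⁆ ∈ R₁ ⊔ ℓ.UU G → Commute (σ x) (σ y) := by
    intro x y h
    have h1 : σ ⁅x, y⁆ = 1 := hσR _ h
    have h2 : ⁅x, y⁆ * (y * x) = x * y := by
      rw [commutatorElement_def]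
      group
    have h3 : σ x * σ y = σ y * σ x := by
      rw [← map_mul, ← h2, map_mul, h1, one_mul, map_mul]
    exact h3
  have hirr : ∀ M : Submodule K B, (∀ y, ∀ w ∈ M, σ y w ∈ M) → M = ⊥ ∨ M = ⊤ := by
    intro M hM
    have hmem : ∀ x (hx : x ∈ N₁), x ∈ (M.comap π).map N₁.subtype ↔ π ⟨x, hx⟩ ∈ M := by
      intro x hx
      constructor
      · rintro ⟨z, hz, rfl⟩
        exact hz
      · intro h
        exact ⟨⟨x, hx⟩, h, rfl⟩
    have hle : (M.comap π).map N₁.subtype ≤ N₁ := by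
      rintro _ ⟨z, _, rfl⟩
      exact z.2
    have hi1 : Inv ρ Y ((M.comap π).map N₁.subtype) := by
      intro y hy x hx
      have hx1 := hle hx
      rw [hmem _ (hN.inv1 y hy x hx1)]
      rw [hmem _ hx1] at hx
      have h1 := hM ⟨y, hy⟩ _ hx
      rw [hact] at h1
      exact h1
    have hi2 : N₂ ≤ (M.comap π).map N₁.subtype := by
      intro x hx
      have hx1 := hN.lt.le hx
      have h0 : π ⟨x, hx1⟩ = 0 := (hker _).2 hx
      rw [hmem _ hx1, h0]
      exact M.zero_mem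
    rcases hN.irr ((M.comap π).map N₁.subtype) hi1 hi2 hle with h | h
    · left
      rw [eq_bot_iff]
      intro z hz
      obtain ⟨w, rfl⟩ := hsur z
      have h1 : (w : W) ∈ N₂ := by
        rw [← h, hmem _ w.2]
        exact hz
      rw [Submodule.mem_bot, hker]
      exact h1
    · right
      rw [eq_top_iff]
      intro z _
      obtain ⟨w, rfl⟩ := hsur z
      have h1 : (w : W) ∈ (M.comap π).map N₁.subtype := by
        rw [h]
        exact w.2
      exact (hmem _ w.2).1 h1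
  choose ℓ' hℓ' using fun j => ℓ.exists_piece G hp Y hYP (hLY j)
  have hπ : ∀ j (c : LinearMap.range (G.π (t j))), G.π (t j) c = c := by
    rintro j ⟨_, x, rfl⟩
    exact LinearMap.congr_fun (G.pp (t j)) x
  have hrr : ∀ j (c : LinearMap.range (G.π (t j))), (G.π (t j)).rangeRestrict (c : V) = c := by
    intro j c
    exact Subtype.ext (hπ j c)
  have hrπ : ∀ j (f : Dual F (LinearMap.range (G.π (t j)))),
      (f ∘ₗ (G.π (t j)).rangeRestrict) ∘ₗ G.π (t j) = f ∘ₗ (G.π (t j)).rangeRestrict := by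
    intro j f
    ext x
    have h1 : (G.π (t j)).rangeRestrict (G.π (t j) x) = (G.π (t j)).rangeRestrict x :=
      Subtype.ext (LinearMap.congr_fun (G.pp (t j)) x)
    rw [LinearMap.comp_apply, LinearMap.comp_apply, h1, LinearMap.comp_apply]
  -- replacement of root lifts
  have hrep : ∀ j (v : LinearMap.range (G.π (t j))) (f : Dual F (LinearMap.range (G.π (t j))))
      (g : Y), f v = 0 → (ℓ' j).Rt v f g → ∃ x : Y,
        ℓ.Rt (v : V) (f ∘ₗ (G.π (t j)).rangeRestrict) x ∧ σ g = σ x := by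
    intro j v f g h0 hg
    have h0' : (f ∘ₗ (G.π (t j)).rangeRestrict) (v : V) = 0 := by
      rw [LinearMap.comp_apply, hrr]
      exact h0
    obtain ⟨x, hx⟩ := Lay.Rt.exists ℓ hp h0'
    obtain ⟨hxY, hx'⟩ := (hℓ' j).rt v f x h0 hx
    refine ⟨⟨x, hxY⟩, hx, ?_⟩
    have h1 := Lay.Rt.unique (ℓ' j) hp hx' hg
    have h2 : σ ((⟨x, hxY⟩ : Y)⁻¹ * g) = 1 :=
      hσR _ (Subgroup.mem_sup_right (((hℓ' j).T _).1 h1))
    have h3 : (⟨x, hxY⟩ : Y) * ((⟨x, hxY⟩ : Y)⁻¹ * g) = g := mul_inv_cancel_left _ _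
    rw [← h3, map_mul, h2, mul_one]
  have hT : ∀ j, ∀ s ∈ (ℓ' j).T, σ s = 1 := fun j s hs =>
    hσR _ (Subgroup.mem_sup_right (((hℓ' j).T _).1 hs))
  have hcomm : ∀ i j, i ≠ j → ∀ (v : LinearMap.range (G.π (t i)))
      (f : Dual F (LinearMap.range (G.π (t i)))) (v' : LinearMap.range (G.π (t j)))
      (f' : Dual F (LinearMap.range (G.π (t j)))) (g g' : Y), f v = 0 → f' v' = 0 →
      (ℓ' i).Rt v f g → (ℓ' j).Rt v' f' g' → Commute (σ g) (σ g') := by
    intro i j hij v f v' f' g g' h0 h0' hg hg'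
    obtain ⟨x, hx, hgx⟩ := hrep i v f g h0 hg
    obtain ⟨x', hx', hgx'⟩ := hrep j v' f' g' h0' hg'
    rw [hgx, hgx']
    have hz : ∀ {i j : Fin (b' + 1)}, i ≠ j → ∀ (f : Dual F (LinearMap.range (G.π (t i))))
        (v : LinearMap.range (G.π (t j))), (f ∘ₗ (G.π (t i)).rangeRestrict) (v : V) = 0 := by
      intro i j hij f v
      have h1 : G.π (t i) (v : V) = 0 := by
        rw [← hπ j v, ← Module.End.mul_apply, G.pne (fun h => hij (htinj h)),
          LinearMap.zero_apply]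
      have h2 : (G.π (t i)).rangeRestrict (v : V) = 0 := Subtype.ext h1
      rw [LinearMap.comp_apply, h2, map_zero]
    have h1 := Lay.Rt.comm ℓ hp hx hx' (hz hij f v') (hz hij.symm f' v)
    exact hcom x x' (Subgroup.mem_sup_right (ℓ.T_le_UU G hp h1))
  have hnt' : ∀ j, ∃ (v : LinearMap.range (G.π (t j)))
      (f : Dual F (LinearMap.range (G.π (t j)))) (g : Y), f v = 0 ∧ (ℓ' j).Rt v f g ∧
        σ g ≠ 1 := by
    intro j
    obtain ⟨v, f, g, hv, hf, h0, hg, w, hw, hw'⟩ := hnt j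
    have h1 : (f ∘ₗ (LinearMap.range (G.π (t j))).subtype) ∘ₗ (G.π (t j)).rangeRestrict = f :=
      hf
    obtain ⟨hgY, hg'⟩ := (hℓ' j).rt ⟨v, v, hv⟩ (f ∘ₗ (LinearMap.range (G.π (t j))).subtype) g h0
      (by rw [h1]; exact hg)
    exact ⟨⟨v, v, hv⟩, f ∘ₗ (LinearMap.range (G.π (t j))).subtype, ⟨g, hgY⟩, h0, hg', fun h =>
      hw' ((hσ ⟨g, hgY⟩).2 h w hw)⟩
  have hA : ∀ j (v : LinearMap.range (G.π (t j))) (f : Dual F (LinearMap.range (G.π (t j))))
      (v' : LinearMap.range (G.π (t j))) (f' : Dual F (LinearMap.range (G.π (t j))))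
      (g g' : Y), f v = 0 → f' v' = 0 → f v' = 0 → f' v = 0 →
      LinearIndependent F ![v, v'] → LinearIndependent F ![f, f'] → (ℓ' j).Rt v f g →
      (ℓ' j).Rt v' f' g' → ∀ (v₁ : ∀ k, LinearMap.range (G.π (t k)))
      (f₁ : ∀ k, Dual F (LinearMap.range (G.π (t k)))) (g₁ : Fin (b' + 1) → Y),
      (∀ k, f₁ k (v₁ k) = 0) → (∀ k, (ℓ' k).Rt (v₁ k) (f₁ k) (g₁ k)) →
      (σ g - 1) * (σ g' - 1) * (List.ofFn fun k => σ (g₁ (j.succAbove k)) - 1).prod = 0 := by
    intro j v f v' f' g g' h1 h2 h3 h4 h5 h6 hg hg' v₁ f₁ g₁ h9 h10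
    obtain ⟨x, hx, hgx⟩ := hrep j v f g h1 hg
    obtain ⟨x', hx', hgx'⟩ := hrep j v' f' g' h2 hg'
    choose x₁ hx₁ hgx₁ using fun k => hrep k (v₁ k) (f₁ k) (g₁ k) (h9 k) (h10 k)
    rw [hgx, hgx']
    simp only [hgx₁]
    have hprod : (σ x - 1) * (σ x' - 1) * (List.ofFn fun k => σ (x₁ (j.succAbove k)) - 1).prod =
        ((x :: x' :: List.ofFn fun k => x₁ (j.succAbove k)).map fun y => σ y - 1).prod := by
      rw [List.map_cons, List.map_cons, List.prod_cons, List.prod_cons, List.map_ofFn, mul_assoc]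
      rfl
    rw [hprod]
    ext z
    obtain ⟨w, rfl⟩ := hsur z
    obtain ⟨h, h'⟩ := s3v_pr ρ hN.inv1 π σ hact
      (x :: x' :: List.ofFn fun k => x₁ (j.succAbove k)) w
    rw [h', LinearMap.zero_apply, hker]
    change pr ρ ((x :: x' :: List.ofFn fun k => x₁ (j.succAbove k)).map fun y : Y => (y : Γ)) w ∈ N₂
    have hlist : ((x :: x' :: List.ofFn fun k => x₁ (j.succAbove k)).map fun y : Y => (y : Γ)) =
        (x : Γ) :: (x' : Γ) :: List.ofFn fun k => ((x₁ (j.succAbove k) : Y) : Γ) := by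
      rw [List.map_cons, List.map_cons, List.map_ofFn]
      rfl
    rw [hlist]
    have hval : ∀ (k : Fin (b' + 1)) (f : Dual F (LinearMap.range (G.π (t k))))
        (v : LinearMap.range (G.π (t k))), f v = 0 →
        (f ∘ₗ (G.π (t k)).rangeRestrict) (v : V) = 0 := by
      intro k f v h0
      rw [LinearMap.comp_apply, hrr]
      exact h0
    refine s3_hA hp ℓ ρ hD' G t htinj hTY hLY hN j (v := (v : V)) (v' := (v' : V))
      (f := f ∘ₗ (G.π (t j)).rangeRestrict) (f' := f' ∘ₗ (G.π (t j)).rangeRestrict)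
      (hπ j v) (hπ j v') (hrπ j f) (hrπ j f') (hval j f v h1) (hval j f' v' h2)
      (hval j f v' h3) (hval j f' v h4) ?_ ?_ hx hx'
      (v₁ := fun k => (v₁ k : V)) (f₁ := fun k => f₁ k ∘ₗ (G.π (t k)).rangeRestrict)
      (g₁ := fun k => (x₁ k : Γ)) (fun k => hπ k (v₁ k)) (fun k => hrπ k (f₁ k))
      (fun k => hval k (f₁ k) (v₁ k) (h9 k)) (fun k => hx₁ k) w.2
    · rw [LinearIndependent.pair_iff] at h5 ⊢
      intro c d hcd
      apply h5 c d
      apply Subtype.ext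
      exact hcd
    · rw [LinearIndependent.pair_iff] at h6 ⊢
      intro c d hcd
      apply h6 c d
      ext y
      have h7 := LinearMap.congr_fun hcd (y : V)
      rw [LinearMap.add_apply, LinearMap.smul_apply, LinearMap.smul_apply, LinearMap.comp_apply,
        LinearMap.comp_apply, hrr] at h7
      exact h7
  have hcore := s3_core hp (C := fun j => LinearMap.range (G.π (t j))) h8 ℓ' σ hirr hT hcomm
    hnt' hA (fun j i => (⟨τ j i, hJY (hτJ j i)⟩ : Y)) ?_ ?_ ?_ ?_ ?_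
  · refine ⟨N₁, N₂, hN.lt.le, hN.inv1.mono hJY, hN.inv2.mono hJY,
      fun r hr w hw => htriv r (Subgroup.mem_sup_left hr) w hw, ?_⟩
    by_contra hcon
    push Not at hcon
    apply hcore
    have h1 : (List.ofFn fun j => (List.ofFn fun i =>
        σ (⟨τ j i, hJY (hτJ j i)⟩ : Y) - 1).prod).prod =
        ((List.ofFn fun j => List.ofFn fun i =>
          (⟨τ j i, hJY (hτJ j i)⟩ : Y)).flatten.map fun y => σ y - 1).prod := by
      rw [List.map_flatten, List.prod_flatten, List.map_ofFn, List.map_ofFn]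
      congr 1
      congr 1
      funext j
      simp only [Function.comp_apply]
      rw [List.map_ofFn]
      rfl
    rw [h1]
    ext z
    obtain ⟨w, rfl⟩ := hsur z
    obtain ⟨h, h'⟩ := s3v_pr ρ hN.inv1 π σ hact (List.ofFn fun j => List.ofFn fun i =>
          (⟨τ j i, hJY (hτJ j i)⟩ : Y)).flatten w
    rw [h', LinearMap.zero_apply, hker]
    have hlist : ((List.ofFn fun j => List.ofFn fun i =>
          (⟨τ j i, hJY (hτJ j i)⟩ : Y)).flatten.map fun y : Y => (y : Γ)) =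
        (List.ofFn fun j => List.ofFn fun i => τ j i).flatten := by
      rw [List.map_flatten, List.map_ofFn]
      congr 1
      congr 1
      funext j
      simp only [Function.comp_apply]
      rw [List.map_ofFn]
      rfl
    have h2 := hcon w w.2
    rw [← hlist] at h2
    exact h2
  · intro j i
    obtain ⟨n, hn⟩ := hτp j i
    exact ⟨n, Subtype.ext hn⟩
  · intro j i j' i'
    exact hcom _ _ (Subgroup.mem_sup_left (hττ j i j' i'))
  · intro j i i'
    have hc : ⁅τ j i, τ j i'⁆ ∈ R₁ := hττ j i j i'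
    have h1 : (ℓ' j).a ⁅(⟨τ j i, hJY (hτJ j i)⟩ : Y), (⟨τ j i', hJY (hτJ j i')⟩ : Y)⁆ = 1 := by
      ext c
      rw [(hℓ' j).act, Module.End.one_apply]
      have h2 := hR1 _ hc (t j) (t j) (Nat.lt_succ_self _)
      have h3 := LinearMap.congr_fun h2 (c : V)
      rw [Module.End.mul_apply, Module.End.mul_apply, hπ, LinearMap.sub_apply,
        Module.End.one_apply, map_sub, hπ, LinearMap.zero_apply, sub_eq_zero] at h3
      exact h3
    have h2 : ∀ x y : Y, ⁅x, y⁆ * (y * x) = x * y := by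
      intro x y
      rw [commutatorElement_def]
      group
    have h3 : (ℓ' j).a ⟨τ j i, hJY (hτJ j i)⟩ * (ℓ' j).a ⟨τ j i', hJY (hτJ j i')⟩ =
        (ℓ' j).a ⟨τ j i', hJY (hτJ j i')⟩ * (ℓ' j).a ⟨τ j i, hJY (hτJ j i)⟩ := by
      rw [← map_mul, ← h2, map_mul, h1, one_mul, map_mul]
    exact h3
  · intro j i j' hjj
    ext c
    rw [(hℓ' j').act, Module.End.one_apply]
    have h3 := LinearMap.congr_fun (hτ0 j i j' hjj) (c : V)
    rw [Module.End.mul_apply, Module.End.mul_apply, hπ] at h3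
    exact h3
  · intro j h0
    apply hτ1 j
    have h1 := (s3v_piece ℓ G hYP (hℓ' j)
      (List.ofFn fun i => (⟨τ j i, hJY (hτJ j i)⟩ : Y))).2
    have h2 : ((List.ofFn fun i => (⟨τ j i, hJY (hτJ j i)⟩ : Y)).map fun y =>
        (ℓ' j).a y - 1).prod = 0 := by
      rw [← h0, List.map_ofFn]
      rfl
    have h3 : ((List.ofFn fun i => (⟨τ j i, hJY (hτJ j i)⟩ : Y)).map fun y : Y =>
        ℓ.a y - 1) = List.ofFn fun i => ℓ.a (τ j i) - 1 := by
      rw [List.map_ofFn]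
      rfl
    rw [h2, h3] at h1
    ext x
    have h4 := h1 ⟨G.π (t j) x, x, rfl⟩
    have h5 : G.π (t j) (G.π (t j) x) = G.π (t j) x := LinearMap.congr_fun (G.pp (t j)) x
    have h6 : (G.π (t j) * (List.ofFn fun i => ℓ.a (τ j i) - 1).prod)
        (G.π (t j) (G.π (t j) x)) = 0 := h4.symm
    rw [h5] at h6
    exact h6

end Pool.Agent.Lib.MP_b9166b_al.Pt
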