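import Mathlib

/-!
# MP_b9166b_al, PT: the equation `t ρ - ρ t = f` (7.3)

`A j := ∑_{i<j} t^i * f * t^(j-1-i)`; `A 0 = 0`, `A (j+1) = t * A j + f * t^j = A j * t + t^j * f`, `A k = 0` (`hf`).
`solve_left`: `ρ = - ∑_{j<k} A j * lam j`; `ρ * t = - ∑_{j≥1} A j * lam (j-1) = - ∑_{j<k-1} A (j+1) * lam j`
`= - ∑_{j<k} A (j+1) * lam j` (as `A k = 0`) `= - ∑ (t * A j + f * t^j) * lam j = t * ρ - f * e`.
`solve_right`: `ρ = ∑_{j<k} t^(k-1-j) * lam (k-1) * A j`; `t * ρ = ∑_{j<k} t^(k-j) * lam (k-1) * A j =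
∑_{j<k} t^(k-1-j) * lam (k-1) * A (j+1)` (`A 0 = A k = 0`) `= ρ * t + (∑_{j<k} t^(k-1-j) * lam (k-1) * t^j) * f` and
`lam (k-1) * t^j = lam (k-1-j)`, so the bracket is `e` and `e * f = f`.
-/

set_option autoImplicit false

namespace Pool.Agent.Lib.MP_b9166b_al.Pt

open Finset

variable {R : Type} [Ring R]

/-- the partial sums -/
def sA (t f : R) (j : ℕ) : R := ∑ i ∈ range j, t ^ i * f * t ^ (j - 1 - i)

theorem sA_zero (t f : R) : sA t f 0 = 0 := by
  simp [sA]

theorem sA_succ_left (t f : R) (j : ℕ) : sA t f (j + 1) = t * sA t f j + f * t ^ j := by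
  unfold sA
  rw [Finset.sum_range_succ', Finset.mul_sum]
  have h1 : ∀ i ∈ range j, t ^ (i + 1) * f * t ^ (j + 1 - 1 - (i + 1)) =
      t * (t ^ i * f * t ^ (j - 1 - i)) := by
    intro i hi
    have h2 : j + 1 - 1 - (i + 1) = j - 1 - i := by omega
    rw [h2, pow_succ']
    simp only [mul_assoc]
  rw [Finset.sum_congr rfl h1]
  simp

theorem sA_succ_right (t f : R) (j : ℕ) : sA t f (j + 1) = sA t f j * t + t ^ j * f := by
  unfold sA
  rw [Finset.sum_range_succ, Finset.sum_mul]
  have h1 : ∀ i ∈ range j, t ^ i * f * t ^ (j + 1 - 1 - i) =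
      t ^ i * f * t ^ (j - 1 - i) * t := by
    intro i hi
    rw [Finset.mem_range] at hi
    have h2 : j + 1 - 1 - i = (j - 1 - i) + 1 := by omega
    rw [h2, pow_succ]
    simp only [mul_assoc]
  rw [Finset.sum_congr rfl h1]
  simp

theorem solve_left {t e f : R} {k : ℕ} (lam : ℕ → R) (hsum : ∑ j ∈ range k, t ^ j * lam j = e)
    (h0 : lam 0 * t = 0) (h1 : ∀ j, j + 1 < k → lam (j + 1) * t = lam j) (hfe : f * e = f)
    (hf : sA t f k = 0) :
    t * (- ∑ j ∈ range k, sA t f j * lam j) - (- ∑ j ∈ range k, sA t f j * lam j) * t = f := by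
  have hkey : (∑ j ∈ range k, sA t f j * lam j) * t =
      ∑ j ∈ range k, sA t f (j + 1) * lam j := by
    rcases k with _ | k
    · simp
    · rw [Finset.sum_mul, Finset.sum_range_succ', Finset.sum_range_succ, hf, sA_zero]
      have h2 : ∀ j ∈ range k, sA t f (j + 1) * lam (j + 1) * t = sA t f (j + 1) * lam j := by
        intro j hj
        rw [Finset.mem_range] at hj
        rw [mul_assoc, h1 j (by omega)]
      rw [Finset.sum_congr rfl h2]
      simp
  have h3 : ∑ j ∈ range k, sA t f (j + 1) * lam j =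
      t * (∑ j ∈ range k, sA t f j * lam j) + f * e := by
    rw [← hsum, Finset.mul_sum, Finset.mul_sum, ← Finset.sum_add_distrib]
    refine Finset.sum_congr rfl ?_
    intro j _
    rw [sA_succ_left, add_mul, mul_assoc, mul_assoc]
  rw [mul_neg, neg_mul, hkey, h3, hfe]
  abel

theorem solve_right {t e f : R} {k : ℕ} (lam : ℕ → R) (hsum : ∑ j ∈ range k, t ^ j * lam j = e)
    (h0 : lam 0 * t = 0) (h1 : ∀ j, j + 1 < k → lam (j + 1) * t = lam j) (hfe : e * f = f)
    (hf : sA t f k = 0) :
    t * (∑ j ∈ range k, t ^ (k - 1 - j) * lam (k - 1) * sA t f j) -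
      (∑ j ∈ range k, t ^ (k - 1 - j) * lam (k - 1) * sA t f j) * t = f := by
  rcases k with _ | k
  · simp at hsum
    rw [← hsum, zero_mul] at hfe
    simp [← hfe]
  · have hk : k + 1 - 1 = k := by omega
    rw [hk]
    -- `lam k * t ^ j = lam (k - j)`
    have hlam : ∀ j, j ≤ k → lam k * t ^ j = lam (k - j) := by
      intro j
      induction j with
      | zero => intro _; simp
      | succ j ih =>
        intro hj
        rw [pow_succ, ← mul_assoc, ih (by omega)]
        have h2 : k - j = (k - (j + 1)) + 1 := by omega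
        rw [h2, h1 _ (by omega)]
    have hbr : ∑ j ∈ range (k + 1), t ^ (k - j) * (lam k * t ^ j) = e := by
      rw [← hsum, ← Finset.sum_range_reflect]
      refine Finset.sum_congr rfl ?_
      intro j hj
      rw [Finset.mem_range] at hj
      have h2 : k + 1 - 1 - j = k - j := by omega
      have h3 : k - (k - j) = j := by omega
      rw [h2, hlam _ (by omega), h3]
    have hkey : t * (∑ j ∈ range (k + 1), t ^ (k - j) * lam k * sA t f j) =
        ∑ j ∈ range (k + 1), t ^ (k - j) * lam k * sA t f (j + 1) := by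
      rw [Finset.mul_sum, Finset.sum_range_succ', Finset.sum_range_succ _ k, hf, sA_zero]
      have h2 : ∀ j ∈ range k, t * (t ^ (k - (j + 1)) * lam k * sA t f (j + 1)) =
          t ^ (k - j) * lam k * sA t f (j + 1) := by
        intro j hj
        rw [Finset.mem_range] at hj
        have h3 : k - j = (k - (j + 1)) + 1 := by omega
        rw [h3, pow_succ']
        simp only [mul_assoc]
      rw [Finset.sum_congr rfl h2]
      simp
    have h4 : ∑ j ∈ range (k + 1), t ^ (k - j) * lam k * sA t f (j + 1) =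
        (∑ j ∈ range (k + 1), t ^ (k - j) * lam k * sA t f j) * t + e * f := by
      rw [← hbr, Finset.sum_mul, Finset.sum_mul, ← Finset.sum_add_distrib]
      refine Finset.sum_congr rfl ?_
      intro j _
      rw [sA_succ_right, mul_add]
      simp only [mul_assoc]
    rw [hkey, h4, hfe]
    abel

end Pool.Agent.Lib.MP_b9166b_al.Pt
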