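import Pool.Agent.Lib.MP_b9166b_al.Pt.Cd
import Pool.Agent.Lib.MP_b9166b_al.Ks.Lift

/-!
# MP_b9166b_al, PT: the step (7.5)

Notation: `G` a grading adapted to the series `c.c`, commuting with `ρ θ`; `R = End W`; `th = ρ θ`, `th² = 1` (`th_el`); `x = comp 0 (ρ u)`, `s₀ = comp 0 (ρ s)`,
`q = u⁻¹ θ u θ⁻¹`, `ρ q = (ρ u)⁻¹ * th * ρ u * th`.

`step_q`: `q ∈ Q^r`; `comp r (ρ q - 1)` is odd: `stepA_f`, `stepA_odd`, `stepA_comm`. `stepA_nil` (with `h2` as `p ≠ 2`).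
`step_w`: `stepB` for `S.res ι κ`, `u_Z = κ (a u) ι` (a unit, inverse `κ (a u⁻¹) ι`), `x` (a unit, `comp_inv`; `(x - 1)^k = comp 0 ((ρ u - 1)^k)`), `M = Mr`
(`Gm.conj`, `Mr_N`, `Mr_conj`), and `f = -(x * comp r (ρ q - 1)) = comp r (ρ u - th * ρ u * th)`. It gives `w ∈ M` with `comp r (ρ q - 1) = x w x⁻¹ - w`.
`step_avg`: `s` commutes with `u, θ`, so `s₀` commutes with `x`, `th`, `comp r (ρ q - 1)`. `n = orderOf s`, `A ξ = s₀ ξ s₀⁻¹`, `A^n = 1`. With an integer `n'` such that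
`n n' ≡ 1` mod `p`: `w' = n' • ∑_{i<n} A^i w ∈ M` is fixed by `A`, and again `comp r (ρ q - 1) = x w' x⁻¹ - w'`.
`step_lift`: `w = comp r (ρ t - 1)`, `t ∈ Q^r`. `⁅t, s⁆ ∈ Q^(r+1)` as `s₀` commutes with `w`. `Ks.exists_commute_mul` for the normal `p`-subgroup `Q^(r+1)` of `Γ`
(`(Nat.card Q).Coprime (orderOf s)`) gives `t' = t * t₁`, `t₁ ∈ Q^(r+1)`, commuting with `s`, with the same symbol.
`step_new`: `θ' = t⁻¹ θ t`, `μ = comp r (ρ t - 1)` odd. Modulo `Fil (r+1)`: `ρ θ' = (1 - μ) th (1 + μ) = th (1 + 2 μ)`, `ρ θ'⁻¹ = (1 - 2 μ) th`,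
`ρ (u⁻¹ θ' u θ'⁻¹) = ρ u⁻¹ th ρ u (1 + 2 x⁻¹ μ x) (1 - 2 μ) th = (1 + q_r) th (1 + 2 (x⁻¹ μ x - μ)) th = 1 + q_r - 2 (x⁻¹ μ x - μ)` (`x⁻¹ μ x - μ` is odd).
`step`: with `w` from `step_avg` take `μ = j • (x w x⁻¹)`, `2 j ≡ -1` mod `p`: `2 (μ - x⁻¹ μ x) = - (x w x⁻¹ - w) = - q_r`, `μ ∈ M` commutes with `s₀`; `step_lift` for `μ`,
`step_new`.
-/

set_option autoImplicit false

namespace Pool.Agent.Lib.MP_b9166b_al.Pt

open Module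
open scoped commutatorElement

variable {p : ℕ} (hp : p.Prime) (hp2 : p ≠ 2) {Γ F V K W Z : Type} [Group Γ] [Finite Γ] [Field F]
  [CharP F p] [AddCommGroup V] [Module F V] [FiniteDimensional F V] [Field K] [CharP K p]
  [AddCommGroup W] [Module K W] [FiniteDimensional K W] [Finite W] [AddCommGroup Z] [Module F Z]
  {ℓ : Lay p Γ F V} {ρ : Γ →* (W →ₗ[K] W)} {ι : Z →ₗ[F] V} {κ : V →ₗ[F] Z} {u s : Γ} {k l : ℕ}
  {c : Series ρ ⊤ l}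

include hp hp2

omit [Finite Γ] [CharP F p] [FiniteDimensional F V] [CharP K p] [FiniteDimensional K W]
  [Finite W] hp hp2 in
/-- `Γ` preserves the filtration -/
private theorem stN_fil {G : Grd (W →ₗ[K] W) l} (hG : Adp G c.c) (g : Γ) : G.Fil 0 (ρ g) := by
  rw [hG.fil]
  intro i hi w hw
  rw [Nat.sub_zero]
  rcases Nat.lt_or_ge i l with h1 | h1
  · exact (c.irr i h1).inv2 g (Subgroup.mem_top g) w hw
  · have h2 : i = l := le_antisymm hi h1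
    rw [h2, c.top]
    exact Submodule.mem_top

omit [Finite Γ] [CharP F p] [FiniteDimensional F V] [CharP K p] [FiniteDimensional K W]
  [Finite W] hp hp2 in
/-- the symbol of a product -/
private theorem stN_mul {G : Grd (W →ₗ[K] W) l} {r : ℕ} (hr : 0 < r) {g g' : Γ}
    (h : G.Fil r (ρ g - 1)) (h' : G.Fil r (ρ g' - 1)) :
    G.comp r (ρ (g * g') - 1) = G.comp r (ρ g - 1) + G.comp r (ρ g' - 1) := by
  have h1 : ρ (g * g') - 1 = (ρ g - 1) * (ρ g' - 1) + ((ρ g - 1) + (ρ g' - 1)) := by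
    rw [map_mul]
    noncomm_ring
  rw [h1, G.comp_add, G.comp_add, G.comp_eq_zero (h.mul G h') (by omega), zero_add]

omit [Finite Γ] [CharP F p] [FiniteDimensional F V] [CharP K p] [FiniteDimensional K W]
  [Finite W] hp hp2 in
/-- the symbol of a conjugate -/
private theorem stN_conj {G : Grd (W →ₗ[K] W) l} (hG : Adp G c.c) {r : ℕ} {g : Γ}
    (h : G.Fil r (ρ g - 1)) (x : Γ) :
    G.comp r (ρ (x * g * x⁻¹) - 1) =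
      G.comp 0 (ρ x) * G.comp r (ρ g - 1) * G.comp 0 (ρ x⁻¹) := by
  have h0 : ρ x * ρ x⁻¹ = 1 := by rw [← map_mul, mul_inv_cancel, map_one]
  have h1 : ρ (x * g * x⁻¹) - 1 = ρ x * (ρ g - 1) * ρ x⁻¹ := by
    rw [map_mul, map_mul, mul_sub, mul_one, sub_mul, h0]
  have h2 := G.comp_mul (stN_fil hG x) h
  rw [zero_add] at h2
  have h3 : G.Fil r (ρ x * (ρ g - 1)) := by
    have h4 := (stN_fil hG x).mul G h
    rwa [zero_add] at h4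
  have h5 := G.comp_mul h3 (stN_fil hG x⁻¹)
  rw [add_zero, h2] at h5
  rw [h1, h5]

omit [Finite Γ] [CharP F p] [FiniteDimensional F V] [CharP K p] [FiniteDimensional K W]
  [Finite W] hp hp2 in
private theorem stN_one {G : Grd (W →ₗ[K] W) l} {r : ℕ} : G.comp r (ρ (1 : Γ) - 1) = 0 := by
  rw [map_one, sub_self, Grd.comp]
  exact Finset.sum_eq_zero fun j _ => by rw [mul_zero, zero_mul]

omit hp2 in
/-- the symbol of the inverse -/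
private theorem stN_inv {G : Grd (W →ₗ[K] W) l} (hG : Adp G c.c) {r : ℕ} (hr : 0 < r) {g : Γ}
    (h : g ∈ ℓ.Qr ρ c.c l r) : G.comp r (ρ g⁻¹ - 1) = -G.comp r (ρ g - 1) := by
  have h1 := stN_mul (ρ := ρ) hr ((mem_Qr_fil hp hG).1 h).2 ((mem_Qr_fil hp hG).1 (inv_mem h)).2
  rw [mul_inv_cancel, stN_one] at h1
  exact (neg_eq_of_add_eq_zero_right h1.symm).symm

omit hp2 in
/-- elements with symbol zero -/
private theorem stN_succ {G : Grd (W →ₗ[K] W) l} (hG : Adp G c.c) {r : ℕ} {g : Γ}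
    (h : g ∈ ℓ.Qr ρ c.c l r) (h0 : G.comp r (ρ g - 1) = 0) : g ∈ ℓ.Qr ρ c.c l (r + 1) := by
  obtain ⟨h1, h2⟩ := (mem_Qr_fil hp hG).1 h
  exact (mem_Qr_fil hp hG).2 ⟨h1, h2.succ G h0⟩

omit hp2 in
private theorem stN_sq (h : Cd ℓ ρ ι κ u s k) {θ : Γ} (hθ : Tl ℓ ι κ s θ) : θ * θ = 1 := by
  have he : (ι ∘ₗ κ) * (ι ∘ₗ κ) = ι ∘ₗ κ := by
    have h1 : (ι ∘ₗ κ) * (ι ∘ₗ κ) = ι ∘ₗ (κ ∘ₗ ι) ∘ₗ κ := rfl
    rw [h1, h.κι]
    rfl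
  have h1 : ℓ.a (θ * θ) = 1 := by
    rw [map_mul, hθ.a, th]
    have h2 : (1 - ι ∘ₗ κ - ι ∘ₗ κ) * (1 - ι ∘ₗ κ - ι ∘ₗ κ) =
        1 + (4 : ℤ) • ((ι ∘ₗ κ) * (ι ∘ₗ κ) - ι ∘ₗ κ) := by noncomm_ring
    rw [h2, he, sub_self, smul_zero, add_zero]
  have h2 := El_ker hp ℓ ρ (Cd.h8V hp h) h.hD h.hZ (mul_mem hθ.el hθ.el) h1
  have h3 := ((ℓ.mem_T hp).1 h2).2.2
  refine h3.eq_one (Nat.Coprime.coprime_dvd_left ?_ hθ.cop)
  rw [← pow_two]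
  exact orderOf_pow_dvd 2

omit hp2 in
theorem step_lift (h : Cd ℓ ρ ι κ u s k) {r : ℕ} (hr : 0 < r) {G : Grd (W →ₗ[K] W) l}
    (hG : Adp G c.c) {t : Γ} (ht : t ∈ ℓ.Qr ρ c.c l r)
    (hs : G.comp 0 (ρ s) * G.comp r (ρ t - 1) = G.comp r (ρ t - 1) * G.comp 0 (ρ s)) :
    ∃ t' ∈ ℓ.Qr ρ c.c l r, G.comp r (ρ t' - 1) = G.comp r (ρ t - 1) ∧ Commute t' s := by
  have hN : (ℓ.Qr ρ c.c l (r + 1)).Normal := ⟨fun n hn x => Qr_conj hp hn x⟩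
  have hle : ℓ.Qr ρ c.c l (r + 1) ≤ ℓ.Qr ρ c.c l r := by
    intro g hg
    obtain ⟨h1, h2⟩ := (mem_Qr_fil hp hG).1 hg
    exact (mem_Qr_fil hp hG).2 ⟨h1, h2.mono G (Nat.le_succ r)⟩
  have hpg : IsPGroup p (ℓ.Qr ρ c.c l (r + 1)) := by
    rintro ⟨g, hg⟩
    obtain ⟨j, hj⟩ := ((ℓ.mem_T hp).1 ((mem_Qr_fil hp hG).1 hg).1).2.2
    exact ⟨j, Subtype.ext hj⟩
  have hfp : Fact p.Prime := ⟨hp⟩
  have hcard : (Nat.card (ℓ.Qr ρ c.c l (r + 1))).Coprime (orderOf s) := by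
    obtain ⟨n, hn⟩ := IsPGroup.iff_card.1 hpg
    rw [hn]
    exact (h.ps.pow_right n).symm
  have hts : s * t⁻¹ * s⁻¹ ∈ ℓ.Qr ρ c.c l r := Qr_conj hp (inv_mem ht) s
  have hcom : ⁅t, s⁆ = t * (s * t⁻¹ * s⁻¹) := by
    rw [commutatorElement_def]
    group
  have hmem : ⁅t, s⁆ ∈ ℓ.Qr ρ c.c l (r + 1) := by
    rw [hcom]
    refine stN_succ hp hG (mul_mem ht hts) ?_
    rw [stN_mul hr ((mem_Qr_fil hp hG).1 ht).2 ((mem_Qr_fil hp hG).1 hts).2,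
      stN_conj hG ((mem_Qr_fil hp hG).1 (inv_mem ht)).2, stN_inv hp hG hr ht, mul_neg, hs, neg_mul,
      mul_assoc]
    have h1 := G.comp_mul (stN_fil hG s) (stN_fil hG s⁻¹)
    rw [← map_mul, mul_inv_cancel, map_one, add_zero, G.comp_one] at h1
    rw [← h1, mul_one, add_neg_cancel]
  obtain ⟨t₁, ht₁, hc⟩ := Ks.exists_commute_mul (ℓ.Qr ρ c.c l (r + 1)) hcard hmem
  refine ⟨t * t₁, mul_mem ht (hle ht₁), ?_, hc⟩
  rw [stN_mul hr ((mem_Qr_fil hp hG).1 ht).2 ((mem_Qr_fil hp hG).1 (hle ht₁)).2,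
    G.comp_eq_zero ((mem_Qr_fil hp hG).1 ht₁).2 (Nat.lt_succ_self r), add_zero]

theorem step_new (h : Cd ℓ ρ ι κ u s k) {θ : Γ} (hθ : Tl ℓ ι κ s θ) {r : ℕ} (hr : 0 < r)
    (hq : u⁻¹ * θ * u * θ⁻¹ ∈ ℓ.Qr ρ c.c l r) {G : Grd (W →ₗ[K] W) l} (hG : Adp G c.c)
    (hGθ : ∀ i, ρ θ * G.π i = G.π i * ρ θ) {t : Γ} (ht : t ∈ ℓ.Qr ρ c.c l r)
    (hodd : ρ θ * G.comp r (ρ t - 1) * ρ θ = - G.comp r (ρ t - 1))
    (hqt : G.comp r (ρ (u⁻¹ * θ * u * θ⁻¹) - 1) = 2 * (G.comp 0 (ρ u⁻¹) * G.comp r (ρ t - 1) *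
      G.comp 0 (ρ u) - G.comp r (ρ t - 1))) :
    u⁻¹ * (t⁻¹ * θ * t) * u * (t⁻¹ * θ * t)⁻¹ ∈ ℓ.Qr ρ c.c l (r + 1) := by
  have hθ2 := stN_sq hp h hθ
  have hθi : θ⁻¹ = θ := inv_eq_of_mul_eq_one_right hθ2
  have hthθ : ρ θ * ρ θ = 1 := by rw [← map_mul, hθ2, map_one]
  have hF : ∀ g ∈ ℓ.Qr ρ c.c l r, G.Fil r (ρ g - 1) := fun g hg => ((mem_Qr_fil hp hG).1 hg).2
  obtain ⟨q, hqd⟩ : ∃ q : Γ, q = u⁻¹ * θ * u * θ⁻¹ := ⟨_, rfl⟩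
  rw [← hqd] at hq hqt
  obtain ⟨tu, htu⟩ : ∃ tu : Γ, tu = u⁻¹ * t * u := ⟨_, rfl⟩
  have htuQ : tu ∈ ℓ.Qr ρ c.c l r := by
    have h1 := Qr_conj hp ht u⁻¹
    rwa [inv_inv, ← htu] at h1
  have hθ0 : G.comp 0 (ρ θ) = ρ θ := G.comp_of_comm hGθ
  -- `ρ θ` commutes with `comp 0 (ρ u)`
  obtain ⟨x, hx⟩ : ∃ x : W →ₗ[K] W, x = G.comp 0 (ρ u) := ⟨_, rfl⟩
  obtain ⟨y, hy⟩ : ∃ y : W →ₗ[K] W, y = G.comp 0 (ρ u⁻¹) := ⟨_, rfl⟩
  obtain ⟨μ, hμ⟩ : ∃ μ : W →ₗ[K] W, μ = G.comp r (ρ t - 1) := ⟨_, rfl⟩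
  have hxy : x * y = 1 := by
    have h1 := G.comp_mul (stN_fil hG u) (stN_fil hG u⁻¹)
    rw [← map_mul, mul_inv_cancel, map_one, add_zero, G.comp_one] at h1
    rw [hx, hy, ← h1]
  have hyx : y * x = 1 := by
    have h1 := G.comp_mul (stN_fil hG u⁻¹) (stN_fil hG u)
    rw [← map_mul, inv_mul_cancel, map_one, add_zero, G.comp_one] at h1
    rw [hx, hy, ← h1]
  have hyθx : y * ρ θ * x = ρ θ := by
    have h1 : G.comp 0 (ρ q) = 1 := by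
      have h2 : ρ q = (ρ q - 1) + 1 := by abel
      rw [h2, G.comp_add, G.comp_eq_zero (hF q hq) hr, zero_add, G.comp_one]
    have h2 : ρ (q * θ) = ρ u⁻¹ * ρ θ * ρ u := by
      rw [hqd, ← map_mul, ← map_mul]
      congr 1
      group
    have h3 := G.comp_mul (stN_fil hG q) (stN_fil hG θ)
    rw [← map_mul, h2, h1, one_mul, add_zero, hθ0] at h3
    have h4 : G.Fil 0 (ρ u⁻¹ * ρ θ) := by
      rw [← map_mul]
      exact stN_fil hG _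
    have h5 := G.comp_mul h4 (stN_fil hG u)
    have h6 := G.comp_mul (stN_fil hG u⁻¹) (stN_fil hG θ)
    rw [add_zero] at h5 h6
    rw [h5, h6, hθ0, ← hx, ← hy] at h3
    exact h3
  have hθx : ρ θ * x = x * ρ θ := by
    have h1 : x * (y * ρ θ * x) = x * ρ θ := by rw [hyθx]
    rw [← mul_assoc, ← mul_assoc, hxy, one_mul] at h1
    exact h1
  have hθy : ρ θ * y = y * ρ θ := by
    have h1 : y * (ρ θ * x) * y = y * (x * ρ θ) * y := by rw [hθx]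
    rw [← mul_assoc, ← mul_assoc, hyx, one_mul, mul_assoc, hxy, mul_one] at h1
    exact h1.symm
  have hμθ : ρ θ * μ * ρ θ = -μ := by
    rw [hμ]
    exact hodd
  -- the symbols
  have s1 : G.comp r (ρ tu - 1) = y * μ * x := by
    have h1 := stN_conj hG (hF t ht) u⁻¹
    rw [inv_inv, ← htu, ← hx, ← hy, ← hμ] at h1
    exact h1
  have hν : tu * t⁻¹ ∈ ℓ.Qr ρ c.c l r := mul_mem htuQ (inv_mem ht)
  have s2 : G.comp r (ρ (tu * t⁻¹) - 1) = y * μ * x - μ := by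
    rw [stN_mul hr (hF _ htuQ) (hF _ (inv_mem ht)), s1, stN_inv hp hG hr ht, ← hμ,
      sub_eq_add_neg]
  have s3 : G.comp r (ρ (θ * (tu * t⁻¹) * θ⁻¹) - 1) = -(y * μ * x - μ) := by
    rw [stN_conj hG (hF _ hν), hθi, hθ0, s2, mul_sub, sub_mul, hμθ]
    have h1 : ρ θ * (y * μ * x) * ρ θ = y * (ρ θ * μ * ρ θ) * x := by
      calc ρ θ * (y * μ * x) * ρ θ = (ρ θ * y) * μ * (x * ρ θ) := by noncomm_ring
        _ = (y * ρ θ) * μ * (ρ θ * x) := by rw [hθy, hθx]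
        _ = y * (ρ θ * μ * ρ θ) * x := by noncomm_ring
    rw [h1, hμθ]
    noncomm_ring
  have hcQ : θ * (tu * t⁻¹) * θ⁻¹ ∈ ℓ.Qr ρ c.c l r := Qr_conj hp hν θ
  -- the new element
  have hnew : u⁻¹ * (t⁻¹ * θ * t) * u * (t⁻¹ * θ * t)⁻¹ =
      tu⁻¹ * (q * ((θ * (tu * t⁻¹) * θ⁻¹) * t)) := by
    rw [htu, hqd]
    group
  rw [hnew]
  have m1 := mul_mem hcQ ht
  have m2 := mul_mem hq m1
  have m3 := mul_mem (inv_mem htuQ) m2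
  refine stN_succ hp hG m3 ?_
  rw [stN_mul hr (hF _ (inv_mem htuQ)) (hF _ m2), stN_mul hr (hF _ hq) (hF _ m1),
    stN_mul hr (hF _ hcQ) (hF _ ht), stN_inv hp hG hr htuQ, s1, s3, hqt, ← hμ, ← hx, ← hy]
  noncomm_ring

end Pool.Agent.Lib.MP_b9166b_al.Pt
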