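import Pool.Agent.Lib.MP_b9166b_al.Pt.Grd
import Pool.Agent.Lib.MP_b9166b_al.Pt.Solve

/-!
# MP_b9166b_al, PT: (7.1)

`θ² = 1`, `θ` of degree 0, `u` a filtered unit, `q = u⁻¹ θ u θ`, `q - 1` lowers the degree by `≥ r ≥ 1`,
`(u - 1)^k = 0`. Let `f = comp r (u - θ u θ)`.
`θ u θ = u q`, so `comp 0 (θ u θ) = comp 0 u * comp 0 q = comp 0 u` (`comp 0 q = 1 + comp 0 (q-1) = 1`), and
`comp 0 (θ u θ) = θ (comp 0 u) θ`: `stepA_comm`. `u - θ u θ = - u (q - 1)`: `stepA_f`. `θ f θ = - f`.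
`stepA_nil`: `A = u + θ u θ - 2`, `B = u - θ u θ` (`Fil r`); `A + B = 2 (u - 1)`, `A - B = θ (A + B) θ`; so
`(A + B)^k = 0 = (A - B)^k`. By induction on `n`, if `A` is `Fil 0` and `B` is `Fil r`, `r ≥ 1`:
`(A + B)^n - A^n` is `Fil r`, and `comp r ((A + B)^n) = comp r (A^n) + ∑_{i<n} A₀^i * comp r B * A₀^(n-1-i)`, `A₀ = comp 0 A
= 2 t` with `t = comp 0 u - 1`. Subtract the formulas for `B` and `-B` and divide by `2^k` (`h2`).
-/

set_option autoImplicit false

namespace Pool.Agent.Lib.MP_b9166b_al.Pt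

open Finset

variable {R : Type} [Ring R] {l : ℕ} (G : Grd R l)

theorem stepA_sA_succ (t f : R) (n : ℕ) : sA t f (n + 1) = sA t f n * t + t ^ n * f := by
  unfold sA
  rw [sum_range_succ, sum_mul]
  congr 1
  · refine sum_congr rfl fun i hi => ?_
    rw [mem_range] at hi
    have e : n + 1 - 1 - i = (n - 1 - i) + 1 := by omega
    rw [e, pow_succ, ← mul_assoc]
  · have e : n + 1 - 1 - n = 0 := by omega
    rw [e, pow_zero, mul_one]

theorem comp_pow {r : ℕ} (hr : 0 < r) {A B : R} (hA : G.Fil 0 A) (hB : G.Fil r B) (n : ℕ) :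
    G.comp r ((A + B) ^ n) = G.comp r (A ^ n) + sA (G.comp 0 A) (G.comp r B) n := by
  have hAB : G.Fil 0 (A + B) := Grd.Fil.add G hA (Grd.Fil.mono G hB (Nat.zero_le r))
  have hc0 : G.comp 0 (A + B) = G.comp 0 A := by
    rw [Grd.comp_add, Grd.comp_eq_zero G hB hr, add_zero]
  have key : G.Fil 0 ((A + B) ^ n) ∧ G.Fil r ((A + B) ^ n - A ^ n) ∧
      G.comp 0 ((A + B) ^ n) = G.comp 0 A ^ n ∧
      G.comp r ((A + B) ^ n) = G.comp r (A ^ n) + sA (G.comp 0 A) (G.comp r B) n := by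
    induction n with
    | zero =>
      refine ⟨?_, ?_, ?_, ?_⟩
      · rw [pow_zero]
        exact Grd.fil_one G
      · rw [pow_zero, pow_zero, sub_self]
        intro i j _
        rw [mul_zero, zero_mul]
      · rw [pow_zero, pow_zero, Grd.comp_one]
      · rw [pow_zero, pow_zero]
        unfold sA
        rw [range_zero, sum_empty, add_zero]
    | succ n ih =>
      obtain ⟨h1, h2, h3, h4⟩ := ih
      have e1 : (A + B) ^ (n + 1) =
          A ^ (n + 1) + (((A + B) ^ n - A ^ n) * A + (A + B) ^ n * B) := by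
        rw [pow_succ, pow_succ, mul_add, sub_mul]
        abel
      have hD : G.Fil r (((A + B) ^ n - A ^ n) * A) := by
        have h := Grd.Fil.mul G h2 hA
        rwa [add_zero] at h
      have hX : G.Fil r ((A + B) ^ n * B) := by
        have h := Grd.Fil.mul G h1 hB
        rwa [zero_add] at h
      refine ⟨?_, ?_, ?_, ?_⟩
      · rw [pow_succ]
        exact Grd.Fil.mul G h1 hAB
      · rw [e1, add_sub_cancel_left]
        exact Grd.Fil.add G hD hX
      · rw [pow_succ, pow_succ]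
        have h := Grd.comp_mul G h1 hAB
        rw [add_zero] at h
        rw [h, h3, hc0]
      · have hD' : G.comp r (((A + B) ^ n - A ^ n) * A) =
            sA (G.comp 0 A) (G.comp r B) n * G.comp 0 A := by
          have h := Grd.comp_mul G h2 hA
          rw [add_zero] at h
          rw [h, sub_eq_add_neg, Grd.comp_add, Grd.comp_neg, h4]
          congr 1
          abel
        have hX' : G.comp r ((A + B) ^ n * B) = G.comp 0 A ^ n * G.comp r B := by
          have h := Grd.comp_mul G h1 hB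
          rw [zero_add] at h
          rw [h, h3]
        rw [e1, Grd.comp_add, Grd.comp_add, hD', hX', stepA_sA_succ]
  exact key.2.2.2

variable {θ : R} {u : Rˣ} {r k : ℕ}

/-- `comp 0 u` is invertible -/
theorem comp_inv (hu : G.Fil 0 (u : R)) (hu' : G.Fil 0 ((u⁻¹ : Rˣ) : R)) :
    G.comp 0 ((u⁻¹ : Rˣ) : R) * G.comp 0 (u : R) = 1 ∧
      G.comp 0 (u : R) * G.comp 0 ((u⁻¹ : Rˣ) : R) = 1 := by
  constructor
  · have h := Grd.comp_mul G hu' hu
    rw [add_zero] at h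
    rw [← h, Units.inv_mul, Grd.comp_one]
  · have h := Grd.comp_mul G hu hu'
    rw [add_zero] at h
    rw [← h, Units.mul_inv, Grd.comp_one]

theorem stepA_conj : θ * (u : R) * θ = (u : R) * (((u⁻¹ : Rˣ) : R) * θ * u * θ) := by
  rw [← mul_assoc, ← mul_assoc, ← mul_assoc, Units.mul_inv, one_mul]

theorem stepA_c0 (hr : 0 < r) (hu : G.Fil 0 (u : R))
    (hq : G.Fil r (((u⁻¹ : Rˣ) : R) * θ * u * θ - 1)) :
    G.comp 0 (θ * (u : R) * θ) = G.comp 0 (u : R) := by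
  have e : ((u⁻¹ : Rˣ) : R) * θ * u * θ = 1 + (((u⁻¹ : Rˣ) : R) * θ * u * θ - 1) := by abel
  have hq0 : G.Fil 0 (((u⁻¹ : Rˣ) : R) * θ * u * θ) := by
    rw [e]
    exact Grd.Fil.add G (Grd.fil_one G) (Grd.Fil.mono G hq (Nat.zero_le r))
  have hc : G.comp 0 (((u⁻¹ : Rˣ) : R) * θ * u * θ) = 1 := by
    rw [e, Grd.comp_add, Grd.comp_one, Grd.comp_eq_zero G hq hr, add_zero]
  have h := Grd.comp_mul G hu hq0
  rw [add_zero, ← stepA_conj, hc, mul_one] at h
  exact h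

theorem stepA_comm (hθ : θ * θ = 1) (hπ : ∀ i, θ * G.π i = G.π i * θ) (hr : 0 < r)
    (hu : G.Fil 0 (u : R)) (hq : G.Fil r (((u⁻¹ : Rˣ) : R) * θ * u * θ - 1)) :
    θ * G.comp 0 (u : R) = G.comp 0 (u : R) * θ := by
  have h1 := stepA_c0 G hr hu hq
  rw [Grd.comp_mul_right G hπ, Grd.comp_mul_left G hπ] at h1
  calc θ * G.comp 0 (u : R) = θ * G.comp 0 (u : R) * (θ * θ) := by rw [hθ, mul_one]
    _ = θ * G.comp 0 (u : R) * θ * θ := by rw [mul_assoc (θ * G.comp 0 (u : R))]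
    _ = G.comp 0 (u : R) * θ := by rw [h1]

theorem stepA_f (hθ : θ * θ = 1) (hπ : ∀ i, θ * G.π i = G.π i * θ) (hr : 0 < r)
    (hu : G.Fil 0 (u : R)) (hq : G.Fil r (((u⁻¹ : Rˣ) : R) * θ * u * θ - 1)) :
    G.comp r (u - θ * u * θ) =
      - (G.comp 0 (u : R) * G.comp r (((u⁻¹ : Rˣ) : R) * θ * u * θ - 1)) := by
  have e : (u : R) - θ * u * θ = -((u : R) * (((u⁻¹ : Rˣ) : R) * θ * u * θ - 1)) := by
    rw [stepA_conj, mul_sub, mul_one, neg_sub]
  have h := Grd.comp_mul G hu hq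
  rw [zero_add] at h
  rw [e, Grd.comp_neg, h]

theorem stepA_odd (hθ : θ * θ = 1) (hπ : ∀ i, θ * G.π i = G.π i * θ) :
    θ * G.comp r (u - θ * u * θ) * θ = - G.comp r (u - θ * u * θ) := by
  rw [← Grd.comp_mul_left G hπ, ← Grd.comp_mul_right G hπ, ← Grd.comp_neg]
  congr 1
  rw [mul_sub, sub_mul, neg_sub]
  congr 1
  calc θ * (θ * u * θ) * θ = (θ * θ) * u * (θ * θ) := by simp only [mul_assoc]
    _ = (u : R) := by rw [hθ, one_mul, mul_one]

theorem stepA_sA_neg (t f : R) (n : ℕ) : sA t (-f) n = - sA t f n := by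
  unfold sA
  rw [← sum_neg_distrib]
  refine sum_congr rfl fun i _ => ?_
  rw [mul_neg, neg_mul]

theorem stepA_sA_smul (t f : R) (n : ℕ) :
    sA ((2 : ℕ) • t) f (n + 1) = (2 : ℕ) ^ n • sA t f (n + 1) := by
  unfold sA
  rw [smul_sum]
  refine sum_congr rfl fun i hi => ?_
  rw [mem_range] at hi
  have e : n = i + (n - i) := by omega
  have e2 : n + 1 - 1 - i = n - i := by omega
  rw [e2, smul_pow, smul_pow, smul_mul_assoc, smul_mul_assoc, mul_smul_comm, smul_smul,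
    ← pow_add, ← e]

theorem stepA_two (h2 : ∀ y : R, y + y = 0 → y = 0) (n : ℕ) (y : R)
    (h : (2 : ℕ) ^ n • y = 0) : y = 0 := by
  induction n with
  | zero => simpa using h
  | succ n ih =>
    apply ih
    apply h2
    rw [pow_succ, mul_smul] at h
    rw [← two_nsmul, ← h, smul_smul, smul_smul, mul_comm]

theorem stepA_nil (h2 : ∀ y : R, y + y = 0 → y = 0) (hθ : θ * θ = 1)
    (hπ : ∀ i, θ * G.π i = G.π i * θ) (hr : 0 < r)
    (hu : G.Fil 0 (u : R)) (hq : G.Fil r (((u⁻¹ : Rˣ) : R) * θ * u * θ - 1))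
    (hk : ((u : R) - 1) ^ k = 0) :
    sA (G.comp 0 (u : R) - 1) (G.comp r (u - θ * u * θ)) k = 0 := by
  rcases Nat.eq_zero_or_pos k with rfl | hkpos
  · unfold sA
    rw [range_zero, sum_empty]
  obtain ⟨m, rfl⟩ : ∃ m, k = m + 1 := ⟨k - 1, by omega⟩
  obtain ⟨A, hAdef⟩ : ∃ A : R, A = u + θ * u * θ - 2 := ⟨_, rfl⟩
  obtain ⟨B, hBdef⟩ : ∃ B : R, B = u - θ * u * θ := ⟨_, rfl⟩
  have hθ0 : G.Fil 0 θ := Grd.fil_of_comm G hπ
  have hc : G.Fil 0 (θ * u * θ) := by
    have h := Grd.Fil.mul G (Grd.Fil.mul G hθ0 hu) hθ0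
    simpa using h
  have htwo : (2 : R) = 1 + 1 := by norm_num
  have hA : G.Fil 0 A := by
    rw [hAdef, htwo, sub_eq_add_neg]
    exact Grd.Fil.add G (Grd.Fil.add G hu hc)
      (Grd.Fil.neg G (Grd.Fil.add G (Grd.fil_one G) (Grd.fil_one G)))
  have hB : G.Fil r B := by
    have e : B = -((u : R) * (((u⁻¹ : Rˣ) : R) * θ * u * θ - 1)) := by
      rw [hBdef, stepA_conj, mul_sub, mul_one, neg_sub]
    rw [e]
    have h := Grd.Fil.mul G hu hq
    rw [zero_add] at h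
    exact Grd.Fil.neg G h
  have hcA : G.comp 0 A = (2 : ℕ) • (G.comp 0 (u : R) - 1) := by
    rw [hAdef, htwo, sub_eq_add_neg, Grd.comp_add, Grd.comp_add, Grd.comp_neg, Grd.comp_add,
      Grd.comp_one, stepA_c0 G hr hu hq, two_nsmul]
    abel
  have hAB : A + B = (2 : ℕ) • ((u : R) - 1) := by
    rw [hAdef, hBdef, htwo, two_nsmul]
    abel
  have hAB' : A + -B = θ * ((2 : ℕ) • ((u : R) - 1)) * θ := by
    have e : θ * ((2 : ℕ) • ((u : R) - 1)) * θ = (θ * u * θ - θ * θ) + (θ * u * θ - θ * θ) := by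
      rw [two_nsmul, mul_add, add_mul, mul_sub, mul_one, sub_mul]
    rw [e, hAdef, hBdef, hθ, htwo]
    abel
  have hp1 : (A + B) ^ (m + 1) = 0 := by
    rw [hAB, smul_pow, hk, smul_zero]
  have hp2 : (A + -B) ^ (m + 1) = 0 := by
    have hconj : ∀ n : ℕ, (θ * ((2 : ℕ) • ((u : R) - 1)) * θ) ^ n =
        θ * ((2 : ℕ) • ((u : R) - 1)) ^ n * θ := by
      intro n
      induction n with
      | zero => rw [pow_zero, pow_zero, mul_one, hθ]
      | succ n ih =>
        rw [pow_succ, ih, pow_succ]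
        calc θ * ((2 : ℕ) • ((u : R) - 1)) ^ n * θ * (θ * ((2 : ℕ) • ((u : R) - 1)) * θ)
            = θ * ((2 : ℕ) • ((u : R) - 1)) ^ n * (θ * θ) * ((2 : ℕ) • ((u : R) - 1)) * θ := by
              simp only [mul_assoc]
          _ = θ * (((2 : ℕ) • ((u : R) - 1)) ^ n * ((2 : ℕ) • ((u : R) - 1))) * θ := by
              rw [hθ, mul_one, mul_assoc θ]
    rw [hAB', hconj, smul_pow, hk, smul_zero, mul_zero, zero_mul]
  have h1 := comp_pow G hr hA hB (m + 1)
  have h3 := comp_pow G hr hA (Grd.Fil.neg G hB) (m + 1)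
  rw [hp1] at h1
  rw [hp2, Grd.comp_neg, stepA_sA_neg] at h3
  have h4 : sA (G.comp 0 A) (G.comp r B) (m + 1) + sA (G.comp 0 A) (G.comp r B) (m + 1) = 0 := by
    have h5 := h1.symm.trans h3
    have h6 : sA (G.comp 0 A) (G.comp r B) (m + 1) = -sA (G.comp 0 A) (G.comp r B) (m + 1) :=
      add_left_cancel h5
    calc sA (G.comp 0 A) (G.comp r B) (m + 1) + sA (G.comp 0 A) (G.comp r B) (m + 1)
        = sA (G.comp 0 A) (G.comp r B) (m + 1) + -sA (G.comp 0 A) (G.comp r B) (m + 1) := by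
          rw [← h6]
      _ = 0 := add_neg_cancel _
  have h5 := h2 _ h4
  rw [hcA, stepA_sA_smul] at h5
  have h6 := stepA_two h2 m _ h5
  rw [hBdef] at h6
  exact h6

end Pool.Agent.Lib.MP_b9166b_al.Pt
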