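import Pool.Agent.Lib.MP_b9166b_al.Pt.PurX
import Pool.Agent.Lib.MP_b9166b_al.Pt.Fdx
import Pool.Agent.Lib.MP_b9166b_al.Pt.ResX
import Pool.Agent.Lib.MP_b9166b_al.Pt.Lam
import Pool.Agent.Lib.MP_b9166b_al.Pt.Solve

/-!
# MP_b9166b_al, PT: the step in the ring (7.3), (7.5)

`e₁ = m 1`, `e₂ = m' 1`, `e = e₁ + e₂`, `e' = 1 - e₁ - e₂`, `t = x - 1`. `x` commutes with `e₁, e₂, e'` (`hxm`, `hxm'` for `α = 1`). `FD u k`, `FD (opu u) k`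
from Fdx. Odd elements: `ξ = e ξ e' + e' ξ e = e ξ + ξ e`.
(1) `f = -(x q)` is odd too. `sA t (f e₁) k = sA t f k * e₁ = 0` etc. `exists_lam` for `m` and `u`, `solve_left` for `f * e₁`, `solve_right` for `e₁ * f`;
`exists_lam` for `m' ∘ unop` and `opu u` (`hx`: `unop (opu u * op α * (opu u)⁻¹) = u α u⁻¹`), `solve_left` for `f * e₂`, `solve_right` for `e₂ * f`. The sum `η`
of the four solutions satisfies `t η - η t = f e₁ + f e₂ + e₁ f + e₂ f = f`. So `q = - x⁻¹ f = x⁻¹ η x - η = x ξ x⁻¹ - ξ` with `ξ = - x⁻¹ η x`.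
(2) `M` is stable under the `(S.X ..).m α`, `(S.X ..).m' α` by `MM.stable` and `X_N` (`hM`, `hodd`). `purity_X` for `(m, m')` with `S = End Z`,
`u`, and for `(m' ∘ unop, m ∘ unop)` with `S = (End Z)ᵐᵒᵖ`, `opu u`; add the two results: `e q e' + e' q e = q`.
-/

set_option autoImplicit false

namespace Pool.Agent.Lib.MP_b9166b_al.Pt

open Module

/-- the partial sums of `f * e` for `e` commuting with `t` -/
private theorem sA_mul_right {R : Type} [Ring R] {t e f : R} (h : t * e = e * t) (k : ℕ) :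
    sA t (f * e) k = sA t f k * e := by
  unfold sA
  rw [Finset.sum_mul]
  refine Finset.sum_congr rfl fun i _ => ?_
  have h1 : Commute e (t ^ (k - 1 - i)) := (Commute.pow_right (show Commute e t from h.symm) _)
  rw [mul_assoc, mul_assoc, mul_assoc, mul_assoc, h1.eq]

private theorem sA_mul_left {R : Type} [Ring R] {t e f : R} (h : t * e = e * t) (k : ℕ) :
    sA t (e * f) k = e * sA t f k := by
  unfold sA
  rw [Finset.mul_sum]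
  refine Finset.sum_congr rfl fun i _ => ?_
  have h1 : Commute e (t ^ i) := (Commute.pow_right (show Commute e t from h.symm) _)
  rw [← mul_assoc, ← mul_assoc, ← mul_assoc, h1.eq]

/-- the two solutions for one representation -/
private theorem stepB_sol {S K W : Type} [Ring S] [Field K] [AddCommGroup W] [Module K W]
    [FiniteDimensional K W] {u : Sˣ} {k : ℕ} (hk : 0 < k) (D : FD u k) (m : S → (W →ₗ[K] W))
    (hadd : ∀ α β, m (α + β) = m α + m β) (hmul : ∀ α β, m (α * β) = m α * m β)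
    (x : (W →ₗ[K] W)ˣ)
    (hx : ∀ α, (x : W →ₗ[K] W) * m α = m ((u : S) * α * ((u⁻¹ : Sˣ) : S)) * x)
    (hxk : ((x : W →ₗ[K] W) - 1) ^ k = 0) (hxe : (x : W →ₗ[K] W) * m 1 = m 1 * x)
    {f : W →ₗ[K] W} (hf : sA ((x : W →ₗ[K] W) - 1) f k = 0) :
    ∃ η : W →ₗ[K] W, ((x : W →ₗ[K] W) - 1) * η - η * ((x : W →ₗ[K] W) - 1) =
      f * m 1 + m 1 * f := by
  obtain ⟨lam, h1, -, h3, h4, -⟩ := exists_lam hk D m hadd hmul x hx (by rw [hxk, zero_mul])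
  have hc : ((x : W →ₗ[K] W) - 1) * m 1 = m 1 * ((x : W →ₗ[K] W) - 1) := by
    rw [sub_mul, mul_sub, hxe, one_mul, mul_one]
  have hee : m 1 * m 1 = m 1 := by rw [← hmul, one_mul]
  obtain ⟨a, h5⟩ : ∃ a, ((x : W →ₗ[K] W) - 1) * a - a * ((x : W →ₗ[K] W) - 1) = f * m 1 :=
    ⟨_, solve_left (f := f * m 1) lam h1 h3 h4 (by rw [mul_assoc, hee])
      (by rw [sA_mul_right hc, hf, zero_mul])⟩
  obtain ⟨b, h6⟩ : ∃ b, ((x : W →ₗ[K] W) - 1) * b - b * ((x : W →ₗ[K] W) - 1) = m 1 * f :=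
    ⟨_, solve_right (f := m 1 * f) lam h1 h3 h4 (by rw [← mul_assoc, hee])
      (by rw [sA_mul_left hc, hf, mul_zero])⟩
  refine ⟨a + b, ?_⟩
  rw [← h5, ← h6, mul_add, add_mul]
  abel

private theorem stepB_char {F Z : Type} {p : ℕ} [Field F] [CharP F p] [AddCommGroup Z]
    [Module F Z] : ((p : ℕ) : Z →ₗ[F] Z) = 0 := by
  ext z
  have h1 : ((p : ℕ) : Z →ₗ[F] Z) z = (p : F) • z := by
    rw [Module.End.natCast_apply, Nat.cast_smul_eq_nsmul]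
  rw [h1, CharP.cast_eq_zero, zero_smul]
  rfl

private theorem opu_pow_ne {S : Type} [Ring S] (u : Sˣ) {n : ℕ} (h : ((u : S) - 1) ^ n ≠ 0) :
    ((opu u : Sᵐᵒᵖ) - 1) ^ n ≠ 0 := by
  intro h0
  apply h
  have h1 : (((u⁻¹ : Sˣ) : S) - 1) ^ n = 0 := by
    have h2 : MulOpposite.op ((((u⁻¹ : Sˣ) : S) - 1) ^ n) = 0 := by
      rw [MulOpposite.op_pow, MulOpposite.op_sub, MulOpposite.op_one]
      exact h0
    exact MulOpposite.op_eq_zero_iff _ |>.1 h2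
  have h3 : (u : S) - 1 = -(u : S) * (((u⁻¹ : Sˣ) : S) - 1) := by
    rw [mul_sub, neg_mul, Units.mul_inv, mul_one]
    abel
  have h4 : Commute (-(u : S)) (((u⁻¹ : Sˣ) : S) - 1) := by
    refine Commute.sub_right ?_ (Commute.one_right _)
    refine Commute.neg_left ?_
    change (u : S) * ((u⁻¹ : Sˣ) : S) = ((u⁻¹ : Sˣ) : S) * (u : S)
    rw [Units.mul_inv, Units.inv_mul]
  rw [h3, h4.mul_pow, h1, mul_zero]

theorem stepB {p : ℕ} (hp : p.Prime) {F Z K W : Type} [Field F] [CharP F p] [AddCommGroup Z]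
    [Module F Z] [FiniteDimensional F Z] [Field K] [CharP K p] [AddCommGroup W] [Module K W]
    [FiniteDimensional K W] (S : MM F Z (W →ₗ[K] W)) (h8 : 8 ≤ finrank F Z)
    (u : (Z →ₗ[F] Z)ˣ) (x : (W →ₗ[K] W)ˣ) {k : ℕ} (hk : 0 < k)
    (huk : ((u : Z →ₗ[F] Z) - 1) ^ k = 0)
    (hfree : finrank F Z ≤
      k * finrank F (LinearMap.range (((u : Z →ₗ[F] Z) - 1) ^ (k - 1))))
    (hxk : ((x : W →ₗ[K] W) - 1) ^ k = 0)
    (hxm : ∀ α, (x : W →ₗ[K] W) * S.m α =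
      S.m ((u : Z →ₗ[F] Z) * α * ((u⁻¹ : (Z →ₗ[F] Z)ˣ) : Z →ₗ[F] Z)) * x)
    (hxm' : ∀ α, (x : W →ₗ[K] W) * S.m' α =
      S.m' ((u : Z →ₗ[F] Z) * α * ((u⁻¹ : (Z →ₗ[F] Z)ˣ) : Z →ₗ[F] Z)) * x)
    (M : AddSubgroup (W →ₗ[K] W))
    (hodd : ∀ ξ ∈ M, (S.m 1 + S.m' 1) * ξ * (S.m 1 + S.m' 1) = 0 ∧
      (1 - S.m 1 - S.m' 1) * ξ * (1 - S.m 1 - S.m' 1) = 0)
    (hM : ∀ v f, f v = 0 → ∀ ξ ∈ M, S.N v f * ξ - ξ * S.N v f ∈ M)
    (hxM : ∀ w ∈ M, (x : W →ₗ[K] W) * w * ((x⁻¹ : (W →ₗ[K] W)ˣ) : W →ₗ[K] W) ∈ M)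
    (hxM' : ∀ w ∈ M, ((x⁻¹ : (W →ₗ[K] W)ˣ) : W →ₗ[K] W) * w * x ∈ M) {q : W →ₗ[K] W}
    (hq : q ∈ M) (hnil : sA ((x : W →ₗ[K] W) - 1) (-((x : W →ₗ[K] W) * q)) k = 0) :
    ∃ w ∈ M, q = (x : W →ₗ[K] W) * w * ((x⁻¹ : (W →ₗ[K] W)ˣ) : W →ₗ[K] W) - w := by
  classical
  -- notation
  obtain ⟨e₁, he₁⟩ : ∃ e₁, e₁ = S.m 1 := ⟨_, rfl⟩
  obtain ⟨e₂, he₂⟩ : ∃ e₂, e₂ = S.m' 1 := ⟨_, rfl⟩
  obtain ⟨hee', hkl⟩ := S.kl_one
  have hx1 : (x : W →ₗ[K] W) * S.m 1 = S.m 1 * x := by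
    have h1 := hxm 1
    rwa [mul_one, Units.mul_inv] at h1
  have hx2 : (x : W →ₗ[K] W) * S.m' 1 = S.m' 1 * x := by
    have h1 := hxm' 1
    rwa [mul_one, Units.mul_inv] at h1
  have hxe : (x : W →ₗ[K] W) * (1 - S.m 1 - S.m' 1) = (1 - S.m 1 - S.m' 1) * x := by
    rw [mul_sub, mul_sub, sub_mul, sub_mul, hx1, hx2, mul_one, one_mul]
  obtain ⟨D⟩ := exists_fd u hk huk hfree
  obtain ⟨D'⟩ := exists_fd_op u hk huk hfree
  have hu : ((u : Z →ₗ[F] Z) - 1) ^ (k - 1) ≠ 0 := by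
    intro h0
    rw [h0, LinearMap.range_zero, finrank_bot, mul_zero] at hfree
    omega
  -- the opposite representations
  have hopm : ∀ a b : (Z →ₗ[F] Z)ᵐᵒᵖ, S.m' (MulOpposite.unop (a * b)) =
      S.m' (MulOpposite.unop a) * S.m' (MulOpposite.unop b) := by
    intro a b
    rw [MulOpposite.unop_mul, S.mul']
  have hopx : ∀ a : (Z →ₗ[F] Z)ᵐᵒᵖ, MulOpposite.unop ((opu u : (Z →ₗ[F] Z)ᵐᵒᵖ) * a *
      (((opu u)⁻¹ : ((Z →ₗ[F] Z)ᵐᵒᵖ)ˣ) : (Z →ₗ[F] Z)ᵐᵒᵖ)) =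
      (u : Z →ₗ[F] Z) * MulOpposite.unop a * ((u⁻¹ : (Z →ₗ[F] Z)ˣ) : Z →ₗ[F] Z) := by
    intro a
    rw [MulOpposite.unop_mul, MulOpposite.unop_mul]
    exact (mul_assoc _ _ _).symm
  -- (1)
  have hodq := hodd q hq
  have hqe : q * (S.m 1 + S.m' 1) + (S.m 1 + S.m' 1) * q = q := by
    have h1 := hodq.1
    have h2 := hodq.2
    have h3 : (1 - S.m 1 - S.m' 1) * q * (1 - S.m 1 - S.m' 1) =
        q - (q * (S.m 1 + S.m' 1) + (S.m 1 + S.m' 1) * q) +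
          (S.m 1 + S.m' 1) * q * (S.m 1 + S.m' 1) := by
      noncomm_ring
    rw [h1, add_zero, h2] at h3
    exact (sub_eq_zero.1 h3.symm).symm
  obtain ⟨η₁, hη₁⟩ := stepB_sol hk D S.m S.add S.mul x hxm hxk hx1 hnil
  obtain ⟨η₂, hη₂⟩ := stepB_sol hk D' (fun a => S.m' (MulOpposite.unop a))
    (fun a b => S.add' _ _) hopm x (fun a => by rw [hopx]; exact hxm' _) hxk hx2 hnil
  have hη : (x : W →ₗ[K] W) * (η₁ + η₂) - (η₁ + η₂) * x = -((x : W →ₗ[K] W) * q) := by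
    have h1 : -((x : W →ₗ[K] W) * q) * S.m 1 + S.m 1 * -((x : W →ₗ[K] W) * q) +
        (-((x : W →ₗ[K] W) * q) * S.m' 1 + S.m' 1 * -((x : W →ₗ[K] W) * q)) =
        -((x : W →ₗ[K] W) * q) := by
      have h2 : S.m 1 * ((x : W →ₗ[K] W) * q) = (x : W →ₗ[K] W) * (S.m 1 * q) := by
        rw [← mul_assoc, ← hx1, mul_assoc]
      have h3 : S.m' 1 * ((x : W →ₗ[K] W) * q) = (x : W →ₗ[K] W) * (S.m' 1 * q) := by
        rw [← mul_assoc, ← hx2, mul_assoc]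
      rw [mul_neg, mul_neg, h2, h3]
      conv_rhs => rw [← hqe]
      noncomm_ring
    rw [← h1]
    have h4 : -((x : W →ₗ[K] W) * q) * S.m' (MulOpposite.unop 1) +
        S.m' (MulOpposite.unop 1) * -((x : W →ₗ[K] W) * q) =
        -((x : W →ₗ[K] W) * q) * S.m' 1 + S.m' 1 * -((x : W →ₗ[K] W) * q) := rfl
    rw [← h4, ← hη₁, ← hη₂]
    noncomm_ring
  have hw' : ∃ ξ, q = (x : W →ₗ[K] W) * ξ * ((x⁻¹ : (W →ₗ[K] W)ˣ) : W →ₗ[K] W) - ξ := by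
    refine ⟨-(((x⁻¹ : (W →ₗ[K] W)ˣ) : W →ₗ[K] W) * (η₁ + η₂) * x), ?_⟩
    have h1 : (x : W →ₗ[K] W) * -(((x⁻¹ : (W →ₗ[K] W)ˣ) : W →ₗ[K] W) * (η₁ + η₂) * x) *
        ((x⁻¹ : (W →ₗ[K] W)ˣ) : W →ₗ[K] W) = -(η₁ + η₂) := by
      rw [mul_neg, neg_mul, mul_assoc ((x⁻¹ : (W →ₗ[K] W)ˣ) : W →ₗ[K] W), Units.mul_inv_cancel_left,
        Units.mul_inv_cancel_right]
    have h2 : ((x⁻¹ : (W →ₗ[K] W)ˣ) : W →ₗ[K] W) * ((x : W →ₗ[K] W) * (η₁ + η₂) -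
        (η₁ + η₂) * x) = -q := by
      rw [hη, mul_neg, Units.inv_mul_cancel_left]
    rw [mul_sub, Units.inv_mul_cancel_left, ← mul_assoc] at h2
    rw [h1]
    have h3 : q = -(-q) := (neg_neg q).symm
    rw [h3, ← h2]
    abel
  -- (2)
  have hstab : ∀ (α : Z →ₗ[F] Z), ∀ w ∈ M,
      S.m α * w * (1 - S.m 1 - S.m' 1) + (1 - S.m 1 - S.m' 1) * w * S.m' α ∈ M ∧
      S.m' α * w * (1 - S.m 1 - S.m' 1) + (1 - S.m 1 - S.m' 1) * w * S.m α ∈ M := by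
    intro α w hw
    exact MM.stable (S.X _ S.kl_one) h8 M (fun v f hf ξ hξ => by
      rw [S.X_N v f (hodd ξ hξ).1]
      exact hM v f hf ξ hξ) α hw
  obtain ⟨w₁, hw₁, h₁⟩ := purity_X hp stepB_char stepB_char (fun α hα => exists_simp hα)
    (1 - S.m 1 - S.m' 1) hee' S.m S.m' S.add S.add' S.mul S.mul' (fun α => (hkl α).1)
    (fun α => (hkl α).2) u hk D hu x hxe hxm hxm' hxk M (fun α w hw => (hstab α w hw).1) hxM hxM'
    hq hw'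
  obtain ⟨w₂, hw₂, h₂⟩ := purity_X hp (S := (Z →ₗ[F] Z)ᵐᵒᵖ) stepB_char
    (by rw [← MulOpposite.op_natCast, stepB_char, MulOpposite.op_zero])
    (fun α hα => simp_op α hα)
    (1 - S.m 1 - S.m' 1) hee' (fun a => S.m' (MulOpposite.unop a))
    (fun a => S.m (MulOpposite.unop a)) (fun a b => S.add' _ _) (fun a b => S.add _ _) hopm
    (fun a b => by rw [MulOpposite.unop_mul, S.mul]) (fun α => (hkl _).2)
    (fun α => (hkl _).1) (opu u) hk D' (opu_pow_ne u hu) x hxe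
    (fun a => by rw [hopx]; exact hxm' _) (fun a => by rw [hopx]; exact hxm _) hxk M
    (fun α w hw => (hstab _ w hw).2) hxM hxM' hq hw'
  refine ⟨w₁ + w₂, add_mem hw₁ hw₂, ?_⟩
  have h₂' : S.m' 1 * q * (1 - S.m 1 - S.m' 1) + (1 - S.m 1 - S.m' 1) * q * S.m 1 =
      (x : W →ₗ[K] W) * w₂ * ((x⁻¹ : (W →ₗ[K] W)ˣ) : W →ₗ[K] W) - w₂ := h₂
  have h3 : q = (S.m 1 * q * (1 - S.m 1 - S.m' 1) + (1 - S.m 1 - S.m' 1) * q * S.m' 1) +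
      (S.m' 1 * q * (1 - S.m 1 - S.m' 1) + (1 - S.m 1 - S.m' 1) * q * S.m 1) := by
    have h4 : (S.m 1 * q * (1 - S.m 1 - S.m' 1) + (1 - S.m 1 - S.m' 1) * q * S.m' 1) +
      (S.m' 1 * q * (1 - S.m 1 - S.m' 1) + (1 - S.m 1 - S.m' 1) * q * S.m 1) =
        (q * (S.m 1 + S.m' 1) + (S.m 1 + S.m' 1) * q) -
          2 • ((S.m 1 + S.m' 1) * q * (S.m 1 + S.m' 1)) := by
      noncomm_ring
    rw [h4, hqe, hodq.1, smul_zero, sub_zero]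
  have h5 : (x : W →ₗ[K] W) * (w₁ + w₂) * ((x⁻¹ : (W →ₗ[K] W)ˣ) : W →ₗ[K] W) - (w₁ + w₂) =
      ((x : W →ₗ[K] W) * w₁ * ((x⁻¹ : (W →ₗ[K] W)ˣ) : W →ₗ[K] W) - w₁) +
      ((x : W →ₗ[K] W) * w₂ * ((x⁻¹ : (W →ₗ[K] W)ˣ) : W →ₗ[K] W) - w₂) := by
    rw [mul_add, add_mul]
    abel
  rw [h5, ← h₁, ← h₂']
  exact h3

end Pool.Agent.Lib.MP_b9166b_al.Pt
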