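import Pool.Agent.Lib.MP_b9166b_al.Pt.Cd
import Pool.Agent.Lib.MP_b9166b_al.Pt.StepA
import Pool.Agent.Lib.MP_b9166b_al.Pt.StepB

/-!
# MP_b9166b_al, PT: the step (7.5)

Notation: `G` a grading adapted to the series `c.c`, commuting with `ρ θ`; `R = End W`; `th = ρ θ`, `th² = 1` (`th_el`); `x = comp 0 (ρ u)`, `s₀ = comp 0 (ρ s)`,
`q = u⁻¹ θ u θ⁻¹`, `ρ q = (ρ u)⁻¹ * th * ρ u * th`.

`step_q`: `q ∈ Q^r`; `comp r (ρ q - 1)` is odd: `stepA_f`, `stepA_odd`, `stepA_comm`. `stepA_nil` (with `h2` as `p ≠ 2`).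
`step_w`: `stepB` for `S.res ι κ`, `u_Z = κ (a u) ι` (a unit, inverse `κ (a u⁻¹) ι`), `x` (a unit, `comp_inv`; `(x - 1)^k = comp 0 ((ρ u - 1)^k)`), `M = Mr`
(`Gm.conj`, `Mr_N`, `Mr_conj`), and `f = -(x * comp r (ρ q - 1)) = comp r (ρ u - th * ρ u * th)`. It gives `w ∈ M` with `comp r (ρ q - 1) = x w x⁻¹ - w`.
`step_avg`: `s` commutes with `u, θ`, so `s₀` commutes with `x`, `th`, `comp r (ρ q - 1)`. `n = orderOf s`, `A ξ = s₀ ξ s₀⁻¹`, `A^n = 1`. With an integer `n'` such that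
`n n' ≡ 1` mod `p`: `w' = n' • ∑_{i<n} A^i w ∈ M` is fixed by `A`, and again `comp r (ρ q - 1) = x w' x⁻¹ - w'`.
`step_lift`: `w = comp r (ρ t - 1)`, `t ∈ Q^r`. `⁅t, s⁆ ∈ Q^(r+1)` as `s₀` commutes with `w`. `Ks.exists_commute_mul` for the normal `p`-subgroup `Q^(r+1)` of `Γ`
(`(Nat.card Q).Coprime (orderOf s)`) gives `t' = t * t₁`, `t₁ ∈ Q^(r+1)`, commuting with `s`, with the same symbol.
`step_new`: `θ' = t⁻¹ θ t`, `μ = comp r (ρ t - 1)` odd. Modulo `Fil (r+1)`: `ρ θ' = (1 - μ) th (1 + μ) = th (1 + 2 μ)`, `ρ θ'⁻¹ = (1 - 2 μ) th`,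
`ρ (u⁻¹ θ' u θ'⁻¹) = ρ u⁻¹ th ρ u (1 + 2 x⁻¹ μ x) (1 - 2 μ) th = (1 + q_r) th (1 + 2 (x⁻¹ μ x - μ)) th = 1 + q_r - 2 (x⁻¹ μ x - μ)` (`x⁻¹ μ x - μ` is odd).
`step`: with `w` from `step_avg` take `μ = j • (x w x⁻¹)`, `2 j ≡ -1` mod `p`: `2 (μ - x⁻¹ μ x) = - (x w x⁻¹ - w) = - q_r`, `μ ∈ M` commutes with `s₀`; `step_lift` for `μ`,
`step_new`.
-/

set_option autoImplicit false

namespace Pool.Agent.Lib.MP_b9166b_al.Pt

open Module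

section ring

variable {R : Type} [Ring R]

/-- `1 - 2 e` is an involution for an idempotent `e` -/
theorem stQ_inv {e : R} (he : e * e = e) : (1 - e - e) * (1 - e - e) = 1 := by
  have h1 : (1 - e - e) * (1 - e - e) = 1 - e - e - e - e + (e * e + e * e + e * e + e * e) := by
    noncomm_ring
  rw [h1, he]
  abel

/-- odd elements -/
theorem stQ_odd (h2 : ∀ y : R, y + y = 0 → y = 0) {e ξ : R} (he : e * e = e)
    (h : (1 - e - e) * ξ * (1 - e - e) = -ξ) :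
    e * ξ * e = 0 ∧ (1 - e) * ξ * (1 - e) = 0 := by
  obtain ⟨θ, hθ⟩ : ∃ θ : R, θ = 1 - e - e := ⟨_, rfl⟩
  have hθ2 : θ * θ = 1 := by rw [hθ]; exact stQ_inv he
  rw [← hθ] at h
  have h1 : θ * ξ = -(ξ * θ) := by
    calc θ * ξ = θ * ξ * (θ * θ) := by rw [hθ2, mul_one]
      _ = (θ * ξ * θ) * θ := by rw [mul_assoc (θ * ξ)]
      _ = -(ξ * θ) := by rw [h, neg_mul]
  have h3 : (1 - θ) * ξ * (1 - θ) = 0 := by
    have : (1 - θ) * ξ * (1 - θ) = ξ - ξ * θ - θ * ξ + θ * ξ * θ := by noncomm_ring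
    rw [this, h, h1]
    abel
  have h4 : (1 + θ) * ξ * (1 + θ) = 0 := by
    have : (1 + θ) * ξ * (1 + θ) = ξ + ξ * θ + θ * ξ + θ * ξ * θ := by noncomm_ring
    rw [this, h, h1]
    abel
  have e1 : (1 - θ) = e + e := by rw [hθ]; abel
  have e2 : (1 + θ) = (1 - e) + (1 - e) := by rw [hθ]; abel
  rw [e1] at h3
  rw [e2] at h4
  constructor
  · apply h2
    apply h2
    rw [← h3]
    noncomm_ring
  · apply h2
    apply h2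
    rw [← h4]
    noncomm_ring

/-- the average over a cyclic group -/
theorem stQ_avg {a b w : R} {n : ℕ} (hab : a * b = 1) (ha : a ^ n = 1) (hb : b ^ n = 1)
    (hba : b * a = 1) :
    a * (∑ i ∈ Finset.range n, a ^ i * w * b ^ i) =
      (∑ i ∈ Finset.range n, a ^ i * w * b ^ i) * a := by
  have h1 : a * (∑ i ∈ Finset.range n, a ^ i * w * b ^ i) * b =
      ∑ i ∈ Finset.range n, a ^ i * w * b ^ i := by
    have h2 : ∀ i, a * (a ^ i * w * b ^ i) * b = a ^ (i + 1) * w * b ^ (i + 1) := by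
      intro i
      rw [pow_succ' a, pow_succ b]
      simp only [mul_assoc]
    rw [Finset.mul_sum, Finset.sum_mul, Finset.sum_congr rfl fun i _ => h2 i]
    have h3 := Finset.sum_range_succ (fun i => a ^ i * w * b ^ i) n
    rw [Finset.sum_range_succ', ha, hb, pow_zero, pow_zero] at h3
    exact add_right_cancel h3
  calc a * (∑ i ∈ Finset.range n, a ^ i * w * b ^ i)
      = a * (∑ i ∈ Finset.range n, a ^ i * w * b ^ i) * (b * a) := by rw [hba, mul_one]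
    _ = a * (∑ i ∈ Finset.range n, a ^ i * w * b ^ i) * b * a := by
        rw [mul_assoc (a * _)]
    _ = _ := by rw [h1]

end ring

/-- `2` is invertible -/
theorem stQ_two {p : ℕ} (hp : p.Prime) (hp2 : p ≠ 2) {K W : Type} [Field K] [CharP K p]
    [AddCommGroup W] [Module K W] (y : W →ₗ[K] W) (h : y + y = 0) : y = 0 := by
  have h2 : (2 : K) ≠ 0 := by
    intro h0
    have h1 : ((2 : ℕ) : K) = 0 := by exact_mod_cast h0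
    rw [CharP.cast_eq_zero_iff K p] at h1
    exact hp2 ((Nat.prime_dvd_prime_iff_eq hp Nat.prime_two).1 h1)
  rw [← two_smul K y] at h
  exact (smul_eq_zero.1 h).resolve_left h2

section

variable {p : ℕ} {Γ F V K W : Type} [Group Γ] [Field F] [AddCommGroup V] [Module F V] [Field K]
  [AddCommGroup W] [Module K W] {l : ℕ}

theorem stQ_rho (ρ : Γ →* (W →ₗ[K] W)) (g : Γ) : ρ g * ρ g⁻¹ = 1 := by
  rw [← map_mul, mul_inv_cancel, map_one]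

theorem stQ_rho' (ρ : Γ →* (W →ₗ[K] W)) (g : Γ) : ρ g⁻¹ * ρ g = 1 := by
  rw [← map_mul, inv_mul_cancel, map_one]

variable {ρ : Γ →* (W →ₗ[K] W)} {G : Grd (W →ₗ[K] W) l}

/-- `comp 0` is multiplicative -/
theorem stQ_c0 (hf : ∀ g, G.Fil 0 (ρ g)) (g g' : Γ) :
    G.comp 0 (ρ (g * g')) = G.comp 0 (ρ g) * G.comp 0 (ρ g') := by
  have h := Grd.comp_mul G (hf g) (hf g')
  rw [add_zero] at h
  rw [map_mul, h]

theorem stQ_c0_one : G.comp 0 (ρ 1) = 1 := by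
  rw [map_one, Grd.comp_one]

theorem stQ_c0_inv (hf : ∀ g, G.Fil 0 (ρ g)) (g : Γ) :
    G.comp 0 (ρ g) * G.comp 0 (ρ g⁻¹) = 1 := by
  rw [← stQ_c0 hf, mul_inv_cancel, stQ_c0_one]

theorem stQ_c0_inv' (hf : ∀ g, G.Fil 0 (ρ g)) (g : Γ) :
    G.comp 0 (ρ g⁻¹) * G.comp 0 (ρ g) = 1 := by
  rw [← stQ_c0 hf, inv_mul_cancel, stQ_c0_one]

theorem stQ_c0_pow (hf : ∀ g, G.Fil 0 (ρ g)) (g : Γ) (n : ℕ) :
    G.comp 0 (ρ g) ^ n = G.comp 0 (ρ (g ^ n)) := by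
  induction n with
  | zero => rw [pow_zero, pow_zero, stQ_c0_one]
  | succ n ih => rw [pow_succ, pow_succ, stQ_c0 hf, ih]

theorem stQ_c0_comm (hf : ∀ g, G.Fil 0 (ρ g)) {g g' : Γ} (h : Commute g g') :
    G.comp 0 (ρ g) * G.comp 0 (ρ g') = G.comp 0 (ρ g') * G.comp 0 (ρ g) := by
  rw [← stQ_c0 hf, ← stQ_c0 hf, h.eq]

/-- an element commuting with `q` commutes with its symbol -/
theorem stQ_symb (hf : ∀ g, G.Fil 0 (ρ g)) {g q : Γ} {r : ℕ} (hq : G.Fil r (ρ q - 1))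
    (h : Commute g q) : G.comp 0 (ρ g) * G.comp r (ρ q - 1) =
      G.comp r (ρ q - 1) * G.comp 0 (ρ g) := by
  have h1 := Grd.comp_mul G (hf g) hq
  have h2 := Grd.comp_mul G hq (hf g)
  rw [zero_add] at h1
  rw [add_zero] at h2
  rw [← h1, ← h2]
  congr 1
  rw [mul_sub, sub_mul, mul_one, one_mul, ← map_mul, ← map_mul, h.eq]

/-- powers in degree 0 -/
theorem stQ_pow {R : Type} [Ring R] {G : Grd R l} {f : R} (hf : G.Fil 0 f) (n : ℕ) :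
    G.Fil 0 (f ^ n) ∧ G.comp 0 (f ^ n) = G.comp 0 f ^ n := by
  induction n with
  | zero =>
    rw [pow_zero, pow_zero]
    exact ⟨Grd.fil_one G, Grd.comp_one G⟩
  | succ n ih =>
    rw [pow_succ, pow_succ]
    have h1 := Grd.Fil.mul G ih.1 hf
    have h2 := Grd.comp_mul G ih.1 hf
    rw [add_zero] at h1 h2
    exact ⟨h1, by rw [h2, ih.2]⟩

end

/-- the idempotent `m (ι κ) + m' (ι κ)` -/
theorem stQ_idem {F V Z R : Type} [Field F] [AddCommGroup V] [Module F V] [AddCommGroup Z]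
    [Module F Z] [Ring R] (S : MM F V R) {ι : Z →ₗ[F] V} {κ : V →ₗ[F] Z} (h : κ ∘ₗ ι = 1) :
    (S.m (ι ∘ₗ κ) + S.m' (ι ∘ₗ κ)) * (S.m (ι ∘ₗ κ) + S.m' (ι ∘ₗ κ)) =
      S.m (ι ∘ₗ κ) + S.m' (ι ∘ₗ κ) := by
  have hP : (ι ∘ₗ κ) * (ι ∘ₗ κ) = ι ∘ₗ κ := by
    ext v
    change ι (κ (ι (κ v))) = ι (κ v)
    have h1 := LinearMap.congr_fun h (κ v)
    change κ (ι (κ v)) = κ v at h1
    rw [h1]
  rw [mul_add, add_mul, add_mul, S.orth, S.orth', ← S.mul, ← S.mul', hP, add_zero, zero_add]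

variable {p : ℕ} (hp : p.Prime) (hp2 : p ≠ 2) {Γ F V K W Z : Type} [Group Γ] [Finite Γ] [Field F]
  [CharP F p] [AddCommGroup V] [Module F V] [FiniteDimensional F V] [Field K] [CharP K p]
  [AddCommGroup W] [Module K W] [FiniteDimensional K W] [Finite W] [AddCommGroup Z] [Module F Z]
  {ℓ : Lay p Γ F V} {ρ : Γ →* (W →ₗ[K] W)} {ι : Z →ₗ[F] V} {κ : V →ₗ[F] Z} {u s : Γ} {k l : ℕ}
  {c : Series ρ ⊤ l}

include hp hp2

theorem step_q (h : Cd ℓ ρ ι κ u s k) {θ : Γ} (hθ : Tl ℓ ι κ s θ) {r : ℕ} (hr : 0 < r)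
    (hq : u⁻¹ * θ * u * θ⁻¹ ∈ ℓ.Qr ρ c.c l r) {G : Grd (W →ₗ[K] W) l} (hG : Adp G c.c)
    (hGθ : ∀ i, ρ θ * G.π i = G.π i * ρ θ) :
    ρ θ * ρ θ = 1 ∧ ρ θ * G.comp 0 (ρ u) = G.comp 0 (ρ u) * ρ θ ∧
    G.comp r (ρ (u⁻¹ * θ * u * θ⁻¹) - 1) ∈ ℓ.Mr ρ c.c r G (ρ θ) ∧
    sA (G.comp 0 (ρ u) - 1)
      (-(G.comp 0 (ρ u) * G.comp r (ρ (u⁻¹ * θ * u * θ⁻¹) - 1))) k = 0 := by
  obtain ⟨S, hS⟩ := exists_gm hp ℓ ρ (h.h8V hp) h.hD c G hG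
  have hθ1 := th_el hp hS h.κι hθ hGθ
  have hθ2 : ρ θ * ρ θ = 1 := by
    rw [hθ1]
    exact stQ_inv (stQ_idem S h.κι)
  have hθ3 : ρ θ⁻¹ = ρ θ := by
    calc ρ θ⁻¹ = ρ θ⁻¹ * (ρ θ * ρ θ) := by rw [hθ2, mul_one]
      _ = ρ θ := by rw [← mul_assoc, stQ_rho', one_mul]
  obtain ⟨U, hU, hU'⟩ : ∃ U : (W →ₗ[K] W)ˣ, (U : W →ₗ[K] W) = ρ u ∧
      ((U⁻¹ : (W →ₗ[K] W)ˣ) : W →ₗ[K] W) = ρ u⁻¹ :=
    ⟨⟨ρ u, ρ u⁻¹, stQ_rho ρ u, stQ_rho' ρ u⟩, rfl, rfl⟩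
  have hρq : ρ (u⁻¹ * θ * u * θ⁻¹) = ((U⁻¹ : (W →ₗ[K] W)ˣ) : W →ₗ[K] W) * ρ θ * U * ρ θ := by
    rw [map_mul, map_mul, map_mul, hθ3, hU, hU']
  have hfu : G.Fil 0 (U : W →ₗ[K] W) := by
    rw [hU]
    exact hS.fil u
  have hfq : G.Fil r (ρ (u⁻¹ * θ * u * θ⁻¹) - 1) := ((mem_Qr_fil hp hG).1 hq).2
  have hfq' := hfq
  rw [hρq] at hfq'
  have hcomm := stepA_comm G hθ2 hGθ hr hfu hfq'
  have hF := stepA_f G hθ2 hGθ hr hfu hfq'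
  have hO := stepA_odd G (r := r) (u := U) hθ2 hGθ
  have hN := stepA_nil G (k := k) (fun y => stQ_two hp hp2 y) hθ2 hGθ hr hfu hfq'
    (by rw [hU]; exact h.kW)
  rw [hF] at hO hN
  rw [← hρq, hU] at hO hN
  rw [hU] at hcomm
  refine ⟨hθ2, hcomm, ?_, hN⟩
  refine (mem_Mr hp hG hr).2 ⟨_, hq, rfl, ?_⟩
  have h1 : G.comp 0 (ρ u) *
      (ρ θ * G.comp r (ρ (u⁻¹ * θ * u * θ⁻¹) - 1) * ρ θ) =
      G.comp 0 (ρ u) * -G.comp r (ρ (u⁻¹ * θ * u * θ⁻¹) - 1) := by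
    have h2 : ρ θ * -(G.comp 0 (ρ u) * G.comp r (ρ (u⁻¹ * θ * u * θ⁻¹) - 1)) * ρ θ =
        -(G.comp 0 (ρ u) * (ρ θ * G.comp r (ρ (u⁻¹ * θ * u * θ⁻¹) - 1) * ρ θ)) := by
      rw [mul_neg, neg_mul, ← mul_assoc, hcomm]
      simp only [mul_assoc]
    rw [h2, neg_neg] at hO
    rw [mul_neg]
    exact neg_eq_iff_eq_neg.1 hO
  have h3 := congrArg (fun z => G.comp 0 (ρ u⁻¹) * z) h1
  simp only [← mul_assoc, stQ_c0_inv' hS.fil, one_mul] at h3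
  exact h3

theorem step_w (h : Cd ℓ ρ ι κ u s k) {θ : Γ} (hθ : Tl ℓ ι κ s θ) {r : ℕ} (hr : 0 < r)
    (hq : u⁻¹ * θ * u * θ⁻¹ ∈ ℓ.Qr ρ c.c l r) {G : Grd (W →ₗ[K] W) l} (hG : Adp G c.c)
    (hGθ : ∀ i, ρ θ * G.π i = G.π i * ρ θ) :
    ∃ w ∈ ℓ.Mr ρ c.c r G (ρ θ), G.comp r (ρ (u⁻¹ * θ * u * θ⁻¹) - 1) =
      G.comp 0 (ρ u) * w * G.comp 0 (ρ u⁻¹) - w := by
  obtain ⟨hθ2, hcomm, hM, hnil⟩ := step_q hp hp2 h hθ hr hq hG hGθ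
  obtain ⟨S, hS⟩ := exists_gm hp ℓ ρ (h.h8V hp) h.hD c G hG
  have hθ1 := th_el hp hS h.κι hθ hGθ
  have hκι : ∀ z, κ (ι z) = z := fun z => LinearMap.congr_fun h.κι z
  have hua : ∀ v, ℓ.a u (ι (κ v)) = ι (κ (ℓ.a u v)) := fun v => LinearMap.congr_fun h.ua v
  have haa : ∀ v, ℓ.a u (ℓ.a u⁻¹ v) = v := fun v => LinearMap.congr_fun (ℓ.a_mul_inv u) v
  have haa' : ∀ v, ℓ.a u⁻¹ (ℓ.a u v) = v := fun v => LinearMap.congr_fun (ℓ.a_inv_mul u) v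
  have hua' : ∀ v, ℓ.a u⁻¹ (ι (κ v)) = ι (κ (ℓ.a u⁻¹ v)) := by
    intro v
    have h1 := hua (ℓ.a u⁻¹ v)
    rw [haa] at h1
    rw [← h1, haa']
  obtain ⟨uZ, huZ, huZ'⟩ : ∃ uZ : (Z →ₗ[F] Z)ˣ, (uZ : Z →ₗ[F] Z) = κ ∘ₗ ℓ.a u ∘ₗ ι ∧
      ((uZ⁻¹ : (Z →ₗ[F] Z)ˣ) : Z →ₗ[F] Z) = κ ∘ₗ ℓ.a u⁻¹ ∘ₗ ι :=
    ⟨⟨κ ∘ₗ ℓ.a u ∘ₗ ι, κ ∘ₗ ℓ.a u⁻¹ ∘ₗ ι, by
      ext z
      change κ (ℓ.a u (ι (κ (ℓ.a u⁻¹ (ι z))))) = z
      rw [hua, haa, hκι, hκι], by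
      ext z
      change κ (ℓ.a u⁻¹ (ι (κ (ℓ.a u (ι z))))) = z
      rw [hua', haa', hκι, hκι]⟩, rfl, rfl⟩
  obtain ⟨x, hx, hx'⟩ : ∃ x : (W →ₗ[K] W)ˣ, (x : W →ₗ[K] W) = G.comp 0 (ρ u) ∧
      ((x⁻¹ : (W →ₗ[K] W)ˣ) : W →ₗ[K] W) = G.comp 0 (ρ u⁻¹) :=
    ⟨⟨G.comp 0 (ρ u), G.comp 0 (ρ u⁻¹), stQ_c0_inv hS.fil u, stQ_c0_inv' hS.fil u⟩, rfl, rfl⟩
  have hconj : ∀ α : Z →ₗ[F] Z, ℓ.a u * (ι ∘ₗ α ∘ₗ κ) * ℓ.a u⁻¹ =
      ι ∘ₗ ((uZ : Z →ₗ[F] Z) * α * ((uZ⁻¹ : (Z →ₗ[F] Z)ˣ) : Z →ₗ[F] Z)) ∘ₗ κ := by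
    intro α
    rw [huZ, huZ']
    ext v
    change ℓ.a u (ι (α (κ (ℓ.a u⁻¹ v)))) = ι (κ (ℓ.a u (ι (α (κ (ℓ.a u⁻¹ (ι (κ v))))))))
    rw [hua', hκι, ← hua, hκι]
  have hfu1 : G.Fil 0 (ρ u - 1) := by
    rw [sub_eq_add_neg]
    exact Grd.Fil.add G (hS.fil u) (Grd.Fil.neg G (Grd.fil_one G))
  have hxk : ((x : W →ₗ[K] W) - 1) ^ k = 0 := by
    have h1 := (stQ_pow hfu1 k).2
    have h2 : G.comp 0 (ρ u - 1) = (x : W →ₗ[K] W) - 1 := by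
      rw [sub_eq_add_neg, Grd.comp_add, Grd.comp_neg, Grd.comp_one, hx, sub_eq_add_neg]
    have h3 : G.comp 0 (0 : W →ₗ[K] W) = 0 := by
      have h4 := G.comp_add 0 0 0
      rw [add_zero] at h4
      exact left_eq_add.1 h4
    rw [h.kW, h3, h2] at h1
    exact h1.symm
  have hcomm' : ρ θ * G.comp 0 (ρ u⁻¹) = G.comp 0 (ρ u⁻¹) * ρ θ := by
    calc ρ θ * G.comp 0 (ρ u⁻¹)
        = G.comp 0 (ρ u⁻¹) * (G.comp 0 (ρ u) * ρ θ) * G.comp 0 (ρ u⁻¹) := by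
          rw [← mul_assoc, stQ_c0_inv' hS.fil, one_mul]
      _ = G.comp 0 (ρ u⁻¹) * ρ θ * (G.comp 0 (ρ u) * G.comp 0 (ρ u⁻¹)) := by
          rw [← hcomm]
          simp only [mul_assoc]
      _ = G.comp 0 (ρ u⁻¹) * ρ θ := by rw [stQ_c0_inv hS.fil, mul_one]
  have hres : ∀ α, (S.res ι κ h.κι).m α = S.m (ι ∘ₗ α ∘ₗ κ) := fun _ => rfl
  have hres' : ∀ α, (S.res ι κ h.κι).m' α = S.m' (ι ∘ₗ α ∘ₗ κ) := fun _ => rfl
  have h1κ : ι ∘ₗ (1 : Z →ₗ[F] Z) ∘ₗ κ = ι ∘ₗ κ := rfl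
  have hfZ : FiniteDimensional F Z := Module.finite_of_finrank_pos (by
    have h8 := h.h8
    omega)
  have key := stepB hp (S.res ι κ h.κι) h.h8 uZ x h.hk (by rw [huZ]; exact h.kZ)
    (by rw [huZ]; exact h.free) hxk
    (by
      intro α
      rw [hres, hres, hx, (hS.conj u _).1, hconj])
    (by
      intro α
      rw [hres', hres', hx, (hS.conj u _).2, hconj])
    (ℓ.Mr ρ c.c r G (ρ θ))
    (by
      intro ξ hξ
      obtain ⟨t, -, -, h1⟩ := (mem_Mr hp hG hr).1 hξ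
      rw [hθ1] at h1
      have h2 := stQ_odd (fun y => stQ_two hp hp2 y) (stQ_idem S h.κι) h1
      rw [hres, hres', h1κ]
      refine ⟨h2.1, ?_⟩
      rw [sub_sub]
      exact h2.2)
    (by
      intro v f hvf ξ hξ
      exact Mr_N hp hp2 hG hS ι κ h.κι hr hθ1 hvf hξ)
    (by
      intro w hw
      rw [hx, hx']
      exact Mr_conj hp hG hr hcomm hw)
    (by
      intro w hw
      rw [hx, hx']
      have h1 := Mr_conj hp hG hr hcomm' hw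
      rwa [inv_inv] at h1)
    hM (by rw [hx]; exact hnil)
  rw [hx, hx'] at key
  exact key

theorem step_avg (h : Cd ℓ ρ ι κ u s k) {θ : Γ} (hθ : Tl ℓ ι κ s θ) {r : ℕ} (hr : 0 < r)
    (hq : u⁻¹ * θ * u * θ⁻¹ ∈ ℓ.Qr ρ c.c l r) {G : Grd (W →ₗ[K] W) l} (hG : Adp G c.c)
    (hGθ : ∀ i, ρ θ * G.π i = G.π i * ρ θ) :
    ∃ w ∈ ℓ.Mr ρ c.c r G (ρ θ), G.comp r (ρ (u⁻¹ * θ * u * θ⁻¹) - 1) =
      G.comp 0 (ρ u) * w * G.comp 0 (ρ u⁻¹) - w ∧ G.comp 0 (ρ s) * w = w * G.comp 0 (ρ s) := by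
  obtain ⟨w, hw, hqw⟩ := step_w hp hp2 h hθ hr hq hG hGθ
  obtain ⟨S, hS⟩ := exists_gm hp ℓ ρ (h.h8V hp) h.hD c G hG
  obtain ⟨a, ha⟩ : ∃ a, a = G.comp 0 (ρ s) := ⟨_, rfl⟩
  obtain ⟨b, hb⟩ : ∃ b, b = G.comp 0 (ρ s⁻¹) := ⟨_, rfl⟩
  obtain ⟨X, hX⟩ : ∃ X, X = G.comp 0 (ρ u) := ⟨_, rfl⟩
  obtain ⟨Y, hY⟩ : ∃ Y, Y = G.comp 0 (ρ u⁻¹) := ⟨_, rfl⟩
  obtain ⟨y, hy⟩ : ∃ y, y = G.comp r (ρ (u⁻¹ * θ * u * θ⁻¹) - 1) := ⟨_, rfl⟩
  have hab : a * b = 1 := by rw [ha, hb]; exact stQ_c0_inv hS.fil s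
  have hba : b * a = 1 := by rw [ha, hb]; exact stQ_c0_inv' hS.fil s
  have han : a ^ orderOf s = 1 := by
    rw [ha, stQ_c0_pow hS.fil, pow_orderOf_eq_one, stQ_c0_one]
  have hbn : b ^ orderOf s = 1 := by
    rw [hb, stQ_c0_pow hS.fil, inv_pow, pow_orderOf_eq_one, inv_one, stQ_c0_one]
  have hus := h.us
  have hθs := hθ.s
  have haX : Commute a X := by
    rw [ha, hX]
    exact stQ_c0_comm hS.fil hus.symm
  have haY : Commute a Y := by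
    rw [ha, hY]
    exact stQ_c0_comm hS.fil hus.symm.inv_right
  have hbX : Commute b X := by
    rw [hb, hX]
    exact stQ_c0_comm hS.fil hus.symm.inv_left
  have hbY : Commute b Y := by
    rw [hb, hY]
    exact stQ_c0_comm hS.fil hus.symm.inv_left.inv_right
  have hsq : Commute s (u⁻¹ * θ * u * θ⁻¹) :=
    ((hus.symm.inv_right.mul_right hθs.symm).mul_right hus.symm).mul_right hθs.symm.inv_right
  have hay : Commute a y := by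
    rw [ha, hy]
    exact stQ_symb hS.fil ((mem_Qr_fil hp hG).1 hq).2 hsq
  have hθc : ρ θ * a = a * ρ θ := by
    have h1 := stQ_c0_comm (G := G) hS.fil hθs
    rw [Grd.comp_of_comm G hGθ, ← ha] at h1
    exact h1
  rw [← hX, ← hY, ← hy] at hqw
  -- the average
  have hmem : ∀ i : ℕ, a ^ i * w * b ^ i ∈ ℓ.Mr ρ c.c r G (ρ θ) := by
    intro i
    induction i with
    | zero => rw [pow_zero, pow_zero, one_mul, mul_one]; exact hw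
    | succ i ih =>
      have h1 := Mr_conj hp hG hr (x := s) (by rw [← ha]; exact hθc) ih
      rw [← ha, ← hb] at h1
      have h2 : a ^ (i + 1) * w * b ^ (i + 1) = a * (a ^ i * w * b ^ i) * b := by
        rw [pow_succ' a, pow_succ b]
        simp only [mul_assoc]
      rw [h2]
      exact h1
  obtain ⟨w1, hw1⟩ : ∃ w1, w1 = ∑ i ∈ Finset.range (orderOf s), a ^ i * w * b ^ i := ⟨_, rfl⟩
  have hw1M : w1 ∈ ℓ.Mr ρ c.c r G (ρ θ) := by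
    rw [hw1]
    exact AddSubgroup.sum_mem _ fun i _ => hmem i
  have hw1a : a * w1 = w1 * a := by
    rw [hw1]
    exact stQ_avg hab han hbn hba
  have hw1q : X * w1 * Y - w1 = orderOf s • y := by
    have h1 : ∀ i, X * (a ^ i * w * b ^ i) * Y - a ^ i * w * b ^ i = y := by
      intro i
      have e1 : X * (a ^ i * w * b ^ i) * Y = a ^ i * (X * w * Y) * b ^ i := by
        calc X * (a ^ i * w * b ^ i) * Y = (X * a ^ i) * w * (b ^ i * Y) := by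
              simp only [mul_assoc]
          _ = (a ^ i * X) * w * (Y * b ^ i) := by
              rw [(haX.pow_left i).eq, (hbY.pow_left i).eq]
          _ = a ^ i * (X * w * Y) * b ^ i := by simp only [mul_assoc]
      have e2 : X * w * Y = y + w := by rw [hqw]; abel
      have e3 : a ^ i * b ^ i = 1 := by
        have h5 : Commute a b := by
          show a * b = b * a
          rw [hab, hba]
        rw [← h5.mul_pow, hab, one_pow]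
      rw [e1, e2, mul_add, add_mul, add_sub_cancel_right, (hay.pow_left i).eq, mul_assoc, e3,
        mul_one]
    rw [hw1, Finset.mul_sum, Finset.sum_mul, ← Finset.sum_sub_distrib,
      Finset.sum_congr rfl fun i _ => h1 i, Finset.sum_const, Finset.card_range]
  obtain ⟨n', hn'⟩ : ∃ n' : ℕ, ((orderOf s * n' : ℕ) : K) = 1 := by
    have h1 := h.ps
    have h2 : ((orderOf s : ℕ) : K) ≠ 0 := by
      rw [Ne, CharP.cast_eq_zero_iff K p]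
      intro h3
      exact (Nat.Prime.coprime_iff_not_dvd hp).1 h1.symm h3
    obtain ⟨m, hm⟩ := Nat.exists_mul_mod_eq_one_of_coprime h1 hp.one_lt
    refine ⟨m, ?_⟩
    have h4 := CharP.natCast_eq_natCast_mod K p (orderOf s * m)
    rw [hm.2] at h4
    rw [h4, Nat.cast_one]
  have hsm : ∀ (n : ℕ) (z : W →ₗ[K] W), n • z = (n : K) • z := fun n z =>
    (Nat.cast_smul_eq_nsmul K n z).symm
  refine ⟨n' • w1, AddSubgroup.nsmul_mem _ hw1M n', ?_, ?_⟩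
  · rw [← hX, ← hY, ← hy]
    rw [mul_smul_comm, smul_mul_assoc, ← smul_sub, hw1q, smul_smul, mul_comm n', hsm, hn',
      one_smul]
  · rw [← ha, mul_smul_comm, smul_mul_assoc, hw1a]

end Pool.Agent.Lib.MP_b9166b_al.Pt
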