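import Pool.Agent.Lib.MP_b9166b_al.Pt.StQ
import Pool.Agent.Lib.MP_b9166b_al.Pt.StN

/-!
# MP_b9166b_al, PT: the step (7.5)

Notation: `G` a grading adapted to the series `c.c`, commuting with `ρ θ`; `R = End W`; `th = ρ θ`, `th² = 1` (`th_el`); `x = comp 0 (ρ u)`, `s₀ = comp 0 (ρ s)`,
`q = u⁻¹ θ u θ⁻¹`, `ρ q = (ρ u)⁻¹ * th * ρ u * th`.

`step_q`: `q ∈ Q^r`; `comp r (ρ q - 1)` is odd: `stepA_f`, `stepA_odd`, `stepA_comm`. `stepA_nil` (with `h2` as `p ≠ 2`).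
`step_w`: `stepB` for `S.res ι κ`, `u_Z = κ (a u) ι` (a unit, inverse `κ (a u⁻¹) ι`), `x` (a unit, `comp_inv`; `(x - 1)^k = comp 0 ((ρ u - 1)^k)`), `M = Mr`
(`Gm.conj`, `Mr_N`, `Mr_conj`), and `f = -(x * comp r (ρ q - 1)) = comp r (ρ u - th * ρ u * th)`. It gives `w ∈ M` with `comp r (ρ q - 1) = x w x⁻¹ - w`.
`step_avg`: `s` commutes with `u, θ`, so `s₀` commutes with `x`, `th`, `comp r (ρ q - 1)`. `n = orderOf s`, `A ξ = s₀ ξ s₀⁻¹`, `A^n = 1`. With an integer `n'` such that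
`n n' ≡ 1` mod `p`: `w' = n' • ∑_{i<n} A^i w ∈ M` is fixed by `A`, and again `comp r (ρ q - 1) = x w' x⁻¹ - w'`.
`step_lift`: `w = comp r (ρ t - 1)`, `t ∈ Q^r`. `⁅t, s⁆ ∈ Q^(r+1)` as `s₀` commutes with `w`. `Ks.exists_commute_mul` for the normal `p`-subgroup `Q^(r+1)` of `Γ`
(`(Nat.card Q).Coprime (orderOf s)`) gives `t' = t * t₁`, `t₁ ∈ Q^(r+1)`, commuting with `s`, with the same symbol.
`step_new`: `θ' = t⁻¹ θ t`, `μ = comp r (ρ t - 1)` odd. Modulo `Fil (r+1)`: `ρ θ' = (1 - μ) th (1 + μ) = th (1 + 2 μ)`, `ρ θ'⁻¹ = (1 - 2 μ) th`,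
`ρ (u⁻¹ θ' u θ'⁻¹) = ρ u⁻¹ th ρ u (1 + 2 x⁻¹ μ x) (1 - 2 μ) th = (1 + q_r) th (1 + 2 (x⁻¹ μ x - μ)) th = 1 + q_r - 2 (x⁻¹ μ x - μ)` (`x⁻¹ μ x - μ` is odd).
`step`: with `w` from `step_avg` take `μ = j • (x w x⁻¹)`, `2 j ≡ -1` mod `p`: `2 (μ - x⁻¹ μ x) = - (x w x⁻¹ - w) = - q_r`, `μ ∈ M` commutes with `s₀`; `step_lift` for `μ`,
`step_new`.
-/

set_option autoImplicit false

namespace Pool.Agent.Lib.MP_b9166b_al.Pt

open Module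

variable {p : ℕ} (hp : p.Prime) (hp2 : p ≠ 2) {Γ F V K W Z : Type} [Group Γ] [Finite Γ] [Field F]
  [CharP F p] [AddCommGroup V] [Module F V] [FiniteDimensional F V] [Field K] [CharP K p]
  [AddCommGroup W] [Module K W] [FiniteDimensional K W] [Finite W] [AddCommGroup Z] [Module F Z]
  {ℓ : Lay p Γ F V} {ρ : Γ →* (W →ₗ[K] W)} {ι : Z →ₗ[F] V} {κ : V →ₗ[F] Z} {u s : Γ} {k l : ℕ}
  {c : Series ρ ⊤ l}

include hp hp2

/-- **the step** -/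
theorem step (h : Cd ℓ ρ ι κ u s k) {θ : Γ} (hθ : Tl ℓ ι κ s θ) {r : ℕ} (hr : 0 < r)
    (hq : u⁻¹ * θ * u * θ⁻¹ ∈ ℓ.Qr ρ c.c l r) :
    ∃ θ', Tl ℓ ι κ s θ' ∧ u⁻¹ * θ' * u * θ'⁻¹ ∈ ℓ.Qr ρ c.c l (r + 1) := by
  have hst : ∀ g : Γ, ∀ i ≤ l, ∀ w ∈ c.c i, ρ g w ∈ c.c i := by
    intro g i hi w hw
    cases i with
    | zero =>
      rw [c.zero, Submodule.mem_bot] at hw ⊢
      rw [hw, map_zero]
    | succ j => exact (c.irr j (by omega)).inv1 g (Subgroup.mem_top g) w hw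
  obtain ⟨G, hG, hGθ⟩ := exists_grd c.zero c.top (fun i hi => (c.irr i hi).lt.le) (ρ θ)
    (n := orderOf θ) (by rw [← map_pow, pow_orderOf_eq_one, map_one])
    (by
      intro h0
      rw [CharP.cast_eq_zero_iff K p] at h0
      exact hp.one_lt.ne' (hθ.cop.symm.eq_one_of_dvd h0)) (hst θ)
  obtain ⟨S, hS⟩ := exists_gm hp ℓ ρ (Cd.h8V hp h) h.hD c G hG
  have hcm : ∀ g g' : Γ, G.comp 0 (ρ g) * G.comp 0 (ρ g') = G.comp 0 (ρ (g * g')) := by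
    intro g g'
    rw [map_mul]
    exact (G.comp_mul (r := 0) (r' := 0) (hS.fil g) (hS.fil g')).symm
  have hinv : G.comp 0 (ρ u⁻¹) * G.comp 0 (ρ u) = 1 := by
    rw [hcm, inv_mul_cancel, map_one, G.comp_one]
  have hsX : G.comp 0 (ρ s) * G.comp 0 (ρ u) = G.comp 0 (ρ u) * G.comp 0 (ρ s) := by
    rw [hcm, hcm, h.us.eq]
  have hsX' : G.comp 0 (ρ s) * G.comp 0 (ρ u⁻¹) = G.comp 0 (ρ u⁻¹) * G.comp 0 (ρ s) := by
    rw [hcm, hcm, h.us.inv_left.eq]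
  obtain ⟨w, hw, hqw, hsw⟩ := step_avg hp hp2 h hθ hr hq hG hGθ
  obtain ⟨m, hm⟩ := hp.odd_of_ne_two hp2
  have hneg : ∀ ξ : W →ₗ[K] W, 2 * (m • ξ) = -ξ := by
    intro ξ
    have h1 : p • ξ = 0 := by
      rw [← Nat.cast_smul_eq_nsmul K, CharP.cast_eq_zero, zero_smul]
    rw [hm, add_smul, one_smul, mul_smul, two_smul] at h1
    rw [two_mul]
    exact eq_neg_of_add_eq_zero_left h1
  have hμM : m • (G.comp 0 (ρ u) * w * G.comp 0 (ρ u⁻¹)) ∈ ℓ.Mr ρ c.c r G (ρ θ) :=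
    AddSubgroup.nsmul_mem _ (Mr_conj hp hG hr (step_q hp hp2 h hθ hr hq hG hGθ).2.1 hw) m
  obtain ⟨t, ht, hμt, hodd⟩ := (mem_Mr hp hG hr).1 hμM
  have hsμ : G.comp 0 (ρ s) * (m • (G.comp 0 (ρ u) * w * G.comp 0 (ρ u⁻¹))) =
      (m • (G.comp 0 (ρ u) * w * G.comp 0 (ρ u⁻¹))) * G.comp 0 (ρ s) := by
    rw [mul_smul_comm, smul_mul_assoc]
    refine congrArg (fun z => m • z) ?_
    calc G.comp 0 (ρ s) * (G.comp 0 (ρ u) * w * G.comp 0 (ρ u⁻¹))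
        = (G.comp 0 (ρ s) * G.comp 0 (ρ u)) * w * G.comp 0 (ρ u⁻¹) := by simp only [mul_assoc]
      _ = G.comp 0 (ρ u) * (G.comp 0 (ρ s) * w) * G.comp 0 (ρ u⁻¹) := by
        rw [hsX]
        simp only [mul_assoc]
      _ = G.comp 0 (ρ u) * w * (G.comp 0 (ρ s) * G.comp 0 (ρ u⁻¹)) := by
        rw [hsw]
        simp only [mul_assoc]
      _ = G.comp 0 (ρ u) * w * G.comp 0 (ρ u⁻¹) * G.comp 0 (ρ s) := by
        rw [hsX']
        simp only [mul_assoc]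
  obtain ⟨t', ht', htt', hts⟩ := step_lift hp h hr hG ht (by rw [← hμt]; exact hsμ)
  refine ⟨t'⁻¹ * θ * t', ?_, step_new hp hp2 h hθ hr hq hG hGθ ht'
    (by rw [htt', ← hμt]; exact hodd) ?_⟩
  · have hta : ℓ.a t' = 1 := ((ℓ.mem_T hp).1 ((mem_Qr hp).1 ht').1).2.1
    have hta' : ℓ.a t'⁻¹ = 1 := by
      have h1 := ℓ.a_inv_mul t'
      rwa [hta, mul_one] at h1
    refine ⟨?_, ?_, ?_, (hts.inv_left.mul_left hθ.s).mul_left hts⟩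
    · have h1 := El_normal ℓ (x := t'⁻¹) hθ.el
      rwa [inv_inv] at h1
    · rw [map_mul, map_mul, hta, hta', one_mul, mul_one, hθ.a]
    · have h1 : orderOf (t'⁻¹ * θ * t') = orderOf θ := by
        have h2 := orderOf_injective (MulAut.conj t'⁻¹).toMonoidHom (MulAut.conj t'⁻¹).injective θ
        rw [← h2]
        refine congrArg orderOf ?_
        show t'⁻¹ * θ * t' = t'⁻¹ * θ * t'⁻¹⁻¹
        rw [inv_inv]
      rw [h1]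
      exact hθ.cop
  · have h3 : G.comp 0 (ρ u⁻¹) * (m • (G.comp 0 (ρ u) * w * G.comp 0 (ρ u⁻¹))) *
        G.comp 0 (ρ u) = m • w := by
      rw [mul_smul_comm, smul_mul_assoc]
      refine congrArg (fun z => m • z) ?_
      calc G.comp 0 (ρ u⁻¹) * (G.comp 0 (ρ u) * w * G.comp 0 (ρ u⁻¹)) * G.comp 0 (ρ u)
          = (G.comp 0 (ρ u⁻¹) * G.comp 0 (ρ u)) * w * (G.comp 0 (ρ u⁻¹) * G.comp 0 (ρ u)) := by
            simp only [mul_assoc]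
        _ = w := by rw [hinv, one_mul, mul_one]
    rw [htt', ← hμt, hqw, h3, mul_sub, hneg, hneg]
    abel

/-- **coverage** -/
theorem coverage (h : Cd ℓ ρ ι κ u s k) (heven : Even (finrank F Z)) :
    ∃ θ ∈ ℓ.El, ℓ.a θ = th ι κ ∧ Commute θ u ∧ Commute θ s := by
  obtain ⟨l, ⟨c⟩⟩ := exists_series ρ (⊤ : Subgroup Γ)
  have key : ∀ r : ℕ, ∃ θ, Tl ℓ ι κ s θ ∧ u⁻¹ * θ * u * θ⁻¹ ∈ ℓ.Qr ρ c.c l (r + 1) := by
    intro r
    induction r with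
    | zero =>
      obtain ⟨θ, hθ⟩ := Cd.exists_tl hp h hp2 heven
      exact ⟨θ, hθ, Qr_one hp (Cd.q_mem_T hp h hθ)⟩
    | succ r ih =>
      obtain ⟨θ, hθ, hq⟩ := ih
      exact step hp hp2 h hθ (Nat.succ_pos r) hq
  obtain ⟨θ, hθ, hq⟩ := key l
  have h1 := (mem_Qr hp).1 hq
  have h2 : ρ (u⁻¹ * θ * u * θ⁻¹) = 1 := by
    refine LinearMap.ext fun w => ?_
    have h3 := h1.2 l le_rfl w (by rw [c.top]; exact Submodule.mem_top)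
    rw [show l - (l + 1) = 0 by omega, c.zero, Submodule.mem_bot, sub_eq_zero] at h3
    exact h3
  have h3 := h.hT _ h1.1 h2
  rw [mul_inv_eq_one] at h3
  refine ⟨θ, hθ.el, hθ.a, ?_, hθ.s⟩
  show θ * u = u * θ
  calc θ * u = u * (u⁻¹ * θ * u) := by group
    _ = u * θ := by rw [h3]

end Pool.Agent.Lib.MP_b9166b_al.Pt
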